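import Pool.Agent.Lib.MP_c95dcf_gt.GStmts

/-!
# MP_c95dcf_gt, task G26: the Prékopa–Leindler inequality in Euclidean space
-/

set_option autoImplicit false

open MeasureTheory Set Filter Topology
open scoped ENNReal NNReal RealInnerProductSpace

namespace Pool.Agent.Lib.MP_c95dcf_gt

/-- Iterated integrals for functions on `Fin (d + 1) → ℝ`. -/
lemma pl_fubini (d : ℕ) {f : (Fin (d + 1) → ℝ) → ℝ≥0∞} (hf : Measurable f) :
    ∫⁻ x, f x = ∫⁻ t : ℝ, ∫⁻ z : Fin d → ℝ,
      f ((MeasurableEquiv.piFinSuccAbove (fun _ => ℝ) 0).symm (t, z)) := by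
  have h1 := (volume_preserving_piFinSuccAbove (fun _ : Fin (d + 1) => ℝ) 0).symm
  have h2 := h1.lintegral_comp hf
  rw [← h2, Measure.volume_eq_prod, lintegral_prod]
  exact (hf.comp (MeasurableEquiv.measurable _)).aemeasurable

/-- Prékopa–Leindler on `Fin d → ℝ`. -/
lemma pl_pi (h1 : Stmt_PL1) (d : ℕ) : ∀ (f g h : (Fin d → ℝ) → ℝ≥0∞), Measurable f →
    Measurable g → Measurable h → (∀ x y, f x * g y ≤ (h (fun i => (x i + y i) / 2)) ^ 2) →
      (∫⁻ x, f x) * (∫⁻ x, g x) ≤ (∫⁻ x, h x) ^ 2 := by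
  induction d with
  | zero =>
    intro f g h _ _ _ hfg
    have hv : (volume : Measure (Fin 0 → ℝ)) univ = 1 := by
      simp [volume_pi]
    rw [lintegral_unique, lintegral_unique, lintegral_unique, hv, mul_one, mul_one, mul_one]
    have key : ∀ x y z : Fin 0 → ℝ, f x * g y ≤ h z ^ 2 := by
      intro x y z
      have e0 : (fun i : Fin 0 => (x i + y i) / 2) = z := by
        funext i
        exact i.elim0
      have h2 := hfg x y
      rw [e0] at h2
      exact h2
    exact key _ _ _
  | succ d ih =>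
    intro f g h hf hg hh hfg
    rw [pl_fubini d hf, pl_fubini d hg, pl_fubini d hh]
    set e := (MeasurableEquiv.piFinSuccAbove (fun _ : Fin (d + 1) => ℝ) 0).symm with he
    have hf' : Measurable fun p : ℝ × (Fin d → ℝ) => f (e p) := hf.comp e.measurable
    have hg' : Measurable fun p : ℝ × (Fin d → ℝ) => g (e p) := hg.comp e.measurable
    have hh' : Measurable fun p : ℝ × (Fin d → ℝ) => h (e p) := hh.comp e.measurable
    apply h1 _ _ _ hf'.lintegral_prod_right' hg'.lintegral_prod_right' hh'.lintegral_prod_right'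
    intro s t
    apply ih
    · exact hf'.comp measurable_prodMk_left
    · exact hg'.comp measurable_prodMk_left
    · exact hh'.comp measurable_prodMk_left
    · intro x y
      have h3 := hfg (e (s, x)) (e (t, y))
      have h4 : (fun i => (e (s, x) i + e (t, y) i) / 2) =
          e ((s + t) / 2, fun i => (x i + y i) / 2) := by
        funext i
        refine Fin.cases ?_ (fun j => ?_) i
        · simp [he, MeasurableEquiv.piFinSuccAbove]
        · simp [he, MeasurableEquiv.piFinSuccAbove]
      rw [h4] at h3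
      exact h3

theorem pl (h : Stmt_PL1) : Stmt_PL := by
  intro d f g h' hf hg hh hfg
  have hmp := (EuclideanSpace.volume_preserving_symm_measurableEquiv_toLp (Fin d)).symm
  have e1 : ∀ F : E d → ℝ≥0∞, Measurable F → ∫⁻ x, F x =
      ∫⁻ x : Fin d → ℝ, F ((MeasurableEquiv.toLp 2 (Fin d → ℝ)) x) := by
    intro F hF
    exact (hmp.lintegral_comp hF).symm
  rw [e1 f hf, e1 g hg, e1 h' hh]
  apply pl_pi h d
  · exact hf.comp (MeasurableEquiv.measurable _)
  · exact hg.comp (MeasurableEquiv.measurable _)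
  · exact hh.comp (MeasurableEquiv.measurable _)
  · intro x y
    have h3 := hfg ((MeasurableEquiv.toLp 2 (Fin d → ℝ)) x) ((MeasurableEquiv.toLp 2 (Fin d → ℝ)) y)
    have h4 : (1 / 2 : ℝ) • ((MeasurableEquiv.toLp 2 (Fin d → ℝ)) x +
        (MeasurableEquiv.toLp 2 (Fin d → ℝ)) y) =
        (MeasurableEquiv.toLp 2 (Fin d → ℝ)) (fun i => (x i + y i) / 2) := by
      ext i
      change (1 / 2 : ℝ) * (x i + y i) = (x i + y i) / 2
      ring
    rw [h4] at h3
    exact h3

end Pool.Agent.Lib.MP_c95dcf_gt
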