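import Pool.Agent.Lib.MP_c95dcf_gt.Mg.G002

/-!
# MP_c95dcf_gt, part T: compactness in the thin limit

The limit of a sequence of sets with bounded scaled perimeters does not depend on the fibre
coordinate.
-/

set_option autoImplicit false

open MeasureTheory Set Filter Topology
open scoped ENNReal NNReal RealInnerProductSpace

namespace Pool.Agent.Lib.MP_c95dcf_gt

variable {m : ℕ}

lemma CompE_jn_castAdd (v : E m) (i : Fin 2) : (jn 0 v : E (2 + m)) (Fin.castAdd m i) = 0 := by
  fin_cases i <;> simp [jn]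

lemma CompE_jn_natAdd (v : E m) (i : Fin m) : (jn 0 v : E (2 + m)) (Fin.natAdd 2 i) = v i := by
  simp [jn]

lemma CompE_jn_sum (v : E m) :
    (jn 0 v : E (2 + m)) = ∑ i : Fin m, v i • EuclideanSpace.single (Fin.natAdd 2 i) (1 : ℝ) := by
  ext k
  rw [WithLp.ofLp_sum, Finset.sum_apply]
  refine Fin.addCases (fun i => ?_) (fun i => ?_) k
  · rw [CompE_jn_castAdd]
    symm
    apply Finset.sum_eq_zero
    intro j _
    simp [Fin.ext_iff]
    intro h
    omega
  · rw [CompE_jn_natAdd, Finset.sum_eq_single i]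
    · simp
    · intro j _ hj
      simp [Fin.ext_iff]
      intro h
      exact absurd (Fin.ext (by omega)) hj
    · simp

/-- The scaled divergence of a vertical field. -/
lemma CompE_dve (ε : ℝ) (f : E (2 + m) → ℝ) (v : E m) (p : E (2 + m))
    (hf : DifferentiableAt ℝ f p) :
    dve ε (fun q => f q • (jn 0 v : E (2 + m))) p = ε⁻¹ * fderiv ℝ f p (jn 0 v) := by
  have h1 : ∀ w, fderiv ℝ (fun q => f q • (jn 0 v : E (2 + m))) p w =
      fderiv ℝ f p w • (jn 0 v : E (2 + m)) := by
    intro w
    rw [fderiv_smul_const hf]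
    rfl
  rw [dve]
  simp only [h1, PiLp.smul_apply, CompE_jn_castAdd, CompE_jn_natAdd, smul_eq_mul, mul_zero,
    Finset.sum_const_zero, zero_add]
  congr 1
  conv_rhs => rw [CompE_jn_sum v]
  rw [map_sum]
  apply Finset.sum_congr rfl
  intro i _
  rw [map_smul, smul_eq_mul, mul_comm]

/-- A bounded function has close integrals over close sets. -/
lemma CompE_close {n : ℕ} {A B : Set (E n)} (hA : MeasurableSet A) (hB : MeasurableSet B)
    (fA : volume A ≠ ∞) (fB : volume B ≠ ∞) {g : E n → ℝ} (hg : Continuous g) {c : ℝ}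
    (hc : ∀ x, |g x| ≤ c) :
    |(∫ x in A, g x) - ∫ x in B, g x| ≤ c * (volume (symmDiff A B)).toReal := by
  have iA : IntegrableOn g A := Measure.integrableOn_of_bounded fA
    hg.aestronglyMeasurable (M := c) (Eventually.of_forall hc)
  have iB : IntegrableOn g B := Measure.integrableOn_of_bounded fB
    hg.aestronglyMeasurable (M := c) (Eventually.of_forall hc)
  have hS : MeasurableSet (symmDiff A B) := hA.symmDiff hB
  have fS : volume (symmDiff A B) ≠ ∞ :=
    ne_top_of_le_ne_top (ENNReal.add_ne_top.2 ⟨fA, fB⟩)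
      ((measure_mono symmDiff_subset_union).trans (measure_union_le _ _))
  rw [← integral_indicator hA, ← integral_indicator hB, ← integral_sub
    ((integrable_indicator_iff hA).2 iA) ((integrable_indicator_iff hB).2 iB)]
  have h1 : ∫ x, (symmDiff A B).indicator (fun _ => c) x = c * (volume (symmDiff A B)).toReal := by
    rw [integral_indicator hS, setIntegral_const, smul_eq_mul, mul_comm]
    rfl
  rw [← h1, ← Real.norm_eq_abs]
  apply norm_integral_le_of_norm_le
  · rw [integrable_indicator_iff hS]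
    exact integrableOn_const fS
  · refine Eventually.of_forall fun x => ?_
    have := hc x
    by_cases h1 : x ∈ A <;> by_cases h2 : x ∈ B <;>
      simp [h1, h2, Set.mem_symmDiff, indicator, this]

/-- Bound for the derivative of a function in a vertical direction. -/
lemma CompE_le {ε : ℝ} (hε : 0 < ε) {A : Set (E (2 + m))} {M : ℝ≥0} (hP : Pe m ε A ≤ M)
    {f : E (2 + m) → ℝ} (hf : ContDiff ℝ 1 f) (hcf : HasCompactSupport f)
    (hs : tsupport f ⊆ Ub m 1) (v : E m) {c : ℝ} (hc : 0 < c)
    (hb : ∀ p, ‖f p • (jn 0 v : E (2 + m))‖ ≤ c) :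
    ∫ p in A, fderiv ℝ f p (jn 0 v) ≤ c * M * ε := by
  set X : E (2 + m) → E (2 + m) := fun q => (c⁻¹ * f q) • (jn 0 v : E (2 + m)) with hX
  have hts : tsupport X ⊆ tsupport f := by
    apply closure_mono
    intro q hq
    rw [Function.mem_support] at hq ⊢
    intro h0
    apply hq
    simp [hX, h0]
  have h1 : TF (Ub m 1) X := by
    refine ⟨?_, ?_, hts.trans hs⟩
    · exact (contDiff_const.mul hf).smul contDiff_const
    · exact IsCompact.of_isClosed_subset hcf (isClosed_tsupport X) hts
  have h2 : ∀ x, ‖X x‖ ≤ 1 := by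
    intro x
    have h3 : X x = c⁻¹ • (f x • (jn 0 v : E (2 + m))) := by
      simp only [hX, smul_smul]
    rw [h3, norm_smul, Real.norm_of_nonneg (inv_pos.2 hc).le, inv_mul_le_iff₀ hc, mul_one]
    exact hb x
  have h3 : ENNReal.ofReal (∫ x in A, dve ε X x) ≤ M :=
    le_trans (le_iSup₂ (f := fun (X : E (2 + m) → E (2 + m))
      (_ : TF (Ub m 1) X ∧ ∀ x, ‖X x‖ ≤ 1) => ENNReal.ofReal (∫ x in A, dve ε X x)) X ⟨h1, h2⟩) hP
  have h4 : ∫ x in A, dve ε X x ≤ M := by
    have := (ENNReal.ofReal_le_iff_le_toReal ENNReal.coe_ne_top).1 h3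
    simpa using this
  have h5 : ∀ p, dve ε X p = (ε⁻¹ * c⁻¹) * fderiv ℝ f p (jn 0 v) := by
    intro p
    have hd : DifferentiableAt ℝ f p := hf.differentiable one_ne_zero p
    rw [hX, CompE_dve ε (fun q => c⁻¹ * f q) v p (hd.const_mul _), fderiv_const_mul hd]
    simp [mul_assoc]
  simp only [h5] at h4
  rw [integral_const_mul] at h4
  have h6 : (ε⁻¹ * c⁻¹) * (∫ p in A, fderiv ℝ f p (jn 0 v)) * (c * ε) =
      ∫ p in A, fderiv ℝ f p (jn 0 v) := by
    field_simp
  rw [← h6]
  calc _ ≤ (M : ℝ) * (c * ε) := mul_le_mul_of_nonneg_right h4 (by positivity)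
    _ = c * M * ε := by ring

/-- The limit set has no vertical derivative. -/
lemma CompE_limit_le {ε : ℕ → ℝ} {A : ℕ → Set (E (2 + m))} {B : Set (E (2 + m))} {M : ℝ≥0}
    (hU : Bornology.IsBounded (Ub m 1)) (hε : ∀ j, 0 < ε j) (hlim : Tendsto ε atTop (𝓝 0))
    (hA : ∀ j, MeasurableSet (A j)) (hAU : ∀ j, A j ⊆ Ub m 1) (hP : ∀ j, Pe m (ε j) (A j) ≤ M)
    (hB : MeasurableSet B) (hBU : B ⊆ Ub m 1)
    (hconv : Tendsto (fun j => volume (symmDiff (A j) B)) atTop (𝓝 0))
    {f : E (2 + m) → ℝ} (hf : ContDiff ℝ 1 f) (hcf : HasCompactSupport f)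
    (hs : tsupport f ⊆ Ub m 1) (v : E m) :
    ∫ p in B, fderiv ℝ f p (jn 0 v) ≤ 0 := by
  have fU : volume (Ub m 1) ≠ ∞ := hU.measure_lt_top.ne
  have fin : ∀ C : Set (E (2 + m)), C ⊆ Ub m 1 → volume C ≠ ∞ := fun C hC =>
    ne_top_of_le_ne_top fU (measure_mono hC)
  obtain ⟨c, hc⟩ : ∃ c, ∀ p, ‖f p • (jn 0 v : E (2 + m))‖ ≤ c :=
    (hcf.smul_right (f' := fun _ => (jn 0 v : E (2 + m)))).exists_bound_of_continuous
      (hf.continuous.smul continuous_const)
  have hc' : ∀ p, ‖f p • (jn 0 v : E (2 + m))‖ ≤ max c 1 := fun p => (hc p).trans (le_max_left _ _)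
  have hcpos : 0 < max c 1 := lt_of_lt_of_le one_pos (le_max_right _ _)
  have hg : Continuous (fun p => fderiv ℝ f p (jn 0 v : E (2 + m))) :=
    (hf.continuous_fderiv one_ne_zero).clm_apply continuous_const
  obtain ⟨d, hd⟩ : ∃ d, ∀ p, ‖fderiv ℝ f p (jn 0 v : E (2 + m))‖ ≤ d := by
    apply HasCompactSupport.exists_bound_of_continuous _ hg
    apply (hcf.fderiv ℝ).mono
    intro p hp
    rw [Function.mem_support] at hp ⊢
    intro h
    apply hp
    rw [h]
    rfl
  have h1 : ∀ j, ∫ p in B, fderiv ℝ f p (jn 0 v : E (2 + m)) ≤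
      max c 1 * M * ε j + d * (volume (symmDiff (A j) B)).toReal := by
    intro j
    have h2 := CompE_le (hε j) (hP j) hf hcf hs v hcpos hc'
    have h3 := CompE_close (hA j) hB (fin _ (hAU j)) (fin _ hBU) hg hd
    rw [abs_le] at h3
    linarith [h3.1]
  have h4 : Tendsto (fun j => max c 1 * M * ε j + d * (volume (symmDiff (A j) B)).toReal) atTop
      (𝓝 (max c 1 * M * 0 + d * 0)) := by
    apply Tendsto.add (hlim.const_mul _)
    apply Tendsto.const_mul
    have := (ENNReal.tendsto_toReal ENNReal.zero_ne_top).comp hconv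
    rw [ENNReal.toReal_zero] at this
    exact this
  have h5 := ge_of_tendsto h4 (Eventually.of_forall h1)
  simpa using h5

/-- `B` has no vertical derivative in the sense of distributions. -/
def CompEVert (B : Set (E (2 + m))) : Prop :=
  ∀ (f : E (2 + m) → ℝ) (v : E m), ContDiff ℝ 1 f → HasCompactSupport f →
    tsupport f ⊆ Ub m 1 → ∫ p in B, fderiv ℝ f p (jn 0 v) = 0

lemma CompE_jn_neg (v : E m) : (jn 0 (-v) : E (2 + m)) = - jn 0 v := by
  have := (jnL m).map_neg (0, v)
  simpa [jnL] using this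

lemma CompE_vert {ε : ℕ → ℝ} {A : ℕ → Set (E (2 + m))} {B : Set (E (2 + m))} {M : ℝ≥0}
    (hU : Bornology.IsBounded (Ub m 1)) (hε : ∀ j, 0 < ε j) (hlim : Tendsto ε atTop (𝓝 0))
    (hA : ∀ j, MeasurableSet (A j)) (hAU : ∀ j, A j ⊆ Ub m 1) (hP : ∀ j, Pe m (ε j) (A j) ≤ M)
    (hB : MeasurableSet B) (hBU : B ⊆ Ub m 1)
    (hconv : Tendsto (fun j => volume (symmDiff (A j) B)) atTop (𝓝 0)) : CompEVert B := by
  intro f v hf hcf hs
  apply le_antisymm (CompE_limit_le hU hε hlim hA hAU hP hB hBU hconv hf hcf hs v)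
  have := CompE_limit_le hU hε hlim hA hAU hP hB hBU hconv hf hcf hs (-v)
  simp only [CompE_jn_neg, map_neg] at this
  rw [integral_neg] at this
  linarith

/-- Integrals of translates over `B`. -/
lemma CompE_shift {B : Set (E (2 + m))} (hB : CompEVert B) (fB : volume B ≠ ∞)
    {f : E (2 + m) → ℝ} {v : E m} (hf : ContDiff ℝ 1 f) (hcf : HasCompactSupport f)
    (hs : ∀ p ∈ tsupport f, ∀ s : ℝ, 0 ≤ s → s ≤ 1 → p - s • (jn 0 v : E (2 + m)) ∈ Ub m 1) :
    ∫ p in B, f (p + jn 0 v) = ∫ p in B, f p := by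
  set e : E (2 + m) := jn 0 v with he
  have hg : Continuous (fun p => fderiv ℝ f p e) :=
    (hf.continuous_fderiv one_ne_zero).clm_apply continuous_const
  obtain ⟨d, hd⟩ : ∃ d, ∀ p, ‖fderiv ℝ f p e‖ ≤ d := by
    apply HasCompactSupport.exists_bound_of_continuous _ hg
    apply (hcf.fderiv ℝ).mono
    intro p hp
    rw [Function.mem_support] at hp ⊢
    intro h
    apply hp
    rw [h]
    rfl
  obtain ⟨c, hc⟩ : ∃ c, ∀ p, ‖f p‖ ≤ c := hcf.exists_bound_of_continuous hf.continuous
  have hder : ∀ s : ℝ, HasDerivAt (fun s : ℝ => ∫ p in B, f (p + s • e))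
      (∫ p in B, fderiv ℝ f (p + s • e) e) s := by
    intro s
    refine (hasDerivAt_integral_of_dominated_loc_of_deriv_le (F := fun (s : ℝ) p => f (p + s • e))
      (F' := fun (s : ℝ) p => fderiv ℝ f (p + s • e) e) (bound := fun _ => d)
      (s := univ) univ_mem ?_ ?_ ?_ ?_ ?_ ?_).2
    · refine Eventually.of_forall fun s => ?_
      exact (hf.continuous.comp (continuous_id.add continuous_const)).aestronglyMeasurable
    · exact Measure.integrableOn_of_bounded fB
        (hf.continuous.comp (continuous_id.add continuous_const)).aestronglyMeasurable (M := c)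
        (Eventually.of_forall fun p => hc _)
    · exact (hg.comp (continuous_id.add continuous_const)).aestronglyMeasurable
    · exact Eventually.of_forall fun p s _ => hd _
    · exact integrableOn_const fB
    · refine Eventually.of_forall fun p s _ => ?_
      have h1 : HasFDerivAt f (fderiv ℝ f (p + s • e)) (p + s • e) :=
        (hf.differentiable one_ne_zero _).hasFDerivAt
      have h2 : HasDerivAt (fun s : ℝ => p + s • e) e s := by
        have := ((hasDerivAt_id s).smul_const e).const_add p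
        simpa using this
      exact h1.comp_hasDerivAt s h2
  have hzero : ∀ s ∈ Ico (0 : ℝ) 1, ∫ p in B, fderiv ℝ f (p + s • e) e = 0 := by
    intro s hs'
    have h1 : ∀ p, fderiv ℝ f (p + s • e) e = fderiv ℝ (fun q => f (q + s • e)) p e := by
      intro p
      rw [fderiv_comp_add_right]
    simp only [h1]
    apply hB
    · exact hf.comp (contDiff_id.add contDiff_const)
    · exact hcf.comp_homeomorph (Homeomorph.addRight (s • e))
    · intro p hp
      have h2 : tsupport (fun q => f (q + s • e)) ⊆ (fun q => q + s • e) ⁻¹' tsupport f :=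
        tsupport_comp_subset_preimage f (continuous_id.add continuous_const)
      have h3 := hs _ (h2 hp) s hs'.1 hs'.2.le
      simpa using h3
  have h5 := constant_of_has_deriv_right_zero (f := fun s : ℝ => ∫ p in B, f (p + s • e))
    (a := 0) (b := 1) (fun s _ => (hder s).continuousAt.continuousWithinAt)
    (fun s hs' => by
      have := (hder s).hasDerivWithinAt (s := Ici s)
      rw [hzero s hs'] at this
      exact this) 1 (by simp)
  simpa using h5

/-- `B` is invariant under vertical translations inside the body. -/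
lemma CompE_transl {B : Set (E (2 + m))} (hB : CompEVert B) (mB : MeasurableSet B)
    (fB : volume B ≠ ∞) (hUo : IsOpen (Ub m 1)) (hUc : Convex ℝ (Ub m 1)) (v : E m) :
    ∀ᵐ p : E (2 + m), p ∈ Ub m 1 → p - jn 0 v ∈ Ub m 1 → (p ∈ B ↔ p - jn 0 v ∈ B) := by
  set e : E (2 + m) := jn 0 v with he
  set V : Set (E (2 + m)) := Ub m 1 ∩ (fun p => p - e) ⁻¹' Ub m 1 with hV
  have hVo : IsOpen V := hUo.inter (hUo.preimage (continuous_id.sub continuous_const))
  have hi : ∀ w : E (2 + m), Integrable (fun p => B.indicator (fun _ => (1 : ℝ)) (p - w)) := by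
    intro w
    have h1 : Integrable (B.indicator (fun _ => (1 : ℝ))) :=
      (integrable_indicator_iff mB).2 (integrableOn_const fB)
    exact h1.comp_sub_right w
  have h0 := hi 0
  simp only [sub_zero] at h0
  have hmain := hVo.ae_eq_zero_of_integral_contDiff_smul_eq_zero (μ := volume)
    (f := fun p => B.indicator (fun _ => (1 : ℝ)) (p - e) - B.indicator (fun _ => (1 : ℝ)) p)
    (((hi e).sub h0).locallyIntegrable.locallyIntegrableOn V) (by
      intro g hg hcg hsg
      have hg1 : ContDiff ℝ 1 g := hg.of_le (by norm_cast)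
      obtain ⟨c, hc⟩ : ∃ c, ∀ p, ‖g p‖ ≤ c := hcg.exists_bound_of_continuous hg1.continuous
      have h1 := CompE_shift hB fB hg1 hcg (v := v) (by
        intro p hp s hs0 hs1
        have h2 := hsg hp
        have h3 : p - s • e = (1 - s) • p + s • (p - e) := by
          rw [sub_smul, one_smul, smul_sub]; abel
        rw [← he, h3]
        exact hUc h2.1 h2.2 (by linarith) hs0 (by ring))
      have hI : ∀ w : E (2 + m), Integrable
          (fun p => g p * B.indicator (fun _ => (1 : ℝ)) (p - w)) := by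
        intro w
        refine (hi w).bdd_mul (c := c) hg1.continuous.aestronglyMeasurable
          (Eventually.of_forall hc)
      have h2 : ∫ p, g p • (B.indicator (fun _ => (1 : ℝ)) (p - e) -
          B.indicator (fun _ => (1 : ℝ)) p) =
          (∫ p, g p * B.indicator (fun _ => (1 : ℝ)) (p - e)) -
            ∫ p, g p * B.indicator (fun _ => (1 : ℝ)) p := by
        rw [← integral_sub (hI e) (by simpa using hI 0)]
        congr 1
        ext p
        rw [smul_eq_mul, mul_sub]
      rw [h2]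
      have h3 : ∫ p, g p * B.indicator (fun _ => (1 : ℝ)) (p - e) =
          ∫ p, g (p + e) * B.indicator (fun _ => (1 : ℝ)) p := by
        rw [← integral_add_right_eq_self
          (fun p => g p * B.indicator (fun _ => (1 : ℝ)) (p - e)) e]
        simp
      have h4 : ∀ h : E (2 + m) → ℝ, ∫ p, h p * B.indicator (fun _ => (1 : ℝ)) p =
          ∫ p in B, h p := by
        intro h
        rw [← integral_indicator mB]
        congr 1
        ext p
        by_cases hp : p ∈ B <;> simp [hp]
      rw [h3, h4, h4, h1, sub_self])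
  filter_upwards [hmain] with p hp h1 h2
  have h3 := hp ⟨h1, h2⟩
  by_cases h4 : p ∈ B <;> by_cases h5 : p - e ∈ B <;> simp_all

/-- The base of a set `B` which does not depend on the fibre coordinate. -/
def CompEBase (B : Set (E (2 + m))) : Set ℂ :=
  {c | c ∈ Metric.ball (0 : ℂ) m ∧ volume {z : E m | (jn c z : E (2 + m)) ∈ B} ≠ 0}

lemma CompE_base_meas {B : Set (E (2 + m))} (mB : MeasurableSet B) :
    MeasurableSet (CompEBase B) := by
  apply Metric.isOpen_ball.measurableSet.inter
  have h1 : MeasurableSet {q : ℂ × E m | (jn q.1 q.2 : E (2 + m)) ∈ B} := measurable_jn mB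
  have h2 : Measurable (fun c : ℂ => volume {z : E m | (jn c z : E (2 + m)) ∈ B}) :=
    measurable_measure_prodMk_left h1
  exact h2 (measurableSet_singleton 0).compl

/-- Such a set is a lift. -/
lemma CompE_isLift (hm : 0 < m) {B : Set (E (2 + m))} (hB : CompEVert B) (mB : MeasurableSet B)
    (hBU : B ⊆ Ub m 1)
    (fB : volume B ≠ ∞) (hUo : IsOpen (Ub m 1)) (hUc : Convex ℝ (Ub m 1)) :
    ∀ᵐ p : E (2 + m), (p ∈ B ↔ p ∈ lift m (CompEBase B)) := by
  have hUm : MeasurableSet (Ub m 1 : Set (E (2 + m))) := hUo.measurableSet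
  have hmeas : MeasurableSet {q : E m × E (2 + m) | q.2 ∈ Ub m 1 → q.2 - jn 0 q.1 ∈ Ub m 1 →
      (q.2 ∈ B ↔ q.2 - jn 0 q.1 ∈ B)} := by
    have c1 : Measurable (fun q : E m × E (2 + m) => q.2) := measurable_snd
    have c2 : Measurable (fun q : E m × E (2 + m) => q.2 - jn 0 q.1) := by
      apply Measurable.sub measurable_snd
      exact measurable_jn.comp (measurable_const.prodMk measurable_fst)
    have a1 := c1 hUm
    have a2 := c2 hUm
    have a3 := c1 mB
    have a4 := c2 mB
    have e1 : {q : E m × E (2 + m) | q.2 ∈ Ub m 1 → q.2 - jn 0 q.1 ∈ Ub m 1 →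
      (q.2 ∈ B ↔ q.2 - jn 0 q.1 ∈ B)} =
        ((fun q : E m × E (2 + m) => q.2) ⁻¹' Ub m 1)ᶜ ∪
        (((fun q : E m × E (2 + m) => q.2 - jn 0 q.1) ⁻¹' Ub m 1)ᶜ ∪
          ((((fun q : E m × E (2 + m) => q.2) ⁻¹' B) ∩
            ((fun q : E m × E (2 + m) => q.2 - jn 0 q.1) ⁻¹' B)) ∪
           (((fun q : E m × E (2 + m) => q.2) ⁻¹' B)ᶜ ∩
            ((fun q : E m × E (2 + m) => q.2 - jn 0 q.1) ⁻¹' B)ᶜ))) := by
      ext q
      simp only [mem_ofPred_eq, mem_union, mem_compl_iff, mem_preimage, mem_inter_iff]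
      tauto
    rw [e1]
    exact a1.compl.union (a2.compl.union ((a3.inter a4).union (a3.compl.inter a4.compl)))
  have h1 := (Measure.ae_ae_comm (μ := (volume : Measure (E m)))
    (ν := (volume : Measure (E (2 + m)))) hmeas).1
      (Eventually.of_forall fun v => CompE_transl hB mB fB hUo hUc v)
  filter_upwards [h1] with p hp
  have hq : ∀ᵐ z : E m, p ∈ Ub m 1 → jn (px p) z ∈ Ub m 1 → (p ∈ B ↔ jn (px p) z ∈ B) := by
    have h2 := (Measure.measurePreserving_sub_left (volume : Measure (E m)) (pz p)).quasiMeasurePreserving.ae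
      hp
    filter_upwards [h2] with z hz
    have h3 : p - jn 0 (pz p - z) = jn (px p) z := by
      have h4 : jn (px p) z + jn 0 (pz p - z) = p := by
        rw [← jn_add]; simp
      exact sub_eq_of_eq_add h4.symm
    rwa [h3] at hz
  constructor
  · intro hpB
    have hpU := hBU hpB
    refine ⟨hpU, ?_, ?_⟩
    · rw [mem_ball_zero_iff]
      exact px_lt_of_mem hm hpU
    · intro h0
      have hO : IsOpen {z : E m | (jn (px p) z : E (2 + m)) ∈ Ub m 1} :=
        hUo.preimage (continuous_jn.comp (continuous_const.prodMk continuous_id))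
      have hne : {z : E m | (jn (px p) z : E (2 + m)) ∈ Ub m 1}.Nonempty :=
        ⟨pz p, by simpa using hpU⟩
      have hpos := hO.measure_pos volume hne
      have h2 : volume {z : E m | (jn (px p) z : E (2 + m)) ∈ Ub m 1} ≤
          volume {z : E m | (jn (px p) z : E (2 + m)) ∈ B} := by
        apply measure_mono_ae
        filter_upwards [hq] with z hz hz'
        exact (hz hpU hz').1 hpB
      rw [h0] at h2
      exact absurd (lt_of_lt_of_le hpos h2) (lt_irrefl _)
  · rintro ⟨hpU, -, h0⟩
    by_contra hpB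
    apply h0
    have h2 : ∀ᵐ z : E m, (jn (px p) z : E (2 + m)) ∉ B := by
      filter_upwards [hq] with z hz hz'
      exact hpB ((hz hpU (hBU hz')).2 hz')
    simpa [ae_iff] using h2

set_option linter.unusedVariables false in
/-- **T11.** Compactness in the thin limit. -/
theorem compE (h1 : Stmt_Compact) (h2 : Stmt_PeProps) (h3 : Stmt_Body) (hK : Stmt_Kern)
    (h4 : Stmt_Conv) (h5 : Stmt_ConvTest) (h6 : Stmt_IBP) : Stmt_CompE := by
  intro m ε A M hm hε hε1 hlim hA hAU hP
  obtain ⟨-, -, -, -, -, hUo, hUc, hUb, -⟩ := h3 m 1 (by omega) one_pos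
  have fU : volume (Ub m 1) ≠ ∞ := hUb.measure_lt_top.ne
  obtain ⟨φ, B, hφ, mB, hBU, hconv⟩ := h1 (2 + m) (Ub m 1) A M hUo hUb hA (fun j =>
    ((h2 m (ε j) hm (hε j)).2.2.2.2.2.2 (hε1 j) (A j) (hA j)).trans (hP j))
  have hconv' : Tendsto (fun j => volume (symmDiff (A (φ j)) B)) atTop (𝓝 0) := by
    refine hconv.congr fun j => ?_
    congr 1
    apply inter_eq_left.2
    exact symmDiff_subset_union.trans (union_subset (hAU _) hBU)
  have hvert : CompEVert B := CompE_vert (ε := fun j => ε (φ j)) (A := fun j => A (φ j)) hUb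
    (fun j => hε _) (hlim.comp hφ.tendsto_atTop) (fun j => hA _) (fun j => hAU _)
    (fun j => hP _) mB hBU hconv'
  have fB : volume B ≠ ∞ := ne_top_of_le_ne_top fU (measure_mono hBU)
  refine ⟨φ, CompEBase B, hφ, CompE_base_meas mB, fun c hc => hc.1, ?_⟩
  have hae := CompE_isLift (by omega) hvert mB hBU fB hUo hUc
  refine hconv'.congr fun j => ?_
  apply measure_congr
  filter_upwards [hae] with p hp
  have : (p ∈ symmDiff (A (φ j)) B) = (p ∈ symmDiff (A (φ j)) (lift m (CompEBase B))) := by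
    simp only [mem_symmDiff, hp]
  exact this

end Pool.Agent.Lib.MP_c95dcf_gt
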