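import Pool.Agent.Lib.MP_c95dcf_gt.Mg.G002

/-!
# MP_c95dcf_gt, part T: the first variation inequality
-/

set_option autoImplicit false

open MeasureTheory Set Filter Topology
open scoped ENNReal NNReal RealInnerProductSpace

namespace Pool.Agent.Lib.MP_c95dcf_gt

namespace FVaux

/-- Comparison of derivatives at a one-sided minimum. -/
theorem deriv_cmp {P V : ℝ → ℝ} {p v : ℝ} (hP : HasDerivAt P p 0) (hV : HasDerivAt V v 0)
    (h : ∀ᶠ s in 𝓝 (0 : ℝ), P 0 ≤ P s + |V s - V 0|) : |p| ≤ |v| := by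
  have hP' := hasDerivAt_iff_tendsto_slope.1 hP
  have hV' := hasDerivAt_iff_tendsto_slope.1 hV
  have hne1 : 𝓝[>] (0 : ℝ) ≤ 𝓝[≠] 0 := nhdsWithin_mono _ (fun x hx => ne_of_gt hx)
  have hne2 : 𝓝[<] (0 : ℝ) ≤ 𝓝[≠] 0 := nhdsWithin_mono _ (fun x hx => ne_of_lt hx)
  have h1 : - |v| ≤ p := by
    refine le_of_tendsto_of_tendsto ((hV'.mono_left hne1).abs.neg) (hP'.mono_left hne1) ?_
    filter_upwards [self_mem_nhdsWithin, nhdsWithin_le_nhds h] with s hs hs2
    have hs0 : (0 : ℝ) < s := hs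
    simp only [slope_def_field, sub_zero]
    rw [abs_div, abs_of_pos hs0, ← neg_div]
    exact div_le_div_of_nonneg_right (by linarith) hs0.le
  have h2 : p ≤ |v| := by
    refine le_of_tendsto_of_tendsto (hP'.mono_left hne2) ((hV'.mono_left hne2).abs) ?_
    filter_upwards [self_mem_nhdsWithin, nhdsWithin_le_nhds h] with s hs hs2
    have hs0 : s < 0 := hs
    simp only [slope_def_field, sub_zero]
    rw [abs_div, abs_of_neg hs0, div_le_iff_of_neg hs0]
    have hsne : s ≠ 0 := hs0.ne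
    have : |V s - V 0| / -s * s = - |V s - V 0| := by
      field_simp
    rw [this]; linarith
  exact abs_le.2 ⟨h1, h2⟩

theorem isOpen_Ub1 (m : ℕ) : IsOpen (Ub m 1) := by
  have : Continuous (fun p : E (2 + m) => ‖px p‖ / m + ‖pz p‖ / 1) :=
    ((continuous_px.norm).div_const _).add ((continuous_pz.norm).div_const _)
  exact isOpen_lt this continuous_const

theorem bdd_Ub1 {m : ℕ} (hm : 0 < m) : Bornology.IsBounded (Ub m 1) := by
  refine (Metric.isBounded_closedBall (x := (0 : E (2 + m))) (r := m + 1)).subset ?_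
  intro p hp
  have h1 := (mem_Ub_one hm p).1 hp
  have h2 := px_lt_of_mem hm hp
  have h3 : wp m ‖px p‖ ≤ 1 := by
    rw [(wp_of_lt hm h2).1]
    have : 0 ≤ ‖px p‖ / (m : ℝ) := by positivity
    linarith
  rw [mem_closedBall_zero_iff]
  have h4 : ‖p‖ ≤ ‖px p‖ + ‖pz p‖ := by
    conv_lhs => rw [← jn_px_pz p]
    exact norm_jn_le _ _
  linarith

theorem Wp_pos {m : ℕ} (hm : 0 < m) {c : ℂ} (hc : ‖c‖ < m) : 0 < Wp m ‖c‖ :=
  pow_pos (wp_of_lt hm hc).2 _

/-- `dvW Y / W` is bounded. -/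
theorem dvW_bdd {m : ℕ} (hm : 0 < m) (Y : ℂ → ℂ) (hY : TFc (Dp m) Y) :
    ∃ C : ℝ, ∀ c, |dvW m Y c / Wp m ‖c‖| ≤ C := by
  have hm' : (0 : ℝ) < m := by exact_mod_cast hm
  have hopen : IsOpen (Dp m) := Metric.isOpen_ball.sdiff isClosed_singleton
  have hW : ContDiffOn ℝ 1 (fun c : ℂ => ((Wp m ‖c‖ : ℝ) : ℂ) * Y c) (Dp m) := by
    refine ContDiffOn.mul ?_ hY.diff.contDiffOn
    refine (Complex.ofRealCLM.contDiff.comp_contDiffOn (s := Dp m)
      (f := fun c : ℂ => Wp m ‖c‖) ?_)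
    have h1 : ContDiffOn ℝ 1 (fun c : ℂ => (1 - ‖c‖ / m) ^ m) (Dp m) := by
      refine ContDiffOn.pow (contDiffOn_const.sub (ContDiffOn.div_const ?_ _)) _
      intro c hc
      exact (contDiffAt_norm ℝ hc.2).contDiffWithinAt
    refine h1.congr ?_
    intro c hc
    have hc1 : ‖c‖ < m := by simpa using hc.1
    rw [Wp, (wp_of_lt hm hc1).1]
  have hcont : ContinuousOn (fun c => dvW m Y c / Wp m ‖c‖) (Dp m) := by
    have h2 : ContinuousOn (fderiv ℝ (fun c : ℂ => ((Wp m ‖c‖ : ℝ) : ℂ) * Y c)) (Dp m) :=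
      hW.continuousOn_fderiv_of_isOpen hopen le_rfl
    have h3 : ContinuousOn (fun c : ℂ => Wp m ‖c‖) (Dp m) := by
      apply Continuous.continuousOn
      unfold Wp wp
      fun_prop
    refine ContinuousOn.div ?_ h3 ?_
    · unfold dvW dvc
      exact (Complex.continuous_re.comp_continuousOn (h2.clm_apply continuousOn_const)).add
        (Complex.continuous_im.comp_continuousOn (h2.clm_apply continuousOn_const))
    · intro c hc
      have hc1 : ‖c‖ < m := by simpa using hc.1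
      exact (Wp_pos hm hc1).ne'
  obtain ⟨C, hC⟩ := (hY.comp.isCompact).exists_bound_of_continuousOn (hcont.mono hY.supp)
  refine ⟨max C 0, fun c => ?_⟩
  by_cases hc : c ∈ tsupport Y
  · exact (hC c hc).trans (le_max_left _ _)
  · have h0 : (fun c : ℂ => ((Wp m ‖c‖ : ℝ) : ℂ) * Y c) =ᶠ[𝓝 c] fun _ => 0 := by
      have : (tsupport Y)ᶜ ∈ 𝓝 c := (isClosed_tsupport Y).isOpen_compl.mem_nhds hc
      filter_upwards [this] with d hd
      rw [image_eq_zero_of_notMem_tsupport hd, mul_zero]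
    have h1 : dvW m Y c = 0 := by
      unfold dvW dvc
      rw [h0.fderiv_eq]; simp
    rw [h1]; simp

theorem measurable_dvW (m : ℕ) (Y : ℂ → ℂ) : Measurable (dvW m Y) := by
  unfold dvW dvc
  exact (Complex.measurable_re.comp (measurable_fderiv_apply_const ℝ _ 1)).add
    (Complex.measurable_im.comp (measurable_fderiv_apply_const ℝ _ Complex.I))

/-- Measurability of the first variation density. -/
theorem measurable_g {m : ℕ} (ε : ℝ) (V ν : E (2 + m) → E (2 + m)) (hν : Measurable ν) :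
    Measurable (fun p => dv V p - ⟪Ls ε (ν p), fderiv ℝ V p (Ls ε⁻¹ (ν p))⟫) := by
  have hLs : ∀ a : ℝ, Continuous (Ls a : E (2 + m) → E (2 + m)) := by
    intro a
    unfold Ls
    exact continuous_jn.comp (continuous_px.prodMk (continuous_pz.const_smul a))
  refine Measurable.sub ?_ ?_
  · unfold dv
    refine Finset.measurable_sum _ (fun i _ => ?_)
    exact (EuclideanSpace.proj (𝕜 := ℝ) i).continuous.measurable.comp
      (measurable_fderiv_apply_const ℝ V _)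
  · have h1 : Measurable (fun p => (fderiv ℝ V p, Ls ε⁻¹ (ν p))) :=
      (measurable_fderiv ℝ V).prodMk ((hLs _).measurable.comp hν)
    have h2 : Continuous (fun q : (E (2 + m) →L[ℝ] E (2 + m)) × E (2 + m) => q.1 q.2) :=
      isBoundedBilinearMap_apply.continuous
    exact ((hLs ε).measurable.comp hν).inner (h2.measurable.comp h1)

/-- The mass and the perimeter along the flow near time zero. -/
theorem core {m : ℕ} (hm : 2 ≤ m) (h2 : Stmt_FirstVar) {s₀ : ℝ} {U' K₀ : Set (E (2 + m))}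
    {Φ : ℝ → E (2 + m) → E (2 + m)} {V : E (2 + m) → E (2 + m)} (hs₀ : 0 < s₀)
    (hU' : IsOpen U') (hK₀ : IsCompact K₀) (hKU : K₀ ⊆ U') (hUU : Ub m 1 ⊆ U')
    (hΦ : ContDiffOn ℝ 2 (fun q : ℝ × E (2 + m) => Φ q.1 q.2) (Ioo (-s₀) s₀ ×ˢ U'))
    (hΦ0 : ∀ p ∈ U', Φ 0 p = p)
    (hΦ' : ∀ p ∈ U', HasDerivAt (fun s => Φ s p) (V p) 0)
    (hΦK : ∀ s ∈ Ioo (-s₀) s₀, ∀ p ∈ Ub m 1 \ K₀, Φ s p = p)
    (hinj : ∀ s ∈ Ioo (-s₀) s₀, InjOn (Φ s) (Ub m 1))
    (F : Set (E (2 + m))) (hF : MeasurableSet F) (hFU : F ⊆ Ub m 1) :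
    (∀ s ∈ Ioo (-s₀) s₀, MeasurableSet (Φ s '' F) ∧
      (volume (Φ s '' F)).toReal = ∫ p in F, |(fderiv ℝ (Φ s) p).det|) ∧
    HasDerivAt (fun s => ∫ p in F, |(fderiv ℝ (Φ s) p).det|) (∫ p in F, dv V p) 0 ∧
    (∫ p in F, |(fderiv ℝ (Φ 0) p).det|) = (volume F).toReal := by
  have hUo : IsOpen (Ub m 1) := isOpen_Ub1 m
  have hdiff : ∀ s ∈ Ioo (-s₀) s₀, ContDiffOn ℝ 2 (Φ s) U' := by
    intro s hs
    have : ContDiff ℝ 2 (fun p : E (2 + m) => (s, p)) := contDiff_const.prodMk contDiff_id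
    exact hΦ.comp this.contDiffOn (fun p hp => ⟨hs, hp⟩)
  have hfd : ∀ s ∈ Ioo (-s₀) s₀, ∀ p ∈ U', HasFDerivAt (Φ s) (fderiv ℝ (Φ s) p) p := by
    intro s hs p hp
    exact (((hdiff s hs).contDiffAt (hU'.mem_nhds hp)).differentiableAt (by norm_num)).hasFDerivAt
  refine ⟨fun s hs => ⟨?_, ?_⟩, ?_, ?_⟩
  · exact hF.image_of_continuousOn_injOn ((hdiff s hs).continuousOn.mono (hFU.trans hUU))
      ((hinj s hs).mono hFU)
  · have := integral_image_eq_integral_abs_det_fderiv_smul (volume : Measure (E (2 + m))) hF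
      (f := Φ s) (f' := fderiv ℝ (Φ s))
      (fun p hp => (hfd s hs p (hUU (hFU hp))).hasFDerivWithinAt) ((hinj s hs).mono hFU)
      (fun _ => (1 : ℝ))
    simpa [Measure.real] using this
  · have hfin : IsFiniteMeasure ((volume : Measure (E (2 + m))).restrict F) := by
      refine ⟨?_⟩
      rw [Measure.restrict_apply_univ]
      exact lt_of_le_of_lt (measure_mono hFU) (bdd_Ub1 (by omega)).measure_lt_top
    refine (h2 m 1 s₀ (Ub m 1) U' K₀ Φ V one_pos hs₀ hUo hU' hUU hK₀ hKU hΦ hΦ0 hΦ' hΦK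
      (volume.restrict F) hfin ?_).1
    rw [Measure.restrict_apply hUo.measurableSet.compl]
    have : (Ub m 1)ᶜ ∩ F = ∅ := by
      ext x; simp only [mem_inter_iff, mem_compl_iff, mem_empty_iff_false, iff_false, not_and]
      exact fun h1 h2 => h1 (hFU h2)
    rw [this, measure_empty]
  · have h0 : ∀ p ∈ F, |(fderiv ℝ (Φ 0) p).det| = 1 := by
      intro p hp
      have hev : Φ 0 =ᶠ[𝓝 p] id := by
        filter_upwards [hU'.mem_nhds (hUU (hFU hp))] with q hq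
        exact hΦ0 q hq
      rw [hev.fderiv_eq, fderiv_id]
      simp [ContinuousLinearMap.det]
    rw [setIntegral_congr_fun hF h0]
    simp [Measure.real]

/-- The symmetric difference along the flow tends to zero. -/
theorem diff_small {m : ℕ} (hm : 2 ≤ m) (h2 : Stmt_FirstVar) {s₀ : ℝ} {U' K₀ : Set (E (2 + m))}
    {Φ : ℝ → E (2 + m) → E (2 + m)} {V : E (2 + m) → E (2 + m)} (hs₀ : 0 < s₀)
    (hU' : IsOpen U') (hK₀ : IsCompact K₀) (hKU : K₀ ⊆ U') (hUU : Ub m 1 ⊆ U')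
    (hΦ : ContDiffOn ℝ 2 (fun q : ℝ × E (2 + m) => Φ q.1 q.2) (Ioo (-s₀) s₀ ×ˢ U'))
    (hΦ0 : ∀ p ∈ U', Φ 0 p = p)
    (hΦ' : ∀ p ∈ U', HasDerivAt (fun s => Φ s p) (V p) 0)
    (hΦK : ∀ s ∈ Ioo (-s₀) s₀, ∀ p ∈ Ub m 1 \ K₀, Φ s p = p)
    (hinj : ∀ s ∈ Ioo (-s₀) s₀, InjOn (Φ s) (Ub m 1))
    (hmaps : ∀ s ∈ Ioo (-s₀) s₀, MapsTo (Φ s) (Ub m 1) (Ub m 1))
    (F : Set (E (2 + m))) (hF : MeasurableSet F) (hFU : F ⊆ Ub m 1) {δ : ℝ} (hδ : 0 < δ) :
    ∀ᶠ s in 𝓝 (0 : ℝ), volume (Φ s '' F \ F) ≤ ENNReal.ofReal δ := by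
  have hFfin : volume F ≠ ∞ :=
    (lt_of_le_of_lt (measure_mono hFU) (bdd_Ub1 (by omega)).measure_lt_top).ne
  have hδ2 : 0 < δ / 4 := by positivity
  obtain ⟨K, hKF, hK, hKd⟩ := hF.exists_isCompact_sdiff_lt (μ := (volume : Measure (E (2 + m))))
    hFfin (ENNReal.ofReal_pos.2 hδ2).ne'
  have hI : Ioo (-s₀) s₀ ∈ 𝓝 (0 : ℝ) := Ioo_mem_nhds (by linarith) hs₀
  -- the image of the small part
  have hsmall : ∀ᶠ s in 𝓝 (0 : ℝ), volume (Φ s '' (F \ K)) ≤ ENNReal.ofReal (δ / 2) := by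
    obtain ⟨c1, c2, c3⟩ := core hm h2 hs₀ hU' hK₀ hKU hUU hΦ hΦ0 hΦ' hΦK hinj (F \ K)
      (hF.diff hK.measurableSet) (sdiff_subset.trans hFU)
    have hlt : (∫ p in F \ K, |(fderiv ℝ (Φ 0) p).det|) < δ / 2 := by
      rw [c3]
      have : (volume (F \ K)).toReal < δ / 4 := by
        rw [← ENNReal.toReal_ofReal hδ2.le]
        exact (ENNReal.toReal_lt_toReal (lt_trans hKd ENNReal.ofReal_lt_top).ne
          ENNReal.ofReal_ne_top).2 hKd
      linarith
    filter_upwards [hI, (c2.continuousAt.eventually (gt_mem_nhds hlt))] with s hs hs2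
    have hfin : volume (Φ s '' (F \ K)) ≠ ∞ := by
      refine (lt_of_le_of_lt (measure_mono ?_) (bdd_Ub1 (m := m) (by omega)).measure_lt_top).ne
      rintro _ ⟨x, hx, rfl⟩
      exact hmaps s hs (hFU hx.1)
    rw [← ENNReal.ofReal_toReal hfin]
    refine ENNReal.ofReal_le_ofReal ?_
    rw [(c1 s hs).2]
    exact hs2.le
  -- the image of the compact part
  have hthick : ∃ r : ℝ, 0 < r ∧ volume (Metric.thickening r K \ K) ≤ ENNReal.ofReal (δ / 2) := by
    have hKfin : volume K ≠ ∞ := hK.measure_lt_top.ne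
    have ht := tendsto_measure_thickening_of_isClosed (μ := (volume : Measure (E (2 + m))))
      (s := K) ⟨1, one_pos, (hK.isBounded.thickening).measure_lt_top.ne⟩ hK.isClosed
    have hlt : volume K < volume K + ENNReal.ofReal (δ / 2) :=
      ENNReal.lt_add_right hKfin (ENNReal.ofReal_pos.2 (by positivity)).ne'
    have hev := ht.eventually (gt_mem_nhds hlt)
    obtain ⟨r, hr1, hr2⟩ := (hev.and self_mem_nhdsWithin).exists
    refine ⟨r, hr2, ?_⟩
    rw [measure_sdiff (Metric.self_subset_thickening hr2 K) hK.measurableSet.nullMeasurableSet hKfin]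
    exact tsub_le_iff_left.2 hr1.le
  obtain ⟨r, hr, hrv⟩ := hthick
  have hclose : ∀ᶠ s in 𝓝 (0 : ℝ), ∀ p ∈ K, dist (Φ s p) p < r := by
    refine hK.eventually_forall_of_forall_eventually ?_
    intro p hp
    have hpU : p ∈ U' := hUU (hFU (hKF hp))
    have hmem : Ioo (-s₀) s₀ ×ˢ U' ∈ 𝓝 ((0 : ℝ), p) := prod_mem_nhds hI (hU'.mem_nhds hpU)
    have hc1 : ContinuousAt (fun q : ℝ × E (2 + m) => Φ q.1 q.2) (0, p) :=
      hΦ.continuousOn.continuousAt hmem
    have hc2 : ContinuousAt (fun q : ℝ × E (2 + m) => dist (Φ q.1 q.2) q.2) (0, p) :=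
      hc1.dist continuous_snd.continuousAt
    refine hc2.eventually (gt_mem_nhds ?_)
    simp only [hΦ0 p hpU, dist_self]
    exact hr
  filter_upwards [hsmall, hclose] with s h3 h4
  have hsub : Φ s '' F \ F ⊆ Φ s '' (F \ K) ∪ (Metric.thickening r K \ K) := by
    rintro y ⟨⟨x, hx, rfl⟩, hy⟩
    by_cases hxK : x ∈ K
    · right
      refine ⟨?_, fun h => hy (hKF h)⟩
      rw [Metric.mem_thickening_iff]
      exact ⟨x, hxK, h4 x hxK⟩
    · left; exact ⟨x, ⟨hx, hxK⟩, rfl⟩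
  calc volume (Φ s '' F \ F) ≤ volume (Φ s '' (F \ K)) + volume (Metric.thickening r K \ K) :=
        (measure_mono hsub).trans (measure_union_le _ _)
    _ ≤ ENNReal.ofReal (δ / 2) + ENNReal.ofReal (δ / 2) := add_le_add h3 hrv
    _ = ENNReal.ofReal δ := by
        rw [← ENNReal.ofReal_add (by positivity) (by positivity)]; congr 1; ring

/-- The derivative of the mass along the flow. -/
theorem dV_eq {m : ℕ} (hm : 2 ≤ m) (h5 : Stmt_Fib) (v : E m) (hv : ‖v‖ = 1) (η : ℝ → ℝ)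
    (hη : Continuous η) (Y : ℂ → ℂ)
    (hY : TFc (Dp m) Y) (V : E (2 + m) → E (2 + m))
    (hV : ∀ p ∈ Ub m 1, dv V p = η ⟪zt m p, v⟫ * (dvW m Y (px p) / Wp m ‖px p‖))
    (F : Set (E (2 + m))) (hF : MeasurableSet F) (hFU : F ⊆ Ub m 1) :
    (∫ p in F, dv V p) =
      ∫ ζ in Metric.ball (0 : E m) 1, η ⟪ζ, v⟫ * ∫ c in As m F ζ, dvW m Y c := by
  classical
  have hm0 : 0 < m := by omega
  obtain ⟨C, hC⟩ := dvW_bdd hm0 Y hY
  have hC0 : 0 ≤ C := (abs_nonneg _).trans (hC 0)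
  obtain ⟨D, hD⟩ := (isCompact_Icc (a := (-1 : ℝ)) (b := 1)).exists_bound_of_continuousOn
    hη.continuousOn
  have hD0 : 0 ≤ D := (norm_nonneg _).trans (hD 0 (by constructor <;> norm_num))
  have hin : ∀ ζ : E m, ‖ζ‖ < 1 → |η ⟪ζ, v⟫| ≤ D := by
    intro ζ hζ
    refine hD _ (abs_le.1 ?_)
    have := abs_real_inner_le_norm ζ v
    rw [hv, mul_one] at this
    linarith
  set θ : ℂ → E m → ℝ := fun c ζ =>
    (Metric.ball (0 : E m) 1).indicator (fun ζ => η ⟪ζ, v⟫) ζ * (dvW m Y c / Wp m ‖c‖) with hθ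
  have hWm : Measurable (fun c : ℂ => Wp m ‖c‖) := by
    unfold Wp wp
    fun_prop
  have hθm : Measurable (fun q : ℂ × E m => θ q.1 q.2) := by
    refine Measurable.mul ?_ ?_
    · have h0 : Measurable ((Metric.ball (0 : E m) 1).indicator (fun ζ => η ⟪ζ, v⟫)) :=
        Measurable.indicator ((hη.comp (continuous_id.inner continuous_const)).measurable)
          Metric.isOpen_ball.measurableSet
      exact h0.comp measurable_snd
    · exact ((measurable_dvW m Y).div hWm).comp measurable_fst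
  have hθb : ∀ c ζ, |θ c ζ| ≤ D * C := by
    intro c ζ
    simp only [hθ, abs_mul]
    refine mul_le_mul ?_ (hC c) (abs_nonneg _) hD0
    by_cases hζ : ζ ∈ Metric.ball (0 : E m) 1
    · rw [indicator_of_mem hζ]
      exact hin ζ (by simpa using hζ)
    · rw [indicator_of_notMem hζ]; simpa using hD0
  have hfib := ((h5 m F hm hF hFU).2.1 θ (D * C) hθm hθb).2
  have e1 : (∫ p in F, dv V p) = ∫ p in F, θ (px p) (zt m p) := by
    refine setIntegral_congr_fun hF ?_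
    intro p hp
    have hpU := hFU hp
    have hz : zt m p ∈ Metric.ball (0 : E m) 1 := by
      simpa using norm_zt_lt hm0 hpU
    simp only [hθ, indicator_of_mem hz]
    exact hV p hpU
  rw [e1, hfib]
  refine setIntegral_congr_fun Metric.isOpen_ball.measurableSet ?_
  intro ζ hζ
  simp only
  rw [← integral_const_mul]
  refine setIntegral_congr_fun ((h5 m F hm hF hFU).1 ζ) ?_
  intro c hc
  have hc1 : ‖c‖ < m := by simpa using hc.1
  have hW := (Wp_pos hm0 hc1).ne'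
  simp only [hθ, indicator_of_mem hζ]
  field_simp

end FVaux

open FVaux in
theorem fv (h1 : Stmt_DiffeoE) (h2 : Stmt_FirstVar) (h3 : Stmt_Flow) (h4 : Stmt_VarCalc)
    (h5 : Stmt_Fib) (h6 : Stmt_PeProps) : Stmt_FV := by
  intro m v η Y hm hv hη hY2 hY
  obtain ⟨C, hC0, hC⟩ := h4 m v η Y hm hv hη hY2 hY
  refine ⟨C, hC0, ?_⟩
  intro ε δ F lam ν hε hε1 hδ hF hFU hQ hrep
  obtain ⟨s₀, U', K₀, hs₀, hU', hK₀, hKU, hUU, hΦ, hΦ0, hΦ', hΦK, hrest⟩ :=
    h3 m v η Y hm hv hη hY2 hY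
  have hm0 : 0 < m := by omega
  have hUo : IsOpen (Ub m 1) := isOpen_Ub1 m
  have := hrep.fin
  set Φ := Fl m v η Y with hΦdef
  set V := Vf m v η Y with hVdef
  have hmaps : ∀ s ∈ Ioo (-s₀) s₀, MapsTo (Φ s) (Ub m 1) (Ub m 1) := fun s hs => (hrest s hs).1
  have hinj : ∀ s ∈ Ioo (-s₀) s₀, InjOn (Φ s) (Ub m 1) := by
    intro s hs
    obtain ⟨Ψ, _, _, hΨ, _⟩ := (hrest s hs).2
    intro x hx y hy hxy
    rw [← hΨ x hx, ← hΨ y hy, hxy]
  have hI : Ioo (-s₀) s₀ ∈ 𝓝 (0 : ℝ) := Ioo_mem_nhds (by linarith) hs₀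
  have hae : ∀ᵐ p ∂lam, p ∈ Ub m 1 := by
    rw [ae_iff]; exact hrep.null
  obtain ⟨c1, c2, c3⟩ := core hm h2 hs₀ hU' hK₀ hKU hUU hΦ hΦ0 hΦ' hΦK hinj F hF hFU
  have hP := (h2 m ε s₀ (Ub m 1) U' K₀ Φ V hε hs₀ hUo hU' hUU hK₀ hKU hΦ hΦ0 hΦ' hΦK
      lam hrep.fin hrep.null).2 ν hrep.meas hrep.unit
  set g : E (2 + m) → ℝ := fun p => dv V p - ⟪Ls ε (ν p), fderiv ℝ V p (Ls ε⁻¹ (ν p))⟫ with hg
  have hgm : Measurable g := measurable_g ε V ν hrep.meas
  have hJ0 : (∫ p, Jc ε (fderiv ℝ (Φ 0) p) (ν p) ∂lam) = (lam univ).toReal := by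
    have h0 : (fun p => Jc ε (fderiv ℝ (Φ 0) p) (ν p)) =ᵐ[lam] fun _ => (1 : ℝ) := by
      filter_upwards [hae] with p hp
      have hev : Φ 0 =ᶠ[𝓝 p] id := by
        filter_upwards [hU'.mem_nhds (hUU hp)] with q hq
        exact hΦ0 q hq
      rw [hev.fderiv_eq, fderiv_id, Jc, ContinuousLinearMap.inverse_id]
      have h1 : ContinuousLinearMap.adjoint (ContinuousLinearMap.id ℝ (E (2 + m))) =
          ContinuousLinearMap.id ℝ (E (2 + m)) := by
        refine ContinuousLinearMap.ext fun x => ext_inner_left ℝ fun w => ?_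
        rw [ContinuousLinearMap.adjoint_inner_right]; rfl
      rw [h1]
      simp [ContinuousLinearMap.det, Ls_Ls, inv_mul_cancel₀ hε.ne', hrep.unit p]
    rw [integral_congr_ae h0]
    simp [Measure.real]
  -- comparison
  have hcmp : ∀ᶠ s in 𝓝 (0 : ℝ), (∫ p, Jc ε (fderiv ℝ (Φ 0) p) (ν p) ∂lam) ≤
      (∫ p, Jc ε (fderiv ℝ (Φ s) p) (ν p) ∂lam) +
        |(∫ p in F, |(fderiv ℝ (Φ s) p).det|) - (∫ p in F, |(fderiv ℝ (Φ 0) p).det|)| := by
    by_cases hlam : lam univ = 0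
    · have : lam = 0 := Measure.measure_univ_eq_zero.1 hlam
      rw [this]
      simp
    · have hpos : 0 < (lam univ).toReal :=
        ENNReal.toReal_pos hlam (measure_ne_top _ _)
      have hpos' : 0 < ∫ p, Jc ε (fderiv ℝ (Φ 0) p) (ν p) ∂lam := by rw [hJ0]; exact hpos
      have hev := hP.continuousAt.eventually (lt_mem_nhds hpos')
      filter_upwards [hI, hev, diff_small hm h2 hs₀ hU' hK₀ hKU hUU hΦ hΦ0 hΦ' hΦK hinj hmaps F
        hF hFU hδ] with s hs hs2 hs3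
      have hint : Integrable (fun p => Jc ε (fderiv ℝ (Φ s) p) (ν p)) lam := by
        by_contra hne
        rw [integral_undef hne] at hs2
        exact lt_irrefl _ hs2
      have hsub : Φ s '' F ⊆ Ub m 1 := by
        rintro _ ⟨x, hx, rfl⟩
        exact hmaps s hs (hFU hx)
      have hq := hQ (Φ s '' F) (c1 s hs).1 hsub hs3
      obtain ⟨Ψ, hΨ1, hΨ2, hΨ3, hΨ4⟩ := (hrest s hs).2
      have hdiff : ContDiffOn ℝ 1 (Φ s) (Ub m 1) := by
        have : ContDiff ℝ 2 (fun p : E (2 + m) => (s, p)) := contDiff_const.prodMk contDiff_id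
        exact (hΦ.comp this.contDiffOn (fun p hp => ⟨hs, hUU hp⟩)).of_le (by norm_num)
      have hd := h1 m ε F lam ν (Φ s) Ψ (by omega) hε hF hFU hrep hdiff hΨ1 (hmaps s hs) hΨ2
        hΨ3 hΨ4
      have hlu : lam univ = Pe m ε F := ((h6 m ε hm hε).2.2.2.2.2.1 F lam ν hrep).2
      have hnn : ∀ p, 0 ≤ Jc ε (fderiv ℝ (Φ s) p) (ν p) := fun p =>
        mul_nonneg (abs_nonneg _) (norm_nonneg _)
      rw [← ofReal_integral_eq_lintegral_ofReal hint (Eventually.of_forall hnn)] at hd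
      have hInn : 0 ≤ ∫ p, Jc ε (fderiv ℝ (Φ s) p) (ν p) ∂lam := integral_nonneg hnn
      have hall : lam univ ≤ ENNReal.ofReal ((∫ p, Jc ε (fderiv ℝ (Φ s) p) (ν p) ∂lam) +
          |(volume (Φ s '' F)).toReal - (volume F).toReal|) := by
        rw [ENNReal.ofReal_add hInn (abs_nonneg _), hlu]
        exact hq.trans (by gcongr)
      rw [hJ0, c3, ← (c1 s hs).2]
      exact ENNReal.toReal_le_of_le_ofReal (add_nonneg hInn (abs_nonneg _)) hall
  have hmain := deriv_cmp hP c2 hcmp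
  have hdV := dV_eq hm h5 v hv η hη.continuous Y hY V (fun p hp => (hC p hp).1) F hF hFU
  rw [hdV] at hmain
  -- the remainder
  have hqi : Integrable (fun p => ‖pz (ν p)‖) lam := by
    refine Integrable.of_bound ((measurable_pz.comp hrep.meas).norm.aestronglyMeasurable) 1 ?_
    refine Eventually.of_forall (fun p => ?_)
    rw [norm_norm]
    exact (norm_pz_le _).trans (hrep.unit p).le
  have hqi2 : Integrable (fun p => ‖pz (ν p)‖ ^ 2) lam := by
    refine Integrable.of_bound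
      (((measurable_pz.comp hrep.meas).norm.pow_const 2).aestronglyMeasurable) 1 ?_
    refine Eventually.of_forall (fun p => ?_)
    rw [norm_pow, norm_norm]
    exact pow_le_one₀ (norm_nonneg _) ((norm_pz_le _).trans (hrep.unit p).le)
  have hrem : Integrable (fun p => C * (ε * ‖pz (ν p)‖ + ‖pz (ν p)‖ ^ 2)) lam :=
    ((hqi.const_mul ε).add hqi2).const_mul C
  have hrhs : (∫ p, C * (ε * ‖pz (ν p)‖ + ‖pz (ν p)‖ ^ 2) ∂lam) =
      C * (ε * ∫ p, ‖pz (ν p)‖ ∂lam + ∫ p, ‖pz (ν p)‖ ^ 2 ∂lam) := by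
    rw [integral_const_mul, integral_add (hqi.const_mul ε) hqi2, integral_const_mul]
  rw [← hrhs]
  have hrhs0 : 0 ≤ ∫ p, C * (ε * ‖pz (ν p)‖ + ‖pz (ν p)‖ ^ 2) ∂lam :=
    integral_nonneg (fun p => by positivity)
  by_cases hmi : Integrable (fun p => mainI m ε v η Y p (ν p)) lam
  · have hbd : ∀ᵐ p ∂lam, ‖g p - mainI m ε v η Y p (ν p)‖ ≤
        C * (ε * ‖pz (ν p)‖ + ‖pz (ν p)‖ ^ 2) := by
      filter_upwards [hae] with p hp
      rw [Real.norm_eq_abs]
      exact (hC p hp).2 ε hε hε1 (ν p) (hrep.unit p)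
    have hdi : Integrable (fun p => g p - mainI m ε v η Y p (ν p)) lam :=
      Integrable.mono' hrem (hgm.aestronglyMeasurable.sub hmi.aestronglyMeasurable) hbd
    have hgi : Integrable g lam := by
      have := hdi.add hmi
      refine this.congr (Eventually.of_forall fun p => ?_)
      simp
    have e1 : (∫ p, mainI m ε v η Y p (ν p) ∂lam) =
        (∫ p, g p ∂lam) - ∫ p, (g p - mainI m ε v η Y p (ν p)) ∂lam := by
      rw [integral_sub hgi hmi]; ring
    have e2 : |∫ p, (g p - mainI m ε v η Y p (ν p)) ∂lam| ≤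
        ∫ p, C * (ε * ‖pz (ν p)‖ + ‖pz (ν p)‖ ^ 2) ∂lam := by
      rw [← Real.norm_eq_abs]
      exact norm_integral_le_of_norm_le hrem hbd
    rw [e1]
    have e3 := abs_sub (∫ p, g p ∂lam) (∫ p, (g p - mainI m ε v η Y p (ν p)) ∂lam)
    linarith
  · rw [integral_undef hmi, abs_zero]
    exact add_nonneg (abs_nonneg _) hrhs0

end Pool.Agent.Lib.MP_c95dcf_gt
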