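import Pool.Agent.Lib.MP_c95dcf_gt.Mg.G002

/-!
# MP_c95dcf_gt, task T16: first variation, differentiation under the integral
-/

set_option autoImplicit false

open MeasureTheory Set Filter Topology
open scoped ENNReal NNReal RealInnerProductSpace

namespace Pool.Agent.Lib.MP_c95dcf_gt

/-! ## The determinant near the identity -/

theorem fv_contDiff_det {d : ℕ} : ContDiff ℝ 1 (fun L : E d →L[ℝ] E d => L.det) := by
  classical
  let b := (EuclideanSpace.basisFun (Fin d) ℝ).toBasis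
  have h1 : (fun L : E d →L[ℝ] E d => L.det) =
      fun L : E d →L[ℝ] E d => ∑ σ : Equiv.Perm (Fin d), Equiv.Perm.sign σ •
        ∏ i, (L (EuclideanSpace.single i (1 : ℝ))) (σ i) := by
    funext L
    rw [ContinuousLinearMap.det, ← LinearMap.det_toMatrix b, Matrix.det_apply]
    refine Finset.sum_congr rfl fun σ _ => ?_
    congr 1
  rw [h1]
  refine ContDiff.sum fun σ _ => ContDiff.const_smul _ ?_
  refine contDiff_prod fun i _ => ?_
  have h2 : (fun L : E d →L[ℝ] E d => (L (EuclideanSpace.single i (1 : ℝ))) (σ i)) =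
      fun L : E d →L[ℝ] E d => ((EuclideanSpace.proj (𝕜 := ℝ) (σ i)).comp
        (ContinuousLinearMap.apply ℝ (E d) (EuclideanSpace.single i (1 : ℝ)))) L := by
    funext L
    simp
  rw [h2]
  exact ContinuousLinearMap.contDiff _

/-- The trace. -/
noncomputable def fvTr {d : ℕ} (X : E d →L[ℝ] E d) : ℝ := ∑ i, (X (EuclideanSpace.single i (1 : ℝ))) i

theorem fv_fderiv_det_one {d : ℕ} (X : E d →L[ℝ] E d) :
    (fderiv ℝ (fun L : E d →L[ℝ] E d => L.det) 1) X = fvTr X := by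
  classical
  have h0 : HasFDerivAt (fun L : E d →L[ℝ] E d => L.det)
      (fderiv ℝ (fun L : E d →L[ℝ] E d => L.det) 1) 1 :=
    (fv_contDiff_det.differentiable one_ne_zero 1).hasFDerivAt
  have h1 : HasDerivAt (fun t : ℝ => (1 : E d →L[ℝ] E d) + t • X) X 0 := by
    have := ((hasDerivAt_id (0 : ℝ)).smul_const X).const_add (1 : E d →L[ℝ] E d)
    simpa using this
  have h2 : HasDerivAt (fun t : ℝ => ((1 : E d →L[ℝ] E d) + t • X).det)
      ((fderiv ℝ (fun L : E d →L[ℝ] E d => L.det) 1) X) 0 := by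
    have h3 : HasFDerivAt (fun L : E d →L[ℝ] E d => L.det)
        (fderiv ℝ (fun L : E d →L[ℝ] E d => L.det) 1)
        ((fun t : ℝ => (1 : E d →L[ℝ] E d) + t • X) 0) := by
      have e : (1 : E d →L[ℝ] E d) + (0 : ℝ) • X = 1 := by
        ext v
        simp
      show HasFDerivAt _ _ ((1 : E d →L[ℝ] E d) + (0 : ℝ) • X)
      rw [e]
      exact h0
    exact h3.comp_hasDerivAt (0 : ℝ) h1
  let b := (EuclideanSpace.basisFun (Fin d) ℝ).toBasis
  let N : Matrix (Fin d) (Fin d) ℝ := LinearMap.toMatrix b b (X : E d →ₗ[ℝ] E d)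
  have h4 : ∀ t : ℝ, ((1 : E d →L[ℝ] E d) + t • X).det = 1 + N.trace * t +
      (Matrix.det (1 + (Polynomial.X : Polynomial ℝ) •
        N.map Polynomial.C)).divX.divX.eval t * t ^ 2 := by
    intro t
    rw [← Matrix.det_one_add_smul, ContinuousLinearMap.det, ← LinearMap.det_toMatrix b]
    congr 1
    have : ((1 + t • X : E d →L[ℝ] E d) : E d →ₗ[ℝ] E d) = 1 + t • (X : E d →ₗ[ℝ] E d) := rfl
    rw [this, map_add, map_smul, LinearMap.toMatrix_one]
  have h5 : HasDerivAt (fun t : ℝ => ((1 : E d →L[ℝ] E d) + t • X).det) N.trace 0 := by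
    rw [funext h4]
    have h6 : HasDerivAt (fun t : ℝ => 1 + N.trace * t) N.trace 0 := by
      simpa using ((hasDerivAt_id (0 : ℝ)).const_mul N.trace).const_add 1
    have h7 := (((Matrix.det (1 + (Polynomial.X : Polynomial ℝ) •
        N.map Polynomial.C)).divX.divX.hasDerivAt (0 : ℝ)).mul (hasDerivAt_pow 2 (0 : ℝ)))
    refine HasDerivAt.congr_deriv (h6.add h7) ?_
    simp
  rw [h2.unique h5, Matrix.trace, fvTr]
  refine Finset.sum_congr rfl fun i _ => ?_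
  show (LinearMap.toMatrix b b (X : E d →ₗ[ℝ] E d)) i i = _
  rw [LinearMap.toMatrix_apply]
  simp [b]

/-! ## The adjoint as a linear map -/

noncomputable def fvAdj (d : ℕ) : (E d →L[ℝ] E d) →L[ℝ] (E d →L[ℝ] E d) :=
  LinearMap.mkContinuous
    { toFun := fun X => ContinuousLinearMap.adjoint X
      map_add' := fun X Y => map_add _ X Y
      map_smul' := fun c X => by simp } 1 (fun X => by simp)

theorem fvAdj_apply {d : ℕ} (X : E d →L[ℝ] E d) : fvAdj d X = ContinuousLinearMap.adjoint X := rfl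

/-! ## A general lemma -/

theorem fv_general {α 𝓛 : Type*} [MeasurableSpace α] [NormedAddCommGroup 𝓛] [NormedSpace ℝ 𝓛]
    (lam : Measure α) [IsFiniteMeasure lam] (L₀ : 𝓛) (D : ℝ → α → 𝓛) (X : α → 𝓛) (C : ℝ≥0)
    (s₁ : ℝ) (hs₁ : 0 < s₁) (hD0 : ∀ᵐ p ∂lam, D 0 p = L₀)
    (hDd : ∀ᵐ p ∂lam, HasDerivAt (fun s => D s p) (X p) 0)
    (hDL : ∀ᵐ p ∂lam, LipschitzOnWith C (fun s => D s p) (Ioo (-s₁) s₁))
    (H : 𝓛 → α → ℝ) (δ : ℝ) (hδ : 0 < δ) (K : ℝ≥0)
    (hHL : ∀ p, LipschitzOnWith K (fun L => H L p) (Metric.ball L₀ δ))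
    (H' : α → 𝓛 →L[ℝ] ℝ) (hH' : ∀ p, HasFDerivAt (fun L => H L p) (H' p) L₀)
    (hmeas : ∀ s, (∀ᵐ p ∂lam, D s p ∈ Metric.ball L₀ δ) →
      AEStronglyMeasurable (fun p => H (D s p) p) lam)
    (hint : Integrable (fun p => H (D 0 p) p) lam)
    (hmeas' : AEStronglyMeasurable (fun p => H' p (X p)) lam) :
    HasDerivAt (fun s => ∫ p, H (D s p) p ∂lam) (∫ p, H' p (X p) ∂lam) 0 := by
  obtain ⟨s₂, hs₂, hs₂1, hs₂C⟩ : ∃ s₂ : ℝ, 0 < s₂ ∧ s₂ ≤ s₁ ∧ C * s₂ < δ := by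
    refine ⟨min s₁ (δ / (C + 1)), lt_min hs₁ (by positivity), min_le_left _ _, ?_⟩
    have h1 : (C : ℝ) * min s₁ (δ / (C + 1)) ≤ C * (δ / (C + 1)) :=
      mul_le_mul_of_nonneg_left (min_le_right _ _) C.2
    have h2 : (C : ℝ) * (δ / (C + 1)) < δ := by
      rw [mul_div_assoc', div_lt_iff₀ (by positivity)]
      nlinarith [C.2]
    linarith
  have hball : ∀ᵐ p ∂lam, ∀ s ∈ Ioo (-s₂) s₂, D s p ∈ Metric.ball L₀ δ := by
    filter_upwards [hD0, hDL] with p h0 hL s hs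
    rw [Metric.mem_ball, ← h0]
    have h1 := hL.dist_le_mul s ⟨by linarith [hs.1], by linarith [hs.2]⟩ 0
      ⟨by linarith, hs₁⟩
    have h2 : dist s 0 ≤ s₂ := by
      rw [Real.dist_0_eq_abs, abs_le]
      exact ⟨hs.1.le, hs.2.le⟩
    have h3 : (C : ℝ) * dist s 0 ≤ C * s₂ := mul_le_mul_of_nonneg_left h2 C.2
    linarith
  have hnhds : Ioo (-s₂) s₂ ∈ 𝓝 (0 : ℝ) := Ioo_mem_nhds (by linarith) hs₂
  refine (hasDerivAt_integral_of_dominated_loc_of_lip (F := fun s p => H (D s p) p)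
    (bound := fun _ => ((K * C : ℝ≥0) : ℝ)) hnhds ?_ hint hmeas' ?_ (integrable_const _) ?_).2
  · filter_upwards [hnhds] with s hs
    refine hmeas s ?_
    filter_upwards [hball] with p hp
    exact hp s hs
  · filter_upwards [hball, hDL] with p hp hL
    have h1 : LipschitzOnWith C (fun s => D s p) (Ioo (-s₂) s₂) :=
      hL.mono (Ioo_subset_Ioo (by linarith) hs₂1)
    have h2 := (hHL p).comp h1 (fun s hs => hp s hs)
    have h3 : Real.nnabs ((K * C : ℝ≥0) : ℝ) = K * C := by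
      rw [Real.nnabs_of_nonneg (NNReal.coe_nonneg _)]
      exact Real.toNNReal_coe
    rw [h3]
    exact h2
  · filter_upwards [hD0, hDd] with p h0 hd
    have h1 : HasFDerivAt (fun L => H L p) (H' p) ((fun s => D s p) 0) := by
      simpa [h0] using hH' p
    exact h1.comp_hasDerivAt (0 : ℝ) hd

/-! ## The matrix map -/

section mmap

variable {m : ℕ} {ε : ℝ} (hε : ε ≠ 0)

/-- `T ↦ Ls ε⁻¹ ∘ T* ∘ Ls ε`. -/
noncomputable def fvB (m : ℕ) (ε : ℝ) (hε : ε ≠ 0) :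
    (E (2 + m) →L[ℝ] E (2 + m)) →L[ℝ] (E (2 + m) →L[ℝ] E (2 + m)) :=
  ((ContinuousLinearMap.compL ℝ (E (2 + m)) (E (2 + m)) (E (2 + m)))
      ((LsE m ε hε).symm : E (2 + m) →L[ℝ] E (2 + m))).comp
    (((ContinuousLinearMap.compL ℝ (E (2 + m)) (E (2 + m)) (E (2 + m))).flip
      (LsE m ε hε : E (2 + m) →L[ℝ] E (2 + m))).comp (fvAdj (2 + m)))

theorem fvB_apply (T : E (2 + m) →L[ℝ] E (2 + m)) (n : E (2 + m)) :
    fvB m ε hε T n = Ls ε⁻¹ (ContinuousLinearMap.adjoint T (Ls ε n)) := rfl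

theorem fvB_one : fvB m ε hε 1 = 1 := by
  ext1 n
  rw [fvB_apply]
  have : ContinuousLinearMap.adjoint (1 : E (2 + m) →L[ℝ] E (2 + m)) = 1 := by
    rw [← ContinuousLinearMap.star_eq_adjoint, star_one]
  rw [this]
  simp [Ls_Ls, hε]

/-- The map `L ↦ det L • Ls ε⁻¹ ∘ (L⁻¹)* ∘ Ls ε`. -/
noncomputable def fvM (m : ℕ) (ε : ℝ) (hε : ε ≠ 0) (L : E (2 + m) →L[ℝ] E (2 + m)) :
    E (2 + m) →L[ℝ] E (2 + m) := L.det • fvB m ε hε (Ring.inverse L)

theorem Jc_eq_fvM (L : E (2 + m) →L[ℝ] E (2 + m)) (n : E (2 + m)) :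
    Jc ε L n = ‖fvM m ε hε L n‖ := by
  rw [Jc, fvM, smul_apply, norm_smul, fvB_apply, Real.norm_eq_abs,
    ContinuousLinearMap.ringInverse_eq_inverse]

theorem fvM_one : fvM m ε hε 1 = 1 := by
  rw [fvM, Ring.inverse_one, fvB_one]
  have : (1 : E (2 + m) →L[ℝ] E (2 + m)).det = 1 := by
    rw [ContinuousLinearMap.det]
    exact LinearMap.det_id
  rw [this]
  ext v
  simp

theorem contDiffAt_fvM : ContDiffAt ℝ 1 (fvM m ε hε) 1 := by
  have h1 : ContDiffAt ℝ 1 (fun L : E (2 + m) →L[ℝ] E (2 + m) => L.det) 1 :=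
    fv_contDiff_det.contDiffAt
  have h2 : ContDiffAt ℝ 1 (Ring.inverse : (E (2 + m) →L[ℝ] E (2 + m)) → _) 1 :=
    contDiffAt_ringInverse ℝ (1 : (E (2 + m) →L[ℝ] E (2 + m))ˣ)
  exact h1.smul ((fvB m ε hε).contDiff.contDiffAt.comp _ h2)

/-- The derivative of `fvM` at the identity. -/
noncomputable def fvM' (m : ℕ) (ε : ℝ) (hε : ε ≠ 0) :
    (E (2 + m) →L[ℝ] E (2 + m)) →L[ℝ] (E (2 + m) →L[ℝ] E (2 + m)) :=
  (fderiv ℝ (fun L : E (2 + m) →L[ℝ] E (2 + m) => L.det) 1).smulRight 1 - fvB m ε hε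

theorem hasFDerivAt_fvM : HasFDerivAt (fvM m ε hε) (fvM' m ε hε) 1 := by
  have h1 : HasFDerivAt (fun L : E (2 + m) →L[ℝ] E (2 + m) => L.det)
      (fderiv ℝ (fun L : E (2 + m) →L[ℝ] E (2 + m) => L.det) 1) 1 :=
    (fv_contDiff_det.differentiable one_ne_zero 1).hasFDerivAt
  have h2 := hasFDerivAt_ringInverse (𝕜 := ℝ) (1 : (E (2 + m) →L[ℝ] E (2 + m))ˣ)
  have h3 := (fvB m ε hε).hasFDerivAt.comp (1 : E (2 + m) →L[ℝ] E (2 + m)) h2
  have h4 := h1.smul h3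
  refine h4.congr_fderiv ?_
  have hdet : (1 : E (2 + m) →L[ℝ] E (2 + m)).det = 1 := by
    rw [ContinuousLinearMap.det]
    exact LinearMap.det_id
  ext1 X
  ext1 n
  simp only [fvM', Function.comp_apply, Ring.inverse_one, fvB_one, hdet]
  simp
  abel

theorem fv_inner_Ls (c : ℝ) (a b : E (2 + m)) : ⟪a, Ls c b⟫ = ⟪Ls c a, b⟫ := by
  rw [inner_split, inner_split]
  simp [inner_smul_left, inner_smul_right]

theorem fv_inner_fvM' (X : E (2 + m) →L[ℝ] E (2 + m)) (n : E (2 + m)) (hn : ‖n‖ = 1) :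
    ⟪n, fvM' m ε hε X n⟫ = fvTr X - ⟪Ls ε n, X (Ls ε⁻¹ n)⟫ := by
  have h1 : fvM' m ε hε X n = fvTr X • n - Ls ε⁻¹ (ContinuousLinearMap.adjoint X (Ls ε n)) := by
    rw [← fvB_apply hε, ← fv_fderiv_det_one]
    simp [fvM']
  rw [h1, inner_sub_right, inner_smul_right, real_inner_self_eq_norm_sq, hn, fv_inner_Ls,
    ContinuousLinearMap.adjoint_inner_right, real_inner_comm]
  ring

theorem hasFDerivAt_norm_fvM (n : E (2 + m)) (hn : ‖n‖ = 1) :
    HasFDerivAt (fun L => ‖fvM m ε hε L n‖)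
      ((innerSL ℝ n).comp ((ContinuousLinearMap.apply ℝ (E (2 + m)) n).comp (fvM' m ε hε))) 1 := by
  have h1 : HasFDerivAt (fun L => fvM m ε hε L n)
      ((ContinuousLinearMap.apply ℝ (E (2 + m)) n).comp (fvM' m ε hε)) 1 :=
    (ContinuousLinearMap.apply ℝ (E (2 + m)) n).hasFDerivAt.comp _ (hasFDerivAt_fvM hε)
  have h3 : fvM m ε hε 1 n = n := by rw [fvM_one]; rfl
  have h2 := h1.norm_sq
  have h4 : (fun L => ‖fvM m ε hε L n‖) = fun L => √(((fun L => ‖fvM m ε hε L n‖ ^ 2)) L) := by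
    funext L
    exact (Real.sqrt_sq (norm_nonneg _)).symm
  rw [h4]
  have h5 : ‖fvM m ε hε 1 n‖ ^ 2 = (1 : ℝ) := by
    rw [h3, hn, one_pow]
  have h6 := HasFDerivAt.sqrt (f := fun L => ‖fvM m ε hε L n‖ ^ 2) h2 (by rw [h5]; exact one_ne_zero)
  refine h6.congr_fderiv ?_
  rw [h5, h3, Real.sqrt_one]
  ext X
  simp

theorem exists_lip_fvM : ∃ (δ : ℝ) (K : ℝ≥0), 0 < δ ∧
    LipschitzOnWith K (fvM m ε hε) (Metric.ball 1 δ) := by
  obtain ⟨K, t, ht, hK⟩ := (contDiffAt_fvM (m := m) hε).exists_lipschitzOnWith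
  obtain ⟨δ, hδ, hδt⟩ := Metric.mem_nhds_iff.1 ht
  exact ⟨δ, K, hδ, hK.mono hδt⟩

theorem lip_norm_fvM {δ : ℝ} {K : ℝ≥0} (h : LipschitzOnWith K (fvM m ε hε) (Metric.ball 1 δ))
    (n : E (2 + m)) (hn : ‖n‖ = 1) :
    LipschitzOnWith K (fun L => ‖fvM m ε hε L n‖) (Metric.ball 1 δ) := by
  refine LipschitzOnWith.of_dist_le_mul fun L hL L' hL' => ?_
  rw [Real.dist_eq]
  have h1 := h.dist_le_mul L hL L' hL'
  have h2 : |‖fvM m ε hε L n‖ - ‖fvM m ε hε L' n‖| ≤ ‖(fvM m ε hε L - fvM m ε hε L') n‖ := by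
    rw [sub_apply]
    exact abs_norm_sub_norm_le _ _
  have h3 := (fvM m ε hε L - fvM m ε hε L').le_opNorm n
  rw [hn, mul_one, ← dist_eq_norm] at h3
  linarith

end mmap

/-! ## Regularity -/

section reg

variable {d : ℕ} {s₀ : ℝ} {U' : Set (E d)}

theorem fv_contDiffAt {G : ℝ × E d → E d} (hC : ContDiffOn ℝ 2 G (Ioo (-s₀) s₀ ×ˢ U'))
    (hU' : IsOpen U') {q : ℝ × E d} (hq : q ∈ Ioo (-s₀) s₀ ×ˢ U') : ContDiffAt ℝ 2 G q :=
  hC.contDiffAt ((isOpen_Ioo.prod hU').mem_nhds hq)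

theorem fv_fderiv_eq {Φ : ℝ → E d → E d}
    (hC : ContDiffOn ℝ 2 (fun q : ℝ × E d => Φ q.1 q.2) (Ioo (-s₀) s₀ ×ˢ U')) (hU' : IsOpen U')
    {s : ℝ} {p : E d} (hs : s ∈ Ioo (-s₀) s₀) (hp : p ∈ U') :
    fderiv ℝ (Φ s) p = (fderiv ℝ (fun q : ℝ × E d => Φ q.1 q.2) (s, p)).comp
      (ContinuousLinearMap.inr ℝ ℝ (E d)) := by
  have h1 : HasFDerivAt (fun q : ℝ × E d => Φ q.1 q.2)
      (fderiv ℝ (fun q : ℝ × E d => Φ q.1 q.2) (s, p)) (s, p) :=
    ((fv_contDiffAt hC hU' (q := (s, p)) ⟨hs, hp⟩).differentiableAt two_ne_zero).hasFDerivAt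
  exact (h1.comp p (hasFDerivAt_prodMk_right s p)).fderiv

/-- The spatial derivative. -/
noncomputable def fvD (G : ℝ × E d → E d) (q : ℝ × E d) : E d →L[ℝ] E d :=
  ((ContinuousLinearMap.compL ℝ (E d) (ℝ × E d) (E d)).flip (ContinuousLinearMap.inr ℝ ℝ (E d)))
    (fderiv ℝ G q)

theorem fvD_contDiffAt {G : ℝ × E d → E d} (hC : ContDiffOn ℝ 2 G (Ioo (-s₀) s₀ ×ˢ U'))
    (hU' : IsOpen U') {q : ℝ × E d} (hq : q ∈ Ioo (-s₀) s₀ ×ˢ U') : ContDiffAt ℝ 1 (fvD G) q := by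
  have h1 : ContDiffAt ℝ 1 (fderiv ℝ G) q :=
    (fv_contDiffAt hC hU' hq).fderiv_right (by norm_num)
  exact (ContinuousLinearMap.contDiff _).contDiffAt.comp q h1

theorem fvD_hasDerivAt {G : ℝ × E d → E d} (hC : ContDiffOn ℝ 2 G (Ioo (-s₀) s₀ ×ˢ U'))
    (hU' : IsOpen U') {s : ℝ} {p : E d} (hs : s ∈ Ioo (-s₀) s₀) (hp : p ∈ U') :
    HasDerivAt (fun s => fvD G (s, p)) ((fderiv ℝ (fvD G) (s, p)) (1, 0)) s := by
  have h1 : HasFDerivAt (fvD G) (fderiv ℝ (fvD G) (s, p)) (s, p) :=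
    ((fvD_contDiffAt hC hU' (q := (s, p)) ⟨hs, hp⟩).differentiableAt one_ne_zero).hasFDerivAt
  exact h1.comp_hasDerivAt s ((hasDerivAt_id s).prodMk (hasDerivAt_const s p))

theorem fvD_symm {Φ : ℝ → E d → E d} {V : E d → E d} (hs₀ : 0 < s₀)
    (hC : ContDiffOn ℝ 2 (fun q : ℝ × E d => Φ q.1 q.2) (Ioo (-s₀) s₀ ×ˢ U'))
    (hU' : IsOpen U') (hV : ∀ p ∈ U', HasDerivAt (fun s => Φ s p) (V p) 0) {p : E d}
    (hp : p ∈ U') :
    (fderiv ℝ (fvD fun q : ℝ × E d => Φ q.1 q.2) (0, p)) (1, 0) = fderiv ℝ V p := by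
  set G : ℝ × E d → E d := fun q => Φ q.1 q.2 with hG
  have h0 : (0 : ℝ) ∈ Ioo (-s₀) s₀ := ⟨by linarith, hs₀⟩
  have hq : ((0 : ℝ), p) ∈ Ioo (-s₀) s₀ ×ˢ U' := ⟨h0, hp⟩
  have h1 : HasFDerivAt (fderiv ℝ G) (fderiv ℝ (fderiv ℝ G) (0, p)) (0, p) :=
    (((fv_contDiffAt hC hU' hq).fderiv_right (m := 1) (by norm_num)).differentiableAt
      one_ne_zero).hasFDerivAt
  have h2 : fderiv ℝ (fvD G) (0, p) =
      ((ContinuousLinearMap.compL ℝ (E d) (ℝ × E d) (E d)).flip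
        (ContinuousLinearMap.inr ℝ ℝ (E d))).comp (fderiv ℝ (fderiv ℝ G) (0, p)) :=
    ((ContinuousLinearMap.hasFDerivAt _).comp ((0 : ℝ), p) h1).fderiv
  have h3 : V =ᶠ[𝓝 p] fun p' => (fderiv ℝ G (0, p')) (1, 0) := by
    filter_upwards [hU'.mem_nhds hp] with p' hp'
    have h4 : HasFDerivAt G (fderiv ℝ G (0, p')) (0, p') :=
      ((fv_contDiffAt hC hU' (q := ((0 : ℝ), p')) ⟨h0, hp'⟩).differentiableAt
        two_ne_zero).hasFDerivAt
    have h5 : HasDerivAt (G ∘ fun s : ℝ => (s, p')) ((fderiv ℝ G (0, p')) (1, 0)) 0 :=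
      HasFDerivAt.comp_hasDerivAt (0 : ℝ) h4
        ((hasDerivAt_id (0 : ℝ)).prodMk (hasDerivAt_const (0 : ℝ) p'))
    exact (hV p' hp').unique h5
  have h6 : HasFDerivAt (fun p' => (fderiv ℝ G (0, p')) (1, 0))
      ((ContinuousLinearMap.apply ℝ (E d) ((1 : ℝ), (0 : E d))).comp
        ((fderiv ℝ (fderiv ℝ G) (0, p)).comp (ContinuousLinearMap.inr ℝ ℝ (E d)))) p :=
    (ContinuousLinearMap.apply ℝ (E d) ((1 : ℝ), (0 : E d))).hasFDerivAt.comp p
      (h1.comp p (hasFDerivAt_prodMk_right (0 : ℝ) p))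
  have hsymm : IsSymmSndFDerivAt ℝ G (0, p) :=
    (fv_contDiffAt hC hU' hq).isSymmSndFDerivAt (by simp)
  rw [h2, h3.fderiv_eq, h6.fderiv]
  ext1 v
  have h7 := hsymm.eq ((1 : ℝ), (0 : E d)) ((0 : ℝ), v)
  simpa using h7

end reg

/-! ## The theorem -/

theorem firstVar : Stmt_FirstVar := by
  intro m ε s₀ U₁ U' K₀ Φ V hε hs₀ hU₁ hU' hsub hK₀ hK₀U' hC h0 hV hfix lam hlam hnull
  have hε0 : ε ≠ 0 := hε.ne'
  have hae : ∀ᵐ p ∂lam, p ∈ U₁ := hnull
  have hzero : (0 : ℝ) ∈ Ioo (-s₀) s₀ := ⟨by linarith, hs₀⟩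
  set G : ℝ × E (2 + m) → E (2 + m) := fun q => Φ q.1 q.2 with hG
  have hDeq : ∀ s ∈ Ioo (-s₀) s₀, ∀ p ∈ U', fderiv ℝ (Φ s) p = fvD G (s, p) :=
    fun s hs p hp => fv_fderiv_eq hC hU' hs hp
  -- the derivative at `s = 0`
  have hD0' : ∀ p ∈ U', fderiv ℝ (Φ 0) p = 1 := by
    intro p hp
    have h1 : Φ 0 =ᶠ[𝓝 p] id := by
      filter_upwards [hU'.mem_nhds hp] with p' hp'
      exact h0 p' hp'
    rw [h1.fderiv_eq, fderiv_id]
    rfl
  have hD0 : ∀ᵐ p ∂lam, fderiv ℝ (Φ 0) p = 1 := by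
    filter_upwards [hae] with p hp
    exact hD0' p (hsub hp)
  have hDd : ∀ᵐ p ∂lam, HasDerivAt (fun s => fderiv ℝ (Φ s) p) (fderiv ℝ V p) 0 := by
    filter_upwards [hae] with p hp
    have h1 := fvD_hasDerivAt hC hU' hzero (hsub hp)
    rw [fvD_symm hs₀ hC hU' hV (hsub hp)] at h1
    refine h1.congr_of_eventuallyEq ?_
    filter_upwards [isOpen_Ioo.mem_nhds hzero] with s hs
    exact hDeq s hs p (hsub hp)
  -- the Lipschitz bound
  obtain ⟨C, hCb⟩ : ∃ C : ℝ, ∀ q ∈ Icc (-(s₀ / 2)) (s₀ / 2) ×ˢ K₀,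
      ‖(fderiv ℝ (fvD G) q) (1, 0)‖ ≤ C := by
    refine (isCompact_Icc.prod hK₀).exists_bound_of_continuousOn ?_
    intro q hq
    have hq' : q ∈ Ioo (-s₀) s₀ ×ˢ U' :=
      ⟨⟨by linarith [hq.1.1], by linarith [hq.1.2]⟩, hK₀U' hq.2⟩
    have h1 : ContDiffAt ℝ 0 (fderiv ℝ (fvD G)) q :=
      (fvD_contDiffAt hC hU' hq').fderiv_right (by norm_num)
    exact (((ContinuousLinearMap.apply ℝ (E (2 + m) →L[ℝ] E (2 + m))
      ((1 : ℝ), (0 : E (2 + m)))).continuous.continuousAt.comp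
        h1.continuousAt)).continuousWithinAt
  have hDL : ∀ᵐ p ∂lam, LipschitzOnWith C.toNNReal (fun s => fderiv ℝ (Φ s) p)
      (Ioo (-(s₀ / 2)) (s₀ / 2)) := by
    filter_upwards [hae] with p hp
    have hsub2 : Ioo (-(s₀ / 2)) (s₀ / 2) ⊆ Ioo (-s₀) s₀ :=
      Ioo_subset_Ioo (by linarith) (by linarith)
    by_cases hpK : p ∈ K₀
    · refine (convex_Ioo _ _).lipschitzOnWith_of_nnnorm_hasDerivWithin_le
        (f' := fun s => (fderiv ℝ (fvD G) (s, p)) (1, 0)) (fun s hs => ?_) (fun s hs => ?_)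
      · refine HasDerivAt.hasDerivWithinAt ?_
        refine (fvD_hasDerivAt hC hU' (hsub2 hs) (hsub hp)).congr_of_eventuallyEq ?_
        filter_upwards [isOpen_Ioo.mem_nhds (hsub2 hs)] with s' hs'
        exact hDeq s' hs' p (hsub hp)
      · have h1 := hCb (s, p) ⟨Ioo_subset_Icc_self hs, hpK⟩
        rw [← NNReal.coe_le_coe, coe_nnnorm]
        exact h1.trans (Real.le_coe_toNNReal C)
    · have hconst : ∀ s ∈ Ioo (-(s₀ / 2)) (s₀ / 2), fderiv ℝ (Φ s) p = 1 := by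
        intro s hs
        have h1 : Φ s =ᶠ[𝓝 p] id := by
          filter_upwards [(hU₁.sdiff hK₀.isClosed).mem_nhds ⟨hp, hpK⟩] with p' hp'
          exact hfix s (hsub2 hs) p' hp'
        rw [h1.fderiv_eq, fderiv_id]
        rfl
      intro s hs s' hs'
      show edist (fderiv ℝ (Φ s) p) (fderiv ℝ (Φ s') p) ≤ _
      rw [hconst s hs, hconst s' hs', edist_self]
      exact zero_le
  have hs2 : 0 < s₀ / 2 := by linarith
  constructor
  · -- the determinant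
    obtain ⟨K, t, ht, hK⟩ := (fv_contDiff_det (d := 2 + m)).contDiffAt.exists_lipschitzOnWith
      (x := (1 : E (2 + m) →L[ℝ] E (2 + m)))
    obtain ⟨δ, hδ, hδt⟩ := Metric.mem_nhds_iff.1 ht
    have hdet1 : (1 : E (2 + m) →L[ℝ] E (2 + m)).det = 1 := by
      rw [ContinuousLinearMap.det]
      exact LinearMap.det_id
    have hcont : Continuous (fun L : E (2 + m) →L[ℝ] E (2 + m) => L.det) :=
      fv_contDiff_det.continuous
    have hkey := fv_general lam (1 : E (2 + m) →L[ℝ] E (2 + m)) (fun s p => fderiv ℝ (Φ s) p)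
      (fun p => fderiv ℝ V p) C.toNNReal (s₀ / 2) hs2 hD0 hDd hDL (fun L _ => |L.det|) δ hδ K
      (fun _ => by
        refine LipschitzOnWith.of_dist_le_mul fun L hL L' hL' => ?_
        have h1 := hK.dist_le_mul L (hδt hL) L' (hδt hL')
        rw [Real.dist_eq] at h1 ⊢
        exact (abs_abs_sub_abs_le_abs_sub _ _).trans h1)
      (fun _ => fderiv ℝ (fun L : E (2 + m) →L[ℝ] E (2 + m) => L.det) 1)
      (fun _ => by
        refine (fv_contDiff_det.differentiable one_ne_zero 1).hasFDerivAt.congr_of_eventuallyEq ?_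
        have h1 : ∀ᶠ L in 𝓝 (1 : E (2 + m) →L[ℝ] E (2 + m)), 0 < L.det :=
          hcont.continuousAt.eventually_const_lt (by
            show 0 < (1 : E (2 + m) →L[ℝ] E (2 + m)).det
            rw [hdet1]
            exact one_pos)
        filter_upwards [h1] with L hL
        exact abs_of_pos hL)
      (fun s _ => ((hcont.abs.measurable).comp (measurable_fderiv ℝ (Φ s))).aestronglyMeasurable)
      (by
        refine (integrable_const (1 : ℝ)).congr ?_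
        filter_upwards [hD0] with p hp
        rw [hp, hdet1, abs_one])
      (((ContinuousLinearMap.continuous _).measurable.comp
        (measurable_fderiv ℝ V)).aestronglyMeasurable)
    simp only [fv_fderiv_det_one] at hkey
    exact hkey
  · intro ν hν hν1
    obtain ⟨δ, K, hδ, hK⟩ := exists_lip_fvM (m := m) hε0
    have hkey := fv_general lam (1 : E (2 + m) →L[ℝ] E (2 + m)) (fun s p => fderiv ℝ (Φ s) p)
      (fun p => fderiv ℝ V p) C.toNNReal (s₀ / 2) hs2 hD0 hDd hDL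
      (fun L p => ‖fvM m ε hε0 L (ν p)‖) δ hδ K
      (fun p => lip_norm_fvM hε0 hK (ν p) (hν1 p))
      (fun p => (innerSL ℝ (ν p)).comp
        ((ContinuousLinearMap.apply ℝ (E (2 + m)) (ν p)).comp (fvM' m ε hε0)))
      (fun p => hasFDerivAt_norm_fvM hε0 (ν p) (hν1 p))
      (by
        intro s hs
        classical
        have h1 : Measurable ((Metric.ball (1 : E (2 + m) →L[ℝ] E (2 + m)) δ).piecewise
            (fvM m ε hε0) 0) :=
          hK.continuousOn.measurable_piecewise continuousOn_const Metric.isOpen_ball.measurableSet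
        have h2 : Measurable fun p => ((Metric.ball (1 : E (2 + m) →L[ℝ] E (2 + m)) δ).piecewise
            (fvM m ε hε0) 0 (fderiv ℝ (Φ s) p)) (ν p) :=
          isBoundedBilinearMap_apply.continuous.measurable.comp
            ((h1.comp (measurable_fderiv ℝ (Φ s))).prodMk hν)
        refine h2.norm.aestronglyMeasurable.congr ?_
        filter_upwards [hs] with p hp
        rw [Set.piecewise_eq_of_mem _ _ _ hp])
      (by
        refine (integrable_const (1 : ℝ)).congr ?_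
        filter_upwards [hD0] with p hp
        rw [hp, fvM_one]
        exact (hν1 p).symm)
      (by
        have h1 : Measurable fun p => (fvM' m ε hε0 (fderiv ℝ V p)) (ν p) :=
          isBoundedBilinearMap_apply.continuous.measurable.comp
            (((fvM' m ε hε0).continuous.measurable.comp (measurable_fderiv ℝ V)).prodMk hν)
        exact (hν.inner h1).aestronglyMeasurable)
    have h2 : (fun p => ((innerSL ℝ (ν p)).comp
        ((ContinuousLinearMap.apply ℝ (E (2 + m)) (ν p)).comp (fvM' m ε hε0))) (fderiv ℝ V p)) =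
        fun p => dv V p - ⟪Ls ε (ν p), fderiv ℝ V p (Ls ε⁻¹ (ν p))⟫ := by
      funext p
      exact fv_inner_fvM' hε0 (fderiv ℝ V p) (ν p) (hν1 p)
    rw [h2] at hkey
    refine hkey.congr_of_eventuallyEq (Eventually.of_forall fun s => ?_)
    exact integral_congr_ae (Eventually.of_forall fun p => Jc_eq_fvM hε0 _ _)

end Pool.Agent.Lib.MP_c95dcf_gt
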