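import Pool.Agent.Lib.MP_c95dcf_gt.Mg.G002

/-!
# MP_c95dcf_gt, part T: the flow
-/

set_option autoImplicit false

open MeasureTheory Set Filter Topology
open scoped ENNReal NNReal RealInnerProductSpace

namespace Pool.Agent.Lib.MP_c95dcf_gt

/-- The inverse of a bijection of an open set with invertible derivatives is smooth. -/
theorem flw_inv {V : Type*} [NormedAddCommGroup V] [NormedSpace ℝ V] [CompleteSpace V]
    {n : WithTop ℕ∞} (hn : n ≠ 0) {S : Set V} {f g : V → V} (hS : IsOpen S)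
    (hf : ContDiffOn ℝ n f S) (hg : MapsTo g S S)
    (hgf : ∀ x ∈ S, g (f x) = x) (hfg : ∀ x ∈ S, f (g x) = x)
    (hd : ∀ x ∈ S, ∃ f' : V ≃L[ℝ] V, HasFDerivAt f (f' : V →L[ℝ] V) x) : ContDiffOn ℝ n g S := by
  intro y hy
  refine ContDiffAt.contDiffWithinAt ?_
  set a := g y with ha
  have haS : a ∈ S := hg hy
  have hfa : f a = y := hfg y hy
  obtain ⟨f', hf'⟩ := hd a haS
  have hfc : ContDiffAt ℝ n f a := hf.contDiffAt (hS.mem_nhds haS)
  have h1 := hfc.to_localInverse hf' hn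
  have h2 : g =ᶠ[𝓝 (f a)] hfc.localInverse hf' hn := by
    refine HasStrictFDerivAt.localInverse_unique _ ?_
    filter_upwards [hS.mem_nhds haS] with x hx using hgf x hx
  rw [← hfa]
  exact h1.congr_of_eventuallyEq h2

section

variable {Y : ℂ → ℂ} {L Λ : ℝ}

/-- The perturbation of the identity. -/
noncomputable def flwT (Y : ℂ → ℂ) (l : ℝ) (x : ℂ) : ℂ := x + l • Y x

theorem flwT_inj (hL : ∀ x y, ‖Y x - Y y‖ ≤ L * ‖x - y‖) {l : ℝ} (hl : |l| * L ≤ 1 / 2) :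
    Function.Injective (flwT Y l) := by
  intro x y hxy
  unfold flwT at hxy
  have h1 : x - y = l • (Y y - Y x) := by
    rw [smul_sub]
    linear_combination (exp := 1) hxy
  have h2 : ‖x - y‖ ≤ 1 / 2 * ‖x - y‖ := by
    calc ‖x - y‖ = ‖l • (Y y - Y x)‖ := by rw [← h1]
      _ = |l| * ‖Y y - Y x‖ := by rw [norm_smul, Real.norm_eq_abs]
      _ ≤ |l| * (L * ‖y - x‖) := mul_le_mul_of_nonneg_left (hL y x) (abs_nonneg l)
      _ = (|l| * L) * ‖x - y‖ := by rw [norm_sub_rev y x]; ring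
      _ ≤ 1 / 2 * ‖x - y‖ := mul_le_mul_of_nonneg_right hl (norm_nonneg _)
  have h3 : ‖x - y‖ = 0 := by linarith [norm_nonneg (x - y)]
  exact sub_eq_zero.1 (norm_eq_zero.1 h3)

theorem flwT_surj (hL : ∀ x y, ‖Y x - Y y‖ ≤ L * ‖x - y‖) {l : ℝ}
    (hl : |l| * L ≤ 1 / 2) : Function.Surjective (flwT Y l) := by
  intro y
  set φ : ℂ → ℂ := fun x => y - l • Y x with hφ
  have hc : ContractingWith (1 / 2) φ := by
    refine ⟨by
      rw [← NNReal.coe_lt_coe]
      norm_num, LipschitzWith.of_dist_le_mul fun a b => ?_⟩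
    rw [dist_eq_norm, dist_eq_norm]
    calc ‖φ a - φ b‖ = ‖l • (Y b - Y a)‖ := by
          congr 1
          simp only [hφ, smul_sub]
          ring
      _ = |l| * ‖Y b - Y a‖ := by rw [norm_smul, Real.norm_eq_abs]
      _ ≤ |l| * (L * ‖b - a‖) := mul_le_mul_of_nonneg_left (hL b a) (abs_nonneg l)
      _ = (|l| * L) * ‖a - b‖ := by rw [norm_sub_rev b a]; ring
      _ ≤ 1 / 2 * ‖a - b‖ := mul_le_mul_of_nonneg_right hl (norm_nonneg _)
      _ = _ := by norm_num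
  have h1 : φ (hc.fixedPoint φ) = hc.fixedPoint φ := hc.fixedPoint_isFixedPt
  refine ⟨hc.fixedPoint φ, ?_⟩
  unfold flwT
  nth_rewrite 1 [← h1]
  simp [hφ]

theorem flwT_off {l : ℝ} {x : ℂ} (hx : x ∉ tsupport Y) : flwT Y l x = x := by
  unfold flwT
  rw [image_eq_zero_of_notMem_tsupport hx, smul_zero, add_zero]

theorem flwT_mem (hL : ∀ x y, ‖Y x - Y y‖ ≤ L * ‖x - y‖) {l : ℝ} (hl : |l| * L ≤ 1 / 2)
    {x : ℂ} : flwT Y l x ∈ tsupport Y ↔ x ∈ tsupport Y := by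
  constructor
  · intro h
    by_contra hx
    rw [flwT_off hx] at h
    exact hx h
  · intro h
    by_contra hx
    have h1 : flwT Y l (flwT Y l x) = flwT Y l x := flwT_off hx
    rw [flwT_inj hL hl h1] at hx
    exact hx h

/-- The inverse of `flwT`. -/
noncomputable def flwG (Y : ℂ → ℂ) (l : ℝ) : ℂ → ℂ := Function.invFun (flwT Y l)

theorem flwG_left (hL : ∀ x y, ‖Y x - Y y‖ ≤ L * ‖x - y‖) {l : ℝ} (hl : |l| * L ≤ 1 / 2)
    (x : ℂ) : flwG Y l (flwT Y l x) = x :=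
  Function.leftInverse_invFun (flwT_inj hL hl) x

theorem flwG_right (hL : ∀ x y, ‖Y x - Y y‖ ≤ L * ‖x - y‖) {l : ℝ}
    (hl : |l| * L ≤ 1 / 2) (x : ℂ) : flwT Y l (flwG Y l x) = x :=
  Function.rightInverse_invFun (flwT_surj hL hl) x

theorem flwG_off (hL : ∀ x y, ‖Y x - Y y‖ ≤ L * ‖x - y‖) {l : ℝ} (hl : |l| * L ≤ 1 / 2)
    {x : ℂ} (hx : x ∉ tsupport Y) : flwG Y l x = x := by
  have h := flwG_left hL hl x
  rwa [flwT_off hx] at h

theorem flwG_mem (hL : ∀ x y, ‖Y x - Y y‖ ≤ L * ‖x - y‖) {l : ℝ}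
    (hl : |l| * L ≤ 1 / 2) {x : ℂ} : flwG Y l x ∈ tsupport Y ↔ x ∈ tsupport Y := by
  rw [← flwT_mem hL hl, flwG_right hL hl]

/-- The inverse depends smoothly on the parameter. -/
theorem flwG_contDiffOn (hL0 : 0 ≤ L) (hL : ∀ x y, ‖Y x - Y y‖ ≤ L * ‖x - y‖)
    (hY : ContDiff ℝ 1 Y) (hΛ : Λ * L ≤ 1 / 2) :
    ContDiffOn ℝ 1 (fun q : ℝ × ℂ => flwG Y q.1 q.2) (Ioo (-Λ) Λ ×ˢ univ) := by
  have hb : ∀ l ∈ Ioo (-Λ) Λ, |l| * L ≤ 1 / 2 := fun l hl =>
    (mul_le_mul_of_nonneg_right (abs_le.2 ⟨hl.1.le, hl.2.le⟩) hL0).trans hΛ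
  have hfd : ∀ x, ‖fderiv ℝ Y x‖ ≤ L := fun x =>
    norm_fderiv_le_of_lipschitz ℝ (C := L.toNNReal) (LipschitzWith.of_dist_le_mul fun a b => by
      rw [dist_eq_norm, dist_eq_norm, Real.coe_toNNReal _ hL0]
      exact hL a b) |>.trans (by rw [Real.coe_toNNReal _ hL0])
  set f : ℝ × ℂ → ℝ × ℂ := fun q => (q.1, q.2 + q.1 • Y q.2) with hf
  have hfc : ContDiff ℝ 1 f :=
    contDiff_fst.prodMk (contDiff_snd.add (contDiff_fst.smul (hY.comp contDiff_snd)))
  have key : ContDiffOn ℝ 1 (fun q : ℝ × ℂ => (q.1, flwG Y q.1 q.2)) (Ioo (-Λ) Λ ×ˢ univ) := by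
    refine flw_inv one_ne_zero (isOpen_Ioo.prod isOpen_univ) hfc.contDiffOn
      (fun q hq => ⟨hq.1, mem_univ _⟩) ?_ ?_ ?_
    · rintro ⟨l, x⟩ ⟨hl, -⟩
      exact Prod.ext rfl (flwG_left hL (hb l hl) x)
    · rintro ⟨l, x⟩ ⟨hl, -⟩
      exact Prod.ext rfl (flwG_right hL (hb l hl) x)
    · rintro ⟨l, x⟩ ⟨hl, -⟩
      have hYd : HasFDerivAt Y (fderiv ℝ Y x) x :=
        ((hY.differentiable one_ne_zero) x).hasFDerivAt
      have h0 : HasFDerivAt f (fderiv ℝ f (l, x)) (l, x) :=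
        ((hfc.differentiable one_ne_zero) _).hasFDerivAt
      -- the derivative is injective
      have h1 : ∀ (a : ℝ) (b : ℂ), fderiv ℝ f (l, x) (a, b) =
          (a, b + (l • fderiv ℝ Y x b + a • Y x)) := by
        intro a b
        have e1 : HasFDerivAt (fun q : ℝ × ℂ => q.1) (ContinuousLinearMap.fst ℝ ℝ ℂ) (l, x) :=
          hasFDerivAt_fst
        have e2 : HasFDerivAt (fun q : ℝ × ℂ => q.2) (ContinuousLinearMap.snd ℝ ℝ ℂ) (l, x) :=
          hasFDerivAt_snd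
        have e3 : HasFDerivAt (fun q : ℝ × ℂ => Y q.2)
            ((fderiv ℝ Y x).comp (ContinuousLinearMap.snd ℝ ℝ ℂ)) (l, x) :=
          HasFDerivAt.comp (l, x) hYd e2
        have e4 := e1.prodMk (e2.add (e1.smul e3))
        rw [HasFDerivAt.fderiv (f := f) e4]
        simp
      have hinj : Function.Injective (fderiv ℝ f (l, x)) := by
        rw [injective_iff_map_eq_zero]
        rintro ⟨a, b⟩ hab
        rw [h1] at hab
        have ha : a = 0 := (Prod.ext_iff.1 hab).1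
        have hb' : b + (l • fderiv ℝ Y x b + a • Y x) = 0 := (Prod.ext_iff.1 hab).2
        rw [ha, zero_smul, add_zero] at hb'
        have h2 : ‖b‖ ≤ 1 / 2 * ‖b‖ := by
          have h3 : b = -(l • fderiv ℝ Y x b) := eq_neg_of_add_eq_zero_left hb'
          calc ‖b‖ = ‖l • fderiv ℝ Y x b‖ := by
                conv_lhs => rw [h3]
                rw [norm_neg]
            _ = |l| * ‖fderiv ℝ Y x b‖ := by rw [norm_smul, Real.norm_eq_abs]
            _ ≤ |l| * (L * ‖b‖) := mul_le_mul_of_nonneg_left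
                ((fderiv ℝ Y x).le_of_opNorm_le (hfd x) b) (abs_nonneg _)
            _ = (|l| * L) * ‖b‖ := by ring
            _ ≤ 1 / 2 * ‖b‖ := mul_le_mul_of_nonneg_right (hb l hl) (norm_nonneg _)
        have h4 : ‖b‖ = 0 := by linarith [norm_nonneg b]
        rw [ha, norm_eq_zero.1 h4]
        rfl
      have h5 : (((LinearEquiv.ofInjectiveEndo (fderiv ℝ f (l, x)).toLinearMap
          hinj).toContinuousLinearEquiv : (ℝ × ℂ) ≃L[ℝ] (ℝ × ℂ)) : (ℝ × ℂ) →L[ℝ] (ℝ × ℂ)) =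
          fderiv ℝ f (l, x) := ContinuousLinearMap.ext fun _ => rfl
      exact ⟨_, h5 ▸ h0⟩
  exact contDiff_snd.comp_contDiffOn key

end

/-! ### Smoothness in the coordinates -/

theorem flw_isOpen_Dp (m : ℕ) : IsOpen (Dp m) := Metric.isOpen_ball.sdiff isClosed_singleton

theorem flw_Dp_ne {m : ℕ} {c : ℂ} (hc : c ∈ Dp m) : c ≠ 0 := hc.2

theorem flw_Dp_lt {m : ℕ} {c : ℂ} (hc : c ∈ Dp m) : ‖c‖ < m := mem_ball_zero_iff.1 hc.1

theorem flw_wpC {m : ℕ} (hm : 0 < m) {n : WithTop ℕ∞} {c : ℂ} (hc : c ∈ Dp m) :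
    ContDiffAt ℝ n (fun c : ℂ => wp m ‖c‖) c := by
  have h1 : (fun c : ℂ => wp m ‖c‖) =ᶠ[𝓝 c] fun c => 1 - ‖c‖ / m := by
    filter_upwards [(flw_isOpen_Dp m).mem_nhds hc] with x hx
    exact (wp_of_lt hm (flw_Dp_lt hx)).1
  have h2 : ContDiffAt ℝ n (fun c : ℂ => ‖c‖) c := contDiffAt_norm ℝ (flw_Dp_ne hc)
  exact (contDiffAt_const.sub (h2.div_const _)).congr_of_eventuallyEq h1

theorem flw_glue {m : ℕ} (hm : 0 < m) {n : WithTop ℕ∞} {P : Type*} [NormedAddCommGroup P]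
    [NormedSpace ℝ P] {X : P → ℂ} {Z : P → E m} {p : P} (hX : ContDiffAt ℝ n X p)
    (hZ : ContDiffAt ℝ n Z p) (h : X p ∈ Dp m) :
    ContDiffAt ℝ n (fun q => (jn (X q) (wp m ‖X q‖ • Z q) : E (2 + m))) p := by
  have h1 : ContDiffAt ℝ n (fun q => wp m ‖X q‖) p :=
    ContDiffAt.comp p (g := fun c : ℂ => wp m ‖c‖) (flw_wpC hm h) hX
  exact (contDiff_jn (m := m)).contDiffAt.comp p (hX.prodMk (h1.smul hZ))

theorem flw_ztC {m : ℕ} (hm : 0 < m) {n : WithTop ℕ∞} {p : E (2 + m)} (hp : px p ∈ Dp m) :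
    ContDiffAt ℝ n (zt m) p := by
  have h1 : ContDiffAt ℝ n (fun q : E (2 + m) => wp m ‖px q‖) p :=
    ContDiffAt.comp p (g := fun c : ℂ => wp m ‖c‖) (flw_wpC hm hp) contDiff_px.contDiffAt
  exact (h1.inv (wp_of_lt hm (flw_Dp_lt hp)).2.ne').smul contDiff_pz.contDiffAt

theorem flw_Fl_id {m : ℕ} (hm : 0 < m) {v : E m} {η : ℝ → ℝ} {Y : ℂ → ℂ} {s : ℝ}
    {p : E (2 + m)} (h : px p ∉ tsupport Y) (hp : ‖px p‖ < m) : Fl m v η Y s p = p := by
  unfold Fl
  rw [image_eq_zero_of_notMem_tsupport h, smul_zero, add_zero, wp_smul_zt hm hp, jn_px_pz]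

/-- Derivative of the profile along a line. -/
theorem flw_wp_deriv {m : ℕ} (hm : 0 < m) {x y : ℂ} (hx : x ∈ Dp m) :
    HasDerivAt (fun s : ℝ => wp m ‖x + s • y‖) ⟪y, gw m x⟫ 0 := by
  have h0 : HasDerivAt (fun s : ℝ => x + s • y) y 0 := by
    simpa using ((hasDerivAt_id (0 : ℝ)).smul_const y).const_add x
  have h1 : HasDerivAt (fun s : ℝ => ‖x + s • y‖ ^ 2) (2 * ⟪x + (0 : ℝ) • y, y⟫) 0 :=
    h0.norm_sq
  rw [zero_smul, add_zero] at h1
  have hne : ‖x + (0 : ℝ) • y‖ ^ 2 ≠ 0 := by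
    rw [zero_smul, add_zero]
    exact pow_ne_zero 2 (norm_ne_zero_iff.2 (flw_Dp_ne hx))
  have h2 := h1.sqrt hne
  have e1 : (fun s : ℝ => Real.sqrt (‖x + s • y‖ ^ 2)) = fun s : ℝ => ‖x + s • y‖ := by
    ext s
    exact Real.sqrt_sq (norm_nonneg _)
  rw [e1, zero_smul, add_zero, Real.sqrt_sq (norm_nonneg _)] at h2
  have h3 : HasDerivAt (fun s : ℝ => 1 - ‖x + s • y‖ / m)
      (-(2 * ⟪x, y⟫ / (2 * ‖x‖) / m)) 0 := (h2.div_const _).const_sub 1
  have hc : ContinuousAt (fun s : ℝ => x + s • y) 0 := h0.continuousAt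
  have h4 : ∀ᶠ s : ℝ in 𝓝 0, x + s • y ∈ Dp m := by
    refine hc.eventually ((flw_isOpen_Dp m).mem_nhds ?_)
    show x + (0 : ℝ) • y ∈ Dp m
    rw [zero_smul, add_zero]
    exact hx
  have h5 : (fun s : ℝ => wp m ‖x + s • y‖) =ᶠ[𝓝 0] fun s : ℝ => 1 - ‖x + s • y‖ / m := by
    filter_upwards [h4] with s hs
    exact (wp_of_lt hm (flw_Dp_lt hs)).1
  have h6 := h3.congr_of_eventuallyEq h5
  have hm' : (m : ℝ) ≠ 0 := by exact_mod_cast hm.ne'
  have hx' : ‖x‖ ≠ 0 := norm_ne_zero_iff.2 (flw_Dp_ne hx)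
  have e2 : gw m x = (-(1 / (m * ‖x‖)) : ℝ) • x := by
    unfold gw
    rw [Complex.real_smul]
    push_cast
    ring
  have e3 : ⟪y, gw m x⟫ = -(2 * ⟪x, y⟫ / (2 * ‖x‖) / m) := by
    rw [e2, inner_smul_right, real_inner_comm]
    field_simp
  rw [e3]
  exact h6

/-- The inverse of the flow. -/
noncomputable def flwPsi (m : ℕ) (v : E m) (η : ℝ → ℝ) (Y : ℂ → ℂ) (s : ℝ) (p : E (2 + m)) :
    E (2 + m) :=
  jn (flwG Y (s * η ⟪zt m p, v⟫) (px p)) ((wp m ‖flwG Y (s * η ⟪zt m p, v⟫) (px p)‖) • zt m p)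

theorem flow : Stmt_Flow := by
  intro m v η Y hm hv hη hY hT
  have hm0 : 0 < m := by omega
  obtain ⟨K0, hK0⟩ := hY.lipschitzWith_of_hasCompactSupport hT.comp two_ne_zero
  set L : ℝ := (K0 : ℝ) with hLdef
  have hL0 : 0 ≤ L := K0.2
  have hL : ∀ x y, ‖Y x - Y y‖ ≤ L * ‖x - y‖ := fun x y => by
    have := hK0.dist_le_mul x y
    rwa [dist_eq_norm, dist_eq_norm] at this
  obtain ⟨Mη, hMη⟩ := (isCompact_Icc (a := (-2 : ℝ)) (b := 2)).exists_bound_of_continuousOn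
    hη.continuous.continuousOn
  have hMη0 : 0 ≤ Mη := (norm_nonneg _).trans (hMη 0 (by constructor <;> norm_num))
  set Λ : ℝ := 1 / (2 * (L + 1)) with hΛ
  have hΛ0 : 0 < Λ := by positivity
  have hΛL : Λ * L ≤ 1 / 2 := by
    rw [hΛ, div_mul_eq_mul_div, one_mul, div_le_div_iff₀ (by positivity) (by norm_num)]
    nlinarith
  set s₀ : ℝ := Λ / (Mη + 1) with hs₀
  have hs₀0 : 0 < s₀ := by positivity
  -- bound for the parameter
  have hlam : ∀ s ∈ Ioo (-s₀) s₀, ∀ ζ : E m, ‖ζ‖ < 2 → s * η ⟪ζ, v⟫ ∈ Ioo (-Λ) Λ := by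
    intro s hs ζ hζ
    have h1 : |⟪ζ, v⟫| ≤ 2 := (abs_real_inner_le_norm ζ v).trans (by rw [hv, mul_one]; exact hζ.le)
    have h2 : |η ⟪ζ, v⟫| ≤ Mη := hMη _ (abs_le.1 h1)
    have h3 : |s| < s₀ := abs_lt.2 hs
    rw [mem_Ioo, ← abs_lt, abs_mul]
    calc |s| * |η ⟪ζ, v⟫| ≤ |s| * Mη := mul_le_mul_of_nonneg_left h2 (abs_nonneg _)
      _ ≤ s₀ * Mη := mul_le_mul_of_nonneg_right h3.le hMη0
      _ < s₀ * (Mη + 1) := by nlinarith
      _ = Λ := by
        rw [hs₀]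
        field_simp
  have habs : ∀ l ∈ Ioo (-Λ) Λ, |l| * L ≤ 1 / 2 := fun l hl =>
    (mul_le_mul_of_nonneg_right (abs_le.2 ⟨hl.1.le, hl.2.le⟩) hL0).trans hΛL
  have hKD : tsupport Y ⊆ Dp m := hT.supp
  have hwc : Continuous (fun p : E (2 + m) => wp m ‖px p‖) := by
    have : Continuous (wp m) := by
      unfold wp
      fun_prop
    exact this.comp (continuous_px.norm)
  set U' : Set (E (2 + m)) := {p | ‖px p‖ < m ∧ ‖pz p‖ < 2 * wp m ‖px p‖} with hU'
  set K₀ : Set (E (2 + m)) := {p | px p ∈ tsupport Y ∧ ‖pz p‖ ≤ wp m ‖px p‖} with hK₀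
  have hU'o : IsOpen U' :=
    (isOpen_lt continuous_px.norm continuous_const).inter
      (isOpen_lt continuous_pz.norm (continuous_const.mul hwc))
  have hK₀c : IsCompact K₀ := by
    refine Metric.isCompact_of_isClosed_isBounded ?_ ?_
    · exact ((isClosed_tsupport Y).preimage continuous_px).inter
        (isClosed_le continuous_pz.norm hwc)
    · refine (Metric.isBounded_closedBall (x := (0 : E (2 + m))) (r := m + 1)).subset ?_
      intro p hp
      rw [mem_closedBall_zero_iff]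
      have h1 : ‖px p‖ < m := flw_Dp_lt (hKD hp.1)
      have h2 : wp m ‖px p‖ ≤ 1 := by
        rw [(wp_of_lt hm0 h1).1]
        have : 0 ≤ ‖px p‖ / m := by positivity
        linarith
      have h3 := norm_jn_le (px p) (pz p)
      rw [jn_px_pz] at h3
      linarith [hp.2]
  have hK₀U : K₀ ⊆ U' := by
    intro p hp
    have h1 : ‖px p‖ < m := flw_Dp_lt (hKD hp.1)
    have h2 := (wp_of_lt hm0 h1).2
    exact ⟨h1, by linarith [hp.2]⟩
  have hUU : Ub m 1 ⊆ U' := by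
    intro p hp
    have h1 := px_lt_of_mem hm0 hp
    have h2 := (mem_Ub_one hm0 p).1 hp
    have h3 := (wp_of_lt hm0 h1).2
    exact ⟨h1, by linarith⟩
  have hztU : ∀ p ∈ U', ‖zt m p‖ < 2 := by
    intro p hp
    have h3 := (wp_of_lt hm0 hp.1).2
    rw [zt, norm_smul, norm_inv, Real.norm_of_nonneg h3.le, inv_mul_lt_iff₀ h3]
    linarith [hp.2]
  -- values of the flow
  have hFl : ∀ s p, Fl m v η Y s p = jn (flwT Y (s * η ⟪zt m p, v⟫) (px p))
      ((wp m ‖flwT Y (s * η ⟪zt m p, v⟫) (px p)‖) • zt m p) := fun s p => rfl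
  have hnormT : ∀ l ∈ Ioo (-Λ) Λ, ∀ x : ℂ, ‖x‖ < m → ‖flwT Y l x‖ < m := by
    intro l hl x hx
    by_cases h : x ∈ tsupport Y
    · exact flw_Dp_lt (hKD ((flwT_mem hL (habs l hl)).2 h))
    · rwa [flwT_off h]
  have hnormG : ∀ l ∈ Ioo (-Λ) Λ, ∀ x : ℂ, ‖x‖ < m → ‖flwG Y l x‖ < m := by
    intro l hl x hx
    by_cases h : x ∈ tsupport Y
    · exact flw_Dp_lt (hKD ((flwG_mem hL (habs l hl)).2 h))
    · rwa [flwG_off hL (habs l hl) h]
  refine ⟨s₀, U', K₀, hs₀0, hU'o, hK₀c, hK₀U, hUU, ?_, ?_, ?_, ?_, ?_⟩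
  · -- smoothness
    rintro ⟨s, p⟩ ⟨hs, hp⟩
    refine ContDiffAt.contDiffWithinAt ?_
    by_cases h : px p ∈ tsupport Y
    · have hpD : px p ∈ Dp m := hKD h
      have hz : ContDiffAt ℝ 2 (fun q : ℝ × E (2 + m) => zt m q.2) (s, p) :=
        ContDiffAt.comp (s, p) (g := zt m) (flw_ztC hm0 hpD) contDiff_snd.contDiffAt
      have hl : ContDiffAt ℝ 2 (fun q : ℝ × E (2 + m) => q.1 * η ⟪zt m q.2, v⟫) (s, p) :=
        contDiffAt_fst.mul (hη.contDiffAt.comp (s, p) (hz.inner ℝ contDiffAt_const))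
      have hpxs : ContDiffAt ℝ 2 (fun q : ℝ × E (2 + m) => px q.2) (s, p) :=
        (contDiff_px.comp contDiff_snd).contDiffAt
      have hX : ContDiffAt ℝ 2 (fun q : ℝ × E (2 + m) =>
          px q.2 + (q.1 * η ⟪zt m q.2, v⟫ : ℝ) • Y (px q.2)) (s, p) :=
        hpxs.add (hl.smul (hY.contDiffAt.comp (s, p) hpxs))
      refine flw_glue hm0 hX hz ?_
      exact hKD ((flwT_mem hL (habs _ (hlam s hs _ (hztU p hp)))).2 h)
    · have h1 : (fun q : ℝ × E (2 + m) => Fl m v η Y q.1 q.2) =ᶠ[𝓝 (s, p)] fun q => q.2 := by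
        have h2 : ∀ᶠ q : ℝ × E (2 + m) in 𝓝 (s, p), px q.2 ∉ tsupport Y ∧ ‖px q.2‖ < m := by
          have h3 : IsOpen {q : ℝ × E (2 + m) | px q.2 ∉ tsupport Y ∧ ‖px q.2‖ < m} :=
            ((isClosed_tsupport Y).isOpen_compl.preimage
              (continuous_px.comp continuous_snd)).inter
              (isOpen_lt (continuous_px.comp continuous_snd).norm continuous_const)
          exact h3.mem_nhds ⟨h, hp.1⟩
        filter_upwards [h2] with q hq using flw_Fl_id hm0 hq.1 hq.2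
      exact contDiffAt_snd.congr_of_eventuallyEq h1
  · intro p hp
    rw [hFl, zero_mul]
    have e1 : flwT Y 0 (px p) = px p := by
      unfold flwT
      rw [zero_smul, add_zero]
    rw [e1, wp_smul_zt hm0 hp.1, jn_px_pz]
  · intro p hp
    by_cases h : px p ∈ tsupport Y
    · have hpD : px p ∈ Dp m := hKD h
      set c : ℝ := η ⟪zt m p, v⟫ with hc
      have e1 : (fun s => Fl m v η Y s p) = fun s : ℝ => (jn (px p + s • (c • Y (px p)))
          ((wp m ‖px p + s • (c • Y (px p))‖) • zt m p) : E (2 + m)) := by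
        ext1 s
        rw [hFl]
        unfold flwT
        rw [← hc, mul_smul]
      rw [e1]
      have h1 : HasDerivAt (fun s : ℝ => px p + s • (c • Y (px p))) (c • Y (px p)) 0 := by
        simpa using ((hasDerivAt_id (0 : ℝ)).smul_const (c • Y (px p))).const_add (px p)
      have h2 := (flw_wp_deriv hm0 (y := c • Y (px p)) hpD).smul_const (zt m p)
      have h3 := h1.prodMk h2
      have h4 := ((splitL m).symm.toContinuousLinearMap.hasFDerivAt).comp_hasDerivAt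
        (0 : ℝ) h3
      have e2 : Vf m v η Y p = (splitL m).symm.toContinuousLinearMap
          (c • Y (px p), ⟪c • Y (px p), gw m (px p)⟫ • zt m p) := by
        show Vf m v η Y p = jn _ _
        unfold Vf
        rw [← hc, inner_smul_left]
        rfl
      rw [e2]
      exact h4
    · have e1 : (fun s => Fl m v η Y s p) = fun _ => p := by
        ext1 s
        exact flw_Fl_id hm0 h hp.1
      have e2 : Vf m v η Y p = 0 := by
        unfold Vf
        rw [image_eq_zero_of_notMem_tsupport h, smul_zero, inner_zero_left, mul_zero,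
          zero_smul]
        rw [← jn_px_pz (0 : E (2 + m)), px_zero, pz_zero]
      rw [e1, e2]
      exact hasDerivAt_const _ _
  · intro s hs p hp
    refine flw_Fl_id hm0 (fun h => hp.2 ⟨h, ?_⟩) (px_lt_of_mem hm0 hp.1)
    exact ((mem_Ub_one hm0 p).1 hp.1).le
  · intro s hs
    have hlU : ∀ p ∈ Ub m 1, s * η ⟪zt m p, v⟫ ∈ Ioo (-Λ) Λ := fun p hp =>
      hlam s hs _ (by linarith [norm_zt_lt hm0 hp])
    refine ⟨fun p hp => ?_, flwPsi m v η Y s, ?_, fun p hp => ?_, fun p hp => ?_,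
      fun p hp => ?_⟩
    · rw [hFl]
      exact (jn_wp_mem hm0 (hnormT _ (hlU p hp) _ (px_lt_of_mem hm0 hp)) _).2
        (norm_zt_lt hm0 hp)
    · -- smoothness of the inverse
      intro p hp
      refine ContDiffAt.contDiffWithinAt ?_
      by_cases h : px p ∈ tsupport Y
      · have hpD : px p ∈ Dp m := hKD h
        have hz : ContDiffAt ℝ 1 (zt m) p := flw_ztC hm0 hpD
        have hη1 : ContDiff ℝ 1 η := hη.of_le one_le_two
        have hl : ContDiffAt ℝ 1 (fun q : E (2 + m) => s * η ⟪zt m q, v⟫) p :=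
          contDiffAt_const.mul (hη1.contDiffAt.comp p (hz.inner ℝ contDiffAt_const))
        have hG : ContDiffAt ℝ 1 (fun q : ℝ × ℂ => flwG Y q.1 q.2)
            (s * η ⟪zt m p, v⟫, px p) :=
          (flwG_contDiffOn hL0 hL (hY.of_le one_le_two) hΛL).contDiffAt
            ((isOpen_Ioo.prod isOpen_univ).mem_nhds ⟨hlU p hp, mem_univ _⟩)
        have hX : ContDiffAt ℝ 1 (fun q : E (2 + m) =>
            flwG Y (s * η ⟪zt m q, v⟫) (px q)) p :=
          ContDiffAt.comp p (g := fun q : ℝ × ℂ => flwG Y q.1 q.2)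
            (f := fun q : E (2 + m) => (s * η ⟪zt m q, v⟫, px q)) hG
            (hl.prodMk contDiff_px.contDiffAt)
        refine flw_glue hm0 hX hz ?_
        exact hKD ((flwG_mem hL (habs _ (hlU p hp))).2 h)
      · have h1 : flwPsi m v η Y s =ᶠ[𝓝 p] fun q => q := by
          have hUo : IsOpen (Ub m 1) := by
            have : Ub m 1 = {p : E (2 + m) | ‖pz p‖ < wp m ‖px p‖} := by
              ext q
              exact mem_Ub_one hm0 q
            rw [this]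
            exact isOpen_lt continuous_pz.norm hwc
          have h2 : ∀ᶠ q in 𝓝 p, px q ∉ tsupport Y ∧ q ∈ Ub m 1 :=
            (((isClosed_tsupport Y).isOpen_compl.preimage continuous_px).inter
              hUo).mem_nhds ⟨h, hp⟩
          filter_upwards [h2] with q hq
          unfold flwPsi
          rw [flwG_off hL (habs _ (hlU q hq.2)) hq.1,
            wp_smul_zt hm0 (px_lt_of_mem hm0 hq.2), jn_px_pz]
        exact contDiffAt_id.congr_of_eventuallyEq h1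
    · unfold flwPsi
      exact (jn_wp_mem hm0 (hnormG _ (hlU p hp) _ (px_lt_of_mem hm0 hp)) _).2
        (norm_zt_lt hm0 hp)
    · have h1 : zt m (Fl m v η Y s p) = zt m p := by
        rw [hFl]
        exact zt_jn hm0 (hnormT _ (hlU p hp) _ (px_lt_of_mem hm0 hp)) _
      have h2 : px (Fl m v η Y s p) = flwT Y (s * η ⟪zt m p, v⟫) (px p) := by
        rw [hFl, px_jn]
      unfold flwPsi
      rw [h1, h2, flwG_left hL (habs _ (hlU p hp)), wp_smul_zt hm0 (px_lt_of_mem hm0 hp),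
        jn_px_pz]
    · have h1 : zt m (flwPsi m v η Y s p) = zt m p := by
        unfold flwPsi
        exact zt_jn hm0 (hnormG _ (hlU p hp) _ (px_lt_of_mem hm0 hp)) _
      have h2 : px (flwPsi m v η Y s p) = flwG Y (s * η ⟪zt m p, v⟫) (px p) := by
        unfold flwPsi
        rw [px_jn]
      rw [hFl, h1, h2, flwG_right hL (habs _ (hlU p hp)),
        wp_smul_zt hm0 (px_lt_of_mem hm0 hp), jn_px_pz]

end Pool.Agent.Lib.MP_c95dcf_gt
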