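import Pool.Agent.Lib.MP_c95dcf_gt.Mg.G002

/-!
# MP_c95dcf_gt, task T09: `L²` bound for the vertical part of the normal of minimisers
-/

set_option autoImplicit false

open MeasureTheory Set Filter Topology
open scoped ENNReal NNReal RealInnerProductSpace

namespace Pool.Agent.Lib.MP_c95dcf_gt

theorem L2_fT_lip {m : ℕ} {κ t : ℝ} (hκ : 0 < κ) (hκ1 : κ < 1) (a b : ℝ) :
    fT m κ t a - fT m κ t b ≤ |a - b| := by
  unfold fT
  generalize omr m * t = T
  generalize vU m / 2 = V
  have h1 : |min b T - min a T| ≤ |b - a| := by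
    refine (abs_min_sub_min_le_max b T a T).trans ?_
    simp
  have h2 : |max 0 (a - V) - max 0 (b - V)| ≤ |a - b| := by
    refine (abs_max_sub_max_le_max 0 (a - V) 0 (b - V)).trans ?_
    simp
  rcases le_total a b with h | h
  · have h3 : max 0 (a - V) ≤ max 0 (b - V) := max_le_max le_rfl (by linarith)
    have h4 : min a T ≤ min b T := min_le_min h le_rfl
    rw [abs_of_nonneg (by linarith), abs_of_nonneg (by linarith)] at h1
    rw [abs_of_nonpos (by linarith)]
    nlinarith
  · have h3 : max 0 (b - V) ≤ max 0 (a - V) := max_le_max le_rfl (by linarith)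
    have h4 : min b T ≤ min a T := min_le_min h le_rfl
    rw [abs_of_nonneg (by linarith), abs_of_nonneg (by linarith)] at h2
    rw [abs_of_nonneg (by linarith)]
    nlinarith

theorem L2_fT_cont (m : ℕ) (κ t : ℝ) : Continuous (fT m κ t) := by
  unfold fT
  fun_prop

theorem L2_Pe_empty (m : ℕ) (ε : ℝ) : Pe m ε ∅ = 0 := by
  simp [Pe]

theorem L2_norm_gw (m : ℕ) (hm : 2 ≤ m) (c : ℂ) : ‖gw m c‖ ≤ 1 := by
  have hm' : (1 : ℝ) ≤ m := by exact_mod_cast (by omega : 1 ≤ m)
  unfold gw
  rw [norm_neg, norm_div, norm_mul]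
  simp only [RCLike.norm_natCast, Complex.norm_real, norm_norm]
  rcases eq_or_ne c 0 with rfl | hc
  · simp
  · have : 0 < ‖c‖ := norm_pos_iff.2 hc
    rw [div_le_one (by positivity)]
    nlinarith

theorem L2_V0_univ_nonneg (m : ℕ) : 0 ≤ V0 m univ := by
  unfold V0
  exact integral_nonneg fun c => pow_nonneg (wp_nonneg _ _) _

/-- Pointwise bound of the integrand of `Stmt_SliceP`. -/
theorem L2_pt {m : ℕ} (hm : 2 ≤ m) {ε : ℝ} (hε : 0 < ε) {p n : E (2 + m)} (hp : p ∈ Ub m 1)
    (hn : ‖n‖ = 1) :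
    ‖px n + (ε * ⟪pz n, zt m p⟫ : ℝ) • gw m (px p)‖ ≤
      1 - ‖pz n‖ ^ 2 / 2 + ε * ‖pz n‖ := by
  have h1 : ‖px n‖ ≤ 1 - ‖pz n‖ ^ 2 / 2 := by
    have h := norm_sq_split n
    rw [hn] at h
    have h0 := norm_nonneg (px n)
    have h0' := norm_nonneg (pz n)
    have h2 : ‖pz n‖ ^ 2 ≤ 1 := by nlinarith
    nlinarith [sq_nonneg (‖pz n‖ ^ 2)]
  have h2 : ‖(ε * ⟪pz n, zt m p⟫ : ℝ) • gw m (px p)‖ ≤ ε * ‖pz n‖ := by
    rw [norm_smul, norm_mul, Real.norm_of_nonneg hε.le]
    have h3 : ‖⟪pz n, zt m p⟫‖ ≤ ‖pz n‖ := by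
      refine (norm_inner_le_norm _ _).trans ?_
      have := norm_zt_lt (by omega) hp
      nlinarith [norm_nonneg (pz n)]
    have h4 := L2_norm_gw m hm (px p)
    calc ε * ‖⟪pz n, zt m p⟫‖ * ‖gw m (px p)‖ ≤ ε * ‖⟪pz n, zt m p⟫‖ * 1 := by gcongr
      _ ≤ ε * ‖pz n‖ := by rw [mul_one]; gcongr
  exact (norm_add_le _ _).trans (add_le_add h1 h2)

theorem l2 (h1 : Stmt_Fib) (h2 : Stmt_Lift) (h3 : Stmt_SliceP) (h4 : Stmt_SliceV)
    (h5 : Stmt_Poincare) : Stmt_L2 := by
  intro m κ t hm hκ hκ1 ht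
  obtain ⟨Cp, hCp, hP⟩ := h5 m
  have hom := omr_pos m
  set B : Set (E m) := Metric.ball (0 : E m) 1 with hB
  have hBo : IsOpen B := Metric.isOpen_ball
  have hBc : Convex ℝ B := convex_ball _ _
  have hBb : Bornology.IsBounded B := Metric.isBounded_ball
  have hBv : (volume B).toReal = omr m := rfl
  have hBv' : volume B = om m := rfl
  have hBfin : IsFiniteMeasure (volume.restrict B) :=
    ⟨by rw [Measure.restrict_apply_univ]; exact (om_ne_top m).lt_top⟩
  set C1 : ℝ := Cp * Metric.diam B * omr m with hC1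
  have hC1n : 0 ≤ C1 := by positivity
  set a : ℝ := 2 * (C1 + omr m) / omr m with ha
  refine ⟨a ^ 2 * (κ * (omr m * t)), ?_⟩
  intro ε hε hε1 A lam ν hA hW
  have hfin : IsFiniteMeasure lam := hW.fin
  obtain ⟨hAs, hθ, hVm, hVb, hVA⟩ := h1 m A hm hA.meas hA.sub
  set v : E m → ℝ := fun ζ => V0 m (As m A ζ) with hv
  set P : ℝ := (Pe m ε A).toReal with hPdef
  have hPofReal : Pe m ε A = ENNReal.ofReal P := (ENNReal.ofReal_toReal hA.fin).symm
  have hP0 : 0 ≤ P := ENNReal.toReal_nonneg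
  set f := fT m κ t with hf
  -- comparison with the empty set
  have hf0 : f 0 = 0 := by
    have hvU : 0 ≤ vU m := mul_nonneg hom.le (L2_V0_univ_nonneg m)
    simp only [hf, fT]
    rw [min_eq_left (by positivity), max_eq_left (by linarith)]
    ring
  have hPM : P ≤ κ * (omr m * t) := by
    have h := hA.le ∅ MeasurableSet.empty (empty_subset _) (by rw [L2_Pe_empty]; simp)
    rw [L2_Pe_empty] at h
    simp only [measure_empty, ENNReal.toReal_zero] at h
    change P + f _ ≤ 0 + f 0 at h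
    rw [hf0] at h
    have h' : -(κ * (omr m * t)) ≤ f (volume A).toReal := by
      simp only [hf, fT]
      have e1 : κ * min (volume A).toReal (omr m * t) ≤ κ * (omr m * t) :=
        mul_le_mul_of_nonneg_left (min_le_right _ _) hκ.le
      have e2 : 0 ≤ max 0 ((volume A).toReal - vU m / 2) := le_max_left _ _
      linarith
    linarith
  -- comparison with the lifts of the slices
  have hsl : ∀ ζ ∈ B, ENNReal.ofReal (P + f (volume A).toReal - f (omr m * v ζ)) ≤
      om m * P0 m (As m A ζ) := by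
    intro ζ hζ
    obtain ⟨l1, l2, l3, l4⟩ := h2 m (As m A ζ) hm (hAs ζ)
    have l4 := l4 ε hε
    by_cases hinf : om m * P0 m (As m A ζ) = ∞
    · rw [hinf]; exact le_top
    have hPl : Pe m ε (lift m (As m A ζ)) ≠ ∞ := (lt_of_le_of_lt l4 (lt_top_iff_ne_top.2 hinf)).ne
    have h := hA.le _ l1 (fun p hp => hp.1) hPl
    rw [l2] at h
    refine le_trans ?_ l4
    rw [← ENNReal.ofReal_toReal hPl]
    apply ENNReal.ofReal_le_ofReal
    change P + f _ ≤ _ + f (omr m * v ζ) at h
    linarith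
  -- integrate
  have hqm : Measurable (fun p => ‖pz (ν p)‖) := (measurable_pz.comp hW.meas).norm
  have hq0 : ∀ p, 0 ≤ ‖pz (ν p)‖ := fun p => norm_nonneg _
  have hq1 : ∀ p, ‖pz (ν p)‖ ≤ 1 := fun p => (norm_pz_le _).trans (hW.unit p).le
  have hqi : Integrable (fun p => ‖pz (ν p)‖) lam :=
    Integrable.of_bound hqm.aestronglyMeasurable 1
      (Eventually.of_forall fun p => by rw [Real.norm_of_nonneg (hq0 p)]; exact hq1 p)
  have hq2i : Integrable (fun p => ‖pz (ν p)‖ ^ 2) lam :=
    Integrable.of_bound (hqm.pow_const 2).aestronglyMeasurable 1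
      (Eventually.of_forall fun p => by
        rw [Real.norm_of_nonneg (sq_nonneg _)]; exact pow_le_one₀ (hq0 p) (hq1 p))
  set I1 : ℝ := ∫ p, ‖pz (ν p)‖ ∂lam with hI1
  set I2 : ℝ := ∫ p, ‖pz (ν p)‖ ^ 2 ∂lam with hI2
  have hI1n : 0 ≤ I1 := integral_nonneg hq0
  have hI2n : 0 ≤ I2 := integral_nonneg fun p => sq_nonneg _
  have hlamP : (lam univ).toReal ≤ P := ENNReal.toReal_mono hA.fin hW.mass
  have hIb : Integrable (fun p => 1 - ‖pz (ν p)‖ ^ 2 / 2 + ε * ‖pz (ν p)‖) lam :=
    ((integrable_const _).sub (hq2i.div_const 2)).add (hqi.const_mul ε)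
  have hIbv : ∫ p, (1 - ‖pz (ν p)‖ ^ 2 / 2 + ε * ‖pz (ν p)‖) ∂lam =
      (lam univ).toReal - I2 / 2 + ε * I1 := by
    have hsb : Integrable (fun p => 1 - ‖pz (ν p)‖ ^ 2 / 2) lam :=
      (integrable_const _).sub (hq2i.div_const 2)
    rw [integral_add hsb (hqi.const_mul ε),
      integral_sub (integrable_const _) (hq2i.div_const 2), integral_div, integral_const_mul]
    simp [Measure.real, hI1, hI2]
  have hae : ∀ᵐ p ∂lam, p ∈ Ub m 1 := by
    rw [ae_iff]; exact hW.null
  have hbd : ∫⁻ ζ in B, P0 m (As m A ζ) ≤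
      ENNReal.ofReal ((lam univ).toReal - I2 / 2 + ε * I1) := by
    refine (h3 m ε A lam ν hm hε hA.meas hA.sub hW).trans ?_
    rw [← hIbv, ofReal_integral_eq_lintegral_ofReal hIb]
    · apply lintegral_mono_ae
      filter_upwards [hae] with p hp
      exact ENNReal.ofReal_le_ofReal (L2_pt hm hε hp (hW.unit p))
    · filter_upwards [hae] with p hp
      exact (norm_nonneg _).trans (L2_pt hm hε hp (hW.unit p))
  have hvI : IntegrableOn v B := by
    refine Integrable.of_bound hVm.aestronglyMeasurable (V0 m univ) (Eventually.of_forall fun ζ => ?_)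
    rw [Real.norm_of_nonneg (hVb ζ).1]
    exact (hVb ζ).2
  have hfm : Measurable fun ζ => f (omr m * v ζ) :=
    (L2_fT_cont m κ t).measurable.comp (hVm.const_mul _)
  have hfI : IntegrableOn (fun ζ => f (omr m * v ζ)) B := by
    refine Integrable.of_bound hfm.aestronglyMeasurable (omr m * V0 m univ)
      (Eventually.of_forall fun ζ => ?_)
    have e1 := L2_fT_lip (m := m) (t := t) hκ hκ1 (omr m * v ζ) 0
    have e2 := L2_fT_lip (m := m) (t := t) hκ hκ1 0 (omr m * v ζ)
    rw [← hf, hf0] at e1 e2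
    have e3 : |omr m * v ζ - 0| ≤ omr m * V0 m univ := by
      rw [sub_zero, abs_of_nonneg (mul_nonneg hom.le (hVb ζ).1)]
      exact mul_le_mul_of_nonneg_left (hVb ζ).2 hom.le
    rw [abs_sub_comm] at e2
    rw [Real.norm_eq_abs, abs_le]
    constructor <;> linarith
  set g : E m → ℝ := fun ζ => P + f (volume A).toReal - f (omr m * v ζ) with hg
  have hgI : IntegrableOn g B := (integrable_const _).sub hfI
  have hgv : ∫ ζ in B, g ζ = omr m * P + omr m * f (volume A).toReal -
      ∫ ζ in B, f (omr m * v ζ) := by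
    simp only [hg]
    rw [integral_sub (integrable_const _) hfI, setIntegral_const]
    simp only [Measure.real, hBv, smul_eq_mul]
    ring
  -- the left hand side
  have hle1 : ∫ ζ in B, g ζ ≤ omr m * ((lam univ).toReal - I2 / 2 + ε * I1) := by
    have hrn : 0 ≤ (lam univ).toReal - I2 / 2 + ε * I1 := by
      rw [← hIbv]
      apply integral_nonneg_of_ae
      filter_upwards [hae] with p hp
      exact (norm_nonneg _).trans (L2_pt hm hε hp (hW.unit p))
    have e1 : ∫⁻ ζ in B, ENNReal.ofReal (g ζ) ≤ om m * ∫⁻ ζ in B, P0 m (As m A ζ) := by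
      rw [← lintegral_const_mul' _ _ (om_ne_top m)]
      exact setLIntegral_mono' hBo.measurableSet fun ζ hζ => hsl ζ hζ
    have e2 : ∫⁻ ζ in B, ENNReal.ofReal (g ζ) ≤
        ENNReal.ofReal (omr m * ((lam univ).toReal - I2 / 2 + ε * I1)) := by
      refine e1.trans ?_
      rw [ENNReal.ofReal_mul hom.le, omr, ENNReal.ofReal_toReal (om_ne_top m)]
      gcongr
    have e3 : ∫ ζ in B, g ζ ≤ ∫ ζ in B, max (g ζ) 0 :=
      integral_mono hgI hgI.pos_part fun ζ => le_max_left _ _
    have e4 : ENNReal.ofReal (∫ ζ in B, max (g ζ) 0) = ∫⁻ ζ in B, ENNReal.ofReal (g ζ) := by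
      rw [ofReal_integral_eq_lintegral_ofReal hgI.pos_part
        (Eventually.of_forall fun ζ => le_max_right _ _)]
      apply lintegral_congr
      intro ζ
      rcases le_total (g ζ) 0 with h | h
      · rw [max_eq_right h, ENNReal.ofReal_of_nonpos h, ENNReal.ofReal_zero]
      · rw [max_eq_left h]
    rw [← e4] at e2
    exact e3.trans ((ENNReal.ofReal_le_ofReal_iff (by positivity)).1 e2)
  -- the oscillation
  have hosc : (∫ ζ in B, f (omr m * v ζ)) - omr m * f (volume A).toReal ≤ C1 * (ε * I1) := by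
    have hTV := h4 m ε A lam ν hm hε hA.meas hA.sub hW
    have hp := hP B v (ε * I1) hBo hBc hBb hvI hTV
    rw [hBv] at hp
    have e0 : (∫ ζ in B, f (omr m * v ζ)) - omr m * f (volume A).toReal =
        ∫ ζ in B, (f (omr m * v ζ) - f (volume A).toReal) := by
      rw [integral_sub hfI (integrable_const _), setIntegral_const]
      simp only [Measure.real, hBv, smul_eq_mul]
    have e1 : ∀ ζ, f (omr m * v ζ) - f (volume A).toReal ≤ ∫ ζ' in B, |v ζ - v ζ'| := by
      intro ζ
      refine (L2_fT_lip hκ hκ1 _ _).trans ?_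
      have e2 : omr m * v ζ - (volume A).toReal = ∫ ζ' in B, (v ζ - v ζ') := by
        rw [integral_sub (integrable_const _) hvI, setIntegral_const, hVA]
        simp only [Measure.real, hBv, smul_eq_mul]
        rfl
      rw [e2]
      exact abs_integral_le_integral_abs
    have hmm : Measurable fun ζ => ∫ ζ' in B, |v ζ - v ζ'| := by
      have : StronglyMeasurable fun q : E m × E m => |v q.1 - v q.2| :=
        ((hVm.comp measurable_fst).sub (hVm.comp measurable_snd)).abs.stronglyMeasurable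
      exact (this.integral_prod_right (ν := volume.restrict B)).measurable
    have hmi : IntegrableOn (fun ζ => ∫ ζ' in B, |v ζ - v ζ'|) B := by
      refine Integrable.of_bound hmm.aestronglyMeasurable (V0 m univ * omr m)
        (Eventually.of_forall fun ζ => ?_)
      refine (norm_setIntegral_le_of_norm_le_const (C := V0 m univ) (by rw [hBv']; exact (om_ne_top m).lt_top) ?_).trans ?_
      · intro ζ' _
        rw [Real.norm_eq_abs, abs_abs, abs_le]
        have := hVb ζ
        have := hVb ζ'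
        constructor <;> simp only [hv] <;> linarith
      · simp only [Measure.real, hBv]; exact le_rfl
    rw [e0]
    calc ∫ ζ in B, (f (omr m * v ζ) - f (volume A).toReal)
        ≤ ∫ ζ in B, ∫ ζ' in B, |v ζ - v ζ'| :=
          integral_mono (hfI.sub (integrable_const _)) hmi e1
      _ ≤ Cp * Metric.diam B * omr m * (ε * I1) := hp
      _ = C1 * (ε * I1) := by rw [hC1]
  -- conclusion
  rw [hgv] at hle1
  have hmain : omr m * I2 / 2 ≤ (C1 + omr m) * (ε * I1) := by nlinarith
  have hmain' : I2 ≤ a * (ε * I1) := by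
    rw [ha, div_mul_eq_mul_div, le_div_iff₀ hom]
    nlinarith
  have han : 0 ≤ a := by positivity
  have hAG : a * (ε * I1) ≤ I2 / 2 + a ^ 2 * ε ^ 2 / 2 * (lam univ).toReal := by
    have e1 : a * (ε * I1) = ∫ p, a * ε * ‖pz (ν p)‖ ∂lam := by
      rw [integral_const_mul]; ring
    have e2 : I2 / 2 + a ^ 2 * ε ^ 2 / 2 * (lam univ).toReal =
        ∫ p, (‖pz (ν p)‖ ^ 2 / 2 + a ^ 2 * ε ^ 2 / 2) ∂lam := by
      rw [integral_add (hq2i.div_const 2) (integrable_const _), integral_div]
      simp [Measure.real, mul_comm, hI2]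
    rw [e1, e2]
    refine integral_mono (hqi.const_mul _) ((hq2i.div_const 2).add (integrable_const _)) fun p => ?_
    nlinarith [sq_nonneg (‖pz (ν p)‖ - a * ε)]
  have hI2 : I2 ≤ a ^ 2 * ε ^ 2 * (lam univ).toReal := by linarith
  have hlam : (lam univ).toReal ≤ κ * (omr m * t) := hlamP.trans hPM
  calc I2 ≤ a ^ 2 * ε ^ 2 * (lam univ).toReal := hI2
    _ ≤ a ^ 2 * ε ^ 2 * (κ * (omr m * t)) := by gcongr
    _ = a ^ 2 * (κ * (omr m * t)) * ε ^ 2 := by ring

end Pool.Agent.Lib.MP_c95dcf_gt
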