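import Mathlib

/-!
# MP_c95dcf_gt: definitions of part B, the weighted plane
-/

set_option autoImplicit false

open MeasureTheory Set Filter Topology
open scoped ENNReal NNReal

namespace Pool.Agent.Lib.MP_c95dcf_gt

/-- The profile `w(r) = 1 - r/m`, cut off at zero. -/
noncomputable def wp (m : ℕ) (r : ℝ) : ℝ := max 0 (1 - r / m)

/-- The radial weight `W(r) = w(r)^m`. -/
noncomputable def Wp (m : ℕ) (r : ℝ) : ℝ := wp m r ^ m

/-- `h(r) = r W(r)`. -/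
noncomputable def hp (m : ℕ) (r : ℝ) : ℝ := r * Wp m r

/-- `v(r) = ∫_r^m h`. -/
noncomputable def vp (m : ℕ) (r : ℝ) : ℝ := ∫ s in Ioo r (m : ℝ), hp m s

/-- The punctured disc. -/
def Dp (m : ℕ) : Set ℂ := Metric.ball (0 : ℂ) m \ {0}

/-- Divergence in the plane. -/
noncomputable def dvc (Y : ℂ → ℂ) (c : ℂ) : ℝ :=
  (fderiv ℝ Y c 1).re + (fderiv ℝ Y c Complex.I).im

/-- `C¹` vector fields of the plane with compact support in `D`. -/
structure TFc (D : Set ℂ) (Y : ℂ → ℂ) : Prop where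
  diff : ContDiff ℝ 1 Y
  comp : HasCompactSupport Y
  supp : tsupport Y ⊆ D

/-- Weighted area. -/
noncomputable def V0 (m : ℕ) (A : Set ℂ) : ℝ := ∫ c in A ∩ Metric.ball (0 : ℂ) m, Wp m ‖c‖

/-- Weighted perimeter in the disc. -/
noncomputable def P0 (m : ℕ) (A : Set ℂ) : ℝ≥0∞ :=
  ⨆ (Y : ℂ → ℂ) (_ : TFc (Dp m) Y ∧ ∀ c, ‖Y c‖ ≤ Wp m ‖c‖), ENNReal.ofReal (∫ c in A, dvc Y c)

/-- `A` is monotone in the direction `h` (in the sense of distributions in the punctured disc). -/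
def Mono (m : ℕ) (h : ℂ) (A : Set ℂ) : Prop :=
  ∀ φ : ℂ → ℝ, ContDiff ℝ 2 φ → HasCompactSupport φ → tsupport φ ⊆ Dp m → (∀ c, 0 ≤ φ c) →
    ∫ c in A, fderiv ℝ φ c h ≤ 0

/-- `A` is radially invariant (in the sense of distributions in the punctured disc). -/
def Rad (m : ℕ) (A : Set ℂ) : Prop :=
  ∀ φ : ℂ → ℝ, ContDiff ℝ 2 φ → HasCompactSupport φ → tsupport φ ⊆ Dp m →
    ∫ c in A, dvc (fun c => ((φ c / ‖c‖ : ℝ) : ℂ) * c) c = 0

end Pool.Agent.Lib.MP_c95dcf_gt
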