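import Pool.Agent.Lib.MP_c95dcf_gt.Defs

/-!
# MP_c95dcf_gt, part O: topology of graph sets. Statements of the lemma tasks
-/

set_option autoImplicit false

open Set Filter Topology

namespace Pool.Agent.Lib.MP_c95dcf_gt

/-- Unicoherence of convex open sets. -/
def Stmt_Unicoh : Prop := ∀ (n : ℕ) (U B₁ B₂ : Set (E n)), IsOpen U → Convex ℝ U → IsOpen B₁ →
  IsOpen B₂ → IsPreconnected B₁ → IsPreconnected B₂ → B₁ ∪ B₂ = U → IsPreconnected (B₁ ∩ B₂)

/-- `F` is a closed regular set whose frontier in `U` is a graph in the direction `e`. -/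
structure IsGr {n : ℕ} (U F : Set (E n)) (e : E n) : Prop where
  closed : IsClosed F
  reg : closure (interior F) = F
  ne : e ≠ 0
  graph : ∀ x ∈ frontier F ∩ U, ∀ y ∈ frontier F ∩ U, ∀ c : ℝ, y = x + c • e → x = y

/-- The line through `x` stays in the interior of `F`. -/
def Zi {n : ℕ} (U F : Set (E n)) (e : E n) : Set (E n) :=
  {x ∈ U | ∀ s : ℝ, x + s • e ∈ U → x + s • e ∈ interior F}

/-- The line through `x` stays outside of `F`. -/
def Zo {n : ℕ} (U F : Set (E n)) (e : E n) : Set (E n) :=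
  {x ∈ U | ∀ s : ℝ, x + s • e ∈ U → x + s • e ∉ F}

/-- The line through `x` enters `F` in the direction `e`. -/
def Ap {n : ℕ} (U F : Set (E n)) (e : E n) : Set (E n) :=
  {x ∈ U | ∃ s₀ : ℝ, x + s₀ • e ∈ U ∧ x + s₀ • e ∈ frontier F ∧
    (∀ s < s₀, x + s • e ∈ U → x + s • e ∉ F) ∧
    (∀ s > s₀, x + s • e ∈ U → x + s • e ∈ interior F)}

/-- The line through `x` leaves `F` in the direction `e`. -/
def Am {n : ℕ} (U F : Set (E n)) (e : E n) : Set (E n) :=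
  {x ∈ U | ∃ s₀ : ℝ, x + s₀ • e ∈ U ∧ x + s₀ • e ∈ frontier F ∧
    (∀ s < s₀, x + s • e ∈ U → x + s • e ∈ interior F) ∧
    (∀ s > s₀, x + s • e ∈ U → x + s • e ∉ F)}

/-- Classification of the lines. -/
def Stmt_Lines : Prop := ∀ (n : ℕ) (U F : Set (E n)) (e : E n), IsOpen U → Convex ℝ U →
  IsGr U F e → U = Zi U F e ∪ Zo U F e ∪ Ap U F e ∪ Am U F e ∧
    IsOpen (Ap U F e) ∧ IsOpen (Am U F e) ∧ IsOpen (U \ Zi U F e) ∧ IsOpen (U \ Zo U F e)

/-- The structure of graph sets: if `U \ F` is not the union of two nonempty open sets with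
disjoint closures in `U`, then `F` contains a relatively clopen monotone piece. -/
def Stmt_Piece : Prop := ∀ (n : ℕ) (U F : Set (E n)) (e : E n), IsOpen U → Convex ℝ U →
  IsGr U F e → (F ∩ U).Nonempty → ¬ (U ⊆ F) →
  (∀ C₁ C₂ : Set (E n), IsOpen C₁ → IsOpen C₂ → C₁ ∪ C₂ = U \ F →
    closure C₁ ∩ closure C₂ ∩ U = ∅ → C₁ = ∅ ∨ C₂ = ∅) →
  ∃ (G : Set (E n)) (σ : ℝ), G ⊆ F ∩ U ∧ MeasurableSet G ∧ (interior G).Nonempty ∧
    (σ = 1 ∨ σ = -1) ∧
    closure G ∩ closure ((F ∩ U) \ G) ∩ U = ∅ ∧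
    (∀ x ∈ G, ∀ s : ℝ, 0 ≤ s → x + (s * σ) • e ∈ U → x + (s * σ) • e ∈ G)

end Pool.Agent.Lib.MP_c95dcf_gt
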