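import Pool.Agent.Lib.MP_c95dcf_gt.Defs
import Pool.Agent.Lib.MP_c95dcf_gt.BDefs
import Pool.Agent.Lib.MP_c95dcf_gt.OStmts

/-!
# MP_c95dcf_gt, part T: definitions for the thin limit

The space is `ℝ² × ℝᵐ`, realised as `E (2 + m)`; the base is identified with `ℂ`.
-/

set_option autoImplicit false

open MeasureTheory Set Filter Topology
open scoped ENNReal NNReal RealInnerProductSpace

namespace Pool.Agent.Lib.MP_c95dcf_gt

/-- The base coordinate. -/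
noncomputable def px {m : ℕ} (p : E (2 + m)) : ℂ :=
  ⟨p (Fin.castAdd m 0), p (Fin.castAdd m 1)⟩

/-- The fibre coordinate. -/
noncomputable def pz {m : ℕ} (p : E (2 + m)) : E m :=
  WithLp.toLp 2 (fun i => p (Fin.natAdd 2 i))

/-- The point with given base and fibre coordinates. -/
noncomputable def jn {m : ℕ} (c : ℂ) (z : E m) : E (2 + m) :=
  WithLp.toLp 2 (Fin.append ![c.re, c.im] (fun i => z i))

/-- The body. -/
def Kb (m : ℕ) (ε : ℝ) : Set (E (2 + m)) := {p | ‖px p‖ / m + ‖pz p‖ / ε ≤ 1}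

/-- The interior of the body. -/
def Ub (m : ℕ) (ε : ℝ) : Set (E (2 + m)) := {p | ‖px p‖ / m + ‖pz p‖ / ε < 1}

/-- The scaling of the fibres. -/
noncomputable def Ls {m : ℕ} (ε : ℝ) (p : E (2 + m)) : E (2 + m) := jn (px p) (ε • pz p)

/-- The scaled divergence. -/
noncomputable def dve {m : ℕ} (ε : ℝ) (X : E (2 + m) → E (2 + m)) (p : E (2 + m)) : ℝ :=
  ∑ i : Fin 2, (fderiv ℝ X p (EuclideanSpace.single (Fin.castAdd m i) (1 : ℝ))) (Fin.castAdd m i) +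
  ε⁻¹ * ∑ i : Fin m, (fderiv ℝ X p (EuclideanSpace.single (Fin.natAdd 2 i) (1 : ℝ)))
    (Fin.natAdd 2 i)

/-- The scaled perimeter relative to `Ub m 1`. -/
noncomputable def Pe (m : ℕ) (ε : ℝ) (A : Set (E (2 + m))) : ℝ≥0∞ :=
  ⨆ (X : E (2 + m) → E (2 + m)) (_ : TF (Ub m 1) X ∧ ∀ x, ‖X x‖ ≤ 1),
    ENNReal.ofReal (∫ x in A, dve ε X x)

/-- Representation of the scaled perimeter. -/
abbrev ERep (m : ℕ) (ε : ℝ) (A : Set (E (2 + m))) (lam : Measure (E (2 + m)))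
    (ν : E (2 + m) → E (2 + m)) : Prop :=
  Rep (Ub m 1) (fun X => ∫ x in A, dve ε X x) lam ν

/-- Weak form of the representation of the scaled perimeter. -/
structure WRep (m : ℕ) (ε : ℝ) (A : Set (E (2 + m))) (lam : Measure (E (2 + m)))
    (ν : E (2 + m) → E (2 + m)) : Prop where
  fin : IsFiniteMeasure lam
  null : lam (Ub m 1)ᶜ = 0
  meas : Measurable ν
  unit : ∀ x, ‖ν x‖ = 1
  repr : ∀ X, TF (Ub m 1) X → ∫ x in A, dve ε X x = ∫ x, ⟪X x, ν x⟫ ∂lam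
  mass : lam univ ≤ Pe m ε A

/-- The volume of the unit ball of `E m` as a real number. -/
noncomputable def omr (m : ℕ) : ℝ := (om m).toReal

/-- The volume of `Ub m 1`. -/
noncomputable def vU (m : ℕ) : ℝ := omr m * V0 m univ

/-- The penalisation. -/
noncomputable def fT (m : ℕ) (κ t v : ℝ) : ℝ :=
  -(κ * min v (omr m * t)) + max 0 (v - vU m / 2)

/-- Minimisers of the scaled functional. -/
structure IsMinE (m : ℕ) (ε : ℝ) (f : ℝ → ℝ) (A : Set (E (2 + m))) : Prop where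
  meas : MeasurableSet A
  sub : A ⊆ Ub m 1
  fin : Pe m ε A ≠ ∞
  le : ∀ B, MeasurableSet B → B ⊆ Ub m 1 → Pe m ε B ≠ ∞ →
    (Pe m ε A).toReal + f (volume A).toReal ≤ (Pe m ε B).toReal + f (volume B).toReal

/-- The normalised fibre coordinate `ζ = z / w(x)`. -/
noncomputable def zt (m : ℕ) (p : E (2 + m)) : E m := (wp m ‖px p‖)⁻¹ • pz p

/-- The gradient of `w(x) = 1 - ‖x‖ / m`. -/
noncomputable def gw (m : ℕ) (c : ℂ) : ℂ := -(c / ((m : ℂ) * (‖c‖ : ℂ)))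

/-- The slice of `A` at the normalised fibre coordinate `ζ`. -/
def As (m : ℕ) (A : Set (E (2 + m))) (ζ : E m) : Set ℂ :=
  {c | c ∈ Metric.ball (0 : ℂ) m ∧ jn c (wp m ‖c‖ • ζ) ∈ A}

/-- The lift of a plane set. -/
def lift (m : ℕ) (A : Set ℂ) : Set (E (2 + m)) := {p | p ∈ Ub m 1 ∧ px p ∈ A}

/-- The weighted divergence `div (W Y)`. -/
noncomputable def dvW (m : ℕ) (Y : ℂ → ℂ) (c : ℂ) : ℝ :=
  dvc (fun c => ((Wp m ‖c‖ : ℝ) : ℂ) * Y c) c

/-- Quasi-minimality of a piece. -/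
def Quasi (m : ℕ) (ε δ : ℝ) (F : Set (E (2 + m))) : Prop :=
  ∀ F' : Set (E (2 + m)), MeasurableSet F' → F' ⊆ Ub m 1 → volume (F' \ F) ≤ ENNReal.ofReal δ →
    Pe m ε F ≤ Pe m ε F' + ENNReal.ofReal |(volume F').toReal - (volume F).toReal|

/-- A regular minimiser which is a graph in the direction `e`. -/
structure Bad (m : ℕ) (κ t ε : ℝ) (A : Set (E (2 + m))) (e : E (2 + m)) : Prop where
  gr : IsGr (Ub m 1) A e
  mini : IsMinE m ε (fT m κ t) (A ∩ Ub m 1)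

/-- The monotone piece `F` of a minimiser `A`. -/
structure PieceD (m : ℕ) (κ t c δ ε : ℝ) (A F : Set (E (2 + m))) : Prop where
  mini : IsMinE m ε (fT m κ t) A
  meas : MeasurableSet F
  sub : F ⊆ A
  disj : closure F ∩ closure (A \ F) ∩ Ub m 1 = ∅
  volA : (volume A).toReal ≤ vU m / 4
  volF : c ≤ (volume F).toReal
  per : Pe m ε F ≤ ENNReal.ofReal (κ * min (volume F).toReal (omr m * t))
  quasi : Quasi m ε δ F
  mono : ∃ e : E (2 + m), e ≠ 0 ∧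
    ∀ x ∈ F, ∀ s : ℝ, 0 ≤ s → x + s • e ∈ Ub m 1 → x + s • e ∈ F

/-- A sequence of sets with its thin limit. -/
structure LimD (m : ℕ) (ε : ℕ → ℝ) (F : ℕ → Set (E (2 + m))) (F0 : Set ℂ)
    (lam : ℕ → Measure (E (2 + m))) (ν : ℕ → E (2 + m) → E (2 + m)) : Prop where
  eps_pos : ∀ j, 0 < ε j
  eps_le : ∀ j, ε j ≤ 1
  eps_lim : Tendsto ε atTop (𝓝 0)
  meas : ∀ j, MeasurableSet (F j)
  sub : ∀ j, F j ⊆ Ub m 1
  meas0 : MeasurableSet F0
  rep : ∀ j, ERep m (ε j) (F j) (lam j) (ν j)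
  conv : Tendsto (fun j => volume (symmDiff (F j) (lift m F0))) atTop (𝓝 0)
  fin0 : P0 m F0 ≠ ∞
  strict : Tendsto (fun j => (lam j univ).toReal) atTop (𝓝 (omr m * (P0 m F0).toReal))
  l2 : ∃ C : ℝ, ∀ j, ∫ x, ‖pz (ν j x)‖ ^ 2 ∂(lam j) ≤ C * ε j ^ 2

end Pool.Agent.Lib.MP_c95dcf_gt
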