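import Pool.Agent.Lib.MP_c95dcf_gt.Defs

/-!
# MP_c95dcf_gt, part G: statements of the lemma tasks

Every `Stmt_...` is a proposition; a task proves one of them, possibly from earlier ones taken as
hypotheses.
-/

set_option autoImplicit false

open MeasureTheory Set Filter Topology
open scoped ENNReal NNReal RealInnerProductSpace

namespace Pool.Agent.Lib.MP_c95dcf_gt

/-! ## Mollification and smooth functions -/

/-- A sequence of mollification kernels. -/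
structure Kern (n : ℕ) (ρ : ℕ → E n → ℝ) : Prop where
  smooth : ∀ k, ContDiff ℝ 1 (ρ k)
  nonneg : ∀ k x, 0 ≤ ρ k x
  even : ∀ k x, ρ k (-x) = ρ k x
  supp : ∀ k, tsupport (ρ k) ⊆ Metric.closedBall 0 (1 / (k + 1 : ℝ))
  mass : ∀ k, ∫ x, ρ k x = 1

def Stmt_Kern : Prop := ∀ n : ℕ, ∃ ρ : ℕ → E n → ℝ, Kern n ρ

/-- Convolution with a kernel. -/
noncomputable def conv {n : ℕ} (ρ : E n → ℝ) (u : E n → ℝ) (x : E n) : ℝ :=
  ∫ y, ρ (x - y) * u y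

/-- Basic facts on mollification: smoothness, convergence in `L¹` on compact sets. -/
def Stmt_Conv : Prop := ∀ (n : ℕ) (ρ : ℕ → E n → ℝ), Kern n ρ → ∀ u : E n → ℝ,
  LocallyIntegrable u → (∀ k, ContDiff ℝ 1 (conv (ρ k) u)) ∧
    ∀ K : Set (E n), IsCompact K →
      Tendsto (fun k => ∫ x in K, |conv (ρ k) u x - u x|) atTop (𝓝 0)

/-- Moving the mollification to the test field: `∫ (ρ * u) div X = ∫ u div (ρ * X)`, where the
mollified field is again a test field in `U`, with the same bound. -/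
def Stmt_ConvTest : Prop := ∀ (n : ℕ) (ρ : ℕ → E n → ℝ), Kern n ρ → ∀ u : E n → ℝ,
  LocallyIntegrable u → ∀ (k : ℕ) (U V : Set (E n)) (X : E n → E n), IsOpen U → TF V X →
    (∀ x ∈ V, ∀ y, ‖y‖ ≤ 1 / (k + 1 : ℝ) → x + y ∈ U) →
    ∃ X' : E n → E n, TF U X' ∧ (∀ b : ℝ, (∀ x, ‖X x‖ ≤ b) → ∀ x, ‖X' x‖ ≤ b) ∧
      (∀ x, X' x = ∫ y, ρ k (x - y) • X y) ∧
      ∫ x, conv (ρ k) u x * dv X x = ∫ x, u x * dv X' x

/-- Integration by parts for `C¹` functions. -/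
def Stmt_IBP : Prop := ∀ (n : ℕ) (U : Set (E n)) (u : E n → ℝ) (X : E n → E n), IsOpen U →
  ContDiffOn ℝ 1 u U → TF U X → ∫ x in U, u x * dv X x = - ∫ x in U, fderiv ℝ u x (X x)

/-- The gradient of the mollified indicator is the mollified perimeter measure. -/
def Stmt_ConvGrad : Prop := ∀ (n : ℕ) (ρ : ℕ → E n → ℝ), Kern n ρ → ∀ (U A : Set (E n))
  (μ : Measure (E n)) (ν : E n → E n), IsOpen U → MeasurableSet A → PRep U A μ ν →
    ∀ (k : ℕ) (x : E n), Metric.closedBall x (1 / (k + 1 : ℝ)) ⊆ U → ∀ v : E n,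
      fderiv ℝ (conv (ρ k) (A.indicator 1)) x v = - ∫ y, ρ k (x - y) * ⟪v, ν y⟫ ∂μ

/-! ## Poincaré inequality, relative isoperimetric inequality -/

/-- `u` has total variation at most `M` in `V`. -/
def TVle {n : ℕ} (V : Set (E n)) (u : E n → ℝ) (M : ℝ) : Prop :=
  ∀ X, TF V X → (∀ x, ‖X x‖ ≤ 1) → ∫ x in V, u x * dv X x ≤ M

/-- Poincaré inequality on convex open sets (for example with `C = 2 ^ n`). -/
def Stmt_Poincare : Prop := ∀ n : ℕ, ∃ C : ℝ, 0 < C ∧ ∀ (V : Set (E n)) (u : E n → ℝ) (M : ℝ),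
  IsOpen V → Convex ℝ V → Bornology.IsBounded V → IntegrableOn u V → TVle V u M →
    ∫ x in V, ∫ y in V, |u x - u y| ≤ C * Metric.diam V * (volume V).toReal * M

/-- Poincaré inequality for sets. -/
def Stmt_PoincareSet : Prop := ∀ n : ℕ, ∃ C : ℝ≥0, 0 < C ∧ ∀ (V A : Set (E n)),
  IsOpen V → Convex ℝ V → Bornology.IsBounded V → MeasurableSet A →
    volume (A ∩ V) * volume (V \ A) ≤ C * ENNReal.ofReal (Metric.diam V) * volume V * Per V A

def Stmt_BallLower : Prop := ∀ (n : ℕ) (U : Set (E n)), 1 ≤ n → IsOpen U → Convex ℝ U →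
  Bornology.IsBounded U → U.Nonempty → ∃ c : ℝ, 0 < c ∧ ∀ x ∈ U, ∀ r : ℝ, 0 < r →
    r ≤ Metric.diam U → ENNReal.ofReal (c * r ^ n) ≤ volume (U ∩ Metric.ball x r)

/-- Relative isoperimetric inequality in a convex body. -/
def Stmt_RelIso : Prop := ∀ (n : ℕ) (U : Set (E n)), 2 ≤ n → IsOpen U → Convex ℝ U →
  Bornology.IsBounded U → U.Nonempty → ∃ c : ℝ, 0 < c ∧ ∀ A : Set (E n), MeasurableSet A →
    ENNReal.ofReal c * (min (volume (A ∩ U)) (volume (U \ A))) ^ (((n : ℝ) - 1) / n) ≤ Per U A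

/-- Perimeter and scaling. -/
def Stmt_PerScale : Prop := ∀ (n : ℕ) (U A : Set (E n)) (x : E n) (r : ℝ), 1 ≤ n → 0 < r →
  MeasurableSet A →
  Per ((fun y => x + r • y) '' U) ((fun y => x + r • y) '' A) =
    ENNReal.ofReal (r ^ (n - 1)) * Per U A

/-- Relative isoperimetric inequality in balls, with a constant depending only on the dimension. -/
def Stmt_RelIsoBall : Prop := ∀ n : ℕ, 2 ≤ n → ∃ c : ℝ, 0 < c ∧ ∀ (x : E n) (r : ℝ), 0 < r →
  ∀ A : Set (E n), MeasurableSet A →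
    ENNReal.ofReal c * (min (volume (A ∩ Metric.ball x r)) (volume (Metric.ball x r \ A))) ^
      (((n : ℝ) - 1) / n) ≤ Per (Metric.ball x r) A

/-! ## Elementary properties of the perimeter -/

def Stmt_PerMono : Prop := ∀ (n : ℕ) (U V A : Set (E n)), V ⊆ U → Per V A ≤ Per U A

/-- The perimeter only depends on the set up to null sets inside `U`. -/
def Stmt_PerCongr : Prop := ∀ (n : ℕ) (U A B : Set (E n)), IsOpen U →
  volume ((symmDiff A B) ∩ U) = 0 → Per U A = Per U B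

def Stmt_PerCompl : Prop := ∀ (n : ℕ) (U A : Set (E n)), IsOpen U → MeasurableSet A →
  Per U (U \ A) = Per U A

def Stmt_LSC : Prop := ∀ (n : ℕ) (U A : Set (E n)) (B : ℕ → Set (E n)), IsOpen U →
  MeasurableSet A → (∀ j, MeasurableSet (B j)) →
  Tendsto (fun j => volume (symmDiff (B j) A ∩ U)) atTop (𝓝 0) →
    Per U A ≤ liminf (fun j => Per U (B j)) atTop

def Stmt_Submod : Prop := ∀ (n : ℕ) (U A B : Set (E n)), IsOpen U → MeasurableSet A →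
  MeasurableSet B → Per U (A ∪ B) + Per U (A ∩ B) ≤ Per U A + Per U B

/-- Additivity for sets whose closures are disjoint in `U`. -/
def Stmt_PerAdd : Prop := ∀ (n : ℕ) (U A B : Set (E n)), IsOpen U → MeasurableSet A →
  MeasurableSet B → closure (A ∩ U) ∩ closure (B ∩ U) ∩ U = ∅ →
    Per U (A ∪ B) = Per U A + Per U B

def Stmt_Compact : Prop := ∀ (n : ℕ) (U : Set (E n)) (A : ℕ → Set (E n)) (M : ℝ≥0), IsOpen U →
  Bornology.IsBounded U → (∀ j, MeasurableSet (A j)) → (∀ j, Per U (A j) ≤ M) →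
    ∃ (φ : ℕ → ℕ) (B : Set (E n)), StrictMono φ ∧ MeasurableSet B ∧ B ⊆ U ∧
      Tendsto (fun j => volume (symmDiff (A (φ j)) B ∩ U)) atTop (𝓝 0)

/-! ## Minimisers -/

/-- `A` minimises `Per U + f ∘ vol` among all measurable subsets of `U`. -/
structure IsMinG {n : ℕ} (U : Set (E n)) (f : ℝ → ℝ) (A : Set (E n)) : Prop where
  meas : MeasurableSet A
  sub : A ⊆ U
  fin : Per U A ≠ ∞
  le : ∀ B, MeasurableSet B → B ⊆ U → Per U B ≠ ∞ →
    (Per U A).toReal + f (volume A).toReal ≤ (Per U B).toReal + f (volume B).toReal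

def Stmt_Exist : Prop := ∀ (n : ℕ) (U : Set (E n)) (f : ℝ → ℝ), IsOpen U →
  Bornology.IsBounded U → Continuous f → ∃ A, IsMinG U f A

/-- Almost minimisers of the perimeter. -/
structure IsLMin {n : ℕ} (U : Set (E n)) (L : ℝ≥0) (A : Set (E n)) : Prop where
  meas : MeasurableSet A
  sub : A ⊆ U
  fin : Per U A ≠ ∞
  le : ∀ B, MeasurableSet B → B ⊆ U → Per U A ≤ Per U B + L * volume (symmDiff A B)

def Stmt_LMin : Prop := ∀ (n : ℕ) (U A : Set (E n)) (f : ℝ → ℝ) (L : ℝ≥0), IsOpen U →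
  Bornology.IsBounded U → LipschitzWith L f → IsMinG U f A → IsLMin U L A

/-- Complements of almost minimisers. -/
def Stmt_LMinCompl : Prop := ∀ (n : ℕ) (U A : Set (E n)) (L : ℝ≥0), IsOpen U →
  (IsLMin U L A → IsLMin U L (U \ A)) ∧ (MeasurableSet A → ∀ (μ : Measure (E n)) (ν : E n → E n),
    PRep U A μ ν → PRep U (U \ A) μ (fun x => - ν x))

/-! ### Riesz representation -/

/-- The functional `T` is linear on test fields and bounded by `M` on the unit ball. -/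
structure IsFun {n : ℕ} (U : Set (E n)) (T : (E n → E n) → ℝ) (M : ℝ) : Prop where
  add : ∀ X Y, TF U X → TF U Y → T (X + Y) = T X + T Y
  smul : ∀ (c : ℝ) X, TF U X → T (c • X) = c * T X
  bdd : ∀ X, TF U X → (∀ x, ‖X x‖ ≤ 1) → T X ≤ M

/-- The variation measure of `T`. -/
structure IsVar {n : ℕ} (U : Set (E n)) (T : (E n → E n) → ℝ) (μ : Measure (E n)) : Prop where
  fin : IsFiniteMeasure μ
  null : μ Uᶜ = 0
  open_eq : ∀ W, IsOpen W → W ⊆ U →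
    μ W = ⨆ (X : E n → E n) (_ : TF W X ∧ ∀ x, ‖X x‖ ≤ 1), ENNReal.ofReal (T X)

def Stmt_VarMeasure : Prop := ∀ (n : ℕ) (U : Set (E n)) (T : (E n → E n) → ℝ) (M : ℝ),
  IsOpen U → IsFun U T M → ∃ μ, IsVar U T μ

def Stmt_VarBound : Prop := ∀ (n : ℕ) (U : Set (E n)) (T : (E n → E n) → ℝ) (M : ℝ)
  (μ : Measure (E n)), IsOpen U → IsFun U T M → IsVar U T μ → ∀ X, TF U X →
    T X ≤ ∫ x, ‖X x‖ ∂μ

def Stmt_RieszL2 : Prop := ∀ (n : ℕ) (U : Set (E n)) (T : (E n → E n) → ℝ) (M : ℝ)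
  (μ : Measure (E n)), 1 ≤ n → IsOpen U → IsFun U T M → IsVar U T μ →
  (∀ X, TF U X → T X ≤ ∫ x, ‖X x‖ ∂μ) → ∃ ν : E n → E n, Rep U T μ ν

/-- Riesz representation (from the three statements above). -/
def Stmt_Riesz : Prop := ∀ (n : ℕ) (U : Set (E n)) (T : (E n → E n) → ℝ) (M : ℝ), 1 ≤ n →
  IsOpen U → IsFun U T M → ∃ (μ : Measure (E n)) (ν : E n → E n), Rep U T μ ν

def Stmt_PRep : Prop := ∀ (n : ℕ) (U A : Set (E n)), 1 ≤ n → IsOpen U → MeasurableSet A →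
  Per U A ≠ ∞ → ∃ (μ : Measure (E n)) (ν : E n → E n), PRep U A μ ν

/-! ### Regularity of almost minimisers -/

/-- Removing a ball. -/
def Stmt_Cut : Prop := ∀ (n : ℕ) (U A : Set (E n)) (μ : Measure (E n)) (ν : E n → E n) (x : E n)
  (r m' : ℝ), IsOpen U → MeasurableSet A → PRep U A μ ν → 0 < r →
  Metric.closedBall x r ⊆ U →
  HasDerivAt (fun s => (volume (A ∩ Metric.ball x s)).toReal) m' r →
    Per U (A \ Metric.ball x r) ≤ μ (U \ Metric.ball x r) + ENNReal.ofReal m'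

/-- The points where neither `A` nor its complement is negligible. -/
def Sg {n : ℕ} (U A : Set (E n)) : Set (E n) :=
  {x ∈ U | ∀ s : ℝ, 0 < s → 0 < volume (A ∩ Metric.ball x s) ∧ 0 < volume (Metric.ball x s \ A)}

/-- Density estimates for almost minimisers: one-sided version. -/
def Stmt_DensHalf : Prop := ∀ n : ℕ, 2 ≤ n → ∃ c C : ℝ, 0 < c ∧ 0 < C ∧ ∀ (U A : Set (E n))
  (L : ℝ≥0) (μ : Measure (E n)) (ν : E n → E n), IsOpen U → Bornology.IsBounded U →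
  IsLMin U L A → PRep U A μ ν →
    ∀ x ∈ U, (∀ s : ℝ, 0 < s → 0 < volume (A ∩ Metric.ball x s)) →
      ∃ r₀ : ℝ, 0 < r₀ ∧ Metric.closedBall x r₀ ⊆ U ∧ ∀ r : ℝ, 0 < r → r < r₀ →
      ENNReal.ofReal (c * r ^ n) ≤ volume (A ∩ Metric.ball x r) ∧
      μ (Metric.ball x r) ≤ ENNReal.ofReal (C * r ^ (n - 1))

/-- Density estimates for almost minimisers. -/
def Stmt_Dens : Prop := ∀ n : ℕ, 2 ≤ n → ∃ c C : ℝ, 0 < c ∧ 0 < C ∧ ∀ (U A : Set (E n))
  (L : ℝ≥0) (μ : Measure (E n)) (ν : E n → E n), IsOpen U → Bornology.IsBounded U →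
  IsLMin U L A → PRep U A μ ν →
    ∀ x ∈ Sg U A, ∃ r₀ : ℝ, 0 < r₀ ∧ Metric.closedBall x r₀ ⊆ U ∧ ∀ r : ℝ, 0 < r → r < r₀ →
      ENNReal.ofReal (c * r ^ n) ≤ volume (A ∩ Metric.ball x r) ∧
      ENNReal.ofReal (c * r ^ n) ≤ volume (Metric.ball x r \ A) ∧
      ENNReal.ofReal (c * r ^ (n - 1)) ≤ μ (Metric.ball x r) ∧
      μ (Metric.ball x r) ≤ ENNReal.ofReal (C * r ^ (n - 1))

/-- The regular representative. -/
def Stmt_RegRep : Prop := ∀ (n : ℕ) (U A : Set (E n)), 1 ≤ n → IsOpen U → Convex ℝ U →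
  Bornology.IsBounded U → MeasurableSet A → A ⊆ U →
  (∀ x ∈ Sg U A, ∃ c r₀ : ℝ, 0 < c ∧ 0 < r₀ ∧ ∀ r : ℝ, 0 < r → r < r₀ →
    ENNReal.ofReal (c * r ^ n) ≤ volume (A ∩ Metric.ball x r) ∧
    ENNReal.ofReal (c * r ^ n) ≤ volume (Metric.ball x r \ A)) →
  ∃ F : Set (E n), IsClosed F ∧ F ⊆ closure U ∧ closure (interior F) = F ∧
    volume (symmDiff F A) = 0 ∧ frontier F ∩ U = Sg U A ∧ Sg U A = Sg U F

/-- A set without variation orthogonally to a unit vector `e` and monotone along `e` is a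
half space. -/
def Stmt_HalfSpace : Prop := ∀ (n : ℕ) (U A : Set (E n)) (e : E n), 1 ≤ n → IsOpen U →
  Convex ℝ U → Bornology.IsBounded U → MeasurableSet A → ‖e‖ = 1 →
  (∀ v : E n, ⟪v, e⟫ = 0 → ∀ φ : E n → ℝ, ContDiff ℝ 1 φ → HasCompactSupport φ →
    tsupport φ ⊆ U → ∫ x in A, fderiv ℝ φ x v = 0) →
  (∀ φ : E n → ℝ, ContDiff ℝ 1 φ → HasCompactSupport φ → tsupport φ ⊆ U → (∀ x, 0 ≤ φ x) →
    ∫ x in A, fderiv ℝ φ x e ≤ 0) →
  volume (A ∩ U) = 0 ∨ volume (U \ A) = 0 ∨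
    ∃ c : ℝ, volume (symmDiff A {x | c < ⟪x, e⟫} ∩ U) = 0

/-- Perimeter of a half space in the unit ball. -/
def Stmt_HalfPer : Prop := ∀ (n : ℕ) (e : E n), 1 ≤ n → ‖e‖ = 1 →
  om (n - 1) ≤ Per (Metric.ball (0 : E n) 1) {x | 0 < ⟪x, e⟫}

/-- Lebesgue points of a bounded vector field with respect to a finite measure. -/
def Stmt_Lebesgue : Prop := ∀ (n : ℕ) (μ : Measure (E n)) (ν : E n → E n), IsFiniteMeasure μ →
  Measurable ν → (∀ x, ‖ν x‖ = 1) → ∀ᵐ x ∂μ, Tendsto (fun r : ℝ =>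
    (∫ y in Metric.ball x r, ‖ν y - ν x‖ ∂μ) / (μ (Metric.ball x r)).toReal) (𝓝[>] 0) (𝓝 0)

/-- The perimeter measure is concentrated on `Sg`. -/
def Stmt_SgFull : Prop := ∀ (n : ℕ) (U A : Set (E n)) (μ : Measure (E n)) (ν : E n → E n),
  IsOpen U → MeasurableSet A → PRep U A μ ν → μ (U \ Sg U A) = 0

/-- Blow-up at a Lebesgue point of the normal. -/
def Stmt_BlowSeq : Prop := ∀ (n : ℕ) (U A : Set (E n)) (L : ℝ≥0) (μ : Measure (E n))
  (ν : E n → E n) (x : E n), 2 ≤ n → IsOpen U → Bornology.IsBounded U → IsLMin U L A →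
  PRep U A μ ν → x ∈ Sg U A → Tendsto (fun r : ℝ =>
    (∫ y in Metric.ball x r, ‖ν y - ν x‖ ∂μ) / (μ (Metric.ball x r)).toReal) (𝓝[>] 0) (𝓝 0) →
    ∀ η : ℝ≥0∞, η < om (n - 1) →
      ∀ᶠ r in 𝓝[>] (0 : ℝ), η * ENNReal.ofReal (r ^ (n - 1)) ≤ μ (Metric.ball x r)

/-- Blow-up: at almost every point the perimeter measure has lower density at least one. -/
def Stmt_Blowup : Prop := ∀ (n : ℕ) (U A : Set (E n)) (L : ℝ≥0) (μ : Measure (E n))
  (ν : E n → E n), 2 ≤ n → IsOpen U → Bornology.IsBounded U → IsLMin U L A → PRep U A μ ν →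
    ∀ᵐ x ∂μ, x ∈ Sg U A ∧ ∀ η : ℝ≥0∞, η < om (n - 1) →
      ∀ᶠ r in 𝓝[>] (0 : ℝ), η * ENNReal.ofReal (r ^ (n - 1)) ≤ μ (Metric.ball x r)

/-- Covering argument: upper bound for the Hausdorff measure. -/
def Stmt_Haus : Prop := ∀ (n : ℕ) (μ : Measure (E n)) (S : Set (E n)) (c : ℝ), 1 ≤ n →
  IsFiniteMeasure μ → MeasurableSet S → 0 < c →
  (∀ x ∈ S, ∃ r₀ : ℝ, 0 < r₀ ∧ ∀ r : ℝ, 0 < r → r < r₀ →
    ENNReal.ofReal (c * r ^ (n - 1)) ≤ μ (Metric.ball x r)) →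
  (∀ᵐ x ∂(μ.restrict S), ∀ η : ℝ≥0∞, η < om (n - 1) →
      ∀ᶠ r in 𝓝[>] (0 : ℝ), η * ENNReal.ofReal (r ^ (n - 1)) ≤ μ (Metric.ball x r)) →
  c0 (n - 1) * (Measure.hausdorffMeasure ((n : ℝ) - 1) : Measure (E n)) S ≤ μ S

/-! ## Isodiametric inequality and the inequality `Per ≤ c₀ H` -/

/-- Prékopa–Leindler inequality (for the weight `1/2`) on `ℝ`. -/
def Stmt_PL1 : Prop := ∀ f g h : ℝ → ℝ≥0∞, Measurable f → Measurable g → Measurable h →
  (∀ x y, f x * g y ≤ (h ((x + y) / 2)) ^ 2) → (∫⁻ x, f x) * (∫⁻ x, g x) ≤ (∫⁻ x, h x) ^ 2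

/-- Prékopa–Leindler inequality (for the weight `1/2`) in Euclidean space. -/
def Stmt_PL : Prop := ∀ (d : ℕ) (f g h : E d → ℝ≥0∞), Measurable f → Measurable g →
  Measurable h → (∀ x y, f x * g y ≤ (h ((1 / 2 : ℝ) • (x + y))) ^ 2) →
    (∫⁻ x, f x) * (∫⁻ x, g x) ≤ (∫⁻ x, h x) ^ 2

def Stmt_Isodiam : Prop := ∀ (d : ℕ) (A : Set (E d)),
  volume A ≤ om d * (Metric.ediam A / 2) ^ d

/-- A one dimensional estimate. -/
def Stmt_LineLemma : Prop := ∀ (F : Set ℝ) (φ : ℝ → ℝ) (N : ℕ) (a b s : Fin N → ℝ) (M : ℝ),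
  MeasurableSet F → ContDiff ℝ 1 φ → HasCompactSupport φ → (∀ t, |deriv φ t| ≤ M) →
  (frontier F ∩ tsupport φ ⊆ ⋃ i, Icc (a i) (b i)) → (∀ i, ∀ t ∈ Icc (a i) (b i), |φ t| ≤ s i) →
  (∀ i, a i ≤ b i) →
  |∫ t in F, deriv φ t| ≤ ∑ i, s i + 2 * M * ∑ i, (b i - a i)

/-- Efficient finite covers of compact sets of finite Hausdorff measure by compact convex sets. -/
def Stmt_Cover : Prop := ∀ (n : ℕ) (S W : Set (E n)) (δ η : ℝ≥0∞), 2 ≤ n → IsCompact S →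
  IsOpen W → S ⊆ W → 0 < δ → 0 < η →
  (Measure.hausdorffMeasure ((n : ℝ) - 1) : Measure (E n)) S ≠ ∞ →
    ∃ (N : ℕ) (C : Fin N → Set (E n)), (∀ i, IsCompact (C i)) ∧ (∀ i, Convex ℝ (C i)) ∧
      (∀ i, (C i).Nonempty) ∧ (∀ i, C i ⊆ W) ∧ (S ⊆ ⋃ i, interior (C i)) ∧
      (∀ i, Metric.ediam (C i) ≤ δ) ∧ ∑ i, Metric.ediam (C i) ^ (n - 1) ≤
        (Measure.hausdorffMeasure ((n : ℝ) - 1) : Measure (E n)) S + η

/-- The estimate behind `Per ≤ c₀ H` for a finite cover of the frontier by convex sets. -/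
def Stmt_E2cover : Prop := ∀ (n : ℕ) (F : Set (E n)) (φ : E n → ℝ) (e : E n) (N : ℕ)
  (C : Fin N → Set (E n)) (s : Fin N → ℝ) (M : ℝ), 2 ≤ n → MeasurableSet F → ContDiff ℝ 1 φ →
  HasCompactSupport φ → ‖e‖ = 1 → (∀ x, |fderiv ℝ φ x e| ≤ M) → (∀ i, IsCompact (C i)) →
  (∀ i, Convex ℝ (C i)) → (∀ i, (C i).Nonempty) → (frontier F ∩ tsupport φ ⊆ ⋃ i, C i) →
  (∀ i, ∀ x ∈ C i, |φ x| ≤ s i) →
  |∫ x in F, fderiv ℝ φ x e| ≤
    (∑ i, s i * ((c0 (n - 1)).toReal * Metric.diam (C i) ^ (n - 1))) +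
      2 * M * ∑ i, (volume (C i)).toReal

def Stmt_E2scalar : Prop := ∀ (n : ℕ) (U F : Set (E n)) (φ : E n → ℝ) (e : E n), 2 ≤ n →
  IsOpen U → MeasurableSet F → ContDiff ℝ 1 φ → HasCompactSupport φ → tsupport φ ⊆ U →
  ‖e‖ = 1 →
  (Measure.hausdorffMeasure ((n : ℝ) - 1) : Measure (E n)) (frontier F ∩ U) ≠ ∞ →
  ENNReal.ofReal |∫ x in F, fderiv ℝ φ x e| ≤
    c0 (n - 1) * ∫⁻ x in frontier F ∩ U, ENNReal.ofReal |φ x|
      ∂(Measure.hausdorffMeasure ((n : ℝ) - 1) : Measure (E n))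

def Stmt_E2 : Prop := ∀ (n : ℕ) (U F : Set (E n)), 2 ≤ n → IsOpen U → MeasurableSet F →
  Per U F ≤ c0 (n - 1) *
    (Measure.hausdorffMeasure ((n : ℝ) - 1) : Measure (E n)) (frontier F ∩ U)

/-! ## Final result of part G -/

def Stmt_A : Prop := ∀ (n : ℕ) (K : Set (E n)) (f : ℝ → ℝ) (L : ℝ≥0), 2 ≤ n → Convex ℝ K →
  IsCompact K → (interior K).Nonempty → LipschitzWith L f →
    ∃ F : Set (E n), IsClosed F ∧ F ⊆ K ∧ closure (interior F) = F ∧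
      IsMinG (interior K) f (F ∩ interior K) ∧
      c0 (n - 1) * (Measure.hausdorffMeasure ((n : ℝ) - 1) : Measure (E n))
        (frontier F ∩ interior K) ≤ Per (interior K) F

/-! ## Perimeter under diffeomorphisms (used in part T) -/

/-- Upper bound for the perimeter of the image of a set under a `C¹` diffeomorphism of `U`. -/
def Stmt_Diffeo : Prop := ∀ (n : ℕ) (U A : Set (E n)) (μ : Measure (E n)) (ν : E n → E n)
  (Φ Ψ : E n → E n), 1 ≤ n → IsOpen U → MeasurableSet A → A ⊆ U → PRep U A μ ν →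
  ContDiffOn ℝ 1 Φ U → ContDiffOn ℝ 1 Ψ U → MapsTo Φ U U → MapsTo Ψ U U →
  (∀ x ∈ U, Ψ (Φ x) = x) → (∀ x ∈ U, Φ (Ψ x) = x) →
  Per U (Φ '' A) ≤ ∫⁻ x, ENNReal.ofReal
    (|(fderiv ℝ Φ x).det| * ‖(fderiv ℝ Ψ (Φ x)).adjoint (ν x)‖) ∂μ

end Pool.Agent.Lib.MP_c95dcf_gt
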