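import Pool.Agent.Lib.MP_c95dcf_gt.Mg.G001

/-!
# MP_c95dcf_gt, B06: countable families of test functions
-/

set_option autoImplicit false

open MeasureTheory Set Filter Topology
open scoped ENNReal NNReal

namespace Pool.Agent.Lib.MP_c95dcf_gt

/-- Separability of `L¹`: a countable subfamily of a family of integrable functions has the same
suprema of set integrals. -/
theorem sep_iSup {X : Type*} [MeasurableSpace X] (μ : Measure X) [IsSeparable μ]
    (S : Set (X → ℝ)) (hne : S.Nonempty) (hint : ∀ f ∈ S, Integrable f μ) :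
    ∃ f : ℕ → X → ℝ, (∀ k, f k ∈ S) ∧ ∀ A : Set X, ∀ g ∈ S,
      ENNReal.ofReal (∫ x in A, g x ∂μ) ≤ ⨆ k, ENNReal.ofReal (∫ x in A, f k x ∂μ) := by
  have : Fact ((1 : ℝ≥0∞) ≤ 1) := ⟨le_rfl⟩
  have : Fact ((1 : ℝ≥0∞) ≠ ∞) := ⟨ENNReal.one_ne_top⟩
  let Φ : S → Lp ℝ 1 μ := fun f => (hint f.1 f.2).toL1 f.1
  let tS : TopologicalSpace S := TopologicalSpace.induced Φ inferInstance
  have : SecondCountableTopology S := TopologicalSpace.secondCountableTopology_induced S _ Φ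
  have : Nonempty S := hne.to_subtype
  have hdense := TopologicalSpace.denseRange_denseSeq S
  refine ⟨fun k => (TopologicalSpace.denseSeq S k).1, fun k => (TopologicalSpace.denseSeq S k).2,
    ?_⟩
  intro A g hg
  refine ENNReal.le_of_forall_pos_le_add ?_
  intro ε hε _
  have hΦc : Continuous Φ := continuous_induced_dom
  have hopen : IsOpen (Φ ⁻¹' Metric.ball (Φ ⟨g, hg⟩) ε) := Metric.isOpen_ball.preimage hΦc
  have hmem : (Φ ⁻¹' Metric.ball (Φ ⟨g, hg⟩) ε).Nonempty :=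
    ⟨⟨g, hg⟩, by
      simp only [mem_preimage]
      exact Metric.mem_ball_self (by exact_mod_cast hε)⟩
  obtain ⟨k, hk⟩ := hdense.exists_mem_open hopen hmem
  set f := TopologicalSpace.denseSeq S k with hf
  have hd : dist (Φ f) (Φ ⟨g, hg⟩) < ε := hk
  have hfi : Integrable f.1 μ := hint f.1 f.2
  have hgi : Integrable g μ := hint g hg
  have hd2 : ∫ x, |f.1 x - g x| ∂μ < ε := by
    rw [L1.dist_eq_integral_dist] at hd
    refine lt_of_le_of_lt (le_of_eq ?_) hd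
    refine integral_congr_ae ?_
    filter_upwards [hfi.coeFn_toL1, hgi.coeFn_toL1] with x h1 h2
    change |f.1 x - g x| = dist ((hfi.toL1 f.1 : X → ℝ) x) ((hgi.toL1 g : X → ℝ) x)
    rw [h1, h2, Real.dist_eq]
  have hle : ∫ x in A, g x ∂μ ≤ ∫ x in A, f.1 x ∂μ + ε := by
    have h3 : ∫ x in A, g x ∂μ - ∫ x in A, f.1 x ∂μ = ∫ x in A, (g x - f.1 x) ∂μ :=
      (integral_sub hgi.integrableOn hfi.integrableOn).symm
    have h4 : ∫ x in A, (g x - f.1 x) ∂μ ≤ ∫ x in A, |f.1 x - g x| ∂μ := by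
      refine integral_mono (hgi.integrableOn.sub hfi.integrableOn)
        (hfi.sub hgi).abs.integrableOn ?_
      intro x
      simp only
      rw [abs_sub_comm]
      exact le_abs_self _
    have h5 : ∫ x in A, |f.1 x - g x| ∂μ ≤ ∫ x, |f.1 x - g x| ∂μ :=
      setIntegral_le_integral (hfi.sub hgi).abs (Eventually.of_forall fun x => abs_nonneg _)
    linarith
  calc ENNReal.ofReal (∫ x in A, g x ∂μ)
      ≤ ENNReal.ofReal (∫ x in A, f.1 x ∂μ + ε) := ENNReal.ofReal_le_ofReal hle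
    _ ≤ ENNReal.ofReal (∫ x in A, f.1 x ∂μ) + ENNReal.ofReal ε := ENNReal.ofReal_add_le
    _ ≤ (⨆ k, ENNReal.ofReal (∫ x in A, (TopologicalSpace.denseSeq S k).1 x ∂μ)) + ε := by
        gcongr
        · exact le_iSup (fun k => ENNReal.ofReal
            (∫ x in A, (TopologicalSpace.denseSeq S k).1 x ∂μ)) k
        · rw [ENNReal.ofReal_coe_nnreal]

/-! ## One dimensional case -/

theorem sep_wp_eventually {m : ℕ} (hm : 2 ≤ m) {x : ℝ} (hx : x < m) :
    wp m =ᶠ[𝓝 x] fun r => 1 - r / m := by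
  have hm0 : (0 : ℝ) < m := by
    have : 0 < m := by omega
    exact_mod_cast this
  filter_upwards [Iio_mem_nhds hx] with r hr
  have hr' : r < m := hr
  unfold wp
  refine max_eq_right ?_
  have : r / m ≤ 1 := by
    rw [div_le_one hm0]
    exact hr'.le
  linarith

theorem sep_hp_contDiffAt {m : ℕ} (hm : 2 ≤ m) {x : ℝ} (hx : x < m) :
    ContDiffAt ℝ 1 (hp m) x := by
  have h1 : hp m =ᶠ[𝓝 x] fun r => r * (1 - r / m) ^ m := by
    filter_upwards [sep_wp_eventually hm hx] with r hr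
    simp only [hp, Wp, hr]
  refine ContDiffAt.congr_of_eventuallyEq ?_ h1
  fun_prop

theorem sep_ahp_contDiff {m : ℕ} (hm : 2 ≤ m) {a : ℝ → ℝ} (ha : ContDiff ℝ 1 a)
    (hs : tsupport a ⊆ Ioo 0 (m : ℝ)) : ContDiff ℝ 1 (fun s => a s * hp m s) := by
  rw [contDiff_iff_contDiffAt]
  intro x
  by_cases hx : x ∈ tsupport a
  · exact ha.contDiffAt.mul (sep_hp_contDiffAt hm (hs hx).2)
  · have h0 : a =ᶠ[𝓝 x] 0 := notMem_tsupport_iff_eventuallyEq.mp hx
    have h1 : (fun s => a s * hp m s) =ᶠ[𝓝 x] fun _ => 0 := by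
      filter_upwards [h0] with r hr
      simp [hr]
    exact ContDiffAt.congr_of_eventuallyEq contDiffAt_const h1

theorem sep_ahp_comp {m : ℕ} {a : ℝ → ℝ} (ha : HasCompactSupport a) :
    HasCompactSupport (fun s => a s * hp m s) := by
  refine ha.mono ?_
  intro x hx hx0
  exact hx (by simp [hx0])

theorem sep_deriv_integrable {f : ℝ → ℝ} (hf : ContDiff ℝ 1 f) (hc : HasCompactSupport f) :
    Integrable (fun r => - deriv f r) :=
  ((hf.continuous_deriv le_rfl).integrable_of_hasCompactSupport hc.deriv).neg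

theorem p1sep : Stmt_P1sep := by
  intro m hm
  set S : Set (ℝ → ℝ) := {f | ∃ a : ℝ → ℝ, (ContDiff ℝ 1 a ∧ HasCompactSupport a ∧
    tsupport a ⊆ Ioo 0 (m : ℝ) ∧ ∀ r, |a r| ≤ 1) ∧
      f = fun r => - deriv (fun s => a s * hp m s) r} with hS
  have hne : S.Nonempty := by
    refine ⟨_, 0, ⟨contDiff_const, HasCompactSupport.zero, by simp [tsupport], by simp⟩, rfl⟩
  have hint : ∀ f ∈ S, Integrable f volume := by
    rintro f ⟨a, ha, rfl⟩
    exact sep_deriv_integrable (sep_ahp_contDiff hm ha.1 ha.2.2.1) (sep_ahp_comp ha.2.1)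
  obtain ⟨f, hfS, hf⟩ := sep_iSup volume S hne hint
  choose a ha hfa using hfS
  refine ⟨a, ha, ?_⟩
  intro A _
  refine iSup₂_le fun b hb => ?_
  have h1 := hf A (fun r => - deriv (fun s => b s * hp m s) r) ⟨b, hb, rfl⟩
  refine h1.trans (le_of_eq ?_)
  refine iSup_congr fun k => ?_
  rw [hfa k]

/-! ## The plane -/

theorem sep_Wp_pos {m : ℕ} (hm : 2 ≤ m) {c : ℂ} (hc : c ∈ Dp m) : 0 < Wp m ‖c‖ := by
  have hm0 : (0 : ℝ) < m := by
    have : 0 < m := by omega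
    exact_mod_cast this
  have h1 : ‖c‖ < m := by simpa using hc.1
  unfold Wp wp
  have h2 : ‖c‖ / m < 1 := by
    rw [div_lt_one hm0]
    exact h1
  have h3 : 0 < max 0 (1 - ‖c‖ / m) := lt_max_of_lt_right (by linarith)
  positivity

theorem sep_Wp_contDiffAt {m : ℕ} (hm : 2 ≤ m) {c : ℂ} (hc : c ∈ Dp m) :
    ContDiffAt ℝ 1 (fun z : ℂ => Wp m ‖z‖) c := by
  have h1 : ‖c‖ < m := by simpa using hc.1
  have h0 : c ≠ 0 := hc.2
  have h2 : (fun z : ℂ => Wp m ‖z‖) =ᶠ[𝓝 c] fun z => (1 - ‖z‖ / m) ^ m := by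
    have h3 := (continuous_norm.continuousAt (x := c)).eventually (sep_wp_eventually hm h1)
    filter_upwards [h3] with z hz
    simp only [Wp, hz]
  refine ContDiffAt.congr_of_eventuallyEq ?_ h2
  have h4 : ContDiffAt ℝ 1 (fun z : ℂ => ‖z‖) c := contDiffAt_norm ℝ h0
  exact (contDiffAt_const.sub (h4.div_const _)).pow m

theorem sep_WY_TFc {m : ℕ} (hm : 2 ≤ m) {Y : ℂ → ℂ} (hY : TFc (Dp m) Y) :
    TFc (Dp m) (fun c => (Wp m ‖c‖ : ℂ) * Y c) := by
  have hsub : tsupport (fun c => (Wp m ‖c‖ : ℂ) * Y c) ⊆ tsupport Y := by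
    refine closure_mono ?_
    intro x hx hx0
    exact hx (by simp [hx0])
  refine ⟨?_, ?_, hsub.trans hY.supp⟩
  · rw [contDiff_iff_contDiffAt]
    intro x
    by_cases hx : x ∈ tsupport Y
    · have h1 : ContDiffAt ℝ 1 (fun z : ℂ => ((Wp m ‖z‖ : ℝ) : ℂ)) x :=
        (Complex.ofRealCLM.contDiff.contDiffAt).comp x (sep_Wp_contDiffAt hm (hY.supp hx))
      exact h1.mul hY.diff.contDiffAt
    · have h0 : Y =ᶠ[𝓝 x] 0 := notMem_tsupport_iff_eventuallyEq.mp hx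
      have h1 : (fun c => (Wp m ‖c‖ : ℂ) * Y c) =ᶠ[𝓝 x] fun _ => 0 := by
        filter_upwards [h0] with r hr
        simp [hr]
      exact ContDiffAt.congr_of_eventuallyEq contDiffAt_const h1
  · refine hY.comp.mono ?_
    intro x hx hx0
    exact hx (by simp [hx0])

theorem sep_dvc_integrable {D : Set ℂ} {Y : ℂ → ℂ} (hY : TFc D Y) :
    Integrable (fun c => dvc Y c) := by
  have h1 : Continuous (fderiv ℝ Y) := hY.diff.continuous_fderiv one_ne_zero
  refine Continuous.integrable_of_hasCompactSupport ?_ ?_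
  · unfold dvc
    fun_prop
  · have h2 : HasCompactSupport (fderiv ℝ Y) := hY.comp.fderiv ℝ
    refine h2.mono ?_
    intro x hx hx0
    exact hx (by simp [dvc, hx0])

theorem sep_exists_Y {m : ℕ} (hm : 2 ≤ m) {Z : ℂ → ℂ} (hZ : TFc (Dp m) Z)
    (hb : ∀ c, ‖Z c‖ ≤ Wp m ‖c‖) :
    ∃ Y : ℂ → ℂ, TFc (Dp m) Y ∧ (∀ c, ‖Y c‖ ≤ 1) ∧ Z = fun c => (Wp m ‖c‖ : ℂ) * Y c := by
  have hsub : tsupport (fun c => ((Wp m ‖c‖ : ℝ) : ℂ)⁻¹ * Z c) ⊆ tsupport Z := by
    refine closure_mono ?_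
    intro x hx hx0
    exact hx (by simp [hx0])
  refine ⟨fun c => ((Wp m ‖c‖ : ℝ) : ℂ)⁻¹ * Z c, ⟨?_, ?_, hsub.trans hZ.supp⟩, ?_, ?_⟩
  · rw [contDiff_iff_contDiffAt]
    intro x
    by_cases hx : x ∈ tsupport Z
    · have h1 : ContDiffAt ℝ 1 (fun z : ℂ => ((Wp m ‖z‖ : ℝ) : ℂ)) x :=
        (Complex.ofRealCLM.contDiff.contDiffAt).comp x (sep_Wp_contDiffAt hm (hZ.supp hx))
      have h2 : ((Wp m ‖x‖ : ℝ) : ℂ) ≠ 0 := by
        exact_mod_cast (sep_Wp_pos hm (hZ.supp hx)).ne'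
      exact (h1.inv h2).mul hZ.diff.contDiffAt
    · have h0 : Z =ᶠ[𝓝 x] 0 := notMem_tsupport_iff_eventuallyEq.mp hx
      have h1 : (fun c => ((Wp m ‖c‖ : ℝ) : ℂ)⁻¹ * Z c) =ᶠ[𝓝 x] fun _ => 0 := by
        filter_upwards [h0] with r hr
        simp [hr]
      exact ContDiffAt.congr_of_eventuallyEq contDiffAt_const h1
  · refine hZ.comp.mono ?_
    intro x hx hx0
    exact hx (by simp [hx0])
  · intro c
    by_cases hc : c ∈ Dp m
    · have hpos := sep_Wp_pos hm hc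
      rw [norm_mul, norm_inv, Complex.norm_real, Real.norm_of_nonneg hpos.le, inv_mul_le_iff₀ hpos,
        mul_one]
      exact hb c
    · have h0 : Z c = 0 := by
        by_contra hne
        exact hc (hZ.supp (subset_tsupport _ hne))
      simp [h0]
  · funext c
    by_cases hc : c ∈ Dp m
    · have h2 : ((Wp m ‖c‖ : ℝ) : ℂ) ≠ 0 := by
        exact_mod_cast (sep_Wp_pos hm hc).ne'
      field_simp
    · have h0 : Z c = 0 := by
        by_contra hne
        exact hc (hZ.supp (subset_tsupport _ hne))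
      simp [h0]

theorem p0sep : Stmt_P0sep := by
  intro m hm
  set S : Set (ℂ → ℝ) := {f | ∃ Y : ℂ → ℂ, (TFc (Dp m) Y ∧ ∀ c, ‖Y c‖ ≤ 1) ∧
      f = fun c => dvc (fun c => (Wp m ‖c‖ : ℂ) * Y c) c} with hS
  have hne : S.Nonempty := by
    refine ⟨_, 0, ⟨⟨contDiff_const, HasCompactSupport.zero, by simp [tsupport]⟩, by simp⟩, rfl⟩
  have hint : ∀ f ∈ S, Integrable f volume := by
    rintro f ⟨Y, hY, rfl⟩
    exact sep_dvc_integrable (sep_WY_TFc hm hY.1)
  obtain ⟨f, hfS, hf⟩ := sep_iSup volume S hne hint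
  choose Y hY hfY using hfS
  refine ⟨Y, hY, ?_⟩
  intro A _
  refine iSup₂_le fun Z hZ => ?_
  obtain ⟨Z', hZ', hZ1, hZeq⟩ := sep_exists_Y hm hZ.1 hZ.2
  have h1 := hf A (fun c => dvc (fun c => (Wp m ‖c‖ : ℂ) * Z' c) c) ⟨Z', ⟨hZ', hZ1⟩, rfl⟩
  rw [← hZeq] at h1
  refine h1.trans (le_of_eq ?_)
  refine iSup_congr fun k => ?_
  rw [hfY k]

end Pool.Agent.Lib.MP_c95dcf_gt
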