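import Pool.Agent.Lib.MP_c95dcf_gt.Mg.G002
import Pool.Agent.Lib.MP_c95dcf_gt.Mg.G001
import Pool.Agent.Lib.MP_c95dcf_gt.Mg.G011
import Pool.Agent.Lib.MP_c95dcf_gt.Mg.G022

/-!
# MP_c95dcf_gt, task T03: lifts of plane sets
-/

set_option autoImplicit false

open MeasureTheory Set Filter Topology
open scoped ENNReal NNReal RealInnerProductSpace

namespace Pool.Agent.Lib.MP_c95dcf_gt

variable {m : ℕ}

/-! ### Linear maps -/

/-- the continuous linear version of `px` -/
noncomputable def liftPX (m : ℕ) : E (2 + m) →L[ℝ] ℂ :=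
  (ContinuousLinearMap.fst ℝ ℂ (E m)).comp (splitL m : E (2 + m) →L[ℝ] ℂ × E m)

/-- the continuous linear version of `pz` -/
noncomputable def liftPZ (m : ℕ) : E (2 + m) →L[ℝ] E m :=
  (ContinuousLinearMap.snd ℝ ℂ (E m)).comp (splitL m : E (2 + m) →L[ℝ] ℂ × E m)

/-- the embedding of the base -/
noncomputable def liftJC (m : ℕ) : ℂ →L[ℝ] E (2 + m) :=
  ((splitL m).symm : ℂ × E m →L[ℝ] E (2 + m)).comp (ContinuousLinearMap.inl ℝ ℂ (E m))

/-- the embedding of the fibre -/
noncomputable def liftJZ (m : ℕ) : E m →L[ℝ] E (2 + m) :=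
  ((splitL m).symm : ℂ × E m →L[ℝ] E (2 + m)).comp (ContinuousLinearMap.inr ℝ ℂ (E m))

theorem liftPX_apply (p : E (2 + m)) : liftPX m p = px p := rfl
theorem liftPZ_apply (p : E (2 + m)) : liftPZ m p = pz p := rfl
theorem liftJC_apply (c : ℂ) : liftJC m c = jn c 0 := rfl
theorem liftJZ_apply (z : E m) : liftJZ m z = jn 0 z := rfl

theorem lift_hasFDerivAt_c (c : ℂ) (z : E m) :
    HasFDerivAt (fun c' : ℂ => (jn c' z : E (2 + m))) (liftJC m) c :=
  (splitL m).symm.hasFDerivAt.comp c (hasFDerivAt_prodMk_left c z)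

theorem lift_hasFDerivAt_z (c : ℂ) (z : E m) :
    HasFDerivAt (fun z' : E m => (jn c z' : E (2 + m))) (liftJZ m) z :=
  (splitL m).symm.hasFDerivAt.comp z (hasFDerivAt_prodMk_right c z)

theorem lift_ext {p q : E (2 + m)} (h1 : px p = px q) (h2 : pz p = pz q) : p = q := by
  rw [← jn_px_pz p, ← jn_px_pz q, h1, h2]

theorem lift_single_zero : (EuclideanSpace.single (Fin.castAdd m 0) (1 : ℝ) : E (2 + m)) =
    jn 1 0 := by
  apply lift_ext
  · rw [px_jn]
    apply Complex.ext <;> simp [px]
  · rw [pz_jn]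
    ext i; simp [pz, Fin.ext_iff]

theorem lift_single_one : (EuclideanSpace.single (Fin.castAdd m 1) (1 : ℝ) : E (2 + m)) =
    jn Complex.I 0 := by
  apply lift_ext
  · rw [px_jn]
    apply Complex.ext <;> simp [px]
  · rw [pz_jn]
    ext i; simp [pz, Fin.ext_iff]; omega

theorem lift_single_z (i : Fin m) :
    (EuclideanSpace.single (Fin.natAdd 2 i) (1 : ℝ) : E (2 + m)) =
    jn 0 (EuclideanSpace.single i (1 : ℝ)) := by
  apply lift_ext
  · rw [px_jn]
    apply Complex.ext
    · simp [px, Fin.ext_iff]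
    · simp [px, Fin.ext_iff]; omega
  · rw [pz_jn]
    ext j; simp [pz]

/-- The scaled divergence in coordinates. -/
theorem lift_dve_split {ε : ℝ} {X : E (2 + m) → E (2 + m)} (hX : ContDiff ℝ 1 X) (c : ℂ) (z : E m) :
    dve ε X (jn c z) = dvc (fun c' => px (X (jn c' z))) c +
      ε⁻¹ * dv (fun z' => pz (X (jn c z'))) z := by
  have hXd : HasFDerivAt X (fderiv ℝ X (jn c z)) (jn c z) :=
    (hX.differentiable one_ne_zero _).hasFDerivAt
  have h1 : HasFDerivAt (fun c' => px (X (jn c' z)))
      ((liftPX m).comp ((fderiv ℝ X (jn c z)).comp (liftJC m))) c :=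
    (liftPX m).hasFDerivAt.comp c (hXd.comp c (lift_hasFDerivAt_c c z))
  have h2 : HasFDerivAt (fun z' => pz (X (jn c z')))
      ((liftPZ m).comp ((fderiv ℝ X (jn c z)).comp (liftJZ m))) z :=
    (liftPZ m).hasFDerivAt.comp z (hXd.comp z (lift_hasFDerivAt_z c z))
  unfold dve dvc dv
  rw [h1.fderiv, h2.fderiv, Fin.sum_univ_two, lift_single_zero, lift_single_one]
  simp only [lift_single_z]
  rfl

/-! ### Integration over the fibres -/

/-- The derivative of the integrand. -/
noncomputable def liftF' (X : E (2 + m) → E (2 + m)) (c : ℂ) (z : E m) : ℂ →L[ℝ] ℂ :=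
  (liftPX m).comp ((fderiv ℝ X (jn c z)).comp (liftJC m))

theorem lift_F'_hasFDerivAt {X : E (2 + m) → E (2 + m)} (hX : ContDiff ℝ 1 X) (c : ℂ) (z : E m) :
    HasFDerivAt (fun c' => px (X (jn c' z))) (liftF' X c z) c :=
  (liftPX m).hasFDerivAt.comp c
    (((hX.differentiable one_ne_zero _).hasFDerivAt).comp c (lift_hasFDerivAt_c c z))

theorem lift_F'_continuous {X : E (2 + m) → E (2 + m)} (hX : ContDiff ℝ 1 X) :
    Continuous (fun q : ℂ × E m => liftF' X q.1 q.2) := by
  unfold liftF'
  have h1 : Continuous fun q : ℂ × E m => fderiv ℝ X (jn q.1 q.2) :=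
    (hX.continuous_fderiv one_ne_zero).comp continuous_jn
  exact continuous_const.clm_comp (h1.clm_comp continuous_const)

/-- The fibre integral of the horizontal component. -/
noncomputable def liftY (X : E (2 + m) → E (2 + m)) (c : ℂ) : ℂ := ∫ z : E m, px (X (jn c z))

/-- a uniform bound for the derivative of the integrand -/
theorem lift_bound {X : E (2 + m) → E (2 + m)} (hX : ContDiff ℝ 1 X) (hc : HasCompactSupport X) :
    ∃ R B : ℝ, 0 ≤ B ∧ ∀ (c : ℂ) (z : E m),
      ‖liftF' X c z‖ ≤ (Metric.closedBall (0 : E m) R).indicator (fun _ => B) z := by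
  obtain ⟨B, hB⟩ := (hX.continuous_fderiv one_ne_zero).bounded_above_of_compact_support
    (hc.fderiv (𝕜 := ℝ))
  obtain ⟨R, hR⟩ := hc.isCompact.isBounded.subset_closedBall (0 : E (2 + m))
  refine ⟨R, ‖liftPX m‖ * (|B| * ‖liftJC m‖), by positivity, fun c z => ?_⟩
  by_cases hz : z ∈ Metric.closedBall (0 : E m) R
  · rw [indicator_of_mem hz]
    unfold liftF'
    refine (ContinuousLinearMap.opNorm_comp_le _ _).trans ?_
    apply mul_le_mul_of_nonneg_left _ (norm_nonneg _)
    refine (ContinuousLinearMap.opNorm_comp_le _ _).trans ?_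
    exact mul_le_mul_of_nonneg_right ((hB _).trans (le_abs_self _)) (norm_nonneg _)
  · rw [indicator_of_notMem hz]
    have h1 : jn c z ∉ tsupport X := by
      intro h
      apply hz
      have h2 := hR h
      rw [mem_closedBall_zero_iff] at h2 ⊢
      have h3 := norm_pz_le (jn c z)
      rw [pz_jn] at h3
      exact h3.trans h2
    have h2 : fderiv ℝ X (jn c z) = 0 := by
      have h3 : jn c z ∉ tsupport (fderiv ℝ X) := fun h => h1 (tsupport_fderiv_subset ℝ h)
      exact image_eq_zero_of_notMem_tsupport h3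
    unfold liftF'
    rw [h2]
    simp

theorem lift_slice_compact {X : E (2 + m) → E (2 + m)} (hc : HasCompactSupport X) (c : ℂ) :
    HasCompactSupport (fun z : E m => X (jn c z)) := by
  obtain ⟨R, hR⟩ := hc.isCompact.isBounded.subset_closedBall (0 : E (2 + m))
  apply HasCompactSupport.of_support_subset_isCompact (isCompact_closedBall (0 : E m) R)
  intro z hz
  have h1 : jn c z ∈ tsupport X := subset_tsupport X hz
  have h2 := hR h1
  rw [mem_closedBall_zero_iff] at h2 ⊢
  have h3 := norm_pz_le (jn c z)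
  rw [pz_jn] at h3
  exact h3.trans h2

theorem lift_continuous_slice {X : E (2 + m) → E (2 + m)} (hX : Continuous X) (c : ℂ) :
    Continuous (fun z : E m => X (jn c z)) :=
  hX.comp (continuous_jn.comp (Continuous.prodMk_right c))

theorem lift_slice_integrable {X : E (2 + m) → E (2 + m)} (hX : Continuous X)
    (hc : HasCompactSupport X) (c : ℂ) : Integrable (fun z : E m => px (X (jn c z))) := by
  apply Continuous.integrable_of_hasCompactSupport
  · exact continuous_px.comp (lift_continuous_slice hX c)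
  · exact (lift_slice_compact hc c).comp_left px_zero

theorem liftY_hasFDerivAt {X : E (2 + m) → E (2 + m)} (hX : ContDiff ℝ 1 X)
    (hc : HasCompactSupport X) (c : ℂ) :
    HasFDerivAt (liftY X) (∫ z : E m, liftF' X c z) c := by
  obtain ⟨R, B, hB, hb⟩ := lift_bound hX hc
  apply hasFDerivAt_integral_of_dominated_of_fderiv_le
    (bound := (Metric.closedBall (0 : E m) R).indicator (fun _ => B))
    (F := fun (c : ℂ) (z : E m) => px (X (jn c z))) (F' := liftF' X) (s := univ) univ_mem
  · exact Eventually.of_forall fun c' =>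
      (continuous_px.comp (lift_continuous_slice hX.continuous c')).aestronglyMeasurable
  · exact lift_slice_integrable hX.continuous hc c
  · exact ((lift_F'_continuous hX).comp (Continuous.prodMk_right c)).aestronglyMeasurable
  · exact Eventually.of_forall fun z c' _ => hb c' z
  · exact (integrable_indicator_iff measurableSet_closedBall).2
      (integrableOn_const (measure_closedBall_lt_top.ne) )
  · exact Eventually.of_forall fun z c' _ => lift_F'_hasFDerivAt hX c' z

theorem lift_F'_integrable {X : E (2 + m) → E (2 + m)} (hX : ContDiff ℝ 1 X)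
    (hc : HasCompactSupport X) (c : ℂ) : Integrable (fun z : E m => liftF' X c z) := by
  obtain ⟨R, B, hB, hb⟩ := lift_bound hX hc
  refine Integrable.mono' (g := (Metric.closedBall (0 : E m) R).indicator (fun _ => B)) ?_ ?_ ?_
  · exact (integrable_indicator_iff measurableSet_closedBall).2
      (integrableOn_const (measure_closedBall_lt_top.ne) )
  · exact ((lift_F'_continuous hX).comp (Continuous.prodMk_right c)).aestronglyMeasurable
  · exact Eventually.of_forall fun z => hb c z

theorem liftY_contDiff {X : E (2 + m) → E (2 + m)} (hX : ContDiff ℝ 1 X)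
    (hc : HasCompactSupport X) : ContDiff ℝ 1 (liftY X) := by
  rw [contDiff_one_iff_fderiv]
  refine ⟨fun c => (liftY_hasFDerivAt hX hc c).differentiableAt, ?_⟩
  have h1 : fderiv ℝ (liftY X) = fun c => ∫ z : E m, liftF' X c z := by
    funext c
    exact (liftY_hasFDerivAt hX hc c).fderiv
  rw [h1]
  obtain ⟨R, B, hB, hb⟩ := lift_bound hX hc
  apply continuous_of_dominated
    (bound := (Metric.closedBall (0 : E m) R).indicator (fun _ => B))
  · exact fun c => ((lift_F'_continuous hX).comp (Continuous.prodMk_right c)).aestronglyMeasurable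
  · exact fun c => Eventually.of_forall fun z => hb c z
  · exact (integrable_indicator_iff measurableSet_closedBall).2
      (integrableOn_const (measure_closedBall_lt_top.ne) )
  · exact Eventually.of_forall fun z =>
      (lift_F'_continuous hX).comp (Continuous.prodMk_left z)

/-- The divergence of the fibre integral. -/
theorem liftY_dvc {X : E (2 + m) → E (2 + m)} (hX : ContDiff ℝ 1 X)
    (hc : HasCompactSupport X) (c : ℂ) :
    dvc (liftY X) c = ∫ z : E m, dvc (fun c' => px (X (jn c' z))) c := by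
  let L : (ℂ →L[ℝ] ℂ) →L[ℝ] ℝ :=
    Complex.reCLM.comp (ContinuousLinearMap.apply ℝ ℂ (1 : ℂ)) +
      Complex.imCLM.comp (ContinuousLinearMap.apply ℝ ℂ Complex.I)
  have hL : ∀ φ : ℂ →L[ℝ] ℂ, L φ = (φ 1).re + (φ Complex.I).im := fun φ => rfl
  have h1 : dvc (liftY X) c = L (∫ z : E m, liftF' X c z) := by
    rw [hL, dvc, (liftY_hasFDerivAt hX hc c).fderiv]
  rw [h1, ← L.integral_comp_comm (lift_F'_integrable hX hc c)]
  apply integral_congr_ae
  exact Eventually.of_forall fun z => by
    change L (liftF' X c z) = dvc (fun c' => px (X (jn c' z))) c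
    unfold dvc
    rw [hL, (lift_F'_hasFDerivAt hX c z).fderiv]

theorem lift_supp_c {X : E (2 + m) → E (2 + m)} (hm : 0 < m) (hX : TF (Ub m 1) X) :
    HasCompactSupport (liftY X) ∧ tsupport (liftY X) ⊆ Metric.ball 0 m := by
  have hK : IsCompact (px '' tsupport X) := hX.comp.isCompact.image continuous_px
  have h1 : Function.support (liftY X) ⊆ px '' tsupport X := by
    intro c hc
    by_contra h
    apply hc
    unfold liftY
    have h2 : ∀ z : E m, px (X (jn c z)) = 0 := by
      intro z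
      have h3 : jn c z ∉ tsupport X := fun h4 => h ⟨_, h4, px_jn c z⟩
      rw [image_eq_zero_of_notMem_tsupport h3, px_zero]
    simp [h2]
  refine ⟨HasCompactSupport.of_support_subset_isCompact hK h1, ?_⟩
  refine (closure_minimal h1 hK.isClosed).trans ?_
  rintro c ⟨p, hp, rfl⟩
  rw [mem_ball_zero_iff]
  exact px_lt_of_mem hm (hX.supp hp)

theorem lift_norm_le {X : E (2 + m) → E (2 + m)} (hm : 0 < m) (hX : TF (Ub m 1) X)
    (hX1 : ∀ x, ‖X x‖ ≤ 1) (c : ℂ) : ‖liftY X c‖ ≤ omr m * Wp m ‖c‖ := by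
  have h1 : ∀ z : E m, ‖px (X (jn c z))‖ ≤
      (Metric.ball (0 : E m) (wp m ‖c‖)).indicator (fun _ => (1 : ℝ)) z := by
    intro z
    by_cases hz : z ∈ Metric.ball (0 : E m) (wp m ‖c‖)
    · rw [indicator_of_mem hz]
      exact (norm_px_le _).trans (hX1 _)
    · rw [indicator_of_notMem hz]
      have h2 : jn c z ∉ tsupport X := by
        intro h
        apply hz
        have h3 := (mem_Ub_one hm _).1 (hX.supp h)
        rw [px_jn, pz_jn] at h3
        rwa [mem_ball_zero_iff]
      rw [image_eq_zero_of_notMem_tsupport h2, px_zero, norm_zero]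
  have h2 : ‖liftY X c‖ ≤ ∫ z : E m, (Metric.ball (0 : E m) (wp m ‖c‖)).indicator
      (fun _ => (1 : ℝ)) z := by
    apply norm_integral_le_of_norm_le
    · exact (integrable_indicator_iff measurableSet_ball).2
        (integrableOn_const (measure_ball_lt_top.ne) )
    · exact Eventually.of_forall h1
  refine h2.trans ?_
  rw [integral_indicator measurableSet_ball, setIntegral_const, smul_eq_mul, mul_one]
  have : Nonempty (Fin m) := ⟨⟨0, hm⟩⟩
  rw [Measure.real, Measure.addHaar_ball volume (0 : E m) (wp_nonneg m ‖c‖)]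
  rw [ENNReal.toReal_mul, finrank_euclideanSpace, Fintype.card_fin,
    ENNReal.toReal_ofReal (pow_nonneg (wp_nonneg m ‖c‖) m)]
  rw [mul_comm]
  rfl

/-- Integration over the lift. -/
theorem lift_integral {X : E (2 + m) → E (2 + m)} (hX : TF (Ub m 1) X) {ε : ℝ}
    {A : Set ℂ} (hA : MeasurableSet A) :
    ∫ p in lift m A, dve ε X p = ∫ c in A, dvc (liftY X) c := by
  have hcont : Continuous (fun p => dve ε X p) := by
    unfold dve
    have h := hX.diff.continuous_fderiv one_ne_zero
    fun_prop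
  have hzero : ∀ p, p ∉ tsupport X → dve ε X p = 0 := by
    intro p hp
    have h3 : p ∉ tsupport (fderiv ℝ X) := fun h => hp (tsupport_fderiv_subset ℝ h)
    have h4 : fderiv ℝ X p = 0 := image_eq_zero_of_notMem_tsupport h3
    unfold dve
    rw [h4]
    simp
  have hcs : HasCompactSupport (fun p => dve ε X p) := by
    apply HasCompactSupport.of_support_subset_isCompact hX.comp.isCompact
    intro p hp
    by_contra h
    exact hp (hzero p h)
  have hint : Integrable (fun p => dve ε X p) := hcont.integrable_of_hasCompactSupport hcs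
  have hPA : MeasurableSet (px ⁻¹' A : Set (E (2 + m))) := measurable_px hA
  have hU : IsOpen (Ub m 1) := by
    unfold Ub
    exact isOpen_lt (((continuous_px.norm).div_const _).add ((continuous_pz.norm).div_const _))
      continuous_const
  have hlift : lift m A = Ub m 1 ∩ px ⁻¹' A := rfl
  have h1 : ∫ p in lift m A, dve ε X p = ∫ p in px ⁻¹' A, dve ε X p := by
    rw [hlift, ← integral_indicator (hU.measurableSet.inter hPA), ← integral_indicator hPA]
    apply integral_congr_ae
    refine Eventually.of_forall fun p => ?_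
    by_cases hp : p ∈ Ub m 1
    · by_cases hpA : p ∈ px ⁻¹' A
      · simp only [indicator_of_mem hpA, indicator_of_mem (show p ∈ Ub m 1 ∩ px ⁻¹' A from ⟨hp, hpA⟩)]
      · simp only [indicator_of_notMem hpA,
          indicator_of_notMem (show p ∉ Ub m 1 ∩ px ⁻¹' A from fun h => hpA h.2)]
    · have h2 : dve ε X p = 0 := hzero p fun h => hp (hX.supp h)
      have h3 : (Ub m 1 ∩ px ⁻¹' A).indicator (fun p => dve ε X p) p = 0 :=
        indicator_of_notMem (fun h => hp h.1) _
      have h4 : (px ⁻¹' A).indicator (fun p => dve ε X p) p = 0 := by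
        by_cases hpA : p ∈ px ⁻¹' A
        · rw [indicator_of_mem hpA]; exact h2
        · rw [indicator_of_notMem hpA]
      exact h3.trans h4.symm
  rw [h1, ← integral_indicator hPA, integral_split _ (hint.indicator hPA),
    ← integral_indicator hA]
  apply integral_congr_ae
  refine Eventually.of_forall fun c => ?_
  by_cases hc : c ∈ A
  · rw [indicator_of_mem hc]
    have h2 : ∀ z : E m, (px ⁻¹' A).indicator (fun p => dve ε X p) (jn c z) =
        dvc (fun c' => px (X (jn c' z))) c + ε⁻¹ * dv (fun z' => pz (X (jn c z'))) z := by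
      intro z
      rw [indicator_of_mem (show jn c z ∈ px ⁻¹' A by rw [mem_preimage, px_jn]; exact hc)]
      exact lift_dve_split hX.diff c z
    simp_rw [h2]
    have hZd : ContDiff ℝ 1 (fun z' : E m => pz (X (jn c z'))) :=
      contDiff_pz.comp (hX.diff.comp (contDiff_jn.comp (contDiff_const.prodMk contDiff_id)))
    have hZc : HasCompactSupport (fun z' : E m => pz (X (jn c z'))) :=
      (lift_slice_compact hX.comp c).comp_left pz_zero
    have hi1 : Integrable fun z : E m => dvc (fun c' => px (X (jn c' z))) c := by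
      let L : (ℂ →L[ℝ] ℂ) →L[ℝ] ℝ :=
        Complex.reCLM.comp (ContinuousLinearMap.apply ℝ ℂ (1 : ℂ)) +
          Complex.imCLM.comp (ContinuousLinearMap.apply ℝ ℂ Complex.I)
      refine (L.integrable_comp (lift_F'_integrable hX.diff hX.comp c)).congr ?_
      exact Eventually.of_forall fun z => by
        change L (liftF' X c z) = dvc (fun c' => px (X (jn c' z))) c
        unfold dvc
        rw [(lift_F'_hasFDerivAt hX.diff c z).fderiv]
        rfl
    rw [integral_add hi1 ((Elem_integrable_dv hZd hZc).const_mul _), integral_const_mul,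
      Elem_integral_dv hZd hZc, mul_zero, add_zero, liftY_dvc hX.diff hX.comp]
  · rw [indicator_of_notMem hc]
    have h2 : ∀ z : E m, (px ⁻¹' A).indicator (fun p => dve ε X p) (jn c z) = 0 := by
      intro z
      rw [indicator_of_notMem]
      rw [mem_preimage, px_jn]
      exact hc
    simp [h2]

/-! ### Removing a point -/

/-- the cut-off function -/
noncomputable def liftPsi (c : ℂ) : ℝ := Real.smoothTransition (‖c‖ ^ 2 - 1)

theorem liftPsi_contDiff : ContDiff ℝ 1 liftPsi :=
  Real.smoothTransition.contDiff.comp ((contDiff_norm_sq ℝ).sub contDiff_const)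

theorem liftPsi_zero {c : ℂ} (h : ‖c‖ ≤ 1) : liftPsi c = 0 :=
  Real.smoothTransition.zero_of_nonpos (by nlinarith [norm_nonneg c])

theorem liftPsi_one {c : ℂ} (h : 2 ≤ ‖c‖) : liftPsi c = 1 :=
  Real.smoothTransition.one_of_one_le (by nlinarith)

theorem liftPsi_nonneg (c : ℂ) : 0 ≤ liftPsi c := Real.smoothTransition.nonneg _
theorem liftPsi_le (c : ℂ) : liftPsi c ≤ 1 := Real.smoothTransition.le_one _

theorem liftPsi_bound : ∃ M : ℝ, 0 ≤ M ∧ ∀ c, ‖fderiv ℝ liftPsi c‖ ≤ M := by
  have h1 : HasCompactSupport (fun c : ℂ => 1 - liftPsi c) := by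
    apply HasCompactSupport.of_support_subset_isCompact (isCompact_closedBall (0 : ℂ) 2)
    intro c hc
    by_contra h
    rw [mem_closedBall_zero_iff, not_le] at h
    exact hc (by simp [liftPsi_one h.le])
  have h2 : ContDiff ℝ 1 (fun c : ℂ => 1 - liftPsi c) := contDiff_const.sub liftPsi_contDiff
  obtain ⟨M, hM⟩ := (h2.continuous_fderiv one_ne_zero).bounded_above_of_compact_support
    (h1.fderiv (𝕜 := ℝ))
  refine ⟨|M|, abs_nonneg _, fun c => ?_⟩
  have h3 := hM c
  rw [fderiv_const_sub, norm_neg] at h3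
  exact h3.trans (le_abs_self _)

theorem lift_fderiv_psi {δ : ℝ} (hδ : 0 < δ) {M : ℝ} (hM : ∀ c, ‖fderiv ℝ liftPsi c‖ ≤ M) (c : ℂ) :
    ‖fderiv ℝ (fun c => liftPsi (δ⁻¹ • c)) c‖ ≤ M / δ := by
  have h1 : HasFDerivAt (fun c : ℂ => δ⁻¹ • c) (δ⁻¹ • ContinuousLinearMap.id ℝ ℂ) c :=
    (hasFDerivAt_id c).const_smul δ⁻¹
  have h2 : HasFDerivAt (fun c => liftPsi (δ⁻¹ • c))
      ((fderiv ℝ liftPsi (δ⁻¹ • c)).comp (δ⁻¹ • ContinuousLinearMap.id ℝ ℂ)) c :=
    ((liftPsi_contDiff.differentiable one_ne_zero _).hasFDerivAt).comp c h1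
  rw [h2.fderiv]
  refine (ContinuousLinearMap.opNorm_comp_le _ _).trans ?_
  rw [norm_smul, norm_inv, Real.norm_of_nonneg hδ.le]
  have h3 : ‖ContinuousLinearMap.id ℝ ℂ‖ ≤ 1 := ContinuousLinearMap.norm_id_le
  have h4 : 0 ≤ δ⁻¹ := by positivity
  calc ‖fderiv ℝ liftPsi (δ⁻¹ • c)‖ * (δ⁻¹ * ‖ContinuousLinearMap.id ℝ ℂ‖)
      ≤ M * (δ⁻¹ * 1) := by
        apply mul_le_mul (hM _) (mul_le_mul_of_nonneg_left h3 h4) (by positivity)
        exact (norm_nonneg _).trans (hM 0)
    _ = M / δ := by rw [mul_one, div_eq_mul_inv]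

theorem lift_dvc_smul {ψ : ℂ → ℝ} {Y : ℂ → ℂ} {c : ℂ} (hψ : DifferentiableAt ℝ ψ c)
    (hY : DifferentiableAt ℝ Y c) :
    dvc (fun c => ψ c • Y c) c = ψ c * dvc Y c +
      (fderiv ℝ ψ c 1 * (Y c).re + fderiv ℝ ψ c Complex.I * (Y c).im) := by
  unfold dvc
  rw [fderiv_fun_smul hψ hY]
  simp
  ring

theorem lift_point {A : Set ℂ} {Y : ℂ → ℂ}
    (hY : TFc (Metric.ball 0 m) Y) {K : ℝ} (hK : 0 < K) (hb : ∀ c, ‖Y c‖ ≤ K * Wp m ‖c‖) :
    ENNReal.ofReal (∫ c in A, dvc Y c) ≤ ENNReal.ofReal K * P0 m A := by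
  obtain ⟨M, hM0, hM⟩ := liftPsi_bound
  obtain ⟨D, hD⟩ := hY.dvc_continuous.bounded_above_of_compact_support hY.dvc_hasCompactSupport
  obtain ⟨B, hB⟩ := hY.diff.continuous.bounded_above_of_compact_support hY.comp
  have hD0 : 0 ≤ D := (norm_nonneg _).trans (hD 0)
  have hB0 : 0 ≤ B := (norm_nonneg _).trans (hB 0)
  let δ : ℕ → ℝ := fun k => 1 / (k + 1 : ℝ)
  have hδ : ∀ k, 0 < δ k := fun k => by positivity
  let ψ : ℕ → ℂ → ℝ := fun k c => liftPsi ((δ k)⁻¹ • c)
  have hψ1 : ∀ k, ContDiff ℝ 1 (ψ k) := fun k =>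
    liftPsi_contDiff.comp (contDiff_id.const_smul _)
  have hψ0 : ∀ k c, ‖c‖ ≤ δ k → ψ k c = 0 := by
    intro k c hc
    apply liftPsi_zero
    rw [norm_smul, norm_inv, Real.norm_of_nonneg (hδ k).le, inv_mul_le_iff₀ (hδ k), mul_one]
    exact hc
  have hψ2 : ∀ k c, 2 * δ k ≤ ‖c‖ → ψ k c = 1 := by
    intro k c hc
    apply liftPsi_one
    rw [norm_smul, norm_inv, Real.norm_of_nonneg (hδ k).le, le_inv_mul_iff₀ (hδ k)]
    linarith
  let Z : ℕ → ℂ → ℂ := fun k c => ψ k c • Y c
  have hZ1 : ∀ k, ContDiff ℝ 1 (Z k) := fun k => (hψ1 k).smul hY.diff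
  have hZc : ∀ k, HasCompactSupport (Z k) := fun k => hY.comp.mono fun c hc h => hc (by
    change ψ k c • Y c = 0
    rw [h, smul_zero])
  have hZs : ∀ k, tsupport (Z k) ⊆ Dp m := by
    intro k c hc
    refine ⟨hY.supp (tsupport_smul_subset_right (ψ k) Y hc), ?_⟩
    rintro (rfl : c = 0)
    revert hc
    rw [imp_false, notMem_tsupport_iff_eventuallyEq]
    filter_upwards [Metric.closedBall_mem_nhds (0 : ℂ) (hδ k)] with c hc
    rw [mem_closedBall_zero_iff] at hc
    simp [Z, hψ0 k c hc]
  have hZT : ∀ k, TFc (Dp m) (Z k) := fun k => ⟨hZ1 k, hZc k, hZs k⟩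
  -- the bound for the cut-off field
  have hle : ∀ k, ENNReal.ofReal (∫ c in A, dvc (Z k) c) ≤ ENNReal.ofReal K * P0 m A := by
    intro k
    have h1 : TFc (Dp m) (fun c => K⁻¹ • Z k c) :=
      ⟨(hZ1 k).const_smul K⁻¹, (hZc k).mono fun c hc h => hc (by
          change K⁻¹ • Z k c = 0
          rw [h, smul_zero]),
        (tsupport_smul_subset_right (fun _ => K⁻¹) (Z k)).trans (hZs k)⟩
    have h2 : ∀ c, ‖K⁻¹ • Z k c‖ ≤ Wp m ‖c‖ := by
      intro c
      have hW : 0 ≤ Wp m ‖c‖ := pow_nonneg (wp_nonneg m _) m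
      rw [norm_smul, norm_inv, Real.norm_of_nonneg hK.le, inv_mul_le_iff₀ hK]
      simp only [Z]
      rw [norm_smul, Real.norm_of_nonneg (liftPsi_nonneg _)]
      calc ψ k c * ‖Y c‖ ≤ 1 * ‖Y c‖ :=
            mul_le_mul_of_nonneg_right (liftPsi_le _) (norm_nonneg _)
        _ = ‖Y c‖ := one_mul _
        _ ≤ _ := hb c
    have h3 : ∀ c, dvc (fun c => K⁻¹ • Z k c) c = K⁻¹ * dvc (Z k) c := by
      intro c
      unfold dvc
      rw [fderiv_fun_const_smul ((hZ1 k).differentiable one_ne_zero c)]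
      simp
      ring
    have h4 : ENNReal.ofReal (∫ c in A, dvc (fun c => K⁻¹ • Z k c) c) ≤ P0 m A :=
      le_iSup₂_of_le (f := fun (Y : ℂ → ℂ) (_ : TFc (Dp m) Y ∧ ∀ c, ‖Y c‖ ≤ Wp m ‖c‖) =>
        ENNReal.ofReal (∫ c in A, dvc Y c)) _ ⟨h1, h2⟩ le_rfl
    simp_rw [h3] at h4
    rw [integral_const_mul] at h4
    calc ENNReal.ofReal (∫ c in A, dvc (Z k) c) =
        ENNReal.ofReal K * ENNReal.ofReal (K⁻¹ * ∫ c in A, dvc (Z k) c) := by
          rw [← ENNReal.ofReal_mul hK.le, ← mul_assoc, mul_inv_cancel₀ hK.ne', one_mul]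
      _ ≤ _ := mul_le_mul_right h4 _
  -- convergence
  have hdiff : ∀ k c, ‖dvc (Z k) c - dvc Y c‖ ≤
      (Metric.closedBall (0 : ℂ) (2 * δ k)).indicator (fun _ => D + 2 * (M / δ k) * B) c := by
    intro k c
    by_cases hc : c ∈ Metric.closedBall (0 : ℂ) (2 * δ k)
    · rw [indicator_of_mem hc]
      have h1 := lift_dvc_smul ((hψ1 k).differentiable one_ne_zero c)
        (hY.diff.differentiable one_ne_zero c)
      change dvc (Z k) c = _ at h1
      rw [h1]
      have h2 := lift_fderiv_psi (hδ k) hM c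
      change ‖fderiv ℝ (ψ k) c‖ ≤ _ at h2
      have h3 : |fderiv ℝ (ψ k) c 1| ≤ M / δ k := by
        have := (fderiv ℝ (ψ k) c).le_opNorm 1
        rw [norm_one, mul_one] at this
        exact this.trans h2
      have h4 : |fderiv ℝ (ψ k) c Complex.I| ≤ M / δ k := by
        have := (fderiv ℝ (ψ k) c).le_opNorm Complex.I
        rw [Complex.norm_I, mul_one] at this
        exact this.trans h2
      have h5 : |(Y c).re| ≤ B := (Complex.abs_re_le_norm _).trans (hB c)
      have h6 : |(Y c).im| ≤ B := (Complex.abs_im_le_norm _).trans (hB c)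
      have h7 : |dvc Y c| ≤ D := hD c
      have h8 : |ψ k c - 1| ≤ 1 := by
        rw [abs_le]
        constructor
        · linarith [liftPsi_nonneg ((δ k)⁻¹ • c)]
        · linarith [liftPsi_le ((δ k)⁻¹ • c)]
      have hMd : 0 ≤ M / δ k := div_nonneg hM0 (hδ k).le
      calc ‖ψ k c * dvc Y c + (fderiv ℝ (ψ k) c 1 * (Y c).re +
              fderiv ℝ (ψ k) c Complex.I * (Y c).im) - dvc Y c‖
          = |(ψ k c - 1) * dvc Y c + (fderiv ℝ (ψ k) c 1 * (Y c).re +
              fderiv ℝ (ψ k) c Complex.I * (Y c).im)| := by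
            rw [Real.norm_eq_abs]
            congr 1
            ring
        _ ≤ |ψ k c - 1| * |dvc Y c| + (|fderiv ℝ (ψ k) c 1| * |(Y c).re| +
              |fderiv ℝ (ψ k) c Complex.I| * |(Y c).im|) := by
            rw [← abs_mul, ← abs_mul, ← abs_mul]
            exact (abs_add_le _ _).trans (add_le_add le_rfl (abs_add_le _ _))
        _ ≤ 1 * D + (M / δ k * B + M / δ k * B) := by
            gcongr
        _ = D + 2 * (M / δ k) * B := by ring
    · rw [indicator_of_notMem hc]
      rw [mem_closedBall_zero_iff, not_le] at hc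
      have h1 : Z k =ᶠ[𝓝 c] Y := by
        have h2 : ∀ᶠ c' in 𝓝 c, 2 * δ k < ‖c'‖ := continuous_norm.continuousAt.eventually_const_lt hc
        filter_upwards [h2] with c' hc'
        simp [Z, hψ2 k c' hc'.le]
      have h3 : dvc (Z k) c = dvc Y c := by
        unfold dvc
        rw [h1.fderiv_eq]
      rw [h3, sub_self, norm_zero]
  have hbound : ∀ k, ‖(∫ c in A, dvc (Z k) c) - ∫ c in A, dvc Y c‖ ≤
      (D + 2 * (M / δ k) * B) * (4 * (δ k) ^ 2 * Real.pi) := by
    intro k
    rw [← integral_sub (hZT k).dvc_integrable.integrableOn hY.dvc_integrable.integrableOn]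
    have hi : Integrable ((Metric.closedBall (0 : ℂ) (2 * δ k)).indicator
        (fun _ => D + 2 * (M / δ k) * B)) :=
      (integrable_indicator_iff measurableSet_closedBall).2
        (integrableOn_const measure_closedBall_lt_top.ne)
    have h1 : ‖∫ c in A, (dvc (Z k) c - dvc Y c)‖ ≤
        ∫ c in A, (Metric.closedBall (0 : ℂ) (2 * δ k)).indicator
          (fun _ => D + 2 * (M / δ k) * B) c :=
      norm_integral_le_of_norm_le hi.integrableOn (Eventually.of_forall fun c => hdiff k c)
    refine h1.trans ?_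
    have h2 : ∫ c in A, (Metric.closedBall (0 : ℂ) (2 * δ k)).indicator
        (fun _ => D + 2 * (M / δ k) * B) c ≤ ∫ c, (Metric.closedBall (0 : ℂ) (2 * δ k)).indicator
        (fun _ => D + 2 * (M / δ k) * B) c := by
      apply setIntegral_le_integral hi
      refine Eventually.of_forall fun c => ?_
      apply indicator_nonneg
      intro _ _
      have : 0 ≤ M / δ k := div_nonneg hM0 (hδ k).le
      positivity
    refine h2.trans (le_of_eq ?_)
    rw [integral_indicator measurableSet_closedBall, setIntegral_const, smul_eq_mul, Measure.real,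
      Complex.volume_closedBall, ENNReal.toReal_mul, ENNReal.toReal_pow,
      ENNReal.toReal_ofReal (by have := hδ k; positivity)]
    simp only [ENNReal.coe_toReal, NNReal.coe_real_pi]
    ring
  have hlim : Tendsto (fun k => ∫ c in A, dvc (Z k) c) atTop (𝓝 (∫ c in A, dvc Y c)) := by
    rw [tendsto_iff_norm_sub_tendsto_zero]
    have hδ0 : Tendsto δ atTop (𝓝 0) := tendsto_one_div_add_atTop_nhds_zero_nat
    have h1 : Tendsto (fun k => (4 * D * Real.pi) * (δ k * δ k) + (8 * M * B * Real.pi) * δ k)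
        atTop (𝓝 ((4 * D * Real.pi) * (0 * 0) + (8 * M * B * Real.pi) * 0)) :=
      ((hδ0.mul hδ0).const_mul _).add (hδ0.const_mul _)
    have h2 : (4 * D * Real.pi) * (0 * 0) + (8 * M * B * Real.pi) * 0 = 0 := by ring
    rw [h2] at h1
    refine squeeze_zero (fun k => norm_nonneg _) (fun k => ?_) h1
    refine (hbound k).trans (le_of_eq ?_)
    have := (hδ k).ne'
    field_simp
    ring
  exact le_of_tendsto ((ENNReal.continuous_ofReal.tendsto _).comp hlim)
    (Eventually.of_forall hle)

/-- Task T03. -/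
theorem lift_stmt (h : Stmt_Fib) : Stmt_Lift := by
  intro m A hm hA
  have hm0 : 0 < m := by omega
  have hU : IsOpen (Ub m 1) := by
    unfold Ub
    exact isOpen_lt (((continuous_px.norm).div_const _).add ((continuous_pz.norm).div_const _))
      continuous_const
  have h1 : MeasurableSet (lift m A) := hU.measurableSet.inter (measurable_px hA)
  have h3 : ∀ ζ ∈ Metric.ball (0 : E m) 1, As m (lift m A) ζ = A ∩ Metric.ball 0 m := by
    intro ζ hζ
    rw [mem_ball_zero_iff] at hζ
    ext c
    constructor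
    · rintro ⟨hc, hc'⟩
      have := hc'.2
      rw [px_jn] at this
      exact ⟨this, hc⟩
    · rintro ⟨hc, hc'⟩
      refine ⟨hc', ?_, ?_⟩
      · rw [mem_ball_zero_iff] at hc'
        exact (jn_wp_mem hm0 hc' ζ).2 hζ
      · rw [px_jn]
        exact hc
  refine ⟨h1, ?_, h3, ?_⟩
  · have h4 := (h m (lift m A) hm h1 (fun p hp => hp.1)).2.2.2.2
    rw [h4]
    have h5 : ∀ ζ ∈ Metric.ball (0 : E m) 1, V0 m (As m (lift m A) ζ) = V0 m A := by
      intro ζ hζ
      rw [h3 ζ hζ, V0, V0, inter_assoc, inter_self]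
    rw [setIntegral_congr_fun measurableSet_ball h5, setIntegral_const, smul_eq_mul]
    rfl
  · intro ε hε
    apply iSup₂_le
    rintro X ⟨hX, hX1⟩
    rw [lift_integral hX hA]
    have hs := lift_supp_c hm0 hX
    have hY : TFc (Metric.ball 0 m) (liftY X) := ⟨liftY_contDiff hX.diff hX.comp, hs.1, hs.2⟩
    have h6 := lift_point (m := m) (A := A) hY (omr_pos m) (lift_norm_le hm0 hX hX1)
    rwa [omr, ENNReal.ofReal_toReal (om_ne_top m)] at h6

end Pool.Agent.Lib.MP_c95dcf_gt
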