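import Pool.Agent.Lib.MP_c95dcf_gt.Mg.G002

/-!
# MP_c95dcf_gt, task T13: sets of intermediate volume, volume of the minimisers
-/

set_option autoImplicit false

open MeasureTheory Set Filter Topology
open scoped ENNReal NNReal RealInnerProductSpace

namespace Pool.Agent.Lib.MP_c95dcf_gt

theorem mid_vol_Ub_lt_top {m : ℕ} (hm : 0 < m) : volume (Ub m 1) < ∞ := by
  have hsub : Ub m 1 ⊆ Metric.ball (0 : E (2 + m)) (m + 1) := by
    intro p hp
    have h1 := px_lt_of_mem hm hp
    have h2 : ‖pz p‖ < 1 := by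
      have h := (mem_Ub_one hm p).1 hp
      rw [(wp_of_lt hm h1).1] at h
      have h3 : 0 ≤ ‖px p‖ / m := div_nonneg (norm_nonneg _) (Nat.cast_nonneg _)
      linarith
    rw [mem_ball_zero_iff]
    have h3 := norm_jn_le (px p) (pz p)
    rw [jn_px_pz] at h3
    linarith
  exact (measure_mono hsub).trans_lt measure_ball_lt_top

theorem mid_abs_vol_sub_le {m : ℕ} (hm : 0 < m) {A B : Set (E (2 + m))} (hA : A ⊆ Ub m 1)
    (hB : B ⊆ Ub m 1) :
    |(volume A).toReal - (volume B).toReal| ≤ (volume (symmDiff A B)).toReal := by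
  have hU := mid_vol_Ub_lt_top hm
  have hA' : volume A ≠ ∞ := ((measure_mono hA).trans_lt hU).ne
  have hB' : volume B ≠ ∞ := ((measure_mono hB).trans_lt hU).ne
  have hAB' : volume (symmDiff A B) ≠ ∞ := by
    refine ((measure_mono ?_).trans_lt hU).ne
    intro x hx
    rcases hx with h | h
    · exact hA h.1
    · exact hB h.1
  have h1 : volume A ≤ volume B + volume (symmDiff A B) := by
    refine (measure_mono ?_).trans (measure_union_le _ _)
    intro x hx
    by_cases hxB : x ∈ B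
    · exact Or.inl hxB
    · exact Or.inr (Or.inl ⟨hx, hxB⟩)
  have h2 : volume B ≤ volume A + volume (symmDiff A B) := by
    refine (measure_mono ?_).trans (measure_union_le _ _)
    intro x hx
    by_cases hxA : x ∈ A
    · exact Or.inl hxA
    · exact Or.inr (Or.inr ⟨hx, hxA⟩)
  have h3 := ENNReal.toReal_mono (ENNReal.add_ne_top.2 ⟨hB', hAB'⟩) h1
  have h4 := ENNReal.toReal_mono (ENNReal.add_ne_top.2 ⟨hA', hAB'⟩) h2
  rw [ENNReal.toReal_add hB' hAB'] at h3
  rw [ENNReal.toReal_add hA' hAB'] at h4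
  rw [abs_le]
  constructor <;> linarith

theorem mid_lift_sub (m : ℕ) (A : Set ℂ) : lift m A ⊆ Ub m 1 := fun _ hp => hp.1

theorem mid_stmt (h1 : Stmt_CompE) (h2 : Stmt_LscE) (h3 : Stmt_Lift) : Stmt_Mid := by
  intro m κ t hB
  have hm : 0 < m := by have := hB.hm; omega
  by_contra hcon
  push Not at hcon
  have hex : ∀ j : ℕ, ∃ (ε : ℝ) (A : Set (E (2 + m))), 0 < ε ∧ ε < 1 / ((j : ℝ) + 1) ∧
      MeasurableSet A ∧ A ⊆ Ub m 1 ∧ vU m / 4 ≤ (volume A).toReal ∧
      (volume A).toReal ≤ 3 / 4 * vU m ∧ Pe m ε A ≤ ENNReal.ofReal (κ * (omr m * t)) := by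
    intro j
    have hj : (0 : ℝ) < 1 / ((j : ℝ) + 1) := by positivity
    have hj1 : (1 : ℝ) / ((j : ℝ) + 1) ≤ 1 := by
      rw [div_le_one (by positivity)]
      have : (0 : ℝ) ≤ j := Nat.cast_nonneg j
      linarith
    obtain ⟨ε, hε0, hε1, A, hA, hAU, ha, hb, hc⟩ := hcon _ hj hj1
    exact ⟨ε, A, hε0, hε1, hA, hAU, ha, hb, hc⟩
  choose ε A hε0 hε1 hA hAU ha hb hc using hex
  have hεle : ∀ j, ε j ≤ 1 := by
    intro j
    have hj1 : (1 : ℝ) / ((j : ℝ) + 1) ≤ 1 := by
      rw [div_le_one (by positivity)]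
      have : (0 : ℝ) ≤ j := Nat.cast_nonneg j
      linarith
    exact (hε1 j).le.trans hj1
  have hεlim : Tendsto ε atTop (𝓝 0) :=
    squeeze_zero (fun j => (hε0 j).le) (fun j => (hε1 j).le) tendsto_one_div_add_atTop_nhds_zero_nat
  obtain ⟨φ, A0, hφ, hA0, -, hlim⟩ := h1 m ε A (κ * (omr m * t)).toNNReal hB.hm hε0 hεle hεlim hA
    hAU (fun j => hc j)
  obtain ⟨-, hvol, -, -⟩ := h3 m A0 hB.hm hA0
  have hom : 0 < omr m := omr_pos m
  -- convergence of the volumes
  have hlimr : Tendsto (fun j => (volume (symmDiff (A (φ j)) (lift m A0))).toReal) atTop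
      (𝓝 0) := by
    have := (ENNReal.tendsto_toReal ENNReal.zero_ne_top).comp hlim
    simpa [Function.comp_def] using this
  have hvlim : Tendsto (fun j => (volume (A (φ j))).toReal) atTop
      (𝓝 (volume (lift m A0)).toReal) := by
    rw [tendsto_iff_dist_tendsto_zero]
    refine squeeze_zero (fun j => dist_nonneg) (fun j => ?_) hlimr
    rw [Real.dist_eq]
    exact mid_abs_vol_sub_le hm (hAU _) (mid_lift_sub m A0)
  have hlo : vU m / 4 ≤ (volume (lift m A0)).toReal :=
    ge_of_tendsto' hvlim fun j => ha (φ j)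
  have hhi : (volume (lift m A0)).toReal ≤ 3 / 4 * vU m :=
    le_of_tendsto' hvlim fun j => hb (φ j)
  rw [hvol, vU] at hlo hhi
  have hlo' : V0 m univ / 4 ≤ V0 m A0 := by
    have : omr m * (V0 m univ / 4) ≤ omr m * V0 m A0 := by linarith
    exact le_of_mul_le_mul_left this hom
  have hhi' : V0 m A0 ≤ 3 / 4 * V0 m univ := by
    have : omr m * V0 m A0 ≤ omr m * (3 / 4 * V0 m univ) := by linarith
    exact le_of_mul_le_mul_left this hom
  have hmid := hB.mid A0 hA0 hlo' hhi'
  have hlsc := h2 m (fun j => ε (φ j)) (fun j => A (φ j)) A0 hB.hm (fun j => hε0 _)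
    (fun j => hεle _) (hεlim.comp hφ.tendsto_atTop) (fun j => hA _) (fun j => hAU _) hA0 hlim
  have hle : liminf (fun j => Pe m (ε (φ j)) (A (φ j))) atTop ≤
      ENNReal.ofReal (κ * (omr m * t)) := by
    refine liminf_le_of_frequently_le' ?_
    exact Frequently.of_forall fun j => hc (φ j)
  have heq : ENNReal.ofReal (κ * (omr m * t)) = om m * ENNReal.ofReal (κ * t) := by
    rw [show κ * (omr m * t) = omr m * (κ * t) by ring, ENNReal.ofReal_mul hom.le, omr,
      ENNReal.ofReal_toReal (om_ne_top m)]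
  have hfin := hlsc.trans hle
  rw [heq] at hfin
  have : P0 m A0 ≤ ENNReal.ofReal (κ * t) := by
    rwa [ENNReal.mul_le_mul_iff_right (om_pos m).ne' (om_ne_top m)] at hfin
  exact absurd hmid (not_lt.2 this)

theorem mid_Pe_empty (m : ℕ) (ε : ℝ) : Pe m ε ∅ = 0 := by
  simp [Pe]

theorem minVol (h1 : Stmt_Mid) (h2 : Stmt_Lift) (_h3 : Stmt_PeProps) : Stmt_MinVol := by
  intro m κ t hB
  obtain ⟨ε₀, hε₀, hε₀1, hmid⟩ := h1 m κ t hB
  refine ⟨ε₀, hε₀, hε₀1, fun ε hε hεlt A hA => ?_⟩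
  have hom : 0 < omr m := omr_pos m
  have hκ := hB.κ_pos
  have hκ1 := hB.κ_lt
  have ht := hB.t_pos
  have hot : 0 < omr m * t := mul_pos hom ht
  have hvU : 16 * (omr m * t) ≤ vU m := by
    have := hB.t_le
    rw [vU]
    nlinarith
  have hvU0 : 0 < vU m := by linarith
  have hf0 : fT m κ t 0 = 0 := by
    rw [fT, min_eq_left hot.le, max_eq_left (by linarith)]
    ring
  -- comparison with the empty set
  have hcmp := hA.le ∅ MeasurableSet.empty (empty_subset _) (by rw [mid_Pe_empty]; simp)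
  rw [mid_Pe_empty, measure_empty] at hcmp
  simp only [ENNReal.toReal_zero, hf0, add_zero] at hcmp
  rw [fT] at hcmp
  have hv0 : 0 ≤ (volume A).toReal := ENNReal.toReal_nonneg
  have hP0 : 0 ≤ (Pe m ε A).toReal := ENNReal.toReal_nonneg
  have hmax0 : 0 ≤ max 0 ((volume A).toReal - vU m / 2) := le_max_left _ _
  have hmax1 : (volume A).toReal - vU m / 2 ≤ max 0 ((volume A).toReal - vU m / 2) :=
    le_max_right _ _
  have hmin1 : κ * min (volume A).toReal (omr m * t) ≤ κ * (omr m * t) :=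
    mul_le_mul_of_nonneg_left (min_le_right _ _) hκ.le
  have hPle : (Pe m ε A).toReal ≤ κ * min (volume A).toReal (omr m * t) := by linarith
  have hPle' : Pe m ε A ≤ ENNReal.ofReal (κ * min (volume A).toReal (omr m * t)) := by
    rw [← ENNReal.ofReal_toReal hA.fin]
    exact ENNReal.ofReal_le_ofReal hPle
  have hκot : κ * (omr m * t) < omr m * t := by nlinarith
  have hhi : (volume A).toReal ≤ 3 / 4 * vU m := by
    by_contra hcon
    push Not at hcon
    linarith
  have hlt : (volume A).toReal < vU m / 4 := by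
    by_contra hcon
    push Not at hcon
    have := hmid ε hε hεlt A hA.meas hA.sub hcon hhi
    exact absurd (hPle'.trans (ENNReal.ofReal_le_ofReal hmin1)) (not_le.2 this)
  refine ⟨?_, hlt, hPle'⟩
  -- comparison with the lift of the ring
  obtain ⟨Rg, hRg, -, hRgV, hRgP⟩ := hB.ring
  obtain ⟨hL1, hL2, -, hL4⟩ := h2 m Rg hB.hm hRg
  have hL4' := hL4 ε hε
  have hPfin : P0 m Rg ≠ ∞ := (hRgP.trans ENNReal.ofReal_lt_top).ne
  have hPfin' : om m * P0 m Rg ≠ ∞ := ENNReal.mul_ne_top (om_ne_top m) hPfin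
  have hPe : Pe m ε (lift m Rg) ≠ ∞ := (hL4'.trans_lt hPfin'.lt_top).ne
  have hcmp2 := hA.le (lift m Rg) hL1 (mid_lift_sub m Rg) hPe
  have hPr : (Pe m ε (lift m Rg)).toReal < κ * (omr m * t) := by
    have h5 := ENNReal.toReal_mono hPfin' hL4'
    rw [ENNReal.toReal_mul] at h5
    have h6 : (P0 m Rg).toReal < κ * t := by
      rw [← ENNReal.toReal_ofReal (show 0 ≤ κ * t by positivity)]
      exact (ENNReal.toReal_lt_toReal hPfin ENNReal.ofReal_ne_top).2 hRgP
    change _ ≤ omr m * _ at h5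
    nlinarith
  rw [hL2, hRgV] at hcmp2
  have hf1 : fT m κ t (omr m * t) = -(κ * (omr m * t)) := by
    rw [fT, min_self, max_eq_left (by linarith)]
    ring
  rw [hf1] at hcmp2
  by_contra hcon
  have hA0 : (volume A).toReal = 0 := le_antisymm (not_lt.1 hcon) hv0
  rw [hA0, hf0] at hcmp2
  linarith

end Pool.Agent.Lib.MP_c95dcf_gt
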