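import Pool.Agent.Lib.MP_c95dcf_gt.Mg.G002
import Pool.Agent.Lib.MP_c95dcf_gt.Sep

/-!
# MP_c95dcf_gt, part T, task T20: elementary facts on the weighted perimeter
-/

set_option autoImplicit false

open MeasureTheory Set Filter Topology
open scoped ENNReal NNReal RealInnerProductSpace Convolution

namespace Pool.Agent.Lib.MP_c95dcf_gt

theorem p0c_dvc_mul {Y : ℂ → ℂ} (hY : ContDiff ℝ 1 Y) (a : ℝ) (c : ℂ) :
    dvc (fun c => (a : ℂ) * Y c) c = a * dvc Y c := by
  have h1 : HasFDerivAt Y (fderiv ℝ Y c) c :=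
    (hY.differentiable one_ne_zero c).hasFDerivAt
  have h2 : HasFDerivAt (fun c => a • Y c) (a • fderiv ℝ Y c) c := h1.const_smul a
  have h3 : (fun c => (a : ℂ) * Y c) = fun c => a • Y c := by
    funext c; simp
  rw [dvc, dvc, h3, h2.fderiv]
  simp
  ring

theorem p0c_mul_TFc {D : Set ℂ} {Y : ℂ → ℂ} (hY : TFc D Y) (a : ℝ) :
    TFc D (fun c => (a : ℂ) * Y c) := by
  have hsub : tsupport (fun c => (a : ℂ) * Y c) ⊆ tsupport Y := by
    refine closure_mono ?_
    intro x hx hx0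
    exact hx (by simp [hx0])
  refine ⟨contDiff_const.mul hY.diff, ?_, hsub.trans hY.supp⟩
  refine hY.comp.mono ?_
  intro x hx hx0
  exact hx (by simp [hx0])

theorem p0c_Wp_nonneg (m : ℕ) (r : ℝ) : 0 ≤ Wp m r := pow_nonneg (wp_nonneg m r) m

/-- Test fields are bounded by the perimeter. -/
theorem p0c_le {m : ℕ} {A : Set ℂ} (hP : P0 m A ≠ ∞) {Z : ℂ → ℂ} (hZ : TFc (Dp m) Z)
    (hb : ∀ c, ‖Z c‖ ≤ Wp m ‖c‖) : ∫ c in A, dvc Z c ≤ (P0 m A).toReal := by
  have h1 : ENNReal.ofReal (∫ c in A, dvc Z c) ≤ P0 m A :=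
    le_iSup₂ (f := fun (Y : ℂ → ℂ) (_ : TFc (Dp m) Y ∧ ∀ c, ‖Y c‖ ≤ Wp m ‖c‖) =>
      ENNReal.ofReal (∫ c in A, dvc Y c)) Z ⟨hZ, hb⟩
  exact (ENNReal.ofReal_le_iff_le_toReal hP).1 h1

theorem p0c_bound {m : ℕ} (hm : 2 ≤ m) {A : Set ℂ} (hP : P0 m A ≠ ∞) {Y : ℂ → ℂ} {b : ℝ}
    (hY : TFc (Dp m) Y) (hb0 : 0 < b) (hb : ∀ c, ‖Y c‖ ≤ b) :
    ∫ c in A, dvW m Y c ≤ b * (P0 m A).toReal := by
  have h1 := sep_WY_TFc hm hY
  have h2 := p0c_mul_TFc h1 b⁻¹
  have h3 := p0c_le hP h2 (fun c => by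
    rw [norm_mul, norm_mul, Complex.norm_real, Complex.norm_real,
      Real.norm_of_nonneg (inv_nonneg.2 hb0.le), Real.norm_of_nonneg (p0c_Wp_nonneg m _)]
    calc b⁻¹ * (Wp m ‖c‖ * ‖Y c‖) ≤ b⁻¹ * (Wp m ‖c‖ * b) :=
          mul_le_mul_of_nonneg_left (mul_le_mul_of_nonneg_left (hb c) (p0c_Wp_nonneg m _))
            (inv_nonneg.2 hb0.le)
      _ = Wp m ‖c‖ := by field_simp)
  simp_rw [p0c_dvc_mul h1.diff] at h3
  rw [integral_const_mul, inv_mul_le_iff₀ hb0] at h3
  exact h3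

theorem p0c_Wp_contDiffAt {m : ℕ} (hm : 2 ≤ m) {c : ℂ} (hc : c ∈ Dp m) :
    ContDiffAt ℝ 2 (fun z : ℂ => Wp m ‖z‖) c := by
  have h1 : ‖c‖ < m := by simpa using hc.1
  have h0 : c ≠ 0 := hc.2
  have h2 : (fun z : ℂ => Wp m ‖z‖) =ᶠ[𝓝 c] fun z => (1 - ‖z‖ / m) ^ m := by
    have h3 := (continuous_norm.continuousAt (x := c)).eventually (sep_wp_eventually hm h1)
    filter_upwards [h3] with z hz
    simp only [Wp, hz]
  refine ContDiffAt.congr_of_eventuallyEq ?_ h2
  have h4 : ContDiffAt ℝ 2 (fun z : ℂ => ‖z‖) c := contDiffAt_norm ℝ h0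
  exact (contDiffAt_const.sub (h4.div_const _)).pow m

/-- Mollification of a test field. -/
theorem p0c_moll {D : Set ℂ} {Z : ℂ → ℂ} (hZ : TFc D Z) {K : Set ℂ} {r₀ ε : ℝ} (hr₀ : 0 < r₀)
    (hε : 0 < ε) (hK : Metric.cthickening r₀ (tsupport Z) ⊆ K) :
    ∃ Y : ℂ → ℂ, ContDiff ℝ 2 Y ∧ tsupport Y ⊆ K ∧ (∀ c, ‖Y c - Z c‖ ≤ ε) ∧
      ∀ c, |dvc Y c - dvc Z c| ≤ ε := by
  have hZc : Continuous Z := hZ.diff.continuous
  have hfc : ∀ v : ℂ, Continuous (fun c => fderiv ℝ Z c v) := fun v =>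
    (hZ.diff.continuous_fderiv one_ne_zero).clm_apply continuous_const
  have hfs : ∀ v : ℂ, HasCompactSupport (fun c => fderiv ℝ Z c v) := fun v =>
    (hZ.comp.fderiv ℝ).mono (fun x hx hx0 => hx (by simp [hx0]))
  obtain ⟨r1, hr1, hr1'⟩ := Metric.uniformContinuous_iff.1
    (hZ.comp.uniformContinuous_of_continuous hZc) ε hε
  obtain ⟨r2, hr2, hr2'⟩ := Metric.uniformContinuous_iff.1
    ((hfs 1).uniformContinuous_of_continuous (hfc 1)) (ε / 2) (half_pos hε)
  obtain ⟨r3, hr3, hr3'⟩ := Metric.uniformContinuous_iff.1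
    ((hfs Complex.I).uniformContinuous_of_continuous (hfc Complex.I)) (ε / 2) (half_pos hε)
  set r : ℝ := min (min r₀ r1) (min r2 r3) with hr
  have hrpos : 0 < r := lt_min (lt_min hr₀ hr1) (lt_min hr2 hr3)
  let φ : ContDiffBump (0 : ℂ) := ⟨r / 2, r, half_pos hrpos, half_lt_self hrpos⟩
  have hφr : φ.rOut = r := rfl
  have hloc : LocallyIntegrable Z volume := hZc.locallyIntegrable
  set Y : ℂ → ℂ := (φ.normed volume ⋆[ContinuousLinearMap.lsmul ℝ ℝ, volume] Z : ℂ → ℂ) with hY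
  have hYd : ContDiff ℝ 2 Y :=
    φ.hasCompactSupport_normed.contDiff_convolution_left _ φ.contDiff_normed hloc
  have hfd : ∀ x v : ℂ, fderiv ℝ Y x v =
      (φ.normed volume ⋆[ContinuousLinearMap.lsmul ℝ ℝ, volume] (fun a => fderiv ℝ Z a v) :
        ℂ → ℂ) x := by
    intro x v
    have hlocφ : LocallyIntegrable (φ.normed volume) volume :=
      φ.continuous_normed.locallyIntegrable
    have h1 := hZ.comp.hasFDerivAt_convolution_right (ContinuousLinearMap.lsmul ℝ ℝ) hlocφ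
      hZ.diff x
    rw [hY, h1.fderiv]
    exact convolution_precompR_apply (ContinuousLinearMap.lsmul ℝ ℝ) (μ := volume) hlocφ
      (hZ.comp.fderiv ℝ) (hZ.diff.continuous_fderiv one_ne_zero) x v
  refine ⟨Y, hYd, ?_, ?_, ?_⟩
  · have h1 : Function.support Y ⊆ Metric.cthickening r₀ (tsupport Z) := by
      intro x hx
      have h2 := support_convolution_subset (ContinuousLinearMap.lsmul ℝ ℝ) (μ := volume) hx
      obtain ⟨a, ha, b, hb, hab⟩ := Set.mem_add.1 h2
      rw [φ.support_normed_eq, mem_ball_zero_iff, hφr] at ha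
      refine Metric.mem_cthickening_of_dist_le x b r₀ (tsupport Z) (subset_tsupport _ hb) ?_
      rw [← hab, dist_eq_norm, add_sub_cancel_right]
      exact ha.le.trans ((min_le_left _ _).trans (min_le_left _ _))
    exact (closure_minimal h1 Metric.isClosed_cthickening).trans hK
  · intro c
    rw [← dist_eq_norm]
    refine φ.dist_normed_convolution_le hZc.aestronglyMeasurable fun x hx => ?_
    rw [Metric.mem_ball, hφr] at hx
    exact (hr1' (lt_of_lt_of_le hx ((min_le_left _ _).trans (min_le_right _ _)))).le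
  · intro c
    have h2 : dist (fderiv ℝ Y c 1) (fderiv ℝ Z c 1) ≤ ε / 2 := by
      rw [hfd]
      refine φ.dist_normed_convolution_le (g := fun a => fderiv ℝ Z a 1)
        (hfc 1).aestronglyMeasurable fun x hx => ?_
      rw [Metric.mem_ball, hφr] at hx
      exact (hr2' (lt_of_lt_of_le hx ((min_le_right _ _).trans (min_le_left _ _)))).le
    have h3 : dist (fderiv ℝ Y c Complex.I) (fderiv ℝ Z c Complex.I) ≤ ε / 2 := by
      rw [hfd]
      refine φ.dist_normed_convolution_le (g := fun a => fderiv ℝ Z a Complex.I)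
        (hfc Complex.I).aestronglyMeasurable fun x hx => ?_
      rw [Metric.mem_ball, hφr] at hx
      exact (hr3' (lt_of_lt_of_le hx ((min_le_right _ _).trans (min_le_right _ _)))).le
    rw [dist_eq_norm] at h2 h3
    have h4 : |(fderiv ℝ Y c 1).re - (fderiv ℝ Z c 1).re| ≤ ε / 2 := by
      rw [← Complex.sub_re]
      exact (Complex.abs_re_le_norm _).trans h2
    have h5 : |(fderiv ℝ Y c Complex.I).im - (fderiv ℝ Z c Complex.I).im| ≤ ε / 2 := by
      rw [← Complex.sub_im]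
      exact (Complex.abs_im_le_norm _).trans h3
    unfold dvc
    rw [abs_le] at h4 h5 ⊢
    constructor <;> linarith [h4.1, h4.2, h5.1, h5.2]

/-- Task T20. -/
theorem p0C2 : Stmt_P0C2 := by
  intro m A hm hA
  refine ⟨fun Y hY => sep_WY_TFc hm hY, ?_, ?_⟩
  · intro hP Y b hY hb
    have hb0 : 0 ≤ b := (norm_nonneg _).trans (hb 0)
    rcases hb0.eq_or_lt with hb0 | hb0
    · have hY0 : Y = fun _ => 0 := by
        funext c
        have := hb c
        rw [← hb0] at this
        exact norm_le_zero_iff.1 this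
      have h1 : ∀ c, dvW m Y c = 0 := by
        intro c
        rw [dvW, hY0]
        simp [dvc]
      simp [h1, ← hb0]
    · rw [abs_le]
      constructor
      · have hYn : TFc (Dp m) (fun c => ((-1 : ℝ) : ℂ) * Y c) := p0c_mul_TFc hY (-1)
        have h1 := p0c_bound hm hP hYn hb0 (fun c => by
          rw [norm_mul, Complex.norm_real, norm_neg, norm_one, one_mul]; exact hb c)
        have h2 : ∀ c, dvW m (fun c => ((-1 : ℝ) : ℂ) * Y c) c = - dvW m Y c := by
          intro c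
          have h3 := p0c_dvc_mul (sep_WY_TFc hm hY).diff (-1) c
          rw [dvW, dvW]
          rw [neg_one_mul] at h3
          rw [← h3]
          congr 1
          funext d
          ring
        simp_rw [h2] at h1
        rw [integral_neg] at h1
        linarith
      · exact p0c_bound hm hP hY hb0 hb
  · intro hP δ hδ
    -- a good test field
    have hZ0 : ∃ Z : ℂ → ℂ, TFc (Dp m) Z ∧ (∀ c, ‖Z c‖ ≤ Wp m ‖c‖) ∧
        (P0 m A).toReal ≤ (∫ c in A, dvc Z c) + δ / 2 := by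
      by_contra hcon
      push Not at hcon
      have h0 : TFc (Dp m) (fun _ => (0 : ℂ)) :=
        ⟨contDiff_const, HasCompactSupport.zero, by simp [tsupport]⟩
      have h1 := hcon (fun _ => (0 : ℂ)) h0 (fun c => by simpa using p0c_Wp_nonneg m _)
      have h2 : ∀ c, dvc (fun _ => (0 : ℂ)) c = 0 := fun c => by simp [dvc]
      simp_rw [h2] at h1
      rw [integral_zero, zero_add] at h1
      have h3 : P0 m A ≤ ENNReal.ofReal ((P0 m A).toReal - δ / 2) := by
        refine iSup₂_le fun Z hZ => ENNReal.ofReal_le_ofReal ?_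
        linarith [hcon Z hZ.1 hZ.2]
      have h4 := ENNReal.toReal_mono ENNReal.ofReal_ne_top h3
      rw [ENNReal.toReal_ofReal (by linarith)] at h4
      linarith
    obtain ⟨Z, hZ, hZW, hZP⟩ := hZ0
    have hopen : IsOpen (Dp m) := Metric.isOpen_ball.sdiff isClosed_singleton
    obtain ⟨r₀, hr₀, hr₀D⟩ := IsCompact.exists_cthickening_subset_open hZ.comp.isCompact
      hopen hZ.supp
    set K := Metric.cthickening r₀ (tsupport Z) with hK
    have hKc : IsCompact K := hZ.comp.isCompact.cthickening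
    have hWc : ContinuousOn (fun c : ℂ => Wp m ‖c‖) K := fun c hc =>
      (p0c_Wp_contDiffAt hm (hr₀D hc)).continuousAt.continuousWithinAt
    obtain ⟨w₀, hw₀, hw₀K⟩ := hKc.exists_forall_le' hWc (a := 0)
      (fun c hc => sep_Wp_pos hm (hr₀D hc))
    set I := ∫ c in A, dvc Z c with hI
    set v := (volume K).toReal with hv
    have hv0 : 0 ≤ v := ENNReal.toReal_nonneg
    have hden : 0 < 1 + v + (|I| + v) / w₀ := by positivity
    set ε := min 1 (δ / 2 / (1 + v + (|I| + v) / w₀)) with hε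
    have hε0 : 0 < ε := lt_min one_pos (by positivity)
    have hε1 : ε ≤ 1 := min_le_left _ _
    have hε2 : ε * (1 + v + (|I| + v) / w₀) ≤ δ / 2 := by
      rw [← le_div_iff₀ hden]; exact min_le_right _ _
    obtain ⟨Y1, hY1d, hY1s, hY1a, hY1b⟩ := p0c_moll hZ hr₀ hε0 (le_refl K)
    have hY1c : HasCompactSupport Y1 := hKc.of_isClosed_subset (isClosed_tsupport _) hY1s
    have hY1T : TFc (Dp m) Y1 := ⟨hY1d.of_le (by norm_num), hY1c, hY1s.trans hr₀D⟩
    set τ := ε / w₀ with hτ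
    have hτ0 : 0 < τ := div_pos hε0 hw₀
    have ha0 : (0 : ℝ) < (1 + τ)⁻¹ := by positivity
    have hY2T := p0c_mul_TFc hY1T ((1 + τ)⁻¹)
    have hY2W : ∀ c, ‖(((1 + τ)⁻¹ : ℝ) : ℂ) * Y1 c‖ ≤ Wp m ‖c‖ := by
      intro c
      by_cases hc : c ∈ K
      · rw [norm_mul, Complex.norm_real, Real.norm_of_nonneg ha0.le, inv_mul_le_iff₀ (by positivity)]
        have h1 : ‖Y1 c‖ ≤ ‖Z c‖ + ε := by
          have := norm_add_le (Z c) (Y1 c - Z c)
          rw [add_sub_cancel] at this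
          exact this.trans (by linarith [hY1a c])
        have h2 : ε ≤ τ * Wp m ‖c‖ := by
          rw [hτ, div_mul_eq_mul_div, le_div_iff₀ hw₀]
          exact mul_le_mul_of_nonneg_left (hw₀K c hc) hε0.le
        linarith [hZW c]
      · have : Y1 c = 0 := by
          by_contra hne
          exact hc (hY1s (subset_tsupport _ hne))
        rw [this, mul_zero, norm_zero]
        exact p0c_Wp_nonneg m _
    obtain ⟨Y, hY, hYb, hYeq⟩ := sep_exists_Y hm hY2T hY2W
    have hYd : ContDiff ℝ 2 Y := by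
      rw [contDiff_iff_contDiffAt]
      intro x
      by_cases hx : x ∈ tsupport Y
      · have hxD := hY.supp hx
        have h1 : ContDiffAt ℝ 2 (fun z : ℂ => ((Wp m ‖z‖ : ℝ) : ℂ)) x :=
          (Complex.ofRealCLM.contDiff.contDiffAt).comp x (p0c_Wp_contDiffAt hm hxD)
        have h2 : ((Wp m ‖x‖ : ℝ) : ℂ) ≠ 0 := by
          exact_mod_cast (sep_Wp_pos hm hxD).ne'
        have h3 : ContDiffAt ℝ 2 (fun c => ((Wp m ‖c‖ : ℝ) : ℂ)⁻¹ *
            ((((1 + τ)⁻¹ : ℝ) : ℂ) * Y1 c)) x :=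
          (h1.inv h2).mul (contDiffAt_const.mul hY1d.contDiffAt)
        refine h3.congr_of_eventuallyEq ?_
        filter_upwards [hopen.mem_nhds hxD] with y hy
        have h4 : ((Wp m ‖y‖ : ℝ) : ℂ) ≠ 0 := by
          exact_mod_cast (sep_Wp_pos hm hy).ne'
        have h5 : (((1 + τ)⁻¹ : ℝ) : ℂ) * Y1 y = ((Wp m ‖y‖ : ℝ) : ℂ) * Y y := congrFun hYeq y
        rw [h5, inv_mul_cancel_left₀ h4]
      · have h0 : Y =ᶠ[𝓝 x] 0 := notMem_tsupport_iff_eventuallyEq.mp hx
        exact ContDiffAt.congr_of_eventuallyEq contDiffAt_const h0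
    refine ⟨Y, hYd, hY, hYb, ?_⟩
    have hdvW : ∀ c, dvW m Y c = (1 + τ)⁻¹ * dvc Y1 c := by
      intro c
      rw [dvW, ← hYeq, p0c_dvc_mul hY1T.diff]
    simp_rw [hdvW]
    rw [integral_const_mul]
    set J := ∫ c in A, dvc Y1 c with hJ
    -- comparison of the integrals
    have hJI : |J - I| ≤ ε * v := by
      rw [hJ, hI, ← integral_sub (sep_dvc_integrable hY1T).integrableOn
        (sep_dvc_integrable hZ).integrableOn]
      have h0 : ∀ c, c ∉ K → dvc Y1 c - dvc Z c = 0 := by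
        intro c hc
        have h1 : Y1 =ᶠ[𝓝 c] 0 := notMem_tsupport_iff_eventuallyEq.mp fun h => hc (hY1s h)
        have h2 : Z =ᶠ[𝓝 c] 0 := notMem_tsupport_iff_eventuallyEq.mp fun h =>
          hc (Metric.self_subset_cthickening _ h)
        rw [dvc, dvc, h1.fderiv_eq, h2.fderiv_eq]
        simp
      have h1 : ∫ c in A, (dvc Y1 c - dvc Z c) = ∫ c in A ∩ K, (dvc Y1 c - dvc Z c) := by
        rw [← integral_indicator hA, ← integral_indicator (hA.inter hKc.isClosed.measurableSet)]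
        refine integral_congr_ae (Eventually.of_forall fun c => ?_)
        by_cases hc : c ∈ K
        · by_cases hcA : c ∈ A
          · simp [hc, hcA]
          · simp [hc, hcA]
        · simp [hc, h0 c hc]
      rw [h1, ← Real.norm_eq_abs]
      have hfinK : volume (A ∩ K) < ∞ := (measure_mono inter_subset_right).trans_lt hKc.measure_lt_top
      refine (norm_setIntegral_le_of_norm_le_const hfinK (fun c _ => hY1b c)).trans ?_
      refine mul_le_mul_of_nonneg_left ?_ hε0.le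
      exact ENNReal.toReal_mono hKc.measure_lt_top.ne (measure_mono inter_subset_right)
    rw [abs_le] at hJI
    have hJabs : |J| ≤ |I| + v := by
      have h1 : ε * v ≤ v := by nlinarith
      rw [abs_le]
      constructor
      · linarith [neg_abs_le I, hJI.1]
      · linarith [le_abs_self I, hJI.2]
    have h3 : J - τ * |J| ≤ (1 + τ)⁻¹ * J := by
      have h4 : (1 + τ)⁻¹ * J = J - τ * ((1 + τ)⁻¹ * J) := by
        field_simp
        ring
      rw [h4]
      have h5 : (1 + τ)⁻¹ * J ≤ |J| := by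
        calc (1 + τ)⁻¹ * J ≤ (1 + τ)⁻¹ * |J| := mul_le_mul_of_nonneg_left (le_abs_self _) ha0.le
          _ ≤ 1 * |J| := mul_le_mul_of_nonneg_right (inv_le_one_of_one_le₀ (by linarith))
            (abs_nonneg _)
          _ = |J| := one_mul _
      nlinarith
    have h6 : τ * |J| ≤ ε * ((|I| + v) / w₀) := by
      rw [hτ, div_mul_eq_mul_div, mul_div_assoc']
      exact div_le_div_of_nonneg_right (mul_le_mul_of_nonneg_left hJabs hε0.le) hw₀.le
    nlinarith [hJI.1, hZP]

end Pool.Agent.Lib.MP_c95dcf_gt
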