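import Pool.Agent.Lib.MP_c95dcf_gt.Mg.G002
import Pool.Agent.Lib.MP_c95dcf_gt.Mid

/-!
# MP_c95dcf_gt, task T14: the monotone piece of a minimiser
-/

set_option autoImplicit false

open MeasureTheory Set Filter Topology
open scoped ENNReal NNReal RealInnerProductSpace

namespace Pool.Agent.Lib.MP_c95dcf_gt

/-! ### The volume of `Ub m 1` -/

theorem pd_continuous_Wp (m : ℕ) : Continuous (fun c : ℂ => Wp m ‖c‖) := by
  unfold Wp wp
  fun_prop

theorem pd_Wp_nonneg (m : ℕ) (r : ℝ) : 0 ≤ Wp m r := pow_nonneg (wp_nonneg m r) _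

theorem pd_Wp_zero {m : ℕ} (hm : 0 < m) {r : ℝ} (hr : (m : ℝ) ≤ r) : Wp m r = 0 := by
  have h : ¬ 0 < wp m r := by rw [wp_pos_iff hm]; exact not_lt.2 hr
  have h0 : wp m r = 0 := le_antisymm (not_lt.1 h) (wp_nonneg m r)
  rw [Wp, h0, zero_pow (by omega)]

theorem pd_vol_Ub {m : ℕ} (hm : 0 < m) (hU : IsOpen (Ub m 1)) :
    (volume (Ub m 1)).toReal = vU m := by
  have h1 : volume (Ub m 1) = ∫⁻ c : ℂ, ENNReal.ofReal (Wp m ‖c‖) * om m := by
    have h2 : volume (Ub m 1) = ∫⁻ p : E (2 + m), (Ub m 1).indicator 1 p := by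
      rw [lintegral_indicator_one hU.measurableSet]
    rw [h2, lintegral_split _ (measurable_one.indicator hU.measurableSet)]
    refine lintegral_congr fun c => ?_
    have h3 : ∀ z : E m, (Ub m 1).indicator (1 : E (2 + m) → ℝ≥0∞) (jn c z) =
        (Metric.ball (0 : E m) (wp m ‖c‖)).indicator 1 z := by
      intro z
      by_cases hz : z ∈ Metric.ball (0 : E m) (wp m ‖c‖)
      · rw [indicator_of_mem hz, indicator_of_mem]
        · rfl
        · rw [mem_Ub_one hm, px_jn, pz_jn]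
          exact mem_ball_zero_iff.1 hz
      · rw [indicator_of_notMem hz, indicator_of_notMem]
        rw [mem_Ub_one hm, px_jn, pz_jn]
        exact fun h => hz (mem_ball_zero_iff.2 h)
    rw [lintegral_congr h3, lintegral_indicator_one Metric.isOpen_ball.measurableSet]
    rcases (wp_nonneg m ‖c‖).eq_or_lt with h0 | h0
    · rw [← h0, Metric.ball_zero, measure_empty, Wp, ← h0, zero_pow (by omega),
        ENNReal.ofReal_zero, zero_mul]
    · rw [Measure.addHaar_ball_of_pos _ _ h0, finrank_euclideanSpace_fin, Wp, om]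
  rw [h1, lintegral_mul_const _ (by
    exact ((pd_continuous_Wp m).measurable).ennreal_ofReal), ENNReal.toReal_mul, mul_comm, vU, omr]
  congr 1
  rw [V0, univ_inter, integral_eq_lintegral_of_nonneg_ae
    (Eventually.of_forall fun c => pd_Wp_nonneg m _)
    (pd_continuous_Wp m).aestronglyMeasurable]
  congr 1
  rw [← lintegral_indicator Metric.isOpen_ball.measurableSet]
  refine lintegral_congr fun c => ?_
  by_cases hc : c ∈ Metric.ball (0 : ℂ) (m : ℝ)
  · rw [indicator_of_mem hc]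
  · rw [indicator_of_notMem hc, pd_Wp_zero hm, ENNReal.ofReal_zero]
    rw [mem_ball_zero_iff, not_lt] at hc
    exact hc

/-! ### The penalisation -/

theorem pd_fT_lip {m : ℕ} {κ t : ℝ} (hκ : 0 < κ) (hκ1 : κ < 1) (a b : ℝ) :
    fT m κ t a - fT m κ t b ≤ |a - b| := by
  unfold fT
  rcases le_total a b with h | h
  · rw [abs_sub_comm, abs_of_nonneg (sub_nonneg.2 h)]
    have h1 : min b (omr m * t) - min a (omr m * t) ≤ b - a := by
      rcases le_total a (omr m * t) with h2 | h2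
      · rw [min_eq_left h2]; linarith [min_le_left b (omr m * t)]
      · rw [min_eq_right h2]; linarith [min_le_right b (omr m * t)]
    have h1' : 0 ≤ min b (omr m * t) - min a (omr m * t) :=
      sub_nonneg.2 (min_le_min_right _ h)
    have h2 : max 0 (a - vU m / 2) ≤ max 0 (b - vU m / 2) :=
      max_le_max_left _ (by linarith)
    nlinarith
  · rw [abs_of_nonneg (sub_nonneg.2 h)]
    have h1' : 0 ≤ min a (omr m * t) - min b (omr m * t) :=
      sub_nonneg.2 (min_le_min_right _ h)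
    have h2 : max 0 (a - vU m / 2) - max 0 (b - vU m / 2) ≤ a - b := by
      rcases le_total 0 (a - vU m / 2) with h3 | h3
      · rw [max_eq_right h3]; linarith [le_max_right 0 (b - vU m / 2)]
      · rw [max_eq_left h3]; linarith [le_max_left 0 (b - vU m / 2)]
    nlinarith

theorem pd_fT_anti {m : ℕ} {κ t : ℝ} (hκ : 0 < κ) {a b : ℝ} (hab : a ≤ b) (hb : b ≤ vU m / 2) :
    fT m κ t b ≤ fT m κ t a := by
  unfold fT
  rw [max_eq_left (by linarith : b - vU m / 2 ≤ 0)]
  have h1 : min a (omr m * t) ≤ min b (omr m * t) := min_le_min_right _ hab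
  have h2 : 0 ≤ max 0 (a - vU m / 2) := le_max_left _ _
  nlinarith

theorem pd_fT_diff {m : ℕ} {κ t : ℝ} (hκ : 0 < κ) (ht : 0 < t) {a g : ℝ} (hg : 0 ≤ g)
    (hga : g ≤ a) (ha : a ≤ vU m / 2) :
    fT m κ t (a - g) - fT m κ t a ≤ κ * min g (omr m * t) := by
  have hT : 0 ≤ omr m * t := mul_nonneg (omr_pos m).le ht.le
  unfold fT
  rw [max_eq_left (by linarith : a - vU m / 2 ≤ 0),
    max_eq_left (by linarith : a - g - vU m / 2 ≤ 0)]
  have h1 : min a (omr m * t) - min (a - g) (omr m * t) ≤ min g (omr m * t) := by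
    rcases le_total (a - g) (omr m * t) with h2 | h2
    · rw [min_eq_left h2]
      refine le_min ?_ ?_
      · linarith [min_le_left a (omr m * t)]
      · linarith [min_le_right a (omr m * t)]
    · rw [min_eq_right h2]
      have h3 : 0 ≤ min g (omr m * t) := le_min hg hT
      linarith [min_le_right a (omr m * t)]
  nlinarith

/-! ### The isoperimetric inequality in real numbers -/

theorem pd_iso {m : ℕ} {ε c' : ℝ} (hc' : 0 < c')
    (hiso : ∀ A : Set (E (2 + m)), MeasurableSet A →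
      ENNReal.ofReal c' * (min (volume (A ∩ Ub m 1)) (volume (Ub m 1 \ A))) ^
        (((m : ℝ) + 1) / (m + 2)) ≤ Pe m ε A)
    {O : Set (E (2 + m))} (hO : MeasurableSet O) (hOU : O ⊆ Ub m 1)
    (hle : volume O ≤ volume (Ub m 1 \ O)) (hfin : Pe m ε O ≠ ∞) :
    c' * (volume O).toReal ^ (((m : ℝ) + 1) / (m + 2)) ≤ (Pe m ε O).toReal := by
  have h := hiso O hO
  rw [inter_eq_left.2 hOU, min_eq_left hle] at h
  have h2 := ENNReal.toReal_mono hfin h
  rw [ENNReal.toReal_mul, ENNReal.toReal_ofReal hc'.le, ← ENNReal.toReal_rpow] at h2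
  exact h2

/-- The elementary inequality behind the choice of `δ` and `c`. -/
theorem pd_rpow {m : ℕ} {v : ℝ} (hv : 0 < v) :
    v ^ (((m : ℝ) + 1) / (m + 2)) * v ^ (1 / ((m : ℝ) + 2)) = v := by
  rw [← Real.rpow_add hv]
  have h : ((m : ℝ) + 1) / (m + 2) + 1 / ((m : ℝ) + 2) = 1 := by
    have : (0 : ℝ) < (m : ℝ) + 2 := by positivity
    field_simp
    ring
  rw [h, Real.rpow_one]

theorem pd_pow_le {m : ℕ} {b v : ℝ} (hb : 0 ≤ b) (hv : 0 ≤ v)
    (h : b ≤ v ^ (1 / ((m : ℝ) + 2))) : b ^ (m + 2) ≤ v := by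
  have h1 : b ^ (m + 2) ≤ (v ^ (1 / ((m : ℝ) + 2))) ^ (m + 2) := pow_le_pow_left₀ hb h _
  rw [← Real.rpow_natCast (v ^ (1 / ((m : ℝ) + 2))), ← Real.rpow_mul hv] at h1
  have h2 : 1 / ((m : ℝ) + 2) * ((m + 2 : ℕ) : ℝ) = 1 := by
    have : (0 : ℝ) < (m : ℝ) + 2 := by positivity
    push_cast
    field_simp
  rwa [h2, Real.rpow_one] at h1

theorem pd_le_of_pow {m : ℕ} {b v : ℝ} (hb : 0 ≤ b) (hv : 0 ≤ v)
    (h : v ≤ b ^ (m + 2)) : v ^ (1 / ((m : ℝ) + 2)) ≤ b := by
  have h1 : v ^ (1 / ((m : ℝ) + 2)) ≤ (b ^ (m + 2)) ^ (1 / ((m : ℝ) + 2)) :=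
    Real.rpow_le_rpow hv h (by positivity)
  rw [← Real.rpow_natCast b, ← Real.rpow_mul hb] at h1
  have h2 : ((m + 2 : ℕ) : ℝ) * (1 / ((m : ℝ) + 2)) = 1 := by
    have : (0 : ℝ) < (m : ℝ) + 2 := by positivity
    push_cast
    field_simp
  rwa [h2, Real.rpow_one] at h1

/-! ### The complement of a regular minimiser is connected in the weak sense -/

theorem pd_conn {m : ℕ} {κ t ε c' : ℝ} (hB : BHyp m κ t) (hε : 0 < ε) (hc' : 0 < c')
    (hU : IsOpen (Ub m 1)) (h3 : Stmt_PeProps)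
    (hiso : ∀ A : Set (E (2 + m)), MeasurableSet A →
      ENNReal.ofReal c' * (min (volume (A ∩ Ub m 1)) (volume (Ub m 1 \ A))) ^
        (((m : ℝ) + 1) / (m + 2)) ≤ Pe m ε A)
    (hmid : ∀ A : Set (E (2 + m)), MeasurableSet A → A ⊆ Ub m 1 →
    vU m / 4 ≤ (volume A).toReal → (volume A).toReal ≤ 3 / 4 * vU m →
      ENNReal.ofReal (κ * (omr m * t)) < Pe m ε A)
    {A : Set (E (2 + m))} (hmin : IsMinE m ε (fT m κ t) (A ∩ Ub m 1))
    (hvolA : (volume (A ∩ Ub m 1)).toReal < vU m / 4)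
    (hper : Pe m ε (A ∩ Ub m 1) ≤ ENNReal.ofReal (κ * (omr m * t)))
    {C₁ C₂ : Set (E (2 + m))} (hC₁ : IsOpen C₁) (hC₂ : IsOpen C₂) (hC : C₁ ∪ C₂ = Ub m 1 \ A)
    (hdis : closure C₁ ∩ closure C₂ ∩ Ub m 1 = ∅) (hne₁ : C₁.Nonempty) (hne₂ : C₂.Nonempty)
    (hle : volume C₁ ≤ volume C₂) : False := by
  have hm : 0 < m := by have := hB.hm; omega
  have hUfin := mid_vol_Ub_lt_top hm
  obtain ⟨-, hcompl, -, hadd, -, -, -⟩ := h3 m ε hB.hm hε
  have hC₁U : C₁ ⊆ Ub m 1 := fun x hx => (hC.subset (Or.inl hx)).1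
  have hC₂U : C₂ ⊆ Ub m 1 := fun x hx => (hC.subset (Or.inr hx)).1
  have hC₁A : Disjoint C₁ A := by
    rw [Set.disjoint_left]; exact fun x hx => (hC.subset (Or.inl hx)).2
  have hC₂A : Disjoint C₂ A := by
    rw [Set.disjoint_left]; exact fun x hx => (hC.subset (Or.inr hx)).2
  have hCC : Disjoint C₁ C₂ := by
    rw [Set.disjoint_left]
    intro x h1 h2
    have : x ∈ closure C₁ ∩ closure C₂ ∩ Ub m 1 :=
      ⟨⟨subset_closure h1, subset_closure h2⟩, hC₁U h1⟩
    rw [hdis] at this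
    exact this
  have hsum : Pe m ε (A ∩ Ub m 1) = Pe m ε C₁ + Pe m ε C₂ := by
    rw [← hadd C₁ C₂ hC₁.measurableSet hC₂.measurableSet
      (by rw [inter_eq_left.2 hC₁U, inter_eq_left.2 hC₂U]; exact hdis), hC,
      ← hcompl (A ∩ Ub m 1) hmin.meas]
    congr 1
    ext x
    constructor
    · rintro ⟨h1, h2⟩; exact ⟨h1, fun h => h2 ⟨h, h1⟩⟩
    · rintro ⟨h1, h2⟩; exact ⟨h1, fun h => h2 h.1⟩
  have hfin := hmin.fin
  have hfin' : Pe m ε C₁ + Pe m ε C₂ ≠ ∞ := hsum ▸ hfin
  have hf₁ : Pe m ε C₁ ≠ ∞ := (ENNReal.add_ne_top.1 hfin').1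
  have hf₂ : Pe m ε C₂ ≠ ∞ := (ENNReal.add_ne_top.1 hfin').2
  have hv₁ : volume C₁ ≠ ∞ := ((measure_mono hC₁U).trans_lt hUfin).ne
  have hv₂ : volume C₂ ≠ ∞ := ((measure_mono hC₂U).trans_lt hUfin).ne
  have hvA : volume (A ∩ Ub m 1) ≠ ∞ := ((measure_mono inter_subset_right).trans_lt hUfin).ne
  -- volumes
  have hunion : Ub m 1 = (C₁ ∪ C₂) ∪ (A ∩ Ub m 1) := by
    rw [hC]
    ext x
    constructor
    · intro h
      by_cases hx : x ∈ A
      · exact Or.inr ⟨hx, h⟩
      · exact Or.inl ⟨h, hx⟩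
    · rintro (h | h)
      · exact h.1
      · exact h.2
  have hvol : vU m = (volume C₁).toReal + (volume C₂).toReal + (volume (A ∩ Ub m 1)).toReal := by
    rw [← pd_vol_Ub hm hU]
    conv_lhs => rw [hunion]
    rw [measure_union _ hmin.meas, measure_union hCC hC₂.measurableSet,
      ENNReal.toReal_add (ENNReal.add_ne_top.2 ⟨hv₁, hv₂⟩) hvA, ENNReal.toReal_add hv₁ hv₂]
    rw [Set.disjoint_left]
    rintro x (h | h) hx
    · exact (Set.disjoint_left.1 hC₁A) h hx.1
    · exact (Set.disjoint_left.1 hC₂A) h hx.1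
  have hle' : (volume C₁).toReal ≤ (volume C₂).toReal := ENNReal.toReal_mono hv₂ hle
  have hpos₁ : 0 < volume C₁ := hC₁.measure_pos _ hne₁
  have hpos₂ : 0 < volume C₂ := hC₂.measure_pos _ hne₂
  have hv1 : (volume C₁).toReal < vU m / 4 := by
    by_contra hcon
    push Not at hcon
    have h1 := hmid C₁ hC₁.measurableSet hC₁U hcon (by
      have : 0 ≤ (volume (A ∩ Ub m 1)).toReal := ENNReal.toReal_nonneg
      have : 0 ≤ (volume C₁).toReal := ENNReal.toReal_nonneg
      linarith)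
    have h2 : Pe m ε C₁ ≤ Pe m ε (A ∩ Ub m 1) := hsum ▸ le_self_add
    exact absurd (h1.trans_le (h2.trans hper)) (lt_irrefl _)
  -- the competitor
  have hB' : (A ∩ Ub m 1) ∪ C₁ = Ub m 1 \ C₂ := by
    ext x
    constructor
    · rintro (h | h)
      · exact ⟨h.2, fun h2 => (Set.disjoint_left.1 hC₂A) h2 h.1⟩
      · exact ⟨hC₁U h, fun h2 => (Set.disjoint_left.1 hCC) h h2⟩
    · rintro ⟨h1, h2⟩
      rw [hunion] at h1
      rcases h1 with (h | h) | h
      · exact Or.inr h
      · exact absurd h h2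
      · exact Or.inl h
  have hPB : Pe m ε ((A ∩ Ub m 1) ∪ C₁) = Pe m ε C₂ := by
    rw [hB', hcompl C₂ hC₂.measurableSet]
  have hvB : (volume ((A ∩ Ub m 1) ∪ C₁)).toReal =
      (volume (A ∩ Ub m 1)).toReal + (volume C₁).toReal := by
    rw [measure_union _ hC₁.measurableSet, ENNReal.toReal_add hvA hv₁]
    exact (hC₁A.symm).mono_left inter_subset_left
  have hkey := hmin.le ((A ∩ Ub m 1) ∪ C₁) (hmin.meas.union hC₁.measurableSet)
    (union_subset inter_subset_right hC₁U) (by rw [hPB]; exact hf₂)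
  rw [hPB, hvB, hsum, ENNReal.toReal_add hf₁ hf₂] at hkey
  have hanti := pd_fT_anti (m := m) (t := t) hB.κ_pos
    (a := (volume (A ∩ Ub m 1)).toReal)
    (b := (volume (A ∩ Ub m 1)).toReal + (volume C₁).toReal)
    (by linarith [ENNReal.toReal_nonneg (a := volume C₁)]) (by linarith)
  have hz : (Pe m ε C₁).toReal ≤ 0 := by linarith
  have hz' : Pe m ε C₁ = 0 := by
    have := le_antisymm hz ENNReal.toReal_nonneg
    rcases (ENNReal.toReal_eq_zero_iff _).1 this with h | h
    · exact h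
    · exact absurd h hf₁
  have h4 := hiso C₁ hC₁.measurableSet
  rw [hz', nonpos_iff_eq_zero, mul_eq_zero] at h4
  rcases h4 with h4 | h4
  · rw [ENNReal.ofReal_eq_zero] at h4
    linarith
  · rw [ENNReal.rpow_eq_zero_iff_of_pos (by positivity)] at h4
    have h5 : 0 < min (volume (C₁ ∩ Ub m 1)) (volume (Ub m 1 \ C₁)) := by
      refine lt_min ?_ ?_
      · rw [inter_eq_left.2 hC₁U]; exact hpos₁
      · refine hpos₂.trans_le (measure_mono ?_)
        intro x hx
        exact ⟨hC₂U hx, fun h => (Set.disjoint_left.1 hCC) h hx⟩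
    rw [h4] at h5
    exact lt_irrefl _ h5

/-! ### The monotone piece -/

theorem pieceD_stmt (h1 : Stmt_MinVol) (h2 : Stmt_Mid) (h3 : Stmt_PeProps) (h4 : Stmt_PeIso)
    (h5 : Stmt_Piece) (h6 : Stmt_Body) : Stmt_PieceD := by
  intro m κ t hB
  have hm2 := hB.hm
  have hm : 0 < m := by omega
  obtain ⟨-, -, -, -, -, hU, hconv, -⟩ := h6 m 1 (by omega) one_pos
  have hUfin := mid_vol_Ub_lt_top hm
  obtain ⟨ε₁, hε₁, hε₁1, hminvol⟩ := h1 m κ t hB
  obtain ⟨ε₂, hε₂, -, hmid⟩ := h2 m κ t hB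
  obtain ⟨c', hc', hisoAll⟩ := h4 m hm2
  have hκ := hB.κ_pos
  have hκ1 := hB.κ_lt
  have ht := hB.t_pos
  have hT : 0 ≤ omr m * t := mul_nonneg (omr_pos m).le ht.le
  have hV : 0 < vU m := by
    refine mul_pos (omr_pos m) ?_
    have := hB.t_le
    linarith
  have hvolU := pd_vol_Ub hm hU
  refine ⟨min ε₁ ε₂, (c' / κ) ^ (m + 2), min (vU m / 2) (c' ^ (m + 2)), lt_min hε₁ hε₂,
    (min_le_left _ _).trans hε₁1, by positivity, by positivity, ?_⟩
  intro ε hε hεlt A e hbad
  have hεlt₁ : ε < ε₁ := hεlt.trans_le (min_le_left _ _)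
  have hεlt₂ : ε < ε₂ := hεlt.trans_le (min_le_right _ _)
  have hε1 : ε ≤ 1 := (hεlt₁.trans_le hε₁1).le
  have hiso := hisoAll ε hε hε1
  have hmin := hbad.mini
  have hgr := hbad.gr
  obtain ⟨ha0, haV, haP⟩ := hminvol ε hε hεlt₁ _ hmin
  have hmid' := hmid ε hε hεlt₂
  have hperT : Pe m ε (A ∩ Ub m 1) ≤ ENNReal.ofReal (κ * (omr m * t)) :=
    haP.trans (ENNReal.ofReal_le_ofReal (mul_le_mul_of_nonneg_left (min_le_right _ _) hκ.le))
  obtain ⟨-, hcompl, hsubm, hadd, -, -, -⟩ := h3 m ε hm2 hε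
  have hvA : volume (A ∩ Ub m 1) ≠ ∞ := ((measure_mono inter_subset_right).trans_lt hUfin).ne
  have hAne : (A ∩ Ub m 1).Nonempty := by
    by_contra hne
    rw [not_nonempty_iff_eq_empty] at hne
    rw [hne, measure_empty, ENNReal.toReal_zero] at ha0
    exact lt_irrefl _ ha0
  have hnsub : ¬ (Ub m 1 ⊆ A) := by
    intro hsub
    rw [inter_eq_right.2 hsub, hvolU] at haV
    linarith
  obtain ⟨G, σ, hGA, hGm, hGint, hσ, hGcl, hGmono⟩ := h5 (2 + m) (Ub m 1) A e hU hconv hgr hAne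
    hnsub (by
      intro C₁ C₂ hC₁ hC₂ hC hdis
      by_contra hcon
      push Not at hcon
      obtain ⟨hne₁, hne₂⟩ := hcon
      rcases le_total (volume C₁) (volume C₂) with hle | hle
      · exact pd_conn hB hε hc' hU h3 hiso hmid' hmin haV hperT hC₁ hC₂ hC hdis
          hne₁
          hne₂ hle
      · exact pd_conn hB hε hc' hU h3 hiso hmid' hmin haV hperT hC₂ hC₁
          (by rw [union_comm]; exact hC) (by rw [inter_comm (closure C₂)]; exact hdis)
          hne₂
          hne₁ hle)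
  -- the piece and the rest
  set A' := A ∩ Ub m 1 with hA'
  have hA'U : A' ⊆ Ub m 1 := inter_subset_right
  set R := A' \ G with hR
  have hRU : R ⊆ Ub m 1 := fun x hx => hA'U hx.1
  have hGU : G ⊆ Ub m 1 := hGA.trans hA'U
  have hRm : MeasurableSet R := hmin.meas.diff hGm
  have hGR : G ∪ R = A' := by rw [hR, union_sdiff_self, union_eq_right.2 hGA]
  have hvG : volume G ≠ ∞ := ((measure_mono hGU).trans_lt hUfin).ne
  have hvR : volume R ≠ ∞ := ((measure_mono hRU).trans_lt hUfin).ne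
  have hsum : Pe m ε A' = Pe m ε G + Pe m ε R := by
    rw [← hadd G R hGm hRm (by rw [inter_eq_left.2 hGU, inter_eq_left.2 hRU]; exact hGcl), hGR]
  have hfin' : Pe m ε G + Pe m ε R ≠ ∞ := hsum ▸ hmin.fin
  have hfG : Pe m ε G ≠ ∞ := (ENNReal.add_ne_top.1 hfin').1
  have hfR : Pe m ε R ≠ ∞ := (ENNReal.add_ne_top.1 hfin').2
  have hvsum : (volume A').toReal = (volume G).toReal + (volume R).toReal := by
    rw [← hGR, measure_union (by rw [hR]; exact disjoint_sdiff_right) hRm,
      ENNReal.toReal_add hvG hvR]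
  have hG0 : 0 ≤ (volume G).toReal := ENNReal.toReal_nonneg
  have hR0 : 0 ≤ (volume R).toReal := ENNReal.toReal_nonneg
  have hGpos : 0 < (volume G).toReal := by
    refine ENNReal.toReal_pos ?_ hvG
    have h := (isOpen_interior.measure_pos volume hGint)
    exact (h.trans_le (measure_mono interior_subset)).ne'
  -- perimeter of the piece
  have hperG : (Pe m ε G).toReal ≤ κ * min (volume G).toReal (omr m * t) := by
    have hkey := hmin.le R hRm hRU hfR
    rw [hsum, ENNReal.toReal_add hfG hfR] at hkey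
    have hd := pd_fT_diff (m := m) hκ ht (a := (volume A').toReal) (g := (volume G).toReal) hG0
      (by linarith) (by linarith)
    have hRa : (volume A').toReal - (volume G).toReal = (volume R).toReal := by linarith
    rw [hRa] at hd
    linarith
  have hperG' : Pe m ε G ≤ ENNReal.ofReal (κ * min (volume G).toReal (omr m * t)) := by
    rw [← ENNReal.ofReal_toReal hfG]
    exact ENNReal.ofReal_le_ofReal hperG
  -- small sets satisfy the isoperimetric inequality in U
  have hhalf : ∀ O : Set (E (2 + m)), MeasurableSet O → O ⊆ Ub m 1 →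
      (volume O).toReal ≤ vU m / 2 → volume O ≤ volume (Ub m 1 \ O) := by
    intro O hO hOU hOv
    have hvO : volume O ≠ ∞ := ((measure_mono hOU).trans_lt hUfin).ne
    have h1 := measure_sdiff_add_inter (μ := volume) (Ub m 1) hO
    rw [inter_eq_right.2 hOU] at h1
    have hvD : volume (Ub m 1 \ O) ≠ ∞ := ((measure_mono sdiff_subset).trans_lt hUfin).ne
    have h2 := congrArg ENNReal.toReal h1
    rw [ENNReal.toReal_add hvD hvO, hvolU] at h2
    rw [← ENNReal.toReal_le_toReal hvO hvD]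
    linarith
  refine ⟨G, ⟨hmin, hGm, hGA, hGcl, haV.le, ?_, hperG', ?_, ?_⟩⟩
  · -- lower bound for the volume
    have h1 := pd_iso hc' hiso hGm hGU (hhalf G hGm hGU (by linarith)) hfG
    have h2 : c' * (volume G).toReal ^ (((m : ℝ) + 1) / (m + 2)) ≤ κ * (volume G).toReal :=
      h1.trans (hperG.trans (mul_le_mul_of_nonneg_left (min_le_left _ _) hκ.le))
    have h3 := pd_rpow (m := m) hGpos
    have hp : 0 < (volume G).toReal ^ (((m : ℝ) + 1) / (m + 2)) := Real.rpow_pos_of_pos hGpos _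
    refine pd_pow_le (by positivity) hG0 ?_
    rw [div_le_iff₀ hκ]
    refine le_of_mul_le_mul_left ?_ hp
    calc (volume G).toReal ^ (((m : ℝ) + 1) / (m + 2)) * c'
        = c' * (volume G).toReal ^ (((m : ℝ) + 1) / (m + 2)) := mul_comm _ _
      _ ≤ κ * (volume G).toReal := h2
      _ = κ * ((volume G).toReal ^ (((m : ℝ) + 1) / (m + 2)) *
            (volume G).toReal ^ (1 / ((m : ℝ) + 2))) := by rw [h3]
      _ = _ := by ring
  · -- quasi-minimality
    intro F' hF' hF'U hF'd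
    by_cases hfF : Pe m ε F' = ∞
    · rw [hfF, top_add]; exact le_top
    set O := F' ∩ R with hO
    have hOm : MeasurableSet O := hF'.inter hRm
    have hOU : O ⊆ Ub m 1 := fun x hx => hF'U hx.1
    have hvF : volume F' ≠ ∞ := ((measure_mono hF'U).trans_lt hUfin).ne
    have hvO : volume O ≠ ∞ := ((measure_mono hOU).trans_lt hUfin).ne
    have hOd : (volume O).toReal ≤ min (vU m / 2) (c' ^ (m + 2)) := by
      refine ENNReal.toReal_le_of_le_ofReal (by positivity) ((measure_mono ?_).trans hF'd)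
      intro x hx
      exact ⟨hx.1, hx.2.2⟩
    have hO0 : 0 ≤ (volume O).toReal := ENNReal.toReal_nonneg
    have hsub := hsubm F' R hF' hRm
    have hfsum : Pe m ε F' + Pe m ε R ≠ ∞ := ENNReal.add_ne_top.2 ⟨hfF, hfR⟩
    have hfO : Pe m ε O ≠ ∞ := ne_top_of_le_ne_top hfsum (le_add_self.trans hsub)
    have hfB : Pe m ε (F' ∪ R) ≠ ∞ := ne_top_of_le_ne_top hfsum (le_self_add.trans hsub)
    have hsub' : (Pe m ε (F' ∪ R)).toReal + (Pe m ε O).toReal ≤
        (Pe m ε F').toReal + (Pe m ε R).toReal := by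
      have h := ENNReal.toReal_mono hfsum hsub
      rw [ENNReal.toReal_add hfF hfR, ENNReal.toReal_add hfB hfO] at h
      exact h
    have hPO : (volume O).toReal ≤ (Pe m ε O).toReal := by
      rcases hO0.eq_or_lt with h0 | h0
      · rw [← h0]; exact ENNReal.toReal_nonneg
      · have h1 := pd_iso hc' hiso hOm hOU (hhalf O hOm hOU (hOd.trans (min_le_left _ _))) hfO
        have h3 := pd_rpow (m := m) h0
        have h4 := pd_le_of_pow (m := m) hc'.le hO0 (hOd.trans (min_le_right _ _))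
        have hp : 0 ≤ (volume O).toReal ^ (((m : ℝ) + 1) / (m + 2)) := Real.rpow_nonneg hO0 _
        calc (volume O).toReal = (volume O).toReal ^ (((m : ℝ) + 1) / (m + 2)) *
              (volume O).toReal ^ (1 / ((m : ℝ) + 2)) := h3.symm
          _ ≤ (volume O).toReal ^ (((m : ℝ) + 1) / (m + 2)) * c' :=
              mul_le_mul_of_nonneg_left h4 hp
          _ = c' * (volume O).toReal ^ (((m : ℝ) + 1) / (m + 2)) := mul_comm _ _
          _ ≤ _ := h1
    have hkey := hmin.le (F' ∪ R) (hF'.union hRm) (union_subset hF'U hRU) hfB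
    rw [hsum, ENNReal.toReal_add hfG hfR] at hkey
    have hvB : (volume (F' ∪ R)).toReal + (volume O).toReal =
        (volume F').toReal + (volume R).toReal := by
      have h := measure_union_add_inter (μ := volume) F' hRm
      have hvU' : volume (F' ∪ R) ≠ ∞ :=
        ((measure_mono (union_subset hF'U hRU)).trans_lt hUfin).ne
      have h' := congrArg ENNReal.toReal h
      rw [ENNReal.toReal_add hvU' hvO, ENNReal.toReal_add hvF hvR] at h'
      exact h'
    have hlip := pd_fT_lip (m := m) (t := t) hκ hκ1 (volume (F' ∪ R)).toReal (volume A').toReal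
    have habs : |(volume (F' ∪ R)).toReal - (volume A').toReal| ≤
        |(volume F').toReal - (volume G).toReal| + (volume O).toReal := by
      have h : (volume (F' ∪ R)).toReal - (volume A').toReal =
          ((volume F').toReal - (volume G).toReal) - (volume O).toReal := by linarith
      rw [h]
      refine (abs_sub _ _).trans ?_
      rw [abs_of_nonneg hO0]
    have hfinal : (Pe m ε G).toReal ≤ (Pe m ε F').toReal +
        |(volume F').toReal - (volume G).toReal| := by linarith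
    rw [← ENNReal.ofReal_toReal hfG]
    refine (ENNReal.ofReal_le_ofReal hfinal).trans ?_
    rw [ENNReal.ofReal_add ENNReal.toReal_nonneg (abs_nonneg _), ENNReal.ofReal_toReal hfF]
  · -- monotonicity
    refine ⟨σ • e, ?_, ?_⟩
    · have hσ0 : σ ≠ 0 := by rcases hσ with h | h <;> rw [h] <;> norm_num
      exact smul_ne_zero hσ0 hgr.ne
    · intro x hx s hs hxs
      rw [smul_smul] at hxs ⊢
      exact hGmono x hx s hs hxs

end Pool.Agent.Lib.MP_c95dcf_gt
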