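import Pool.Agent.Lib.MP_c95dcf_gt.Mg.G002

/-!
# MP_c95dcf_gt, task T22: convergence to the product structure
-/

set_option autoImplicit false

open MeasureTheory Set Filter Topology
open scoped ENNReal NNReal RealInnerProductSpace

namespace Pool.Agent.Lib.MP_c95dcf_gt

section pcv

variable {m : ℕ}

theorem pcv_continuous_wp (m : ℕ) : Continuous (wp m) := by
  unfold wp
  fun_prop

theorem pcv_measurable_wp (m : ℕ) : Measurable (wp m) := (pcv_continuous_wp m).measurable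

theorem pcv_measurable_zt (m : ℕ) : Measurable (zt m) := by
  unfold zt
  have h1 : Measurable fun p : E (2 + m) => (wp m ‖px p‖)⁻¹ :=
    ((pcv_measurable_wp m).comp measurable_px.norm).inv
  exact h1.smul measurable_pz

theorem pcv_measurable_gw (m : ℕ) : Measurable (gw m) := by
  unfold gw
  have h1 : Measurable fun c : ℂ => (m : ℂ) * (‖c‖ : ℂ) :=
    measurable_const.mul (Complex.measurable_ofReal.comp measurable_norm)
  exact (measurable_id.div h1).neg

theorem pcv_norm_gw (hm : 2 ≤ m) (c : ℂ) : ‖gw m c‖ ≤ 1 := by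
  have hm' : (1 : ℝ) ≤ m := by exact_mod_cast (by omega : 1 ≤ m)
  unfold gw
  rw [norm_neg, norm_div, norm_mul, Complex.norm_natCast, Complex.norm_real, norm_norm]
  rcases eq_or_ne c 0 with h | h
  · subst h; simp
  · have hc : 0 < ‖c‖ := norm_pos_iff.2 h
    rw [div_le_one (by positivity)]
    nlinarith

theorem pcv_volume_Ub (hm : 2 ≤ m) : volume (Ub m 1) ≠ ∞ := by
  have hsub : Ub m 1 ⊆ Metric.closedBall (0 : E (2 + m)) (m + 1) := by
    intro p hp
    rw [mem_closedBall_zero_iff]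
    have h1 : ‖px p‖ < m := px_lt_of_mem (by omega) hp
    have h2 : ‖pz p‖ < wp m ‖px p‖ := (mem_Ub_one (by omega) p).1 hp
    have h3 : wp m ‖px p‖ ≤ 1 := by
      unfold wp
      apply max_le zero_le_one
      have : 0 ≤ ‖px p‖ / m := by positivity
      linarith
    have h4 := norm_jn_le (px p) (pz p)
    rw [jn_px_pz] at h4
    linarith
  exact ((measure_mono hsub).trans_lt measure_closedBall_lt_top).ne

/-- Properties of the members of the sequence. -/
theorem pcv_ae_zt (hm : 2 ≤ m) {ε : ℕ → ℝ} {F : ℕ → Set (E (2 + m))} {F0 : Set ℂ}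
    {lam : ℕ → Measure (E (2 + m))} {ν : ℕ → E (2 + m) → E (2 + m)}
    (H : LimD m ε F F0 lam ν) (j : ℕ) : ∀ᵐ p ∂(lam j), ‖zt m p‖ < 1 := by
  have h := (H.rep j).null
  have h2 : ∀ᵐ p ∂(lam j), p ∈ Ub m 1 := by
    rw [ae_iff]
    exact h
  filter_upwards [h2] with p hp
  exact norm_zt_lt (by omega) hp

theorem pcv_px_unit {ε : ℕ → ℝ} {F : ℕ → Set (E (2 + m))} {F0 : Set ℂ}
    {lam : ℕ → Measure (E (2 + m))} {ν : ℕ → E (2 + m) → E (2 + m)}
    (H : LimD m ε F F0 lam ν) (j : ℕ) (p : E (2 + m)) : ‖px (ν j p)‖ ≤ 1 :=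
  (norm_px_le _).trans ((H.rep j).unit p).le

theorem pcv_pz_unit {ε : ℕ → ℝ} {F : ℕ → Set (E (2 + m))} {F0 : Set ℂ}
    {lam : ℕ → Measure (E (2 + m))} {ν : ℕ → E (2 + m) → E (2 + m)}
    (H : LimD m ε F F0 lam ν) (j : ℕ) (p : E (2 + m)) : ‖pz (ν j p)‖ ≤ 1 :=
  (norm_pz_le _).trans ((H.rep j).unit p).le

theorem pcv_mass {ε : ℕ → ℝ} {F : ℕ → Set (E (2 + m))} {F0 : Set ℂ}
    {lam : ℕ → Measure (E (2 + m))} {ν : ℕ → E (2 + m) → E (2 + m)}
    (H : LimD m ε F F0 lam ν) : ∃ M : ℝ, 0 ≤ M ∧ ∀ j, (lam j univ).toReal ≤ M := by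
  obtain ⟨M, hM⟩ := H.strict.bddAbove_range
  refine ⟨max M 0, le_max_right _ _, fun j => ?_⟩
  exact (hM ⟨j, rfl⟩).trans (le_max_left _ _)

/-- A continuous function with compact support is bounded. -/
theorem pcv_bdd {α β : Type*} [TopologicalSpace α] [NormedAddCommGroup β] {Y : α → β}
    (h1 : Continuous Y) (h2 : HasCompactSupport Y) : ∃ b : ℝ, 0 ≤ b ∧ ∀ c, ‖Y c‖ ≤ b := by
  obtain ⟨b, hb⟩ := h2.exists_bound_of_continuous h1
  exact ⟨max b 0, le_max_right _ _, fun c => (hb c).trans (le_max_left _ _)⟩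

/-- A continuous function is bounded on the closed unit ball. -/
theorem pcv_bdd_ball {η : E m → ℝ} (h1 : Continuous η) :
    ∃ b : ℝ, 0 ≤ b ∧ ∀ ζ, ‖ζ‖ ≤ 1 → |η ζ| ≤ b := by
  obtain ⟨b, hb⟩ := (isCompact_closedBall (0 : E m) 1).exists_bound_of_continuousOn
    h1.continuousOn
  refine ⟨max b 0, le_max_right _ _, fun ζ hζ => ?_⟩
  exact (hb ζ (mem_closedBall_zero_iff.2 hζ)).trans (le_max_left _ _)

theorem pcv_dvW_zero {Y : ℂ → ℂ} {c : ℂ} (hc : c ∉ tsupport Y) : dvW m Y c = 0 := by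
  have h1 : (fun c => ((Wp m ‖c‖ : ℝ) : ℂ) * Y c) =ᶠ[𝓝 c] fun _ => 0 := by
    have h2 : ∀ᶠ x in 𝓝 c, Y x = 0 := by
      have h3 := (isClosed_tsupport Y).isOpen_compl.mem_nhds hc
      filter_upwards [h3] with x hx
      exact image_eq_zero_of_notMem_tsupport hx
    filter_upwards [h2] with x hx
    rw [hx, mul_zero]
  unfold dvW dvc
  rw [h1.fderiv_eq]
  simp

theorem pcv_dvW_cont {Y : ℂ → ℂ}
    (h : TFc (Dp m) (fun c => ((Wp m ‖c‖ : ℝ) : ℂ) * Y c)) : Continuous (dvW m Y) := by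
  have h1 := h.diff.continuous_fderiv (by norm_num)
  unfold dvW dvc
  exact (Complex.continuous_re.comp (h1.clm_apply continuous_const)).add
    (Complex.continuous_im.comp (h1.clm_apply continuous_const))

theorem pcv_mem_Dp {c : ℂ} (h : c ∈ Dp m) : ‖c‖ < m := by
  have := h.1
  rwa [mem_ball_zero_iff] at this

/-- The quotient `div (W Y) / W` is bounded. -/
theorem pcv_dvW_bdd (hm : 2 ≤ m) {Y : ℂ → ℂ} (hY : TFc (Dp m) Y)
    (h : TFc (Dp m) (fun c => ((Wp m ‖c‖ : ℝ) : ℂ) * Y c)) :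
    ∃ C : ℝ, 0 ≤ C ∧ ∀ c, |dvW m Y c / Wp m ‖c‖| ≤ C := by
  have hW : ∀ c ∈ tsupport Y, Wp m ‖c‖ ≠ 0 := by
    intro c hc
    have h1 := pcv_mem_Dp (hY.supp hc)
    have h2 := (wp_of_lt (by omega : 0 < m) h1).2
    exact (pow_pos h2 m).ne'
  have hWc : Continuous fun c : ℂ => Wp m ‖c‖ := by
    unfold Wp
    exact ((pcv_continuous_wp m).comp continuous_norm).pow m
  have h1 : ContinuousOn (fun c => dvW m Y c / Wp m ‖c‖) (tsupport Y) :=
    (pcv_dvW_cont h).continuousOn.div hWc.continuousOn hW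
  obtain ⟨b, hb⟩ := (show IsCompact (tsupport Y) from hY.comp).exists_bound_of_continuousOn h1
  refine ⟨max b 0, le_max_right _ _, fun c => ?_⟩
  by_cases hc : c ∈ tsupport Y
  · exact (hb c hc).trans (le_max_left _ _)
  · rw [pcv_dvW_zero hc]; simp

/-- The difference of the integrals of a bounded function over two sets. -/
theorem pcv_int_diff {g : E (2 + m) → ℝ} {C : ℝ} (hg : Measurable g)
    (hC : ∀ p, |g p| ≤ C) {A B : Set (E (2 + m))} (hA : MeasurableSet A) (hB : MeasurableSet B)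
    (hAf : volume A ≠ ∞) (hBf : volume B ≠ ∞) :
    |(∫ p in A, g p) - ∫ p in B, g p| ≤ C * (volume (symmDiff A B)).toReal := by
  have hC0 : 0 ≤ C := (abs_nonneg _).trans (hC 0)
  have hint : ∀ S : Set (E (2 + m)), volume S ≠ ∞ → IntegrableOn g S := by
    intro S hS
    have : IsFiniteMeasure (volume.restrict S) := ⟨by
      rw [Measure.restrict_apply_univ]; exact lt_top_iff_ne_top.2 hS⟩
    exact Integrable.of_bound hg.aestronglyMeasurable C (Eventually.of_forall hC)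
  have h1 : (∫ p in A ∩ B, g p) + ∫ p in A \ B, g p = ∫ p in A, g p :=
    integral_inter_add_sdiff hB (hint A hAf)
  have h2 : (∫ p in B ∩ A, g p) + ∫ p in B \ A, g p = ∫ p in B, g p :=
    integral_inter_add_sdiff hA (hint B hBf)
  have hd1 : volume (A \ B) ≠ ∞ := ((measure_mono sdiff_subset).trans_lt
    (lt_top_iff_ne_top.2 hAf)).ne
  have hd2 : volume (B \ A) ≠ ∞ := ((measure_mono sdiff_subset).trans_lt
    (lt_top_iff_ne_top.2 hBf)).ne
  have h3 : |∫ p in A \ B, g p| ≤ C * (volume (A \ B)).toReal :=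
    norm_setIntegral_le_of_norm_le_const (f := g) (C := C) (lt_top_iff_ne_top.2 hd1)
      (fun p _ => hC p)
  have h4 : |∫ p in B \ A, g p| ≤ C * (volume (B \ A)).toReal :=
    norm_setIntegral_le_of_norm_le_const (f := g) (C := C) (lt_top_iff_ne_top.2 hd2)
      (fun p _ => hC p)
  have h5 : volume (symmDiff A B) = volume (A \ B) + volume (B \ A) :=
    measure_symmDiff_eq hA.nullMeasurableSet hB.nullMeasurableSet
  rw [h5, ENNReal.toReal_add hd1 hd2, ← h1, ← h2, inter_comm B A]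
  have h6 : ∀ a b c : ℝ, a + b - (a + c) = b - c := by intros; ring
  rw [h6, mul_add]
  exact (abs_sub _ _).trans (add_le_add h3 h4)

/-- Convergence of the slice integrals. -/
theorem pcv_slices (h3 : Stmt_Fib) (h4 : Stmt_Lift) (hm : 2 ≤ m) {ε : ℕ → ℝ}
    {F : ℕ → Set (E (2 + m))} {F0 : Set ℂ}
    {lam : ℕ → Measure (E (2 + m))} {ν : ℕ → E (2 + m) → E (2 + m)}
    (H : LimD m ε F F0 lam ν) {η : E m → ℝ} (hη : Continuous η) (hη2 : HasCompactSupport η)
    {Y : ℂ → ℂ} (hY : TFc (Dp m) Y)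
    (hWY : TFc (Dp m) (fun c => ((Wp m ‖c‖ : ℝ) : ℂ) * Y c)) :
    Tendsto (fun j => ∫ ζ in Metric.ball (0 : E m) 1, η ζ * ∫ c in As m (F j) ζ, dvW m Y c) atTop
      (𝓝 ((∫ ζ in Metric.ball (0 : E m) 1, η ζ) * ∫ c in F0, dvW m Y c)) := by
  obtain ⟨b, hb0, hb⟩ := pcv_bdd hη hη2
  obtain ⟨C, hC0, hC⟩ := pcv_dvW_bdd hm hY hWY
  set θ : ℂ → E m → ℝ := fun c ζ => η ζ * (dvW m Y c / Wp m ‖c‖) with hθ
  have hWc : Continuous fun c : ℂ => Wp m ‖c‖ := by
    unfold Wp
    exact ((pcv_continuous_wp m).comp continuous_norm).pow m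
  have hθm : Measurable (fun q : ℂ × E m => θ q.1 q.2) := by
    have e1 : Measurable fun q : ℂ × E m => η q.2 := hη.measurable.comp measurable_snd
    have e2 : Measurable fun q : ℂ × E m => dvW m Y q.1 :=
      (pcv_dvW_cont hWY).measurable.comp measurable_fst
    have e3 : Measurable fun q : ℂ × E m => Wp m ‖q.1‖ := hWc.measurable.comp measurable_fst
    exact e1.mul (e2.div e3)
  have hθb : ∀ c ζ, |θ c ζ| ≤ b * C := by
    intro c ζ
    rw [hθ]
    simp only [abs_mul]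
    exact mul_le_mul (hb ζ) (hC c) (abs_nonneg _) hb0
  -- the slice formula
  have key : ∀ A : Set (E (2 + m)), MeasurableSet A → A ⊆ Ub m 1 →
      ∫ p in A, θ (px p) (zt m p) =
        ∫ ζ in Metric.ball (0 : E m) 1, η ζ * ∫ c in As m A ζ, dvW m Y c := by
    intro A hA hAU
    obtain ⟨f1, f2, -⟩ := h3 m A hm hA hAU
    rw [(f2 θ (b * C) hθm hθb).2]
    congr 1
    ext ζ
    rw [← integral_const_mul]
    apply setIntegral_congr_fun (f1 ζ)
    intro c hc
    have hc1 : ‖c‖ < m := by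
      have := hc.1
      rwa [mem_ball_zero_iff] at this
    have hc2 := (wp_of_lt (by omega : 0 < m) hc1).2
    have hc3 : Wp m ‖c‖ ≠ 0 := (pow_pos hc2 m).ne'
    simp only [hθ]
    field_simp
  have hgm : Measurable fun p : E (2 + m) => θ (px p) (zt m p) :=
    hθm.comp (measurable_px.prodMk (pcv_measurable_zt m))
  have hL := h4 m F0 hm H.meas0
  have hLU : lift m F0 ⊆ Ub m 1 := fun p hp => hp.1
  have hlim : ∫ p in lift m F0, θ (px p) (zt m p) =
      (∫ ζ in Metric.ball (0 : E m) 1, η ζ) * ∫ c in F0, dvW m Y c := by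
    rw [key _ hL.1 hLU, ← integral_mul_const]
    apply setIntegral_congr_fun measurableSet_ball
    intro ζ hζ
    simp only
    rw [hL.2.2.1 ζ hζ]
    congr 1
    refine (setIntegral_eq_of_subset_of_forall_sdiff_eq_zero H.meas0 inter_subset_left
      ?_).symm
    intro c hc
    apply pcv_dvW_zero
    intro hc2
    exact hc.2 ⟨hc.1, (hY.supp hc2).1⟩
  rw [← hlim]
  have hfin : ∀ A : Set (E (2 + m)), A ⊆ Ub m 1 → volume A ≠ ∞ := fun A hA =>
    ((measure_mono hA).trans_lt (lt_top_iff_ne_top.2 (pcv_volume_Ub hm))).ne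
  have hdiff : ∀ j, |(∫ ζ in Metric.ball (0 : E m) 1, η ζ * ∫ c in As m (F j) ζ, dvW m Y c) -
      ∫ p in lift m F0, θ (px p) (zt m p)| ≤
        b * C * (volume (symmDiff (F j) (lift m F0))).toReal := by
    intro j
    rw [← key (F j) (H.meas j) (H.sub j)]
    exact pcv_int_diff hgm (fun p => hθb _ _) (H.meas j) hL.1 (hfin _ (H.sub j)) (hfin _ hLU)
  have hconv : Tendsto (fun j => b * C * (volume (symmDiff (F j) (lift m F0))).toReal) atTop
      (𝓝 0) := by
    have e1 := (ENNReal.tendsto_toReal ENNReal.zero_ne_top).comp H.conv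
    have e2 := e1.const_mul (b * C)
    simpa using e2
  rw [tendsto_iff_norm_sub_tendsto_zero]
  exact squeeze_zero (fun j => norm_nonneg _) hdiff hconv

/-- The limit for test functions with compact support. -/
theorem pcv_lim1 (h1 : Stmt_Ident) (h2 : Stmt_P0C2) (h3 : Stmt_Fib) (h4 : Stmt_Lift)
    (h5 : Stmt_PeProps) (hm : 2 ≤ m) {ε : ℕ → ℝ}
    {F : ℕ → Set (E (2 + m))} {F0 : Set ℂ}
    {lam : ℕ → Measure (E (2 + m))} {ν : ℕ → E (2 + m) → E (2 + m)}
    (H : LimD m ε F F0 lam ν) {η : E m → ℝ} (hη : ContDiff ℝ 1 η) (hη2 : HasCompactSupport η)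
    (hη3 : tsupport η ⊆ Metric.ball 0 1)
    {Y : ℂ → ℂ} (hY : TFc (Dp m) Y) :
    Tendsto (fun j => ∫ p, η (zt m p) * ⟪Y (px p), px (ν j p)⟫ ∂(lam j)) atTop
      (𝓝 ((∫ ζ in Metric.ball (0 : E m) 1, η ζ) * ∫ c in F0, dvW m Y c)) := by
  have hWY := (h2 m F0 hm H.meas0).1 Y hY
  have hlim := pcv_slices h3 h4 hm H hη.continuous hη2 hY hWY
  obtain ⟨b, hb0, hb⟩ := pcv_bdd hη.continuous hη2
  obtain ⟨d, hd0, hd⟩ := pcv_bdd hY.diff.continuous hY.comp
  obtain ⟨M, hM0, hM⟩ := pcv_mass H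
  have hηm : Measurable fun p : E (2 + m) => η (zt m p) :=
    hη.continuous.measurable.comp (pcv_measurable_zt m)
  have hYm : Measurable fun p : E (2 + m) => Y (px p) :=
    hY.diff.continuous.measurable.comp measurable_px
  set K : ℕ → ℝ := fun j => ∫ p, η (zt m p) * (⟪pz (ν j p), zt m p⟫ *
    ⟪Y (px p), gw m (px p)⟫) ∂(lam j) with hK
  have hKb : ∀ j, |K j| ≤ b * d * M := by
    intro j
    have := (H.rep j).fin
    have e1 : ∀ᵐ p ∂(lam j), ‖η (zt m p) * (⟪pz (ν j p), zt m p⟫ *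
        ⟪Y (px p), gw m (px p)⟫)‖ ≤ b * d := by
      filter_upwards [pcv_ae_zt hm H j] with p hp
      rw [norm_mul, norm_mul]
      have e2 : ‖⟪pz (ν j p), zt m p⟫‖ ≤ 1 := by
        refine (norm_inner_le_norm _ _).trans ?_
        exact mul_le_one₀ (pcv_pz_unit H j p) (norm_nonneg _) hp.le
      have e3 : ‖⟪Y (px p), gw m (px p)⟫‖ ≤ d := by
        refine (norm_inner_le_norm _ _).trans ?_
        calc ‖Y (px p)‖ * ‖gw m (px p)‖ ≤ d * 1 :=
              mul_le_mul (hd _) (pcv_norm_gw hm _) (norm_nonneg _) hd0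
          _ = d := mul_one d
      calc ‖η (zt m p)‖ * (‖⟪pz (ν j p), zt m p⟫‖ * ‖⟪Y (px p), gw m (px p)⟫‖)
          ≤ b * (1 * d) := by
            apply mul_le_mul (hb _) _ (by positivity) hb0
            exact mul_le_mul e2 e3 (norm_nonneg _) zero_le_one
        _ = b * d := by ring
    have e4 := norm_integral_le_of_norm_le_const e1
    refine e4.trans ?_
    exact mul_le_mul_of_nonneg_left (hM j) (by positivity)
  have hKm : ∀ j, Integrable (fun p => η (zt m p) * (⟪pz (ν j p), zt m p⟫ *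
        ⟪Y (px p), gw m (px p)⟫)) (lam j) := by
    intro j
    have := (H.rep j).fin
    have hν := (H.rep j).meas
    have f1 : Measurable fun p => ⟪pz (ν j p), zt m p⟫ :=
      (measurable_pz.comp hν).inner (pcv_measurable_zt m)
    have f2 : Measurable fun p : E (2 + m) => ⟪Y (px p), gw m (px p)⟫ :=
      hYm.inner ((pcv_measurable_gw m).comp measurable_px)
    refine Integrable.of_bound (hηm.mul (f1.mul f2)).aestronglyMeasurable (b * (1 * d)) ?_
    filter_upwards [pcv_ae_zt hm H j] with p hp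
    rw [norm_mul, norm_mul]
    have e2 : ‖⟪pz (ν j p), zt m p⟫‖ ≤ 1 := by
      refine (norm_inner_le_norm _ _).trans ?_
      exact mul_le_one₀ (pcv_pz_unit H j p) (norm_nonneg _) hp.le
    have e3 : ‖⟪Y (px p), gw m (px p)⟫‖ ≤ d := by
      refine (norm_inner_le_norm _ _).trans ?_
      calc ‖Y (px p)‖ * ‖gw m (px p)‖ ≤ d * 1 :=
            mul_le_mul (hd _) (pcv_norm_gw hm _) (norm_nonneg _) hd0
        _ = d := mul_one d
    apply mul_le_mul (hb _) _ (by positivity) hb0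
    exact mul_le_mul e2 e3 (norm_nonneg _) zero_le_one
  have hJm : ∀ j, Integrable (fun p => η (zt m p) * ⟪Y (px p), px (ν j p)⟫) (lam j) := by
    intro j
    have := (H.rep j).fin
    have hν := (H.rep j).meas
    have f1 : Measurable fun p => ⟪Y (px p), px (ν j p)⟫ := hYm.inner (measurable_px.comp hν)
    refine Integrable.of_bound (hηm.mul f1).aestronglyMeasurable (b * (d * 1)) ?_
    filter_upwards with p
    rw [norm_mul]
    apply mul_le_mul (hb _) _ (norm_nonneg _) hb0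
    refine (norm_inner_le_norm _ _).trans ?_
    exact mul_le_mul (hd _) (pcv_px_unit H j p) (norm_nonneg _) hd0
  have hid : ∀ j, ∫ p, η (zt m p) * ⟪Y (px p), px (ν j p)⟫ ∂(lam j) =
      (∫ ζ in Metric.ball (0 : E m) 1, η ζ * ∫ c in As m (F j) ζ, dvW m Y c) - ε j * K j := by
    intro j
    have hW : WRep m (ε j) (F j) (lam j) (ν j) :=
      ((h5 m (ε j) hm (H.eps_pos j)).2.2.2.2.2.1 (F j) (lam j) (ν j) (H.rep j)).1
    rw [h1 m (ε j) (F j) (lam j) (ν j) hm (H.eps_pos j) (H.meas j) (H.sub j) hW η Y hη hη2 hη3 hY,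
      hK, ← integral_const_mul, ← integral_sub]
    · congr 1
      ext p
      ring
    · refine ((hJm j).add ((hKm j).const_mul (ε j))).congr ?_
      filter_upwards with p
      simp only [Pi.add_apply]
      ring
    · exact (hKm j).const_mul (ε j)
  have hεK : Tendsto (fun j => ε j * K j) atTop (𝓝 0) := by
    rw [tendsto_zero_iff_norm_tendsto_zero]
    have e1 : Tendsto (fun j => ε j * (b * d * M)) atTop (𝓝 0) := by
      simpa using H.eps_lim.mul_const (b * d * M)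
    refine squeeze_zero (fun j => norm_nonneg _) (fun j => ?_) e1
    rw [norm_mul, Real.norm_of_nonneg (H.eps_pos j).le]
    exact mul_le_mul_of_nonneg_left (hKb j) (H.eps_pos j).le
  have := hlim.sub hεK
  rw [sub_zero] at this
  exact this.congr (fun j => (hid j).symm)

theorem pcv_vol_ball (m : ℕ) : (volume (Metric.ball (0 : E m) 1)).toReal = omr m := rfl

theorem pcv_int_one (m : ℕ) : ∫ _ζ in Metric.ball (0 : E m) 1, (1 : ℝ) = omr m := by
  rw [setIntegral_const, smul_eq_mul, mul_one]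
  rfl

/-- Integrability on the unit ball. -/
theorem pcv_intOn {f : E m → ℝ} (hf : Continuous f) :
    IntegrableOn f (Metric.ball (0 : E m) 1) :=
  (hf.continuousOn.integrableOn_compact (isCompact_closedBall (0 : E m) 1)).mono_set
    Metric.ball_subset_closedBall

/-- A cut-off function of the unit ball. -/
theorem pcv_cutoff {τ : ℝ} (hτ : 0 < τ) : ∃ e : E m → ℝ, ContDiff ℝ 1 e ∧
    HasCompactSupport e ∧ tsupport e ⊆ Metric.ball 0 1 ∧ (∀ ζ, 0 ≤ e ζ) ∧ (∀ ζ, e ζ ≤ 1) ∧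
    ∫ ζ in Metric.ball (0 : E m) 1, (1 - e ζ) ≤ τ := by
  have hom := omr_pos m
  have h1 : Tendsto (fun r : ℝ => omr m * (1 - r ^ m)) (𝓝[<] 1) (𝓝 0) := by
    have : Continuous fun r : ℝ => omr m * (1 - r ^ m) := by fun_prop
    have h2 := this.tendsto 1
    simp only [one_pow, sub_self, mul_zero] at h2
    exact h2.mono_left nhdsWithin_le_nhds
  have h2 : ∀ᶠ r : ℝ in 𝓝[<] 1, omr m * (1 - r ^ m) < τ := h1.eventually_lt_const hτ
  have h3 : ∀ᶠ r : ℝ in 𝓝[<] 1, (0 : ℝ) < r :=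
    nhdsWithin_le_nhds (eventually_gt_nhds one_pos)
  have h4 : ∀ᶠ r : ℝ in 𝓝[<] 1, r < 1 := eventually_mem_nhdsWithin
  obtain ⟨r, hr1, hr2, hr3⟩ := (h2.and (h3.and h4)).exists
  let b : ContDiffBump (0 : E m) := ⟨r, (1 + r) / 2, hr2, by linarith⟩
  have hb1 : Metric.closedBall (0 : E m) ((1 + r) / 2) ⊆ Metric.ball 0 1 :=
    Metric.closedBall_subset_ball (by linarith)
  refine ⟨b, b.contDiff, b.hasCompactSupport, ?_, fun ζ => b.nonneg, fun ζ => b.le_one, ?_⟩
  · rw [b.tsupport_eq]; exact hb1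
  · have hsub : Metric.closedBall (0 : E m) r ⊆ Metric.ball 0 1 :=
      Metric.closedBall_subset_ball hr3
    have hc : Continuous fun ζ : E m => 1 - b ζ := continuous_const.sub b.continuous
    have hval : ∫ ζ in Metric.ball (0 : E m) 1, (1 - b ζ) =
        ∫ ζ in Metric.ball (0 : E m) 1 \ Metric.closedBall (0 : E m) r, (1 - b ζ) := by
      apply setIntegral_eq_of_subset_of_forall_sdiff_eq_zero measurableSet_ball sdiff_subset
      intro ζ hζ
      have h5 : ζ ∈ Metric.closedBall (0 : E m) r := by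
        by_contra h6
        exact hζ.2 ⟨hζ.1, h6⟩
      rw [b.one_of_mem_closedBall h5, sub_self]
    rw [hval]
    have hvol : (volume (Metric.ball (0 : E m) 1 \ Metric.closedBall (0 : E m) r)).toReal =
        omr m * (1 - r ^ m) := by
      rw [measure_sdiff hsub measurableSet_closedBall.nullMeasurableSet
        measure_closedBall_lt_top.ne, ENNReal.toReal_sub_of_le (measure_mono hsub)
        measure_ball_lt_top.ne, Measure.addHaar_closedBall _ _ hr2.le, finrank_euclideanSpace,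
        Fintype.card_fin, ENNReal.toReal_mul, ENNReal.toReal_ofReal (by positivity),
        pcv_vol_ball]
      ring
    have hfin : volume (Metric.ball (0 : E m) 1 \ Metric.closedBall (0 : E m) r) < ∞ :=
      (measure_mono sdiff_subset).trans_lt measure_ball_lt_top
    have h6 := norm_setIntegral_le_of_norm_le_const (f := fun ζ : E m => 1 - b ζ) (C := 1) hfin
      (fun ζ _ => by
        rw [Real.norm_eq_abs, abs_le]
        constructor
        · linarith [b.le_one (x := ζ)]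
        · linarith [b.nonneg (x := ζ)])
    have h7 : volume.real (Metric.ball (0 : E m) 1 \ Metric.closedBall (0 : E m) r) =
        omr m * (1 - r ^ m) := hvol
    rw [h7, one_mul, Real.norm_eq_abs] at h6
    exact (le_abs_self _).trans (h6.trans hr1.le)

/-- Little mass of the limit is near the boundary of the ball. -/
theorem pcv_claimA (h1 : Stmt_Ident) (h2 : Stmt_P0C2) (h3 : Stmt_Fib) (h4 : Stmt_Lift)
    (h5 : Stmt_PeProps) (hm : 2 ≤ m) {ε : ℕ → ℝ}
    {F : ℕ → Set (E (2 + m))} {F0 : Set ℂ}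
    {lam : ℕ → Measure (E (2 + m))} {ν : ℕ → E (2 + m) → E (2 + m)}
    (H : LimD m ε F F0 lam ν) {τ : ℝ} (hτ : 0 < τ) : ∃ e : E m → ℝ, ContDiff ℝ 1 e ∧
    HasCompactSupport e ∧ tsupport e ⊆ Metric.ball 0 1 ∧ (∀ ζ, 0 ≤ e ζ) ∧ (∀ ζ, e ζ ≤ 1) ∧
    ∫ ζ in Metric.ball (0 : E m) 1, (1 - e ζ) ≤ τ ∧
    ∀ᶠ j in atTop, ∫ p, (1 - e (zt m p)) ∂(lam j) ≤ τ := by
  have hom := omr_pos m
  set P : ℝ := (P0 m F0).toReal with hP
  have hP0 : 0 ≤ P := ENNReal.toReal_nonneg
  have hδ : 0 < τ / (4 * omr m) := by positivity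
  obtain ⟨Y, -, hY, hY1, hYD⟩ := (h2 m F0 hm H.meas0).2.2 H.fin0 _ hδ
  set D : ℝ := ∫ c in F0, dvW m Y c with hD
  have hτ' : 0 < min τ (τ / (4 * (P + 1))) := lt_min hτ (by positivity)
  obtain ⟨e, he1, he2, he3, he4, he5, he6⟩ := pcv_cutoff hτ' (m := m)
  refine ⟨e, he1, he2, he3, he4, he5, he6.trans (min_le_left _ _), ?_⟩
  have hlim := pcv_lim1 h1 h2 h3 h4 h5 hm H he1 he2 he3 hY
  have hlim2 := H.strict.sub hlim
  set s : ℝ := ∫ ζ in Metric.ball (0 : E m) 1, (1 - e ζ) with hs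
  have hse : (∫ ζ in Metric.ball (0 : E m) 1, e ζ) = omr m - s := by
    rw [hs, integral_sub (pcv_intOn continuous_const) (pcv_intOn he1.continuous), pcv_int_one]
    ring
  have hse0 : 0 ≤ omr m - s := by
    rw [← hse]
    exact integral_nonneg he4
  have hs0 : 0 ≤ s := integral_nonneg (fun ζ => by simpa using he5 ζ)
  have hlt : omr m * P - (∫ ζ in Metric.ball (0 : E m) 1, e ζ) * D < τ := by
    rw [hse]
    have e1 : s * P ≤ τ / 4 := by
      have e2 : s ≤ τ / (4 * (P + 1)) := he6.trans (min_le_right _ _)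
      calc s * P ≤ τ / (4 * (P + 1)) * P := mul_le_mul_of_nonneg_right e2 hP0
        _ = τ / 4 * (P / (P + 1)) := by field_simp
        _ ≤ τ / 4 * 1 := by
          apply mul_le_mul_of_nonneg_left _ (by positivity)
          rw [div_le_one (by positivity)]; linarith
        _ = τ / 4 := mul_one _
    have e2 : (omr m - s) * (P - D) ≤ (omr m - s) * (τ / (4 * omr m)) :=
      mul_le_mul_of_nonneg_left (by linarith) hse0
    have e3 : (omr m - s) * (τ / (4 * omr m)) ≤ omr m * (τ / (4 * omr m)) :=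
      mul_le_mul_of_nonneg_right (by linarith) hδ.le
    have e4 : omr m * (τ / (4 * omr m)) = τ / 4 := by field_simp
    nlinarith
  have hev := hlim2.eventually_lt_const hlt
  filter_upwards [hev] with j hj
  refine le_trans ?_ hj.le
  have := (H.rep j).fin
  have hν := (H.rep j).meas
  have hem : Measurable fun p : E (2 + m) => e (zt m p) :=
    he1.continuous.measurable.comp (pcv_measurable_zt m)
  have hei : Integrable (fun p : E (2 + m) => e (zt m p)) (lam j) :=
    Integrable.of_bound hem.aestronglyMeasurable 1 (Eventually.of_forall fun p => by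
      rw [Real.norm_eq_abs, abs_of_nonneg (he4 _)]; exact he5 _)
  have hYi : Integrable (fun p => e (zt m p) * ⟪Y (px p), px (ν j p)⟫) (lam j) := by
    have f1 : Measurable fun p => ⟪Y (px p), px (ν j p)⟫ :=
      (hY.diff.continuous.measurable.comp measurable_px).inner (measurable_px.comp hν)
    refine Integrable.of_bound (hem.mul f1).aestronglyMeasurable (1 * (1 * 1)) ?_
    filter_upwards with p
    rw [norm_mul]
    apply mul_le_mul _ _ (norm_nonneg _) zero_le_one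
    · rw [Real.norm_eq_abs, abs_of_nonneg (he4 _)]; exact he5 _
    · refine (norm_inner_le_norm _ _).trans ?_
      exact mul_le_mul (hY1 _) (pcv_px_unit H j p) (norm_nonneg _) zero_le_one
  have hone : (lam j univ).toReal = ∫ _p, (1 : ℝ) ∂(lam j) := by
    rw [integral_const, smul_eq_mul, mul_one]; rfl
  rw [hone, ← integral_sub (integrable_const _) hYi]
  apply integral_mono ((integrable_const _).sub hei) ((integrable_const _).sub hYi)
  intro p
  simp only [Pi.sub_apply]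
  have e1 : ⟪Y (px p), px (ν j p)⟫ ≤ 1 := by
    refine (real_inner_le_norm _ _).trans ?_
    exact mul_le_one₀ (hY1 _) (norm_nonneg _) (pcv_px_unit H j p)
  have := mul_le_mul_of_nonneg_left e1 (he4 (zt m p))
  linarith

/-- Approximation by functions with compact support. -/
theorem pcv_claimB (h1 : Stmt_Ident) (h2 : Stmt_P0C2) (h3 : Stmt_Fib) (h4 : Stmt_Lift)
    (h5 : Stmt_PeProps) (hm : 2 ≤ m) {ε : ℕ → ℝ}
    {F : ℕ → Set (E (2 + m))} {F0 : Set ℂ}
    {lam : ℕ → Measure (E (2 + m))} {ν : ℕ → E (2 + m) → E (2 + m)}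
    (H : LimD m ε F F0 lam ν) {η : E m → ℝ} (hη : Continuous η) {τ : ℝ} (hτ : 0 < τ) :
    ∃ e : E m → ℝ, ContDiff ℝ 1 e ∧
    HasCompactSupport e ∧ tsupport e ⊆ Metric.ball 0 1 ∧
    ∫ ζ in Metric.ball (0 : E m) 1, |η ζ - e ζ| ≤ τ ∧
    ∀ᶠ j in atTop, ∫ p, |η (zt m p) - e (zt m p)| ∂(lam j) ≤ τ := by
  have hom := omr_pos m
  obtain ⟨M, hM0, hM⟩ := pcv_mass H
  -- uniform approximation on the ball
  have hτ1 : 0 < τ / (2 * (omr m + M + 1)) := by positivity
  have huc : UniformContinuousOn η (Metric.closedBall (0 : E m) 2) :=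
    (isCompact_closedBall _ _).uniformContinuousOn_of_continuous hη.continuousOn
  obtain ⟨ρ, hρ, hρ2⟩ := Metric.uniformContinuousOn_iff.1 huc _ hτ1
  obtain ⟨g, hg, hg2⟩ := hη.exists_contDiff_dist_le_of_forall_mem_ball_dist_le
    (lt_min hρ one_pos)
  have hga : ∀ ζ : E m, ‖ζ‖ ≤ 1 → |η ζ - g ζ| ≤ τ / (2 * (omr m + M + 1)) := by
    intro ζ hζ
    have := hg2 ζ (τ / (2 * (omr m + M + 1))) (fun x hx => by
      rw [Metric.mem_ball, lt_min_iff] at hx
      have hζ2 : ζ ∈ Metric.closedBall (0 : E m) 2 := by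
        rw [mem_closedBall_zero_iff]; linarith
      have hx2 : x ∈ Metric.closedBall (0 : E m) 2 := by
        rw [mem_closedBall_zero_iff]
        have := norm_sub_norm_le x ζ
        rw [dist_eq_norm] at hx
        linarith [hx.2]
      exact (hρ2 x hx2 ζ hζ2 hx.1).le)
    rw [dist_comm, Real.dist_eq] at this
    exact this
  obtain ⟨b, hb0, hb⟩ := pcv_bdd_ball hg.continuous
  have hτ2 : 0 < τ / (2 * (b + 1)) := by positivity
  obtain ⟨e, he1, he2, he3, he4, he5, he6, he7⟩ := pcv_claimA h1 h2 h3 h4 h5 hm H hτ2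
  have hpt : ∀ ζ : E m, ‖ζ‖ ≤ 1 → |η ζ - g ζ * e ζ| ≤
      τ / (2 * (omr m + M + 1)) + b * (1 - e ζ) := by
    intro ζ hζ
    have e1 : η ζ - g ζ * e ζ = (η ζ - g ζ) + g ζ * (1 - e ζ) := by ring
    rw [e1]
    refine (abs_add_le _ _).trans (add_le_add (hga ζ hζ) ?_)
    rw [abs_mul, abs_of_nonneg (show 0 ≤ 1 - e ζ by linarith [he5 ζ])]
    exact mul_le_mul_of_nonneg_right (hb ζ hζ) (by linarith [he5 ζ])
  have hbt : b * (τ / (2 * (b + 1))) ≤ τ / 2 := by
    have : b * (τ / (2 * (b + 1))) = τ / 2 * (b / (b + 1)) := by field_simp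
    rw [this]
    calc τ / 2 * (b / (b + 1)) ≤ τ / 2 * 1 := by
          apply mul_le_mul_of_nonneg_left _ (by positivity)
          rw [div_le_one (by positivity)]; linarith
      _ = τ / 2 := mul_one _
  have hmt : ∀ y : ℝ, y ≤ omr m + M → τ / (2 * (omr m + M + 1)) * y ≤ τ / 2 := by
    intro y hy
    have : τ / (2 * (omr m + M + 1)) * y ≤ τ / (2 * (omr m + M + 1)) * (omr m + M + 1) :=
      mul_le_mul_of_nonneg_left (by linarith) hτ1.le
    refine this.trans (le_of_eq ?_)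
    field_simp
  have hge : Continuous fun ζ => g ζ * e ζ := hg.continuous.mul he1.continuous
  refine ⟨fun ζ => g ζ * e ζ, (hg.of_le (by exact_mod_cast le_top)).mul he1, he2.mul_left,
    (closure_mono (fun ζ hζ => ?_)).trans he3, ?_, ?_⟩
  · rw [Function.mem_support] at hζ ⊢
    exact right_ne_zero_of_mul hζ
  · have i1 : IntegrableOn (fun ζ => 1 - e ζ) (Metric.ball (0 : E m) 1) :=
      pcv_intOn (continuous_const.sub he1.continuous)
    have i2 : IntegrableOn (fun ζ => b * (1 - e ζ)) (Metric.ball (0 : E m) 1) :=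
      i1.const_mul b
    have i3 : IntegrableOn (fun _ : E m => τ / (2 * (omr m + M + 1))) (Metric.ball (0 : E m) 1) :=
      pcv_intOn continuous_const
    calc ∫ ζ in Metric.ball (0 : E m) 1, |η ζ - g ζ * e ζ|
        ≤ ∫ ζ in Metric.ball (0 : E m) 1, (τ / (2 * (omr m + M + 1)) + b * (1 - e ζ)) := by
          apply setIntegral_mono_on
          · exact pcv_intOn (hη.sub hge).abs
          · exact i3.add i2
          · exact measurableSet_ball
          · intro ζ hζ
            rw [mem_ball_zero_iff] at hζ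
            exact hpt ζ hζ.le
      _ = τ / (2 * (omr m + M + 1)) * omr m +
          b * ∫ ζ in Metric.ball (0 : E m) 1, (1 - e ζ) := by
          rw [integral_add i3 i2, integral_const_mul, setIntegral_const, smul_eq_mul, mul_comm]
          rfl
      _ ≤ τ / 2 + τ / 2 :=
          add_le_add (hmt _ (by linarith)) ((mul_le_mul_of_nonneg_left he6 hb0).trans hbt)
      _ = τ := by ring
  · filter_upwards [he7] with j hj
    have := (H.rep j).fin
    have hem : Measurable fun p : E (2 + m) => e (zt m p) :=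
      he1.continuous.measurable.comp (pcv_measurable_zt m)
    have hηm : Measurable fun p : E (2 + m) => η (zt m p) :=
      hη.measurable.comp (pcv_measurable_zt m)
    have hgem : Measurable fun p : E (2 + m) => g (zt m p) * e (zt m p) :=
      hge.measurable.comp (pcv_measurable_zt m)
    have hei : Integrable (fun p : E (2 + m) => 1 - e (zt m p)) (lam j) :=
      (integrable_const _).sub (Integrable.of_bound hem.aestronglyMeasurable 1
        (Eventually.of_forall fun p => by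
          rw [Real.norm_eq_abs, abs_of_nonneg (he4 _)]; exact he5 _))
    have hri : Integrable (fun p : E (2 + m) => τ / (2 * (omr m + M + 1)) +
        b * (1 - e (zt m p))) (lam j) := (integrable_const _).add (hei.const_mul b)
    have hle : ∀ᵐ p ∂(lam j), |η (zt m p) - g (zt m p) * e (zt m p)| ≤
        τ / (2 * (omr m + M + 1)) + b * (1 - e (zt m p)) := by
      filter_upwards [pcv_ae_zt hm H j] with p hp
      exact hpt _ hp.le
    have hli : Integrable (fun p => |η (zt m p) - g (zt m p) * e (zt m p)|) (lam j) := by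
      refine hri.mono (hηm.sub hgem).abs.aestronglyMeasurable ?_
      filter_upwards [hle] with p hp
      rw [Real.norm_eq_abs, abs_abs]
      exact hp.trans (le_abs_self _)
    calc ∫ p, |η (zt m p) - g (zt m p) * e (zt m p)| ∂(lam j)
        ≤ ∫ p, (τ / (2 * (omr m + M + 1)) + b * (1 - e (zt m p))) ∂(lam j) :=
          integral_mono_ae hli hri hle
      _ = τ / (2 * (omr m + M + 1)) * (lam j univ).toReal +
          b * ∫ p, (1 - e (zt m p)) ∂(lam j) := by
          rw [integral_add (integrable_const _) (hei.const_mul b), integral_const_mul,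
            integral_const, smul_eq_mul, mul_comm]
          rfl
      _ ≤ τ / 2 + τ / 2 :=
          add_le_add (hmt _ (by linarith [hM j])) ((mul_le_mul_of_nonneg_left hj hb0).trans hbt)
      _ = τ := by ring

/-- Integrability of a continuous function of `ζ`. -/
theorem pcv_int_zt (hm : 2 ≤ m) {ε : ℕ → ℝ} {F : ℕ → Set (E (2 + m))} {F0 : Set ℂ}
    {lam : ℕ → Measure (E (2 + m))} {ν : ℕ → E (2 + m) → E (2 + m)}
    (H : LimD m ε F F0 lam ν) (j : ℕ) {η : E m → ℝ} (hη : Continuous η)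
    {g : E (2 + m) → ℝ} (hg : Measurable g) {C : ℝ} (hC : ∀ p, |g p| ≤ C) :
    Integrable (fun p => η (zt m p) * g p) (lam j) := by
  have := (H.rep j).fin
  obtain ⟨b, hb0, hb⟩ := pcv_bdd_ball hη
  refine Integrable.of_bound ((hη.measurable.comp (pcv_measurable_zt m)).mul
    hg).aestronglyMeasurable (b * C) ?_
  filter_upwards [pcv_ae_zt hm H j] with p hp
  rw [Real.norm_eq_abs, abs_mul]
  exact mul_le_mul (hb _ hp.le) (hC p) (abs_nonneg _) hb0

theorem pcv_meas_inner {ε : ℕ → ℝ} {F : ℕ → Set (E (2 + m))} {F0 : Set ℂ}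
    {lam : ℕ → Measure (E (2 + m))} {ν : ℕ → E (2 + m) → E (2 + m)}
    (H : LimD m ε F F0 lam ν) (j : ℕ) {Y : ℂ → ℂ} (hY : Continuous Y) :
    Measurable fun p => ⟪Y (px p), px (ν j p)⟫ :=
  (hY.measurable.comp measurable_px).inner (measurable_px.comp (H.rep j).meas)

theorem pcv_abs_inner {ε : ℕ → ℝ} {F : ℕ → Set (E (2 + m))} {F0 : Set ℂ}
    {lam : ℕ → Measure (E (2 + m))} {ν : ℕ → E (2 + m) → E (2 + m)}
    (H : LimD m ε F F0 lam ν) (j : ℕ) {Y : ℂ → ℂ} {d : ℝ} (hd0 : 0 ≤ d) (hd : ∀ c, ‖Y c‖ ≤ d)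
    (p : E (2 + m)) : |⟪Y (px p), px (ν j p)⟫| ≤ d := by
  refine (abs_real_inner_le_norm _ _).trans ?_
  calc ‖Y (px p)‖ * ‖px (ν j p)‖ ≤ d * 1 :=
        mul_le_mul (hd _) (pcv_px_unit H j p) (norm_nonneg _) hd0
    _ = d := mul_one d

/-- The first item. -/
theorem pcv_item1 (h1 : Stmt_Ident) (h2 : Stmt_P0C2) (h3 : Stmt_Fib) (h4 : Stmt_Lift)
    (h5 : Stmt_PeProps) (hm : 2 ≤ m) {ε : ℕ → ℝ}
    {F : ℕ → Set (E (2 + m))} {F0 : Set ℂ}
    {lam : ℕ → Measure (E (2 + m))} {ν : ℕ → E (2 + m) → E (2 + m)}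
    (H : LimD m ε F F0 lam ν) {η : E m → ℝ} (hη : Continuous η)
    {Y : ℂ → ℂ} (hY : TFc (Dp m) Y) :
    Tendsto (fun j => ∫ p, η (zt m p) * ⟪Y (px p), px (ν j p)⟫ ∂(lam j)) atTop
      (𝓝 ((∫ ζ in Metric.ball (0 : E m) 1, η ζ) * ∫ c in F0, dvW m Y c)) := by
  obtain ⟨d, hd0, hd⟩ := pcv_bdd hY.diff.continuous hY.comp
  set D : ℝ := ∫ c in F0, dvW m Y c with hD
  rw [Metric.tendsto_nhds]
  intro r hr
  have hτ : 0 < r / (3 * (d + |D| + 1)) := by positivity
  obtain ⟨e, he1, he2, he3, he4, he5⟩ := pcv_claimB h1 h2 h3 h4 h5 hm H hη hτ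
  have hlim := pcv_lim1 h1 h2 h3 h4 h5 hm H he1 he2 he3 hY
  rw [Metric.tendsto_nhds] at hlim
  filter_upwards [hlim (r / 3) (by positivity), he5] with j hj1 hj2
  rw [Real.dist_eq] at hj1 ⊢
  have hYm := pcv_meas_inner H j hY.diff.continuous
  have hYb := pcv_abs_inner H j hd0 hd
  have i1 := pcv_int_zt hm H j hη hYm hYb
  have i2 := pcv_int_zt hm H j he1.continuous hYm hYb
  have i3 : Integrable (fun p => |η (zt m p) - e (zt m p)|) (lam j) := by
    have := (pcv_int_zt hm H j (hη.sub he1.continuous) (measurable_const (a := (1 : ℝ)))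
      (C := 1) (fun p => by simp)).abs
    simpa using this
  have e1 : |(∫ p, η (zt m p) * ⟪Y (px p), px (ν j p)⟫ ∂(lam j)) -
      ∫ p, e (zt m p) * ⟪Y (px p), px (ν j p)⟫ ∂(lam j)| ≤ d * (r / (3 * (d + |D| + 1))) := by
    rw [← integral_sub i1 i2]
    calc |∫ p, (η (zt m p) * ⟪Y (px p), px (ν j p)⟫ - e (zt m p) * ⟪Y (px p), px (ν j p)⟫) ∂(lam j)|
        ≤ ∫ p, |η (zt m p) * ⟪Y (px p), px (ν j p)⟫ - e (zt m p) * ⟪Y (px p), px (ν j p)⟫| ∂(lam j) :=
          abs_integral_le_integral_abs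
      _ ≤ ∫ p, d * |η (zt m p) - e (zt m p)| ∂(lam j) := by
          apply integral_mono (i1.sub i2).abs (i3.const_mul d)
          intro p
          simp only [Pi.sub_apply]
          rw [← sub_mul, abs_mul, mul_comm]
          exact mul_le_mul_of_nonneg_right (hYb p) (abs_nonneg _)
      _ = d * ∫ p, |η (zt m p) - e (zt m p)| ∂(lam j) := integral_const_mul _ _
      _ ≤ d * (r / (3 * (d + |D| + 1))) := mul_le_mul_of_nonneg_left hj2 hd0
  have e2 : |(∫ ζ in Metric.ball (0 : E m) 1, e ζ) * D -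
      (∫ ζ in Metric.ball (0 : E m) 1, η ζ) * D| ≤ r / (3 * (d + |D| + 1)) * |D| := by
    rw [← sub_mul, abs_mul, abs_sub_comm,
      ← integral_sub (pcv_intOn hη) (pcv_intOn he1.continuous)]
    exact mul_le_mul_of_nonneg_right (abs_integral_le_integral_abs.trans he4) (abs_nonneg _)
  have e3 : d * (r / (3 * (d + |D| + 1))) + r / (3 * (d + |D| + 1)) * |D| < r / 3 := by
    have e4 : d * (r / (3 * (d + |D| + 1))) + r / (3 * (d + |D| + 1)) * |D| =
        r / (3 * (d + |D| + 1)) * (d + |D|) := by ring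
    rw [e4]
    calc r / (3 * (d + |D| + 1)) * (d + |D|) < r / (3 * (d + |D| + 1)) * (d + |D| + 1) :=
          mul_lt_mul_of_pos_left (by linarith) hτ
      _ = r / 3 := by
        have : d + |D| + 1 ≠ 0 := by positivity
        field_simp
  have e5 := abs_sub_le (∫ p, η (zt m p) * ⟪Y (px p), px (ν j p)⟫ ∂(lam j))
    (∫ p, e (zt m p) * ⟪Y (px p), px (ν j p)⟫ ∂(lam j))
    ((∫ ζ in Metric.ball (0 : E m) 1, η ζ) * D)
  have e6 := abs_sub_le (∫ p, e (zt m p) * ⟪Y (px p), px (ν j p)⟫ ∂(lam j))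
    ((∫ ζ in Metric.ball (0 : E m) 1, e ζ) * D)
    ((∫ ζ in Metric.ball (0 : E m) 1, η ζ) * D)
  linarith

theorem pcv_mass_int {ε : ℕ → ℝ} {F : ℕ → Set (E (2 + m))} {F0 : Set ℂ}
    {lam : ℕ → Measure (E (2 + m))} {ν : ℕ → E (2 + m) → E (2 + m)}
    (_H : LimD m ε F F0 lam ν) (j : ℕ) : (lam j univ).toReal = ∫ _p, (1 : ℝ) ∂(lam j) := by
  rw [integral_const, smul_eq_mul, mul_one]; rfl

/-- The third item. -/
theorem pcv_item3 (h1 : Stmt_Ident) (h2 : Stmt_P0C2) (h3 : Stmt_Fib) (h4 : Stmt_Lift)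
    (h5 : Stmt_PeProps) (hm : 2 ≤ m) {ε : ℕ → ℝ}
    {F : ℕ → Set (E (2 + m))} {F0 : Set ℂ}
    {lam : ℕ → Measure (E (2 + m))} {ν : ℕ → E (2 + m) → E (2 + m)}
    (H : LimD m ε F F0 lam ν) {Y : ℂ → ℂ} {δ : ℝ} (hY : TFc (Dp m) Y) (hY1 : ∀ c, ‖Y c‖ ≤ 1)
    (hδ : 0 < δ) (hD : (P0 m F0).toReal ≤ (∫ c in F0, dvW m Y c) + δ) :
    ∀ᶠ j in atTop, ∫ p, (1 - ⟪Y (px p), px (ν j p)⟫) ∂(lam j) ≤ 2 * omr m * δ := by
  have hom := omr_pos m
  have hlim := pcv_item1 h1 h2 h3 h4 h5 hm H (η := fun _ => 1) continuous_const hY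
  have hlim2 := H.strict.sub hlim
  rw [pcv_int_one] at hlim2
  have hlt : omr m * (P0 m F0).toReal - omr m * ∫ c in F0, dvW m Y c < 2 * omr m * δ := by
    have e1 : omr m * (P0 m F0).toReal ≤ omr m * ((∫ c in F0, dvW m Y c) + δ) :=
      mul_le_mul_of_nonneg_left hD hom.le
    have e2 : 0 < omr m * δ := by positivity
    linarith
  filter_upwards [hlim2.eventually_lt_const hlt] with j hj
  have := (H.rep j).fin
  have i1 := pcv_int_zt hm H j (η := fun _ => (1 : ℝ)) continuous_const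
    (pcv_meas_inner H j hY.diff.continuous) (pcv_abs_inner H j zero_le_one hY1)
  simp only [one_mul] at i1 hj
  rw [integral_sub (integrable_const _) i1, ← pcv_mass_int H j]
  exact hj.le

/-- Approximation of a continuous function with compact support in `D`. -/
theorem pcv_approx {θ : ℂ → ℝ} (hθ : Continuous θ) {K : Set ℂ} (hK : IsCompact K)
    (hKD : K ⊆ Dp m) (hθK : ∀ x, x ∉ K → θ x = 0) {τ : ℝ} (hτ : 0 < τ) :
    ∃ g : ℂ → ℝ, ContDiff ℝ 1 g ∧ HasCompactSupport g ∧ tsupport g ⊆ Dp m ∧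
      ∀ x, |θ x - g x| ≤ τ := by
  have hDo : IsOpen (Dp m) := Metric.isOpen_ball.sdiff isClosed_singleton
  obtain ⟨δ, hδ, hδ2⟩ := hK.exists_cthickening_subset_open hDo hKD
  have hcs : HasCompactSupport θ := HasCompactSupport.intro hK hθK
  have huc : UniformContinuous θ := hcs.uniformContinuous_of_continuous hθ
  obtain ⟨ρ, hρ, hρ2⟩ := Metric.uniformContinuous_iff.1 huc τ hτ
  obtain ⟨g, hg, hg2⟩ := hθ.exists_contDiff_dist_le_of_forall_mem_ball_dist_le (lt_min hρ hδ)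
  have hgK : ∀ x, x ∉ Metric.cthickening δ K → g x = 0 := by
    intro x hx
    have hxK : x ∉ K := fun h => hx (Metric.self_subset_cthickening K h)
    have h0 : θ x = 0 := hθK x hxK
    have := hg2 x 0 (fun y hy => by
      rw [Metric.mem_ball, lt_min_iff] at hy
      have hyK : y ∉ K := by
        intro hyK
        apply hx
        apply Metric.mem_cthickening_of_dist_le x y δ K hyK
        rw [dist_comm]; exact hy.2.le
      rw [hθK y hyK, h0, dist_self])
    rw [h0] at this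
    exact dist_le_zero.1 this
  have hcl : IsClosed (Metric.cthickening δ K) := Metric.isClosed_cthickening
  have hct : IsCompact (Metric.cthickening δ K) := hK.cthickening
  have hts : tsupport g ⊆ Metric.cthickening δ K := by
    apply closure_minimal _ hcl
    intro x hx
    by_contra h
    exact hx (hgK x h)
  refine ⟨g, hg.of_le (by exact_mod_cast le_top), HasCompactSupport.intro hct hgK,
    hts.trans hδ2, fun x => ?_⟩
  have := hg2 x τ (fun y hy => by
    rw [Metric.mem_ball, lt_min_iff] at hy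
    exact (hρ2 hy.1).le)
  rw [dist_comm, Real.dist_eq] at this
  exact this

/-- The second item. -/
theorem pcv_item2 (h1 : Stmt_Ident) (h2 : Stmt_P0C2) (h3 : Stmt_Fib) (h4 : Stmt_Lift)
    (h5 : Stmt_PeProps) (hm : 2 ≤ m) {ε : ℕ → ℝ}
    {F : ℕ → Set (E (2 + m))} {F0 : Set ℂ}
    {lam : ℕ → Measure (E (2 + m))} {ν : ℕ → E (2 + m) → E (2 + m)}
    (H : LimD m ε F F0 lam ν) {η : E m → ℝ} {Θ : ℂ → ℂ → ℝ} {K : Set ℂ} (hη : Continuous η)
    (hΘ : Continuous (fun q : ℂ × ℂ => Θ q.1 q.2)) (hK : IsCompact K) (hKD : K ⊆ Dp m)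
    (hΘK : ∀ x, x ∉ K → ∀ p, Θ x p = 0) (hη0 : ∫ ζ in Metric.ball (0 : E m) 1, η ζ = 0) :
    Tendsto (fun j => ∫ p, η (zt m p) * Θ (px p) (px (ν j p)) ∂(lam j)) atTop (𝓝 0) := by
  have hom := omr_pos m
  obtain ⟨M, hM0, hM⟩ := pcv_mass H
  obtain ⟨b, hb0, hb⟩ := pcv_bdd_ball hη
  have hS : IsCompact (K ×ˢ Metric.closedBall (0 : ℂ) 1) :=
    hK.prod (isCompact_closedBall _ _)
  obtain ⟨T, hT0, hT⟩ : ∃ T : ℝ, 0 ≤ T ∧ ∀ x p, ‖p‖ ≤ 1 → |Θ x p| ≤ T := by
    obtain ⟨T, hT⟩ := hS.exists_bound_of_continuousOn hΘ.continuousOn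
    refine ⟨max T 0, le_max_right _ _, fun x p hp => ?_⟩
    by_cases hx : x ∈ K
    · exact (hT (x, p) ⟨hx, mem_closedBall_zero_iff.2 hp⟩).trans (le_max_left _ _)
    · rw [hΘK x hx, abs_zero]; exact le_max_right _ _
  rw [Metric.tendsto_nhds]
  intro r hr
  set τ : ℝ := min 1 (r / (2 * (b + 1) * (2 * M + 1))) with hτd
  have hτ : 0 < τ := lt_min one_pos (by positivity)
  have hτ1 : τ ≤ 1 := min_le_left _ _
  have hτr : b * (τ * (2 * M + 1)) ≤ r / 2 := by
    have e1 : τ ≤ r / (2 * (b + 1) * (2 * M + 1)) := min_le_right _ _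
    have e2 : τ * (2 * M + 1) ≤ r / (2 * (b + 1) * (2 * M + 1)) * (2 * M + 1) :=
      mul_le_mul_of_nonneg_right e1 (by linarith)
    have e3 : r / (2 * (b + 1) * (2 * M + 1)) * (2 * M + 1) = r / 2 / (b + 1) := by
      have : 2 * M + 1 ≠ 0 := by positivity
      field_simp
    rw [e3] at e2
    calc b * (τ * (2 * M + 1)) ≤ b * (r / 2 / (b + 1)) := mul_le_mul_of_nonneg_left e2 hb0
      _ = r / 2 * (b / (b + 1)) := by ring
      _ ≤ r / 2 * 1 := by
        apply mul_le_mul_of_nonneg_left _ (by positivity)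
        rw [div_le_one (by positivity)]; linarith
      _ = r / 2 := mul_one _
  obtain ⟨ρ, hρ, hρ2⟩ : ∃ ρ : ℝ, 0 < ρ ∧ ∀ x p q, ‖p‖ ≤ 1 → ‖q‖ ≤ 1 → ‖p - q‖ < ρ →
      |Θ x p - Θ x q| ≤ τ := by
    have huc := hS.uniformContinuousOn_of_continuous hΘ.continuousOn
    obtain ⟨ρ, hρ, hρ2⟩ := Metric.uniformContinuousOn_iff.1 huc τ hτ
    refine ⟨ρ, hρ, fun x p q hp hq hpq => ?_⟩
    by_cases hx : x ∈ K
    · have := hρ2 (x, p) ⟨hx, mem_closedBall_zero_iff.2 hp⟩ (x, q)
        ⟨hx, mem_closedBall_zero_iff.2 hq⟩ (by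
          rw [Prod.dist_eq, max_lt_iff]
          refine ⟨by simpa using hρ, ?_⟩
          rw [dist_eq_norm]; exact hpq)
      rw [Real.dist_eq] at this
      exact this.le
    · rw [hΘK x hx, hΘK x hx, sub_zero, abs_zero]; exact hτ.le
  set A : ℝ := 4 * T / ρ ^ 2 + T + 1 with hA
  have hA0 : 0 < A := by positivity
  have hδ : 0 < τ / (2 * omr m * A) := by positivity
  obtain ⟨Y, -, hY, hY1, hYD⟩ := (h2 m F0 hm H.meas0).2.2 H.fin0 _ hδ
  have hev3 := pcv_item3 h1 h2 h3 h4 h5 hm H hY hY1 hδ hYD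
  have hev3' : 2 * omr m * (τ / (2 * omr m * A)) = τ / A := by field_simp
  rw [hev3'] at hev3
  -- the function `Θ (x, Y x)`
  have hθc : Continuous fun x => Θ x (Y x) := hΘ.comp (continuous_id.prodMk hY.diff.continuous)
  obtain ⟨g, hg1, hg2, hg3, hg4⟩ := pcv_approx hθc hK hKD (fun x hx => hΘK x hx _) hτ
  have hgY : TFc (Dp m) (fun c => g c • Y c) := by
    refine ⟨hg1.smul hY.diff, hg2.smul_right, (closure_mono (fun x hx => ?_)).trans hg3⟩
    rw [Function.mem_support] at hx ⊢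
    exact left_ne_zero_of_smul hx
  have hlim := pcv_item1 h1 h2 h3 h4 h5 hm H hη hgY
  rw [hη0, zero_mul, Metric.tendsto_nhds] at hlim
  filter_upwards [hev3, hlim (r / 2) (by positivity)] with j hj1 hj2
  rw [Real.dist_eq, sub_zero] at hj2 ⊢
  have := (H.rep j).fin
  have hν := (H.rep j).meas
  have hΘm : Measurable fun p => Θ (px p) (px (ν j p)) :=
    hΘ.measurable.comp (measurable_px.prodMk (measurable_px.comp hν))
  have i1 := pcv_int_zt hm H j hη hΘm (fun p => hT _ _ (pcv_px_unit H j p))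
  obtain ⟨d, hd0, hd⟩ := pcv_bdd hgY.diff.continuous hgY.comp
  have i2 := pcv_int_zt hm H j hη (pcv_meas_inner H j hgY.diff.continuous)
    (pcv_abs_inner H j hd0 hd)
  have i3 : Integrable (fun p => ⟪Y (px p), px (ν j p)⟫) (lam j) := by
    have := pcv_int_zt hm H j (η := fun _ => (1 : ℝ)) continuous_const
      (pcv_meas_inner H j hY.diff.continuous) (pcv_abs_inner H j zero_le_one hY1)
    simpa only [one_mul] using this
  have i4 : Integrable (fun p => 1 - ⟪Y (px p), px (ν j p)⟫) (lam j) :=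
    (integrable_const _).sub i3
  have i5 : Integrable (fun p => A * (1 - ⟪Y (px p), px (ν j p)⟫)) (lam j) := i4.const_mul A
  have i6 : Integrable (fun p => b * (2 * τ + A * (1 - ⟪Y (px p), px (ν j p)⟫))) (lam j) :=
    ((integrable_const _).add i5).const_mul b
  have hpt : ∀ᵐ p ∂(lam j), |η (zt m p) * Θ (px p) (px (ν j p)) -
      η (zt m p) * ⟪g (px p) • Y (px p), px (ν j p)⟫| ≤
        b * (2 * τ + A * (1 - ⟪Y (px p), px (ν j p)⟫)) := by
    filter_upwards [pcv_ae_zt hm H j] with p hp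
    have hη1 : |η (zt m p)| ≤ b := hb _ hp.le
    generalize hn : px (ν j p) = n
    have hn1 : ‖n‖ ≤ 1 := by rw [← hn]; exact pcv_px_unit H j p
    generalize px p = x
    have hy1 : ‖Y x‖ ≤ 1 := hY1 x
    have hgx := hg4 x
    generalize hy : Y x = y at hy1 hgx ⊢
    rw [← mul_sub, abs_mul]
    apply mul_le_mul hη1 _ (abs_nonneg _) hb0
    have hq0 : 0 ≤ 1 - ⟪y, n⟫ := by
      have : ⟪y, n⟫ ≤ 1 := (real_inner_le_norm _ _).trans (mul_le_one₀ hy1 (norm_nonneg _) hn1)
      linarith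
    have hsq : ‖n - y‖ ^ 2 ≤ 2 * (1 - ⟪y, n⟫) := by
      rw [norm_sub_sq_real, real_inner_comm]
      have e1 : ‖n‖ ^ 2 ≤ 1 := pow_le_one₀ (norm_nonneg _) hn1
      have e2 : ‖y‖ ^ 2 ≤ 1 := pow_le_one₀ (norm_nonneg _) hy1
      linarith
    have hA1 : |Θ x n - Θ x y| ≤ τ + 4 * T / ρ ^ 2 * (1 - ⟪y, n⟫) := by
      rcases lt_or_ge ‖n - y‖ ρ with h | h
      · have := hρ2 x n y hn1 hy1 h
        have h6 : 0 ≤ 4 * T / ρ ^ 2 * (1 - ⟪y, n⟫) := by positivity
        linarith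
      · have e1 : |Θ x n - Θ x y| ≤ 2 * T := by
          refine (abs_sub _ _).trans ?_
          linarith [hT x n hn1, hT x y hy1]
        have e2 : ρ ^ 2 ≤ 2 * (1 - ⟪y, n⟫) :=
          (pow_le_pow_left₀ hρ.le h 2).trans hsq
        have e3 : 2 * T ≤ 4 * T / ρ ^ 2 * (1 - ⟪y, n⟫) := by
          rw [div_mul_eq_mul_div, le_div_iff₀ (by positivity)]
          nlinarith
        linarith
    have hgT : |g x| ≤ T + 1 := by
      have e1 : |g x| ≤ |Θ x y| + |Θ x y - g x| := by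
        have := abs_sub_abs_le_abs_sub (g x) (Θ x y)
        rw [abs_sub_comm (g x)] at this
        linarith
      linarith [hT x y hy1]
    have e1 : Θ x n - ⟪g x • y, n⟫ = (Θ x n - Θ x y) + (Θ x y - g x) + g x * (1 - ⟪y, n⟫) := by
      rw [real_inner_smul_left]; ring
    rw [e1]
    have e2 := abs_add_le ((Θ x n - Θ x y) + (Θ x y - g x)) (g x * (1 - ⟪y, n⟫))
    have e3 := abs_add_le (Θ x n - Θ x y) (Θ x y - g x)
    have e4 : |g x * (1 - ⟪y, n⟫)| ≤ (T + 1) * (1 - ⟪y, n⟫) := by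
      rw [abs_mul, abs_of_nonneg hq0]
      exact mul_le_mul_of_nonneg_right hgT hq0
    have e5 : A * (1 - ⟪y, n⟫) = 4 * T / ρ ^ 2 * (1 - ⟪y, n⟫) + (T + 1) * (1 - ⟪y, n⟫) := by
      rw [hA]; ring
    rw [e5]
    linarith
  have hdiff : |(∫ p, η (zt m p) * Θ (px p) (px (ν j p)) ∂(lam j)) -
      ∫ p, η (zt m p) * ⟪g (px p) • Y (px p), px (ν j p)⟫ ∂(lam j)| ≤ r / 2 := by
    rw [← integral_sub i1 i2]
    calc |∫ p, (η (zt m p) * Θ (px p) (px (ν j p)) -
          η (zt m p) * ⟪g (px p) • Y (px p), px (ν j p)⟫) ∂(lam j)|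
        ≤ ∫ p, |η (zt m p) * Θ (px p) (px (ν j p)) -
          η (zt m p) * ⟪g (px p) • Y (px p), px (ν j p)⟫| ∂(lam j) :=
          abs_integral_le_integral_abs
      _ ≤ ∫ p, b * (2 * τ + A * (1 - ⟪Y (px p), px (ν j p)⟫)) ∂(lam j) :=
          integral_mono_ae (i1.sub i2).abs i6 hpt
      _ = b * (2 * τ * (lam j univ).toReal +
          A * ∫ p, (1 - ⟪Y (px p), px (ν j p)⟫) ∂(lam j)) := by
          have i7 : ∫ _p, 2 * τ ∂(lam j) = 2 * τ * (lam j univ).toReal := by
            rw [integral_const, smul_eq_mul, mul_comm]; rfl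
          have i8 : ∫ p, A * (1 - ⟪Y (px p), px (ν j p)⟫) ∂(lam j) =
              A * ∫ p, (1 - ⟪Y (px p), px (ν j p)⟫) ∂(lam j) := integral_const_mul _ _
          rw [integral_const_mul, integral_add (integrable_const _) i5, i7, i8]
      _ ≤ b * (2 * τ * M + A * (τ / A)) := by
          apply mul_le_mul_of_nonneg_left _ hb0
          exact add_le_add (mul_le_mul_of_nonneg_left (hM j) (by positivity))
            (mul_le_mul_of_nonneg_left hj1 hA0.le)
      _ = b * (τ * (2 * M + 1)) := by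
          field_simp
      _ ≤ r / 2 := hτr
  have e5 := abs_sub_abs_le_abs_sub (∫ p, η (zt m p) * Θ (px p) (px (ν j p)) ∂(lam j))
    (∫ p, η (zt m p) * ⟪g (px p) • Y (px p), px (ν j p)⟫ ∂(lam j))
  linarith

end pcv

/-- Task T22. -/
theorem prodConv (h1 : Stmt_Ident) (h2 : Stmt_P0C2) (h3 : Stmt_Fib) (h4 : Stmt_Lift)
    (h5 : Stmt_PeProps) : Stmt_ProdConv := by
  intro m ε F F0 lam ν hm H
  refine ⟨fun η Y hη hY => pcv_item1 h1 h2 h3 h4 h5 hm H hη hY,
    fun η Θ K hη hΘ hK hKD hΘK hη0 => pcv_item2 h1 h2 h3 h4 h5 hm H hη hΘ hK hKD hΘK hη0,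
    fun Y δ hY hY1 hδ hD => pcv_item3 h1 h2 h3 h4 h5 hm H hY hY1 hδ hD⟩

end Pool.Agent.Lib.MP_c95dcf_gt
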