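import Pool.Agent.Lib.MP_c95dcf_gt.Mg.G002

/-!
# MP_c95dcf_gt, part T, task T08: the variation of the mass of the slices
-/

set_option autoImplicit false

open MeasureTheory Set Filter Topology
open scoped ENNReal NNReal RealInnerProductSpace

namespace Pool.Agent.Lib.MP_c95dcf_gt

variable {m : ℕ}

/-- The vertical test field. -/
noncomputable def svX (m : ℕ) (χ : ℂ → ℝ) (Z : E m → E m) (p : E (2 + m)) : E (2 + m) :=
  jn 0 ((χ (px p) * wp m ‖px p‖) • Z (zt m p))

theorem sv_isOpen_Dp (m : ℕ) : IsOpen (Dp m) :=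
  Metric.isOpen_ball.sdiff isClosed_singleton

theorem sv_contDiffAt_wp (hm : 0 < m) {p : E (2 + m)} (hp : px p ∈ Dp m) :
    ContDiffAt ℝ 1 (fun p : E (2 + m) => wp m ‖px p‖) p := by
  have h0 : px p ≠ 0 := hp.2
  have h1 : ContDiffAt ℝ 1 (fun p : E (2 + m) => 1 - ‖px p‖ / (m : ℝ)) p :=
    contDiffAt_const.sub (((contDiffAt_norm ℝ h0).comp p contDiff_px.contDiffAt).div_const _)
  refine h1.congr_of_eventuallyEq ?_
  have hopen : IsOpen (px ⁻¹' (Metric.ball (0 : ℂ) m) : Set (E (2 + m))) :=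
    Metric.isOpen_ball.preimage continuous_px
  filter_upwards [hopen.mem_nhds hp.1] with q hq
  exact (wp_of_lt hm (mem_ball_zero_iff.1 hq)).1

theorem sv_contDiffAt_zt (hm : 0 < m) {p : E (2 + m)} (hp : px p ∈ Dp m) :
    ContDiffAt ℝ 1 (fun p : E (2 + m) => zt m p) p := by
  unfold zt
  have h0 : wp m ‖px p‖ ≠ 0 := (wp_of_lt hm (mem_ball_zero_iff.1 hp.1)).2.ne'
  exact ((sv_contDiffAt_wp hm hp).inv h0).smul contDiff_pz.contDiffAt

theorem sv_contDiff (hm : 0 < m) {χ : ℂ → ℝ} {Z : E m → E m} (hχ : ContDiff ℝ 1 χ)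
    (hs : tsupport χ ⊆ Dp m) (hZ : ContDiff ℝ 1 Z) : ContDiff ℝ 1 (svX m χ Z) := by
  rw [contDiff_iff_contDiffAt]
  intro p
  by_cases hp : px p ∈ tsupport χ
  · have h1 : ContDiffAt ℝ 1 (fun p : E (2 + m) =>
        ((0 : ℂ), (χ (px p) * wp m ‖px p‖) • Z (zt m p))) p :=
      contDiffAt_const.prodMk
        (((hχ.contDiffAt.comp p contDiff_px.contDiffAt).mul (sv_contDiffAt_wp hm (hs hp))).smul
          (hZ.contDiffAt.comp p (sv_contDiffAt_zt hm (hs hp))))
    exact contDiff_jn.contDiffAt.comp p h1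
  · have hopen : IsOpen (px ⁻¹' (tsupport χ)ᶜ : Set (E (2 + m))) :=
      (isClosed_tsupport χ).isOpen_compl.preimage continuous_px
    have h0 : svX m χ Z =ᶠ[𝓝 p] fun _ => 0 := by
      filter_upwards [hopen.mem_nhds hp] with q hq
      have : χ (px q) = 0 := image_eq_zero_of_notMem_tsupport hq
      rw [svX, this, zero_mul, zero_smul]
      rw [← jn_px_pz (0 : E (2 + m)), px_zero, pz_zero]
    exact contDiffAt_const.congr_of_eventuallyEq h0

/-- The compact set containing the support. -/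
def svK (m : ℕ) (S : Set ℂ) (T : Set (E m)) : Set (E (2 + m)) :=
  (fun q : ℂ × E m => (jn q.1 (wp m ‖q.1‖ • q.2) : E (2 + m))) '' (S ×ˢ T)

theorem sv_continuous_wp (m : ℕ) : Continuous (fun c : ℂ => wp m ‖c‖) := by
  unfold wp
  exact continuous_const.max (continuous_const.sub (continuous_norm.div_const _))

theorem sv_isCompact_K {S : Set ℂ} {T : Set (E m)} (hS : IsCompact S) (hT : IsCompact T) :
    IsCompact (svK m S T) := by
  refine (hS.prod hT).image ?_
  have h : Continuous (fun q : ℂ × E m => ((q.1, wp m ‖q.1‖ • q.2) : ℂ × E m)) :=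
    continuous_fst.prodMk (((sv_continuous_wp m).comp continuous_fst).smul continuous_snd)
  exact continuous_jn.comp h

theorem sv_K_subset (hm : 0 < m) {S : Set ℂ} {T : Set (E m)} (hS : S ⊆ Metric.ball 0 m)
    (hT : T ⊆ Metric.ball 0 1) : svK m S T ⊆ Ub m 1 := by
  rintro _ ⟨⟨c, ζ⟩, ⟨hc, hζ⟩, rfl⟩
  exact (jn_wp_mem hm (mem_ball_zero_iff.1 (hS hc)) ζ).2 (mem_ball_zero_iff.1 (hT hζ))

theorem sv_mem_K (hm : 0 < m) {S : Set ℂ} {T : Set (E m)} (hS : S ⊆ Metric.ball 0 m)
    {p : E (2 + m)} (h1 : px p ∈ S) (h2 : zt m p ∈ T) : p ∈ svK m S T := by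
  refine ⟨(px p, zt m p), ⟨h1, h2⟩, ?_⟩
  simp only
  rw [wp_smul_zt hm (mem_ball_zero_iff.1 (hS h1)), jn_px_pz]

theorem sv_TF (hm : 0 < m) {χ : ℂ → ℝ} {Z : E m → E m} (hχ : ContDiff ℝ 1 χ)
    (hc : HasCompactSupport χ) (hs : tsupport χ ⊆ Dp m) (hZ : TF (Metric.ball (0 : E m) 1) Z) :
    TF (Ub m 1) (svX m χ Z) := by
  have hsub : tsupport χ ⊆ Metric.ball (0 : ℂ) m := hs.trans sdiff_subset
  have hK : IsCompact (svK m (tsupport χ) (tsupport Z)) := sv_isCompact_K hc hZ.comp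
  have hsupp : Function.support (svX m χ Z) ⊆ svK m (tsupport χ) (tsupport Z) := by
    intro p hp
    by_contra hn
    apply hp
    have h0 : (χ (px p) * wp m ‖px p‖) • Z (zt m p) = 0 := by
      by_cases h1 : px p ∈ tsupport χ
      · by_cases h2 : zt m p ∈ tsupport Z
        · exact (hn (sv_mem_K hm hsub h1 h2)).elim
        · rw [image_eq_zero_of_notMem_tsupport h2, smul_zero]
      · rw [image_eq_zero_of_notMem_tsupport h1, zero_mul, zero_smul]
    rw [svX, h0, ← jn_px_pz (0 : E (2 + m)), px_zero, pz_zero]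
  have hts : tsupport (svX m χ Z) ⊆ svK m (tsupport χ) (tsupport Z) :=
    closure_minimal hsupp hK.isClosed
  exact ⟨sv_contDiff hm hχ hs hZ.diff, hK.of_isClosed_subset (isClosed_tsupport _) hts,
    hts.trans (sv_K_subset hm hsub hZ.supp)⟩

theorem sv_single (i : Fin m) :
    (EuclideanSpace.single (Fin.natAdd 2 i) (1 : ℝ) : E (2 + m)) =
      jn 0 (EuclideanSpace.single i (1 : ℝ)) := by
  ext j
  refine Fin.addCases (fun j => ?_) (fun j => ?_) j
  · have : (Fin.castAdd m j : Fin (2 + m)) ≠ Fin.natAdd 2 i := by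
      intro h
      have := congrArg Fin.val h
      simp only [Fin.val_castAdd, Fin.val_natAdd] at this
      omega
    have h0 : (EuclideanSpace.single (Fin.natAdd 2 i) (1 : ℝ) : E (2 + m)) (Fin.castAdd m j) = 0 := by
      simp [this]
    rw [h0]
    fin_cases j <;> simp [jn]
  · simp only [jn, PiLp.single_apply, Fin.append_right]
    by_cases h : j = i
    · subst h; simp
    · have h' : Fin.natAdd 2 j ≠ Fin.natAdd 2 i := fun h2 => h (Fin.natAdd_injective m 2 h2)
      simp [h, h']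

theorem sv_fderiv_castAdd (hm : 0 < m) {χ : ℂ → ℝ} {Z : E m → E m} (hχ : ContDiff ℝ 1 χ)
    (hs : tsupport χ ⊆ Dp m) (hZ : ContDiff ℝ 1 Z) (p v : E (2 + m)) (i : Fin 2) :
    (fderiv ℝ (svX m χ Z) p v) (Fin.castAdd m i) = 0 := by
  have hd : HasFDerivAt (svX m χ Z) (fderiv ℝ (svX m χ Z) p) p :=
    ((sv_contDiff hm hχ hs hZ).differentiable one_ne_zero p).hasFDerivAt
  have h1 : HasFDerivAt (fun q => (svX m χ Z q) (Fin.castAdd m i))
      ((EuclideanSpace.proj (Fin.castAdd m i) : E (2 + m) →L[ℝ] ℝ).comp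
        (fderiv ℝ (svX m χ Z) p)) p :=
    (EuclideanSpace.proj (Fin.castAdd m i) : E (2 + m) →L[ℝ] ℝ).hasFDerivAt.comp p hd
  have h2 : (fun q => (svX m χ Z q) (Fin.castAdd m i)) = fun _ => (0 : ℝ) := by
    funext q
    fin_cases i <;> simp [svX, jn]
  rw [h2] at h1
  have h3 := h1.unique (hasFDerivAt_const (0 : ℝ) p)
  have h4 := congrArg (fun L : E (2 + m) →L[ℝ] ℝ => L v) h3
  simpa using h4

theorem sv_fderiv_natAdd (hm : 0 < m) {χ : ℂ → ℝ} {Z : E m → E m} (hχ : ContDiff ℝ 1 χ)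
    (hs : tsupport χ ⊆ Dp m) (hZ : ContDiff ℝ 1 Z) (p : E (2 + m)) (i : Fin m) :
    (fderiv ℝ (svX m χ Z) p (EuclideanSpace.single (Fin.natAdd 2 i) (1 : ℝ))) (Fin.natAdd 2 i) =
      χ (px p) * (fderiv ℝ Z (zt m p) (EuclideanSpace.single i (1 : ℝ))) i := by
  have hd : HasFDerivAt (svX m χ Z) (fderiv ℝ (svX m χ Z) p) p :=
    ((sv_contDiff hm hχ hs hZ).differentiable one_ne_zero p).hasFDerivAt
  by_cases hp : px p ∈ tsupport χ
  · have hpD := hs hp
    have hw : 0 < wp m ‖px p‖ := (wp_of_lt hm (mem_ball_zero_iff.1 hpD.1)).2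
    set e : E m := EuclideanSpace.single i (1 : ℝ) with he
    -- the curve
    have hcurve : HasDerivAt (fun t : ℝ => p + t • (jn 0 e : E (2 + m))) (jn 0 e) 0 := by
      have := ((hasDerivAt_id (0 : ℝ)).smul_const (jn 0 e : E (2 + m))).const_add p
      simpa using this
    have hd' : HasFDerivAt (svX m χ Z) (fderiv ℝ (svX m χ Z) p)
        (p + (0 : ℝ) • (jn 0 e : E (2 + m))) := by simpa using hd
    have h1 : HasDerivAt (fun t : ℝ => svX m χ Z (p + t • (jn 0 e : E (2 + m))))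
        (fderiv ℝ (svX m χ Z) p (jn 0 e)) 0 :=
      HasFDerivAt.comp_hasDerivAt (f := fun t : ℝ => p + t • (jn 0 e : E (2 + m))) 0 hd' hcurve
    have h2 : HasDerivAt (fun t : ℝ => (svX m χ Z (p + t • (jn 0 e : E (2 + m)))) (Fin.natAdd 2 i))
        ((fderiv ℝ (svX m χ Z) p (jn 0 e)) (Fin.natAdd 2 i)) 0 := by
      have := (EuclideanSpace.proj (Fin.natAdd 2 i) : E (2 + m) →L[ℝ] ℝ).hasFDerivAt.comp_hasDerivAt
        (0 : ℝ) h1
      exact this
    have h3 : (fun t : ℝ => (svX m χ Z (p + t • (jn 0 e : E (2 + m)))) (Fin.natAdd 2 i)) =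
        fun t : ℝ => (χ (px p) * wp m ‖px p‖) *
          (Z (zt m p + t • ((wp m ‖px p‖)⁻¹ • e))) i := by
      funext t
      have e1 : px (p + t • (jn 0 e : E (2 + m))) = px p := by
        rw [px_add, px_smul, px_jn, smul_zero, add_zero]
      have e2 : zt m (p + t • (jn 0 e : E (2 + m))) = zt m p + t • ((wp m ‖px p‖)⁻¹ • e) := by
        rw [zt, e1, pz_add, pz_smul, pz_jn, smul_add, zt, smul_comm t]
      rw [svX, e1, e2]
      simp [jn]
    have hcurve2 : HasDerivAt (fun t : ℝ => zt m p + t • ((wp m ‖px p‖)⁻¹ • e))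
        ((wp m ‖px p‖)⁻¹ • e) 0 := by
      have := ((hasDerivAt_id (0 : ℝ)).smul_const ((wp m ‖px p‖)⁻¹ • e)).const_add (zt m p)
      simpa using this
    have hdZ : HasFDerivAt Z (fderiv ℝ Z (zt m p))
        (zt m p + (0 : ℝ) • ((wp m ‖px p‖)⁻¹ • e)) := by
      simpa using (hZ.differentiable one_ne_zero (zt m p)).hasFDerivAt
    have h4 : HasDerivAt (fun t : ℝ => Z (zt m p + t • ((wp m ‖px p‖)⁻¹ • e)))
        (fderiv ℝ Z (zt m p) ((wp m ‖px p‖)⁻¹ • e)) 0 := hdZ.comp_hasDerivAt 0 hcurve2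
    have h5 : HasDerivAt (fun t : ℝ => (Z (zt m p + t • ((wp m ‖px p‖)⁻¹ • e))) i)
        ((fderiv ℝ Z (zt m p) ((wp m ‖px p‖)⁻¹ • e)) i) 0 := by
      have := (EuclideanSpace.proj i : E m →L[ℝ] ℝ).hasFDerivAt.comp_hasDerivAt (0 : ℝ) h4
      exact this
    have h6 := h5.const_mul (χ (px p) * wp m ‖px p‖)
    rw [← h3] at h6
    have h7 := h2.unique h6
    rw [sv_single, h7, map_smul]
    simp only [PiLp.smul_apply, smul_eq_mul]
    field_simp
  · have hopen : IsOpen (px ⁻¹' (tsupport χ)ᶜ : Set (E (2 + m))) :=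
      (isClosed_tsupport χ).isOpen_compl.preimage continuous_px
    have h0 : svX m χ Z =ᶠ[𝓝 p] fun _ => 0 := by
      filter_upwards [hopen.mem_nhds hp] with q hq
      have : χ (px q) = 0 := image_eq_zero_of_notMem_tsupport hq
      rw [svX, this, zero_mul, zero_smul]
      rw [← jn_px_pz (0 : E (2 + m)), px_zero, pz_zero]
    rw [h0.fderiv_eq, image_eq_zero_of_notMem_tsupport hp]
    simp

theorem sv_dve (hm : 0 < m) (ε : ℝ) {χ : ℂ → ℝ} {Z : E m → E m} (hχ : ContDiff ℝ 1 χ)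
    (hs : tsupport χ ⊆ Dp m) (hZ : ContDiff ℝ 1 Z) (p : E (2 + m)) :
    dve ε (svX m χ Z) p = ε⁻¹ * (χ (px p) * dv Z (zt m p)) := by
  unfold dve dv
  simp_rw [sv_fderiv_castAdd hm hχ hs hZ, sv_fderiv_natAdd hm hχ hs hZ]
  rw [Finset.sum_const_zero, zero_add, ← Finset.mul_sum]

/-- The cut-off functions. -/
noncomputable def svChi (m k : ℕ) (c : ℂ) : ℝ :=
  Real.smoothTransition (k * ‖c‖ ^ 2 - 1) * Real.smoothTransition (k * ((m : ℝ) ^ 2 - ‖c‖ ^ 2) - 1)

theorem svChi_contDiff (m k : ℕ) : ContDiff ℝ 1 (svChi m k) := by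
  have h1 : ContDiff ℝ 1 (fun c : ℂ => ‖c‖ ^ 2) := contDiff_norm_sq ℝ
  exact (Real.smoothTransition.contDiff.comp ((contDiff_const.mul h1).sub contDiff_const)).mul
    (Real.smoothTransition.contDiff.comp
      ((contDiff_const.mul (contDiff_const.sub h1)).sub contDiff_const))

theorem svChi_nonneg (m k : ℕ) (c : ℂ) : 0 ≤ svChi m k c :=
  mul_nonneg (Real.smoothTransition.nonneg _) (Real.smoothTransition.nonneg _)

theorem svChi_le_one (m k : ℕ) (c : ℂ) : svChi m k c ≤ 1 :=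
  mul_le_one₀ (Real.smoothTransition.le_one _) (Real.smoothTransition.nonneg _)
    (Real.smoothTransition.le_one _)

theorem svChi_tsupport (hm : 0 < m) (k : ℕ) : tsupport (svChi m k) ⊆ Dp m := by
  have hm' : (0 : ℝ) < m := by exact_mod_cast hm
  have hcl : IsClosed {c : ℂ | 1 ≤ k * ‖c‖ ^ 2 ∧ 1 ≤ k * ((m : ℝ) ^ 2 - ‖c‖ ^ 2)} := by
    have hcl1 : IsClosed {c : ℂ | 1 ≤ (k : ℝ) * ‖c‖ ^ 2} := isClosed_le continuous_const (by fun_prop)
    have hcl2 : IsClosed {c : ℂ | 1 ≤ (k : ℝ) * ((m : ℝ) ^ 2 - ‖c‖ ^ 2)} :=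
      isClosed_le continuous_const (by fun_prop)
    exact hcl1.inter hcl2
  have h1 : tsupport (svChi m k) ⊆ {c : ℂ | 1 ≤ k * ‖c‖ ^ 2 ∧ 1 ≤ k * ((m : ℝ) ^ 2 - ‖c‖ ^ 2)} := by
    refine closure_minimal ?_ hcl
    intro c hc
    constructor
    · by_contra h
      push Not at h
      exact hc (by simp only [svChi]; rw [Real.smoothTransition.zero_of_nonpos (by linarith), zero_mul])
    · by_contra h
      push Not at h
      exact hc (by
        simp only [svChi]
        rw [Real.smoothTransition.zero_of_nonpos (x := k * ((m : ℝ) ^ 2 - ‖c‖ ^ 2) - 1)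
          (by linarith), mul_zero])
  intro c hc
  obtain ⟨h2, h3⟩ := h1 hc
  constructor
  · rw [mem_ball_zero_iff]
    by_contra h
    push Not at h
    have : (m : ℝ) ^ 2 ≤ ‖c‖ ^ 2 := pow_le_pow_left₀ hm'.le h 2
    have h4 : (k : ℝ) * ((m : ℝ) ^ 2 - ‖c‖ ^ 2) ≤ 0 :=
      mul_nonpos_of_nonneg_of_nonpos (Nat.cast_nonneg k) (by linarith)
    linarith
  · intro h
    rw [mem_singleton_iff] at h
    rw [h, norm_zero] at h2
    norm_num at h2

theorem svChi_compact (hm : 0 < m) (k : ℕ) : HasCompactSupport (svChi m k) := by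
  refine (isCompact_closedBall (0 : ℂ) m).of_isClosed_subset (isClosed_tsupport _) ?_
  exact (svChi_tsupport hm k).trans (sdiff_subset.trans Metric.ball_subset_closedBall)

theorem svChi_tendsto {c : ℂ} (hc : c ∈ Dp m) : Tendsto (fun k => svChi m k c) atTop (𝓝 1) := by
  have h1 : 0 < ‖c‖ ^ 2 := by
    have : 0 < ‖c‖ := norm_pos_iff.2 hc.2
    positivity
  have h2 : 0 < (m : ℝ) ^ 2 - ‖c‖ ^ 2 := by
    have h := mem_ball_zero_iff.1 hc.1
    have := pow_lt_pow_left₀ h (norm_nonneg c) two_ne_zero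
    linarith
  refine tendsto_const_nhds.congr' ?_
  have e1 : ∀ᶠ k : ℕ in atTop, 2 / ‖c‖ ^ 2 ≤ (k : ℝ) :=
    tendsto_natCast_atTop_atTop.eventually_ge_atTop _
  have e2 : ∀ᶠ k : ℕ in atTop, 2 / ((m : ℝ) ^ 2 - ‖c‖ ^ 2) ≤ (k : ℝ) :=
    tendsto_natCast_atTop_atTop.eventually_ge_atTop _
  filter_upwards [e1, e2] with k hk1 hk2
  rw [div_le_iff₀ h1] at hk1
  rw [div_le_iff₀ h2] at hk2
  rw [svChi, Real.smoothTransition.one_of_one_le (by linarith),
    Real.smoothTransition.one_of_one_le (by linarith), one_mul]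

theorem sv_null (m : ℕ) : volume {p : E (2 + m) | px p = 0} = 0 := by
  have h : {p : E (2 + m) | px p = 0} =
      (fun p : E (2 + m) => (px p, pz p)) ⁻¹' (({0} : Set ℂ) ×ˢ (univ : Set (E m))) := by
    ext p; simp
  rw [h, (mp_split m).measure_preimage
    ((measurableSet_singleton (0 : ℂ)).prod MeasurableSet.univ).nullMeasurableSet, Measure.prod_prod]
  simp

theorem sv_bounded (hm : 0 < m) : volume (Ub m 1) < ∞ := by
  have hbd : Bornology.IsBounded (Ub m 1) := by
    refine (Metric.isBounded_ball (x := (0 : E (2 + m))) (r := (m : ℝ) + 1)).subset ?_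
    intro p hp
    rw [mem_ball_zero_iff]
    have h1 := px_lt_of_mem hm hp
    have h2 : ‖pz p‖ < 1 := by
      refine lt_of_lt_of_le ((mem_Ub_one hm p).1 hp) ?_
      unfold wp
      refine max_le zero_le_one ?_
      have : 0 ≤ ‖px p‖ / (m : ℝ) := div_nonneg (norm_nonneg _) (Nat.cast_nonneg m)
      linarith
    calc ‖p‖ = ‖jn (px p) (pz p)‖ := by rw [jn_px_pz]
      _ ≤ ‖px p‖ + ‖pz p‖ := norm_jn_le _ _
      _ < m + 1 := by linarith
  exact hbd.measure_lt_top

theorem sv_dv_cont {Z : E m → E m} (hZ : ContDiff ℝ 1 Z) : Continuous (dv Z) := by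
  unfold dv
  refine continuous_finsetSum _ fun i _ => ?_
  exact (EuclideanSpace.proj i : E m →L[ℝ] ℝ).continuous.comp
    ((hZ.continuous_fderiv one_ne_zero).clm_apply continuous_const)

theorem sv_dv_bdd {Z : E m → E m} (hZ : ContDiff ℝ 1 Z) (hc : HasCompactSupport Z) :
    ∃ C : ℝ, ∀ x, |dv Z x| ≤ C := by
  have h1 : HasCompactSupport (dv Z) := by
    refine hc.mono' ?_
    intro x hx
    by_contra h
    apply hx
    have h0 : Z =ᶠ[𝓝 x] fun _ => 0 := by
      filter_upwards [(isClosed_tsupport Z).isOpen_compl.mem_nhds h] with y hy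
      exact image_eq_zero_of_notMem_tsupport hy
    unfold dv
    rw [h0.fderiv_eq]
    simp
  obtain ⟨C, hC⟩ := h1.exists_bound_of_continuous (sv_dv_cont hZ)
  exact ⟨C, fun x => by simpa using hC x⟩

/-- Task T08. -/
theorem sliceV (h : Stmt_Fib) : Stmt_SliceV := by
  intro m ε A lam ν hm2 hε hA hAU hW Z hZ hZ1
  have hm : 0 < m := by omega
  have hfinl : IsFiniteMeasure lam := hW.fin
  obtain ⟨C, hC⟩ := sv_dv_bdd hZ.diff hZ.comp
  have hmz : Measurable (fun p : E (2 + m) => zt m p) := by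
    unfold zt
    exact (((sv_continuous_wp m).measurable.comp measurable_px).inv).smul measurable_pz
  -- the inequality for every cut-off function
  have key : ∀ k : ℕ, ∫ p in A, svChi m k (px p) * dv Z (zt m p) ≤ ε * ∫ p, ‖pz (ν p)‖ ∂lam := by
    intro k
    have hTF := sv_TF hm (svChi_contDiff m k) (svChi_compact hm k) (svChi_tsupport hm k) hZ
    have hr := hW.repr _ hTF
    simp_rw [sv_dve hm ε (svChi_contDiff m k) (svChi_tsupport hm k) hZ.diff] at hr
    rw [integral_const_mul] at hr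
    have hle : ∫ p, ⟪svX m (svChi m k) Z p, ν p⟫ ∂lam ≤ ∫ p, ‖pz (ν p)‖ ∂lam := by
      have hint2 : Integrable (fun p => ‖pz (ν p)‖) lam := by
        refine Integrable.of_bound (C := 1)
          (measurable_pz.comp hW.meas).norm.aestronglyMeasurable (Eventually.of_forall fun p => ?_)
        rw [norm_norm]
        exact (norm_pz_le _).trans (hW.unit p).le
      have hint1 : Integrable (fun p => ⟪svX m (svChi m k) Z p, ν p⟫) lam := by
        have hcont : Continuous (svX m (svChi m k) Z) := hTF.diff.continuous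
        obtain ⟨D, hD⟩ := hTF.comp.exists_bound_of_continuous hcont
        refine Integrable.of_bound (C := D)
          (hcont.measurable.inner hW.meas).aestronglyMeasurable (Eventually.of_forall fun p => ?_)
        calc ‖⟪svX m (svChi m k) Z p, ν p⟫‖ ≤ ‖svX m (svChi m k) Z p‖ * ‖ν p‖ := norm_inner_le_norm _ _
          _ ≤ D := by rw [hW.unit, mul_one]; exact hD p
      refine integral_mono hint1 hint2 fun p => ?_
      simp only
      rw [inner_split, svX, px_jn, pz_jn, inner_zero_left, zero_add]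
      calc ⟪(svChi m k (px p) * wp m ‖px p‖) • Z (zt m p), pz (ν p)⟫
          ≤ ‖(svChi m k (px p) * wp m ‖px p‖) • Z (zt m p)‖ * ‖pz (ν p)‖ := real_inner_le_norm _ _
        _ ≤ 1 * ‖pz (ν p)‖ := by
            refine mul_le_mul_of_nonneg_right ?_ (norm_nonneg _)
            rw [norm_smul, Real.norm_of_nonneg (mul_nonneg (svChi_nonneg m k _) (wp_nonneg m _))]
            have hw1 : wp m ‖px p‖ ≤ 1 := by
              unfold wp
              refine max_le zero_le_one ?_
              have : 0 ≤ ‖px p‖ / (m : ℝ) := div_nonneg (norm_nonneg _) (Nat.cast_nonneg m)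
              linarith
            exact mul_le_one₀ (mul_le_one₀ (svChi_le_one m k _) (wp_nonneg m _) hw1)
              (norm_nonneg _) (hZ1 _)
        _ = ‖pz (ν p)‖ := one_mul _
    rw [← hr] at hle
    rwa [inv_mul_le_iff₀ hε] at hle
  -- the limit
  have hlim : Tendsto (fun k : ℕ => ∫ p in A, svChi m k (px p) * dv Z (zt m p)) atTop
      (𝓝 (∫ p in A, dv Z (zt m p))) := by
    have hfinA : volume A < ∞ := (measure_mono hAU).trans_lt (sv_bounded hm)
    have : IsFiniteMeasure (volume.restrict A) := ⟨by rwa [Measure.restrict_apply_univ]⟩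
    refine tendsto_integral_of_dominated_convergence (fun _ => C) ?_ (integrable_const _) ?_ ?_
    · intro k
      exact (((svChi_contDiff m k).continuous.measurable.comp measurable_px).mul
        ((sv_dv_cont hZ.diff).measurable.comp hmz)).aestronglyMeasurable
    · intro k
      refine Eventually.of_forall fun p => ?_
      rw [Real.norm_eq_abs, abs_mul, abs_of_nonneg (svChi_nonneg m k _)]
      calc svChi m k (px p) * |dv Z (zt m p)| ≤ 1 * |dv Z (zt m p)| :=
            mul_le_mul_of_nonneg_right (svChi_le_one m k _) (abs_nonneg _)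
        _ ≤ C := by rw [one_mul]; exact hC _
    · have hn : ∀ᵐ p : E (2 + m), px p ≠ 0 := by
        rw [ae_iff]
        simpa using sv_null m
      filter_upwards [ae_restrict_of_ae hn, ae_restrict_mem hA] with p hp0 hpA
      have hpD : px p ∈ Dp m := ⟨mem_ball_zero_iff.2 (px_lt_of_mem hm (hAU hpA)), hp0⟩
      simpa using (svChi_tendsto hpD).mul_const (dv Z (zt m p))
  have hfinal : ∫ p in A, dv Z (zt m p) ≤ ε * ∫ p, ‖pz (ν p)‖ ∂lam := le_of_tendsto' hlim key
  -- fibre integration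
  obtain ⟨hmeas, hfib, -, -, -⟩ := h m A hm2 hA hAU
  have hf := (hfib (fun _ ζ => dv Z ζ) C ((sv_dv_cont hZ.diff).measurable.comp measurable_snd)
    (fun _ ζ => hC ζ)).2
  rw [hf] at hfinal
  refine le_trans (le_of_eq ?_) hfinal
  refine setIntegral_congr_fun measurableSet_ball fun ζ _ => ?_
  simp only
  rw [integral_const_mul, mul_comm]
  congr 1
  have : As m A ζ ∩ Metric.ball (0 : ℂ) m = As m A ζ := inter_eq_left.2 fun c hc => hc.1
  rw [V0, this]

end Pool.Agent.Lib.MP_c95dcf_gt
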