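import Pool.Agent.Lib.MP_c95dcf_gt.Mg.G002

/-!
# MP_c95dcf_gt, task T21: convergence of the pieces and of their perimeters
-/

set_option autoImplicit false

open MeasureTheory Set Filter Topology
open scoped ENNReal NNReal RealInnerProductSpace

namespace Pool.Agent.Lib.MP_c95dcf_gt

namespace StrictAux

variable {m : ℕ}

theorem Pe_empty (ε : ℝ) : Pe m ε ∅ = 0 := by
  simp [Pe]

theorem lift_diff (A B : Set ℂ) : lift m (A \ B) = lift m A \ lift m B := by
  ext p; simp only [lift, mem_ofPred_eq, Set.mem_sdiff]; tauto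

theorem lift_union (A B : Set ℂ) : lift m (A ∪ B) = lift m A ∪ lift m B := by
  ext p; simp only [lift, mem_ofPred_eq, mem_union]; tauto

theorem lift_sub (A : Set ℂ) : lift m A ⊆ Ub m 1 := fun _ h => h.1

/-- The weighted perimeter is subadditive for disjoint decompositions. -/
theorem P0_le_add {A F : Set ℂ} (hA : MeasurableSet A) (hF : MeasurableSet F) (hFA : F ⊆ A) :
    P0 m A ≤ P0 m F + P0 m (A \ F) := by
  refine iSup₂_le fun Y hY => ?_
  have hint : Integrable (dvc Y) := by
    have hc : Continuous (fderiv ℝ Y) := hY.1.diff.continuous_fderiv (by norm_num)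
    have hcont : Continuous (dvc Y) := by
      unfold dvc
      exact (Complex.continuous_re.comp (hc.clm_apply continuous_const)).add
        (Complex.continuous_im.comp (hc.clm_apply continuous_const))
    refine hcont.integrable_of_hasCompactSupport ?_
    have h1 : HasCompactSupport (fderiv ℝ Y) := hY.1.comp.fderiv (𝕜 := ℝ)
    refine h1.mono ?_
    intro c hc' h0
    apply hc'
    simp [dvc, h0]
  have hsplit : ∫ c in A, dvc Y c = (∫ c in F, dvc Y c) + ∫ c in A \ F, dvc Y c := by
    have h : A = F ∪ (A \ F) := (union_sdiff_cancel hFA).symm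
    conv_lhs => rw [h]
    exact setIntegral_union disjoint_sdiff_right (hA.diff hF) hint.integrableOn hint.integrableOn
  rw [hsplit]
  refine ENNReal.ofReal_add_le.trans (add_le_add ?_ ?_)
  · exact le_iSup₂_of_le Y hY le_rfl
  · exact le_iSup₂_of_le Y hY le_rfl

theorem fT_zero (κ t : ℝ) (ht : 0 < t) : fT m κ t 0 = 0 := by
  have h1 : 0 < omr m := omr_pos m
  have h2 : 0 ≤ vU m := by
    unfold vU
    refine mul_nonneg h1.le ?_
    unfold V0
    refine integral_nonneg fun c => ?_
    exact pow_nonneg (wp_nonneg m _) m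
  have h3 : (0 : ℝ) ≤ omr m * t := (mul_pos h1 ht).le
  simp only [fT]
  rw [min_eq_left h3, max_eq_left (by linarith)]
  simp

theorem fT_ge (κ t v : ℝ) (hκ : 0 < κ) : -(κ * (omr m * t)) ≤ fT m κ t v := by
  unfold fT
  have h1 : κ * min v (omr m * t) ≤ κ * (omr m * t) :=
    mul_le_mul_of_nonneg_left (min_le_right _ _) hκ.le
  have h2 : (0 : ℝ) ≤ max 0 (v - vU m / 2) := le_max_left _ _
  linarith

theorem continuous_fT (κ t : ℝ) : Continuous (fT m κ t) := by
  unfold fT; fun_prop

theorem Pe_min_le {κ t ε : ℝ} (hκ : 0 < κ) (ht : 0 < t) {A : Set (E (2 + m))}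
    (h : IsMinE m ε (fT m κ t) A) : Pe m ε A ≤ ENNReal.ofReal (κ * (omr m * t)) := by
  have h0 := h.le ∅ MeasurableSet.empty (empty_subset _) (by rw [Pe_empty]; simp)
  rw [Pe_empty] at h0
  simp only [measure_empty, ENNReal.toReal_zero, fT_zero κ t ht, add_zero] at h0
  have h1 := fT_ge (m := m) κ t (volume A).toReal hκ
  rw [← ENNReal.ofReal_toReal h.fin]
  exact ENNReal.ofReal_le_ofReal (by linarith)

end StrictAux

open StrictAux

theorem strict_stmt (h1 : Stmt_CompE) (h2 : Stmt_LscE) (h3 : Stmt_Lift) (h4 : Stmt_PeProps)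
    (h5 : Stmt_L2P) (_h6 : Stmt_P0C2) : Stmt_Strict := by
  intro m κ t ε A F hm hκ hκ1 ht hε hε1 hlim hmin hFm hFA hdisj
  have hm1 : 0 < m := by omega
  have hAm : ∀ j, MeasurableSet (A j) := fun j => (hmin j).meas
  have hAU : ∀ j, A j ⊆ Ub m 1 := fun j => (hmin j).sub
  have hFU : ∀ j, F j ⊆ Ub m 1 := fun j => (hFA j).trans (hAU j)
  set M : ℝ≥0 := (κ * (omr m * t)).toNNReal with hM
  have hPA : ∀ j, Pe m (ε j) (A j) ≤ M := fun j => Pe_min_le hκ ht (hmin j)
  have hadd : ∀ j, Pe m (ε j) (A j) = Pe m (ε j) (F j) + Pe m (ε j) (A j \ F j) := by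
    intro j
    have h := (h4 m (ε j) hm (hε j)).2.2.2.1 (F j) (A j \ F j) (hFm j) ((hAm j).diff (hFm j)) (by
      rw [inter_eq_left.2 (hFU j), inter_eq_left.2 (sdiff_subset.trans (hAU j))]
      exact hdisj j)
    rwa [union_sdiff_cancel (hFA j)] at h
  have hPF : ∀ j, Pe m (ε j) (F j) ≤ M := fun j => le_trans (by rw [hadd j]; exact le_self_add) (hPA j)
  have hPD : ∀ j, Pe m (ε j) (A j \ F j) ≤ M := fun j =>
    le_trans (by rw [hadd j]; exact le_add_self) (hPA j)
  -- first subsequence
  obtain ⟨φ₁, A1, hφ₁, hA1m, -, hA1⟩ := h1 m ε A M hm hε hε1 hlim hAm hAU hPA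
  obtain ⟨φ₂, F0, hφ₂, hF0m, -, hF0⟩ := h1 m (fun j => ε (φ₁ j)) (fun j => F (φ₁ j)) M hm
    (fun j => hε _) (fun j => hε1 _) (hlim.comp hφ₁.tendsto_atTop) (fun j => hFm _)
    (fun j => hFU _) (fun j => hPF _)
  set φ : ℕ → ℕ := fun j => φ₁ (φ₂ j) with hφdef
  have hφ : StrictMono φ := hφ₁.comp hφ₂
  have hA1' : Tendsto (fun j => volume (symmDiff (A (φ j)) (lift m A1))) atTop (𝓝 0) :=
    hA1.comp hφ₂.tendsto_atTop
  have hF0' : Tendsto (fun j => volume (symmDiff (F (φ j)) (lift m F0))) atTop (𝓝 0) := hF0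
  have hεφ : Tendsto (fun j => ε (φ j)) atTop (𝓝 0) := hlim.comp hφ.tendsto_atTop
  -- the limits are nested up to a null set
  have hnull : volume (lift m F0 \ lift m A1) = 0 := by
    have hle : ∀ j, volume (lift m F0 \ lift m A1) ≤
        volume (symmDiff (F (φ j)) (lift m F0)) + volume (symmDiff (A (φ j)) (lift m A1)) := by
      intro j
      refine (measure_mono ?_).trans (measure_union_le _ _)
      intro x hx
      by_cases hxF : x ∈ F (φ j)
      · exact Or.inr (Or.inl ⟨hFA _ hxF, hx.2⟩)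
      · exact Or.inl (Or.inr ⟨hx.1, hxF⟩)
    have hlim0 := hF0'.add hA1'
    rw [add_zero] at hlim0
    exact le_antisymm (ge_of_tendsto' hlim0 hle) bot_le
  set A0 : Set ℂ := A1 ∪ F0 with hA0
  have hA0m : MeasurableSet A0 := hA1m.union hF0m
  have hF0A0 : F0 ⊆ A0 := subset_union_right
  have hconvA : Tendsto (fun j => volume (symmDiff (A (φ j)) (lift m A0))) atTop (𝓝 0) := by
    refine tendsto_of_tendsto_of_tendsto_of_le_of_le tendsto_const_nhds hA1' (fun j => bot_le)
      (fun j => ?_)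
    have hsub : symmDiff (A (φ j)) (lift m A0) ⊆
        symmDiff (A (φ j)) (lift m A1) ∪ (lift m F0 \ lift m A1) := by
      intro x hx
      rw [hA0, lift_union] at hx
      simp only [mem_union, Set.mem_sdiff, symmDiff_def, sup_eq_union] at hx ⊢
      tauto
    calc volume (symmDiff (A (φ j)) (lift m A0))
        ≤ volume (symmDiff (A (φ j)) (lift m A1)) + volume (lift m F0 \ lift m A1) :=
          (measure_mono hsub).trans (measure_union_le _ _)
      _ = volume (symmDiff (A (φ j)) (lift m A1)) := by rw [hnull, add_zero]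
  have hconvD : Tendsto (fun j => volume (symmDiff (A (φ j) \ F (φ j)) (lift m (A0 \ F0)))) atTop
      (𝓝 0) := by
    have hs := hconvA.add hF0'
    rw [add_zero] at hs
    refine tendsto_of_tendsto_of_tendsto_of_le_of_le tendsto_const_nhds hs (fun j => bot_le)
      (fun j => ?_)
    refine (measure_mono ?_).trans (measure_union_le _ _)
    intro x hx
    rw [lift_diff] at hx
    simp only [mem_union, Set.mem_sdiff, symmDiff_def, sup_eq_union] at hx ⊢
    tauto
  -- lower semicontinuity
  have homne : om m ≠ 0 := (om_pos m).ne'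
  have hlsc : ∀ (B : ℕ → Set (E (2 + m))) (B0 : Set ℂ), (∀ j, MeasurableSet (B j)) →
      (∀ j, B j ⊆ Ub m 1) → MeasurableSet B0 → (∀ j, Pe m (ε (φ j)) (B j) ≤ M) →
      Tendsto (fun j => volume (symmDiff (B j) (lift m B0))) atTop (𝓝 0) →
      P0 m B0 ≠ ∞ ∧ ∀ c : ℝ, c < omr m * (P0 m B0).toReal →
        ∀ᶠ j in atTop, c < (Pe m (ε (φ j)) (B j)).toReal := by
    intro B B0 hB hBU hB0 hPB hconv
    have h := h2 m (fun j => ε (φ j)) B B0 hm (fun j => hε _) (fun j => hε1 _) hεφ hB hBU hB0 hconv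
    have hle : liminf (fun j => Pe m (ε (φ j)) (B j)) atTop ≤ M := by
      refine (liminf_le_liminf (Eventually.of_forall hPB)).trans ?_
      simp
    have hfin : om m * P0 m B0 ≠ ∞ := ne_top_of_le_ne_top ENNReal.coe_ne_top (h.trans hle)
    have hfin' : P0 m B0 ≠ ∞ := by
      intro htop
      rw [htop, ENNReal.mul_top homne] at hfin
      exact hfin rfl
    refine ⟨hfin', fun c hc => ?_⟩
    rcases lt_or_ge c 0 with hc0 | hc0
    · exact Eventually.of_forall fun j => lt_of_lt_of_le hc0 ENNReal.toReal_nonneg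
    · have hc' : ENNReal.ofReal c < liminf (fun j => Pe m (ε (φ j)) (B j)) atTop := by
        refine lt_of_lt_of_le ?_ h
        rw [← ENNReal.ofReal_toReal hfin]
        refine (ENNReal.ofReal_lt_ofReal_iff_of_nonneg hc0).2 ?_
        rw [ENNReal.toReal_mul]
        exact hc
      filter_upwards [eventually_lt_of_lt_liminf hc'] with j hj
      have hfinj : Pe m (ε (φ j)) (B j) ≠ ∞ := ne_top_of_le_ne_top ENNReal.coe_ne_top (hPB j)
      rwa [← ENNReal.ofReal_toReal hfinj, ENNReal.ofReal_lt_ofReal_iff_of_nonneg hc0] at hj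
  obtain ⟨hfinA, -⟩ := hlsc (fun j => A (φ j)) A0 (fun j => hAm _) (fun j => hAU _) hA0m
    (fun j => hPA _) hconvA
  obtain ⟨hfinF, hlowF⟩ := hlsc (fun j => F (φ j)) F0 (fun j => hFm _) (fun j => hFU _) hF0m
    (fun j => hPF _) hF0'
  obtain ⟨hfinD, hlowD⟩ := hlsc (fun j => A (φ j) \ F (φ j)) (A0 \ F0)
    (fun j => (hAm _).diff (hFm _)) (fun j => sdiff_subset.trans (hAU _)) (hA0m.diff hF0m)
    (fun j => hPD _) hconvD
  -- volumes
  have hlift := h3 m A0 hm hA0m
  have hUfin : volume (lift m A0) ≠ ∞ := by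
    -- the volume of the lift is finite since `Ub m 1` is bounded
    have hb : Bornology.IsBounded (Ub m 1 : Set (E (2 + m))) := by
      refine (Metric.isBounded_ball (x := (0 : E (2 + m))) (r := (m : ℝ) + 1 + 1)).subset ?_
      intro p hp
      have h1' := px_lt_of_mem hm1 hp
      have h2' := (mem_Ub_one hm1 p).1 hp
      have h3' : wp m ‖px p‖ ≤ 1 := by
        unfold wp
        refine max_le zero_le_one ?_
        have : 0 ≤ ‖px p‖ / m := by positivity
        linarith
      have h4' := norm_sq_split p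
      rw [mem_ball_zero_iff]
      nlinarith [norm_nonneg (px p), norm_nonneg (pz p), norm_nonneg p]
    exact ((measure_mono (lift_sub A0)).trans_lt hb.measure_lt_top).ne
  have hAfin : ∀ j, volume (A j) ≠ ∞ := by
    intro j
    have h := h3 m univ hm MeasurableSet.univ
    have hb : Bornology.IsBounded (Ub m 1 : Set (E (2 + m))) := by
      refine (Metric.isBounded_ball (x := (0 : E (2 + m))) (r := (m : ℝ) + 1 + 1)).subset ?_
      intro p hp
      have h1' := px_lt_of_mem hm1 hp
      have h2' := (mem_Ub_one hm1 p).1 hp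
      have h3' : wp m ‖px p‖ ≤ 1 := by
        unfold wp
        refine max_le zero_le_one ?_
        have : 0 ≤ ‖px p‖ / m := by positivity
        linarith
      have h4' := norm_sq_split p
      rw [mem_ball_zero_iff]
      nlinarith [norm_nonneg (px p), norm_nonneg (pz p), norm_nonneg p]
    exact ((measure_mono (hAU j)).trans_lt hb.measure_lt_top).ne
  have hvol : Tendsto (fun j => (volume (A (φ j))).toReal) atTop (𝓝 (volume (lift m A0)).toReal) := by
    rw [tendsto_iff_norm_sub_tendsto_zero]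
    have hreal : Tendsto (fun j => (volume (symmDiff (A (φ j)) (lift m A0))).toReal) atTop
        (𝓝 0) := by
      have := (ENNReal.tendsto_toReal ENNReal.zero_ne_top).comp hconvA
      simpa [Function.comp_def] using this
    refine squeeze_zero (fun j => norm_nonneg _) (fun j => ?_) hreal
    rw [Real.norm_eq_abs]
    have hsfin : volume (symmDiff (A (φ j)) (lift m A0)) ≠ ∞ := by
      refine ne_top_of_le_ne_top (ENNReal.add_ne_top.2 ⟨hAfin (φ j), hUfin⟩) ?_
      exact (measure_mono symmDiff_subset_union).trans (measure_union_le _ _)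
    rw [abs_sub_le_iff]
    constructor
    · rw [sub_le_iff_le_add, ← ENNReal.toReal_add hsfin hUfin]
      refine ENNReal.toReal_mono (ENNReal.add_ne_top.2 ⟨hsfin, hUfin⟩) ?_
      refine (measure_mono ?_).trans (measure_union_le _ _)
      intro x hx
      by_cases hx' : x ∈ lift m A0
      · exact Or.inr hx'
      · exact Or.inl (Or.inl ⟨hx, hx'⟩)
    · rw [sub_le_iff_le_add, ← ENNReal.toReal_add hsfin (hAfin _)]
      refine ENNReal.toReal_mono (ENNReal.add_ne_top.2 ⟨hsfin, hAfin _⟩) ?_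
      refine (measure_mono ?_).trans (measure_union_le _ _)
      intro x hx
      by_cases hx' : x ∈ A (φ j)
      · exact Or.inr hx'
      · exact Or.inl (Or.inr ⟨hx, hx'⟩)
  have hfconv : Tendsto (fun j => fT m κ t (volume (A (φ j))).toReal) atTop
      (𝓝 (fT m κ t (volume (lift m A0)).toReal)) :=
    ((continuous_fT κ t).tendsto _).comp hvol
  -- upper bound for the perimeter of the minimisers
  have hup : ∀ δ : ℝ, 0 < δ → ∀ᶠ j in atTop, (Pe m (ε (φ j)) (A (φ j))).toReal <
      omr m * (P0 m A0).toReal + δ := by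
    intro δ hδ
    filter_upwards [(tendsto_order.1 hfconv).1 (fT m κ t (volume (lift m A0)).toReal - δ)
      (by linarith)] with j hj
    have hPl : Pe m (ε (φ j)) (lift m A0) ≤ om m * P0 m A0 := hlift.2.2.2 _ (hε _)
    have hfin : om m * P0 m A0 ≠ ∞ := ENNReal.mul_ne_top (om_ne_top m) hfinA
    have hle := (hmin (φ j)).le (lift m A0) hlift.1 (lift_sub A0)
      (ne_top_of_le_ne_top hfin hPl)
    have hPl' : (Pe m (ε (φ j)) (lift m A0)).toReal ≤ omr m * (P0 m A0).toReal := by
      have := ENNReal.toReal_mono hfin hPl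
      rwa [ENNReal.toReal_mul] at this
    linarith
  have hP0 : (P0 m A0).toReal ≤ (P0 m F0).toReal + (P0 m (A0 \ F0)).toReal := by
    rw [← ENNReal.toReal_add hfinF hfinD]
    exact ENNReal.toReal_mono (ENNReal.add_ne_top.2 ⟨hfinF, hfinD⟩) (P0_le_add hA0m hF0m hF0A0)
  have hstrict : Tendsto (fun j => (Pe m (ε (φ j)) (F (φ j))).toReal) atTop
      (𝓝 (omr m * (P0 m F0).toReal)) := by
    have hom : 0 < omr m := omr_pos m
    refine tendsto_order.2 ⟨fun a ha => hlowF a ha, fun a ha => ?_⟩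
    set δ : ℝ := (a - omr m * (P0 m F0).toReal) / 2 with hδ
    have hδ0 : 0 < δ := by rw [hδ]; linarith
    filter_upwards [hup δ hδ0, hlowD (omr m * (P0 m (A0 \ F0)).toReal - δ) (by linarith)]
      with j hj1 hj2
    have hF : Pe m (ε (φ j)) (F (φ j)) ≠ ∞ := ne_top_of_le_ne_top ENNReal.coe_ne_top (hPF _)
    have hD : Pe m (ε (φ j)) (A (φ j) \ F (φ j)) ≠ ∞ :=
      ne_top_of_le_ne_top ENNReal.coe_ne_top (hPD _)
    have hs : (Pe m (ε (φ j)) (A (φ j))).toReal = (Pe m (ε (φ j)) (F (φ j))).toReal +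
        (Pe m (ε (φ j)) (A (φ j) \ F (φ j))).toReal := by
      rw [hadd (φ j), ENNReal.toReal_add hF hD]
    have hmul : omr m * (P0 m A0).toReal ≤ omr m * (P0 m F0).toReal +
        omr m * (P0 m (A0 \ F0)).toReal := by
      rw [← mul_add]; exact mul_le_mul_of_nonneg_left hP0 hom.le
    have : a = omr m * (P0 m F0).toReal + 2 * δ := by rw [hδ]; ring
    linarith
  -- representations
  have hrep : ∀ j, ∃ lam ν, ERep m (ε (φ j)) (F (φ j)) lam ν := fun j =>
    (h4 m (ε (φ j)) hm (hε _)).2.2.2.2.1 (F (φ j)) (hFm _)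
      (ne_top_of_le_ne_top ENNReal.coe_ne_top (hPF _))
  choose lam ν hlam using hrep
  obtain ⟨C, hC⟩ := h5 m κ t hm hκ hκ1 ht
  refine ⟨φ, F0, lam, ν, hφ, ?_⟩
  exact
    { eps_pos := fun j => hε _
      eps_le := fun j => hε1 _
      eps_lim := hεφ
      meas := fun j => hFm _
      sub := fun j => hFU _
      meas0 := hF0m
      rep := hlam
      conv := hF0'
      fin0 := hfinF
      strict := by
        have : ∀ j, (lam j univ).toReal = (Pe m (ε (φ j)) (F (φ j))).toReal := fun j => by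
          rw [((h4 m (ε (φ j)) hm (hε _)).2.2.2.2.2.1 (F (φ j)) (lam j) (ν j) (hlam j)).2]
        simp only [this]
        exact hstrict
      l2 := ⟨C, fun j => hC (ε (φ j)) (hε _) (hε1 _) (A (φ j)) (F (φ j)) (lam j) (ν j)
        (hmin _) (hFm _) (hFA _) (hdisj _) (hlam j)⟩ }

end Pool.Agent.Lib.MP_c95dcf_gt
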