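import Pool.Agent.Lib.MP_c95dcf_gt.Mg.G002

/-!
# MP_c95dcf_gt, task T18: pointwise calculus for the first variation
-/

set_option autoImplicit false

open MeasureTheory Set Filter Topology
open scoped ENNReal NNReal RealInnerProductSpace

namespace Pool.Agent.Lib.MP_c95dcf_gt

variable {m : ℕ}

/-- `px` as a continuous linear map. -/
noncomputable def vcPx (m : ℕ) : E (2 + m) →L[ℝ] ℂ :=
  (ContinuousLinearMap.fst ℝ ℂ (E m)).comp (splitL m : E (2 + m) →L[ℝ] ℂ × E m)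

/-- `pz` as a continuous linear map. -/
noncomputable def vcPz (m : ℕ) : E (2 + m) →L[ℝ] E m :=
  (ContinuousLinearMap.snd ℝ ℂ (E m)).comp (splitL m : E (2 + m) →L[ℝ] ℂ × E m)

@[simp] theorem vcPx_apply (p : E (2 + m)) : vcPx m p = px p := rfl
@[simp] theorem vcPz_apply (p : E (2 + m)) : vcPz m p = pz p := rfl

theorem vc_hasFDerivAt_px (p : E (2 + m)) : HasFDerivAt px (vcPx m) p := (vcPx m).hasFDerivAt

theorem vc_hasFDerivAt_pz (p : E (2 + m)) : HasFDerivAt pz (vcPz m) p := (vcPz m).hasFDerivAt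

/-- The derivative of the profile. -/
theorem vc_w (hm : 2 ≤ m) {c : ℂ} (h0 : c ≠ 0) (hlt : ‖c‖ < m) :
    HasFDerivAt (fun c : ℂ => wp m ‖c‖) (innerSL ℝ (gw m c)) c := by
  have hm' : (0 : ℝ) < m := by
    have : 0 < m := by omega
    exact_mod_cast this
  have hn : 0 < ‖c‖ := norm_pos_iff.2 h0
  have h1 : HasFDerivAt (fun c : ℂ => ‖c‖ ^ 2) (2 • (innerSL ℝ c)) c :=
    (hasStrictFDerivAt_norm_sq c).hasFDerivAt
  have h2 : HasFDerivAt (fun c : ℂ => Real.sqrt (‖c‖ ^ 2))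
      ((1 / (2 * Real.sqrt (‖c‖ ^ 2))) • (2 • (innerSL ℝ c))) c :=
    h1.sqrt (by positivity)
  have h3 : (fun c : ℂ => Real.sqrt (‖c‖ ^ 2)) = fun c : ℂ => ‖c‖ := by
    funext c
    exact Real.sqrt_sq (norm_nonneg _)
  rw [h3, Real.sqrt_sq (norm_nonneg _)] at h2
  have h4 : HasFDerivAt (fun c : ℂ => 1 - ‖c‖ / m)
      (-((m : ℝ)⁻¹ • ((1 / (2 * ‖c‖)) • (2 • (innerSL ℝ c))))) c := by
    have h5 := (h2.const_mul (m : ℝ)⁻¹).const_sub 1
    refine h5.congr_of_eventuallyEq (Filter.Eventually.of_forall fun d => ?_)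
    beta_reduce
    rw [div_eq_inv_mul]
  have h6 : (fun c : ℂ => wp m ‖c‖) =ᶠ[𝓝 c] fun c => 1 - ‖c‖ / m := by
    have h7 : ∀ᶠ d in 𝓝 c, ‖d‖ < m :=
      continuous_norm.continuousAt.eventually_lt continuousAt_const hlt
    filter_upwards [h7] with d hd
    exact (wp_of_lt (by omega) hd).1
  have h8 := h4.congr_of_eventuallyEq h6
  convert h8 using 1
  ext h
  simp only [innerSL_apply_apply, neg_apply, smul_apply,
    smul_eq_mul, gw, inner_neg_left]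
  have h9 : (c / ((m : ℂ) * (‖c‖ : ℂ)) : ℂ) = ((m * ‖c‖ : ℝ)⁻¹ : ℝ) • c := by
    rw [Complex.real_smul]
    push_cast
    rw [div_eq_inv_mul]
  rw [h9, real_inner_smul_left]
  field_simp
  simp
  ring

/-- The scalar factor `⟪Y, ∇w⟫`. -/
noncomputable def vcG (m : ℕ) (Y : ℂ → ℂ) (c : ℂ) : ℝ := ⟪Y c, gw m c⟫

/-- The derivative of the velocity field, at points off the axis. -/
theorem vc_V (hm : 2 ≤ m) {v : E m} {η : ℝ → ℝ} {Y : ℂ → ℂ} (hη : Differentiable ℝ η)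
    (hY : Differentiable ℝ Y) {p : E (2 + m)} (h0 : px p ≠ 0) (hlt : ‖px p‖ < m)
    (hG : DifferentiableAt ℝ (vcG m Y) (px p)) :
    ∃ L : E (2 + m) →L[ℝ] E (2 + m), HasFDerivAt (Vf m v η Y) L p ∧ ∀ h : E (2 + m), L h =
      jn ((deriv η ⟪zt m p, v⟫ * ((wp m ‖px p‖)⁻¹ * (⟪pz h, v⟫ - ⟪gw m (px p), px h⟫ *
          ⟪zt m p, v⟫))) • Y (px p) + η ⟪zt m p, v⟫ • fderiv ℝ Y (px p) (px h))
        ((deriv η ⟪zt m p, v⟫ * ((wp m ‖px p‖)⁻¹ * (⟪pz h, v⟫ - ⟪gw m (px p), px h⟫ *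
          ⟪zt m p, v⟫)) * vcG m Y (px p) + η ⟪zt m p, v⟫ * fderiv ℝ (vcG m Y) (px p) (px h)) •
          zt m p + (η ⟪zt m p, v⟫ * vcG m Y (px p)) • ((wp m ‖px p‖)⁻¹ • (pz h -
          ⟪gw m (px p), px h⟫ • zt m p))) := by
  have hw0 : 0 < wp m ‖px p‖ := (wp_of_lt (by omega) hlt).2
  have hw : HasFDerivAt (fun p : E (2 + m) => wp m ‖px p‖)
      ((innerSL ℝ (gw m (px p))).comp (vcPx m)) p :=
    (vc_w hm h0 hlt).comp p (vc_hasFDerivAt_px p)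
  have hwi : HasFDerivAt (fun p : E (2 + m) => (wp m ‖px p‖)⁻¹)
      (-(wp m ‖px p‖ ^ 2)⁻¹ • (innerSL ℝ (gw m (px p))).comp (vcPx m)) p :=
    (hasDerivAt_inv hw0.ne').comp_hasFDerivAt p hw
  obtain ⟨Z, hζ, hZ⟩ : ∃ Z : E (2 + m) →L[ℝ] E m, HasFDerivAt (zt m) Z p ∧
      ∀ h, Z h = (wp m ‖px p‖)⁻¹ • (pz h - ⟪gw m (px p), px h⟫ • zt m p) := by
    refine ⟨_, hwi.smul (vc_hasFDerivAt_pz p), ?_⟩
    intro h
    have hw2 : (wp m ‖px p‖ ^ 2)⁻¹ • pz p = (wp m ‖px p‖)⁻¹ • zt m p := by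
      rw [zt, smul_smul]
      congr 1
      field_simp
    simp only [add_apply, smul_apply, vcPz_apply, ContinuousLinearMap.smulRight_apply,
      ContinuousLinearMap.comp_apply, vcPx_apply, innerSL_apply_apply, smul_eq_mul]
    rw [mul_comm, mul_smul, neg_smul, hw2, smul_sub, smul_comm, smul_neg, ← sub_eq_add_neg]
  have e2 : ∀ h, ⟪v, Z h⟫ = (wp m ‖px p‖)⁻¹ * (⟪v, pz h⟫ - ⟪gw m (px p), px h⟫ *
      ⟪v, zt m p⟫) := by
    intro h
    rw [hZ, real_inner_smul_right, inner_sub_right, real_inner_smul_right]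
  have hs : HasFDerivAt (fun q => ⟪v, zt m q⟫) ((innerSL ℝ v).comp Z) p :=
    ((innerSL ℝ v).hasFDerivAt (x := zt m p)).comp p hζ
  have hη' : HasFDerivAt (fun q => η ⟪v, zt m q⟫) (deriv η ⟪v, zt m p⟫ • (innerSL ℝ v).comp Z) p :=
    (hη ⟪v, zt m p⟫).hasDerivAt.comp_hasFDerivAt p hs
  have hYd : HasFDerivAt (fun q : E (2 + m) => Y (px q)) ((fderiv ℝ Y (px p)).comp (vcPx m)) p :=
    ((hY (px p)).hasFDerivAt).comp p (vc_hasFDerivAt_px p)
  have hGd : HasFDerivAt (fun q : E (2 + m) => vcG m Y (px q))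
      ((fderiv ℝ (vcG m Y) (px p)).comp (vcPx m)) p :=
    (hG.hasFDerivAt).comp p (vc_hasFDerivAt_px p)
  have hbase := hη'.smul hYd
  have hfib := (hη'.mul hGd).smul hζ
  have hV := ((splitL m).symm : ℂ × E m →L[ℝ] E (2 + m)).hasFDerivAt.comp p (hbase.prodMk hfib)
  have hV' := by
    refine HasFDerivAt.congr_of_eventuallyEq (f₁ := Vf m v η Y) hV
      (Filter.Eventually.of_forall fun q => ?_)
    change jn (η ⟪zt m q, v⟫ • Y (px q)) ((η ⟪zt m q, v⟫ * ⟪Y (px q), gw m (px q)⟫) • zt m q) =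
      jn (η ⟪v, zt m q⟫ • Y (px q)) ((η ⟪v, zt m q⟫ * vcG m Y (px q)) • zt m q)
    rw [real_inner_comm v]
    rfl
  refine ⟨_, hV', ?_⟩
  intro h
  simp only [ContinuousLinearMap.comp_apply, ContinuousLinearMap.prod_apply,
    ContinuousLinearEquiv.coe_coe, splitL_symm_apply, add_apply, smul_apply,
    ContinuousLinearMap.smulRight_apply, innerSL_apply_apply, smul_eq_mul, Pi.mul_apply, e2,
    vcPx_apply, real_inner_comm v]
  rw [hZ]
  congr 1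
  · rw [add_comm]
  · module

theorem vc_gw_eq (m : ℕ) (c : ℂ) : gw m c = (-(m * ‖c‖)⁻¹ : ℝ) • c := by
  rw [Complex.real_smul, gw]
  push_cast
  rw [div_eq_inv_mul]
  ring

theorem vc_norm_gw_le (hm : 2 ≤ m) {c : ℂ} (h0 : c ≠ 0) : ‖gw m c‖ ≤ 1 := by
  have hm' : (1 : ℝ) ≤ m := by
    have : 1 ≤ m := by omega
    exact_mod_cast this
  have hn : 0 < ‖c‖ := norm_pos_iff.2 h0
  rw [vc_gw_eq, norm_smul, norm_neg, norm_inv, Real.norm_of_nonneg (by positivity)]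
  rw [mul_inv, mul_assoc, inv_mul_cancel₀ hn.ne', mul_one]
  exact inv_le_one_of_one_le₀ hm'

theorem vc_contDiff_G {Y : ℂ → ℂ} (hm : 2 ≤ m) (hY : ContDiff ℝ 1 Y) (hs : tsupport Y ⊆ Dp m) :
    ContDiff ℝ 1 (vcG m Y) := by
  rw [contDiff_iff_contDiffAt]
  intro c
  by_cases hc : c ∈ tsupport Y
  · have h0 : c ≠ 0 := fun h => (hs hc).2 (by rw [h]; rfl)
    have hn : ‖c‖ ≠ 0 := norm_ne_zero_iff.2 h0
    have hm' : (m : ℝ) ≠ 0 := by
      have : m ≠ 0 := by omega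
      exact_mod_cast this
    have h1 : ContDiffAt ℝ 1 (fun c : ℂ => (-(m * ‖c‖)⁻¹ : ℝ) • c) c := by
      have h3 : ContDiffAt ℝ 1 (fun c : ℂ => (m : ℝ) * ‖c‖) c :=
        contDiffAt_const.mul (contDiffAt_norm ℝ h0)
      have h4 : ContDiffAt ℝ 1 (fun c : ℂ => (-(m * ‖c‖)⁻¹ : ℝ)) c :=
        (h3.inv (mul_ne_zero hm' hn)).neg
      exact h4.smul contDiffAt_id
    have h2 : (fun c => gw m c) = fun c : ℂ => (-(m * ‖c‖)⁻¹ : ℝ) • c := by
      funext c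
      exact vc_gw_eq m c
    rw [← h2] at h1
    exact hY.contDiffAt.inner ℝ h1
  · have h1 : vcG m Y =ᶠ[𝓝 c] fun _ => 0 := by
      have h2 : Y =ᶠ[𝓝 c] 0 := notMem_tsupport_iff_eventuallyEq.1 hc
      filter_upwards [h2] with d hd
      simp [vcG, hd]
    exact contDiffAt_const.congr_of_eventuallyEq h1

theorem vc_hcs_G {Y : ℂ → ℂ} (hY : HasCompactSupport Y) : HasCompactSupport (vcG m Y) := by
  refine HasCompactSupport.intro hY fun c hc => ?_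
  simp [vcG, image_eq_zero_of_notMem_tsupport hc]

theorem vc_dvW (hm : 2 ≤ m) {Y : ℂ → ℂ} (hY : Differentiable ℝ Y) {c : ℂ} (h0 : c ≠ 0)
    (hlt : ‖c‖ < m) : dvW m Y c / Wp m ‖c‖ = dvc Y c + m * (wp m ‖c‖)⁻¹ * vcG m Y c := by
  have hw0 : 0 < wp m ‖c‖ := (wp_of_lt (by omega) hlt).2
  have h1 := (vc_w hm h0 hlt).pow m
  have h2 := h1.smul (hY c).hasFDerivAt
  have h3 : (fun c : ℂ => ((Wp m ‖c‖ : ℝ) : ℂ) * Y c) =
      ((fun c : ℂ => wp m ‖c‖ ^ m) • Y) := by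
    funext d
    rw [Pi.smul_apply', Complex.real_smul]
    rfl
  unfold dvW
  rw [dvc, dvc, h3, h2.fderiv]
  simp only [add_apply, smul_apply, ContinuousLinearMap.smulRight_apply, innerSL_apply_apply]
  have h4 : Wp m ‖c‖ = wp m ‖c‖ ^ (m - 1) * wp m ‖c‖ := by
    rw [← pow_succ, Wp]
    congr 1
    omega
  have h5 : wp m ‖c‖ ^ m = Wp m ‖c‖ := rfl
  have h6 : 0 < Wp m ‖c‖ := pow_pos hw0 _
  rw [h5]
  simp only [Complex.add_re, Complex.add_im, Complex.real_smul, Complex.re_ofReal_mul,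
    Complex.im_ofReal_mul, Complex.inner, vcG]
  rw [div_eq_iff h6.ne', h4]
  simp
  field_simp
  ring

theorem vc_px_c0 : px (EuclideanSpace.single (Fin.castAdd m 0) (1 : ℝ) : E (2 + m)) = 1 := by
  apply Complex.ext <;> simp [px, Fin.ext_iff]

theorem vc_px_c1 : px (EuclideanSpace.single (Fin.castAdd m 1) (1 : ℝ) : E (2 + m)) = Complex.I := by
  apply Complex.ext <;> simp [px, Fin.ext_iff]

theorem vc_px_z (i : Fin m) :
    px (EuclideanSpace.single (Fin.natAdd 2 i) (1 : ℝ) : E (2 + m)) = 0 := by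
  apply Complex.ext <;> simp [px, Fin.ext_iff]
  all_goals omega

theorem vc_pz_c (j : Fin 2) :
    pz (EuclideanSpace.single (Fin.castAdd m j) (1 : ℝ) : E (2 + m)) = 0 := by
  ext i
  simp [pz, Fin.ext_iff]
  omega

theorem vc_pz_z (i : Fin m) :
    pz (EuclideanSpace.single (Fin.natAdd 2 i) (1 : ℝ) : E (2 + m)) =
      EuclideanSpace.single i (1 : ℝ) := by
  ext j
  simp [pz, Fin.ext_iff]

/-- The divergence of the velocity field. -/
theorem vc_dv (hm : 2 ≤ m) {v : E m} {η : ℝ → ℝ} {Y : ℂ → ℂ} (hη : Differentiable ℝ η)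
    (hY : Differentiable ℝ Y) {p : E (2 + m)} (h0 : px p ≠ 0) (hlt : ‖px p‖ < m)
    (hG : DifferentiableAt ℝ (vcG m Y) (px p)) :
    dv (Vf m v η Y) p = η ⟪zt m p, v⟫ * (dvW m Y (px p) / Wp m ‖px p‖) := by
  obtain ⟨L, hL, hLf⟩ := vc_V hm (v := v) hη hY h0 hlt hG
  have hw0 : 0 < wp m ‖px p‖ := (wp_of_lt (by omega) hlt).2
  rw [vc_dvW hm hY h0 hlt, dv, hL.fderiv, sum_split]
  have e0 : ∀ q : E (2 + m), q (Fin.castAdd m 0) = (px q).re := fun q => rfl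
  have e1 : ∀ q : E (2 + m), q (Fin.castAdd m 1) = (px q).im := fun q => rfl
  have ez : ∀ (q : E (2 + m)) (i : Fin m), q (Fin.natAdd 2 i) = (pz q) i := fun q i => rfl
  simp only [e0, e1, ez, hLf, px_jn, pz_jn, vc_px_c0, vc_px_c1, vc_px_z, vc_pz_c, vc_pz_z]
  simp only [inner_zero_left, inner_zero_right, map_zero, mul_zero, zero_mul, sub_zero, zero_sub,
    add_zero, zero_smul, Complex.add_re, Complex.add_im, Complex.real_smul, Complex.re_ofReal_mul,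
    Complex.im_ofReal_mul, PiLp.add_apply, PiLp.smul_apply, smul_eq_mul]
  have hs : ∑ i : Fin m, ⟪(EuclideanSpace.single i (1 : ℝ) : E m), v⟫ * zt m p i =
      ⟪zt m p, v⟫ := by
    simp only [PiLp.inner_apply]
    simp
  have hsum : ∑ x : Fin m, (deriv η ⟪zt m p, v⟫ * ((wp m ‖px p‖)⁻¹ *
      ⟪(EuclideanSpace.single x (1 : ℝ) : E m), v⟫) * vcG m Y (px p) * zt m p x +
      η ⟪zt m p, v⟫ * vcG m Y (px p) * ((wp m ‖px p‖)⁻¹ *
        (EuclideanSpace.single x (1 : ℝ) : E m) x)) =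
      deriv η ⟪zt m p, v⟫ * (wp m ‖px p‖)⁻¹ * vcG m Y (px p) * ⟪zt m p, v⟫ +
        m * (η ⟪zt m p, v⟫ * vcG m Y (px p) * (wp m ‖px p‖)⁻¹) := by
    rw [Finset.sum_add_distrib]
    congr 1
    · rw [← hs, Finset.mul_sum]
      refine Finset.sum_congr rfl fun x _ => ?_
      rw [hs]
      ring
    · simp
  rw [hsum]
  have hG1 : vcG m Y (px p) = (Y (px p)).re * (gw m (px p)).re +
      (Y (px p)).im * (gw m (px p)).im := by
    simp [vcG, Complex.inner]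
    ring
  have hg1 : ⟪gw m (px p), (1 : ℂ)⟫ = (gw m (px p)).re := by simp [Complex.inner]
  have hgI : ⟪gw m (px p), Complex.I⟫ = (gw m (px p)).im := by simp [Complex.inner]
  rw [hg1, hgI, dvc, hG1]
  ring

/-- The bound for the error term. -/
theorem vc_bound {ε s A B G D w g : ℝ} {q ζ v : E m} {C1 C2 C3 C4 C5 : ℝ} (hε : 0 < ε)
    (hs : |s| ≤ 1) (hA : |A| ≤ C4) (hB : |B| ≤ C3) (hG : |G| ≤ C2) (hD : |D| ≤ C1)
    (hw : |w| ≤ C5) (hg : |g| ≤ 1) (hζ : ‖ζ‖ ≤ 1) (hv : ‖v‖ = 1) :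
    |A * (w * (⟪q, v⟫ - ε * g * s)) * G * ⟪q, ζ⟫ + ε * B * D * ⟪q, ζ⟫ +
      B * G * w * (⟪q, q⟫ - ε * g * ⟪q, ζ⟫)| ≤
      (C4 * C5 * C2 + C3 * C1 + C3 * C2 * C5) * (ε * ‖q‖ + ‖q‖ ^ 2) := by
  have hC1 := (abs_nonneg D).trans hD
  have hC2 := (abs_nonneg G).trans hG
  have hC3 := (abs_nonneg B).trans hB
  have hC4 := (abs_nonneg A).trans hA
  have hC5 := (abs_nonneg w).trans hw
  have hq := norm_nonneg q
  have h1 : |⟪q, v⟫| ≤ ‖q‖ := by
    have := abs_real_inner_le_norm q v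
    rwa [hv, mul_one] at this
  have h2 : |⟪q, ζ⟫| ≤ ‖q‖ := by
    refine (abs_real_inner_le_norm q ζ).trans ?_
    nlinarith
  have h3 : |⟪q, q⟫| ≤ ‖q‖ ^ 2 := by
    rw [real_inner_self_eq_norm_sq, abs_of_nonneg (by positivity)]
  have h4 : |ε * g * s| ≤ ε := by
    rw [abs_mul, abs_mul, abs_of_pos hε]
    have : |g| * |s| ≤ 1 * 1 := by gcongr
    nlinarith
  have h5 : |ε * g * ⟪q, ζ⟫| ≤ ε * ‖q‖ := by
    rw [abs_mul, abs_mul, abs_of_pos hε]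
    have : |g| * |⟪q, ζ⟫| ≤ 1 * ‖q‖ := by gcongr
    nlinarith
  have h6 : |⟪q, v⟫ - ε * g * s| ≤ ‖q‖ + ε := (abs_sub _ _).trans (by linarith)
  have h7 : |⟪q, q⟫ - ε * g * ⟪q, ζ⟫| ≤ ‖q‖ ^ 2 + ε * ‖q‖ := (abs_sub _ _).trans (by linarith)
  have t1 : |A * (w * (⟪q, v⟫ - ε * g * s)) * G * ⟪q, ζ⟫| ≤
      C4 * (C5 * (‖q‖ + ε)) * C2 * ‖q‖ := by
    rw [abs_mul, abs_mul, abs_mul, abs_mul]
    gcongr
  have t2 : |ε * B * D * ⟪q, ζ⟫| ≤ ε * C3 * C1 * ‖q‖ := by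
    rw [abs_mul, abs_mul, abs_mul, abs_of_pos hε]
    gcongr
  have t3 : |B * G * w * (⟪q, q⟫ - ε * g * ⟪q, ζ⟫)| ≤ C3 * C2 * C5 * (‖q‖ ^ 2 + ε * ‖q‖) := by
    rw [abs_mul, abs_mul, abs_mul]
    gcongr
  have t4 : ε * C3 * C1 * ‖q‖ ≤ C3 * C1 * (ε * ‖q‖ + ‖q‖ ^ 2) := by
    have : 0 ≤ C3 * C1 * ‖q‖ ^ 2 := by positivity
    nlinarith
  calc _ ≤ _ := abs_add_three _ _ _
    _ ≤ C4 * (C5 * (‖q‖ + ε)) * C2 * ‖q‖ + ε * C3 * C1 * ‖q‖ +
        C3 * C2 * C5 * (‖q‖ ^ 2 + ε * ‖q‖) := by gcongr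
    _ ≤ _ := by nlinarith

theorem varCalc : Stmt_VarCalc := by
  intro m v η Y hm hv hη hY hYT
  have hηd : Differentiable ℝ η := hη.differentiable two_ne_zero
  have hYd : Differentiable ℝ Y := hY.differentiable two_ne_zero
  have hY1 : ContDiff ℝ 1 Y := hYT.diff
  have hGc : ContDiff ℝ 1 (vcG m Y) := vc_contDiff_G hm hY1 hYT.supp
  have hGs : HasCompactSupport (vcG m Y) := vc_hcs_G hYT.comp
  -- constants
  obtain ⟨C1, hC1⟩ : ∃ C, ∀ c, ‖fderiv ℝ (vcG m Y) c‖ ≤ C :=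
    (hGc.continuous_fderiv one_ne_zero).bounded_above_of_compact_support (hGs.fderiv ℝ)
  obtain ⟨C2, hC2⟩ : ∃ C, ∀ c, ‖vcG m Y c‖ ≤ C :=
    hGc.continuous.bounded_above_of_compact_support hGs
  obtain ⟨C3, hC3⟩ : ∃ C, ∀ s ∈ Icc (-1 : ℝ) 1, ‖η s‖ ≤ C :=
    isCompact_Icc.exists_bound_of_continuousOn hη.continuous.continuousOn
  obtain ⟨C4, hC4⟩ : ∃ C, ∀ s ∈ Icc (-1 : ℝ) 1, ‖deriv η s‖ ≤ C :=
    isCompact_Icc.exists_bound_of_continuousOn (hη.continuous_deriv one_le_two).continuousOn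
  obtain ⟨C5, hC5⟩ : ∃ C, ∀ c ∈ tsupport Y, ‖(wp m ‖c‖)⁻¹‖ ≤ C := by
    refine hYT.comp.isCompact.exists_bound_of_continuousOn ?_
    refine ContinuousOn.inv₀ ?_ ?_
    · have : Continuous fun c : ℂ => wp m ‖c‖ := by
        unfold wp
        fun_prop
      exact this.continuousOn
    · intro c hc
      have h1 := (hYT.supp hc).1
      rw [mem_ball_zero_iff] at h1
      exact ((wp_of_lt (by omega) h1).2).ne'
  have hC1' : 0 ≤ C1 := (norm_nonneg _).trans (hC1 0)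
  have hC2' : 0 ≤ C2 := (norm_nonneg _).trans (hC2 0)
  have hC3' : 0 ≤ C3 := (norm_nonneg _).trans (hC3 0 (by constructor <;> norm_num))
  have hC4' : 0 ≤ C4 := (norm_nonneg _).trans (hC4 0 (by constructor <;> norm_num))
  have hC5' : 0 ≤ |C5| := abs_nonneg _
  refine ⟨C4 * |C5| * C2 + C3 * C1 + C3 * C2 * |C5|, by positivity, ?_⟩
  intro p hp
  have hx : ‖px p‖ < m := px_lt_of_mem (by omega) hp
  have hz : ‖zt m p‖ < 1 := norm_zt_lt (by omega) hp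
  by_cases hc : px p ∈ tsupport Y
  · have h0 : px p ≠ 0 := fun h => (hYT.supp hc).2 (by rw [h]; rfl)
    have hGd : DifferentiableAt ℝ (vcG m Y) (px p) := (hGc.differentiable one_ne_zero) _
    have hdv := vc_dv hm (v := v) hηd hYd h0 hx hGd
    refine ⟨hdv, ?_⟩
    intro ε hε hε1 n hn
    obtain ⟨L, hL, hLf⟩ := vc_V hm (v := v) hηd hYd h0 hx hGd
    rw [hdv, hL.fderiv, inner_split, hLf, px_jn, pz_jn, px_Ls, pz_Ls, px_Ls, pz_Ls, mainI]
    have hs1 : |⟪zt m p, v⟫| ≤ 1 := by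
      refine (abs_real_inner_le_norm _ _).trans ?_
      rw [hv, mul_one]
      exact hz.le
    have hs2 : ⟪zt m p, v⟫ ∈ Icc (-1 : ℝ) 1 := abs_le.1 hs1
    have hna : ‖px n‖ ≤ 1 := (norm_px_le n).trans hn.le
    have hg1 : |⟪gw m (px p), px n⟫| ≤ 1 := by
      refine (abs_real_inner_le_norm _ _).trans ?_
      have h1 := vc_norm_gw_le hm h0
      have h2 : ‖gw m (px p)‖ * ‖px n‖ ≤ 1 * 1 := by gcongr
      linarith
    have hD1 : |fderiv ℝ (vcG m Y) (px p) (px n)| ≤ C1 := by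
      have h1 := (fderiv ℝ (vcG m Y) (px p)).le_opNorm (px n)
      have h2 : ‖fderiv ℝ (vcG m Y) (px p)‖ * ‖px n‖ ≤ C1 * 1 := by
        gcongr
        exact hC1 _
      rw [Real.norm_eq_abs] at h1
      linarith
    have hmain := vc_bound (q := pz n) hε hs1 (hC4 _ hs2) (hC3 _ hs2) (hC2 (px p)) hD1
      ((hC5 _ hc).trans (le_abs_self _)) hg1 hz.le hv
    rw [← abs_neg] at hmain
    refine le_trans (le_of_eq ?_) hmain
    congr 1
    simp only [inner_add_right, inner_sub_right, real_inner_smul_right, real_inner_smul_left]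
    rw [real_inner_comm (px n) (gw m (px p))]
    have hεε : ε * ε⁻¹ = 1 := mul_inv_cancel₀ hε.ne'
    generalize ⟪pz n, pz n⟫ = qq
    generalize ⟪pz n, v⟫ = qv
    generalize ⟪pz n, zt m p⟫ = qz
    generalize ⟪zt m p, v⟫ = s
    rw [div_eq_mul_inv (s * _ - _)]
    generalize (wp m ‖px p‖)⁻¹ = w
    generalize ε⁻¹ = e at hεε ⊢
    linear_combination (-(deriv η s * w * qv * vcG m Y (px p) * qz) -
      η s * vcG m Y (px p) * w * qq) * hεε
  · have hYe : Y =ᶠ[𝓝 (px p)] 0 := notMem_tsupport_iff_eventuallyEq.1 hc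
    have hV : Vf m v η Y =ᶠ[𝓝 p] fun _ => 0 := by
      have h1 : ∀ᶠ q in 𝓝 p, Y (px q) = 0 := continuous_px.continuousAt.eventually hYe
      filter_upwards [h1] with q hq
      rw [Vf, hq, inner_zero_left, mul_zero, zero_smul, smul_zero]
      exact (jnL m).map_zero
    have hfV : fderiv ℝ (Vf m v η Y) p = 0 := by
      rw [hV.fderiv_eq]
      simp
    have hdv : dv (Vf m v η Y) p = 0 := by
      rw [dv, hfV]
      simp
    have hdW : dvW m Y (px p) = 0 := by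
      have h1 : (fun c => ((Wp m ‖c‖ : ℝ) : ℂ) * Y c) =ᶠ[𝓝 (px p)] fun _ => 0 := by
        filter_upwards [hYe] with c hc
        rw [hc]
        simp
      rw [dvW, dvc, h1.fderiv_eq]
      simp
    have hY0 : Y (px p) = 0 := image_eq_zero_of_notMem_tsupport hc
    have hfY : fderiv ℝ Y (px p) = 0 := fderiv_of_notMem_tsupport ℝ hc
    refine ⟨by rw [hdv, hdW]; simp, ?_⟩
    intro ε hε hε1 n hn
    rw [hdv, hfV, mainI, hdW, hY0, hfY]
    simp only [zero_apply, inner_zero_right, zero_div, mul_zero, zero_mul, add_zero,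
      sub_self, abs_zero]
    positivity

end Pool.Agent.Lib.MP_c95dcf_gt
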