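import Pool.Agent.Lib.MP_c95dcf_gt.Mg.G002

/-!
# MP_c95dcf_gt, part T: the weak equation satisfied by the limit
-/

set_option autoImplicit false

open MeasureTheory Set Filter Topology
open scoped ENNReal NNReal RealInnerProductSpace

namespace Pool.Agent.Lib.MP_c95dcf_gt

/-! ### Elementary facts -/

theorem wk_cont_wp (m : ℕ) : Continuous (wp m) := by
  unfold wp
  fun_prop

theorem wk_cont_Wp (m : ℕ) : Continuous (Wp m) := by
  unfold Wp
  exact (wk_cont_wp m).pow m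

theorem wk_meas_zt (m : ℕ) : Measurable (zt m) := by
  unfold zt
  exact ((wk_cont_wp m).measurable.comp measurable_px.norm).inv.smul measurable_pz

theorem wk_meas_gw (m : ℕ) : Measurable (gw m) := by
  unfold gw
  have h : Measurable (fun c : ℂ => ((‖c‖ : ℝ) : ℂ)) :=
    Complex.measurable_ofReal.comp measurable_norm
  exact (measurable_id.div (measurable_const.mul h)).neg

theorem wk_norm_gw_le {m : ℕ} (hm : 1 ≤ m) (c : ℂ) : ‖gw m c‖ ≤ 1 := by
  unfold gw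
  rw [norm_neg, norm_div, norm_mul, Complex.norm_natCast, Complex.norm_real, norm_norm]
  have hm' : (1 : ℝ) ≤ m := by exact_mod_cast hm
  refine div_le_one_of_le₀ ?_ (by positivity)
  nlinarith [norm_nonneg c]

/-- A primitive with a given additive constant. -/
theorem wk_prim (g : ℝ → ℝ) (hg : ContDiff ℝ 1 g) (c : ℝ) :
    ContDiff ℝ 2 (fun t => (∫ s in (0 : ℝ)..t, g s) + c) ∧
    deriv (fun t => (∫ s in (0 : ℝ)..t, g s) + c) = g := by
  have h1 : ∀ t, HasDerivAt (fun t => (∫ s in (0 : ℝ)..t, g s) + c) (g t) t := fun t =>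
    (intervalIntegral.integral_hasDerivAt_right (hg.continuous.intervalIntegrable _ _)
      (hg.continuous.stronglyMeasurableAtFilter _ _) hg.continuous.continuousAt).add_const c
  have h2 : deriv (fun t => (∫ s in (0 : ℝ)..t, g s) + c) = g := funext fun t => (h1 t).deriv
  refine ⟨?_, h2⟩
  rw [show (2 : WithTop ℕ∞) = 1 + 1 from one_add_one_eq_two.symm, contDiff_succ_iff_deriv]
  refine ⟨fun t => (h1 t).differentiableAt, fun h => absurd h (by simp), ?_⟩
  rw [h2]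
  exact hg

theorem wk_dvW_cont {m : ℕ} {Y : ℂ → ℂ}
    (h : TFc (Dp m) (fun c => ((Wp m ‖c‖ : ℝ) : ℂ) * Y c)) : Continuous (dvW m Y) := by
  have h1 : Continuous (fderiv ℝ (fun c => ((Wp m ‖c‖ : ℝ) : ℂ) * Y c)) :=
    h.diff.continuous_fderiv one_ne_zero
  unfold dvW dvc
  exact (Complex.continuous_re.comp (h1.clm_apply continuous_const)).add
    (Complex.continuous_im.comp (h1.clm_apply continuous_const))

theorem wk_dvW_zero {m : ℕ} {Y : ℂ → ℂ} {c : ℂ} (hc : c ∉ tsupport Y) : dvW m Y c = 0 := by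
  have h1 : c ∉ tsupport (fun c => ((Wp m ‖c‖ : ℝ) : ℂ) * Y c) :=
    fun h => hc (tsupport_mul_subset_right h)
  unfold dvW dvc
  rw [fderiv_of_notMem_tsupport ℝ h1]
  simp

theorem wk_Wp_pos {m : ℕ} (hm : 0 < m) {c : ℂ} (hc : ‖c‖ < m) : 0 < Wp m ‖c‖ :=
  pow_pos (wp_of_lt hm hc).2 m

theorem wk_Q_cont {m : ℕ} (hm : 0 < m) {Y : ℂ → ℂ} (hY : TFc (Dp m) Y)
    (h : TFc (Dp m) (fun c => ((Wp m ‖c‖ : ℝ) : ℂ) * Y c)) :
    Continuous (fun c => dvW m Y c / Wp m ‖c‖) := by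
  rw [continuous_iff_continuousAt]
  intro c
  by_cases hc : c ∈ tsupport Y
  · have h1 : ‖c‖ < m := mem_ball_zero_iff.1 (hY.supp hc).1
    exact (wk_dvW_cont h).continuousAt.div
      ((wk_cont_Wp m).comp continuous_norm).continuousAt (wk_Wp_pos hm h1).ne'
  · have h1 : (fun c => dvW m Y c / Wp m ‖c‖) =ᶠ[𝓝 c] fun _ => 0 := by
      filter_upwards [(isClosed_tsupport Y).isOpen_compl.mem_nhds hc] with x hx
      rw [wk_dvW_zero hx, zero_div]
    exact continuousAt_const.congr h1.symm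

theorem wk_integrable {n : ℕ} {μ : Measure (E n)} {U : Set (E n)} [IsFiniteMeasure μ]
    (hU : μ Uᶜ = 0) {f : E n → ℝ} (hf : Measurable f) {C : ℝ} (hC : ∀ p ∈ U, |f p| ≤ C) :
    Integrable f μ := by
  refine Integrable.of_bound hf.aestronglyMeasurable C ?_
  have h : ∀ᵐ p ∂μ, p ∈ U := by
    rw [ae_iff]
    exact hU
  filter_upwards [h] with p hp using hC p hp

theorem wk_abs_integral_le {n : ℕ} {μ : Measure (E n)} {U : Set (E n)}
    (hU : μ Uᶜ = 0) {f g : E n → ℝ} (hg : Integrable g μ) (hC : ∀ p ∈ U, |f p| ≤ g p) :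
    |∫ p, f p ∂μ| ≤ ∫ p, g p ∂μ := by
  have h : ∀ᵐ p ∂μ, p ∈ U := by
    rw [ae_iff]
    exact hU
  refine norm_integral_le_of_norm_le (f := f) hg ?_
  filter_upwards [h] with p hp using hC p hp

theorem wk_symmDiff {n : ℕ} {θ : E n → ℝ} {C : ℝ} (hθ : Measurable θ) (hC : ∀ p, |θ p| ≤ C)
    {A B : Set (E n)} (hA : MeasurableSet A) (hB : MeasurableSet B) (hA' : volume A ≠ ∞)
    (hB' : volume B ≠ ∞) :
    |(∫ p in A, θ p) - ∫ p in B, θ p| ≤ C * (volume (symmDiff A B)).toReal := by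
  have i : ∀ S : Set (E n), volume S ≠ ∞ → IntegrableOn θ S := by
    intro S hS
    have : IsFiniteMeasure (volume.restrict S) := ⟨by
      rw [Measure.restrict_apply_univ]
      exact hS.lt_top⟩
    exact Integrable.of_bound hθ.aestronglyMeasurable C (Eventually.of_forall hC)
  have e1 := integral_inter_add_sdiff (μ := volume) hB (i A hA')
  have e2 := integral_inter_add_sdiff (μ := volume) hA (i B hB')
  rw [inter_comm B A] at e2
  have f1 : volume (A \ B) ≠ ∞ := (measure_mono sdiff_subset |>.trans_lt hA'.lt_top).ne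
  have f2 : volume (B \ A) ≠ ∞ := (measure_mono sdiff_subset |>.trans_lt hB'.lt_top).ne
  have b1 : ‖∫ p in A \ B, θ p‖ ≤ C * volume.real (A \ B) :=
    norm_setIntegral_le_of_norm_le_const f1.lt_top fun p _ => hC p
  have b2 : ‖∫ p in B \ A, θ p‖ ≤ C * volume.real (B \ A) :=
    norm_setIntegral_le_of_norm_le_const f2.lt_top fun p _ => hC p
  have e3 : (volume (symmDiff A B)).toReal = volume.real (A \ B) + volume.real (B \ A) := by
    rw [show symmDiff A B = (A \ B) ∪ (B \ A) from rfl,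
      measure_union disjoint_sdiff_sdiff (hB.diff hA), ENNReal.toReal_add f1 f2]
    rfl
  rw [e3, ← e1, ← e2]
  calc |(∫ p in A ∩ B, θ p) + (∫ p in A \ B, θ p) -
        ((∫ p in A ∩ B, θ p) + ∫ p in B \ A, θ p)|
      = |(∫ p in A \ B, θ p) - ∫ p in B \ A, θ p| := by
        congr 1
        ring
    _ ≤ |∫ p in A \ B, θ p| + |∫ p in B \ A, θ p| := abs_sub _ _
    _ ≤ C * volume.real (A \ B) + C * volume.real (B \ A) := add_le_add b1 b2
    _ = _ := by ring

theorem wk_vol_fin {m : ℕ} (hm : 0 < m) {A : Set (E (2 + m))} (hA : A ⊆ Ub m 1) :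
    volume A ≠ ∞ := by
  have h : A ⊆ Metric.closedBall 0 (m + 1) := by
    intro p hp
    have h0 := hA hp
    rw [mem_closedBall_zero_iff]
    have h1 := px_lt_of_mem hm h0
    have h2 := (mem_Ub_one hm p).1 h0
    rw [(wp_of_lt hm h1).1] at h2
    have h3 := norm_jn_le (px p) (pz p)
    rw [jn_px_pz] at h3
    have h4 : 0 ≤ ‖px p‖ / m := by positivity
    linarith
  exact (measure_mono h |>.trans_lt measure_closedBall_lt_top).ne

/-- The integrand on the fibres. -/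
noncomputable def wkTh (m : ℕ) (η : ℝ → ℝ) (v : E m) (Y : ℂ → ℂ) (c : ℂ) (ζ : E m) : ℝ :=
  (Metric.ball (0 : E m) 1).indicator (fun ζ => η ⟪ζ, v⟫) ζ * (dvW m Y c / Wp m ‖c‖)

/-- Fibre integration of `η(⟪ζ, v⟫) dvW Y`. -/
theorem wk_fibInt (h4 : Stmt_Fib) {m : ℕ} (hm : 2 ≤ m) {η : ℝ → ℝ} (hη : Continuous η)
    {v : E m} (hv : ‖v‖ = 1) {Y : ℂ → ℂ} (hQ : Continuous (fun c => dvW m Y c / Wp m ‖c‖))
    (hY : TFc (Dp m) Y) : ∃ (θ : E (2 + m) → ℝ) (C : ℝ), Measurable θ ∧ (∀ p, |θ p| ≤ C) ∧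
      ∀ A, MeasurableSet A → A ⊆ Ub m 1 → ∫ p in A, θ p =
        ∫ ζ in Metric.ball (0 : E m) 1, η ⟪ζ, v⟫ * ∫ c in As m A ζ, dvW m Y c := by
  have hm0 : 0 < m := by omega
  obtain ⟨Mη, hMη⟩ := (isCompact_Icc (a := (-1 : ℝ)) (b := 1)).exists_bound_of_continuousOn
    hη.continuousOn
  have hMη0 : 0 ≤ Mη := (norm_nonneg _).trans (hMη 0 (by constructor <;> norm_num))
  have hQs : HasCompactSupport (fun c => dvW m Y c / Wp m ‖c‖) := by
    refine HasCompactSupport.intro hY.comp fun c hc => ?_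
    rw [wk_dvW_zero hc, zero_div]
  obtain ⟨CQ, hCQ⟩ := hQ.bounded_above_of_compact_support hQs
  have hCQ0 : 0 ≤ CQ := (norm_nonneg _).trans (hCQ 0)
  have hin : Measurable (fun ζ : E m => η ⟪ζ, v⟫) :=
    (hη.comp (continuous_id.inner continuous_const)).measurable
  have hΘm : Measurable (fun q : ℂ × E m => wkTh m η v Y q.1 q.2) := by
    have a0 : Measurable ((Metric.ball (0 : E m) 1).indicator (fun ζ : E m => η ⟪ζ, v⟫)) :=
      hin.indicator measurableSet_ball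
    have a1 : Measurable (fun q : ℂ × E m =>
        (Metric.ball (0 : E m) 1).indicator (fun ζ : E m => η ⟪ζ, v⟫) q.2) :=
      a0.comp measurable_snd
    have a2 : Measurable (fun q : ℂ × E m => dvW m Y q.1 / Wp m ‖q.1‖) :=
      hQ.measurable.comp measurable_fst
    have a3 := a1.mul a2
    unfold wkTh
    exact a3
  have hΘb : ∀ c ζ, |wkTh m η v Y c ζ| ≤ Mη * CQ := by
    intro c ζ
    unfold wkTh
    rw [abs_mul]
    refine mul_le_mul ?_ (hCQ c) (abs_nonneg _) hMη0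
    by_cases h : ζ ∈ Metric.ball (0 : E m) 1
    · rw [indicator_of_mem h]
      refine hMη _ (abs_le.1 ((abs_real_inner_le_norm ζ v).trans ?_))
      rw [hv, mul_one]
      exact (mem_ball_zero_iff.1 h).le
    · rw [indicator_of_notMem h, abs_zero]
      exact hMη0
  have hθm : Measurable (fun p : E (2 + m) => wkTh m η v Y (px p) (zt m p)) := by
    have a1 : Measurable (fun p : E (2 + m) => (px p, zt m p)) :=
      measurable_px.prodMk (wk_meas_zt m)
    have a2 := hΘm.comp a1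
    exact a2
  refine ⟨fun p => wkTh m η v Y (px p) (zt m p), Mη * CQ, hθm, fun p => hΘb _ _, ?_⟩
  intro A hA hAU
  have key := ((h4 m A hm hA hAU).2.1 (wkTh m η v Y) (Mη * CQ) hΘm hΘb).2
  refine key.trans ?_
  refine setIntegral_congr_fun measurableSet_ball fun ζ hζ => ?_
  rw [← integral_const_mul]
  refine setIntegral_congr_fun ((h4 m A hm hA hAU).1 ζ) fun c hc => ?_
  have h1 : 0 < Wp m ‖c‖ := wk_Wp_pos hm0 (mem_ball_zero_iff.1 hc.1)
  simp only [wkTh]
  rw [indicator_of_mem hζ, mul_assoc, div_mul_cancel₀ _ h1.ne']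

/-- The limit of the first term of the first variation. -/
theorem wk_first (h4 : Stmt_Fib) (h5 : Stmt_Lift) {m : ℕ} {ε : ℕ → ℝ}
    {F : ℕ → Set (E (2 + m))} {F0 : Set ℂ} {lam : ℕ → Measure (E (2 + m))}
    {ν : ℕ → E (2 + m) → E (2 + m)} (hm : 2 ≤ m) (hL : LimD m ε F F0 lam ν)
    {η : ℝ → ℝ} (hη : Continuous η) {v : E m} (hv : ‖v‖ = 1) {Y : ℂ → ℂ}
    (hQ : Continuous (fun c => dvW m Y c / Wp m ‖c‖)) (hY : TFc (Dp m) Y)
    (hη0 : ∫ ζ in Metric.ball (0 : E m) 1, η ⟪ζ, v⟫ = 0) :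
    Tendsto (fun j => ∫ ζ in Metric.ball (0 : E m) 1,
      η ⟪ζ, v⟫ * ∫ c in As m (F j) ζ, dvW m Y c) atTop (𝓝 0) := by
  have hm0 : 0 < m := by omega
  obtain ⟨θ, C, hθm, hθb, hθ⟩ := wk_fibInt h4 hm hη hv hQ hY
  obtain ⟨hl1, -, hl3, -⟩ := h5 m F0 hm hL.meas0
  have hlU : lift m F0 ⊆ Ub m 1 := fun p hp => hp.1
  have e0 : ∫ p in lift m F0, θ p = 0 := by
    rw [hθ _ hl1 hlU]
    have : ∀ ζ ∈ Metric.ball (0 : E m) 1, η ⟪ζ, v⟫ * ∫ c in As m (lift m F0) ζ, dvW m Y c =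
        η ⟪ζ, v⟫ * ∫ c in F0 ∩ Metric.ball 0 m, dvW m Y c := by
      intro ζ hζ
      rw [hl3 ζ hζ]
    rw [setIntegral_congr_fun measurableSet_ball this, integral_mul_const, hη0, zero_mul]
  have hb : ∀ j, |(∫ ζ in Metric.ball (0 : E m) 1,
      η ⟪ζ, v⟫ * ∫ c in As m (F j) ζ, dvW m Y c)| ≤
      C * (volume (symmDiff (F j) (lift m F0))).toReal := by
    intro j
    rw [← hθ _ (hL.meas j) (hL.sub j)]
    have := wk_symmDiff hθm hθb (hL.meas j) hl1 (wk_vol_fin hm0 (hL.sub j))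
      (wk_vol_fin hm0 hlU)
    rwa [e0, sub_zero] at this
  have ht : Tendsto (fun j => C * (volume (symmDiff (F j) (lift m F0))).toReal) atTop
      (𝓝 0) := by
    have h1 : Tendsto (fun j => (volume (symmDiff (F j) (lift m F0))).toReal) atTop
        (𝓝 (0 : ℝ≥0∞).toReal) := (ENNReal.tendsto_toReal ENNReal.zero_ne_top).comp hL.conv
    simpa using h1.const_mul C
  exact squeeze_zero_norm hb ht

/-- Facts on the bounded quantities. -/
theorem wk_inner_le {m : ℕ} (hm : 0 < m) {v : E m} (hv : ‖v‖ = 1) {p : E (2 + m)}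
    (hp : p ∈ Ub m 1) : ⟪zt m p, v⟫ ∈ Icc (-1 : ℝ) 1 := by
  refine abs_le.1 ((abs_real_inner_le_norm _ _).trans ?_)
  rw [hv, mul_one]
  exact (norm_zt_lt hm hp).le

theorem wk_br_le {m : ℕ} (hm : 0 < m) {v : E m} (hv : ‖v‖ = 1) {ε : ℝ} (hε : 0 < ε)
    {p n : E (2 + m)} (hp : p ∈ Ub m 1) (hn : ‖n‖ = 1) :
    |⟪zt m p, v⟫ * ⟪px n, gw m (px p)⟫ - ε⁻¹ * ⟪pz n, v⟫| ≤ 1 + ε⁻¹ * ‖pz n‖ := by
  have h1 : |⟪zt m p, v⟫| ≤ 1 := abs_le.2 (wk_inner_le hm hv hp)
  have h2 : |⟪px n, gw m (px p)⟫| ≤ 1 := by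
    refine (abs_real_inner_le_norm _ _).trans ?_
    exact mul_le_one₀ (hn ▸ norm_px_le n) (norm_nonneg _) (wk_norm_gw_le hm _)
  have h3 : |⟪pz n, v⟫| ≤ ‖pz n‖ := by
    refine (abs_real_inner_le_norm _ _).trans ?_
    rw [hv, mul_one]
  calc |⟪zt m p, v⟫ * ⟪px n, gw m (px p)⟫ - ε⁻¹ * ⟪pz n, v⟫|
      ≤ |⟪zt m p, v⟫ * ⟪px n, gw m (px p)⟫| + |ε⁻¹ * ⟪pz n, v⟫| := abs_sub _ _
    _ = |⟪zt m p, v⟫| * |⟪px n, gw m (px p)⟫| + ε⁻¹ * |⟪pz n, v⟫| := by
        rw [abs_mul, abs_mul, abs_of_pos (inv_pos.2 hε)]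
    _ ≤ 1 + ε⁻¹ * ‖pz n‖ := add_le_add (mul_le_one₀ h1 (abs_nonneg _) h2)
        (mul_le_mul_of_nonneg_left h3 (inv_pos.2 hε).le)

/-- The bracket. -/
noncomputable def wkB (m : ℕ) (v : E m) (ε : ℝ) (p n : E (2 + m)) : ℝ :=
  ⟪zt m p, v⟫ * ⟪px n, gw m (px p)⟫ - ε⁻¹ * ⟪pz n, v⟫

theorem wk_meas_B {m : ℕ} (v : E m) (ε : ℝ) {ν : E (2 + m) → E (2 + m)} (hν : Measurable ν) :
    Measurable (fun p => wkB m v ε p (ν p)) := by
  unfold wkB
  exact (((wk_meas_zt m).inner measurable_const).mul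
    ((measurable_px.comp hν).inner ((wk_meas_gw m).comp measurable_px))).sub
    (measurable_const.mul ((measurable_pz.comp hν).inner measurable_const))

theorem wk_meas_wpx (m : ℕ) : Measurable (fun p : E (2 + m) => wp m ‖px p‖) :=
  (wk_cont_wp m).measurable.comp measurable_px.norm

/-- Lower bound of the profile on compact sets. -/
theorem wk_wp_lower {m : ℕ} (hm : 0 < m) {K : Set ℂ} (hK : IsCompact K) (hKD : K ⊆ Dp m) :
    ∃ c : ℝ, 0 < c ∧ ∀ x ∈ K, c ≤ wp m ‖x‖ :=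
  hK.exists_forall_le' ((wk_cont_wp m).comp continuous_norm).continuousOn
    fun x hx => (wp_of_lt hm (mem_ball_zero_iff.1 (hKD hx).1)).2

theorem wk_part (h1 : Stmt_FV) (h2 : Stmt_ProdConv) (h3 : Stmt_P0C2) (h4 : Stmt_Fib)
    (h5 : Stmt_Lift) {m : ℕ} {ε : ℕ → ℝ}
    {F : ℕ → Set (E (2 + m))} {F0 : Set ℂ} {lam : ℕ → Measure (E (2 + m))}
    {ν : ℕ → E (2 + m) → E (2 + m)} {δ : ℝ} (hm : 2 ≤ m) (hL : LimD m ε F F0 lam ν)
    (hδ : 0 < δ) (hQ : ∀ j, Quasi m (ε j) δ (F j)) {v : E m} {η : ℝ → ℝ} {Y : ℂ → ℂ}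
    (hv : ‖v‖ = 1) (hη : ContDiff ℝ 2 η)
    (hη0 : ∫ ζ in Metric.ball (0 : E m) 1, η ⟪ζ, v⟫ = 0) (hY : ContDiff ℝ 2 Y)
    (hT : TFc (Dp m) Y) :
    Tendsto (fun j => ∫ p, deriv η ⟪zt m p, v⟫ * ⟪px (ν j p), Y (px p)⟫ *
      (wkB m v (ε j) p (ν j p) / wp m ‖px p‖) ∂(lam j)) atTop (𝓝 0) := by
  have hm0 : 0 < m := by omega
  have hWY := (h3 m ∅ hm MeasurableSet.empty).1 Y hT
  have hQc := wk_Q_cont hm0 hT hWY
  have hQs : HasCompactSupport (fun c => dvW m Y c / Wp m ‖c‖) := by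
    refine HasCompactSupport.intro hT.comp fun c hc => ?_
    rw [wk_dvW_zero hc, zero_div]
  obtain ⟨CQ, hCQ⟩ := hQc.bounded_above_of_compact_support hQs
  have hfdc : Continuous (fderiv ℝ Y) := hY.continuous_fderiv two_ne_zero
  obtain ⟨CD, hCD⟩ := hfdc.bounded_above_of_compact_support (hT.comp.fderiv ℝ)
  have hCD0 : 0 ≤ CD := (norm_nonneg _).trans (hCD 0)
  obtain ⟨CY, hCY⟩ := hT.diff.continuous.bounded_above_of_compact_support hT.comp
  have hCY0 : 0 ≤ CY := (norm_nonneg _).trans (hCY 0)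
  obtain ⟨Mη, hMη⟩ := (isCompact_Icc (a := (-1 : ℝ)) (b := 1)).exists_bound_of_continuousOn
    hη.continuous.continuousOn
  have hMη0 : 0 ≤ Mη := (norm_nonneg _).trans (hMη 0 (by constructor <;> norm_num))
  have hdη : Continuous (deriv η) := hη.continuous_deriv one_le_two
  obtain ⟨Mg, hMg⟩ := (isCompact_Icc (a := (-1 : ℝ)) (b := 1)).exists_bound_of_continuousOn
    hdη.continuousOn
  have hMg0 : 0 ≤ Mg := (norm_nonneg _).trans (hMg 0 (by constructor <;> norm_num))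
  obtain ⟨cw, hcw0, hcw⟩ := wk_wp_lower hm0 hT.comp hT.supp
  set Θ : ℂ → ℂ → ℝ := fun x p => dvW m Y x / Wp m ‖x‖ - ⟪p, fderiv ℝ Y x p⟫ with hΘ
  have hΘc : Continuous (fun q : ℂ × ℂ => Θ q.1 q.2) :=
    (hQc.comp continuous_fst).sub (continuous_snd.inner
      ((hfdc.comp continuous_fst).clm_apply continuous_snd))
  have hΘ0 : ∀ x, x ∉ tsupport Y → ∀ p, Θ x p = 0 := by
    intro x hx p
    rw [hΘ]
    simp only
    rw [wk_dvW_zero hx, fderiv_of_notMem_tsupport ℝ hx]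
    simp
  -- the first part
  have hT1 := (h2 m ε F F0 lam ν hm hL).2.1 (fun ζ : E m => η ⟪ζ, v⟫) Θ (tsupport Y)
    (hη.continuous.comp (continuous_id.inner continuous_const)) hΘc hT.comp hT.supp hΘ0 hη0
  -- the whole
  obtain ⟨C, hC0, hC⟩ := h1 m v η Y hm hv hη hY hT
  obtain ⟨M, hM⟩ := hL.strict.bddAbove_range
  obtain ⟨C2, hC2⟩ := hL.l2
  have hT2 : Tendsto (fun j => ∫ p, mainI m (ε j) v η Y p (ν j p) ∂(lam j)) atTop (𝓝 0) := by
    have hF := wk_first h4 h5 hm hL hη.continuous hv hQc hT hη0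
    have hb : ∀ j, ‖∫ p, mainI m (ε j) v η Y p (ν j p) ∂(lam j)‖ ≤
        |∫ ζ in Metric.ball (0 : E m) 1, η ⟪ζ, v⟫ * ∫ c in As m (F j) ζ, dvW m Y c| +
          C * (ε j * M + C2 * ε j ^ 2) := by
      intro j
      have hR := hL.rep j
      have := hR.fin
      refine (hC (ε j) δ (F j) (lam j) (ν j) (hL.eps_pos j) (hL.eps_le j) hδ (hL.meas j)
        (hL.sub j) (hQ j) hR).trans ?_
      have h6 : ∫ p, ‖pz (ν j p)‖ ∂(lam j) ≤ M := by
        have h7 : ∫ p, ‖pz (ν j p)‖ ∂(lam j) ≤ ∫ _p, (1 : ℝ) ∂(lam j) := by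
          refine integral_mono_of_nonneg (Eventually.of_forall fun p => norm_nonneg _)
            (integrable_const _) (Eventually.of_forall fun p => ?_)
          exact (norm_pz_le _).trans (hR.unit p).le
        rw [integral_const, smul_eq_mul, mul_one] at h7
        exact h7.trans (hM ⟨j, rfl⟩)
      have h8 := hC2 j
      have h9 : ε j * ∫ p, ‖pz (ν j p)‖ ∂(lam j) ≤ ε j * M :=
        mul_le_mul_of_nonneg_left h6 (hL.eps_pos j).le
      gcongr
    refine squeeze_zero_norm hb ?_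
    have h6 : Tendsto (fun j => C * (ε j * M + C2 * ε j ^ 2)) atTop
        (𝓝 (C * (0 * M + C2 * 0 ^ 2))) :=
      ((hL.eps_lim.mul_const M).add ((hL.eps_lim.pow 2).const_mul C2)).const_mul C
    have h7 := hF.abs.add h6
    simpa using h7
  -- the difference
  have hT3 := hT2.sub hT1
  rw [sub_zero] at hT3
  refine hT3.congr fun j => ?_
  have hR := hL.rep j
  have := hR.fin
  have hνm := hR.meas
  have i1 : Integrable (fun p => η ⟪zt m p, v⟫ * Θ (px p) (px (ν j p))) (lam j) := by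
    refine wk_integrable hR.null (C := Mη * (CQ + CD)) ?_ fun p hp => ?_
    · exact (hη.continuous.measurable.comp ((wk_meas_zt m).inner measurable_const)).mul
        (hΘc.measurable.comp (measurable_px.prodMk (measurable_px.comp hνm)))
    · rw [abs_mul]
      refine mul_le_mul (hMη _ (wk_inner_le hm0 hv hp)) ?_ (abs_nonneg _) hMη0
      have hn : ‖px (ν j p)‖ ≤ 1 := (norm_px_le _).trans (hR.unit p).le
      refine (abs_sub _ _).trans (add_le_add (hCQ _) ?_)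
      refine (abs_real_inner_le_norm _ _).trans ?_
      calc ‖px (ν j p)‖ * ‖fderiv ℝ Y (px p) (px (ν j p))‖
          ≤ 1 * (CD * 1) := by
            refine mul_le_mul hn ?_ (norm_nonneg _) zero_le_one
            exact ((fderiv ℝ Y (px p)).le_opNorm _).trans
              (mul_le_mul (hCD _) hn (norm_nonneg _) hCD0)
        _ = CD := by ring
  have i2 : Integrable (fun p => deriv η ⟪zt m p, v⟫ * ⟪px (ν j p), Y (px p)⟫ *
      (wkB m v (ε j) p (ν j p) / wp m ‖px p‖)) (lam j) := by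
    refine wk_integrable hR.null (C := Mg * CY * ((1 + (ε j)⁻¹) / cw)) ?_ fun p hp => ?_
    · exact ((hdη.measurable.comp ((wk_meas_zt m).inner measurable_const)).mul
        ((measurable_px.comp hνm).inner (hT.diff.continuous.measurable.comp
          measurable_px))).mul ((wk_meas_B v (ε j) hνm).div (wk_meas_wpx m))
    · by_cases hpY : px p ∈ tsupport Y
      · have hεp := hL.eps_pos j
        have h6 := wk_br_le hm0 hv hεp hp (hR.unit p)
        have h7 : ‖pz (ν j p)‖ ≤ 1 := (norm_pz_le _).trans (hR.unit p).le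
        have h8 : |wkB m v (ε j) p (ν j p)| ≤ 1 + (ε j)⁻¹ := by
          refine h6.trans ?_
          have : (ε j)⁻¹ * ‖pz (ν j p)‖ ≤ (ε j)⁻¹ * 1 :=
            mul_le_mul_of_nonneg_left h7 (inv_pos.2 hεp).le
          linarith
        have h9 : |⟪px (ν j p), Y (px p)⟫| ≤ CY := by
          refine (abs_real_inner_le_norm _ _).trans ?_
          calc ‖px (ν j p)‖ * ‖Y (px p)‖ ≤ 1 * CY :=
                mul_le_mul ((norm_px_le _).trans (hR.unit p).le) (hCY _) (norm_nonneg _)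
                  zero_le_one
            _ = CY := one_mul _
        have h10 := hcw _ hpY
        rw [abs_mul, abs_mul, abs_div, abs_of_pos (hcw0.trans_le h10)]
        refine mul_le_mul (mul_le_mul (hMg _ (wk_inner_le hm0 hv hp)) h9 (abs_nonneg _) hMg0)
          ?_ (div_nonneg (abs_nonneg _) (hcw0.trans_le h10).le) (mul_nonneg hMg0 hCY0)
        exact div_le_div₀ (by positivity) h8 hcw0 h10
      · rw [image_eq_zero_of_notMem_tsupport hpY, inner_zero_right, mul_zero, zero_mul,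
          abs_zero]
        have := hL.eps_pos j
        positivity
  have e1 : ∀ p, mainI m (ε j) v η Y p (ν j p) =
      η ⟪zt m p, v⟫ * Θ (px p) (px (ν j p)) +
      deriv η ⟪zt m p, v⟫ * ⟪px (ν j p), Y (px p)⟫ *
        (wkB m v (ε j) p (ν j p) / wp m ‖px p‖) := fun p => rfl
  rw [integral_congr_ae (Eventually.of_forall e1), integral_add i1 i2]
  ring

theorem weak (h1 : Stmt_FV) (h2 : Stmt_ProdConv) (h3 : Stmt_P0C2) (h4 : Stmt_Fib)
    (h5 : Stmt_Lift) : Stmt_Weak := by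
  intro m ε F F0 lam ν δ hm hL hδ hQ v g ψ hv hg hψ hψc hψD
  have hm0 : 0 < m := by omega
  -- the primitive
  set c₀ : ℝ := -((omr m)⁻¹ *
    ∫ ζ in Metric.ball (0 : E m) 1, ∫ s in (0 : ℝ)..⟪ζ, v⟫, g s) with hc₀
  set η : ℝ → ℝ := fun t => (∫ s in (0 : ℝ)..t, g s) + c₀ with hηdef
  obtain ⟨hη, hηd⟩ := wk_prim g hg c₀
  have hη0 : ∫ ζ in Metric.ball (0 : E m) 1, η ⟪ζ, v⟫ = 0 := by
    have hc : Continuous (fun t => ∫ s in (0 : ℝ)..t, g s) := by
      have : (fun t => ∫ s in (0 : ℝ)..t, g s) = fun t => η t - c₀ := by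
        ext t
        rw [hηdef]
        ring
      rw [this]
      exact hη.continuous.sub continuous_const
    have hc2 : Continuous (fun ζ : E m => ∫ s in (0 : ℝ)..⟪ζ, v⟫, g s) :=
      hc.comp (continuous_id.inner continuous_const)
    have hi : IntegrableOn (fun ζ : E m => ∫ s in (0 : ℝ)..⟪ζ, v⟫, g s)
        (Metric.ball (0 : E m) 1) :=
      (hc2.continuousOn.integrableOn_compact (isCompact_closedBall (0 : E m) 1)).mono_set
        Metric.ball_subset_closedBall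
    have hfin : volume (Metric.ball (0 : E m) 1) ≠ ∞ := measure_ball_lt_top.ne
    have hi2 : IntegrableOn (fun _ : E m => c₀) (Metric.ball (0 : E m) 1) :=
      integrableOn_const hfin
    rw [hηdef]
    simp only
    rw [integral_add hi hi2, setIntegral_const, smul_eq_mul]
    have : volume.real (Metric.ball (0 : E m) 1) = omr m := rfl
    rw [this, hc₀]
    have := (omr_pos m).ne'
    field_simp
    ring
  -- the constants
  obtain ⟨Mg, hMg⟩ := (isCompact_Icc (a := (-1 : ℝ)) (b := 1)).exists_bound_of_continuousOn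
    hg.continuous.continuousOn
  have hMg0 : 0 ≤ Mg := (norm_nonneg _).trans (hMg 0 (by constructor <;> norm_num))
  obtain ⟨Mψ, hMψ⟩ := hψ.continuous.bounded_above_of_compact_support hψc
  have hMψ0 : 0 ≤ Mψ := (norm_nonneg _).trans (hMψ 0)
  obtain ⟨cw, hcw0, hcw⟩ := wk_wp_lower hm0 hψc hψD
  obtain ⟨M, hM⟩ := hL.strict.bddAbove_range
  have hM0 : 0 ≤ M := ENNReal.toReal_nonneg.trans (hM ⟨0, rfl⟩)
  obtain ⟨C2, hC2⟩ := hL.l2
  set C₁ : ℝ := Mg * Mψ / cw with hC₁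
  have hC₁0 : 0 ≤ C₁ := by positivity
  set C₂ : ℝ := max C2 0 with hC₂
  have hC₂0 : 0 ≤ C₂ := le_max_right _ _
  set a : E (2 + m) → ℝ := fun p => g ⟪zt m p, v⟫ * ψ (px p) / wp m ‖px p‖ with ha
  have ham : Measurable a :=
    ((hg.continuous.measurable.comp ((wk_meas_zt m).inner measurable_const)).mul
      (hψ.continuous.measurable.comp measurable_px)).div (wk_meas_wpx m)
  have hab : ∀ p ∈ Ub m 1, |a p| ≤ C₁ := by
    intro p hp
    rw [ha]
    simp only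
    by_cases hpψ : px p ∈ tsupport ψ
    · have h10 := hcw _ hpψ
      rw [abs_div, abs_mul, abs_of_pos (hcw0.trans_le h10)]
      refine div_le_div₀ (by positivity) ?_ hcw0 h10
      exact mul_le_mul (hMg _ (wk_inner_le hm0 hv hp)) (hMψ _) (abs_nonneg _) hMg0
    · rw [image_eq_zero_of_notMem_tsupport hpψ, mul_zero, zero_div, abs_zero]
      exact hC₁0
  have e0 : ∀ j p, g ⟪zt m p, v⟫ * ψ (px p) *
      ((⟪zt m p, v⟫ * ⟪px (ν j p), gw m (px p)⟫ - (ε j)⁻¹ * ⟪pz (ν j p), v⟫) / wp m ‖px p‖) =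
      a p * wkB m v (ε j) p (ν j p) := by
    intro j p
    rw [ha]
    unfold wkB
    simp only
    ring
  simp only [e0]
  rw [Metric.tendsto_nhds]
  intro e he
  -- choice of the parameters
  set τ : ℝ := e / (4 * (C₁ + 1) * (M + C₂ + 1)) with hτ
  have hτ0 : 0 < τ := by positivity
  have hτ1 : C₁ * (τ * (M + C₂)) ≤ e / 4 := by
    rw [hτ]
    have h6 : C₁ * (e / (4 * (C₁ + 1) * (M + C₂ + 1)) * (M + C₂)) =
        (e / 4) * ((C₁ / (C₁ + 1)) * ((M + C₂) / (M + C₂ + 1))) := by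
      field_simp
    rw [h6]
    have h7 : C₁ / (C₁ + 1) ≤ 1 := by
      rw [div_le_one (by positivity)]
      linarith
    have h8 : (M + C₂) / (M + C₂ + 1) ≤ 1 := by
      rw [div_le_one (by positivity)]
      linarith
    have h9 : (C₁ / (C₁ + 1)) * ((M + C₂) / (M + C₂ + 1)) ≤ 1 :=
      mul_le_one₀ h7 (by positivity) h8
    nlinarith
  have hom := omr_pos m
  set d : ℝ := e * τ / (8 * (C₁ + 1) * omr m) with hd
  have hd0 : 0 < d := by positivity
  have hd1 : C₁ * (τ⁻¹ * (2 * omr m * d)) ≤ e / 4 := by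
    rw [hd]
    have h6 : C₁ * (τ⁻¹ * (2 * omr m * (e * τ / (8 * (C₁ + 1) * omr m)))) =
        (e / 4) * (C₁ / (C₁ + 1)) := by
      field_simp
      ring
    rw [h6]
    have h7 : C₁ / (C₁ + 1) ≤ 1 := by
      rw [div_le_one (by positivity)]
      linarith
    nlinarith
  obtain ⟨Yd, hYd2, hYdT, hYd1, hYdP⟩ := (h3 m F0 hm hL.meas0).2.2 hL.fin0 d hd0
  set Y : ℂ → ℂ := fun c => ψ c • Yd c with hYdef
  have hY2 : ContDiff ℝ 2 Y := hψ.smul hYd2
  have hYs : tsupport Y ⊆ tsupport ψ := tsupport_smul_subset_left ψ Yd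
  have hYT : TFc (Dp m) Y :=
    ⟨hY2.of_le one_le_two, hψc.of_isClosed_subset (isClosed_tsupport _) hYs,
      hYs.trans hψD⟩
  have hP := wk_part h1 h2 h3 h4 h5 hm hL hδ hQ hv hη hη0 hY2 hYT
  have hD := (h2 m ε F F0 lam ν hm hL).2.2 Yd d hYdT hYd1 hd0 hYdP
  rw [Metric.tendsto_nhds] at hP
  filter_upwards [hP (e / 4) (by positivity), hD] with j hj1 hj2
  have hR := hL.rep j
  have := hR.fin
  have hνm := hR.meas
  have hεp := hL.eps_pos j
  set s : E (2 + m) → ℝ := fun p => ⟪Yd (px p), px (ν j p)⟫ with hs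
  have hsm : Measurable s := (hYdT.diff.continuous.measurable.comp measurable_px).inner
    (measurable_px.comp hνm)
  have hsb : ∀ p, |s p| ≤ 1 := fun p =>
    (abs_real_inner_le_norm _ _).trans
      (mul_le_one₀ (hYd1 _) (norm_nonneg _) ((norm_px_le _).trans (hR.unit p).le))
  have hBm := wk_meas_B v (ε j) hνm
  have hBb : ∀ p ∈ Ub m 1, |wkB m v (ε j) p (ν j p)| ≤ 1 + (ε j)⁻¹ * ‖pz (ν j p)‖ :=
    fun p hp => wk_br_le hm0 hv hεp hp (hR.unit p)
  have hBb' : ∀ p ∈ Ub m 1, |wkB m v (ε j) p (ν j p)| ≤ 1 + (ε j)⁻¹ := by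
    intro p hp
    refine (hBb p hp).trans ?_
    have h7 : ‖pz (ν j p)‖ ≤ 1 := (norm_pz_le _).trans (hR.unit p).le
    have : (ε j)⁻¹ * ‖pz (ν j p)‖ ≤ (ε j)⁻¹ * 1 :=
      mul_le_mul_of_nonneg_left h7 (inv_pos.2 hεp).le
    linarith
  have i1 : Integrable (fun p => a p * wkB m v (ε j) p (ν j p)) (lam j) := by
    refine wk_integrable hR.null (C := C₁ * (1 + (ε j)⁻¹)) (ham.mul hBm) fun p hp => ?_
    rw [abs_mul]
    exact mul_le_mul (hab p hp) (hBb' p hp) (abs_nonneg _) hC₁0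
  have i2 : Integrable (fun p => a p * s p * wkB m v (ε j) p (ν j p)) (lam j) := by
    refine wk_integrable hR.null (C := C₁ * 1 * (1 + (ε j)⁻¹)) ((ham.mul hsm).mul hBm)
      fun p hp => ?_
    rw [abs_mul, abs_mul]
    exact mul_le_mul (mul_le_mul (hab p hp) (hsb p) (abs_nonneg _) hC₁0) (hBb' p hp)
      (abs_nonneg _) (by positivity)
  have e1 : ∀ p, deriv η ⟪zt m p, v⟫ * ⟪px (ν j p), Y (px p)⟫ *
      (wkB m v (ε j) p (ν j p) / wp m ‖px p‖) = a p * s p * wkB m v (ε j) p (ν j p) := by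
    intro p
    rw [hηd, ha, hs, hYdef]
    simp only
    rw [inner_smul_right, real_inner_comm (Yd (px p)) (px (ν j p))]
    ring
  rw [integral_congr_ae (Eventually.of_forall e1)] at hj1
  rw [dist_zero_right, Real.norm_eq_abs] at hj1 ⊢
  -- the error
  have i3 : Integrable (fun p => 1 - s p) (lam j) :=
    wk_integrable hR.null (C := 2) (measurable_const.sub hsm) fun p _ => by
      have := abs_le.1 (hsb p)
      rw [abs_le]
      constructor <;> linarith
  have i4 : Integrable (fun p => ‖pz (ν j p)‖ ^ 2) (lam j) :=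
    wk_integrable hR.null (C := 1) ((measurable_pz.comp hνm).norm.pow_const 2) fun p _ => by
      rw [abs_of_nonneg (by positivity)]
      exact pow_le_one₀ (norm_nonneg _) ((norm_pz_le _).trans (hR.unit p).le)
  have i5 : Integrable (fun p => C₁ * (τ⁻¹ * (1 - s p) +
      τ * (1 + ((ε j)⁻¹) ^ 2 * ‖pz (ν j p)‖ ^ 2))) (lam j) :=
    ((i3.const_mul _).add (((integrable_const _).add (i4.const_mul _)).const_mul _)).const_mul _
  have hpt : ∀ p ∈ Ub m 1, |a p * wkB m v (ε j) p (ν j p) -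
      a p * s p * wkB m v (ε j) p (ν j p)| ≤ C₁ * (τ⁻¹ * (1 - s p) +
      τ * (1 + ((ε j)⁻¹) ^ 2 * ‖pz (ν j p)‖ ^ 2)) := by
    intro p hp
    have hs1 := abs_le.1 (hsb p)
    have h6 : a p * wkB m v (ε j) p (ν j p) - a p * s p * wkB m v (ε j) p (ν j p) =
        a p * ((1 - s p) * wkB m v (ε j) p (ν j p)) := by ring
    rw [h6, abs_mul, abs_mul, abs_of_nonneg (by linarith : 0 ≤ 1 - s p)]
    refine mul_le_mul (hab p hp) ?_ (by
      have : 0 ≤ 1 - s p := by linarith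
      positivity) hC₁0
    set y : ℝ := (ε j)⁻¹ * ‖pz (ν j p)‖ with hy
    have hy2 : ((ε j)⁻¹) ^ 2 * ‖pz (ν j p)‖ ^ 2 = y ^ 2 := by rw [hy]; ring
    rw [hy2]
    set x : ℝ := 1 - s p with hx
    have hx0 : 0 ≤ x := by rw [hx]; linarith
    have hx2 : x ≤ 2 := by rw [hx]; linarith
    have h7 : x * |wkB m v (ε j) p (ν j p)| ≤ x * (1 + y) :=
      mul_le_mul_of_nonneg_left (hBb p hp) hx0
    refine h7.trans ?_
    -- x * (1 + y) ≤ x / τ + τ * (1 + y ^ 2)
    have h8 : 2 * (x * (1 + y)) ≤ τ⁻¹ * x ^ 2 + τ * (1 + y) ^ 2 := by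
      have h9 : 0 ≤ τ⁻¹ * (x - τ * (1 + y)) ^ 2 := by positivity
      have h10 : τ⁻¹ * (x - τ * (1 + y)) ^ 2 =
          τ⁻¹ * x ^ 2 - 2 * (x * (1 + y)) + τ * (1 + y) ^ 2 := by
        field_simp
        ring
      linarith
    have h9 : τ⁻¹ * x ^ 2 ≤ τ⁻¹ * (2 * x) :=
      mul_le_mul_of_nonneg_left (by nlinarith) (inv_pos.2 hτ0).le
    have h10 : τ * (1 + y) ^ 2 ≤ τ * (2 * (1 + y ^ 2)) :=
      mul_le_mul_of_nonneg_left (by nlinarith [sq_nonneg (1 - y)]) hτ0.le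
    linarith
  have hdiff : |∫ p, (a p * wkB m v (ε j) p (ν j p) -
      a p * s p * wkB m v (ε j) p (ν j p)) ∂(lam j)| ≤ e / 2 := by
    refine (wk_abs_integral_le hR.null i5 hpt).trans ?_
    have i6 : Integrable (fun p => 1 + ((ε j)⁻¹) ^ 2 * ‖pz (ν j p)‖ ^ 2) (lam j) :=
      (integrable_const _).add (i4.const_mul _)
    rw [integral_const_mul, integral_add (i3.const_mul _) (i6.const_mul _), integral_const_mul,
      integral_const_mul, integral_add (integrable_const _) (i4.const_mul _), integral_const,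
      integral_const_mul, smul_eq_mul, mul_one]
    have h6 : (lam j).real univ ≤ M := hM ⟨j, rfl⟩
    have h7 : ((ε j)⁻¹) ^ 2 * ∫ p, ‖pz (ν j p)‖ ^ 2 ∂(lam j) ≤ C₂ := by
      calc ((ε j)⁻¹) ^ 2 * ∫ p, ‖pz (ν j p)‖ ^ 2 ∂(lam j)
          ≤ ((ε j)⁻¹) ^ 2 * (C₂ * ε j ^ 2) := by
            refine mul_le_mul_of_nonneg_left ((hC2 j).trans ?_) (by positivity)
            exact mul_le_mul_of_nonneg_right (le_max_left _ _) (by positivity)
        _ = C₂ := by
            field_simp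
    calc C₁ * (τ⁻¹ * ∫ p, (1 - s p) ∂(lam j) +
          τ * ((lam j).real univ + ((ε j)⁻¹) ^ 2 * ∫ p, ‖pz (ν j p)‖ ^ 2 ∂(lam j)))
        ≤ C₁ * (τ⁻¹ * (2 * omr m * d) + τ * (M + C₂)) := by
          refine mul_le_mul_of_nonneg_left (add_le_add ?_ ?_) hC₁0
          · exact mul_le_mul_of_nonneg_left hj2 (inv_pos.2 hτ0).le
          · exact mul_le_mul_of_nonneg_left (add_le_add h6 h7) hτ0.le
      _ = C₁ * (τ⁻¹ * (2 * omr m * d)) + C₁ * (τ * (M + C₂)) := by ring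
      _ ≤ e / 4 + e / 4 := add_le_add hd1 hτ1
      _ = e / 2 := by ring
  rw [integral_sub i1 i2] at hdiff
  have h6 := abs_sub_abs_le_abs_sub (∫ p, a p * wkB m v (ε j) p (ν j p) ∂(lam j))
    (∫ p, a p * s p * wkB m v (ε j) p (ν j p) ∂(lam j))
  linarith

end Pool.Agent.Lib.MP_c95dcf_gt
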