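import Pool.Agent.Lib.MP_c95dcf_gt.Mg.G023
import Pool.Agent.Lib.MP_c95dcf_gt.Mg.G025
import Pool.Agent.Lib.MP_c95dcf_gt.Mg.G003
import Pool.Agent.Lib.MP_c95dcf_gt.Mg.G005
import Pool.Agent.Lib.MP_c95dcf_gt.Mg.G002
import Pool.Agent.Lib.MP_c95dcf_gt.Lift
import Pool.Agent.Lib.MP_c95dcf_gt.Mg.G027
import Pool.Agent.Lib.MP_c95dcf_gt.Mg.G026
import Pool.Agent.Lib.MP_c95dcf_gt.SliceV
import Pool.Agent.Lib.MP_c95dcf_gt.L2
import Pool.Agent.Lib.MP_c95dcf_gt.CompE
import Pool.Agent.Lib.MP_c95dcf_gt.Mg.G022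
import Pool.Agent.Lib.MP_c95dcf_gt.Mid
import Pool.Agent.Lib.MP_c95dcf_gt.PieceD
import Pool.Agent.Lib.MP_c95dcf_gt.Mg.G004
import Pool.Agent.Lib.MP_c95dcf_gt.FirstVar
import Pool.Agent.Lib.MP_c95dcf_gt.Flow
import Pool.Agent.Lib.MP_c95dcf_gt.VarCalc
import Pool.Agent.Lib.MP_c95dcf_gt.FV
import Pool.Agent.Lib.MP_c95dcf_gt.P0C2
import Pool.Agent.Lib.MP_c95dcf_gt.Strict
import Pool.Agent.Lib.MP_c95dcf_gt.ProdConv
import Pool.Agent.Lib.MP_c95dcf_gt.Weak
import Pool.Agent.Lib.MP_c95dcf_gt.Dir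

/-!
# MP_c95dcf_gt: assembly of the whole proof
-/

set_option autoImplicit false

namespace Pool.Agent.Lib.MP_c95dcf_gt

theorem fin_lift : Stmt_Lift := lift_stmt fib
theorem fin_peScale : Stmt_PeScale := peScale body
theorem fin_peProps : Stmt_PeProps :=
  peProps body fin_peScale perCongr perCompl (all_submod kern ibp) (all_perAdd kern ibp) all_riesz
theorem fin_peIso : Stmt_PeIso := peIso fin_peProps (all_relIso kern ibp) body
theorem fin_ident : Stmt_Ident := ident fib
theorem fin_sliceP : Stmt_SliceP := sliceP fin_ident p0sep fib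
theorem fin_l2 : Stmt_L2 := l2 fib fin_lift fin_sliceP (sliceV fib) (all_poincare kern ibp)
theorem fin_l2p : Stmt_L2P := l2p fin_l2 fin_peProps
theorem fin_compE : Stmt_CompE :=
  compE (all_compact kern ibp) fin_peProps body kern conv_basic conv_test ibp
theorem fin_lscE : Stmt_LscE := lscE fin_ident fin_peProps fin_lift fib p0C2
theorem fin_mid : Stmt_Mid := mid_stmt fin_compE fin_lscE fin_lift
theorem fin_minVol : Stmt_MinVol := minVol fin_mid fin_lift fin_peProps
theorem fin_pieceD : Stmt_PieceD :=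
  pieceD_stmt fin_minVol fin_mid fin_peProps fin_peIso all_piece body
theorem fin_diffeoE : Stmt_DiffeoE := diffeoE (diffeo kern conv_basic convGrad) fin_peScale body
theorem fin_fv : Stmt_FV := fv fin_diffeoE firstVar flow varCalc fib fin_peProps
theorem fin_strict : Stmt_Strict := strict_stmt fin_compE fin_lscE fin_lift fin_peProps fin_l2p p0C2
theorem fin_prodConv : Stmt_ProdConv := prodConv fin_ident p0C2 fib fin_lift fin_peProps
theorem fin_weak : Stmt_Weak := weak fin_fv fin_prodConv p0C2 fib fin_lift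
theorem fin_T : Stmt_T :=
  partT fin_pieceD fin_strict fin_weak (dir fin_prodConv) fin_peProps fin_lift
theorem fin_exist0 : Stmt_Exist0 :=
  exist0 (all_A kern ibp) all_E2 body fin_peScale fin_minVol perCongr fin_lift

/-- The graph property fails. -/
theorem fin_result : ¬ Frozen := final_step (all_B kern ibp) fin_T fin_exist0

end Pool.Agent.Lib.MP_c95dcf_gt
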