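import Pool.Agent.Lib.MP_c95dcf_gt.Mg.G001

/-!
# MP_c95dcf_gt, task B20: the final result of part B
-/

set_option autoImplicit false

open MeasureTheory Set Filter Topology
open scoped ENNReal NNReal

namespace Pool.Agent.Lib.MP_c95dcf_gt

theorem bfinal_mono {R r : ℝ} (hR : 2 ≤ R) (hr : R ≤ r) :
    1 - 1 / (1 + R) + 3 / (10 * R ^ 2) ≤ 1 - 1 / (1 + r) + 3 / (10 * r ^ 2) := by
  have hR0 : 0 < R := by linarith
  have hr0 : 0 < r := by linarith
  have h1 : (1 - 1 / (1 + r) + 3 / (10 * r ^ 2)) - (1 - 1 / (1 + R) + 3 / (10 * R ^ 2)) =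
      (r - R) * (10 * R ^ 2 * r ^ 2 - 3 * (r + R) * (1 + R) * (1 + r)) /
        (10 * R ^ 2 * r ^ 2 * (1 + R) * (1 + r)) := by
    field_simp
    ring
  have h2 : 0 ≤ 10 * R ^ 2 * r ^ 2 - 3 * (r + R) * (1 + R) * (1 + r) := by
    have e1 : (1 + R) * (1 + r) ≤ (3 / 2 * R) * (3 / 2 * r) := by
      apply mul_le_mul <;> linarith
    have e2 : r + R ≤ R * r := by nlinarith
    have e3 : (r + R) * ((1 + R) * (1 + r)) ≤ (R * r) * ((3 / 2 * R) * (3 / 2 * r)) :=
      mul_le_mul e2 e1 (by positivity) (by positivity)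
    nlinarith [mul_pos hR0 hr0, sq_nonneg (R * r)]
  have h3 : 0 ≤ (r - R) * (10 * R ^ 2 * r ^ 2 - 3 * (r + R) * (1 + R) * (1 + r)) /
        (10 * R ^ 2 * r ^ 2 * (1 + R) * (1 + r)) := by
    apply div_nonneg
    · exact mul_nonneg (by linarith) h2
    · positivity
  linarith

theorem bfinal_low {R r d : ℝ} (hR : 4 ≤ R) (hr : R - 1 ≤ r) (hrR : r ≤ R) (hd : R - 2 * d ≤ r) :
    1 - 1 / (1 + R) + 3 / (10 * R ^ 2) - 4 * d / R ^ 2 ≤
      1 - 1 / (1 + r) + 3 / (10 * r ^ 2) := by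
  have hR0 : 0 < R := by linarith
  have hr0 : 0 < r := by linarith
  have h1 : 1 / (1 + r) - 1 / (1 + R) ≤ 4 * d / R ^ 2 := by
    rw [div_sub_div _ _ (by linarith) (by linarith), div_le_div_iff₀ (by positivity) (by positivity)]
    have e1 : R ^ 2 ≤ 2 * ((1 + r) * (1 + R)) := by nlinarith
    have e2 : R - r ≤ 2 * d := by linarith
    have e3 : 0 ≤ R - r := by linarith
    nlinarith [mul_le_mul e2 e1 (by positivity) (by linarith)]
  have h2 : 3 / (10 * R ^ 2) ≤ 3 / (10 * r ^ 2) := by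
    apply div_le_div_of_nonneg_left (by norm_num) (by positivity)
    nlinarith
  linarith

/-- Comparison for small volumes, in terms of the radius. -/
theorem bfinal_small {R r lam : ℝ} (hR : 4 ≤ R) (hr : R - 1 ≤ r) (hrR : r ≤ R)
    (hlam : 1 ≤ lam) (hlam2 : lam ≤ 2) (hd : R - 2 * (lam - 1) ≤ r) :
    1 - 1 / (1 + R) + 3 / (10 * R ^ 2) ≤ lam * (1 - 1 / (1 + r) + 3 / (10 * r ^ 2)) := by
  have h1 := bfinal_low hR hr hrR hd
  have hR0 : 0 < R := by linarith
  have h2 : lam * (1 - 1 / (1 + R) + 3 / (10 * R ^ 2) - 4 * (lam - 1) / R ^ 2) ≤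
      lam * (1 - 1 / (1 + r) + 3 / (10 * r ^ 2)) := mul_le_mul_of_nonneg_left h1 (by linarith)
  refine le_trans ?_ h2
  have h3 : (1 : ℝ) / 2 ≤ 1 - 1 / (1 + R) + 3 / (10 * R ^ 2) := by
    have e1 : 1 / (1 + R) ≤ 1 / 2 := by
      apply div_le_div_of_nonneg_left (by norm_num) (by norm_num) (by linarith)
    have e2 : 0 ≤ 3 / (10 * R ^ 2) := by positivity
    linarith
  have h4 : 4 * (lam - 1) / R ^ 2 ≤ (lam - 1) / 4 := by
    rw [div_le_div_iff₀ (by positivity) (by norm_num)]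
    nlinarith [mul_nonneg (by linarith : (0 : ℝ) ≤ lam - 1) (by nlinarith : (0 : ℝ) ≤ R ^ 2 - 16)]
  nlinarith [mul_le_mul_of_nonneg_left h3 (by linarith : (0 : ℝ) ≤ lam - 1)]

theorem bfinal_log {R lam : ℝ} (hR : 4 ≤ R) (hlam : 1 ≤ lam) (hlam2 : lam ≤ 2) :
    lam ≤ Real.exp (2 * Real.log lam) * (1 - 2 * Real.log lam / R) := by
  have h0 : 0 < lam := by linarith
  have h1 : Real.exp (2 * Real.log lam) = lam ^ 2 := by
    rw [two_mul, Real.exp_add, Real.exp_log h0, sq]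
  have h2 : Real.log lam ≤ lam - 1 := Real.log_le_sub_one_of_pos h0
  have h3 : 0 ≤ Real.log lam := Real.log_nonneg hlam
  have hR0 : 0 < R := by linarith
  rw [h1]
  have h4 : 2 * Real.log lam / R ≤ (lam - 1) / 2 := by
    rw [div_le_div_iff₀ hR0 (by norm_num)]
    nlinarith
  have h5 : lam ^ 2 * (1 - (lam - 1) / 2) ≤ lam ^ 2 * (1 - 2 * Real.log lam / R) :=
    mul_le_mul_of_nonneg_left (by linarith) (by positivity)
  refine le_trans ?_ h5
  nlinarith [mul_nonneg (by linarith : (0 : ℝ) ≤ lam - 1) (by linarith : (0 : ℝ) ≤ 2 - lam)]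

theorem bfinal_V0_mono {m : ℕ} {A B : Set ℂ} (hAB : A ⊆ B) :
    V0 m A ≤ V0 m B := by
  unfold V0
  have hW : Continuous (fun c : ℂ => Wp m ‖c‖) := by
    unfold Wp wp
    fun_prop
  have hint : IntegrableOn (fun c : ℂ => Wp m ‖c‖) (B ∩ Metric.ball (0 : ℂ) m) := by
    refine IntegrableOn.mono_set (t := Metric.closedBall (0 : ℂ) m) ?_ ?_
    · exact hW.continuousOn.integrableOn_compact (isCompact_closedBall _ _)
    · exact inter_subset_right.trans Metric.ball_subset_closedBall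
  refine setIntegral_mono_set hint ?_ ?_
  · exact Eventually.of_forall (fun c => by
      show (0 : ℝ) ≤ Wp m ‖c‖
      unfold Wp wp
      positivity)
  · exact (inter_subset_inter_left _ hAB).eventuallyLE


/-- The case of monotone sets, in the direction `1`. -/
theorem bfinal_mono_case (h1 : Stmt_Prof) {m : ℕ} {R κ c1 t Z : ℝ} (hm : 2 ≤ m) (hRm : R < m)
    (hR4 : 4 ≤ R) (hκ : κ = 1 - 1 / (1 + R) + 1 / (10 * R ^ 2)) (hκ1 : κ < 1)
    (ht : t = 2 * Real.pi * vp m R) (htc : κ * t < c1) (ht0 : 0 < t) (hκ0 : 0 < κ) {B : Set ℂ}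
    (hM : ∀ r : ℝ, R - 1 ≤ r → r < m → 2 * Real.pi * vp m r = V0 m B →
      ENNReal.ofReal (V0 m B * (1 - 1 / (1 + r) + 3 / (10 * r ^ 2))) ≤ P0 m B)
    (hMid : Z / 4 ≤ V0 m B → V0 m B ≤ 3 / 4 * Z → ENNReal.ofReal c1 ≤ P0 m B)
    (hLow : 2 * (2 * Real.pi * vp m R) ≤ V0 m B → V0 m B ≤ Z / 4 →
      ENNReal.ofReal (2 * Real.pi * vp m R) ≤ P0 m B)
    (hV0 : 0 < V0 m B) (hV1 : V0 m B ≤ 3 / 4 * Z) :
    ENNReal.ofReal (κ * min (V0 m B) t) < P0 m B := by
  obtain ⟨-, hcont, hanti, hnn, -, hsh, -, -, -, -⟩ := h1 m hm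
  set V := V0 m B with hV
  have hpi := Real.pi_pos
  have hR0 : 0 < R := by linarith
  have hmin : κ * min V t ≤ κ * t := mul_le_mul_of_nonneg_left (min_le_right _ _) hκ0.le
  have hv0 : 0 < vp m R := by
    rw [ht] at ht0
    by_contra hcon
    have := mul_nonpos_of_nonneg_of_nonpos (by positivity : (0 : ℝ) ≤ 2 * Real.pi)
      (not_lt.mp hcon)
    linarith
  by_cases hc1 : Z / 4 ≤ V
  · refine lt_of_lt_of_le ?_ (hMid hc1 hV1)
    have h7 : 0 < c1 := lt_trans (mul_pos hκ0 ht0) htc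
    rw [ENNReal.ofReal_lt_ofReal_iff h7]
    linarith
  rw [not_le] at hc1
  by_cases hc2 : 2 * t ≤ V
  · refine lt_of_lt_of_le ?_ (hLow (by rw [← ht]; exact hc2) hc1.le)
    rw [← ht, ENNReal.ofReal_lt_ofReal_iff ht0]
    nlinarith
  rw [not_le] at hc2
  -- small volumes
  have hRmem : R ∈ Icc (0 : ℝ) m := ⟨hR0.le, hRm.le⟩
  have hR1mem : R - 1 ∈ Icc (0 : ℝ) m := ⟨by linarith, by linarith⟩
  have hmmem : (m : ℝ) ∈ Icc (0 : ℝ) m := ⟨by positivity, le_rfl⟩
  have hvm : vp m (m : ℝ) = 0 := by simp [vp]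
  have hv1 : 2 * vp m R ≤ vp m (R - 1) := by
    refine le_trans ?_ (hsh R 1 zero_le_one (by linarith) hR0 hRm.le)
    refine mul_le_mul_of_nonneg_right ?_ hv0.le
    have e1 : (2.7 : ℝ) < Real.exp 1 := by
      have := Real.exp_one_gt_d9
      linarith
    have e2 : 1 / R ≤ 1 / 4 := one_div_le_one_div_of_le (by norm_num) hR4
    nlinarith
  have hVlt : V / (2 * Real.pi) ≤ vp m (R - 1) := by
    rw [div_le_iff₀ (by positivity)]
    have : V < 2 * (2 * Real.pi * vp m R) := by rw [← ht]; exact hc2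
    nlinarith
  obtain ⟨r, hr, hvr⟩ : ∃ r ∈ Icc (R - 1) (m : ℝ), vp m r = V / (2 * Real.pi) := by
    have hcont' : ContinuousOn (vp m) (Icc (R - 1) (m : ℝ)) :=
      hcont.mono (Icc_subset_Icc (by linarith) le_rfl)
    have := intermediate_value_Icc' (by linarith : R - 1 ≤ (m : ℝ)) hcont'
    exact this ⟨by rw [hvm]; positivity, hVlt⟩
  have hrm : r < m := by
    rcases lt_or_eq_of_le hr.2 with h | h
    · exact h
    · exfalso
      rw [h, hvm] at hvr
      have : 0 < V / (2 * Real.pi) := by positivity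
      linarith
  have hrmem : r ∈ Icc (0 : ℝ) m := ⟨by linarith [hr.1], hrm.le⟩
  have hVr : 2 * Real.pi * vp m r = V := by
    rw [hvr]
    field_simp
  have hmain := hM r hr.1 hrm hVr
  refine lt_of_lt_of_le ?_ hmain
  have hgR : κ < 1 - 1 / (1 + R) + 3 / (10 * R ^ 2) := by
    rw [hκ]
    have : 1 / (10 * R ^ 2) < 3 / (10 * R ^ 2) := by
      apply div_lt_div_of_pos_right (by norm_num) (by positivity)
    linarith
  have hkey : κ * min V t < V * (1 - 1 / (1 + r) + 3 / (10 * r ^ 2)) := by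
    by_cases hc3 : V ≤ t
    · have hRr : R ≤ r := by
        by_contra hcon
        have := hanti hrmem hRmem (not_le.mp hcon)
        have h8 := mul_lt_mul_of_pos_left this (by positivity : (0 : ℝ) < 2 * Real.pi)
        rw [hVr, ← ht] at h8
        linarith
      have h9 := bfinal_mono (by linarith : 2 ≤ R) hRr
      rw [min_eq_left hc3]
      nlinarith
    · rw [not_le] at hc3
      have hrR : r ≤ R := by
        by_contra hcon
        have := hanti hRmem hrmem (not_le.mp hcon)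
        have h8 := mul_lt_mul_of_pos_left this (by positivity : (0 : ℝ) < 2 * Real.pi)
        rw [hVr, ← ht] at h8
        linarith
      set lam := V / t with hlam
      have hVlam : V = lam * t := by
        rw [hlam]
        field_simp
      have hl1 : 1 < lam := by
        rw [hlam, lt_div_iff₀ ht0]
        linarith
      have hl2 : lam < 2 := by
        rw [hlam, div_lt_iff₀ ht0]
        linarith
      have hlog0 : 0 ≤ Real.log lam := Real.log_nonneg hl1.le
      have hlog1 : Real.log lam ≤ lam - 1 := Real.log_le_sub_one_of_pos (by linarith)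
      have hlogR : R - 2 * Real.log lam ≤ r := by
        by_contra hcon
        have hmem2 : R - 2 * Real.log lam ∈ Icc (0 : ℝ) m := ⟨by linarith, by linarith⟩
        have h8 := hanti hrmem hmem2 (not_le.mp hcon)
        have h9 := hsh R (2 * Real.log lam) (by linarith) (by linarith) hR0 hRm.le
        have h10 := bfinal_log hR4 hl1.le hl2.le
        have h11 : lam * vp m R ≤ vp m (R - 2 * Real.log lam) :=
          (mul_le_mul_of_nonneg_right h10 hv0.le).trans h9
        have h12 : vp m r = lam * vp m R := by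
          have : 2 * Real.pi * vp m r = 2 * Real.pi * (lam * vp m R) := by
            rw [hVr, hVlam, ht]
            ring
          exact mul_left_cancel₀ (by positivity : (2 * Real.pi : ℝ) ≠ 0) this
        linarith
      have h13 := bfinal_small hR4 hr.1 hrR hl1.le hl2.le (by linarith)
      rw [min_eq_right hc3.le, hVlam]
      have h14 : t * (1 - 1 / (1 + R) + 3 / (10 * R ^ 2)) ≤
          t * (lam * (1 - 1 / (1 + r) + 3 / (10 * r ^ 2))) :=
        mul_le_mul_of_nonneg_left h13 ht0.le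
      have h15 : κ * t < t * (1 - 1 / (1 + R) + 3 / (10 * R ^ 2)) := by
        rw [mul_comm κ t]
        exact mul_lt_mul_of_pos_left hgR ht0
      calc κ * t < t * (1 - 1 / (1 + R) + 3 / (10 * R ^ 2)) := h15
        _ ≤ t * (lam * (1 - 1 / (1 + r) + 3 / (10 * r ^ 2))) := h14
        _ = lam * t * (1 - 1 / (1 + r) + 3 / (10 * r ^ 2)) := by ring
  have hpos : 0 < κ * min V t := mul_pos hκ0 (lt_min hV0 ht0)
  rw [ENNReal.ofReal_lt_ofReal_iff (hpos.trans hkey)]
  exact hkey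

theorem partB (h1 : Stmt_Prof) (h2 : Stmt_ProfLim) (h3 : Stmt_Main) (h4 : Stmt_CrudeMid)
    (h5 : Stmt_CrudeLow) (h6 : Stmt_CrudeRad) (h7 : Stmt_Ring) (h8 : Stmt_Rot) : Stmt_B := by
  obtain ⟨RM, mM, hRM, hmM, hM⟩ := h3
  obtain ⟨c1, m1, hc1, hm1, hMid⟩ := h4
  obtain ⟨RL, mL, hRL, hmL, hLow⟩ := h5
  obtain ⟨c2, m2, hc2, hm2, hRad⟩ := h6
  have hpi := Real.pi_pos
  -- choice of R
  have hlimR : Tendsto (fun R : ℝ => (1 + R) * Real.exp (-R)) atTop (𝓝 0) := by
    have e1 := Real.tendsto_pow_mul_exp_neg_atTop_nhds_zero 0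
    have e2 := Real.tendsto_pow_mul_exp_neg_atTop_nhds_zero 1
    have e3 := e1.add e2
    rw [add_zero] at e3
    refine e3.congr (fun x => ?_)
    ring
  have hlimR2 : Tendsto (fun R : ℝ => 2 * Real.pi * ((1 + R) * Real.exp (-R))) atTop (𝓝 0) := by
    have := hlimR.const_mul (2 * Real.pi)
    rwa [mul_zero] at this
  have hlimR3 : Tendsto (fun R : ℝ => 16 * ((1 + R) * Real.exp (-R))) atTop (𝓝 0) := by
    have := hlimR.const_mul 16
    rwa [mul_zero] at this
  obtain ⟨R, hRa, hRb, hR4, hRc, hRd⟩ : ∃ R : ℝ, RM + 1 ≤ R ∧ RL ≤ R ∧ 4 ≤ R ∧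
      2 * Real.pi * ((1 + R) * Real.exp (-R)) < min c1 c2 ∧
      16 * ((1 + R) * Real.exp (-R)) < Real.exp (-1) := by
    have ev1 := hlimR2.eventually_lt_const (lt_min hc1 hc2)
    have ev2 := hlimR3.eventually_lt_const (Real.exp_pos (-1))
    obtain ⟨R, hR⟩ := ((eventually_ge_atTop (RM + 1)).and ((eventually_ge_atTop RL).and
      ((eventually_ge_atTop (4 : ℝ)).and (ev1.and ev2)))).exists
    exact ⟨R, hR.1, hR.2.1, hR.2.2.1, hR.2.2.2.1, hR.2.2.2.2⟩
  have hR0 : 0 < R := by linarith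
  obtain ⟨κ, hκ⟩ : ∃ κ : ℝ, κ = 1 - 1 / (1 + R) + 1 / (10 * R ^ 2) := ⟨_, rfl⟩
  have hκ1 : κ < 1 := by
    have : 1 / (10 * R ^ 2) < 1 / (1 + R) := by
      apply one_div_lt_one_div_of_lt (by linarith)
      nlinarith
    rw [hκ]
    linarith
  have hκ0 : 0 < κ := by
    have e1 : 1 / (1 + R) < 1 := by
      rw [div_lt_one (by linarith)]
      linarith
    have e2 : 0 < 1 / (10 * R ^ 2) := by positivity
    rw [hκ]
    linarith
  -- choice of m
  have hlt : R * Real.exp (-R) < κ * ((1 + R) * Real.exp (-R)) := by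
    have e1 : κ * (1 + R) = R + (1 + R) / (10 * R ^ 2) := by
      rw [hκ]
      field_simp
      ring
    have e2 : 0 < (1 + R) / (10 * R ^ 2) := by positivity
    have e3 := Real.exp_pos (-R)
    rw [← mul_assoc, e1]
    nlinarith [mul_pos e2 e3]
  have hm_ev1 : ∀ᶠ m : ℕ in atTop, R * Wp m R < κ * vp m R :=
    ((h2.1 R).const_mul R).eventually_lt ((h2.2 R hR0.le).const_mul κ) hlt
  have hm_ev2 : ∀ᶠ m : ℕ in atTop, Real.exp (-1) < vp m 1 := by
    refine (h2.2 1 zero_le_one).eventually_const_lt ?_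
    have := Real.exp_pos (-1)
    linarith
  have hm_ev3 : ∀ᶠ m : ℕ in atTop, R < m :=
    (tendsto_natCast_atTop_atTop (R := ℝ)).eventually_gt_atTop R
  obtain ⟨m, hma, hmb, hmc, hmd, hme, hmf, hmg⟩ := (hm_ev1.and (hm_ev2.and (hm_ev3.and
    ((eventually_ge_atTop mM).and ((eventually_ge_atTop m1).and ((eventually_ge_atTop mL).and
      (eventually_ge_atTop m2))))))).exists
  have hm : 2 ≤ m := hmM.trans hmd
  obtain ⟨t, ht⟩ : ∃ t : ℝ, t = 2 * Real.pi * vp m R := ⟨_, rfl⟩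
  obtain ⟨-, hcont, hanti, hnn, hup, hsh, -, -, hW2, -⟩ := h1 m hm
  have hv0 : 0 < vp m R := by
    have e1 := hanti (⟨hR0.le, hmc.le⟩ : R ∈ Icc (0 : ℝ) m)
      (⟨by positivity, le_rfl⟩ : (m : ℝ) ∈ Icc (0 : ℝ) m) hmc
    exact lt_of_le_of_lt (hnn m (by positivity)) e1
  have hvle : vp m R ≤ (1 + R) * Real.exp (-R) := by
    refine (hup R hR0.le).trans ?_
    rw [mul_comm]
    exact mul_le_mul_of_nonneg_left (hW2 R hR0.le) (by linarith)
  have ht0 : 0 < t := by
    rw [ht]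
    positivity
  have htle : t < min c1 c2 := by
    rw [ht]
    refine lt_of_le_of_lt ?_ hRc
    exact mul_le_mul_of_nonneg_left hvle (by positivity)
  have hκt : κ * t < t := by nlinarith
  have hκt1 : κ * t < c1 := hκt.trans (htle.trans_le (min_le_left _ _))
  have hκt2 : κ * t < c2 := hκt.trans (htle.trans_le (min_le_right _ _))
  have hZ : t ≤ V0 m univ / 16 := by
    have h1m : (1 : ℝ) < m := by
      have : (2 : ℝ) ≤ m := by exact_mod_cast hm
      linarith
    have e1 := (h7 m 1 hm one_pos h1m).1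
    have e2 : V0 m ({c : ℂ | (1 : ℝ) < ‖c‖} ∩ Metric.ball (0 : ℂ) m) ≤ V0 m univ :=
      bfinal_V0_mono (subset_univ _)
    rw [e1] at e2
    rw [ht]
    have e3 : 16 * vp m R ≤ vp m 1 := by linarith
    nlinarith [mul_le_mul_of_nonneg_left e3 (by positivity : (0 : ℝ) ≤ 2 * Real.pi)]
  refine ⟨m, κ, t, hm, hκ0, hκ1, ht0, hZ, ?_, ?_, ?_⟩
  · have e1 := h7 m R hm hR0 hmc
    refine ⟨{c : ℂ | R < ‖c‖} ∩ Metric.ball (0 : ℂ) m, ?_, inter_subset_right, ?_, ?_⟩
    · exact (isOpen_lt continuous_const continuous_norm).measurableSet.inter measurableSet_ball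
    · rw [e1.1, ht]
    · refine lt_of_le_of_lt e1.2 ?_
      rw [ENNReal.ofReal_lt_ofReal_iff (mul_pos hκ0 ht0), ht]
      unfold hp
      calc 2 * Real.pi * (R * Wp m R) < 2 * Real.pi * (κ * vp m R) :=
            mul_lt_mul_of_pos_left hma (by positivity)
        _ = κ * (2 * Real.pi * vp m R) := by ring
  · intro A hA hA1 hA2
    refine lt_of_lt_of_le ?_ (hMid m hme A hA hA1 hA2)
    rw [ENNReal.ofReal_lt_ofReal_iff hc1]
    exact hκt1
  · intro A hA hA1 hA2 hA3
    rcases hA3 with ⟨h, hh0, hmono⟩ | hrad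
    · obtain ⟨B, hB, hBm, hBV, hBP⟩ := h8 m h A hh0 hA hmono
      rw [← hBV, ← hBP]
      rw [← hBV] at hA1 hA2
      refine bfinal_mono_case h1 hm hmc hR4 hκ hκ1 ht hκt1 ht0 hκ0 (Z := V0 m univ)
        ?_ ?_ ?_ hA1 hA2
      · intro r hr1 hr2 hr3
        exact hM m hmd B r hB hBm (by linarith) hr2 hr3
      · exact hMid m hme B hB
      · exact hLow m hmf B R hB hRb hmc
    · refine lt_of_lt_of_le ?_ (hRad m hmg A hA hrad hA1 ?_)
      · rw [ENNReal.ofReal_lt_ofReal_iff hc2]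
        refine lt_of_le_of_lt ?_ hκt2
        exact mul_le_mul_of_nonneg_left (min_le_right _ _) hκ0.le
      · linarith

end Pool.Agent.Lib.MP_c95dcf_gt
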