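import Pool.Agent.Lib.MP_c95dcf_gt.GStmts

/-!
# MP_c95dcf_gt, task G23: blow-up at Lebesgue points of the normal
-/

set_option autoImplicit false

open MeasureTheory Set Filter Topology
open scoped ENNReal NNReal RealInnerProductSpace Pointwise

namespace Pool.Agent.Lib.MP_c95dcf_gt

/-- The blown up set. -/
def blowSet {n : ℕ} (x : E n) (r : ℝ) (A : Set (E n)) : Set (E n) := {z | x + r • z ∈ A}

theorem blowSeq_meas {n : ℕ} (x : E n) (r : ℝ) {A : Set (E n)} (hA : MeasurableSet A) :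
    MeasurableSet (blowSet x r A) := by
  have h : Measurable (fun z : E n => x + r • z) := by fun_prop
  exact h hA

theorem blowSeq_image {n : ℕ} (x : E n) {r : ℝ} (hr : 0 < r) (A : Set (E n)) :
    (fun y => x + r • y) '' (blowSet x r A) = A := by
  ext y
  constructor
  · rintro ⟨z, hz, rfl⟩
    exact hz
  · intro hy
    refine ⟨r⁻¹ • (y - x), ?_, ?_⟩
    · show x + r • (r⁻¹ • (y - x)) ∈ A
      rw [smul_inv_smul₀ hr.ne']
      simpa using hy
    · show x + r • (r⁻¹ • (y - x)) = y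
      rw [smul_inv_smul₀ hr.ne']
      simp

theorem blowSeq_mem_ball {n : ℕ} (x : E n) {r : ℝ} (hr : 0 < r) (ρ : ℝ) (z : E n) :
    x + r • z ∈ Metric.ball x (r * ρ) ↔ z ∈ Metric.ball (0 : E n) ρ := by
  rw [mem_ball_iff_norm, mem_ball_iff_norm, add_sub_cancel_left, sub_zero, norm_smul,
    Real.norm_of_nonneg hr.le]
  exact mul_lt_mul_iff_right₀ hr

theorem blowSeq_blow_ball {n : ℕ} (x : E n) {r : ℝ} (hr : 0 < r) (ρ : ℝ) :
    blowSet x r (Metric.ball x (r * ρ)) = Metric.ball (0 : E n) ρ := by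
  ext z
  exact blowSeq_mem_ball x hr ρ z

theorem blowSeq_image_ball {n : ℕ} (x : E n) {r : ℝ} (hr : 0 < r) (ρ : ℝ) :
    (fun y => x + r • y) '' (Metric.ball (0 : E n) ρ) = Metric.ball x (r * ρ) := by
  rw [← blowSeq_blow_ball x hr ρ, blowSeq_image x hr]

/-- Volume of the blown up set. -/
theorem blowSeq_vol {n : ℕ} (x : E n) {r : ℝ} (hr : 0 < r) (A : Set (E n)) :
    ENNReal.ofReal (r ^ n) * volume (blowSet x r A) = volume A := by
  have h1 : A = (fun y => x + y) '' (r • (blowSet x r A)) := by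
    conv_lhs => rw [← blowSeq_image x hr A]
    ext y
    simp only [mem_image, mem_smul_set]
    constructor
    · rintro ⟨z, hz, rfl⟩
      exact ⟨r • z, ⟨z, hz, rfl⟩, rfl⟩
    · rintro ⟨_, ⟨z, hz, rfl⟩, rfl⟩
      exact ⟨z, hz, rfl⟩
  conv_rhs => rw [h1]
  have h2 : volume ((fun y => x + y) '' (r • (blowSet x r A))) =
      volume (r • (blowSet x r A)) := by
    have := measure_preimage_add (volume : Measure (E n)) (-x) (r • (blowSet x r A))
    rw [← this]
    congr 1
    ext y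
    simp only [mem_image, mem_preimage]
    constructor
    · rintro ⟨z, hz, rfl⟩
      simpa using hz
    · intro hy
      exact ⟨-x + y, hy, by simp⟩
  rw [h2, Measure.addHaar_smul]
  simp [abs_of_pos hr]

/-- Perimeter of the blown up set. -/
theorem blowSeq_per (h6 : Stmt_PerScale) {n : ℕ} (hn : 1 ≤ n) {U A : Set (E n)}
    {μ : Measure (E n)} {ν : E n → E n} (hA : MeasurableSet A) (hP : PRep U A μ ν) (x : E n)
    {r : ℝ} (hr : 0 < r) (ρ : ℝ) (hsub : Metric.ball x (r * ρ) ⊆ U) :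
    ENNReal.ofReal (r ^ (n - 1)) * Per (Metric.ball (0 : E n) ρ) (blowSet x r A) =
      μ (Metric.ball x (r * ρ)) := by
  rw [hP.open_eq _ Metric.isOpen_ball hsub,
    ← h6 n (Metric.ball 0 ρ) (blowSet x r A) x r hn hr (blowSeq_meas x r hA),
    blowSeq_image x hr, blowSeq_image_ball x hr]
  rfl

/-- Change of variables. -/
theorem blowSeq_integral {n : ℕ} (x : E n) {r : ℝ} (hr : 0 < r) {A : Set (E n)}
    (hA : MeasurableSet A) (f : E n → ℝ) :
    ∫ y in A, f (r⁻¹ • (y - x)) = r ^ n * ∫ z in blowSet x r A, f z := by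
  rw [← integral_indicator hA, ← integral_indicator (blowSeq_meas x r hA)]
  have h1 : (fun y => A.indicator (fun y => f (r⁻¹ • (y - x))) y) =
      fun y => (fun w => (blowSet x r A).indicator f (r⁻¹ • w)) (y - x) := by
    funext y
    have hmem : r⁻¹ • (y - x) ∈ blowSet x r A ↔ y ∈ A := by
      show x + r • (r⁻¹ • (y - x)) ∈ A ↔ y ∈ A
      rw [smul_inv_smul₀ hr.ne']
      simp
    by_cases hy : y ∈ A
    · rw [indicator_of_mem hy]
      show _ = (blowSet x r A).indicator f (r⁻¹ • (y - x))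
      rw [indicator_of_mem (hmem.mpr hy)]
    · rw [indicator_of_notMem hy]
      show _ = (blowSet x r A).indicator f (r⁻¹ • (y - x))
      rw [indicator_of_notMem (fun h => hy (hmem.mp h))]
  rw [h1, integral_sub_right_eq_self (fun w => (blowSet x r A).indicator f (r⁻¹ • w)) x,
    Measure.integral_comp_inv_smul]
  simp [abs_of_pos hr]

/-- The rescaled test field. -/
noncomputable def blowField {n : ℕ} (x : E n) (r : ℝ) (φ : E n → ℝ) (v : E n) : E n → E n :=
  fun y => φ (r⁻¹ • (y - x)) • v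

theorem blowSeq_hasFDerivAt {n : ℕ} (x : E n) (r : ℝ) {φ : E n → ℝ} (hφ : ContDiff ℝ 1 φ)
    (v y : E n) : HasFDerivAt (blowField x r φ v)
      ((r⁻¹ • fderiv ℝ φ (r⁻¹ • (y - x))).smulRight v) y := by
  have h1 : HasFDerivAt (fun y : E n => r⁻¹ • (y - x)) (r⁻¹ • ContinuousLinearMap.id ℝ (E n)) y :=
    ((hasFDerivAt_id y).sub_const x).const_smul r⁻¹
  have h2 : HasFDerivAt φ (fderiv ℝ φ (r⁻¹ • (y - x))) (r⁻¹ • (y - x)) :=
    (hφ.differentiable one_ne_zero _).hasFDerivAt
  have h3 := (h2.comp y h1).smul_const v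
  refine HasFDerivAt.congr_fderiv h3 ?_
  ext w
  simp

theorem blowSeq_dv {n : ℕ} (x : E n) (r : ℝ) {φ : E n → ℝ} (hφ : ContDiff ℝ 1 φ)
    (v y : E n) : dv (blowField x r φ v) y = r⁻¹ * fderiv ℝ φ (r⁻¹ • (y - x)) v := by
  unfold dv
  rw [(blowSeq_hasFDerivAt x r hφ v y).fderiv]
  simp only [ContinuousLinearMap.smulRight_apply, _root_.smul_apply,
    PiLp.smul_apply, smul_eq_mul]
  have hv : v = ∑ i, v i • EuclideanSpace.single i (1 : ℝ) := by
    ext j
    simp [Finset.sum_apply, Pi.single_apply]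
  conv_rhs => rw [hv]
  rw [map_sum, Finset.mul_sum]
  refine Finset.sum_congr rfl (fun i _ => ?_)
  rw [map_smul, smul_eq_mul]
  ring


theorem blowSeq_zero {n : ℕ} (x : E n) {r : ℝ} (hr : 0 < r) {φ : E n → ℝ} {ρ : ℝ}
    (hsupp : tsupport φ ⊆ Metric.ball (0 : E n) ρ) {y : E n} (hy : y ∉ Metric.ball x (r * ρ)) :
    r⁻¹ • (y - x) ∉ tsupport φ := by
  intro h
  apply hy
  have h1 := (blowSeq_mem_ball x hr ρ (r⁻¹ • (y - x))).mpr (hsupp h)
  rw [smul_inv_smul₀ hr.ne'] at h1
  simpa using h1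

theorem blowSeq_TF {n : ℕ} {U : Set (E n)} (x : E n) {r : ℝ} (hr : 0 < r) {φ : E n → ℝ}
    (hφ : ContDiff ℝ 1 φ) (hc : HasCompactSupport φ)
    {ρ : ℝ} (hsupp : tsupport φ ⊆ Metric.ball (0 : E n) ρ)
    (hsub : Metric.ball x (r * ρ) ⊆ U) (v : E n) : TF U (blowField x r φ v) := by
  have hcd : ContDiff ℝ 1 (fun y : E n => r⁻¹ • (y - x)) := by fun_prop
  have hK : IsCompact ((fun z => x + r • z) '' tsupport φ) :=
    hc.isCompact.image (by fun_prop)
  have hsub' : Function.support (blowField x r φ v) ⊆ (fun z => x + r • z) '' tsupport φ := by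
    intro y hy
    have h1 : φ (r⁻¹ • (y - x)) ≠ 0 := by
      intro h
      apply hy
      show φ (r⁻¹ • (y - x)) • v = 0
      rw [h, zero_smul]
    refine ⟨r⁻¹ • (y - x), subset_tsupport φ h1, ?_⟩
    show x + r • (r⁻¹ • (y - x)) = y
    rw [smul_inv_smul₀ hr.ne']
    simp
  have hts : tsupport (blowField x r φ v) ⊆ (fun z => x + r • z) '' tsupport φ :=
    closure_minimal hsub' hK.isClosed
  refine ⟨(hφ.comp hcd).smul contDiff_const, ?_, ?_⟩
  · exact IsCompact.of_isClosed_subset hK (isClosed_tsupport _) hts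
  · refine hts.trans ?_
    rintro y ⟨z, hz, rfl⟩
    exact hsub ((blowSeq_mem_ball x hr ρ z).mpr (hsupp hz))

/-- The distributional derivative of the blown up set. -/
theorem blowSeq_formula {n : ℕ} (hn : 1 ≤ n) {U A : Set (E n)}
    {μ : Measure (E n)} {ν : E n → E n} (hA : MeasurableSet A) (hP : PRep U A μ ν) (x : E n)
    {r : ℝ} (hr : 0 < r) {φ : E n → ℝ}
    (hφ : ContDiff ℝ 1 φ) (hc : HasCompactSupport φ)
    {ρ : ℝ} (hsupp : tsupport φ ⊆ Metric.ball (0 : E n) ρ)
    (hsub : Metric.ball x (r * ρ) ⊆ U) (v : E n) :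
    r ^ (n - 1) * ∫ z in blowSet x r A, fderiv ℝ φ z v =
      ∫ y, φ (r⁻¹ • (y - x)) * ⟪v, ν y⟫ ∂μ := by
  have h1 := hP.repr _ (blowSeq_TF x hr hφ hc hsupp hsub v)
  simp only [blowSeq_dv x r hφ v] at h1
  rw [integral_const_mul, blowSeq_integral x hr hA (fun z => fderiv ℝ φ z v)] at h1
  have h2 : ∀ y, ⟪blowField x r φ v y, ν y⟫ = φ (r⁻¹ • (y - x)) * ⟪v, ν y⟫ := by
    intro y
    unfold blowField
    rw [real_inner_smul_left]
  simp only [h2] at h1
  rw [← h1]
  obtain ⟨m, rfl⟩ : ∃ m, n = m + 1 := ⟨n - 1, by omega⟩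
  rw [Nat.add_sub_cancel, pow_succ]
  field_simp

/-- Convergence of integrals over converging sets. -/
theorem blowSeq_tendsto {n : ℕ} {V : Set (E n)} {T : ℕ → Set (E n)} {G : Set (E n)}
    (hT : ∀ j, MeasurableSet (T j)) (hG : MeasurableSet G)
    (hlim : Tendsto (fun j => volume (symmDiff (T j) G ∩ V)) atTop (𝓝 0))
    {g : E n → ℝ} (hg : Continuous g) (hgc : HasCompactSupport g) (hgV : tsupport g ⊆ V) :
    Tendsto (fun j => ∫ z in T j, g z) atTop (𝓝 (∫ z in G, g z)) := by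
  obtain ⟨K, hK⟩ := hgc.exists_bound_of_continuous hg
  have hK0 : 0 ≤ K := (norm_nonneg _).trans (hK 0)
  have hint : Integrable g := hg.integrable_of_hasCompactSupport hgc
  have hb : ∀ j, ENNReal.ofReal |(∫ z in T j, g z) - ∫ z in G, g z| ≤
      ENNReal.ofReal K * volume (symmDiff (T j) G ∩ V) := by
    intro j
    rw [← integral_indicator (hT j), ← integral_indicator hG,
      ← integral_sub (hint.indicator (hT j)) (hint.indicator hG)]
    rw [← Real.norm_eq_abs, ofReal_norm]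
    refine (enorm_integral_le_lintegral_enorm _).trans ?_
    have hmeas : MeasurableSet (symmDiff (T j) G ∩ tsupport g) :=
      ((hT j).symmDiff hG).inter (isClosed_tsupport g).measurableSet
    calc ∫⁻ z, ‖(T j).indicator g z - G.indicator g z‖ₑ
        ≤ ∫⁻ z, (symmDiff (T j) G ∩ tsupport g).indicator (fun _ => ENNReal.ofReal K) z := by
          refine lintegral_mono (fun z => ?_)
          by_cases hz : z ∈ tsupport g
          · by_cases h1 : z ∈ T j <;> by_cases h2 : z ∈ G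
            · simp [h1, h2]
            · rw [indicator_of_mem h1, indicator_of_notMem h2, sub_zero, indicator_of_mem]
              · rw [← ofReal_norm]
                exact ENNReal.ofReal_le_ofReal (hK z)
              · exact ⟨Or.inl ⟨h1, h2⟩, hz⟩
            · rw [indicator_of_notMem h1, indicator_of_mem h2, zero_sub, indicator_of_mem]
              · rw [enorm_neg, ← ofReal_norm]
                exact ENNReal.ofReal_le_ofReal (hK z)
              · exact ⟨Or.inr ⟨h2, h1⟩, hz⟩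
            · simp [h1, h2]
          · have hz0 : g z = 0 := image_eq_zero_of_notMem_tsupport hz
            have h3 : (T j).indicator g z = 0 := by
              by_cases h1 : z ∈ T j
              · rw [indicator_of_mem h1, hz0]
              · rw [indicator_of_notMem h1]
            have h4 : G.indicator g z = 0 := by
              by_cases h1 : z ∈ G
              · rw [indicator_of_mem h1, hz0]
              · rw [indicator_of_notMem h1]
            rw [h3, h4]
            simp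
      _ = ENNReal.ofReal K * volume (symmDiff (T j) G ∩ tsupport g) := by
          rw [lintegral_indicator hmeas, setLIntegral_const]
      _ ≤ ENNReal.ofReal K * volume (symmDiff (T j) G ∩ V) := by
          gcongr
  have hz : Tendsto (fun j => ENNReal.ofReal |(∫ z in T j, g z) - ∫ z in G, g z|) atTop (𝓝 0) := by
    have h0 : Tendsto (fun j => ENNReal.ofReal K * volume (symmDiff (T j) G ∩ V)) atTop
        (𝓝 (ENNReal.ofReal K * 0)) :=
      ENNReal.Tendsto.const_mul hlim (Or.inr ENNReal.ofReal_ne_top)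
    rw [mul_zero] at h0
    exact tendsto_of_tendsto_of_tendsto_of_le_of_le tendsto_const_nhds h0 (fun _ => zero_le) hb
  rw [tendsto_iff_norm_sub_tendsto_zero]
  have h5 := (ENNReal.tendsto_toReal ENNReal.zero_ne_top).comp hz
  simp only [ENNReal.toReal_zero] at h5
  refine h5.congr (fun j => ?_)
  simp [ENNReal.toReal_ofReal]


theorem blowSeq_ineq {n : ℕ} (hn : 1 ≤ n) {U A : Set (E n)}
    {μ : Measure (E n)} {ν : E n → E n} (hA : MeasurableSet A) (hP : PRep U A μ ν) (x : E n)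
    {r : ℝ} (hr : 0 < r) {φ : E n → ℝ}
    (hφ : ContDiff ℝ 1 φ) (hc : HasCompactSupport φ)
    {ρ : ℝ} (hsupp : tsupport φ ⊆ Metric.ball (0 : E n) ρ)
    (hsub : Metric.ball x (r * ρ) ⊆ U) (v : E n) (hsign : ∀ z, φ z * ⟪v, ν x⟫ ≤ 0)
    {K : ℝ} (hK : ∀ z, ‖φ z‖ ≤ K) :
    r ^ (n - 1) * ∫ z in blowSet x r A, fderiv ℝ φ z v ≤
      K * ‖v‖ * ∫ y in Metric.ball x (r * ρ), ‖ν y - ν x‖ ∂μ := by
  rw [blowSeq_formula hn hA hP x hr hφ hc hsupp hsub v]
  have := hP.fin
  have hK0 : 0 ≤ K := (norm_nonneg _).trans (hK 0)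
  have hνm := hP.meas
  have hφc : Continuous φ := hφ.continuous
  have hball : MeasurableSet (Metric.ball x (r * ρ)) := measurableSet_ball
  have hm1 : Measurable (fun y => φ (r⁻¹ • (y - x)) * ⟪v, ν y⟫) := by
    have : Measurable (fun y : E n => φ (r⁻¹ • (y - x))) :=
      (hφc.comp (by fun_prop : Continuous (fun y : E n => r⁻¹ • (y - x)))).measurable
    exact this.mul (measurable_const.inner hνm)
  have hi1 : Integrable (fun y => φ (r⁻¹ • (y - x)) * ⟪v, ν y⟫) μ := by
    refine Integrable.of_bound hm1.aestronglyMeasurable (K * ‖v‖) (Eventually.of_forall ?_)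
    intro y
    rw [norm_mul]
    refine mul_le_mul (hK _) ?_ (norm_nonneg _) hK0
    refine (norm_inner_le_norm v (ν y)).trans ?_
    rw [hP.unit y, mul_one]
  have hm2 : Measurable (fun y => K * ‖v‖ * ‖ν y - ν x‖) := by fun_prop
  have hi2 : Integrable ((Metric.ball x (r * ρ)).indicator
      (fun y => K * ‖v‖ * ‖ν y - ν x‖)) μ := by
    refine Integrable.indicator ?_ hball
    refine Integrable.of_bound hm2.aestronglyMeasurable (K * ‖v‖ * 2) (Eventually.of_forall ?_)
    intro y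
    rw [Real.norm_of_nonneg (by positivity)]
    refine mul_le_mul_of_nonneg_left ?_ (by positivity)
    refine (norm_sub_le _ _).trans ?_
    rw [hP.unit y, hP.unit x]
    norm_num
  rw [← integral_const_mul, ← integral_indicator hball]
  refine integral_mono hi1 hi2 (fun y => ?_)
  by_cases hy : y ∈ Metric.ball x (r * ρ)
  · rw [indicator_of_mem hy]
    have e1 : ⟪v, ν y⟫ = ⟪v, ν x⟫ + ⟪v, ν y - ν x⟫ := by
      rw [inner_sub_right]
      ring
    show φ (r⁻¹ • (y - x)) * ⟪v, ν y⟫ ≤ K * ‖v‖ * ‖ν y - ν x‖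
    rw [e1, mul_add]
    have h1 := hsign (r⁻¹ • (y - x))
    have h2 : φ (r⁻¹ • (y - x)) * ⟪v, ν y - ν x⟫ ≤ K * (‖v‖ * ‖ν y - ν x‖) := by
      refine (le_abs_self _).trans ?_
      rw [abs_mul]
      refine mul_le_mul (hK _) (abs_real_inner_le_norm _ _) (abs_nonneg _) hK0
    linarith
  · rw [indicator_of_notMem hy]
    have h0 := blowSeq_zero x hr hsupp hy
    rw [image_eq_zero_of_notMem_tsupport h0, zero_mul]

theorem blowSeq_limit_nonpos {n : ℕ} (hn : 1 ≤ n) {U A : Set (E n)}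
    {μ : Measure (E n)} {ν : E n → E n} (hA : MeasurableSet A) (hP : PRep U A μ ν) (x : E n)
    {R : ℕ → ℝ} (hR : ∀ j, 0 < R j) {ρ : ℝ} (hsub : ∀ j, Metric.ball x (R j * ρ) ⊆ U)
    {C : ℝ} (hC : 0 < C)
    (hup : ∀ j, μ (Metric.ball x (R j * ρ)) ≤ ENNReal.ofReal (C * R j ^ (n - 1)))
    (hleb : Tendsto (fun j => (∫ y in Metric.ball x (R j * ρ), ‖ν y - ν x‖ ∂μ) /
      (μ (Metric.ball x (R j * ρ))).toReal) atTop (𝓝 0))
    {G : Set (E n)} (hG : MeasurableSet G)
    (hlim : Tendsto (fun j => volume (symmDiff (blowSet x (R j) A) G ∩ Metric.ball 0 ρ)) atTop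
      (𝓝 0))
    {φ : E n → ℝ} (hφ : ContDiff ℝ 1 φ) (hc : HasCompactSupport φ)
    (hsupp : tsupport φ ⊆ Metric.ball (0 : E n) ρ)
    (v : E n) (hsign : ∀ z, φ z * ⟪v, ν x⟫ ≤ 0) :
    ∫ z in G, fderiv ℝ φ z v ≤ 0 := by
  have := hP.fin
  obtain ⟨K, hK⟩ := hc.exists_bound_of_continuous hφ.continuous
  have hK0 : 0 ≤ K := (norm_nonneg _).trans (hK 0)
  have hgc : HasCompactSupport (fun z => fderiv ℝ φ z v) := hc.fderiv_apply (𝕜 := ℝ) v
  have hg : Continuous (fun z => fderiv ℝ φ z v) :=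
    (hφ.continuous_fderiv one_ne_zero).clm_apply continuous_const
  have hgs : tsupport (fun z => fderiv ℝ φ z v) ⊆ Metric.ball (0 : E n) ρ := by
    refine Subset.trans ?_ hsupp
    refine closure_minimal ?_ (isClosed_tsupport φ)
    intro z hz
    by_contra hcon
    apply hz
    have h0 : fderiv ℝ φ z = 0 := by
      have := support_fderiv_subset ℝ (f := φ)
      by_contra h1
      exact hcon (this h1)
    show fderiv ℝ φ z v = 0
    rw [h0]
    rfl
  have hT := blowSeq_tendsto (fun j => blowSeq_meas x (R j) hA) hG hlim hg hgc hgs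
  have hb : Tendsto (fun j => K * ‖v‖ * C * ((∫ y in Metric.ball x (R j * ρ), ‖ν y - ν x‖ ∂μ) /
      (μ (Metric.ball x (R j * ρ))).toReal)) atTop (𝓝 (K * ‖v‖ * C * 0)) :=
    hleb.const_mul _
  rw [mul_zero] at hb
  refine le_of_tendsto_of_tendsto' hT hb (fun j => ?_)
  have h1 := blowSeq_ineq hn hA hP x (hR j) hφ hc hsupp (hsub j) v hsign hK
  have hpow : 0 < R j ^ (n - 1) := pow_pos (hR j) _
  set I := ∫ y in Metric.ball x (R j * ρ), ‖ν y - ν x‖ ∂μ with hI
  set m := (μ (Metric.ball x (R j * ρ))).toReal with hm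
  have hI0 : 0 ≤ I := integral_nonneg (fun _ => norm_nonneg _)
  have hmle : m ≤ C * R j ^ (n - 1) := by
    have := ENNReal.toReal_mono ENNReal.ofReal_ne_top (hup j)
    rwa [ENNReal.toReal_ofReal (by positivity)] at this
  have hIm : I ≤ (I / m) * (C * R j ^ (n - 1)) := by
    by_cases hm0 : m = 0
    · have hμ0 : μ (Metric.ball x (R j * ρ)) = 0 := by
        have := (ENNReal.toReal_eq_zero_iff _).mp hm0
        rcases this with h | h
        · exact h
        · exact absurd h (measure_ne_top μ _)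
      have : I = 0 := by
        rw [hI, Measure.restrict_eq_zero.mpr hμ0, integral_zero_measure]
      rw [this]
      simp
    · have hmpos : 0 < m := lt_of_le_of_ne ENNReal.toReal_nonneg (Ne.symm hm0)
      calc I = (I / m) * m := by field_simp
        _ ≤ _ := mul_le_mul_of_nonneg_left hmle (by positivity)
  have h2 : R j ^ (n - 1) * ∫ z in blowSet x (R j) A, fderiv ℝ φ z v ≤
      R j ^ (n - 1) * (K * ‖v‖ * C * (I / m)) := by
    refine h1.trans ?_
    calc K * ‖v‖ * I ≤ K * ‖v‖ * ((I / m) * (C * R j ^ (n - 1))) :=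
          mul_le_mul_of_nonneg_left hIm (by positivity)
      _ = _ := by ring
  exact le_of_mul_le_mul_left h2 hpow

theorem blowSeq_dens_limit {n : ℕ} {V B : Set (E n)} {T : ℕ → Set (E n)} {G : Set (E n)}
    (hlim : Tendsto (fun j => volume (symmDiff (T j) G ∩ V)) atTop (𝓝 0)) (hB : B ⊆ V)
    {c : ℝ≥0∞} (hd : ∀ j, c ≤ volume (T j ∩ B)) : c ≤ volume (G ∩ B) := by
  have h1 : Tendsto (fun j => volume (G ∩ B) + volume (symmDiff (T j) G ∩ V)) atTop
      (𝓝 (volume (G ∩ B) + 0)) := tendsto_const_nhds.add hlim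
  rw [add_zero] at h1
  refine ge_of_tendsto' h1 (fun j => (hd j).trans ?_)
  refine (measure_mono ?_).trans (measure_union_le _ _)
  intro z hz
  by_cases hzG : z ∈ G
  · exact Or.inl ⟨hzG, hz.2⟩
  · exact Or.inr ⟨Or.inl ⟨hz.1, hzG⟩, hB hz.2⟩

theorem blowSeq_dens_limit' {n : ℕ} {V B : Set (E n)} {T : ℕ → Set (E n)} {G : Set (E n)}
    (hlim : Tendsto (fun j => volume (symmDiff (T j) G ∩ V)) atTop (𝓝 0)) (hB : B ⊆ V)
    {c : ℝ≥0∞} (hd : ∀ j, c ≤ volume (B \ T j)) : c ≤ volume (B \ G) := by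
  have h1 : Tendsto (fun j => volume (B \ G) + volume (symmDiff (T j) G ∩ V)) atTop
      (𝓝 (volume (B \ G) + 0)) := tendsto_const_nhds.add hlim
  rw [add_zero] at h1
  refine ge_of_tendsto' h1 (fun j => (hd j).trans ?_)
  refine (measure_mono ?_).trans (measure_union_le _ _)
  intro z hz
  by_cases hzG : z ∈ G
  · exact Or.inr ⟨Or.inr ⟨hzG, hz.2⟩, hB hz.1⟩
  · exact Or.inl ⟨hz.1, hzG⟩

theorem blowSeq_vol_low {n : ℕ} {A : Set (E n)} (x : E n) {r : ℝ} (hr : 0 < r) {c s : ℝ}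
    (h : ENNReal.ofReal (c * (r * s) ^ n) ≤ volume (A ∩ Metric.ball x (r * s))) :
    ENNReal.ofReal (c * s ^ n) ≤ volume (blowSet x r A ∩ Metric.ball 0 s) := by
  have h1 := blowSeq_vol x hr (A ∩ Metric.ball x (r * s))
  have h2 : blowSet x r (A ∩ Metric.ball x (r * s)) = blowSet x r A ∩ Metric.ball 0 s := by
    rw [← blowSeq_blow_ball x hr s]
    rfl
  rw [h2] at h1
  rw [← h1, show c * (r * s) ^ n = r ^ n * (c * s ^ n) by ring,
    ENNReal.ofReal_mul (by positivity)] at h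
  exact (ENNReal.mul_le_mul_iff_right (by simp only [ne_eq, ENNReal.ofReal_eq_zero, not_le]; positivity)
    ENNReal.ofReal_ne_top).mp h

theorem blowSeq_vol_low' {n : ℕ} {A : Set (E n)} (x : E n) {r : ℝ} (hr : 0 < r) {c s : ℝ}
    (h : ENNReal.ofReal (c * (r * s) ^ n) ≤ volume (Metric.ball x (r * s) \ A)) :
    ENNReal.ofReal (c * s ^ n) ≤ volume (Metric.ball 0 s \ blowSet x r A) := by
  have h1 := blowSeq_vol x hr (Metric.ball x (r * s) \ A)
  have h2 : blowSet x r (Metric.ball x (r * s) \ A) = Metric.ball 0 s \ blowSet x r A := by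
    rw [← blowSeq_blow_ball x hr s]
    rfl
  rw [h2] at h1
  rw [← h1, show c * (r * s) ^ n = r ^ n * (c * s ^ n) by ring,
    ENNReal.ofReal_mul (by positivity)] at h
  exact (ENNReal.mul_le_mul_iff_right (by simp only [ne_eq, ENNReal.ofReal_eq_zero, not_le]; positivity)
    ENNReal.ofReal_ne_top).mp h


theorem blowSeq_geom {n : ℕ} (e : E n) (he : ‖e‖ = 1) {G : Set (E n)} {c : ℝ} (hc : 0 < c)
    (hlo : ∀ s : ℝ, 0 < s → s ≤ 1 → ENNReal.ofReal (c * s ^ n) ≤ volume (G ∩ Metric.ball 0 s))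
    (hhi : ∀ s : ℝ, 0 < s → s ≤ 1 → ENNReal.ofReal (c * s ^ n) ≤ volume (Metric.ball 0 s \ G))
    (h : volume (G ∩ Metric.ball 0 2) = 0 ∨ volume (Metric.ball 0 2 \ G) = 0 ∨
      ∃ c : ℝ, volume (symmDiff G {x | c < ⟪x, e⟫} ∩ Metric.ball 0 2) = 0) :
    volume (symmDiff G {x | 0 < ⟪x, e⟫} ∩ Metric.ball 0 2) = 0 := by
  have hpos : ∀ s : ℝ, 0 < s → (0 : ℝ≥0∞) < ENNReal.ofReal (c * s ^ n) := fun s hs => by
    rw [ENNReal.ofReal_pos]
    positivity
  have hb : ∀ s : ℝ, s ≤ 1 → Metric.ball (0 : E n) s ⊆ Metric.ball 0 2 := fun s hs =>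
    Metric.ball_subset_ball (by linarith)
  rcases h with h | h | ⟨a, ha⟩
  · exfalso
    have h1 := hlo 1 one_pos le_rfl
    have h2 : volume (G ∩ Metric.ball (0 : E n) 1) = 0 :=
      measure_mono_null (inter_subset_inter_right _ (hb 1 le_rfl)) h
    rw [h2] at h1
    exact absurd (hpos 1 one_pos) (not_lt.mpr h1)
  · exfalso
    have h1 := hhi 1 one_pos le_rfl
    have h2 : volume (Metric.ball (0 : E n) 1 \ G) = 0 :=
      measure_mono_null (sdiff_subset_sdiff_left (hb 1 le_rfl)) h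
    rw [h2] at h1
    exact absurd (hpos 1 one_pos) (not_lt.mpr h1)
  · have hin : ∀ z : E n, |⟪z, e⟫| ≤ ‖z‖ := fun z => by
      have := abs_real_inner_le_norm z e
      rwa [he, mul_one] at this
    rcases lt_trichotomy a 0 with h0 | h0 | h0
    · exfalso
      have hs : 0 < min (-a) 1 := lt_min (by linarith) one_pos
      have h1 := hhi _ hs (min_le_right _ _)
      have h2 : volume (Metric.ball (0 : E n) (min (-a) 1) \ G) = 0 := by
        refine measure_mono_null (fun z hz => ?_) ha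
        have hz1 : ‖z‖ < min (-a) 1 := by simpa using hz.1
        have hz2 : a < ⟪z, e⟫ := by
          have := (abs_le.mp (hin z)).1
          have h3 := lt_of_lt_of_le hz1 (min_le_left _ _)
          linarith
        exact ⟨Or.inr ⟨hz2, hz.2⟩, hb _ (min_le_right _ _) hz.1⟩
      rw [h2] at h1
      exact absurd (hpos _ hs) (not_lt.mpr h1)
    · rw [h0] at ha
      exact ha
    · exfalso
      have hs : 0 < min a 1 := lt_min h0 one_pos
      have h1 := hlo _ hs (min_le_right _ _)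
      have h2 : volume (G ∩ Metric.ball (0 : E n) (min a 1)) = 0 := by
        refine measure_mono_null (fun z hz => ?_) ha
        have hz1 : ‖z‖ < min a 1 := by simpa using hz.2
        have hz2 : ¬ a < ⟪z, e⟫ := by
          have := (abs_le.mp (hin z)).2
          have h3 := lt_of_lt_of_le hz1 (min_le_left _ _)
          linarith
        exact ⟨Or.inl ⟨hz.1, hz2⟩, hb _ (min_le_right _ _) hz.2⟩
      rw [h2] at h1
      exact absurd (hpos _ hs) (not_lt.mpr h1)

theorem blowSeq (h1 : Stmt_Dens) (h2 : Stmt_Compact) (h3 : Stmt_LSC) (h4 : Stmt_HalfSpace)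
    (h5 : Stmt_HalfPer) (h6 : Stmt_PerScale) : Stmt_BlowSeq := by
  intro n U A L μ ν x hn hU hbdd hLmin hP hx hleb η hη
  have hn1 : 1 ≤ n := by omega
  obtain ⟨c, C, hc, hC, hdens⟩ := h1 n hn
  obtain ⟨r₀, hr₀, hball, hd⟩ := hdens U A L μ ν hU hbdd hLmin hP x hx
  by_contra hcon
  have hev : ∀ᶠ r in 𝓝[>] (0 : ℝ), r ∈ Ioo 0 (r₀ / 2) := Ioo_mem_nhdsGT (by positivity)
  obtain ⟨r, hrt, hr⟩ := Filter.exists_seq_forall_of_frequently
    ((Filter.not_eventually.mp hcon).and_eventually hev)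
  have hA := hLmin.meas
  have hr0 : ∀ j, 0 < r j := fun j => (hr j).2.1
  have hr2 : ∀ j, r j * 2 < r₀ := fun j => by
    have := (hr j).2.2
    linarith
  have hsub : ∀ j, ∀ ρ : ℝ, ρ ≤ 2 → Metric.ball x (r j * ρ) ⊆ U := fun j ρ hρ => by
    refine Subset.trans ?_ hball
    refine Metric.ball_subset_closedBall.trans (Metric.closedBall_subset_closedBall ?_)
    have := hr2 j
    have h7 := mul_le_mul_of_nonneg_left hρ (hr0 j).le
    linarith
  have hup : ∀ j, μ (Metric.ball x (r j * 2)) ≤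
      ENNReal.ofReal ((C * 2 ^ (n - 1)) * r j ^ (n - 1)) := fun j => by
    have := (hd (r j * 2) (by have := hr0 j; linarith) (hr2 j)).2.2.2
    refine this.trans (ENNReal.ofReal_le_ofReal (le_of_eq ?_))
    rw [mul_pow]
    ring
  have hpow : ∀ j, ENNReal.ofReal (r j ^ (n - 1)) ≠ 0 := fun j => by
    have := pow_pos (hr0 j) (n - 1)
    simp only [ne_eq, ENNReal.ofReal_eq_zero, not_le]
    exact this
  have hPer2 : ∀ j, Per (Metric.ball (0 : E n) 2) (blowSet x (r j) A) ≤
      ((C * 2 ^ (n - 1)).toNNReal : ℝ≥0∞) := fun j => by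
    have h7 := blowSeq_per h6 hn1 hA hP x (hr0 j) 2 (hsub j 2 le_rfl)
    have h8 := hup j
    rw [← h7, mul_comm (C * 2 ^ (n - 1)), ENNReal.ofReal_mul (pow_pos (hr0 j) _).le] at h8
    exact (ENNReal.mul_le_mul_iff_right (hpow j) ENNReal.ofReal_ne_top).mp h8
  obtain ⟨φ, G, hφ, hG, hG2, hlim⟩ := h2 n (Metric.ball 0 2) (fun j => blowSet x (r j) A)
    (C * 2 ^ (n - 1)).toNNReal Metric.isOpen_ball Metric.isBounded_ball
    (fun j => blowSeq_meas x (r j) hA) hPer2
  -- the subsequence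
  set R : ℕ → ℝ := fun j => r (φ j) with hR
  have hlebR : Tendsto (fun j => (∫ y in Metric.ball x (R j * 2), ‖ν y - ν x‖ ∂μ) /
      (μ (Metric.ball x (R j * 2))).toReal) atTop (𝓝 0) := by
    have ht : Tendsto (fun j => R j * 2) atTop (𝓝[>] 0) := by
      rw [tendsto_nhdsWithin_iff]
      refine ⟨?_, Eventually.of_forall (fun j => ?_)⟩
      · have h7 : Tendsto r atTop (𝓝 0) := (tendsto_nhdsWithin_iff.mp hrt).1
        have h8 := (h7.comp hφ.tendsto_atTop).mul_const 2
        simpa using h8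
      · have := hr0 (φ j)
        show 0 < R j * 2
        simp only [hR]
        linarith
    exact hleb.comp ht
  have hnp : ∀ ψ : E n → ℝ, ContDiff ℝ 1 ψ → HasCompactSupport ψ →
      tsupport ψ ⊆ Metric.ball (0 : E n) 2 → ∀ v : E n, (∀ z, ψ z * ⟪v, ν x⟫ ≤ 0) →
      ∫ z in G, fderiv ℝ ψ z v ≤ 0 := fun ψ hψ hψc hψs v hsign =>
    blowSeq_limit_nonpos hn1 hA hP x (fun j => hr0 (φ j)) (fun j => hsub (φ j) 2 le_rfl)
      (by positivity : 0 < C * 2 ^ (n - 1)) (fun j => hup (φ j)) hlebR hG hlim hψ hψc hψs v hsign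
  have he : ‖-ν x‖ = 1 := by rw [norm_neg, hP.unit x]
  have hhalf := h4 n (Metric.ball 0 2) G (-ν x) hn1 Metric.isOpen_ball (convex_ball _ _)
    Metric.isBounded_ball hG he
    (by
      intro v hv ψ hψ hψc hψs
      have hv' : ⟪v, ν x⟫ = 0 := by
        rw [inner_neg_right] at hv
        linarith
      have g1 := hnp ψ hψ hψc hψs v (fun z => by rw [hv', mul_zero])
      have g2 := hnp ψ hψ hψc hψs (-v) (fun z => by rw [inner_neg_left, hv', neg_zero, mul_zero])
      simp only [map_neg] at g2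
      rw [integral_neg] at g2
      linarith)
    (by
      intro ψ hψ hψc hψs hψ0
      refine hnp ψ hψ hψc hψs _ (fun z => ?_)
      have h7 : ⟪-ν x, ν x⟫ = -1 := by
        rw [inner_neg_left, real_inner_self_eq_norm_sq, hP.unit x]
        norm_num
      rw [h7]
      have := hψ0 z
      linarith)
  have hlo : ∀ s : ℝ, 0 < s → s ≤ 1 →
      ENNReal.ofReal (c * s ^ n) ≤ volume (G ∩ Metric.ball 0 s) := by
    intro s hs hs1
    refine blowSeq_dens_limit hlim (Metric.ball_subset_ball (by linarith)) (fun j => ?_)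
    refine blowSeq_vol_low x (hr0 (φ j)) ?_
    have h7 : r (φ j) * s < r₀ := by
      have := hr2 (φ j)
      have h8 := mul_le_mul_of_nonneg_left hs1 (hr0 (φ j)).le
      have h9 := hr0 (φ j)
      linarith
    exact (hd (r (φ j) * s) (mul_pos (hr0 _) hs) h7).1
  have hhi : ∀ s : ℝ, 0 < s → s ≤ 1 →
      ENNReal.ofReal (c * s ^ n) ≤ volume (Metric.ball 0 s \ G) := by
    intro s hs hs1
    refine blowSeq_dens_limit' hlim (Metric.ball_subset_ball (by linarith)) (fun j => ?_)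
    refine blowSeq_vol_low' x (hr0 (φ j)) ?_
    have h7 : r (φ j) * s < r₀ := by
      have := hr2 (φ j)
      have h8 := mul_le_mul_of_nonneg_left hs1 (hr0 (φ j)).le
      have h9 := hr0 (φ j)
      linarith
    exact (hd (r (φ j) * s) (mul_pos (hr0 _) hs) h7).2.1
  have hgeom := blowSeq_geom (-ν x) he hc hlo hhi hhalf
  have hHs : MeasurableSet {z : E n | 0 < ⟪z, -ν x⟫} := by
    have hcont : Continuous (fun z : E n => ⟪z, -ν x⟫) := by fun_prop
    exact (isOpen_lt continuous_const hcont).measurableSet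
  have hlim1 : Tendsto (fun j => volume (symmDiff (blowSet x (R j) A)
      {z : E n | 0 < ⟪z, -ν x⟫} ∩ Metric.ball 0 1)) atTop (𝓝 0) := by
    refine tendsto_of_tendsto_of_tendsto_of_le_of_le tendsto_const_nhds hlim
      (fun _ => zero_le) (fun j => ?_)
    have h7 : symmDiff (blowSet x (R j) A) {z : E n | 0 < ⟪z, -ν x⟫} ∩ Metric.ball 0 1 ⊆
        (symmDiff (blowSet x (r (φ j)) A) G ∩ Metric.ball 0 2) ∪
        (symmDiff G {z : E n | 0 < ⟪z, -ν x⟫} ∩ Metric.ball 0 2) := by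
      rintro z ⟨hz1, hz2⟩
      have hz3 : z ∈ Metric.ball (0 : E n) 2 := Metric.ball_subset_ball (by norm_num) hz2
      by_cases hzG : z ∈ G
      · rcases hz1 with hz1 | hz1
        · exact Or.inr ⟨Or.inl ⟨hzG, hz1.2⟩, hz3⟩
        · exact Or.inl ⟨Or.inr ⟨hzG, hz1.2⟩, hz3⟩
      · rcases hz1 with hz1 | hz1
        · exact Or.inl ⟨Or.inl ⟨hz1.1, hzG⟩, hz3⟩
        · exact Or.inr ⟨Or.inr ⟨hz1.1, hzG⟩, hz3⟩
    refine (measure_mono h7).trans ((measure_union_le _ _).trans ?_)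
    rw [hgeom, add_zero]
  have hlsc := h3 n (Metric.ball 0 1) {z : E n | 0 < ⟪z, -ν x⟫} (fun j => blowSet x (R j) A)
    Metric.isOpen_ball hHs (fun j => blowSeq_meas x (R j) hA) hlim1
  have hPer1 : ∀ j, Per (Metric.ball (0 : E n) 1) (blowSet x (R j) A) ≤ η := fun j => by
    have h7 := blowSeq_per h6 hn1 hA hP x (hr0 (φ j)) 1 (hsub (φ j) 1 (by norm_num))
    have h8 := (hr (φ j)).1
    rw [not_le] at h8
    rw [mul_one] at h7
    rw [← h7, mul_comm η] at h8
    exact ((ENNReal.mul_lt_mul_iff_right (hpow (φ j)) ENNReal.ofReal_ne_top).mp h8).le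
  have hfin : om (n - 1) ≤ η := by
    refine (h5 n (-ν x) hn1 he).trans (hlsc.trans ?_)
    exact Filter.liminf_le_of_frequently_le' (Frequently.of_forall hPer1)
  exact absurd hη (not_lt.mpr hfin)

theorem blowup (h1 : Stmt_Lebesgue) (h2 : Stmt_SgFull) (h3 : Stmt_BlowSeq) : Stmt_Blowup := by
  intro n U A L μ ν hn hU hbdd hLmin hP
  have ha := h1 n μ ν hP.fin hP.meas hP.unit
  have hb : ∀ᵐ x ∂μ, x ∈ Sg U A := by
    rw [ae_iff]
    refine measure_mono_null ?_ (measure_union_null hP.null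
      (h2 n U A μ ν hU hLmin.meas hP))
    intro z hz
    by_cases hzU : z ∈ U
    · exact Or.inr ⟨hzU, hz⟩
    · exact Or.inl hzU
  filter_upwards [ha, hb] with z hz1 hz2
  exact ⟨hz2, h3 n U A L μ ν z hn hU hbdd hLmin hP hz2 hz1⟩

end Pool.Agent.Lib.MP_c95dcf_gt
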