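import Pool.Agent.Lib.MP_c95dcf_gt.GStmts

/-!
# MP_c95dcf_gt, task G02: mollification
-/

set_option autoImplicit false

open MeasureTheory Set Filter Topology
open scoped ENNReal NNReal RealInnerProductSpace Convolution Pointwise

namespace Pool.Agent.Lib.MP_c95dcf_gt

section Conv

variable {n : ℕ} {ρ : ℕ → E n → ℝ}

lemma Conv_hcs (h : Kern n ρ) (k : ℕ) : HasCompactSupport (ρ k) :=
  (isCompact_closedBall (0 : E n) (1 / (k + 1 : ℝ))).of_isClosed_subset
    (isClosed_tsupport _) (h.supp k)

lemma Conv_int (h : Kern n ρ) (k : ℕ) : Integrable (ρ k) :=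
  (h.smooth k).continuous.integrable_of_hasCompactSupport (Conv_hcs h k)

lemma Conv_norm_le (h : Kern n ρ) (k : ℕ) (x : E n) (hx : ρ k x ≠ 0) :
    ‖x‖ ≤ 1 / (k + 1 : ℝ) := by
  have := h.supp k (subset_tsupport _ hx)
  simpa using this

lemma Conv_one_div_le (k : ℕ) : 1 / (k + 1 : ℝ) ≤ 1 := by
  rw [div_le_one (by positivity)]
  linarith [Nat.cast_nonneg (α := ℝ) k]

lemma Conv_eq_conv (r u : E n → ℝ) :
    conv r u = (r ⋆[ContinuousLinearMap.lsmul ℝ ℝ, volume] u : E n → ℝ) := by
  funext x
  rw [convolution_lsmul_swap]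
  simp [conv]

lemma Conv_contDiff (h : Kern n ρ) (k : ℕ) {u : E n → ℝ} (hu : LocallyIntegrable u) :
    ContDiff ℝ 1 (conv (ρ k) u) := by
  rw [Conv_eq_conv]
  exact (Conv_hcs h k).contDiff_convolution_left (n := 1) _ (h.smooth k) hu

lemma Conv_intg (h : Kern n ρ) (k : ℕ) {u : E n → ℝ} (hu : LocallyIntegrable u) (x : E n) :
    Integrable (fun y => ρ k (x - y) * u y) := by
  have h1 := (Conv_hcs h k).convolutionExists_left (ContinuousLinearMap.lsmul ℝ ℝ)
    (h.smooth k).continuous hu x
  have h2 := h1.integrable_swap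
  simpa using h2

lemma Conv_sub (h : Kern n ρ) (k : ℕ) {u v : E n → ℝ} (hu : LocallyIntegrable u)
    (hv : LocallyIntegrable v) (x : E n) :
    conv (ρ k) (fun y => u y - v y) x = conv (ρ k) u x - conv (ρ k) v x := by
  unfold conv
  rw [← integral_sub (Conv_intg h k hu x) (Conv_intg h k hv x)]
  congr 1
  funext y
  ring

lemma Conv_L1 (h : Kern n ρ) (k : ℕ) {f : E n → ℝ} (hf : Integrable f) :
    Integrable (conv (ρ k) f) ∧ ∫ x, |conv (ρ k) f x| ≤ ∫ x, |f x| := by
  have hi : ∀ g : E n → ℝ, Integrable g → Integrable (conv (ρ k) g) := by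
    intro g hg
    rw [Conv_eq_conv]
    exact (Conv_int h k).integrable_convolution _ hg
  refine ⟨hi f hf, ?_⟩
  have h1 : ∫ x, conv (ρ k) (fun y => |f y|) x = ∫ x, |f x| := by
    rw [Conv_eq_conv, integral_convolution (ContinuousLinearMap.lsmul ℝ ℝ) (Conv_int h k) hf.abs]
    simp [h.mass k]
  rw [← h1]
  refine integral_mono (hi f hf).abs (hi _ hf.abs) ?_
  intro x
  show |conv (ρ k) f x| ≤ conv (ρ k) (fun y => |f y|) x
  unfold conv
  refine (abs_integral_le_integral_abs).trans_eq ?_
  congr 1
  funext y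
  rw [abs_mul, abs_of_nonneg (h.nonneg k _)]

lemma Conv_loc (h : Kern n ρ) (k : ℕ) (u : E n → ℝ) (K : Set (E n)) (x : E n) (hx : x ∈ K) :
    conv (ρ k) u x = conv (ρ k) ((Metric.cthickening 1 K).indicator u) x := by
  unfold conv
  congr 1
  funext y
  by_cases hy : ρ k (x - y) = 0
  · simp [hy]
  · have h1 := Conv_norm_le h k _ hy
    have h2 : dist y x ≤ 1 := by
      rw [dist_comm, dist_eq_norm]
      exact h1.trans (Conv_one_div_le k)
    have h3 : y ∈ Metric.cthickening 1 K := Metric.mem_cthickening_of_dist_le y x 1 K hx h2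
    rw [indicator_of_mem h3]

lemma Conv_unif (h : Kern n ρ) {g : E n → ℝ} (hg : Continuous g) (hc : HasCompactSupport g)
    {δ : ℝ} (hδ : 0 < δ) : ∀ᶠ k in atTop, ∀ x, |conv (ρ k) g x - g x| ≤ δ := by
  have hu : UniformContinuous g := hc.uniformContinuous_of_continuous hg
  obtain ⟨η, hη, hη'⟩ := Metric.uniformContinuous_iff.1 hu δ hδ
  have h0 : Tendsto (fun k : ℕ => 1 / (k + 1 : ℝ)) atTop (𝓝 0) :=
    tendsto_one_div_add_atTop_nhds_zero_nat
  filter_upwards [h0.eventually (gt_mem_nhds hη)] with k hk x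
  have h1 : Function.support (ρ k) ⊆ Metric.ball (0 : E n) η := by
    intro y hy
    rw [mem_ball_zero_iff]
    exact (Conv_norm_le h k y hy).trans_lt hk
  have h2 := dist_convolution_le (g := g) (x₀ := x) (z₀ := g x) hδ.le h1 (h.nonneg k) (h.mass k)
    hg.aestronglyMeasurable (fun y hy => (hη' hy).le)
  rw [Conv_eq_conv, ← Real.dist_eq]
  exact h2

theorem conv_basic : Stmt_Conv := by
  intro n ρ h u hu
  refine ⟨fun k => Conv_contDiff h k hu, fun K hK => ?_⟩
  set K' := Metric.cthickening 1 K with hK'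
  have hKc : IsCompact K' := hK.cthickening
  set f := K'.indicator u with hf
  have hfi : Integrable f := (hu.integrableOn_isCompact hKc).integrable_indicator
    hKc.measurableSet
  have hKK : K ⊆ K' := Metric.self_subset_cthickening K
  have hcong : ∀ k, ∫ x in K, |conv (ρ k) u x - u x| = ∫ x in K, |conv (ρ k) f x - f x| := by
    intro k
    refine setIntegral_congr_fun hK.measurableSet ?_
    intro x hx
    show |conv (ρ k) u x - u x| = |conv (ρ k) f x - f x|
    rw [Conv_loc h k u K x hx, ← hK', ← hf, hf, indicator_of_mem (hKK hx)]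
  simp_rw [hcong]
  rw [Metric.tendsto_atTop]
  intro ε hε
  obtain ⟨g, hgc, hg1, hgcont, hgi⟩ := hfi.exists_hasCompactSupport_integral_sub_le
    (show 0 < ε / 4 by positivity)
  set δ : ℝ := ε / 4 / ((volume K).toReal + 1) with hδ
  have hδ0 : 0 < δ := by positivity
  obtain ⟨N, hN⟩ := eventually_atTop.1 (Conv_unif h hgcont hgc hδ0)
  refine ⟨N, fun k hk => ?_⟩
  rw [Real.dist_eq, sub_zero, abs_of_nonneg (integral_nonneg fun x => abs_nonneg _)]
  have hfg : Integrable (fun y => f y - g y) := hfi.sub hgi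
  have hc1 := Conv_L1 h k hfg
  have hpt : ∀ x, |conv (ρ k) f x - f x| ≤
      |conv (ρ k) (fun y => f y - g y) x| + δ + |f x - g x| := by
    intro x
    have h1 := Conv_sub h k hfi.locallyIntegrable hgi.locallyIntegrable x
    have h2 := hN k hk x
    have h3 : conv (ρ k) f x - f x = conv (ρ k) (fun y => f y - g y) x +
        (conv (ρ k) g x - g x) - (f x - g x) := by
      rw [h1]; ring
    rw [h3]
    calc |conv (ρ k) (fun y => f y - g y) x + (conv (ρ k) g x - g x) - (f x - g x)|
        ≤ |conv (ρ k) (fun y => f y - g y) x + (conv (ρ k) g x - g x)| + |f x - g x| :=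
          abs_sub _ _
      _ ≤ |conv (ρ k) (fun y => f y - g y) x| + |conv (ρ k) g x - g x| + |f x - g x| := by
          gcongr
          exact abs_add_le _ _
      _ ≤ _ := by gcongr
  have hfin : volume K ≠ ∞ := hK.measure_ne_top
  have hi1 : Integrable (fun x => |conv (ρ k) (fun y => f y - g y) x|) (volume.restrict K) :=
    hc1.1.abs.restrict
  have hi2 : Integrable (fun _ : E n => δ) (volume.restrict K) :=
    integrableOn_const hfin
  have hi3 : Integrable (fun x => |f x - g x|) (volume.restrict K) := hfg.abs.restrict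
  have hbound : ∫ x in K, |conv (ρ k) f x - f x| ≤
      (∫ x in K, |conv (ρ k) (fun y => f y - g y) x|) + (∫ _ in K, δ) +
        ∫ x in K, |f x - g x| := by
    have hi12 : Integrable (fun x => |conv (ρ k) (fun y => f y - g y) x| + δ)
        (volume.restrict K) := hi1.add hi2
    rw [← integral_add hi1 hi2, ← integral_add hi12 hi3]
    exact integral_mono_of_nonneg (Eventually.of_forall fun x => abs_nonneg _)
      (hi12.add hi3) (Eventually.of_forall hpt)
  have hb1 : ∫ x in K, |conv (ρ k) (fun y => f y - g y) x| ≤ ε / 4 := by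
    refine (setIntegral_le_integral hc1.1.abs (Eventually.of_forall fun x => abs_nonneg _)).trans ?_
    refine hc1.2.trans ?_
    exact hg1
  have hb3 : ∫ x in K, |f x - g x| ≤ ε / 4 :=
    (setIntegral_le_integral hfg.abs (Eventually.of_forall fun x => abs_nonneg _)).trans hg1
  have hb2 : ∫ _ in K, δ ≤ ε / 4 := by
    rw [setIntegral_const, smul_eq_mul, Measure.real, hδ]
    have h5 : (volume K).toReal * (ε / 4 / ((volume K).toReal + 1)) =
        ε / 4 * ((volume K).toReal / ((volume K).toReal + 1)) := by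
      field_simp
    rw [h5]
    have h6 : (volume K).toReal / ((volume K).toReal + 1) ≤ 1 := by
      rw [div_le_one (by positivity)]
      linarith
    have h7 : 0 < ε / 4 := by positivity
    nlinarith
  linarith

/-- The trace as a continuous linear map. -/
noncomputable def Conv_tr (n : ℕ) : (E n →L[ℝ] E n) →L[ℝ] ℝ :=
  ∑ i : Fin n, (EuclideanSpace.proj i : E n →L[ℝ] ℝ).comp
    (ContinuousLinearMap.apply ℝ (E n) (EuclideanSpace.single i (1 : ℝ)))

lemma Conv_tr_apply (A : E n →L[ℝ] E n) :
    Conv_tr n A = ∑ i, (A (EuclideanSpace.single i (1 : ℝ))) i := by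
  simp [Conv_tr]

lemma Conv_dv_eq (X : E n → E n) : dv X = fun x => Conv_tr n (fderiv ℝ X x) := by
  funext x
  rw [Conv_tr_apply]
  rfl

lemma Conv_dv_cont {X : E n → E n} (hX : ContDiff ℝ 1 X) : Continuous (dv X) := by
  rw [Conv_dv_eq]
  exact (Conv_tr n).continuous.comp (hX.continuous_fderiv one_ne_zero)

lemma Conv_dv_hcs {X : E n → E n} (hX : HasCompactSupport X) : HasCompactSupport (dv X) := by
  rw [Conv_dv_eq]
  exact (hX.fderiv ℝ).comp_left (g := fun A => Conv_tr n A) (map_zero _)

lemma Conv_dv_conv (h : Kern n ρ) (k : ℕ) {X : E n → E n} (hX : ContDiff ℝ 1 X)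
    (hc : HasCompactSupport X) :
    dv (ρ k ⋆[ContinuousLinearMap.lsmul ℝ ℝ, volume] X : E n → E n) = conv (ρ k) (dv X) := by
  funext x
  have h1 := hc.hasFDerivAt_convolution_right (ContinuousLinearMap.lsmul ℝ ℝ : ℝ →L[ℝ] E n →L[ℝ] E n)
    (Conv_int h k).locallyIntegrable hX x
  have h2 := (hc.fderiv ℝ).convolutionExists_right
    ((ContinuousLinearMap.lsmul ℝ ℝ : ℝ →L[ℝ] E n →L[ℝ] E n).precompR (E n))
    (Conv_int h k).locallyIntegrable (hX.continuous_fderiv one_ne_zero) x
  have h3 : ∀ t, Conv_tr n (((ContinuousLinearMap.lsmul ℝ ℝ : ℝ →L[ℝ] E n →L[ℝ] E n).precompR (E n))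
      (ρ k t) (fderiv ℝ X (x - t))) = ρ k t * dv X (x - t) := by
    intro t
    rw [Conv_tr_apply, Conv_dv_eq]
    simp only [Conv_tr_apply, Finset.mul_sum]
    refine Finset.sum_congr rfl fun i _ => ?_
    simp [ContinuousLinearMap.precompR_apply]
  rw [Conv_dv_eq]
  simp only
  rw [h1.fderiv, convolution_def, ← ContinuousLinearMap.integral_comp_comm _ h2]
  simp_rw [h3]
  rw [Conv_eq_conv, convolution_lsmul]
  simp

lemma Conv_swap (h : Kern n ρ) (k : ℕ) {u w : E n → ℝ} (hu : LocallyIntegrable u)
    (hw : Continuous w) (hwc : HasCompactSupport w) :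
    ∫ x, conv (ρ k) u x * w x = ∫ x, u x * conv (ρ k) w x := by
  set K' := Metric.cthickening 1 (tsupport w) with hK'
  have hKc : IsCompact K' := IsCompact.cthickening hwc
  set f := K'.indicator u with hf
  have hfi : Integrable f := (hu.integrableOn_isCompact hKc).integrable_indicator
    hKc.measurableSet
  have hwi : Integrable w := hw.integrable_of_hasCompactSupport hwc
  have hF : ∀ x y : E n, ρ k (x - y) * u y * w x = ρ k (x - y) * (w x * f y) := by
    intro x y
    by_cases hy : ρ k (x - y) = 0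
    · simp [hy]
    by_cases hx : w x = 0
    · simp [hx]
    have h1 := Conv_norm_le h k _ hy
    have h2 : dist y x ≤ 1 := by
      rw [dist_comm, dist_eq_norm]
      exact h1.trans (Conv_one_div_le k)
    have h3 : y ∈ K' :=
      Metric.mem_cthickening_of_dist_le y x 1 _ (subset_tsupport _ hx) h2
    rw [hf, indicator_of_mem h3]
    ring
  have hint : Integrable (Function.uncurry fun x y : E n => ρ k (x - y) * u y * w x)
      (volume.prod volume) := by
    have h1 : (Function.uncurry fun x y : E n => ρ k (x - y) * u y * w x) =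
        fun p : E n × E n => ρ k (p.1 - p.2) * (w p.1 * f p.2) := by
      funext p
      exact hF p.1 p.2
    rw [h1]
    obtain ⟨C, hC⟩ := (h.smooth k).continuous.bounded_above_of_compact_support (Conv_hcs h k)
    refine (hwi.mul_prod hfi).bdd_mul (c := C) ?_ ?_
    · exact ((h.smooth k).continuous.comp (continuous_fst.sub continuous_snd)).aestronglyMeasurable
    · exact Eventually.of_forall fun p => hC _
  calc ∫ x, conv (ρ k) u x * w x = ∫ x, ∫ y, ρ k (x - y) * u y * w x := by
        congr 1
        funext x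
        unfold conv
        rw [integral_mul_const]
    _ = ∫ y, ∫ x, ρ k (x - y) * u y * w x := integral_integral_swap hint
    _ = ∫ x, u x * conv (ρ k) w x := by
        congr 1
        funext y
        unfold conv
        rw [← integral_const_mul]
        congr 1
        funext x
        have := h.even k (y - x)
        rw [neg_sub] at this
        rw [this]
        ring

theorem conv_test : Stmt_ConvTest := by
  intro n ρ h u hu k U V X hU hX hUV
  have hXi : LocallyIntegrable X := hX.diff.continuous.locallyIntegrable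
  have heq : ∀ x, (ρ k ⋆[ContinuousLinearMap.lsmul ℝ ℝ, volume] X : E n → E n) x =
      ∫ y, ρ k (x - y) • X y := by
    intro x
    rw [convolution_lsmul_swap]
  refine ⟨(ρ k ⋆[ContinuousLinearMap.lsmul ℝ ℝ, volume] X : E n → E n), ⟨?_, ?_, ?_⟩, ?_, heq, ?_⟩
  · exact (Conv_hcs h k).contDiff_convolution_left (n := 1) _ (h.smooth k) hXi
  · exact (Conv_hcs h k).convolution _ hX.comp
  · have h1 : tsupport (ρ k ⋆[ContinuousLinearMap.lsmul ℝ ℝ, volume] X : E n → E n) ⊆
        tsupport (ρ k) + tsupport X := by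
      refine closure_minimal ((support_convolution_subset _).trans
        (add_subset_add (subset_tsupport _) (subset_tsupport _))) ?_
      exact ((Conv_hcs h k).isCompact.add hX.comp.isCompact).isClosed
    refine h1.trans ?_
    rintro _ ⟨y, hy, x, hx, rfl⟩
    have h2 : ‖y‖ ≤ 1 / (k + 1 : ℝ) := by
      have := h.supp k hy
      simpa using this
    have h3 := hUV x (hX.supp hx) y h2
    rwa [add_comm] at h3
  · intro b hb x
    rw [heq]
    have hint : Integrable (fun y => ρ k (x - y) * b) :=
      ((Conv_int h k).comp_sub_left x).mul_const b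
    refine (norm_integral_le_of_norm_le hint (Eventually.of_forall fun y => ?_)).trans_eq ?_
    · rw [norm_smul, Real.norm_of_nonneg (h.nonneg k _)]
      exact mul_le_mul_of_nonneg_left (hb y) (h.nonneg k _)
    · rw [integral_mul_const, integral_sub_left_eq_self (fun y => ρ k y) volume x, h.mass k,
        one_mul]
  · rw [Conv_dv_conv h k hX.diff hX.comp]
    exact Conv_swap h k hu (Conv_dv_cont hX.diff) (Conv_dv_hcs hX.comp)

end Conv

end Pool.Agent.Lib.MP_c95dcf_gt
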