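import Pool.Agent.Lib.MP_c95dcf_gt.Mg.G001

/-!
# MP_c95dcf_gt, task B10: the core estimate
-/

set_option autoImplicit false

open MeasureTheory Set Filter Topology
open scoped ENNReal NNReal

namespace Pool.Agent.Lib.MP_c95dcf_gt

theorem core_sqrt {x : ℝ} (h0 : 0 ≤ x) (h1 : x ≤ 1) :
    1 - x / 2 - x ^ 2 / 2 ≤ Real.sqrt (1 - x) := by
  apply Real.le_sqrt_of_sq_le
  have h2 : 0 ≤ x * (1 - x) := mul_nonneg h0 (by linarith)
  have h3 : 0 ≤ x * (1 - x) * (x + (x / 2 + x ^ 2 / 2)) := mul_nonneg h2 (by positivity)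
  nlinarith

theorem core_xlogx {x : ℝ} (hx : 0 < x) : -(Real.exp (-1)) ≤ x * Real.log x := by
  have h1 : 0 < Real.exp 1 * x := by positivity
  have h2 := Real.one_sub_inv_le_log_of_pos h1
  rw [Real.log_mul (Real.exp_pos 1).ne' hx.ne', Real.log_exp] at h2
  have h3 : (Real.exp 1 * x)⁻¹ * x = Real.exp (-1) := by
    rw [Real.exp_neg]; field_simp
  have h4 : -(Real.exp 1 * x)⁻¹ ≤ Real.log x := by linarith
  calc -(Real.exp (-1)) = -(Real.exp 1 * x)⁻¹ * x := by rw [← h3]; ring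
    _ ≤ Real.log x * x := mul_le_mul_of_nonneg_right h4 hx.le
    _ = _ := mul_comm _ _

/-- Positive part of the logarithm of the relative density. -/
noncomputable def coreL (V v : ℝ) : ℝ := max 0 (Real.log (2 * Real.pi * v / V))

theorem coreL_nonneg (V v : ℝ) : 0 ≤ coreL V v := le_max_left _ _

theorem coreL_mono {V q v : ℝ} (hV : 0 < V) (hq : 0 ≤ q) (hqv : q ≤ v) :
    coreL V q ≤ coreL V v := by
  rcases hq.eq_or_lt with rfl | hq
  · simp [coreL]
  · refine max_le_max le_rfl (Real.log_le_log (by positivity) ?_)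
    gcongr

theorem core_log1 {V q v ℓ : ℝ} (hV : 0 < V) (hq : 0 ≤ q) (hqv : q ≤ v)
    (hℓ : coreL V v ≤ ℓ) :
    v * coreL V v ≤ q * coreL V q + (v - q) * (1 + ℓ) := by
  have hpi := Real.pi_pos
  set c := 2 * Real.pi / V with hc
  have hc0 : 0 < c := by positivity
  have e1 : ∀ x : ℝ, coreL V x = max 0 (Real.log (c * x)) := by
    intro x; rw [coreL, hc]; congr 2; field_simp
  have hv : 0 ≤ v := hq.trans hqv
  have hmain : q * (coreL V v - coreL V q) ≤ v - q := by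
    rcases le_or_gt (c * v) 1 with h1 | h1
    · have h2 : coreL V v = 0 := by
        rw [e1]; exact max_eq_left (Real.log_nonpos (by positivity) h1)
      have h3 := coreL_nonneg V q
      rw [h2]
      nlinarith
    · have h2 : coreL V v = Real.log (c * v) := by
        rw [e1]; exact max_eq_right (Real.log_nonneg h1.le)
      have hv0 : 0 < v := by
        by_contra hcon
        have : v = 0 := le_antisymm (not_lt.1 hcon) hv
        rw [this] at h1; norm_num at h1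
      rcases le_or_gt (c * q) 1 with h3 | h3
      · -- `q * log (c v) ≤ v - q`
        have h4 : Real.log (c * v) ≤ c * v - 1 := Real.log_le_sub_one_of_pos (by positivity)
        have h5 := coreL_nonneg V q
        rw [h2]
        have h6 : q * (Real.log (c * v) - coreL V q) ≤ q * (c * v - 1) :=
          mul_le_mul_of_nonneg_left (by linarith) hq
        have h7 : q * (c * v) ≤ v := by
          have : (c * q) * v ≤ 1 * v := mul_le_mul_of_nonneg_right h3 hv
          linarith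
        linarith
      · have hq0 : 0 < q := by
          by_contra hcon
          have : q = 0 := le_antisymm (not_lt.1 hcon) hq
          rw [this] at h3; norm_num at h3
        have h4 : coreL V q = Real.log (c * q) := by
          rw [e1]; exact max_eq_right (Real.log_nonneg h3.le)
        rw [h2, h4, ← Real.log_div (by positivity) (by positivity)]
        have h5 : c * v / (c * q) = v / q := by field_simp
        rw [h5]
        have h6 : Real.log (v / q) ≤ v / q - 1 := Real.log_le_sub_one_of_pos (by positivity)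
        calc q * Real.log (v / q) ≤ q * (v / q - 1) := mul_le_mul_of_nonneg_left h6 hq
          _ = v - q := by field_simp
  have h8 : (v - q) * coreL V v ≤ (v - q) * ℓ :=
    mul_le_mul_of_nonneg_left hℓ (by linarith)
  nlinarith

theorem core_log2 {V VJ q : ℝ} (hV : 0 < V) (hVJ : 0 < VJ) (hVV : VJ ≤ V) (hq : 0 ≤ q) :
    q * coreL V q - V * (Real.exp (-1) / (2 * Real.pi)) ≤
      q * (Real.log (2 * Real.pi) + Real.log (q / VJ)) := by
  have hpi := Real.pi_pos
  have he := Real.exp_pos (-1)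
  rcases hq.eq_or_lt with rfl | hq
  · have : 0 ≤ V * (Real.exp (-1) / (2 * Real.pi)) := by positivity
    simpa using this
  have h1 : Real.log (2 * Real.pi * q / V) ≤ Real.log (2 * Real.pi) + Real.log (q / VJ) := by
    rw [← Real.log_mul (by positivity) (by positivity)]
    refine Real.log_le_log (by positivity) ?_
    rw [mul_div_assoc]
    gcongr
  have h2 : q * Real.log (2 * Real.pi * q / V) ≤
      q * (Real.log (2 * Real.pi) + Real.log (q / VJ)) :=
    mul_le_mul_of_nonneg_left h1 hq.le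
  refine le_trans ?_ h2
  rcases le_or_gt 0 (Real.log (2 * Real.pi * q / V)) with h3 | h3
  · rw [coreL, max_eq_right h3]
    have : 0 ≤ V * (Real.exp (-1) / (2 * Real.pi)) := by positivity
    linarith
  · rw [coreL, max_eq_left h3.le, mul_zero, zero_sub]
    have h4 := core_xlogx (x := 2 * Real.pi * q / V) (by positivity)
    have h5 : q * Real.log (2 * Real.pi * q / V) =
        V / (2 * Real.pi) * (2 * Real.pi * q / V * Real.log (2 * Real.pi * q / V)) := by
      field_simp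
    rw [h5]
    have h6 := mul_le_mul_of_nonneg_left h4 (by positivity : 0 ≤ V / (2 * Real.pi))
    calc -(V * (Real.exp (-1) / (2 * Real.pi))) = V / (2 * Real.pi) * -Real.exp (-1) := by ring
      _ ≤ _ := h6

theorem core_const1 : (573 / 1000 : ℝ) ≤ 2 * aa ^ 2 + Real.log bb - Real.log (2 * Real.pi) := by
  have hpi := Real.pi_pos
  have h1 : Real.log (2 * Real.pi) - Real.log bb ≤ 2 * Real.log 2 := by
    rw [← Real.log_div (by positivity) (by norm_num [bb]), ← Real.log_rpow (by norm_num)]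
    refine Real.log_le_log (by have : 0 < bb := by norm_num [bb]
                               positivity) ?_
    rw [div_le_iff₀ (by norm_num [bb])]
    norm_num [bb]
    have := Real.pi_lt_d2
    linarith
  have h2 := Real.log_two_lt_d9
  have h3 : (2 : ℝ) * aa ^ 2 = 1.9602 := by norm_num [aa]
  rw [h3]
  linarith

theorem core_const2 : Real.exp (-1) / (2 * Real.pi) ≤ 586 / 10000 := by
  have hpi := Real.pi_gt_d2
  have he := Real.exp_one_gt_d9
  rw [Real.exp_neg, div_le_iff₀ (by positivity), inv_le_comm₀ (Real.exp_pos 1) (by positivity),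
    inv_le_comm₀ (by positivity) (Real.exp_pos 1)]
  rw [inv_le_comm₀ (Real.exp_pos 1) (by positivity)]
  refine le_trans ?_ he.le
  rw [inv_le_comm₀ (by positivity) (by norm_num)]
  refine le_trans ?_ (mul_le_mul_of_nonneg_left (mul_le_mul_of_nonneg_left hpi.le two_pos.le)
    (by norm_num))
  norm_num

/-- Conditions on the parameters. -/
structure CoreR (R ℓ S : ℝ) : Prop where
  hR : 10000 ≤ R
  hℓ1 : 1 ≤ ℓ
  hℓ : 1000 * ℓ ^ 2 ≤ R
  hlog : Real.log R ≤ ℓ
  hS : 1 ≤ S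
  hSR : 1000 * S ^ 2 ≤ R

theorem CoreR.frac {R ℓ S : ℝ} (C : CoreR R ℓ S) {L : ℝ} (hL0 : 0 ≤ L) (hL : L ≤ ℓ) :
    0 ≤ 1 - 1 / (1 + R - (1 + 4 / R) * L) ∧ 1 - 1 / (1 + R - (1 + 4 / R) * L) ≤ 1 ∧
      1 - 1 / (1 + R) - (1 + 10 * (ℓ / R)) / R ^ 2 * L ≤ 1 - 1 / (1 + R - (1 + 4 / R) * L) := by
  have hR := C.hR
  have hℓ1 := C.hℓ1
  have hℓ := C.hℓ
  have hR0 : 0 < R := by linarith
  have h4 : 4 / R ≤ 1 := by rw [div_le_one hR0]; linarith
  have h4' : 0 ≤ 4 / R := by positivity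
  have hℓR : 1000 * ℓ ≤ R := by nlinarith
  have hY0 : 0 ≤ (1 + 4 / R) * L := by positivity
  have hY : (1 + 4 / R) * L ≤ 2 * ℓ := by nlinarith
  set Y := (1 + 4 / R) * L with hYdef
  have hD : 1 + R - 2 * ℓ ≤ 1 + R - Y := by linarith
  have hD0 : 1 ≤ 1 + R - Y := by linarith
  have hD1 : 0 < 1 + R - Y := by linarith
  refine ⟨?_, ?_, ?_⟩
  · rw [sub_nonneg, div_le_one hD1]; exact hD0
  · have : 0 ≤ 1 / (1 + R - Y) := by positivity
    linarith
  · have h1 : 1 / (1 + R - Y) - 1 / (1 + R) = Y / ((1 + R) * (1 + R - Y)) := by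
      field_simp; ring
    have h2 : 0 < R - 2 * ℓ := by linarith
    have h3 : Y / ((1 + R) * (1 + R - Y)) ≤ Y / (R * (R - 2 * ℓ)) := by
      gcongr
      · linarith
      · linarith
    have h5 : Y / (R * (R - 2 * ℓ)) ≤ (1 + 10 * (ℓ / R)) / R ^ 2 * L := by
      rw [hYdef, div_le_iff₀ (by positivity)]
      have e1 : (1 + 4 / R) * L = (R + 4) * L / R := by field_simp
      have e2 : (1 + 10 * (ℓ / R)) / R ^ 2 * L * (R * (R - 2 * ℓ)) =
          (R + 10 * ℓ) * (R - 2 * ℓ) * L / R ^ 2 := by field_simp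
      rw [e1, e2, div_le_div_iff₀ hR0 (by positivity)]
      have e3 : (R + 4) * R ≤ (R + 10 * ℓ) * (R - 2 * ℓ) := by nlinarith
      nlinarith [mul_le_mul_of_nonneg_left e3 (by positivity : 0 ≤ L * R)]
    linarith

theorem CoreR.logR {R ℓ S : ℝ} (C : CoreR R ℓ S) : 0 ≤ Real.log R :=
  Real.log_nonneg (by have := C.hR; linarith)

/-- Comparison of `1/R'^2` and `1/R^2`. -/
theorem CoreR.inv {R ℓ S : ℝ} (C : CoreR R ℓ S) :
    1 / (R + 4 * Real.log R) ^ 2 ≤ 1 / R ^ 2 ∧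
      1 / R ^ 2 * (1 - 8 * (ℓ / R)) ≤ 1 / (R + 4 * Real.log R) ^ 2 := by
  have hR := C.hR
  have hR0 : 0 < R := by linarith
  have hl := C.logR
  have hl' := C.hlog
  have hℓ1 := C.hℓ1
  have hℓ := C.hℓ
  constructor
  · gcongr
    linarith
  · have h1 : R + 4 * Real.log R ≤ R + 4 * ℓ := by linarith
    have h2 : 1 / (R + 4 * ℓ) ^ 2 ≤ 1 / (R + 4 * Real.log R) ^ 2 := by gcongr
    refine le_trans ?_ h2
    rw [le_div_iff₀ (by positivity)]
    have e1 : 1 / R ^ 2 * (1 - 8 * (ℓ / R)) * (R + 4 * ℓ) ^ 2 =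
        ((R - 8 * ℓ) * (R + 4 * ℓ) ^ 2) / R ^ 3 := by field_simp
    rw [e1, div_le_one (by positivity)]
    nlinarith [mul_pos hR0 hR0, mul_nonneg hR0.le (sq_nonneg ℓ), pow_nonneg (by linarith : 0 ≤ ℓ) 3]

/-- The basic pointwise estimate. -/
theorem CoreR.base {R ℓ S : ℝ} (C : CoreR R ℓ S) {v L s : ℝ} (hv : 0 ≤ v) (hL0 : 0 ≤ L)
    (hL : L ≤ ℓ) (hs : |s| ≤ S) :
    v * (1 - 1 / (1 + R)) - (1 + 10 * (ℓ / R)) / R ^ 2 * (v * L) -
        s ^ 2 / 2 * (1 / (R + 4 * Real.log R) ^ 2) * v - S ^ 4 / 2 * (1 / R ^ 2) ^ 2 * v ≤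
      Real.sqrt (1 - (s / (R + 4 * Real.log R)) ^ 2) *
        (v * (1 - 1 / (1 + R - (1 + 4 / R) * L))) := by
  have hR := C.hR
  have hR0 : 0 < R := by linarith
  obtain ⟨f0, f1, f2⟩ := C.frac hL0 hL
  obtain ⟨i1, _⟩ := C.inv
  have hS := C.hS
  have hSR := C.hSR
  set Φ := 1 - 1 / (1 + R - (1 + 4 / R) * L)
  set X' := 1 / (R + 4 * Real.log R) ^ 2 with hX'
  have hX'0 : 0 ≤ X' := by positivity
  have hx : (s / (R + 4 * Real.log R)) ^ 2 = s ^ 2 * X' := by
    rw [hX', div_pow, mul_one_div]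
  have hs2 : s ^ 2 ≤ S ^ 2 := by
    rw [← sq_abs]; exact pow_le_pow_left₀ (abs_nonneg s) hs 2
  have hx0 : 0 ≤ s ^ 2 * X' := by positivity
  have hx1 : s ^ 2 * X' ≤ S ^ 2 * (1 / R ^ 2) := mul_le_mul hs2 i1 hX'0 (by positivity)
  have hSX : S ^ 2 * (1 / R ^ 2) ≤ 1 := by
    rw [mul_one_div, div_le_one (by positivity)]
    nlinarith
  rw [hx]
  have h1 := core_sqrt hx0 (hx1.trans hSX)
  have hvΦ : 0 ≤ v * Φ := mul_nonneg hv f0
  have h2 : (1 - s ^ 2 * X' / 2 - (s ^ 2 * X') ^ 2 / 2) * (v * Φ) ≤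
      Real.sqrt (1 - s ^ 2 * X') * (v * Φ) := mul_le_mul_of_nonneg_right h1 hvΦ
  refine le_trans ?_ h2
  have h3 : v * Φ ≤ v := by nlinarith
  have h4 : (s ^ 2 * X' / 2 + (s ^ 2 * X') ^ 2 / 2) * (v * Φ) ≤
      (s ^ 2 * X' / 2 + (s ^ 2 * X') ^ 2 / 2) * v :=
    mul_le_mul_of_nonneg_left h3 (by positivity)
  have h5 : (s ^ 2 * X') ^ 2 ≤ (S ^ 2 * (1 / R ^ 2)) ^ 2 := pow_le_pow_left₀ hx0 hx1 2
  have h6 : (s ^ 2 * X') ^ 2 / 2 * v ≤ S ^ 4 / 2 * (1 / R ^ 2) ^ 2 * v := by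
    refine mul_le_mul_of_nonneg_right ?_ hv
    have : S ^ 4 / 2 * (1 / R ^ 2) ^ 2 = (S ^ 2 * (1 / R ^ 2)) ^ 2 / 2 := by ring
    rw [this]
    linarith
  have h7 : v * (1 - 1 / (1 + R) - (1 + 10 * (ℓ / R)) / R ^ 2 * L) ≤ v * Φ :=
    mul_le_mul_of_nonneg_left f2 hv
  nlinarith

/-- Pointwise estimate on `J`. -/
theorem CoreR.ptJ {R ℓ S : ℝ} (C : CoreR R ℓ S) {V VJ v q g s : ℝ} (hV : 0 < V)
    (hVJ : 0 < VJ) (hVV : VJ ≤ V) (hq : 0 ≤ q) (hqv : q ≤ v) (hvq : v ≤ q + V / R ^ 3)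
    (hL : coreL V v ≤ ℓ) (hs : |s| ≤ S)
    (hT : q * (2 * aa ^ 2 + Real.log bb + Real.log (q / VJ)) ≤ q * (-(g + s ^ 2 / 2))) :
    v * (1 - 1 / (1 + R)) + 1 / R ^ 2 * (546 / 1000 * v - 587 / 10000 * V) ≤
      Real.sqrt (1 - (s / (R + 4 * Real.log R)) ^ 2) *
        (v * (1 - 1 / (1 + R - (1 + 4 / R) * coreL V v))) -
          1 / (R + 4 * Real.log R) * (g / (R + 4 * Real.log R)) * q := by
  have hR := C.hR
  have hR0 : 0 < R := by linarith
  have hS := C.hS
  have hSR := C.hSR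
  have hℓ1 := C.hℓ1
  have hℓ := C.hℓ
  have hℓR : 1000 * ℓ ≤ R := by nlinarith
  have hv : 0 ≤ v := hq.trans hqv
  have hb := C.base hv (coreL_nonneg V v) hL hs
  obtain ⟨i1, i2⟩ := C.inv
  set X' := 1 / (R + 4 * Real.log R) ^ 2 with hX'
  have hX'0 : 0 ≤ X' := by positivity
  have hg : 1 / (R + 4 * Real.log R) * (g / (R + 4 * Real.log R)) * q = g * q * X' := by
    rw [hX', sq, ← one_div_mul_one_div, div_eq_mul_one_div g]; ring
  rw [hg]
  set δ := V / R ^ 3 with hδ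
  have hδ0 : 0 ≤ δ := by positivity
  set X := 1 / R ^ 2 with hX
  have hX0 : 0 < X := by positivity
  set Lq := coreL V q
  have hLq0 : 0 ≤ Lq := coreL_nonneg V q
  have hLqℓ : Lq ≤ ℓ := (coreL_mono hV hq hqv).trans hL
  have l1 := core_log1 hV hq hqv hL
  have l2 := core_log2 hV hVJ hVV hq
  have c1 := core_const1
  have c2 := core_const2
  -- lower bound of `q * T`
  have hT2 : 573 / 1000 * q + q * Lq - 586 / 10000 * V ≤ q * (-(g + s ^ 2 / 2)) := by
    refine le_trans ?_ hT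
    have h1 : q * (2 * aa ^ 2 + Real.log bb + Real.log (q / VJ)) =
        q * (2 * aa ^ 2 + Real.log bb - Real.log (2 * Real.pi)) +
          q * (Real.log (2 * Real.pi) + Real.log (q / VJ)) := by ring
    rw [h1]
    have h2 := mul_le_mul_of_nonneg_left c1 hq
    have h3 := mul_le_mul_of_nonneg_left c2 hV.le
    linarith
  -- multiply by `X'`
  have hT3 : X' * (573 / 1000 * q + q * Lq) - X * (586 / 10000 * V) ≤
      X' * (q * (-(g + s ^ 2 / 2))) := by
    have h1 := mul_le_mul_of_nonneg_left hT2 hX'0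
    have h2 : X' * (586 / 10000 * V) ≤ X * (586 / 10000 * V) :=
      mul_le_mul_of_nonneg_right i1 (by positivity)
    linarith
  have hT4 : X * (1 - 8 * (ℓ / R)) * (573 / 1000 * q + q * Lq) ≤
      X' * (573 / 1000 * q + q * Lq) :=
    mul_le_mul_of_nonneg_right i2 (by positivity)
  have hvL : (1 + 10 * (ℓ / R)) / R ^ 2 * (v * coreL V v) ≤
      (1 + 10 * (ℓ / R)) * X * (q * Lq + δ * (1 + ℓ)) := by
    have h1 : (1 + 10 * (ℓ / R)) / R ^ 2 = (1 + 10 * (ℓ / R)) * X := by rw [hX]; ring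
    rw [h1]
    refine mul_le_mul_of_nonneg_left (l1.trans ?_) (by positivity)
    have : (v - q) * (1 + ℓ) ≤ δ * (1 + ℓ) :=
      mul_le_mul_of_nonneg_right (by linarith) (by linarith)
    linarith
  have hs2 : s ^ 2 ≤ S ^ 2 := by
    rw [← sq_abs]; exact pow_le_pow_left₀ (abs_nonneg s) hs 2
  have hsv : s ^ 2 / 2 * X' * v ≤ s ^ 2 / 2 * X' * q + S ^ 2 / 2 * X * δ := by
    have h1 : s ^ 2 / 2 * X' * (v - q) ≤ S ^ 2 / 2 * X * δ := by
      refine mul_le_mul (mul_le_mul (by linarith) i1 hX'0 (by positivity)) (by linarith)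
        (by linarith) (by positivity)
    linarith
  -- numerical bounds
  have n1 : 10 * (ℓ / R) ≤ 1 / 100 := by
    rw [← mul_div_assoc, div_le_iff₀ hR0]; linarith
  have n1' : 0 ≤ 10 * (ℓ / R) := by positivity
  have n2 : 8 * (ℓ / R) ≤ 8 / 1000 := by
    rw [← mul_div_assoc, div_le_iff₀ hR0]; linarith
  have n2' : 0 ≤ 8 * (ℓ / R) := by positivity
  have n3 : 18 * (ℓ / R) * ℓ ≤ 18 / 1000 := by
    rw [← mul_div_assoc, div_mul_eq_mul_div, div_le_iff₀ hR0]; nlinarith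
  have n4 : (1 + 10 * (ℓ / R)) * (1 + ℓ) + S ^ 2 / 2 + 1 ≤ R := by
    nlinarith
  have n5 : S ^ 4 / 2 * X ≤ 1 / 1000 := by
    rw [hX, mul_one_div, div_le_iff₀ (by positivity)]
    have : (1000 * S ^ 2) ^ 2 ≤ R ^ 2 := pow_le_pow_left₀ (by positivity) hSR 2
    nlinarith
  have n6 : R * δ ≤ 1 / 100000 * V := by
    have : R * δ = V * X := by rw [hδ, hX]; field_simp
    rw [this]
    have : X ≤ 1 / 100000 := by
      rw [hX]; apply one_div_le_one_div_of_le (by norm_num); nlinarith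
    nlinarith
  -- the coefficient of `q Lq`
  have m1 : X * (18 * (ℓ / R)) * (q * Lq) ≤ X * (18 / 1000 * v) := by
    have h1 : q * Lq ≤ v * ℓ := mul_le_mul hqv hLqℓ hLq0 hv
    calc X * (18 * (ℓ / R)) * (q * Lq) ≤ X * (18 * (ℓ / R)) * (v * ℓ) :=
          mul_le_mul_of_nonneg_left h1 (by positivity)
      _ = X * ((18 * (ℓ / R) * ℓ) * v) := by ring
      _ ≤ _ := by gcongr
  have m2 : X * (8 * (ℓ / R)) * (573 / 1000 * q) ≤ X * (8 / 1000 * v) := by
    calc X * (8 * (ℓ / R)) * (573 / 1000 * q) ≤ X * (8 / 1000) * (1 * v) := by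
          gcongr
          · norm_num
      _ = _ := by ring
  have m3 : X * ((1 + 10 * (ℓ / R)) * (1 + ℓ) + S ^ 2 / 2 + 1) * δ ≤
      X * (1 / 100000 * V) := by
    calc X * ((1 + 10 * (ℓ / R)) * (1 + ℓ) + S ^ 2 / 2 + 1) * δ ≤ X * R * δ := by gcongr
      _ = X * (R * δ) := by ring
      _ ≤ _ := by gcongr
  have m4 : S ^ 4 / 2 * X ^ 2 * v ≤ X * (1 / 1000 * v) := by
    calc S ^ 4 / 2 * X ^ 2 * v = X * ((S ^ 4 / 2 * X) * v) := by ring
      _ ≤ _ := by gcongr
  have m5 : X * (573 / 1000 * v) ≤ X * (573 / 1000 * q) + X * 1 * δ := by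
    have : 573 / 1000 * v ≤ 573 / 1000 * q + 1 * δ := by linarith
    nlinarith
  have m6 : 0 ≤ X * V := by positivity
  clear hT hT2 l1 l2 c1 c2 n3 n4 n5 n6
  linarith

/-- Pointwise estimate outside `J`. -/
theorem CoreR.ptO {R ℓ S : ℝ} (C : CoreR R ℓ S) {V v q κ s : ℝ}
    (hq : 0 ≤ q) (hqv : q ≤ v) (hL : coreL V v ≤ ℓ) (hs : |s| ≤ S) (hκ : κ ≤ S) :
    v * (1 - 1 / (1 + R)) - 1 / R ^ 2 * (R * v) ≤
      Real.sqrt (1 - (s / (R + 4 * Real.log R)) ^ 2) *
        (v * (1 - 1 / (1 + R - (1 + 4 / R) * coreL V v))) -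
          1 / (R + 4 * Real.log R) * (κ / (R + 4 * Real.log R)) * q := by
  have hR := C.hR
  have hR0 : 0 < R := by linarith
  have hS := C.hS
  have hSR := C.hSR
  have hℓ1 := C.hℓ1
  have hℓ := C.hℓ
  have hℓR : 1000 * ℓ ≤ R := by nlinarith
  have hv : 0 ≤ v := hq.trans hqv
  have hb := C.base hv (coreL_nonneg V v) hL hs
  obtain ⟨i1, i2⟩ := C.inv
  set X' := 1 / (R + 4 * Real.log R) ^ 2 with hX'
  have hX'0 : 0 ≤ X' := by positivity
  have hg : 1 / (R + 4 * Real.log R) * (κ / (R + 4 * Real.log R)) * q = κ * q * X' := by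
    rw [hX', sq, ← one_div_mul_one_div, div_eq_mul_one_div κ]; ring
  rw [hg]
  set X := 1 / R ^ 2 with hX
  have hX0 : 0 < X := by positivity
  have hs2 : s ^ 2 ≤ S ^ 2 := by
    rw [← sq_abs]; exact pow_le_pow_left₀ (abs_nonneg s) hs 2
  have n1 : 10 * (ℓ / R) ≤ 1 / 100 := by
    rw [← mul_div_assoc, div_le_iff₀ hR0]; linarith
  have n1' : 0 ≤ 10 * (ℓ / R) := by positivity
  have n5 : S ^ 4 / 2 * X ≤ 1 / 1000 := by
    rw [hX, mul_one_div, div_le_iff₀ (by positivity)]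
    have : (1000 * S ^ 2) ^ 2 ≤ R ^ 2 := pow_le_pow_left₀ (by positivity) hSR 2
    nlinarith
  have m1 : (1 + 10 * (ℓ / R)) / R ^ 2 * (v * coreL V v) ≤ X * (2 * ℓ * v) := by
    have h1 : (1 + 10 * (ℓ / R)) / R ^ 2 = X * (1 + 10 * (ℓ / R)) := by rw [hX]; ring
    rw [h1, mul_assoc]
    refine mul_le_mul_of_nonneg_left ?_ hX0.le
    calc (1 + 10 * (ℓ / R)) * (v * coreL V v) ≤ 2 * (v * ℓ) := by
          refine mul_le_mul (by linarith) (mul_le_mul_of_nonneg_left hL hv)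
            (mul_nonneg hv (coreL_nonneg V v)) (by norm_num)
      _ = _ := by ring
  have m2 : s ^ 2 / 2 * X' * v ≤ X * (S ^ 2 * v) := by
    calc s ^ 2 / 2 * X' * v ≤ S ^ 2 * X * v := by
          refine mul_le_mul_of_nonneg_right ?_ hv
          refine mul_le_mul (by nlinarith) i1 hX'0 (by positivity)
      _ = _ := by ring
  have m3 : κ * q * X' ≤ X * (S * v) := by
    calc κ * q * X' ≤ S * v * X := by
          refine mul_le_mul ?_ i1 hX'0 (by positivity)
          calc κ * q ≤ S * q := mul_le_mul_of_nonneg_right hκ hq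
            _ ≤ S * v := mul_le_mul_of_nonneg_left hqv (by linarith)
      _ = _ := by ring
  have m4 : S ^ 4 / 2 * X ^ 2 * v ≤ X * (1 / 1000 * v) := by
    calc S ^ 4 / 2 * X ^ 2 * v = X * ((S ^ 4 / 2 * X) * v) := by ring
      _ ≤ _ := by gcongr
  have m5 : X * ((2 * ℓ + S ^ 2 + S + 1 / 1000) * v) ≤ X * (R * v) := by
    refine mul_le_mul_of_nonneg_left (mul_le_mul_of_nonneg_right ?_ hv) hX0.le
    nlinarith
  linarith

theorem core_intble {g : ℝ → ℝ} {G : ℝ} (hm : Measurable g) (hb : ∀ θ, |g θ| ≤ G) {A : Set ℝ}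
    (hA : volume A ≠ ∞) : IntegrableOn g A := by
  have : IsFiniteMeasure (volume.restrict A) := ⟨by simpa using hA.lt_top⟩
  exact Integrable.of_bound (C := G) hm.aestronglyMeasurable
    (Filter.Eventually.of_forall (fun θ => by simpa using hb θ))

theorem core_ext {b K S : ℝ} (hb : 0 < b) (hbπ : b < Real.pi) (hK : 0 ≤ K) (hKS : K ≤ S)
    {s g₀ : ℝ → ℝ} {G₀ : ℝ} (hgm : Measurable g₀) (hg₀ : ∀ θ, |g₀ θ| ≤ G₀)
    (h1 : s (-b) = K) (h2 : s b = -K)
    (h3 : ∀ θ ∈ Icc (-b) b, s θ = s (-b) + ∫ τ in Ioc (-b) θ, g₀ τ)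
    (h4 : ∀ θ ∈ Icc (-b) b, |s θ| ≤ S) :
    ∃ (g : ℝ → ℝ) (G : ℝ), Measurable g ∧ (∀ θ, |g θ| ≤ G) ∧
      (∀ θ ∈ Ioc (-b) b, g θ = g₀ θ) ∧ (∀ θ, θ ∉ Ioc (-b) b → g θ = K / (Real.pi - b)) ∧
      (∫ θ in Ioo (-Real.pi) Real.pi, g θ = 0) ∧
      (∀ θ ∈ Icc (-b) b, ∫ τ in Ioc (-Real.pi) θ, g τ = s θ) ∧
      ∀ θ ∈ Icc (-Real.pi) Real.pi, |∫ τ in Ioc (-Real.pi) θ, g τ| ≤ S := by
  classical
  set κ := K / (Real.pi - b) with hκ
  have hpb : 0 < Real.pi - b := by linarith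
  have hκ0 : 0 ≤ κ := by positivity
  have hκK : κ * (Real.pi - b) = K := by rw [hκ]; field_simp
  set g : ℝ → ℝ := (Ioc (-b) b).piecewise g₀ (fun _ => κ) with hg
  have hg1 : ∀ θ ∈ Ioc (-b) b, g θ = g₀ θ := fun θ hθ => piecewise_eq_of_mem _ _ _ hθ
  have hg2 : ∀ θ, θ ∉ Ioc (-b) b → g θ = κ := fun θ hθ => piecewise_eq_of_notMem _ _ _ hθ
  have hm : Measurable g := hgm.piecewise measurableSet_Ioc measurable_const
  have hbd : ∀ θ, |g θ| ≤ max G₀ κ := by
    intro θ
    by_cases hθ : θ ∈ Ioc (-b) b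
    · rw [hg1 θ hθ]; exact (hg₀ θ).trans (le_max_left _ _)
    · rw [hg2 θ hθ, abs_of_nonneg hκ0]; exact le_max_right _ _
  have hii : ∀ x y : ℝ, IntervalIntegrable g volume x y := fun x y =>
    ⟨core_intble hm hbd (by simp), core_intble hm hbd (by simp)⟩
  have hP1 : ∀ θ ∈ Icc (-Real.pi) (-b), ∫ τ in (-Real.pi)..θ, g τ = κ * (θ + Real.pi) := by
    intro θ hθ
    rw [intervalIntegral.integral_of_le hθ.1, setIntegral_congr_fun (g := fun _ => κ)
      measurableSet_Ioc (fun τ hτ => hg2 τ (fun h => absurd h.1 (not_lt.2 (hτ.2.trans hθ.2)))),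
      ← intervalIntegral.integral_of_le hθ.1, intervalIntegral.integral_const]
    simp; ring
  have hP2 : ∀ θ ∈ Icc (-b) b, ∫ τ in (-Real.pi)..θ, g τ = s θ := by
    intro θ hθ
    rw [← intervalIntegral.integral_add_adjacent_intervals (hii _ (-b)) (hii _ θ),
      hP1 (-b) ⟨by linarith, le_rfl⟩, h3 θ hθ, h1, intervalIntegral.integral_of_le hθ.1,
      setIntegral_congr_fun (g := g₀) measurableSet_Ioc
        (fun τ hτ => hg1 τ ⟨hτ.1, hτ.2.trans hθ.2⟩)]
    congr 1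
    rw [← hκK]; ring
  have hP3 : ∀ θ ∈ Icc b Real.pi, ∫ τ in (-Real.pi)..θ, g τ = -K + κ * (θ - b) := by
    intro θ hθ
    rw [← intervalIntegral.integral_add_adjacent_intervals (hii _ b) (hii _ θ),
      hP2 b ⟨by linarith, le_rfl⟩, h2, intervalIntegral.integral_of_le hθ.1,
      setIntegral_congr_fun (g := fun _ => κ) measurableSet_Ioc
        (fun τ hτ => hg2 τ (fun h => absurd h.2 (not_le.2 hτ.1))),
      ← intervalIntegral.integral_of_le hθ.1, intervalIntegral.integral_const]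
    simp; ring
  refine ⟨g, max G₀ κ, hm, hbd, hg1, hg2, ?_, ?_, ?_⟩
  · rw [← integral_Ioc_eq_integral_Ioo, ← intervalIntegral.integral_of_le (by linarith),
      hP3 Real.pi ⟨hbπ.le, le_rfl⟩, hκK]
    ring
  · intro θ hθ
    rw [← intervalIntegral.integral_of_le (by linarith [hθ.1]), hP2 θ hθ]
  · intro θ hθ
    rw [← intervalIntegral.integral_of_le hθ.1]
    rcases le_total θ (-b) with h | h
    · rw [hP1 θ ⟨hθ.1, h⟩, abs_of_nonneg (mul_nonneg hκ0 (by linarith [hθ.1]))]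
      refine le_trans ?_ hKS
      rw [← hκK]
      exact mul_le_mul_of_nonneg_left (by linarith) hκ0
    · rcases le_total θ b with h' | h'
      · rw [hP2 θ ⟨h, h'⟩]
        exact h4 θ ⟨h, h'⟩
      · rw [hP3 θ ⟨h', hθ.2⟩]
        have h5 : κ * (θ - b) ≤ K := by
          rw [← hκK]
          exact mul_le_mul_of_nonneg_left (by linarith [hθ.2]) hκ0
        have h6 : 0 ≤ κ * (θ - b) := mul_nonneg hκ0 (by linarith)
        rw [abs_le]
        constructor <;> linarith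

theorem core_eventually (S : ℝ) (hS : 1 ≤ S) :
    ∃ R₀ : ℝ, 1 ≤ R₀ ∧ ∀ R ≥ R₀, CoreR R (Real.log (16 * Real.pi * R)) S := by
  have hpi := Real.pi_pos
  have h1 : ∀ᶠ x : ℝ in atTop, ‖Real.log x ^ 2‖ ≤ 1 / (1000 * (16 * Real.pi)) * ‖id x‖ :=
    (Real.isLittleO_pow_log_id_atTop (n := 2)).def (by positivity)
  have h2 : Tendsto (fun R : ℝ => 16 * Real.pi * R) atTop atTop :=
    tendsto_id.const_mul_atTop (by positivity)
  have h3 := h2.eventually h1
  obtain ⟨R₁, hR₁⟩ := eventually_atTop.1 h3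
  refine ⟨max (max R₁ 10000) (1000 * S ^ 2), ?_, ?_⟩
  · exact le_trans (by norm_num) ((le_max_right R₁ 10000).trans (le_max_left _ _))
  · intro R hR
    have hR1 : R₁ ≤ R := (le_max_left R₁ 10000).trans ((le_max_left _ _).trans hR)
    have hR2 : 10000 ≤ R := (le_max_right R₁ 10000).trans ((le_max_left _ _).trans hR)
    have hR3 : 1000 * S ^ 2 ≤ R := (le_max_right _ _).trans hR
    have hR0 : 0 < R := by linarith
    have h4 := hR₁ R hR1
    rw [Real.norm_eq_abs, abs_of_nonneg (sq_nonneg _), id, Real.norm_eq_abs,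
      abs_of_pos (by positivity)] at h4
    refine ⟨hR2, ?_, ?_, ?_, hS, hR3⟩
    · rw [Real.le_log_iff_exp_le (by positivity)]
      have := Real.exp_one_lt_d9
      have := Real.pi_gt_d2
      nlinarith
    · have h5 : 1 / (1000 * (16 * Real.pi)) * (16 * Real.pi * R) = R / 1000 := by field_simp
      rw [h5] at h4
      linarith
    · refine Real.log_le_log hR0 ?_
      have := Real.pi_gt_d2
      nlinarith

theorem core_finite {R V w b : ℝ} (hR : 10000 ≤ R) (hV : 0 < V) (hw : 0 ≤ w)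
    (hw' : w ≤ 8 * (V / R ^ 3)) (hb : b = 158 / 100) :
    V * (1 - 1 / (1 + R) + 3 / (10 * R ^ 2)) ≤
      ((1 - 1 / (1 + R) + 546 / 1000 * (1 / R ^ 2)) * (V - w) -
        587 / 10000 * V * (1 / R ^ 2) * (2 * b)) + (1 - 1 / (1 + R) - 1 / R ^ 2 * R) * w := by
  have hR0 : 0 < R := by linarith
  set X := 1 / R ^ 2 with hX
  have hX0 : 0 < X := by positivity
  have h1 : 3 / (10 * R ^ 2) = 3 / 10 * X := by rw [hX]; field_simp
  have h2 : R * w ≤ 1 / 1000 * V := by
    have e1 : R * (8 * (V / R ^ 3)) = 8 * X * V := by rw [hX]; field_simp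
    have e2 : X ≤ 1 / 10000 := by
      rw [hX]; apply one_div_le_one_div_of_le (by norm_num); nlinarith
    nlinarith [mul_le_mul_of_nonneg_left hw' hR0.le]
  have h3 : w ≤ 1 / 1000 * V := by nlinarith
  rw [h1, hb]
  have h4 : 0 ≤ X * (546 / 1000 * (V - w) - 587 / 10000 * V * (2 * (158 / 100)) - R * w -
      3 / 10 * V) := by
    refine mul_nonneg hX0.le ?_
    linarith
  nlinarith

theorem core (h : Stmt_Transport) : Stmt_Core := by
  have hpi := Real.pi_pos
  have hpi2 := Real.pi_gt_d2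
  have hpi3 := Real.pi_lt_d2
  have hbb : bb = 158 / 100 := rfl
  have haa : aa = 99 / 100 := rfl
  have htan : 0 < Real.tan (aa * bb) := by
    apply Real.tan_pos_of_pos_of_lt_pi_div_two
    · norm_num [aa, bb]
    · rw [haa, hbb]
      have := Real.pi_gt_d4
      linarith
  set K := 2 * aa * Real.tan (aa * bb) with hK
  have hK0 : 0 ≤ K := by rw [hK, haa]; positivity
  set S := K + 2 * bb with hS
  have hS1 : 1 ≤ S := by rw [hS, hbb]; linarith
  obtain ⟨R₀, hR₀, hC⟩ := core_eventually S hS1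
  refine ⟨R₀, hR₀, ?_⟩
  intro R hR V P v q hV hvm hqm hq0 hqv hvq hv8 hvV hqJ H
  have C := hC R hR
  set ℓ := Real.log (16 * Real.pi * R) with hℓ
  have hR4 := C.hR
  have hR0 : 0 < R := by linarith
  have hv0 : ∀ θ, 0 ≤ v θ := fun θ => (hq0 θ).trans (hqv θ)
  set δ := V / R ^ 3 with hδ
  have hδ0 : 0 < δ := by positivity
  have hδV : δ ≤ V / 1000 := by
    rw [hδ]
    refine div_le_div_of_nonneg_left hV.le (by norm_num) ?_
    nlinarith [mul_pos hR0 hR0]
  set R' := R + 4 * Real.log R with hR'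
  have hR'R : R ≤ R' := by have := C.logR; linarith
  have hR'0 : 0 < R' := by linarith
  set I := Ioo (-Real.pi) Real.pi with hI
  set J := Icc (-bb) bb with hJ
  have hJI : J ⊆ I := by
    intro θ hθ
    rw [hJ, hbb] at hθ
    exact ⟨by linarith [hθ.1], by linarith [hθ.2]⟩
  have hIm : MeasurableSet I := measurableSet_Ioo
  have hJm : MeasurableSet J := measurableSet_Icc
  have hIfin : volume I ≠ ∞ := by rw [hI]; simp
  have hJfin : volume J ≠ ∞ := by rw [hJ]; simp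
  have hIJfin : volume (I \ J) ≠ ∞ := measure_ne_top_of_subset sdiff_subset hIfin
  -- the logarithm
  have hLℓ : ∀ θ, coreL V (v θ) ≤ ℓ := by
    intro θ
    refine (coreL_mono hV (hv0 θ) (hv8 θ)).trans ?_
    rw [coreL]
    have e1 : 2 * Real.pi * (8 * R * V) / V = 16 * Real.pi * R := by field_simp; norm_num
    rw [e1]
    exact max_le (by have := C.hℓ1; linarith) le_rfl
  have hvb : ∀ θ, |v θ| ≤ 8 * R * V := fun θ => by rw [abs_of_nonneg (hv0 θ)]; exact hv8 θ
  have hqb : ∀ θ, |q θ| ≤ 8 * R * V := fun θ => by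
    rw [abs_of_nonneg (hq0 θ)]; exact (hqv θ).trans (hv8 θ)
  have split : ∀ f : ℝ → ℝ, IntegrableOn f I →
      ∫ θ in I, f θ = (∫ θ in J, f θ) + ∫ θ in I \ J, f θ := by
    intro f hf
    rw [← integral_inter_add_sdiff hJm hf, inter_eq_self_of_subset_right hJI]
  -- the mass outside `J`
  set w := ∫ θ in I \ J, v θ with hw
  have hw0 : 0 ≤ w := setIntegral_nonneg (hIm.diff hJm) (fun θ _ => hv0 θ)
  have hvolI : (volume (I \ J)).toReal ≤ 2 * Real.pi := by
    have h1 : volume (I \ J) ≤ ENNReal.ofReal (2 * Real.pi) := by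
      refine (measure_mono sdiff_subset).trans ?_
      rw [hI, Real.volume_Ioo]
      exact ENNReal.ofReal_le_ofReal (by linarith)
    exact ENNReal.toReal_le_of_le_ofReal (by positivity) h1
  have hwδ : w ≤ 8 * δ := by
    have h1 : w ≤ ∫ θ in I \ J, (q θ + δ) :=
      setIntegral_mono (core_intble hvm hvb hIJfin)
        ((core_intble hqm hqb hIJfin).add (integrableOn_const hIJfin)) hvq
    rw [integral_add (core_intble hqm hqb hIJfin) (integrableOn_const hIJfin),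
      setIntegral_const, smul_eq_mul, Measure.real] at h1
    have h2 : (volume (I \ J)).toReal * δ ≤ 2 * Real.pi * δ :=
      mul_le_mul_of_nonneg_right hvolI hδ0.le
    nlinarith
  have hvJ : ∫ θ in J, v θ = V - w := by
    have := split v (core_intble hvm hvb hIfin)
    linarith
  have hvolJ : (volume J).toReal = 2 * bb := by
    rw [hJ, Real.volume_Icc, ENNReal.toReal_ofReal (by rw [hbb]; norm_num)]; ring
  set VJ := ∫ θ in J, q θ with hVJ
  have hVJ1 : VJ ≤ V := by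
    have h1 : VJ ≤ ∫ θ in J, v θ :=
      setIntegral_mono (core_intble hqm hqb hJfin) (core_intble hvm hvb hJfin) hqv
    linarith
  have hVJ0 : 0 < VJ := by
    have h1 : ∫ θ in J, v θ ≤ ∫ θ in J, (q θ + δ) :=
      setIntegral_mono (core_intble hvm hvb hJfin)
        ((core_intble hqm hqb hJfin).add (integrableOn_const hJfin)) hvq
    rw [integral_add (core_intble hqm hqb hJfin) (integrableOn_const hJfin),
      setIntegral_const, smul_eq_mul, Measure.real, hvolJ, hbb] at h1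
    linarith
  obtain ⟨s, g₀, G₀, hg₀m, hg₀, hs1, hs2, hs3, hs4, hs5⟩ := h q (8 * R * V) hqm hq0
    (fun θ => (hqv θ).trans (hv8 θ)) hVJ0
  obtain ⟨g, G, hgm, hgG, hgJ, hgO, hgI, hgs, hgS⟩ := core_ext (b := bb) (K := K) (S := S)
    (by rw [hbb]; norm_num) (by rw [hbb]; linarith) hK0 (by rw [hS, hbb]; linarith) hg₀m hg₀
    hs1 hs2 hs3 hs4
  have hG0 : 0 ≤ G := (abs_nonneg _).trans (hgG 0)
  set κ := K / (Real.pi - bb) with hκ
  have hκS : κ ≤ S := by
    have h1 : κ ≤ K := div_le_self hK0 (by rw [hbb]; linarith)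
    rw [hS, hbb]; linarith
  set Sg : ℝ → ℝ := fun θ => ∫ τ in Ioc (-Real.pi) θ, g τ with hSg
  have hii : ∀ x y : ℝ, IntervalIntegrable g volume x y := fun x y =>
    ⟨core_intble hgm hgG (by simp), core_intble hgm hgG (by simp)⟩
  have hSgc : Continuous Sg := by
    have h1 : Sg = fun θ => ∫ τ in (-Real.pi)..(max θ (-Real.pi)), g τ := by
      funext θ
      rw [hSg]
      rcases le_total (-Real.pi) θ with h2 | h2
      · rw [max_eq_left h2, intervalIntegral.integral_of_le h2]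
      · rw [max_eq_right h2, intervalIntegral.integral_same]
        simp [Ioc_eq_empty (not_lt.2 h2)]
    rw [h1]
    exact (intervalIntegral.continuous_primitive hii _).comp (continuous_id.max continuous_const)
  -- application of the hypothesis
  have H1 := H (fun θ => g θ / R') (fun θ => Sg θ / R') (G / R') 0 (hgm.div_const _)
    (fun θ => by
      rw [abs_div, abs_of_pos hR'0]
      exact div_le_div_of_nonneg_right (hgG θ) hR'0.le)
    (by rw [integral_div, hgI, zero_div])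
    (fun θ => by rw [integral_div, zero_add])
    (fun θ hθ => by
      rw [abs_div, abs_of_pos hR'0, div_le_iff₀ hR'0]
      have h1 := hgS θ hθ
      have h2 := C.hSR
      have h3 : S ≤ 1 / 2 * R' := by nlinarith
      exact h1.trans h3)
  refine le_trans ?_ H1
  -- the integrand
  set F : ℝ → ℝ := fun θ => Real.sqrt (1 - (Sg θ / R') ^ 2) *
      (v θ * (1 - 1 / (1 + R - (1 + 4 / R) * coreL V (v θ)))) -
        1 / R' * (g θ / R') * q θ with hF
  have hF1 : Measurable (fun θ => Real.sqrt (1 - (Sg θ / R') ^ 2) *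
      (v θ * (1 - 1 / (1 + R - (1 + 4 / R) * coreL V (v θ))))) := by
    have h1 : Measurable (fun θ => coreL V (v θ)) := by
      unfold coreL
      exact measurable_const.max (Real.measurable_log.comp ((hvm.const_mul _).div_const _))
    have h2 : Measurable Sg := hSgc.measurable
    fun_prop
  have hF1b : ∀ θ, |Real.sqrt (1 - (Sg θ / R') ^ 2) *
      (v θ * (1 - 1 / (1 + R - (1 + 4 / R) * coreL V (v θ))))| ≤ 8 * R * V := by
    intro θ
    obtain ⟨f0, f1, _⟩ := C.frac (coreL_nonneg V (v θ)) (hLℓ θ)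
    have h1 : Real.sqrt (1 - (Sg θ / R') ^ 2) ≤ 1 := by
      rw [Real.sqrt_le_one]
      have := sq_nonneg (Sg θ / R')
      linarith
    rw [abs_of_nonneg (mul_nonneg (Real.sqrt_nonneg _) (mul_nonneg (hv0 θ) f0))]
    calc _ ≤ 1 * (v θ * 1) := mul_le_mul h1 (mul_le_mul_of_nonneg_left f1 (hv0 θ))
          (mul_nonneg (hv0 θ) f0) zero_le_one
      _ ≤ _ := by linarith [hv8 θ]
  have hF2 : Measurable (fun θ => 1 / R' * (g θ / R') * q θ) := by fun_prop
  have hF2b : ∀ θ, |1 / R' * (g θ / R') * q θ| ≤ 1 / R' * (G / R') * (8 * R * V) := by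
    intro θ
    rw [abs_mul, abs_mul, abs_of_pos (by positivity : 0 < 1 / R'), abs_div, abs_of_pos hR'0]
    gcongr
    · exact hgG θ
    · exact hqb θ
  have hFint : ∀ A : Set ℝ, volume A ≠ ∞ → IntegrableOn F A := fun A hA =>
    (core_intble hF1 hF1b hA).sub (core_intble hF2 hF2b hA)
  have hFsplit := split F (hFint I hIfin)
  have hFJ : (1 - 1 / (1 + R) + 546 / 1000 * (1 / R ^ 2)) * (V - w) -
      587 / 10000 * V * (1 / R ^ 2) * (2 * bb) ≤ ∫ θ in J, F θ := by
    have h1 : ∫ θ in J, ((1 - 1 / (1 + R) + 546 / 1000 * (1 / R ^ 2)) * v θ -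
        587 / 10000 * V * (1 / R ^ 2)) = (1 - 1 / (1 + R) + 546 / 1000 * (1 / R ^ 2)) * (V - w) -
      587 / 10000 * V * (1 / R ^ 2) * (2 * bb) := by
      rw [integral_sub ((core_intble hvm hvb hJfin).const_mul _) (integrableOn_const hJfin),
        integral_const_mul, hvJ, setIntegral_const, smul_eq_mul, Measure.real, hvolJ]
      ring
    rw [← h1]
    refine setIntegral_mono_ae_restrict
      (((core_intble hvm hvb hJfin).const_mul _).sub (integrableOn_const hJfin))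
      (hFint J hJfin) ?_
    have h2 : ∀ᵐ θ ∂(volume.restrict J), θ ≠ -bb := by
      refine ae_restrict_of_ae ?_
      simp [ae_iff]
    filter_upwards [hs5, ae_restrict_mem hJm, h2] with θ h3 h4 h5
    have h6 : θ ∈ Ioc (-bb) bb := ⟨lt_of_le_of_ne h4.1 (Ne.symm h5), h4.2⟩
    have h7 : Sg θ = s θ := hgs θ h4
    have h8 := C.ptJ hV hVJ0 hVJ1 (hq0 θ) (hqv θ) (hvq θ) (hLℓ θ) (hs4 θ h4) h3
    rw [hF]
    simp only [h7, hgJ θ h6]
    linarith
  have hFO : (1 - 1 / (1 + R) - 1 / R ^ 2 * R) * w ≤ ∫ θ in I \ J, F θ := by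
    rw [hw, ← integral_const_mul]
    refine setIntegral_mono_on ((core_intble hvm hvb hIJfin).const_mul _) (hFint _ hIJfin)
      (hIm.diff hJm) ?_
    intro θ hθ
    have h1 : θ ∉ Ioc (-bb) bb := fun h2 => hθ.2 ⟨h2.1.le, h2.2⟩
    have h3 : |Sg θ| ≤ S := hgS θ ⟨hθ.1.1.le, hθ.1.2.le⟩
    have h4 := C.ptO (hq0 θ) (hqv θ) (hLℓ θ) h3 hκS
    rw [hF]
    simp only [hgO θ h1]
    linarith
  have hfin := core_finite hR4 hV hw0 hwδ hbb
  calc _ ≤ _ := hfin
    _ ≤ (∫ θ in J, F θ) + ∫ θ in I \ J, F θ := add_le_add hFJ hFO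
    _ = ∫ θ in I, F θ := hFsplit.symm
    _ = _ := rfl

end Pool.Agent.Lib.MP_c95dcf_gt
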