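import Pool.Agent.Lib.MP_c95dcf_gt.Mg.G007

/-!
# MP_c95dcf_gt, part B, task B16: crude lower bounds for the weighted perimeter
-/

set_option autoImplicit false

open MeasureTheory Set Filter Topology
open scoped ENNReal NNReal

namespace Pool.Agent.Lib.MP_c95dcf_gt

open CrudeAux

theorem CrudeAux.exp_ten : (11 : ℝ) * Real.exp (-10) < 1 / 1000 := by
  have h1 : (2.7 : ℝ) < Real.exp 1 := by
    have := Real.exp_one_gt_d9
    norm_num at this ⊢
    linarith
  have h2 : (2.7 : ℝ) ^ 10 < Real.exp 10 := by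
    have : Real.exp 10 = Real.exp 1 ^ 10 := by
      rw [← Real.exp_nat_mul]; norm_num
    rw [this]
    exact pow_lt_pow_left₀ h1 (by norm_num) (by norm_num)
  have h3 : (11000 : ℝ) < Real.exp 10 := lt_trans (by norm_num) h2
  rw [Real.exp_neg, ← div_eq_mul_inv, div_lt_iff₀ (Real.exp_pos _)]
  linarith

theorem crudeMid (h1 : Stmt_Prof) (h2 : Stmt_ProfLim) (h3 : Stmt_Iso1c) (h4 : Stmt_Polar)
    (h5 : Stmt_Slices) (h6 : Stmt_S3) (h7 : Stmt_Osc) : Stmt_CrudeMid := by
  obtain ⟨c, m₁, hc, hm₁, hiso⟩ := h3 (1 / 10) (by norm_num)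
  have hl0 := h2.2 0 le_rfl
  have hl10 := h2.2 10 (by norm_num)
  have e1 : ∀ᶠ m : ℕ in atTop, (9 : ℝ) / 10 < vp m 0 :=
    hl0.eventually_const_lt (by simp; norm_num)
  have e2 : ∀ᶠ m : ℕ in atTop, vp m 10 < 1 / 1000 :=
    hl10.eventually_lt_const (by
      have := CrudeAux.exp_ten
      have h : (1 + (10 : ℝ)) = 11 := by norm_num
      rw [h]; exact this)
  obtain ⟨m₂, hm₂⟩ := (e1.and e2).exists_forall_of_atTop
  have hpi := Real.pi_pos
  refine ⟨min (1 / 1000) (2 * Real.pi * c), max m₁ m₂, by positivity,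
    hm₁.trans (le_max_left _ _), ?_⟩
  intro m hm A hA hlow hhigh
  have hmm₁ : m₁ ≤ m := (le_max_left _ _).trans hm
  have hmm₂ : m₂ ≤ m := (le_max_right _ _).trans hm
  have hm2 : 2 ≤ m := hm₁.trans hmm₁
  obtain ⟨hv0, hv10⟩ := hm₂ m hmm₂
  by_contra hcon
  push Not at hcon
  have hP : P0 m A ≤ ENNReal.ofReal (1 / 1000) :=
    hcon.le.trans (ENNReal.ofReal_le_ofReal (min_le_left _ _))
  have hosc := osc_bounds h4 h5 h7 hm2 hA (R' := 10) (P := 1 / 1000) (by norm_num)
    (by norm_num) hP
  rw [V0_univ h4 hm2] at hlow hhigh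
  have ha1 : vp m 0 / 4 ≤ V0 m A / (2 * Real.pi) := by
    rw [le_div_iff₀ (by positivity)]
    linarith
  have ha2 : V0 m A / (2 * Real.pi) ≤ 3 / 4 * vp m 0 := by
    rw [div_le_iff₀ (by positivity)]
    linarith
  obtain ⟨hmeas, _, _⟩ := h5 m 1 A hm2 one_pos hA
  have hS : MeasurableSet {θ : ℝ | 1 / 10 ≤ vth m A θ ∧ vth m A θ ≤ 4 / 5 * vp m 0} :=
    (measurableSet_le measurable_const hmeas).inter (measurableSet_le hmeas measurable_const)
  have key := s3_good h6 hm2 hA (p := fun _ => c) (P := c) measurable_const (fun _ => hc.le)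
    (fun _ => le_rfl) hS (by
      filter_upwards [hosc] with θ h
      constructor <;> linarith [h.1, h.2])
    (by
      intro θ hθ
      exact hiso m hmm₁ (Sl m A θ) (measurableSet_Sl hA θ) (by rw [vth_eq]; exact hθ.1)
        (by rw [vth_eq]; exact hθ.2))
  rw [setIntegral_const, real_vol, smul_eq_mul] at key
  have := key.trans_lt hcon
  have h8 := (ENNReal.ofReal_lt_ofReal_iff_of_nonneg (by positivity)).1 this
  exact absurd h8 (not_lt.2 (min_le_right _ _))

/-- The choice of the large radius. -/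
theorem CrudeAux.large {c vmax : ℝ} (hc : 0 < c) (hv : 0 < vmax) : ∃ R₀ : ℝ, 20 ≤ R₀ ∧
    ∀ R ≥ R₀, 4 * Real.log R + 1 ≤ R ∧ (1 + R) * Real.exp (-R) < c ∧
      R ^ 4 * 2 ≤ Real.exp (R / 2) ∧ (1 + R / 2) * Real.exp (-(R / 2)) ≤ vmax := by
  have t1 : Tendsto (fun x : ℝ => (1 + x) * Real.exp (-x)) atTop (𝓝 0) := by
    have a := Real.tendsto_pow_mul_exp_neg_atTop_nhds_zero 0
    have b := Real.tendsto_pow_mul_exp_neg_atTop_nhds_zero 1
    have := a.add b
    simp only [add_zero] at this
    refine this.congr fun x => ?_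
    ring
  have thalf : Tendsto (fun x : ℝ => x / 2) atTop atTop :=
    tendsto_id.atTop_div_const (by norm_num)
  have t2 := t1.comp thalf
  have t3 := (Real.tendsto_pow_mul_exp_neg_atTop_nhds_zero 4).comp thalf
  have e1 := Real.isLittleO_log_id_atTop.def (show (0 : ℝ) < 1 / 5 by norm_num)
  have e2 := t1.eventually_lt_const hc
  have e3 := t2.eventually_lt_const hv
  have e4 := t3.eventually_lt_const (show (0 : ℝ) < 1 / 32 by norm_num)
  obtain ⟨R₁, hR₁⟩ := (((e1.and e2).and e3).and e4).exists_forall_of_atTop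
  refine ⟨max 20 R₁, le_max_left _ _, fun R hR => ?_⟩
  have h20 : 20 ≤ R := (le_max_left _ _).trans hR
  obtain ⟨⟨⟨a1, a2⟩, a3⟩, a4⟩ := hR₁ R ((le_max_right _ _).trans hR)
  refine ⟨?_, a2, ?_, ?_⟩
  · have hlog : 0 ≤ Real.log R := Real.log_nonneg (by linarith)
    rw [Real.norm_of_nonneg hlog, id, Real.norm_of_nonneg (by linarith : (0:ℝ) ≤ R)] at a1
    linarith
  · simp only [Function.comp] at a4
    rw [Real.exp_neg, ← div_eq_mul_inv, div_lt_iff₀ (Real.exp_pos _)] at a4
    have : (R / 2) ^ 4 = R ^ 4 / 16 := by ring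
    rw [this] at a4
    linarith
  · exact a3.le

theorem crudeLow (h1 : Stmt_Prof) (h2 : Stmt_ProfLim) (h3 : Stmt_Iso1c) (h4 : Stmt_Polar)
    (h5 : Stmt_Slices) (h6 : Stmt_S3) (h7 : Stmt_Osc) (h8 : Stmt_Iso1) : Stmt_CrudeLow := by
  obtain ⟨vmax, m₁, hvmax, hm₁, hiso⟩ := h8
  obtain ⟨c, m₂, hc, hm₂, hisoc⟩ := h3 (min vmax (1 / 2)) (by positivity)
  obtain ⟨R₀, hR₀, hlarge⟩ := CrudeAux.large hc hvmax
  have hl1 := h2.2 1 zero_le_one
  have e1 : ∀ᶠ m : ℕ in atTop, (1 : ℝ) / 2 < vp m 1 :=
    hl1.eventually_const_lt (by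
      have h := Real.exp_one_lt_d9
      have : Real.exp 1 < 4 := by norm_num at h ⊢; linarith
      rw [Real.exp_neg, ← div_eq_mul_inv, lt_div_iff₀ (Real.exp_pos _)]
      linarith)
  obtain ⟨m₃, hm₃⟩ := e1.exists_forall_of_atTop
  have hpi := Real.pi_pos
  have hpi4 := Real.pi_lt_four
  refine ⟨R₀, max (max m₁ m₂) m₃, by linarith,
    hm₁.trans ((le_max_left _ _).trans (le_max_left _ _)), ?_⟩
  intro m hm A R hA hRR hRm hlow hhigh
  have hmm₁ : m₁ ≤ m := ((le_max_left _ _).trans (le_max_left _ _)).trans hm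
  have hmm₂ : m₂ ≤ m := ((le_max_right _ _).trans (le_max_left _ _)).trans hm
  have hmm₃ : m₃ ≤ m := (le_max_right _ _).trans hm
  have hm2 : 2 ≤ m := hm₁.trans hmm₁
  have hmr : (2 : ℝ) ≤ m := by exact_mod_cast hm2
  obtain ⟨_, hcont, hanti, hvnn, hW, hleft, hright, _, hWe, _⟩ := h1 m hm2
  obtain ⟨g1, g2, g3, g4⟩ := hlarge R hRR
  have hv1 : 1 / 2 < vp m 1 := hm₃ m hmm₃
  have hR20 : 20 ≤ R := hR₀.trans hRR
  have hRpos : 0 < R := by linarith
  have hR3 : 400 * R ≤ R ^ 3 := by
    have h22 : 400 ≤ R ^ 2 := by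
      have := pow_le_pow_left₀ (by norm_num : (0 : ℝ) ≤ 20) hR20 2
      norm_num at this ⊢
      exact this
    have h23 : R ^ 3 = R ^ 2 * R := by ring
    rw [h23]
    exact mul_le_mul_of_nonneg_right h22 hRpos.le
  have hlog : 0 ≤ Real.log R := Real.log_nonneg (by linarith)
  have hvpm : vp m m = 0 := by simp [vp]
  have hvR : 0 < vp m R := by
    have := hanti ⟨hRpos.le, hRm.le⟩ ⟨by linarith, le_rfl⟩ hRm
    rw [hvpm] at this; exact this
  have hv01 : vp m 1 < vp m 0 := hanti ⟨le_rfl, by linarith⟩ ⟨zero_le_one, by linarith⟩ one_pos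
  set V := V0 m A with hV
  set t := 2 * Real.pi * vp m R with ht
  have htpos : 0 < t := by positivity
  by_contra hcon
  push Not at hcon
  set R' := R + 4 * Real.log R with hR'
  have hR'pos : 0 < R' := by positivity
  have hosc := osc_bounds h4 h5 h7 hm2 hA (R' := R') (P := t) hR'pos htpos.le hcon.le
  rw [← hV] at hosc
  rw [V0_univ h4 hm2] at hhigh
  -- the error term
  have htail : vp m R' ≤ t := by
    have hs := hright R (4 * Real.log R) hRpos (by positivity)
    have hx : Real.exp (-(4 * Real.log R)) * (1 + 4 * Real.log R / R) ≤ 1 := by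
      have ha : 1 + 4 * Real.log R / R ≤ Real.exp (4 * Real.log R) := by
        have hb : 4 * Real.log R / R ≤ 4 * Real.log R :=
          div_le_self (by positivity) (by linarith)
        have := Real.add_one_le_exp (4 * Real.log R)
        linarith
      rw [Real.exp_neg, mul_comm, ← div_eq_mul_inv, div_le_one (Real.exp_pos _)]
      exact ha
    have hy : vp m R' ≤ 1 * vp m R := hs.trans (mul_le_mul_of_nonneg_right hx hvR.le)
    have : 1 * vp m R ≤ 2 * Real.pi * vp m R :=
      mul_le_mul_of_nonneg_right (by linarith [Real.pi_gt_three]) hvR.le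
    linarith
  have hE : R' * t + vp m R' ≤ 2 * R * t := by
    have : R' + 1 ≤ 2 * R := by rw [hR']; linarith
    nlinarith
  obtain ⟨hmeas, _, _⟩ := h5 m 1 A hm2 one_pos hA
  rcases le_or_gt (R ^ 3 * t) V with hcase | hcase
  · -- many small slices
    have hVpos : 0 < V := lt_of_lt_of_le (by positivity) hcase
    have hE2 : 2 * R * t ≤ 1 / 10 * (V / (2 * Real.pi)) := by
      have h9 : 2 * R * t * (20 * Real.pi) ≤ V := by
        refine le_trans ?_ hcase
        have : 2 * R * (20 * Real.pi) ≤ R ^ 3 := by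
          have h24 : R * Real.pi ≤ R * 4 := mul_le_mul_of_nonneg_left hpi4.le hRpos.le
          linarith
        nlinarith
      rw [← mul_div_assoc, le_div_iff₀ (by positivity)]
      nlinarith
    have ha2 : V / (2 * Real.pi) ≤ vp m 0 / 4 := by
      rw [div_le_iff₀ (by positivity)]
      linarith
    set p := min (9 / 20 * (V / (2 * Real.pi))) c with hp
    have hp0 : 0 < p := by positivity
    have hS : MeasurableSet {θ : ℝ | 9 / 10 * (V / (2 * Real.pi)) ≤ vth m A θ ∧
        vth m A θ ≤ 4 / 5 * vp m 0} :=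
      (measurableSet_le measurable_const hmeas).inter (measurableSet_le hmeas measurable_const)
    have key := s3_good h6 hm2 hA (p := fun _ => p) (P := p) measurable_const
      (fun _ => hp0.le) (fun _ => le_rfl) hS (by
        filter_upwards [hosc] with θ h
        constructor <;> linarith [h.1, h.2])
      (by
        intro θ hθ
        rcases le_or_gt (vth m A θ) (min vmax (1 / 2)) with hs | hs
        · have := iso1_use hiso h1 h5 hm2 hmm₁ hA (θ := θ) (r := 1) one_pos (by linarith)
            ((hs.trans (min_le_right _ _)).trans hv1.le) (hs.trans (min_le_left _ _))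
          refine le_trans (ENNReal.ofReal_le_ofReal ?_) this
          refine (min_le_left _ _).trans ?_
          have := hθ.1
          norm_num
          linarith
        · refine le_trans (ENNReal.ofReal_le_ofReal (min_le_right _ _)) ?_
          exact hisoc m hmm₂ (Sl m A θ) (measurableSet_Sl hA θ) (by rw [vth_eq]; exact hs.le)
            (by rw [vth_eq]; exact hθ.2))
    rw [setIntegral_const, real_vol, smul_eq_mul] at key
    have h10 := key.trans_lt hcon
    have h11 := (ENNReal.ofReal_lt_ofReal_iff_of_nonneg (by positivity)).1 h10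
    rw [hp] at h11
    rcases min_choice (9 / 20 * (V / (2 * Real.pi))) c with h12 | h12
    · rw [h12] at h11
      have h13 : 2 * Real.pi * (9 / 20 * (V / (2 * Real.pi))) = 9 / 20 * V := by
        field_simp
      rw [h13] at h11
      have : 4 * t ≤ R ^ 3 * t := mul_le_mul_of_nonneg_right (by linarith) htpos.le
      linarith
    · rw [h12] at h11
      have h14 : vp m R < c := by
        have h15 := hW R hRpos.le
        have h16 := hWe R hRpos.le
        have : Wp m R * (1 + R) ≤ Real.exp (-R) * (1 + R) :=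
          mul_le_mul_of_nonneg_right h16 (by linarith)
        linarith
      have : t < 2 * Real.pi * c := by
        rw [ht]; exact mul_lt_mul_of_pos_left h14 (by positivity)
      linarith
  · -- all slices are tiny
    have hkey : R ^ 4 * vp m R ≤ vp m (R / 2) := by
      have := hleft R (R / 2) (by linarith) (by linarith) hRpos hRm.le
      have hx : R / 2 / R = 1 / 2 := by field_simp
      have hy : R - R / 2 = R / 2 := by ring
      rw [hx, hy] at this
      refine le_trans ?_ this
      refine mul_le_mul_of_nonneg_right ?_ hvR.le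
      linarith
    have hkey2 : vp m (R / 2) ≤ vmax := by
      have h15 := hW (R / 2) (by linarith)
      have h16 := hWe (R / 2) (by linarith)
      have : Wp m (R / 2) * (1 + R / 2) ≤ Real.exp (-(R / 2)) * (1 + R / 2) :=
        mul_le_mul_of_nonneg_right h16 (by linarith)
      linarith
    have hS : MeasurableSet {θ : ℝ | vth m A θ ≤ R ^ 4 * vp m R} :=
      measurableSet_le hmeas measurable_const
    have key := s3_good h6 hm2 hA (p := fun θ => 9 / 10 * vth m A θ)
      (P := 9 / 10 * vp m 0) (hmeas.const_mul _)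
      (fun θ => by have := vth_nonneg h5 hm2 hA θ; positivity)
      (fun θ => by have := vth_le h5 hm2 hA θ; linarith) hS (by
        filter_upwards [hosc] with θ h
        have h17 : V / (2 * Real.pi) ≤ R ^ 3 * vp m R := by
          rw [div_le_iff₀ (by positivity)]
          have : R ^ 3 * t = R ^ 3 * vp m R * (2 * Real.pi) := by rw [ht]; ring
          linarith
        have h18 : 2 * R * t ≤ 16 * R * vp m R := by
          rw [ht]; nlinarith [mul_pos hRpos hvR]
        have h19 : R ^ 3 * vp m R + 16 * R * vp m R ≤ R ^ 4 * vp m R := by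
          have : R ^ 3 + 16 * R ≤ R ^ 4 := by
            have h20 : 20 * R ^ 3 ≤ R ^ 4 := by
              have : R ^ 4 = R * R ^ 3 := by ring
              rw [this]
              exact mul_le_mul_of_nonneg_right hR20 (by positivity)
            have h21 : 16 * R ≤ R ^ 3 := by linarith
            linarith
          nlinarith
        show vth m A θ ≤ R ^ 4 * vp m R
        linarith [h.2])
      (by
        intro θ hθ
        have hθ' : vth m A θ ≤ R ^ 4 * vp m R := hθ
        have := iso1_use hiso h1 h5 hm2 hmm₁ hA (θ := θ) (r := R / 2) (by linarith)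
          (by linarith) (hθ'.trans hkey) ((hθ'.trans hkey).trans hkey2)
        refine le_trans (ENNReal.ofReal_le_ofReal ?_) this
        have hn := vth_nonneg h5 hm2 hA θ
        have : 1 / (1 + R / 2) ≤ 1 / 10 := by
          apply one_div_le_one_div_of_le <;> linarith
        nlinarith)
    rw [integral_const_mul, ← h4 m A hm2 hA] at key
    have h10 := key.trans_lt hcon
    have hVpos : 0 < V := lt_of_lt_of_le (by positivity) hlow
    have h11 := (ENNReal.ofReal_lt_ofReal_iff_of_nonneg (by positivity)).1 h10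
    linarith

end Pool.Agent.Lib.MP_c95dcf_gt
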