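import Mathlib

/-!
# MP_c95dcf_gt: basic definitions (parts G, O, T)
-/

set_option autoImplicit false

open MeasureTheory Set Filter Topology
open scoped ENNReal NNReal RealInnerProductSpace

namespace Pool.Agent.Lib.MP_c95dcf_gt

/-- Euclidean space. -/
abbrev E (n : ℕ) := EuclideanSpace ℝ (Fin n)

/-- The divergence of a vector field. -/
noncomputable def dv {n : ℕ} (X : E n → E n) (x : E n) : ℝ :=
  ∑ i, (fderiv ℝ X x (EuclideanSpace.single i (1 : ℝ))) i

/-- `C¹` vector fields with compact support in `U`. -/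
structure TF {n : ℕ} (U : Set (E n)) (X : E n → E n) : Prop where
  diff : ContDiff ℝ 1 X
  comp : HasCompactSupport X
  supp : tsupport X ⊆ U

/-- The perimeter of `A` relative to `U`. -/
noncomputable def Per {n : ℕ} (U A : Set (E n)) : ℝ≥0∞ :=
  ⨆ (X : E n → E n) (_ : TF U X ∧ ∀ x, ‖X x‖ ≤ 1), ENNReal.ofReal (∫ x in A, dv X x)

/-- A finite measure `μ` and a unit vector field `ν` represent the linear functional `T` on the
`C¹` vector fields with compact support in `U`. -/
structure Rep {n : ℕ} (U : Set (E n)) (T : (E n → E n) → ℝ) (μ : Measure (E n))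
    (ν : E n → E n) : Prop where
  fin : IsFiniteMeasure μ
  null : μ Uᶜ = 0
  meas : Measurable ν
  unit : ∀ x, ‖ν x‖ = 1
  repr : ∀ X, TF U X → T X = ∫ x, ⟪X x, ν x⟫ ∂μ
  open_eq : ∀ W, IsOpen W → W ⊆ U →
    μ W = ⨆ (X : E n → E n) (_ : TF W X ∧ ∀ x, ‖X x‖ ≤ 1), ENNReal.ofReal (T X)

/-- `μ` and `ν` are the perimeter measure and the outer normal of `A` in `U`. -/
abbrev PRep {n : ℕ} (U A : Set (E n)) (μ : Measure (E n)) (ν : E n → E n) : Prop :=
  Rep U (fun X => ∫ x in A, dv X x) μ ν

/-- Volume of the unit ball of `E d`. -/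
noncomputable def om (d : ℕ) : ℝ≥0∞ := volume (Metric.ball (0 : E d) 1)

/-- The constant relating Mathlib's Hausdorff measure of dimension `d` with area. -/
noncomputable def c0 (d : ℕ) : ℝ≥0∞ := om d / 2 ^ d

end Pool.Agent.Lib.MP_c95dcf_gt
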