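import Pool.Agent.Lib.MP_c95dcf_gt.GStmts

/-!
# MP_c95dcf_gt, part G: the perimeter of the image under a diffeomorphism
-/

set_option autoImplicit false

open MeasureTheory Set Filter Topology
open scoped ENNReal NNReal RealInnerProductSpace

namespace Pool.Agent.Lib.MP_c95dcf_gt

section Diffeo

variable {n : ℕ}

/-- A function continuous on `U` and zero outside of a compact subset is continuous. -/
lemma diffeo_glue {F : Type*} [TopologicalSpace F] [Zero F] {U K : Set (E n)} (hU : IsOpen U)
    (hK : IsCompact K) (hKU : K ⊆ U) {g : E n → F} (hg : ContinuousOn g U)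
    (h0 : ∀ x, x ∉ K → g x = 0) : Continuous g := by
  rw [continuous_iff_continuousAt]
  intro x
  by_cases hx : x ∈ K
  · exact (hg x (hKU hx)).continuousAt (hU.mem_nhds (hKU hx))
  · have h1 : g =ᶠ[𝓝 x] fun _ => 0 := by
      filter_upwards [hK.isClosed.isOpen_compl.mem_nhds hx] with y hy
      exact h0 y hy
    exact continuousAt_const.congr h1.symm

lemma diffeo_apply_sum (X : E n) : X = ∑ i, X i • EuclideanSpace.single i (1 : ℝ) := by
  ext j
  simp [Pi.single_apply]

/-- Integration by parts for a function `u` differentiable on `U`. -/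
lemma diffeo_ibp {U : Set (E n)} {u : E n → ℝ} {X : E n → E n} (hU : IsOpen U)
    (hu : ContDiffOn ℝ 1 u U) (hX : TF U X) :
    ∫ x, u x * dv X x = - ∫ x, fderiv ℝ u x (X x) := by
  have hK : IsCompact (tsupport X) := hX.comp
  have hX1 : Continuous (fderiv ℝ X) := hX.diff.continuous_fderiv one_ne_zero
  have hdu : ContinuousOn (fderiv ℝ u) U := hu.continuousOn_fderiv_of_isOpen hU le_rfl
  have hX0 : ∀ x, x ∉ tsupport X → X x = 0 := fun x hx => image_eq_zero_of_notMem_tsupport hx
  have hX0' : ∀ x, x ∉ tsupport X → fderiv ℝ X x = 0 := by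
    intro x hx
    exact image_eq_zero_of_notMem_tsupport (fun h => hx (tsupport_fderiv_subset ℝ h))
  have hi : ∀ i : Fin n, ∫ x, u x * (fderiv ℝ X x (EuclideanSpace.single i (1 : ℝ))) i =
      - ∫ x, fderiv ℝ u x (EuclideanSpace.single i (1 : ℝ)) * X x i := by
    intro i
    have hf : ∀ x, fderiv ℝ (fun y => X y i) x (EuclideanSpace.single i (1 : ℝ)) =
        (fderiv ℝ X x (EuclideanSpace.single i (1 : ℝ))) i := by
      intro x
      have h1 : HasFDerivAt X (fderiv ℝ X x) x :=
        (hX.diff.differentiable one_ne_zero x).hasFDerivAt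
      have h2 := (EuclideanSpace.proj i : E n →L[ℝ] ℝ).hasFDerivAt.comp x h1
      have h3 : fderiv ℝ (fun y => X y i) x =
          (EuclideanSpace.proj i : E n →L[ℝ] ℝ).comp (fderiv ℝ X x) :=
        h2.fderiv
      rw [h3]
      rfl
    have hXi : Continuous fun y => X y i :=
      (EuclideanSpace.proj i : E n →L[ℝ] ℝ).continuous.comp
        hX.diff.continuous
    have hXd : Differentiable ℝ fun y => X y i :=
      (EuclideanSpace.proj i : E n →L[ℝ] ℝ).differentiable.comp
        (hX.diff.differentiable one_ne_zero)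
    have hdi : Continuous fun x => (fderiv ℝ X x (EuclideanSpace.single i (1 : ℝ))) i :=
      (EuclideanSpace.proj i : E n →L[ℝ] ℝ).continuous.comp
        (hX1.clm_apply continuous_const)
    have hsup : tsupport (fun y => X y i) ⊆ tsupport X := by
      apply closure_mono
      intro y hy hy0
      apply hy
      change X y i = 0
      rw [hy0]
      rfl
    have h := integral_mul_fderiv_eq_neg_fderiv_mul_of_integrable (μ := (volume : Measure (E n)))
      (f := u) (g := fun y => X y i) (v := EuclideanSpace.single i (1 : ℝ)) ?_ ?_ ?_ ?_ ?_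
    · simp only [hf] at h
      exact h
    · have hc : Continuous fun x => fderiv ℝ u x (EuclideanSpace.single i (1 : ℝ)) * X x i := by
        apply diffeo_glue hU hK hX.supp
        · exact (hdu.clm_apply continuousOn_const).mul hXi.continuousOn
        · intro x hx
          rw [hX0 x hx]
          simp
      exact hc.integrable_of_hasCompactSupport (HasCompactSupport.intro hK fun x hx => by
        rw [hX0 x hx]
        simp)
    · simp only [hf]
      have hc : Continuous fun x => u x * (fderiv ℝ X x (EuclideanSpace.single i (1 : ℝ))) i := by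
        apply diffeo_glue hU hK hX.supp
        · exact hu.continuousOn.mul hdi.continuousOn
        · intro x hx
          rw [hX0' x hx]
          simp
      exact hc.integrable_of_hasCompactSupport (HasCompactSupport.intro hK fun x hx => by
        rw [hX0' x hx]
        simp)
    · have hc : Continuous fun x => u x * X x i := by
        apply diffeo_glue hU hK hX.supp
        · exact hu.continuousOn.mul hXi.continuousOn
        · intro x hx
          rw [hX0 x hx]
          simp
      exact hc.integrable_of_hasCompactSupport (HasCompactSupport.intro hK fun x hx => by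
        rw [hX0 x hx]
        simp)
    · intro x hx
      have hxU : x ∈ U := hX.supp (hsup hx)
      exact (hu.differentiableOn one_ne_zero).differentiableAt (hU.mem_nhds hxU)
    · intro x _
      exact hXd x
  have hint1 : ∀ i : Fin n, Integrable
      (fun x => u x * (fderiv ℝ X x (EuclideanSpace.single i (1 : ℝ))) i) := by
    intro i
    have hdi : Continuous fun x => (fderiv ℝ X x (EuclideanSpace.single i (1 : ℝ))) i :=
      (EuclideanSpace.proj i : E n →L[ℝ] ℝ).continuous.comp
        (hX1.clm_apply continuous_const)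
    have hc : Continuous fun x => u x * (fderiv ℝ X x (EuclideanSpace.single i (1 : ℝ))) i := by
      apply diffeo_glue hU hK hX.supp
      · exact hu.continuousOn.mul hdi.continuousOn
      · intro x hx
        rw [hX0' x hx]
        simp
    exact hc.integrable_of_hasCompactSupport (HasCompactSupport.intro hK fun x hx => by
      rw [hX0' x hx]
      simp)
  have hint2 : ∀ i : Fin n, Integrable
      (fun x => fderiv ℝ u x (EuclideanSpace.single i (1 : ℝ)) * X x i) := by
    intro i
    have hXi : Continuous fun y => X y i :=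
      (EuclideanSpace.proj i : E n →L[ℝ] ℝ).continuous.comp
        hX.diff.continuous
    have hc : Continuous fun x => fderiv ℝ u x (EuclideanSpace.single i (1 : ℝ)) * X x i := by
      apply diffeo_glue hU hK hX.supp
      · exact (hdu.clm_apply continuousOn_const).mul hXi.continuousOn
      · intro x hx
        rw [hX0 x hx]
        simp
    exact hc.integrable_of_hasCompactSupport (HasCompactSupport.intro hK fun x hx => by
      rw [hX0 x hx]
      simp)
  have e1 : (fun x => u x * dv X x) = fun x => ∑ i : Fin n,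
      u x * (fderiv ℝ X x (EuclideanSpace.single i (1 : ℝ))) i := by
    funext x
    rw [dv, Finset.mul_sum]
  have e2 : (fun x => fderiv ℝ u x (X x)) = fun x => ∑ i : Fin n,
      fderiv ℝ u x (EuclideanSpace.single i (1 : ℝ)) * X x i := by
    funext x
    conv_lhs => rw [diffeo_apply_sum (X x)]
    rw [map_sum]
    apply Finset.sum_congr rfl
    intro i _
    rw [map_smul, smul_eq_mul, mul_comm]
  rw [e1, e2, integral_finsetSum _ fun i _ => hint1 i, integral_finsetSum _ fun i _ => hint2 i,
    ← Finset.sum_neg_distrib]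
  exact Finset.sum_congr rfl fun i _ => hi i

lemma diffeo_kern_cs {ρ : ℕ → E n → ℝ} (hρ : Kern n ρ) (k : ℕ) : HasCompactSupport (ρ k) :=
  HasCompactSupport.of_support_subset_isCompact (isCompact_closedBall (0 : E n) (1 / (k + 1 : ℝ)))
    ((subset_tsupport _).trans (hρ.supp k))

lemma diffeo_kern_zero {ρ : ℕ → E n → ℝ} (hρ : Kern n ρ) (k : ℕ) {x : E n}
    (hx : 1 / (k + 1 : ℝ) < ‖x‖) : ρ k x = 0 := by
  apply image_eq_zero_of_notMem_tsupport
  intro h
  have := hρ.supp k h
  rw [Metric.mem_closedBall, dist_zero_right] at this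
  linarith

lemma diffeo_dv_cont {Z : E n → E n} (hZ : ContDiff ℝ 1 Z) : Continuous (dv Z) := by
  have h1 : Continuous (fderiv ℝ Z) := hZ.continuous_fderiv one_ne_zero
  unfold dv
  apply continuous_finsetSum
  intro i _
  exact (EuclideanSpace.proj i : E n →L[ℝ] ℝ).continuous.comp (h1.clm_apply continuous_const)

lemma diffeo_dv_zero {Z : E n → E n} {x : E n} (hx : x ∉ tsupport Z) : dv Z x = 0 := by
  have h : fderiv ℝ Z x = 0 :=
    image_eq_zero_of_notMem_tsupport (fun h => hx (tsupport_fderiv_subset ℝ h))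
  unfold dv
  rw [h]
  simp

/-- The estimate of the double integral. -/
lemma diffeo_double {ρ : ℕ → E n → ℝ} (hρ : Kern n ρ) {μ : Measure (E n)} [IsFiniteMeasure μ]
    {ν : E n → E n} (hν : Measurable ν) (hν1 : ∀ x, ‖ν x‖ = 1) {w : E n → E n} (hwc : Continuous w)
    (hws : HasCompactSupport w) {ε δ : ℝ}
    (hδ : ∀ x y : E n, dist x y < δ → dist (w x) (w y) < ε) {k : ℕ} (hk : 1 / (k + 1 : ℝ) < δ) :
    ∫ y, ∫ z, ρ k (y - z) * ⟪w y, ν z⟫ ∂μ ≤ (∫ z, ⟪w z, ν z⟫ ∂μ) + ε * μ.real univ := by
  have hρc : Continuous (ρ k) := (hρ.smooth k).continuous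
  have hρs := diffeo_kern_cs hρ k
  obtain ⟨C1, hC1⟩ := hρc.bounded_above_of_compact_support hρs
  obtain ⟨C2, hC2⟩ := hwc.bounded_above_of_compact_support hws
  have hC1' : 0 ≤ C1 := (norm_nonneg _).trans (hC1 0)
  have hC2' : 0 ≤ C2 := (norm_nonneg _).trans (hC2 0)
  have hin : ∀ y z, |⟪w y, ν z⟫| ≤ C2 := by
    intro y z
    refine (abs_real_inner_le_norm _ _).trans ?_
    rw [hν1, mul_one]
    exact hC2 y
  have hint : Integrable (Function.uncurry fun (y z : E n) => ρ k (y - z) * ⟪w y, ν z⟫)
      ((volume : Measure (E n)).prod μ) := by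
    have hdom : Integrable (fun p : E n × E n =>
        ((tsupport w).indicator (fun _ => C1 * C2) p.1) * (1 : ℝ))
        ((volume : Measure (E n)).prod μ) := by
      apply Integrable.mul_prod (f := (tsupport w).indicator (fun _ => C1 * C2))
        (g := fun _ : E n => (1 : ℝ))
      · rw [integrable_indicator_iff hws.isCompact.measurableSet]
        exact integrableOn_const hws.isCompact.measure_lt_top.ne
      · exact integrable_const _
    refine hdom.mono' ?_ ?_
    · apply Measurable.aestronglyMeasurable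
      apply Measurable.mul
      · exact (hρc.comp (continuous_fst.sub continuous_snd)).measurable
      · exact (hwc.comp continuous_fst).measurable.inner (hν.comp measurable_snd)
    · filter_upwards with p
      change ‖ρ k (p.1 - p.2) * ⟪w p.1, ν p.2⟫‖ ≤ _
      by_cases hp : p.1 ∈ tsupport w
      · rw [indicator_of_mem hp, mul_one, norm_mul]
        exact mul_le_mul (hC1 _) (hin _ _) (norm_nonneg _) hC1'
      · rw [image_eq_zero_of_notMem_tsupport hp, inner_zero_left, mul_zero, norm_zero,
          indicator_of_notMem hp, zero_mul]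
  rw [integral_integral_swap hint]
  have hinner : ∀ z, ∫ y, ρ k (y - z) * ⟪w y, ν z⟫ ≤ ⟪w z, ν z⟫ + ε := by
    intro z
    have hρi : Integrable fun y => ρ k (y - z) :=
      (hρc.integrable_of_hasCompactSupport hρs).comp_sub_right z
    have hmass : ∫ y, ρ k (y - z) = 1 := by
      rw [integral_sub_right_eq_self (ρ k) z]
      exact hρ.mass k
    calc ∫ y, ρ k (y - z) * ⟪w y, ν z⟫ ≤ ∫ y, ρ k (y - z) * (⟪w z, ν z⟫ + ε) := by
          apply integral_mono
          · apply Continuous.integrable_of_hasCompactSupport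
            · exact (hρc.comp (continuous_id.sub continuous_const)).mul
                (hwc.inner continuous_const)
            · apply HasCompactSupport.intro hws.isCompact
              intro x hx
              rw [image_eq_zero_of_notMem_tsupport hx, inner_zero_left, mul_zero]
          · exact hρi.mul_const _
          · intro y
            change ρ k (y - z) * ⟪w y, ν z⟫ ≤ ρ k (y - z) * (⟪w z, ν z⟫ + ε)
            by_cases h0 : ρ k (y - z) = 0
            · rw [h0, zero_mul, zero_mul]
            · apply mul_le_mul_of_nonneg_left _ (hρ.nonneg k _)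
              have h2 : ‖y - z‖ ≤ 1 / (k + 1 : ℝ) := by
                by_contra h2
                exact h0 (diffeo_kern_zero hρ k (not_le.1 h2))
              have h3 : dist y z < δ := by
                rw [dist_eq_norm]
                exact h2.trans_lt hk
              have h4 := hδ y z h3
              rw [dist_eq_norm] at h4
              have h5 : ⟪w y, ν z⟫ = ⟪w z, ν z⟫ + ⟪w y - w z, ν z⟫ := by
                rw [inner_sub_left]
                ring
              have h6 : ⟪w y - w z, ν z⟫ ≤ ‖w y - w z‖ * ‖ν z‖ := real_inner_le_norm _ _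
              rw [hν1, mul_one] at h6
              linarith
      _ = ⟪w z, ν z⟫ + ε := by rw [integral_mul_const, hmass, one_mul]
  have hwi : Integrable (fun z => ⟪w z, ν z⟫) μ := by
    apply Integrable.of_bound (C := C2)
    · exact (hwc.measurable.inner hν).aestronglyMeasurable
    · filter_upwards with z
      exact hin z z
  calc ∫ z, (∫ y, ρ k (y - z) * ⟪w y, ν z⟫) ∂μ ≤ ∫ z, (⟪w z, ν z⟫ + ε) ∂μ := by
        have h7 : Integrable (fun z => ∫ y, ρ k (y - z) * ⟪w y, ν z⟫) μ :=
          hint.integral_prod_right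
        exact integral_mono h7 (hwi.add (integrable_const _)) hinner
    _ = (∫ z, ⟪w z, ν z⟫ ∂μ) + ε * μ.real univ := by
        rw [integral_add hwi (integrable_const _), integral_const, smul_eq_mul, mul_comm ε]

theorem diffeo (hK : Stmt_Kern) (h1 : Stmt_Conv) (h4 : Stmt_ConvGrad) : Stmt_Diffeo := by
  intro n U A μ ν Φ Ψ hn hU hA hAU hrep hΦ hΨ hΦU hΨU hΨΦ hΦΨ
  have hfin := hrep.fin
  obtain ⟨ρ, hρ⟩ := hK n
  rw [Per]
  apply iSup₂_le
  rintro Z ⟨hZ, hZ1⟩
  have hZK : IsCompact (tsupport Z) := hZ.comp
  set K' : Set (E n) := Ψ '' tsupport Z with hK'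
  have hK'c : IsCompact K' := hZK.image_of_continuousOn (hΨ.continuousOn.mono hZ.supp)
  have hK'U : K' ⊆ U := by
    rintro _ ⟨x, hx, rfl⟩
    exact hΨU (hZ.supp hx)
  have hnotK : ∀ y ∈ U, y ∉ K' → Φ y ∉ tsupport Z := by
    intro y hy hyK h
    exact hyK ⟨Φ y, h, hΨΦ y hy⟩
  have hinj : InjOn Φ U := by
    intro x hx y hy h
    rw [← hΨΦ x hx, ← hΨΦ y hy, h]
  have himg : Φ '' U = U := by
    apply Subset.antisymm
    · rintro _ ⟨x, hx, rfl⟩
      exact hΦU hx
    · intro x hx
      exact ⟨Ψ x, hΨU hx, hΦΨ x hx⟩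
  have hΦd : ∀ x ∈ U, HasFDerivAt Φ (fderiv ℝ Φ x) x := fun x hx =>
    ((hΦ.differentiableOn one_ne_zero).differentiableAt (hU.mem_nhds hx)).hasFDerivAt
  have hΨd : ∀ x ∈ U, HasFDerivAt Ψ (fderiv ℝ Ψ x) x := fun x hx =>
    ((hΨ.differentiableOn one_ne_zero).differentiableAt (hU.mem_nhds hx)).hasFDerivAt
  have hdet : ContinuousOn (fun y => |(fderiv ℝ Φ y).det|) U :=
    (continuous_abs.comp ContinuousLinearMap.continuous_det).comp_continuousOn
      (hΦ.continuousOn_fderiv_of_isOpen hU le_rfl)
  have hΨ' : ContinuousOn (fun y => fderiv ℝ Ψ (Φ y)) U :=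
    (hΨ.continuousOn_fderiv_of_isOpen hU le_rfl).comp hΦ.continuousOn hΦU
  have hZΦ : ContinuousOn (fun y => Z (Φ y)) U :=
    hZ.diff.continuous.comp_continuousOn hΦ.continuousOn
  set w : E n → E n := U.indicator
    (fun y => |(fderiv ℝ Φ y).det| • fderiv ℝ Ψ (Φ y) (Z (Φ y))) with hw
  have hwU : ∀ y ∈ U, w y = |(fderiv ℝ Φ y).det| • fderiv ℝ Ψ (Φ y) (Z (Φ y)) :=
    fun y hy => indicator_of_mem hy _
  have hw0 : ∀ y, y ∉ K' → w y = 0 := by
    intro y hy
    by_cases hyU : y ∈ U
    · rw [hwU y hyU, image_eq_zero_of_notMem_tsupport (hnotK y hyU hy), map_zero, smul_zero]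
    · exact indicator_of_notMem hyU _
  have hwc : Continuous w := diffeo_glue hU hK'c hK'U
    ((hdet.smul (hΨ'.clm_apply hZΦ)).congr hwU) hw0
  have hws : HasCompactSupport w := HasCompactSupport.intro hK'c hw0
  set J : E n → ℝ := U.indicator (fun y => |(fderiv ℝ Φ y).det| * dv Z (Φ y)) with hJ
  have hJU : ∀ y ∈ U, J y = |(fderiv ℝ Φ y).det| * dv Z (Φ y) :=
    fun y hy => indicator_of_mem hy _
  have hJ0 : ∀ y, y ∉ K' → J y = 0 := by
    intro y hy
    by_cases hyU : y ∈ U
    · rw [hJU y hyU, diffeo_dv_zero (hnotK y hyU hy), mul_zero]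
    · exact indicator_of_notMem hyU _
  have hJc : Continuous J := diffeo_glue hU hK'c hK'U
    ((hdet.mul ((diffeo_dv_cont hZ.diff).comp_continuousOn hΦ.continuousOn)).congr hJU) hJ0
  have hJs : HasCompactSupport J := HasCompactSupport.intro hK'c hJ0
  obtain ⟨C, hC⟩ := hJc.bounded_above_of_compact_support hJs
  have hC0 : 0 ≤ C := (norm_nonneg _).trans (hC 0)
  have hloc : LocallyIntegrable (A.indicator (1 : E n → ℝ)) :=
    (locallyIntegrable_const (1 : ℝ)).indicator hA
  obtain ⟨hu, hlim0⟩ := h1 n ρ hρ _ hloc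
  have hlim := hlim0 K' hK'c
  -- change of variables on `U`
  have hcv : ∀ g : E n → ℝ, ∫ x in U, g x = ∫ y in U, |(fderiv ℝ Φ y).det| * g (Φ y) := by
    intro g
    have := integral_image_eq_integral_abs_det_fderiv_smul (volume : Measure (E n))
      hU.measurableSet (fun x hx => (hΦd x hx).hasFDerivWithinAt) hinj g
    rw [himg] at this
    exact this
  -- step 1
  have hT : ∫ x in Φ '' A, dv Z x = ∫ y, A.indicator (1 : E n → ℝ) y * J y := by
    rw [integral_image_eq_integral_abs_det_fderiv_smul (volume : Measure (E n))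
      hA (fun x hx => (hΦd x (hAU hx)).hasFDerivWithinAt) (hinj.mono hAU) (dv Z),
      ← integral_indicator hA]
    apply integral_congr_ae
    filter_upwards with y
    by_cases hy : y ∈ A
    · rw [indicator_of_mem hy, indicator_of_mem hy, hJU y (hAU hy)]
      simp
    · rw [indicator_of_notMem hy, indicator_of_notMem hy, zero_mul]
  -- step 2
  have h2 : ∀ k, |(∫ x in Φ '' A, dv Z x) -
      ∫ y, conv (ρ k) (A.indicator 1) y * J y| ≤
      C * ∫ x in K', |conv (ρ k) (A.indicator 1) x - A.indicator (1 : E n → ℝ) x| := by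
    intro k
    have hi1 : Integrable fun y => A.indicator (1 : E n → ℝ) y * J y := by
      have h5 : (fun y => A.indicator (1 : E n → ℝ) y * J y) = A.indicator J := by
        funext y
        by_cases hy : y ∈ A
        · rw [indicator_of_mem hy, indicator_of_mem hy]
          simp
        · rw [indicator_of_notMem hy, indicator_of_notMem hy, zero_mul]
      rw [h5]
      exact (hJc.integrable_of_hasCompactSupport hJs).indicator hA
    have hi2 : Integrable fun y => conv (ρ k) (A.indicator 1) y * J y :=
      ((hu k).continuous.mul hJc).integrable_of_hasCompactSupport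
        (HasCompactSupport.intro hK'c fun y hy => by rw [Pi.mul_apply, hJ0 y hy, mul_zero])
    rw [hT, ← integral_sub hi1 hi2]
    rw [← setIntegral_eq_integral_of_forall_compl_eq_zero (s := K') (fun y hy => by
      rw [hJ0 y hy]; ring), ← integral_const_mul]
    rw [← Real.norm_eq_abs]
    apply norm_integral_le_of_norm_le
    · apply Integrable.const_mul
      have h6 : IntegrableOn (fun x => conv (ρ k) (A.indicator 1) x) K' :=
        (hu k).continuous.continuousOn.integrableOn_compact hK'c
      have h7 : IntegrableOn (A.indicator (1 : E n → ℝ)) K' :=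
        hloc.integrableOn_isCompact hK'c
      exact (h6.sub h7).abs
    · filter_upwards with y
      rw [← sub_mul, norm_mul, mul_comm]
      apply mul_le_mul (hC y) _ (norm_nonneg _) hC0
      rw [Real.norm_eq_abs, abs_sub_comm]
  -- step 3
  have h3 : ∀ k, ∫ y, conv (ρ k) (A.indicator 1) y * J y =
      - ∫ y, fderiv ℝ (conv (ρ k) (A.indicator 1)) y (w y) := by
    intro k
    set u : E n → ℝ := conv (ρ k) (A.indicator 1) with hu'
    have e1 : ∫ y, u y * J y = ∫ y in U, |(fderiv ℝ Φ y).det| * (u (Ψ (Φ y)) * dv Z (Φ y)) := by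
      rw [← setIntegral_eq_integral_of_forall_compl_eq_zero (s := U) (fun y hy => by
        rw [hJ, indicator_of_notMem hy, mul_zero])]
      apply setIntegral_congr_fun hU.measurableSet
      intro y hy
      simp only
      rw [hJU y hy, hΨΦ y hy]
      ring
    have e2 : ∫ x in U, u (Ψ x) * dv Z x = ∫ x, u (Ψ x) * dv Z x :=
      setIntegral_eq_integral_of_forall_compl_eq_zero (fun x hx => by
        rw [diffeo_dv_zero (fun h => hx (hZ.supp h)), mul_zero])
    have huΨ : ContDiffOn ℝ 1 (fun x => u (Ψ x)) U := (hu k).comp_contDiffOn hΨ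
    have e3 := diffeo_ibp hU huΨ hZ
    have e4 : ∫ x in U, fderiv ℝ (fun x => u (Ψ x)) x (Z x) =
        ∫ x, fderiv ℝ (fun x => u (Ψ x)) x (Z x) :=
      setIntegral_eq_integral_of_forall_compl_eq_zero (fun x hx => by
        rw [image_eq_zero_of_notMem_tsupport (fun h => hx (hZ.supp h)), map_zero])
    have e5 : ∫ y, fderiv ℝ u y (w y) = ∫ y in U, |(fderiv ℝ Φ y).det| *
        (fderiv ℝ (fun x => u (Ψ x)) (Φ y) (Z (Φ y))) := by
      rw [← setIntegral_eq_integral_of_forall_compl_eq_zero (s := U) (fun y hy => by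
        rw [hw, indicator_of_notMem hy, map_zero])]
      apply setIntegral_congr_fun hU.measurableSet
      intro y hy
      simp only
      have h8 : HasFDerivAt u (fderiv ℝ u (Ψ (Φ y))) (Ψ (Φ y)) :=
        ((hu k).differentiable one_ne_zero _).hasFDerivAt
      have h9 : fderiv ℝ (fun x => u (Ψ x)) (Φ y) =
          (fderiv ℝ u (Ψ (Φ y))).comp (fderiv ℝ Ψ (Φ y)) :=
        (h8.comp (Φ y) (hΨd _ (hΦU hy))).fderiv
      rw [h9, hwU y hy, map_smul, smul_eq_mul, hΨΦ y hy]
      rfl
    rw [e1, ← hcv (fun x => u (Ψ x) * dv Z x), e2, e3, ← e4,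
      hcv (fun x => fderiv ℝ (fun x => u (Ψ x)) x (Z x)), e5]
  -- step 4
  obtain ⟨δ₀, hδ₀, hδ₀U⟩ := hK'c.exists_cthickening_subset_open hU hK'U
  have h5 : ∀ k : ℕ, 1 / (k + 1 : ℝ) ≤ δ₀ → ∫ y, conv (ρ k) (A.indicator 1) y * J y =
      ∫ y, ∫ z, ρ k (y - z) * ⟪w y, ν z⟫ ∂μ := by
    intro k hk
    rw [h3 k, ← integral_neg]
    congr 1
    funext y
    by_cases hy : y ∈ K'
    · rw [h4 n ρ hρ U A μ ν hU hA hrep k y ?_ (w y), neg_neg]
      exact (Metric.closedBall_subset_closedBall hk).trans
        ((Metric.closedBall_subset_cthickening hy δ₀).trans hδ₀U)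
    · rw [hw0 y hy]
      simp
  have huc : UniformContinuous w := hws.uniformContinuous_of_continuous hwc
  set S : ℝ := ∫ z, ⟪w z, ν z⟫ ∂μ with hS
  have hmain : ∀ ε : ℝ, 0 < ε → ∫ x in Φ '' A, dv Z x ≤ S + ε * μ.real univ + ε := by
    intro ε hε
    obtain ⟨δ, hδ, hδ'⟩ := Metric.uniformContinuous_iff.1 huc ε hε
    have hev1 : ∀ᶠ k : ℕ in atTop, 1 / (k + 1 : ℝ) < min δ δ₀ :=
      (tendsto_one_div_add_atTop_nhds_zero_nat (𝕜 := ℝ)).eventually_lt_const (lt_min hδ hδ₀)
    have hev2 : ∀ᶠ k : ℕ in atTop,
        C * ∫ x in K', |conv (ρ k) (A.indicator 1) x - A.indicator (1 : E n → ℝ) x| < ε := by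
      have := hlim.const_mul C
      rw [mul_zero] at this
      exact this.eventually_lt_const hε
    obtain ⟨k, hk1, hk2⟩ := (hev1.and hev2).exists
    have h6 := (abs_le.1 (h2 k)).2
    rw [h5 k (hk1.le.trans (min_le_right _ _))] at h6
    have h7 := diffeo_double (μ := μ) hρ hrep.meas hrep.unit hwc hws (fun x y h => hδ' h)
      (k := k) (hk1.trans_le (min_le_left _ _))
    linarith
  have hTS : ∫ x in Φ '' A, dv Z x ≤ S := by
    by_contra hcon
    push Not at hcon
    have hm : 0 ≤ μ.real univ := measureReal_nonneg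
    set D := (∫ x in Φ '' A, dv Z x) - S with hD
    have hD0 : 0 < D := by rw [hD]; linarith
    have := hmain (D / (2 * (μ.real univ + 1))) (by positivity)
    have h8 : D / (2 * (μ.real univ + 1)) * μ.real univ + D / (2 * (μ.real univ + 1)) = D / 2 := by
      field_simp
    linarith
  have hwi : Integrable (fun z => ⟪w z, ν z⟫) μ := by
    obtain ⟨C2, hC2⟩ := hwc.bounded_above_of_compact_support hws
    apply Integrable.of_bound (C := C2)
    · exact (hwc.measurable.inner hrep.meas).aestronglyMeasurable
    · filter_upwards with z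
      rw [Real.norm_eq_abs]
      refine (abs_real_inner_le_norm _ _).trans ?_
      rw [hrep.unit, mul_one]
      exact hC2 z
  calc ENNReal.ofReal (∫ x in Φ '' A, dv Z x) ≤ ENNReal.ofReal (∫ z, max ⟪w z, ν z⟫ 0 ∂μ) := by
        apply ENNReal.ofReal_le_ofReal
        refine hTS.trans (integral_mono hwi (hwi.pos_part) fun z => le_max_left _ _)
    _ = ∫⁻ z, ENNReal.ofReal (max ⟪w z, ν z⟫ 0) ∂μ :=
        ofReal_integral_eq_lintegral_ofReal hwi.pos_part
          (Eventually.of_forall fun z => le_max_right _ _)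
    _ ≤ _ := by
        apply lintegral_mono_ae
        have hae : ∀ᵐ z ∂μ, z ∈ U := by
          rw [ae_iff]
          exact hrep.null
        filter_upwards [hae] with z hz
        apply ENNReal.ofReal_le_ofReal
        apply max_le _ (by positivity)
        rw [hwU z hz, real_inner_smul_left]
        apply mul_le_mul_of_nonneg_left _ (abs_nonneg _)
        rw [← ContinuousLinearMap.adjoint_inner_right]
        refine (real_inner_le_norm _ _).trans ?_
        exact mul_le_of_le_one_left (norm_nonneg _) (hZ1 _)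

end Diffeo

end Pool.Agent.Lib.MP_c95dcf_gt
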