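import Pool.Agent.Lib.MP_c95dcf_gt.Mg.G002

/-!
# MP_c95dcf_gt, part T, task T24: the limit of monotone pieces is monotone or radially invariant
-/

set_option autoImplicit false

open MeasureTheory Set Filter Topology
open scoped ENNReal NNReal RealInnerProductSpace Manifold

namespace Pool.Agent.Lib.MP_c95dcf_gt

/-! ### Smoothness -/

theorem dir_wp_pos {m : ℕ} (hm : 0 < m) {c : ℂ} (hc : c ∈ Dp m) : 0 < wp m ‖c‖ :=
  (wp_of_lt hm (by simpa [Dp] using hc.1)).2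

theorem dir_wp_contDiffAt {m : ℕ} (hm : 0 < m) {n : WithTop ℕ∞} {c : ℂ} (hc : c ∈ Dp m) :
    ContDiffAt ℝ n (fun c : ℂ => wp m ‖c‖) c := by
  have hc0 : c ≠ 0 := by simpa using hc.2
  have h1 : ContDiffAt ℝ n (fun c : ℂ => 1 - ‖c‖ / m) c :=
    contDiffAt_const.sub ((contDiffAt_norm ℝ hc0).div_const _)
  refine h1.congr_of_eventuallyEq ?_
  have h2 : Metric.ball (0 : ℂ) m ∈ 𝓝 c := Metric.isOpen_ball.mem_nhds hc.1
  filter_upwards [h2] with d hd
  exact (wp_of_lt hm (by simpa using hd)).1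

theorem dir_gw_eq (m : ℕ) (c : ℂ) : gw m c = (-((m : ℝ)⁻¹ * ‖c‖⁻¹)) • c := by
  rw [gw, Complex.real_smul]
  push_cast
  rw [div_eq_mul_inv, mul_inv]
  ring

theorem dir_gw_contDiffAt (m : ℕ) {n : WithTop ℕ∞} {c : ℂ} (hc : c ∈ Dp m) :
    ContDiffAt ℝ n (gw m) c := by
  have hc0 : c ≠ 0 := by simpa using hc.2
  have h : gw m = fun c => (-((m : ℝ)⁻¹ * ‖c‖⁻¹)) • c := funext (dir_gw_eq m)
  have h1 : ContDiffAt ℝ n (fun c : ℂ => -((m : ℝ)⁻¹ * ‖c‖⁻¹)) c :=
    (contDiffAt_const.mul ((contDiffAt_norm ℝ hc0).inv (by simpa using hc0))).neg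
  rw [h]
  exact h1.smul contDiffAt_id

theorem dir_norm_gw {m : ℕ} (hm : 0 < m) {c : ℂ} (hc : c ≠ 0) : ‖gw m c‖ = (m : ℝ)⁻¹ := by
  have hm' : (0 : ℝ) < m := by exact_mod_cast hm
  have hc' : 0 < ‖c‖ := norm_pos_iff.2 hc
  rw [dir_gw_eq, norm_smul, norm_neg, Real.norm_of_nonneg (by positivity), mul_assoc,
    inv_mul_cancel₀ hc'.ne', mul_one]

theorem dir_contDiff_of_tsupport {X V : Type*} [NormedAddCommGroup X] [NormedSpace ℝ X]
    [NormedAddCommGroup V] [NormedSpace ℝ V] {n : WithTop ℕ∞} {f : X → V}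
    (hf : ∀ x ∈ tsupport f, ContDiffAt ℝ n f x) : ContDiff ℝ n f := by
  rw [contDiff_iff_contDiffAt]
  intro x
  by_cases hx : x ∈ tsupport f
  · exact hf x hx
  · have h : f =ᶠ[𝓝 x] fun _ => 0 := by
      have := notMem_tsupport_iff_eventuallyEq.1 hx
      exact this
    exact contDiffAt_const.congr_of_eventuallyEq h

/-- A function with support in `Dp m` times a function which is smooth on `Dp m`. -/
theorem dir_smul {V : Type*} [NormedAddCommGroup V] [NormedSpace ℝ V] {D : Set ℂ}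
    {n : WithTop ℕ∞} {ψ : ℂ → ℝ} (hψ : ContDiff ℝ n ψ) (hs : tsupport ψ ⊆ D)
    {G : ℂ → V} (hG : ∀ c ∈ D, ContDiffAt ℝ n G c) : ContDiff ℝ n (fun c => ψ c • G c) := by
  refine dir_contDiff_of_tsupport fun x hx => ?_
  have : x ∈ tsupport ψ := by
    refine closure_mono ?_ hx
    intro y hy
    simp only [Function.mem_support] at hy ⊢
    intro h; apply hy; rw [h, zero_smul]
  exact hψ.contDiffAt.smul (hG x (hs this))

theorem dir_tsupport_smul {V : Type*} [NormedAddCommGroup V] [NormedSpace ℝ V]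
    (ψ : ℂ → ℝ) (G : ℂ → V) : tsupport (fun c => ψ c • G c) ⊆ tsupport ψ := by
  refine closure_mono ?_
  intro y hy
  simp only [Function.mem_support] at hy ⊢
  intro h; apply hy; rw [h, zero_smul]

/-- Admissible scalar functions. -/
structure dirF (m : ℕ) (n : WithTop ℕ∞) (ψ : ℂ → ℝ) : Prop where
  diff : ContDiff ℝ n ψ
  comp : HasCompactSupport ψ
  supp : tsupport ψ ⊆ Dp m

theorem dirF.mul {m : ℕ} {n : WithTop ℕ∞} {ψ : ℂ → ℝ} (h : dirF m n ψ) {G : ℂ → ℝ}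
    (hG : ∀ c ∈ Dp m, ContDiffAt ℝ n G c) : dirF m n (fun c => ψ c * G c) := by
  refine ⟨dir_smul h.diff h.supp hG, ?_, (dir_tsupport_smul ψ G).trans h.supp⟩
  exact h.comp.of_isClosed_subset (isClosed_tsupport _) (dir_tsupport_smul ψ G)

theorem dirF.field {m : ℕ} {ψ : ℂ → ℝ} (h : dirF m 1 ψ) {G : ℂ → ℂ}
    (hG : ∀ c ∈ Dp m, ContDiffAt ℝ 1 G c) : TFc (Dp m) (fun c => ψ c • G c) := by
  refine ⟨dir_smul h.diff h.supp hG, ?_, (dir_tsupport_smul ψ G).trans h.supp⟩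
  exact h.comp.of_isClosed_subset (isClosed_tsupport _) (dir_tsupport_smul ψ G)

theorem dirF.mono {m : ℕ} {n n' : WithTop ℕ∞} {ψ : ℂ → ℝ} (h : dirF m n ψ) (hn : n' ≤ n) :
    dirF m n' ψ := ⟨h.diff.of_le hn, h.comp, h.supp⟩

theorem dirF.zero {m : ℕ} {n : WithTop ℕ∞} {ψ : ℂ → ℝ} (h : dirF m n ψ) {c : ℂ}
    (hc : c ∉ Dp m) : ψ c = 0 := by
  by_contra hne
  exact hc (h.supp (subset_tsupport _ hne))

theorem dirF.bound {m : ℕ} {n : WithTop ℕ∞} {ψ : ℂ → ℝ} (h : dirF m n ψ) :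
    ∃ M : ℝ, 0 ≤ M ∧ ∀ c, |ψ c| ≤ M := by
  obtain ⟨M, hM⟩ := h.comp.exists_bound_of_continuous h.diff.continuous
  exact ⟨M, (norm_nonneg _).trans (hM 0), hM⟩

/-- `ψ / w`. -/
theorem dirF.div_wp {m : ℕ} (hm : 0 < m) {n : WithTop ℕ∞} {ψ : ℂ → ℝ} (h : dirF m n ψ) :
    dirF m n (fun c => ψ c / wp m ‖c‖) := by
  have := h.mul (G := fun c => (wp m ‖c‖)⁻¹) fun c hc =>
    (dir_wp_contDiffAt hm hc).inv (dir_wp_pos hm hc).ne'
  simpa only [div_eq_mul_inv] using this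

/-! ### Coordinates -/

theorem dir_continuous_wp (m : ℕ) : Continuous (wp m) := by
  unfold wp
  fun_prop

theorem dir_measurable_zt (m : ℕ) : Measurable (zt m) := by
  unfold zt
  exact ((dir_continuous_wp m).measurable.comp (measurable_px.norm)).inv.smul measurable_pz

theorem dir_zt_contDiffAt {m : ℕ} (hm : 0 < m) {n : WithTop ℕ∞} {p : E (2 + m)}
    (hp : px p ∈ Dp m) : ContDiffAt ℝ n (zt m) p := by
  unfold zt
  have h1 : ContDiffAt ℝ n (fun p : E (2 + m) => wp m ‖px p‖) p :=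
    (dir_wp_contDiffAt hm hp).comp p contDiff_px.contDiffAt
  exact (h1.inv (dir_wp_pos hm hp).ne').smul contDiff_pz.contDiffAt

theorem dir_volume_U {m : ℕ} (hm : 0 < m) : volume (Ub m 1) < ∞ := by
  have h : Ub m 1 ⊆ Metric.ball (0 : E (2 + m)) (m + 1) := by
    intro p hp
    have h1 := px_lt_of_mem hm hp
    have h2 := (mem_Ub_one hm p).1 hp
    have h3 : wp m ‖px p‖ ≤ 1 := by
      unfold wp
      refine max_le zero_le_one ?_
      have : 0 ≤ ‖px p‖ / m := by positivity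
      linarith
    have h4 : ‖p‖ ≤ ‖px p‖ + ‖pz p‖ := by
      conv_lhs => rw [← jn_px_pz p]
      exact norm_jn_le _ _
    rw [mem_ball_zero_iff]
    linarith
  exact (measure_mono h).trans_lt measure_ball_lt_top

/-! ### Monotone sets -/

theorem dir_mono_aux {m : ℕ} (hm : 0 < m) {F : Set (E (2 + m))} (hF : MeasurableSet F)
    (hFU : F ⊆ Ub m 1) {e : E (2 + m)}
    (he : ∀ x ∈ F, ∀ s : ℝ, 0 ≤ s → x + s • e ∈ Ub m 1 → x + s • e ∈ F)
    {φ : E (2 + m) → ℝ} (hφ : ContDiff ℝ 1 φ) (hc : HasCompactSupport φ)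
    (hs : tsupport φ ⊆ Ub m 1) (h0 : ∀ p, 0 ≤ φ p) : ∫ p in F, fderiv ℝ φ p e ≤ 0 := by
  have hfin : volume F < ∞ := (measure_mono hFU).trans_lt (dir_volume_U hm)
  have : IsFiniteMeasure (volume.restrict F) := ⟨by rwa [Measure.restrict_apply_univ]⟩
  obtain ⟨C, hC⟩ := (hc.fderiv (𝕜 := ℝ)).exists_bound_of_continuous
    (hφ.continuous_fderiv (by norm_num))
  have hd : ∀ (p : E (2 + m)) (s : ℝ), HasDerivAt (fun s : ℝ => φ (p + s • e))
      (fderiv ℝ φ (p + s • e) e) s := by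
    intro p s
    have h1 : HasDerivAt (fun s : ℝ => p + s • e) e s := by
      simpa using ((hasDerivAt_id s).smul_const e).const_add p
    have h2 : HasFDerivAt φ (fderiv ℝ φ (p + s • e)) (p + s • e) :=
      (hφ.differentiable (by norm_num) _).hasFDerivAt
    exact h2.comp_hasDerivAt s h1
  have hcont : ∀ s : ℝ, Continuous fun p : E (2 + m) => φ (p + s • e) := fun s =>
    hφ.continuous.comp (continuous_id.add continuous_const)
  obtain ⟨M, hM⟩ := hc.exists_bound_of_continuous hφ.continuous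
  have hint : ∀ s : ℝ, Integrable (fun p : E (2 + m) => φ (p + s • e)) (volume.restrict F) := by
    intro s
    exact Integrable.of_bound (hcont s).aestronglyMeasurable M (ae_of_all _ fun p => hM _)
  have hder := (hasDerivAt_integral_of_dominated_loc_of_deriv_le (μ := volume.restrict F)
    (F := fun (s : ℝ) (p : E (2 + m)) => φ (p + s • e))
    (F' := fun (s : ℝ) (p : E (2 + m)) => fderiv ℝ φ (p + s • e) e) (x₀ := (0 : ℝ))
    (s := univ) (bound := fun _ => C * ‖e‖) univ_mem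
    (Eventually.of_forall fun s => (hcont s).aestronglyMeasurable) (hint 0)
    (by
      have : Continuous fun p : E (2 + m) => fderiv ℝ φ (p + (0 : ℝ) • e) e := by
        have h1 := hφ.continuous_fderiv (by norm_num)
        exact (h1.comp (continuous_id.add continuous_const)).clm_apply continuous_const
      exact this.aestronglyMeasurable)
    (ae_of_all _ fun p s _ => (ContinuousLinearMap.le_opNorm _ _).trans
      (mul_le_mul_of_nonneg_right (hC _) (norm_nonneg _)))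
    (integrable_const _) (ae_of_all _ fun p s _ => hd p s)).2
  have hle : ∀ s : ℝ, 0 ≤ s → ∫ p in F, φ (p + s • e) ≤ ∫ p in F, φ (p + (0 : ℝ) • e) := by
    intro s hs0
    have h1 : ∫ p in F, φ (p + s • e) = ∫ p, F.indicator (fun p => φ (p + s • e)) p :=
      (integral_indicator hF).symm
    have h2 : ∫ p, F.indicator (fun p => φ (p + s • e)) p =
        ∫ p, F.indicator (fun p => φ (p + s • e)) (p - s • e) :=
      (integral_sub_right_eq_self _ (s • e)).symm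
    have h3 : ∫ p in F, φ (p + (0 : ℝ) • e) = ∫ p, F.indicator φ p := by
      rw [integral_indicator hF]; simp
    rw [h1, h2, h3]
    have hiφ : Integrable (F.indicator φ) := by
      have := hint 0
      simp only [zero_smul, add_zero] at this
      exact (integrable_indicator_iff hF).2 this
    have hi2 : Integrable (F.indicator (fun p => φ (p + s • e))) :=
      (integrable_indicator_iff hF).2 (hint s)
    refine integral_mono (hi2.comp_sub_right (s • e)) hiφ ?_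
    intro p
    by_cases hp : p - s • e ∈ F
    · simp only [indicator_of_mem hp, sub_add_cancel]
      by_cases hU : p ∈ Ub m 1
      · have : p ∈ F := by
          have := he _ hp s hs0 (by rwa [sub_add_cancel])
          rwa [sub_add_cancel] at this
        rw [indicator_of_mem this]
      · have : φ p = 0 := by
          by_contra hne
          exact hU (hs (subset_tsupport _ hne))
        rw [this]
        exact indicator_nonneg (fun _ _ => h0 _) _
    · simp only [indicator_of_notMem hp]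
      exact indicator_nonneg (fun _ _ => h0 _) _
  have hslope := hasDerivAt_iff_tendsto_slope.1 hder
  have hslope' := hslope.mono_left (nhdsWithin_mono (0 : ℝ) (s := Ioi 0) (t := {0}ᶜ) (by
    intro x hx; simpa using (ne_of_gt hx)))
  have hres := le_of_tendsto hslope' (b := (0 : ℝ)) (by
    filter_upwards [self_mem_nhdsWithin] with s hs0
    have hs0' : 0 < s := hs0
    rw [slope_def_field]
    refine div_nonpos_of_nonpos_of_nonneg ?_ (by linarith)
    have := hle s hs0'.le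
    linarith)
  simpa using hres

/-- The scaled divergence of a scalar multiple of a constant field. -/
theorem dir_dve {m : ℕ} {ε : ℝ} (hε : ε ≠ 0) {φ : E (2 + m) → ℝ} (hφ : ContDiff ℝ 1 φ)
    (e p : E (2 + m)) : dve ε (fun p => φ p • Ls ε e) p = fderiv ℝ φ p e := by
  have hd : DifferentiableAt ℝ φ p := hφ.differentiable (by norm_num) p
  have h1 : fderiv ℝ (fun p => φ p • Ls ε e) p = (fderiv ℝ φ p).smulRight (Ls ε e) := by
    rw [fderiv_smul_const hd]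
  have h2 : e = ∑ i, e i • EuclideanSpace.single i (1 : ℝ) := by
    have := (EuclideanSpace.basisFun (Fin (2 + m)) ℝ).sum_repr e
    simpa [EuclideanSpace.basisFun_apply] using this.symm
  have h3 : fderiv ℝ φ p e = ∑ i, e i * fderiv ℝ φ p (EuclideanSpace.single i (1 : ℝ)) := by
    conv_lhs => rw [h2]
    rw [map_sum]
    exact Finset.sum_congr rfl fun i _ => by rw [map_smul, smul_eq_mul]
  have h4 : ∀ i : Fin 2, (Ls ε e) (Fin.castAdd m i) = e (Fin.castAdd m i) := by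
    intro i
    fin_cases i <;> simp [Ls, jn, px]
  have h5 : ∀ i : Fin m, (Ls ε e) (Fin.natAdd 2 i) = ε * e (Fin.natAdd 2 i) := by
    intro i
    simp [Ls, jn, pz]
  rw [dve, h1, h3, Fin.sum_univ_add, Finset.mul_sum]
  congr 1
  · refine Finset.sum_congr rfl fun i _ => ?_
    rw [ContinuousLinearMap.smulRight_apply, PiLp.smul_apply, h4, smul_eq_mul, mul_comm]
  · refine Finset.sum_congr rfl fun i _ => ?_
    rw [ContinuousLinearMap.smulRight_apply, PiLp.smul_apply, h5, smul_eq_mul]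
    field_simp

/-! ### The basic inequality -/

/-- The kernel `g(⟪ζ, v⟫) ω(x)`. -/
noncomputable def dirK (m : ℕ) (v : E m) (g : ℝ → ℝ) (ω : ℂ → ℝ) (p : E (2 + m)) : ℝ :=
  g ⟪zt m p, v⟫ * ω (px p)

theorem dirK_measurable {m : ℕ} {v : E m} {g : ℝ → ℝ} {ω : ℂ → ℝ} (hg : Continuous g)
    (hω : Continuous ω) : Measurable (dirK m v g ω) := by
  unfold dirK
  exact (hg.measurable.comp ((dir_measurable_zt m).inner measurable_const)).mul
    (hω.measurable.comp measurable_px)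

theorem dir_abs_inner_le {m : ℕ} (hm : 0 < m) {v : E m} (hv : ‖v‖ = 1) {p : E (2 + m)}
    (hp : p ∈ Ub m 1) : |⟪zt m p, v⟫| ≤ 1 := by
  refine (abs_real_inner_le_norm _ _).trans ?_
  rw [hv, mul_one]
  exact (norm_zt_lt hm hp).le

theorem dirK_bound {m : ℕ} (hm : 0 < m) {v : E m} (hv : ‖v‖ = 1) {g : ℝ → ℝ} {ω : ℂ → ℝ}
    (hg : Continuous g) {n : WithTop ℕ∞} (hω : dirF m n ω) :
    ∃ M : ℝ, 0 ≤ M ∧ ∀ p ∈ Ub m 1, |dirK m v g ω p| ≤ M := by
  obtain ⟨M1, hM1⟩ := (isCompact_Icc (a := (-1 : ℝ)) (b := 1)).exists_bound_of_continuousOn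
    hg.continuousOn
  obtain ⟨M2, hM2, hM2'⟩ := hω.bound
  have hM10 : 0 ≤ M1 := (norm_nonneg _).trans (hM1 0 (by constructor <;> norm_num))
  refine ⟨M1 * M2, mul_nonneg hM10 hM2, fun p hp => ?_⟩
  rw [dirK, abs_mul]
  exact mul_le_mul (hM1 _ (abs_le.1 (dir_abs_inner_le hm hv hp))) (hM2' _) (abs_nonneg _) hM10

/-- The cut-off. -/
noncomputable def dirC (m : ℕ) (k : ℕ) (p : E (2 + m)) : ℝ :=
  Real.smoothTransition (((k : ℝ) + 2) * (1 - ‖zt m p‖ ^ 2) - 1)

theorem dir_supp {m : ℕ} (hm : 0 < m) (k : ℕ) {v : E m} {g : ℝ → ℝ} {ω : ℂ → ℝ}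
    {n : WithTop ℕ∞} (hω : dirF m n ω) :
    ∃ K : Set (E (2 + m)), IsCompact K ∧ K ⊆ Ub m 1 ∧ (∀ p ∈ K, px p ∈ Dp m) ∧
      tsupport (fun p => dirC m k p * dirK m v g ω p) ⊆ K := by
  have hk : (0 : ℝ) < (k : ℝ) + 2 := by positivity
  set ρ : ℝ := Real.sqrt (1 - 1 / ((k : ℝ) + 2)) with hρ
  have hρ1 : ρ < 1 := by
    rw [hρ, Real.sqrt_lt' one_pos]
    have : 0 < 1 / ((k : ℝ) + 2) := by positivity
    linarith
  set T : ℂ × E m → E (2 + m) := fun q => jn q.1 (wp m ‖q.1‖ • q.2) with hT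
  have hTc : Continuous T := by
    refine continuous_jn.comp (continuous_fst.prodMk ?_)
    exact ((dir_continuous_wp m).comp continuous_fst.norm).smul continuous_snd
  have hKc : IsCompact (T '' (tsupport ω ×ˢ Metric.closedBall (0 : E m) ρ)) :=
    (hω.comp.isCompact.prod (isCompact_closedBall _ _)).image hTc
  refine ⟨_, hKc, ?_, ?_, ?_⟩
  · rintro _ ⟨⟨c, ζ⟩, ⟨hc, hζ⟩, rfl⟩
    have hc' : c ∈ Dp m := hω.supp hc
    refine (jn_wp_mem hm (by simpa [Dp] using hc'.1) ζ).2 ?_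
    exact lt_of_le_of_lt (by simpa using hζ) hρ1
  · rintro _ ⟨⟨c, ζ⟩, ⟨hc, hζ⟩, rfl⟩
    rw [hT, px_jn]
    exact hω.supp hc
  · refine closure_minimal ?_ hKc.isClosed
    intro p hp
    simp only [Function.mem_support, ne_eq, mul_eq_zero, not_or, dirK] at hp
    obtain ⟨h1, h2, h3⟩ := hp
    have h4 : px p ∈ tsupport ω := subset_tsupport _ h3
    have h5 : px p ∈ Dp m := hω.supp h4
    have h6 : ‖px p‖ < m := by simpa [Dp] using h5.1
    refine ⟨(px p, zt m p), ⟨h4, ?_⟩, ?_⟩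
    · rw [mem_closedBall_zero_iff, hρ]
      refine Real.le_sqrt_of_sq_le ?_
      by_contra hlt
      push Not at hlt
      refine h1 (Real.smoothTransition.zero_of_nonpos ?_)
      have : ((k : ℝ) + 2) * (1 - ‖zt m p‖ ^ 2) ≤ ((k : ℝ) + 2) * (1 / ((k : ℝ) + 2)) :=
        mul_le_mul_of_nonneg_left (by linarith) hk.le
      rw [mul_one_div_cancel hk.ne'] at this
      linarith
    · rw [hT]
      simp only
      rw [wp_smul_zt hm h6, jn_px_pz]

theorem dir_contDiff {m : ℕ} (hm : 0 < m) (k : ℕ) {v : E m} {g : ℝ → ℝ} (hg : ContDiff ℝ 1 g)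
    {ω : ℂ → ℝ} (hω : dirF m 1 ω) :
    ContDiff ℝ 1 (fun p => dirC m k p * dirK m v g ω p) := by
  obtain ⟨K, hKc, hKU, hKD, hK⟩ := dir_supp hm k (v := v) (g := g) hω
  refine dir_contDiff_of_tsupport fun p hp => ?_
  have hpD : px p ∈ Dp m := hKD p (hK hp)
  have h1 : ContDiffAt ℝ 1 (zt m) p := dir_zt_contDiffAt hm hpD
  have h2 : ContDiffAt ℝ 1 (fun p => ((k : ℝ) + 2) * (1 - ‖zt m p‖ ^ 2) - 1) p :=
    (contDiffAt_const.mul (contDiffAt_const.sub (h1.norm_sq ℝ))).sub contDiffAt_const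
  have h3 : ContDiffAt ℝ 1 (dirC m k) p :=
    ((Real.smoothTransition.contDiff (n := 1)).contDiffAt).comp p h2
  have h4 : ContDiffAt ℝ 1 (fun p => ⟪zt m p, v⟫) p := h1.inner ℝ contDiffAt_const
  have h5 : ContDiffAt ℝ 1 (fun p => g ⟪zt m p, v⟫) p := hg.contDiffAt.comp p h4
  have h6 : ContDiffAt ℝ 1 (fun p : E (2 + m) => ω (px p)) p :=
    hω.diff.contDiffAt.comp p contDiff_px.contDiffAt
  exact h3.mul (h5.mul h6)

theorem dir_tendsto_C {m : ℕ} (hm : 0 < m) {p : E (2 + m)} (hp : p ∈ Ub m 1) :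
    Tendsto (fun k => dirC m k p) atTop (𝓝 1) := by
  have h1 : 0 < 1 - ‖zt m p‖ ^ 2 := by
    have := norm_zt_lt hm hp
    nlinarith [norm_nonneg (zt m p)]
  have h2 : Tendsto (fun k : ℕ => ((k : ℝ) + 2) * (1 - ‖zt m p‖ ^ 2)) atTop atTop :=
    (tendsto_atTop_add_const_right _ 2 tendsto_natCast_atTop_atTop).atTop_mul_const h1
  refine tendsto_const_nhds.congr' ?_
  filter_upwards [h2.eventually_ge_atTop 2] with k hk
  exact (Real.smoothTransition.one_of_one_le (by linarith)).symm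

theorem dir_ineq {m : ℕ} (hm : 0 < m) {ε : ℝ} (hε : 0 < ε) {F : Set (E (2 + m))}
    (hF : MeasurableSet F) (hFU : F ⊆ Ub m 1) {lam : Measure (E (2 + m))}
    {ν : E (2 + m) → E (2 + m)} (hrep : ERep m ε F lam ν) {e : E (2 + m)}
    (he : ∀ x ∈ F, ∀ s : ℝ, 0 ≤ s → x + s • e ∈ Ub m 1 → x + s • e ∈ F) {v : E m} (hv : ‖v‖ = 1)
    {g : ℝ → ℝ} (hg : ContDiff ℝ 1 g) (hg0 : ∀ t, 0 ≤ g t) {ω : ℂ → ℝ} (hω : dirF m 1 ω)
    (hω0 : ∀ c, 0 ≤ ω c) : ∫ p, dirK m v g ω p * ⟪Ls ε e, ν p⟫ ∂lam ≤ 0 := by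
  have := hrep.fin
  obtain ⟨M, hM0, hM⟩ := dirK_bound hm hv hg.continuous hω
  have hU : ∀ᵐ p ∂lam, p ∈ Ub m 1 := mem_ae_iff.2 hrep.null
  have hK0 : ∀ p, 0 ≤ dirK m v g ω p := fun p => mul_nonneg (hg0 _) (hω0 _)
  have hstep : ∀ k : ℕ, ∫ p, (dirC m k p * dirK m v g ω p) * ⟪Ls ε e, ν p⟫ ∂lam ≤ 0 := by
    intro k
    obtain ⟨K, hKc, hKU, hKD, hK⟩ := dir_supp hm k (v := v) (g := g) hω
    have hcd := dir_contDiff hm k (v := v) hg hω
    have hsup : tsupport (fun p => (dirC m k p * dirK m v g ω p) • Ls ε e) ⊆ K := by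
      refine subset_trans (closure_mono ?_) hK
      intro y hy
      simp only [Function.mem_support] at hy ⊢
      intro h; apply hy; rw [h, zero_smul]
    have hTF : TF (Ub m 1) (fun p => (dirC m k p * dirK m v g ω p) • Ls ε e) :=
      ⟨hcd.smul contDiff_const, hKc.of_isClosed_subset (isClosed_tsupport _) hsup,
        hsup.trans hKU⟩
    have h1 := hrep.repr _ hTF
    have h2 : ∫ p, (dirC m k p * dirK m v g ω p) * ⟪Ls ε e, ν p⟫ ∂lam =
        ∫ p in F, fderiv ℝ (fun p => dirC m k p * dirK m v g ω p) p e := by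
      rw [integral_congr_ae (g := fun p => ⟪(dirC m k p * dirK m v g ω p) • Ls ε e, ν p⟫)
        (ae_of_all _ fun p => by simp only [inner_smul_left, RCLike.conj_to_real]), ← h1]
      exact integral_congr_ae (ae_of_all _ fun p => dir_dve hε.ne' hcd e p)
    rw [h2]
    refine dir_mono_aux hm hF hFU he hcd ?_ (hK.trans hKU) ?_
    · exact hKc.of_isClosed_subset (isClosed_tsupport _) hK
    · intro p
      exact mul_nonneg (Real.smoothTransition.nonneg _) (hK0 p)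
  have hmeasC : ∀ k, Measurable (dirC m k) := by
    intro k
    unfold dirC
    refine Real.smoothTransition.continuous.measurable.comp ?_
    exact (((((dir_measurable_zt m).norm.pow_const 2).const_sub 1).const_mul _).sub_const 1)
  have hlim : Tendsto (fun k => ∫ p, (dirC m k p * dirK m v g ω p) * ⟪Ls ε e, ν p⟫ ∂lam) atTop
      (𝓝 (∫ p, dirK m v g ω p * ⟪Ls ε e, ν p⟫ ∂lam)) := by
    refine tendsto_integral_of_dominated_convergence (fun _ => M * ‖Ls ε e‖) ?_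
      (integrable_const _) ?_ ?_
    · intro k
      exact (((hmeasC k).mul (dirK_measurable hg.continuous hω.diff.continuous)).mul
        (measurable_const.inner hrep.meas)).aestronglyMeasurable
    · intro k
      filter_upwards [hU] with p hp
      rw [norm_mul]
      refine mul_le_mul ?_ ?_ (norm_nonneg _) hM0
      · rw [norm_mul]
        have h1 : ‖dirC m k p‖ ≤ 1 := by
          rw [Real.norm_of_nonneg (show 0 ≤ dirC m k p from Real.smoothTransition.nonneg _)]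
          exact Real.smoothTransition.le_one _
        calc ‖dirC m k p‖ * ‖dirK m v g ω p‖ ≤ 1 * M :=
              mul_le_mul h1 (hM p hp) (norm_nonneg _) zero_le_one
          _ = M := one_mul M
      · have := norm_inner_le_norm (𝕜 := ℝ) (Ls ε e) (ν p)
        rwa [hrep.unit, mul_one] at this
    · filter_upwards [hU] with p hp
      have := (dir_tendsto_C hm hp).mul_const (dirK m v g ω p)
      have := this.mul_const (⟪Ls ε e, ν p⟫)
      simpa using this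
  exact le_of_tendsto' hlim hstep

/-! ### Normalisation of the directions -/

theorem dir_unit {V : Type*} [NormedAddCommGroup V] [NormedSpace ℝ V] [Nontrivial V] (x : V) :
    ∃ u : V, ‖u‖ = 1 ∧ x = ‖x‖ • u := by
  by_cases hx : x = 0
  · obtain ⟨u, hu⟩ := exists_norm_eq V zero_le_one
    exact ⟨u, hu, by simp [hx]⟩
  · have hx' : ‖x‖ ≠ 0 := norm_ne_zero_iff.2 hx
    refine ⟨‖x‖⁻¹ • x, ?_, ?_⟩
    · rw [norm_smul, norm_inv, norm_norm, inv_mul_cancel₀ hx']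
    · rw [smul_smul, mul_inv_cancel₀ hx', one_smul]

theorem dir_norm_e {m : ℕ} (hm : 2 ≤ m) {ε : ℝ} (hε : 0 < ε) (e : E (2 + m)) (he : e ≠ 0) :
    ∃ (s : ℝ) (q : (ℝ × ℝ) × (ℂ × E m)), 0 < s ∧ q ∈ (Icc (0 : ℝ) 1 ×ˢ Icc (0 : ℝ) 1) ×ˢ
      (Metric.sphere (0 : ℂ) 1 ×ˢ Metric.sphere (0 : E m) 1) ∧ q.1.1 + q.1.2 = 1 ∧
      Ls ε e = s • jn (q.1.1 • q.2.1) ((q.1.2 * ε⁻¹) • q.2.2) := by
  have : Nonempty (Fin m) := ⟨⟨0, by omega⟩⟩
  have : Nontrivial (E m) := inferInstance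
  obtain ⟨h, hh, hh'⟩ := dir_unit (px e)
  obtain ⟨u, hu, hu'⟩ := dir_unit (pz e)
  set α := ‖px e‖ with hα
  set β := ε ^ 2 * ‖pz e‖ with hβ
  have hα0 : 0 ≤ α := norm_nonneg _
  have hβ0 : 0 ≤ β := by positivity
  have hs : 0 < α + β := by
    rcases hα0.lt_or_eq with h1 | h1
    · linarith
    rcases hβ0.lt_or_eq with h2 | h2
    · linarith
    exfalso
    apply he
    have h3 : px e = 0 := norm_eq_zero.1 h1.symm
    have h4 : pz e = 0 := by
      rw [← norm_eq_zero]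
      have : ε ^ 2 * ‖pz e‖ = 0 := h2.symm
      rcases mul_eq_zero.1 this with h5 | h5
      · exact absurd h5 (by positivity)
      · exact h5
    rw [← jn_px_pz e, h3, h4]
    have := jn_smul 0 (0 : ℂ) (0 : E m)
    simpa using this
  refine ⟨α + β, ((α / (α + β), β / (α + β)), (h, u)), hs, ⟨⟨⟨by positivity, ?_⟩,
    ⟨by positivity, ?_⟩⟩, ⟨by simpa using hh, by simpa using hu⟩⟩, ?_, ?_⟩
  · exact (div_le_one hs).2 (by linarith)
  · exact (div_le_one hs).2 (by linarith)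
  · simp only
    rw [← add_div, div_self hs.ne']
  · simp only
    rw [← jn_smul, smul_smul, smul_smul, Ls]
    congr 1
    · rw [mul_div_cancel₀ _ hs.ne']; exact hh'
    · have h6 : (α + β) * (β / (α + β) * ε⁻¹) = ε * ‖pz e‖ := by
        rw [← mul_assoc, mul_div_cancel₀ _ hs.ne', hβ]; field_simp
      rw [h6, ← smul_smul, ← hu']

/-! ### Limits -/

section limits

variable {m : ℕ} {ε : ℕ → ℝ} {F : ℕ → Set (E (2 + m))} {F0 : Set ℂ}
  {lam : ℕ → Measure (E (2 + m))} {ν : ℕ → E (2 + m) → E (2 + m)}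

theorem dir_T1 (hPC : Stmt_ProdConv) (hm : 2 ≤ m) (hL : LimD m ε F F0 lam ν) {v : E m}
    (hv : ‖v‖ = 1) {g : ℝ → ℝ} (hg : ContDiff ℝ 1 g) {ω : ℂ → ℝ} (hω : dirF m 1 ω) {σ : ℕ → ℕ}
    (hσ : StrictMono σ) {h : ℕ → ℂ} {h0 : ℂ} (hh : Tendsto h atTop (𝓝 h0)) :
    Tendsto (fun j => ∫ p, dirK m v g ω p * ⟪h j, px (ν (σ j) p)⟫ ∂(lam (σ j))) atTop
      (𝓝 ((∫ ζ in Metric.ball (0 : E m) 1, g ⟪ζ, v⟫) *
        ∫ c in F0, dvW m (fun c => ω c • h0) c)) := by
  have hm0 : 0 < m := by omega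
  obtain ⟨M, hM0, hM⟩ := dirK_bound hm0 hv hg.continuous hω
  have hY : TFc (Dp m) (fun c => ω c • h0) := hω.field (G := fun _ => h0)
    fun c _ => contDiffAt_const
  have hη : Continuous (fun ζ : E m => g ⟪ζ, v⟫) :=
    hg.continuous.comp (continuous_id.inner continuous_const)
  have h1 := ((hPC m ε F F0 lam ν hm hL).1 _ _ hη hY).comp hσ.tendsto_atTop
  have h2 : Tendsto (fun j => ∫ p, dirK m v g ω p * ⟪h j - h0, px (ν (σ j) p)⟫ ∂(lam (σ j)))
      atTop (𝓝 0) := by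
    have h3 : Tendsto (fun j => M * ‖h j - h0‖ * (lam (σ j) univ).toReal) atTop (𝓝 0) := by
      have h4 : Tendsto (fun j => ‖h j - h0‖) atTop (𝓝 0) :=
        tendsto_iff_norm_sub_tendsto_zero.1 hh
      have h5 := (h4.const_mul M).mul (hL.strict.comp hσ.tendsto_atTop)
      simpa using h5
    refine squeeze_zero_norm (fun j => ?_) h3
    have := (hL.rep (σ j)).fin
    have hU : ∀ᵐ p ∂(lam (σ j)), p ∈ Ub m 1 := mem_ae_iff.2 (hL.rep (σ j)).null
    refine norm_integral_le_of_norm_le_const ?_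
    filter_upwards [hU] with p hp
    rw [norm_mul]
    refine mul_le_mul (hM p hp) ?_ (norm_nonneg _) hM0
    refine (norm_inner_le_norm (𝕜 := ℝ) _ _).trans ?_
    have h6 : ‖px (ν (σ j) p)‖ ≤ 1 := (norm_px_le _).trans ((hL.rep (σ j)).unit p).le
    calc ‖h j - h0‖ * ‖px (ν (σ j) p)‖ ≤ ‖h j - h0‖ * 1 :=
          mul_le_mul_of_nonneg_left h6 (norm_nonneg _)
      _ = ‖h j - h0‖ := mul_one _
  have h3 := h1.add h2
  rw [add_zero] at h3
  refine h3.congr fun j => ?_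
  have := (hL.rep (σ j)).fin
  have hU : ∀ᵐ p ∂(lam (σ j)), p ∈ Ub m 1 := mem_ae_iff.2 (hL.rep (σ j)).null
  have hint : ∀ w : ℂ, Integrable (fun p => dirK m v g ω p * ⟪w, px (ν (σ j) p)⟫)
      (lam (σ j)) := by
    intro w
    refine Integrable.of_bound ((dirK_measurable hg.continuous hω.diff.continuous).mul
      (measurable_const.inner
        (measurable_px.comp (hL.rep (σ j)).meas))).aestronglyMeasurable (M * ‖w‖) ?_
    filter_upwards [hU] with p hp
    rw [norm_mul]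
    refine mul_le_mul (hM p hp) ?_ (norm_nonneg _) hM0
    refine (norm_inner_le_norm (𝕜 := ℝ) _ _).trans ?_
    have h6 : ‖px (ν (σ j) p)‖ ≤ 1 := (norm_px_le _).trans ((hL.rep (σ j)).unit p).le
    calc ‖w‖ * ‖px (ν (σ j) p)‖ ≤ ‖w‖ * 1 := mul_le_mul_of_nonneg_left h6 (norm_nonneg _)
      _ = ‖w‖ := mul_one _
  simp only [Function.comp_apply]
  have h4 : (∫ p, g ⟪zt m p, v⟫ * ⟪ω (px p) • h0, px (ν (σ j) p)⟫ ∂(lam (σ j))) =
      ∫ p, dirK m v g ω p * ⟪h0, px (ν (σ j) p)⟫ ∂(lam (σ j)) := by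
    refine integral_congr_ae (ae_of_all _ fun p => ?_)
    simp only [dirK, real_inner_smul_left]
    ring
  rw [h4, ← integral_add (hint _) (hint _)]
  refine integral_congr_ae (ae_of_all _ fun p => ?_)
  simp only
  rw [inner_sub_left]
  ring

theorem dir_T2 (hPC : Stmt_ProdConv) (hm : 2 ≤ m) (hL : LimD m ε F F0 lam ν) {v : E m}
    (hv : ‖v‖ = 1) {g : ℝ → ℝ} (hg : ContDiff ℝ 1 g) {ψ : ℂ → ℝ} (hψ : dirF m 2 ψ)
    (hW : Tendsto (fun j => ∫ p, g ⟪zt m p, v⟫ * ψ (px p) *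
      ((⟪zt m p, v⟫ * ⟪px (ν j p), gw m (px p)⟫ - (ε j)⁻¹ * ⟪pz (ν j p), v⟫) / wp m ‖px p‖)
        ∂(lam j)) atTop (𝓝 0)) {σ : ℕ → ℕ}
    (hσ : StrictMono σ) {u : ℕ → E m} (hu : Tendsto u atTop (𝓝 v)) :
    Tendsto (fun j => ∫ p, dirK m v g (fun c => ψ c / wp m ‖c‖) p *
      ((ε (σ j))⁻¹ * ⟪u j, pz (ν (σ j) p)⟫) ∂(lam (σ j))) atTop
      (𝓝 ((∫ ζ in Metric.ball (0 : E m) 1, g ⟪ζ, v⟫ * ⟪ζ, v⟫) *
        ∫ c in F0, dvW m (fun c => (ψ c / wp m ‖c‖) • gw m c) c)) := by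
  have hm0 : 0 < m := by omega
  have hω : dirF m 1 (fun c => ψ c / wp m ‖c‖) := (hψ.div_wp hm0).mono (by norm_num)
  set ω : ℂ → ℝ := fun c => ψ c / wp m ‖c‖ with hωdef
  obtain ⟨M, hM0, hM⟩ := dirK_bound hm0 hv hg.continuous hω
  have hY : TFc (Dp m) (fun c => ω c • gw m c) := hω.field fun c hc => dir_gw_contDiffAt m hc
  have hη : Continuous (fun ζ : E m => g ⟪ζ, v⟫ * ⟪ζ, v⟫) :=
    (hg.continuous.comp (continuous_id.inner continuous_const)).mul
      (continuous_id.inner continuous_const)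
  have h1 := ((hPC m ε F F0 lam ν hm hL).1 _ _ hη hY).comp hσ.tendsto_atTop
  have hW' := hW.comp hσ.tendsto_atTop
  obtain ⟨C, hC⟩ := hL.l2
  -- integrability
  have hint : ∀ (j : ℕ) (w : E m), Integrable (fun p => dirK m v g ω p *
      ((ε (σ j))⁻¹ * ⟪w, pz (ν (σ j) p)⟫)) (lam (σ j)) := by
    intro j w
    have := (hL.rep (σ j)).fin
    have hU : ∀ᵐ p ∂(lam (σ j)), p ∈ Ub m 1 := mem_ae_iff.2 (hL.rep (σ j)).null
    refine Integrable.of_bound ((dirK_measurable hg.continuous hω.diff.continuous).mul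
      (((measurable_const.inner
        (measurable_pz.comp (hL.rep (σ j)).meas))).const_mul _)).aestronglyMeasurable
        (M * (|(ε (σ j))⁻¹| * ‖w‖)) ?_
    filter_upwards [hU] with p hp
    rw [norm_mul, norm_mul]
    refine mul_le_mul (hM p hp) ?_ (by positivity) hM0
    refine mul_le_mul_of_nonneg_left ?_ (norm_nonneg _)
    refine (norm_inner_le_norm (𝕜 := ℝ) _ _).trans ?_
    have h6 : ‖pz (ν (σ j) p)‖ ≤ 1 := (norm_pz_le _).trans ((hL.rep (σ j)).unit p).le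
    calc ‖w‖ * ‖pz (ν (σ j) p)‖ ≤ ‖w‖ * 1 := mul_le_mul_of_nonneg_left h6 (norm_nonneg _)
      _ = ‖w‖ := mul_one _
  have h2 : Tendsto (fun j => ∫ p, dirK m v g ω p *
      ((ε (σ j))⁻¹ * ⟪u j - v, pz (ν (σ j) p)⟫) ∂(lam (σ j))) atTop (𝓝 0) := by
    have h3 : Tendsto (fun j => M * ‖u j - v‖ * (((lam (σ j) univ).toReal + C) / 2)) atTop
        (𝓝 0) := by
      have h4 : Tendsto (fun j => ‖u j - v‖) atTop (𝓝 0) :=
        tendsto_iff_norm_sub_tendsto_zero.1 hu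
      have h5 := (h4.const_mul M).mul
        (((hL.strict.comp hσ.tendsto_atTop).add_const C).div_const 2)
      simpa using h5
    refine squeeze_zero_norm (fun j => ?_) h3
    have := (hL.rep (σ j)).fin
    have hε : 0 < ε (σ j) := hL.eps_pos _
    have hU : ∀ᵐ p ∂(lam (σ j)), p ∈ Ub m 1 := mem_ae_iff.2 (hL.rep (σ j)).null
    have hq : Integrable (fun p => ‖pz (ν (σ j) p)‖ ^ 2) (lam (σ j)) := by
      refine Integrable.of_bound
        ((measurable_pz.comp (hL.rep (σ j)).meas).norm.pow_const 2).aestronglyMeasurable 1 ?_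
      refine ae_of_all _ fun p => ?_
      have h6 : ‖pz (ν (σ j) p)‖ ≤ 1 := (norm_pz_le _).trans ((hL.rep (σ j)).unit p).le
      rw [norm_pow, norm_norm]
      exact pow_le_one₀ (norm_nonneg _) h6
    have hb : Integrable (fun p => M * ‖u j - v‖ *
        ((1 + (ε (σ j))⁻¹ ^ 2 * ‖pz (ν (σ j) p)‖ ^ 2) / 2)) (lam (σ j)) :=
      (((integrable_const (1 : ℝ)).add (hq.const_mul _)).div_const 2).const_mul _
    refine (norm_integral_le_of_norm_le hb ?_).trans ?_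
    · filter_upwards [hU] with p hp
      rw [norm_mul, norm_mul, mul_assoc]
      refine mul_le_mul (hM p hp) ?_ (by positivity) hM0
      have h7 := norm_inner_le_norm (𝕜 := ℝ) (u j - v) (pz (ν (σ j) p))
      rw [Real.norm_of_nonneg (inv_nonneg.2 hε.le)]
      have h8 : (ε (σ j))⁻¹ * ‖pz (ν (σ j) p)‖ ≤
          (1 + (ε (σ j))⁻¹ ^ 2 * ‖pz (ν (σ j) p)‖ ^ 2) / 2 := by
        nlinarith [sq_nonneg ((ε (σ j))⁻¹ * ‖pz (ν (σ j) p)‖ - 1)]
      calc (ε (σ j))⁻¹ * ‖(⟪u j - v, pz (ν (σ j) p)⟫ : ℝ)‖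
          ≤ (ε (σ j))⁻¹ * (‖u j - v‖ * ‖pz (ν (σ j) p)‖) :=
            mul_le_mul_of_nonneg_left h7 (inv_nonneg.2 hε.le)
        _ = ‖u j - v‖ * ((ε (σ j))⁻¹ * ‖pz (ν (σ j) p)‖) := by ring
        _ ≤ _ := mul_le_mul_of_nonneg_left h8 (norm_nonneg _)
    · rw [integral_const_mul, integral_div, integral_add (integrable_const _) (hq.const_mul _),
        integral_const_mul, integral_const, smul_eq_mul, mul_one]
      refine mul_le_mul_of_nonneg_left ?_ (by positivity)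
      have h9 : (ε (σ j))⁻¹ ^ 2 * ∫ p, ‖pz (ν (σ j) p)‖ ^ 2 ∂(lam (σ j)) ≤ C := by
        calc (ε (σ j))⁻¹ ^ 2 * ∫ p, ‖pz (ν (σ j) p)‖ ^ 2 ∂(lam (σ j))
            ≤ (ε (σ j))⁻¹ ^ 2 * (C * ε (σ j) ^ 2) :=
              mul_le_mul_of_nonneg_left (hC _) (by positivity)
          _ = C := by field_simp
      have h10 : (lam (σ j)).real univ = (lam (σ j) univ).toReal := rfl
      rw [h10]
      linarith
  have h3 := (h1.sub hW').add h2
  rw [add_zero, sub_zero] at h3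
  refine h3.congr fun j => ?_
  have := (hL.rep (σ j)).fin
  have hU : ∀ᵐ p ∂(lam (σ j)), p ∈ Ub m 1 := mem_ae_iff.2 (hL.rep (σ j)).null
  simp only [Function.comp_apply]
  have hint2 : Integrable (fun p => g ⟪zt m p, v⟫ * ⟪zt m p, v⟫ *
      ⟪ω (px p) • gw m (px p), px (ν (σ j) p)⟫) (lam (σ j)) := by
    obtain ⟨M', hM'0, hM'⟩ := dirK_bound hm0 hv hg.continuous hω
    obtain ⟨B, hB⟩ := hY.comp.exists_bound_of_continuous hY.diff.continuous
    obtain ⟨M1, hM1⟩ := (isCompact_Icc (a := (-1 : ℝ)) (b := 1)).exists_bound_of_continuousOn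
      hg.continuous.continuousOn
    have hM10 : 0 ≤ M1 := (norm_nonneg _).trans (hM1 0 (by constructor <;> norm_num))
    have hB0 : 0 ≤ B := (norm_nonneg _).trans (hB 0)
    refine Integrable.of_bound ?_ (M1 * 1 * B) ?_
    · refine Measurable.aestronglyMeasurable ?_
      have hmi : Measurable fun p : E (2 + m) => (⟪zt m p, v⟫ : ℝ) :=
        (dir_measurable_zt m).inner measurable_const
      refine ((hg.continuous.measurable.comp hmi).mul hmi).mul ?_
      exact (hY.diff.continuous.measurable.comp measurable_px).inner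
        (measurable_px.comp (hL.rep (σ j)).meas)
    · filter_upwards [hU] with p hp
      have h5 := dir_abs_inner_le hm0 hv hp
      rw [norm_mul, norm_mul]
      refine mul_le_mul (mul_le_mul (hM1 _ (abs_le.1 h5)) h5 (abs_nonneg _) hM10) ?_
        (norm_nonneg _) (by positivity)
      refine (norm_inner_le_norm (𝕜 := ℝ) _ _).trans ?_
      have h6 : ‖px (ν (σ j) p)‖ ≤ 1 := (norm_px_le _).trans ((hL.rep (σ j)).unit p).le
      calc ‖ω (px p) • gw m (px p)‖ * ‖px (ν (σ j) p)‖ ≤ B * 1 :=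
            mul_le_mul (hB _) h6 (norm_nonneg _) hB0
        _ = B := mul_one _
  have h4 : (∫ p, g ⟪zt m p, v⟫ * ψ (px p) *
      ((⟪zt m p, v⟫ * ⟪px (ν (σ j) p), gw m (px p)⟫ - (ε (σ j))⁻¹ * ⟪pz (ν (σ j) p), v⟫) /
        wp m ‖px p‖) ∂(lam (σ j))) =
      (∫ p, g ⟪zt m p, v⟫ * ⟪zt m p, v⟫ *
        ⟪ω (px p) • gw m (px p), px (ν (σ j) p)⟫ ∂(lam (σ j))) -
      ∫ p, dirK m v g ω p * ((ε (σ j))⁻¹ * ⟪v, pz (ν (σ j) p)⟫) ∂(lam (σ j)) := by
    rw [← integral_sub hint2 (hint j v)]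
    refine integral_congr_ae (ae_of_all _ fun p => ?_)
    simp only [dirK, real_inner_smul_left, hωdef]
    rw [real_inner_comm (gw m (px p)) (px (ν (σ j) p)),
      real_inner_comm v (pz (ν (σ j) p))]
    ring
  rw [h4, sub_sub_cancel, ← integral_add (hint j v) (hint j _)]
  refine integral_congr_ae (ae_of_all _ fun p => ?_)
  simp only
  rw [inner_sub_left]
  ring

theorem dir_key (hPC : Stmt_ProdConv) (hm : 2 ≤ m) (hL : LimD m ε F F0 lam ν)
    (hW : ∀ (v : E m) (g : ℝ → ℝ) (ψ : ℂ → ℝ), ‖v‖ = 1 → ContDiff ℝ 1 g → ContDiff ℝ 2 ψ →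
      HasCompactSupport ψ → tsupport ψ ⊆ Dp m →
      Tendsto (fun j => ∫ p, g ⟪zt m p, v⟫ * ψ (px p) *
        ((⟪zt m p, v⟫ * ⟪px (ν j p), gw m (px p)⟫ - (ε j)⁻¹ * ⟪pz (ν j p), v⟫) / wp m ‖px p‖)
          ∂(lam j)) atTop (𝓝 0))
    (hmono : ∀ j, ∃ e : E (2 + m), e ≠ 0 ∧
      ∀ x ∈ F j, ∀ s : ℝ, 0 ≤ s → x + s • e ∈ Ub m 1 → x + s • e ∈ F j) :
    ∃ (a b : ℝ) (h : ℂ) (v : E m), 0 ≤ a ∧ 0 ≤ b ∧ a + b = 1 ∧ ‖h‖ = 1 ∧ ‖v‖ = 1 ∧
      ∀ (g : ℝ → ℝ) (ψ : ℂ → ℝ), ContDiff ℝ 1 g → (∀ t, 0 ≤ g t) → dirF m 2 ψ →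
        (∀ c, 0 ≤ ψ c) →
        a * ((∫ ζ in Metric.ball (0 : E m) 1, g ⟪ζ, v⟫) *
          ∫ c in F0, dvW m (fun c => (ψ c / wp m ‖c‖) • h) c) +
        b * ((∫ ζ in Metric.ball (0 : E m) 1, g ⟪ζ, v⟫ * ⟪ζ, v⟫) *
          ∫ c in F0, dvW m (fun c => (ψ c / wp m ‖c‖) • gw m c) c) ≤ 0 := by
  have hm0 : 0 < m := by omega
  choose e he0 he using hmono
  have hn := fun j => dir_norm_e hm (hL.eps_pos j) (e j) (he0 j)
  choose s q hs hq hq1 hqe using hn
  have hcomp : IsCompact ((Icc (0 : ℝ) 1 ×ˢ Icc (0 : ℝ) 1) ×ˢ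
      (Metric.sphere (0 : ℂ) 1 ×ˢ Metric.sphere (0 : E m) 1)) :=
    (isCompact_Icc.prod isCompact_Icc).prod ((isCompact_sphere _ _).prod (isCompact_sphere _ _))
  obtain ⟨q0, hq0, σ, hσ, hlim⟩ := hcomp.tendsto_subseq hq
  obtain ⟨⟨ha, hb⟩, ⟨hh, hv⟩⟩ := hq0
  have hh' : ‖q0.2.1‖ = 1 := by simpa using hh
  have hv' : ‖q0.2.2‖ = 1 := by simpa using hv
  have hla : Tendsto (fun j => (q (σ j)).1.1) atTop (𝓝 q0.1.1) :=
    ((continuous_fst.fst).tendsto q0).comp hlim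
  have hlb : Tendsto (fun j => (q (σ j)).1.2) atTop (𝓝 q0.1.2) :=
    ((continuous_fst.snd).tendsto q0).comp hlim
  have hlh : Tendsto (fun j => (q (σ j)).2.1) atTop (𝓝 q0.2.1) :=
    ((continuous_snd.fst).tendsto q0).comp hlim
  have hlv : Tendsto (fun j => (q (σ j)).2.2) atTop (𝓝 q0.2.2) :=
    ((continuous_snd.snd).tendsto q0).comp hlim
  refine ⟨q0.1.1, q0.1.2, q0.2.1, q0.2.2, ha.1, hb.1, ?_, hh', hv', ?_⟩
  · exact tendsto_nhds_unique (hla.add hlb) (by simp only [hq1]; exact tendsto_const_nhds)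
  intro g ψ hg hg0 hψ hψ0
  have hω : dirF m 1 (fun c => ψ c / wp m ‖c‖) := (hψ.div_wp hm0).mono (by norm_num)
  have hω0 : ∀ c, 0 ≤ (fun c => ψ c / wp m ‖c‖) c := fun c =>
    div_nonneg (hψ0 c) (wp_nonneg _ _)
  have hT1 := dir_T1 hPC hm hL hv' hg hω hσ hlh
  have hT2 := dir_T2 hPC hm hL hv' hg hψ
    (hW _ g ψ hv' hg hψ.diff hψ.comp hψ.supp) hσ hlv
  refine le_of_tendsto' ((hla.mul hT1).add (hlb.mul hT2)) fun j => ?_
  have hrep := hL.rep (σ j)
  have := hrep.fin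
  have hU : ∀ᵐ p ∂(lam (σ j)), p ∈ Ub m 1 := mem_ae_iff.2 hrep.null
  obtain ⟨M, hM0, hM⟩ := dirK_bound hm0 hv' hg.continuous hω
  have hineq := dir_ineq hm0 (hL.eps_pos (σ j)) (hL.meas (σ j)) (hL.sub (σ j)) hrep
    (he (σ j)) hv' hg hg0 hω hω0
  set ω : ℂ → ℝ := fun c => ψ c / wp m ‖c‖ with hωdef
  have hbd : ∀ (f : E (2 + m) → ℝ) (C : ℝ), Measurable f → (∀ p, |f p| ≤ C) →
      Integrable (fun p => dirK m q0.2.2 g ω p * f p) (lam (σ j)) := by
    intro f C hf hfC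
    refine Integrable.of_bound ((dirK_measurable hg.continuous
      hω.diff.continuous).mul hf).aestronglyMeasurable (M * C) ?_
    filter_upwards [hU] with p hp
    rw [norm_mul]
    exact mul_le_mul (hM p hp) (hfC p) (norm_nonneg _) hM0
  have hi1 : Integrable (fun p => dirK m q0.2.2 g ω p * ⟪(q (σ j)).2.1, px (ν (σ j) p)⟫)
      (lam (σ j)) := by
    refine hbd _ (‖(q (σ j)).2.1‖ * 1)
      (measurable_const.inner (measurable_px.comp hrep.meas)) fun p => ?_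
    refine (abs_real_inner_le_norm _ _).trans ?_
    exact mul_le_mul_of_nonneg_left ((norm_px_le _).trans (hrep.unit p).le) (norm_nonneg _)
  have hi2 : Integrable (fun p => dirK m q0.2.2 g ω p *
      ((ε (σ j))⁻¹ * ⟪(q (σ j)).2.2, pz (ν (σ j) p)⟫)) (lam (σ j)) := by
    refine hbd _ (|(ε (σ j))⁻¹| * (‖(q (σ j)).2.2‖ * 1))
      ((measurable_const.inner (measurable_pz.comp hrep.meas)).const_mul _) fun p => ?_
    rw [abs_mul]
    refine mul_le_mul_of_nonneg_left ?_ (abs_nonneg _)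
    refine (abs_real_inner_le_norm _ _).trans ?_
    exact mul_le_mul_of_nonneg_left ((norm_pz_le _).trans (hrep.unit p).le) (norm_nonneg _)
  have hsplit : (∫ p, dirK m q0.2.2 g ω p * ⟪Ls (ε (σ j)) (e (σ j)), ν (σ j) p⟫ ∂(lam (σ j))) =
      s (σ j) * ((q (σ j)).1.1 *
        (∫ p, dirK m q0.2.2 g ω p * ⟪(q (σ j)).2.1, px (ν (σ j) p)⟫ ∂(lam (σ j))) +
        (q (σ j)).1.2 * ∫ p, dirK m q0.2.2 g ω p *
          ((ε (σ j))⁻¹ * ⟪(q (σ j)).2.2, pz (ν (σ j) p)⟫) ∂(lam (σ j))) := by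
    rw [← integral_const_mul, ← integral_const_mul,
      ← integral_add (hi1.const_mul _) (hi2.const_mul _), ← integral_const_mul]
    refine integral_congr_ae (ae_of_all _ fun p => ?_)
    simp only
    rw [hqe, real_inner_smul_left, inner_split, px_jn, pz_jn, real_inner_smul_left,
      real_inner_smul_left]
    ring
  rw [hsplit] at hineq
  by_contra hcon
  push Not at hcon
  exact absurd hineq (not_le.2 (mul_pos (hs (σ j)) hcon))

end limits

/-! ### Integrals over the ball -/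

theorem dir_ball_neg {m : ℕ} (f : E m → ℝ) :
    ∫ ζ in Metric.ball (0 : E m) 1, f (-ζ) = ∫ ζ in Metric.ball (0 : E m) 1, f ζ := by
  have h := (Measure.measurePreserving_neg (volume : Measure (E m))).setIntegral_preimage_emb
    (MeasurableEquiv.neg (E m)).measurableEmbedding f (Metric.ball 0 1)
  have h2 : (fun x : E m => -x) ⁻¹' Metric.ball 0 1 = Metric.ball 0 1 := by
    ext x; simp
  rw [show (Neg.neg : E m → E m) ⁻¹' Metric.ball 0 1 = Metric.ball 0 1 from h2] at h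
  exact h

theorem dir_ball_odd {m : ℕ} (f : E m → ℝ) (hf : ∀ ζ, f (-ζ) = -f ζ) :
    ∫ ζ in Metric.ball (0 : E m) 1, f ζ = 0 := by
  have h := dir_ball_neg f
  simp only [hf] at h
  rw [integral_neg] at h
  linarith

theorem dir_ball_int {m : ℕ} {f : E m → ℝ} (hf : Continuous f) :
    IntegrableOn f (Metric.ball (0 : E m) 1) :=
  (hf.continuousOn.integrableOn_compact (isCompact_closedBall (0 : E m) 1)).mono_set
    Metric.ball_subset_closedBall

theorem dir_ball_sq_pos {m : ℕ} {v : E m} (hv : ‖v‖ = 1) :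
    0 < ∫ ζ in Metric.ball (0 : E m) 1, ⟪ζ, v⟫ ^ 2 := by
  have hcont : Continuous (fun ζ : E m => (⟪ζ, v⟫ : ℝ) ^ 2) :=
    (continuous_id.inner continuous_const).pow 2
  rw [setIntegral_pos_iff_support_of_nonneg_ae (ae_of_all _ fun ζ => sq_nonneg _)
    (dir_ball_int hcont)]
  refine ((hcont.isOpen_support).inter Metric.isOpen_ball).measure_pos _ ?_
  refine ⟨(1 / 2 : ℝ) • v, ?_, ?_⟩
  · rw [Function.mem_support, real_inner_smul_left, real_inner_self_eq_norm_sq, hv]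
    norm_num
  · rw [mem_ball_zero_iff, norm_smul, hv]
    norm_num

/-! ### Divergences -/

theorem dir_dvc_smul {φ : ℂ → ℝ} (hφ : Differentiable ℝ φ) (h c : ℂ) :
    dvc (fun c => φ c • h) c = fderiv ℝ φ c h := by
  have h1 : fderiv ℝ (fun c => φ c • h) c = (fderiv ℝ φ c).smulRight h := by
    rw [fderiv_smul_const (hφ c)]
  rw [dvc, h1]
  simp only [ContinuousLinearMap.smulRight_apply, Complex.real_smul, Complex.mul_re,
    Complex.ofReal_re, Complex.ofReal_im, zero_mul, sub_zero, Complex.mul_im, add_zero]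
  have h2 : h = h.re • (1 : ℂ) + h.im • Complex.I := by
    apply Complex.ext <;> simp
  conv_rhs => rw [h2, map_add, map_smul, map_smul]
  simp only [smul_eq_mul]
  ring

theorem dir_dvc_neg (Y : ℂ → ℂ) (c : ℂ) : dvc (fun c => -Y c) c = -dvc Y c := by
  have h1 : fderiv ℝ (fun c => -Y c) c = -fderiv ℝ Y c := fderiv_neg
  rw [dvc, dvc, h1]
  simp only [neg_apply, Complex.neg_re, Complex.neg_im]
  ring

theorem dir_dvc_add {Y Z : ℂ → ℂ} (hY : Differentiable ℝ Y) (hZ : Differentiable ℝ Z) (c : ℂ) :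
    dvc (fun c => Y c + Z c) c = dvc Y c + dvc Z c := by
  have h1 : fderiv ℝ (fun c => Y c + Z c) c = fderiv ℝ Y c + fderiv ℝ Z c :=
    fderiv_add (hY c) (hZ c)
  rw [dvc, dvc, dvc, h1]
  simp only [add_apply, Complex.add_re, Complex.add_im]
  ring

theorem dir_dvc_int {D : Set ℂ} {Y : ℂ → ℂ} (hY : TFc D Y) : Integrable (dvc Y) := by
  have hd : Continuous (fderiv ℝ Y) := hY.diff.continuous_fderiv (by norm_num)
  have hc : Continuous (dvc Y) := by
    unfold dvc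
    exact (Complex.continuous_re.comp (hd.clm_apply continuous_const)).add
      (Complex.continuous_im.comp (hd.clm_apply continuous_const))
  refine hc.integrable_of_hasCompactSupport ?_
  refine (hY.comp.fderiv (𝕜 := ℝ)).mono ?_
  intro c hc'
  simp only [Function.mem_support, ne_eq] at hc' ⊢
  intro h0
  apply hc'
  rw [dvc, h0]
  simp

/-- A bump function. -/
theorem dir_bump {m : ℕ} {K : Set ℂ} (hK : IsCompact K) (hKD : K ⊆ Dp m) :
    ∃ β : ℂ → ℝ, dirF m 2 β ∧ (∀ c, 0 ≤ β c) ∧ ∀ c ∈ K, β c = 1 := by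
  have hD : IsOpen (Dp m) := Metric.isOpen_ball.sdiff isClosed_singleton
  obtain ⟨L, hL, hKL, hLD⟩ := exists_compact_between hK hD hKD
  obtain ⟨f, hf1, hf0, hf⟩ := exists_contMDiffMap_one_nhds_of_subset_interior
    (𝓘(ℝ, ℂ)) (n := 2) hK.isClosed hKL
  have hsupp : tsupport f ⊆ L := by
    refine closure_minimal ?_ hL.isClosed
    intro c hc
    by_contra hcL
    exact hc (hf0 c hcL)
  refine ⟨f, ⟨?_, hL.of_isClosed_subset (isClosed_tsupport _) hsupp, hsupp.trans hLD⟩,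
    fun c => (hf c).1, fun c hc => ?_⟩
  · exact f.contMDiff.contDiff
  · exact (hf1.self_of_nhdsSet c hc)

theorem dir_rad_field {m : ℕ} {φ : ℂ → ℝ} (h : dirF m 2 φ) :
    TFc (Dp m) (fun c => ((φ c / ‖c‖ : ℝ) : ℂ) * c) := by
  have h1 := (h.mono (n' := 1) (by norm_num)).field (G := fun c => (‖c‖⁻¹ : ℝ) • c) fun c hc => by
    have hc0 : c ≠ 0 := by simpa using hc.2
    have h2 : ContDiffAt ℝ 1 (fun c : ℂ => ‖c‖⁻¹) c :=
      (contDiffAt_norm ℝ hc0).inv (by simpa using hc0)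
    exact h2.smul contDiffAt_id
  refine Eq.subst (motive := fun f => TFc (Dp m) f) (funext fun c => ?_) h1
  rw [smul_smul, Complex.real_smul, div_eq_mul_inv]

/-- Passage from nonnegative functions to general functions. -/
theorem dir_rad_of_nonneg {m : ℕ} {A : Set ℂ}
    (h : ∀ φ, dirF m 2 φ → (∀ c, 0 ≤ φ c) →
      ∫ c in A, dvc (fun c => ((φ c / ‖c‖ : ℝ) : ℂ) * c) c = 0) : Rad m A := by
  intro φ hφ hc hs
  have hφF : dirF m 2 φ := ⟨hφ, hc, hs⟩
  obtain ⟨β, hβ, hβ0, hβ1⟩ := dir_bump hφF.comp.isCompact hs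
  obtain ⟨M, hM0, hM⟩ := hφF.bound
  have hβM : dirF m 2 (fun c => M * β c) := by
    have := hβ.mul (G := fun _ => M) fun c _ => contDiffAt_const
    simpa only [mul_comm] using this
  have hsum : dirF m 2 (fun c => φ c + M * β c) :=
    ⟨hφ.add hβM.diff, hc.add hβM.comp, (tsupport_add φ _).trans (union_subset hs hβM.supp)⟩
  have h1 := h _ hβM fun c => mul_nonneg hM0 (hβ0 c)
  have h2 := h _ hsum fun c => by
    by_cases hcs : c ∈ tsupport φ
    · rw [hβ1 c hcs]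
      have := (abs_le.1 (hM c)).1
      linarith
    · rw [image_eq_zero_of_notMem_tsupport hcs]
      have := mul_nonneg hM0 (hβ0 c)
      linarith
  have hR := dir_rad_field hφF
  have hRM := dir_rad_field hβM
  have h3 : ∀ c, dvc (fun c => (((φ c + M * β c) / ‖c‖ : ℝ) : ℂ) * c) c =
      dvc (fun c => ((φ c / ‖c‖ : ℝ) : ℂ) * c) c +
      dvc (fun c => ((M * β c / ‖c‖ : ℝ) : ℂ) * c) c := by
    intro c
    rw [← dir_dvc_add (hR.diff.differentiable (by norm_num))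
      (hRM.diff.differentiable (by norm_num))]
    congr 1
    funext d
    push_cast
    ring
  rw [integral_congr_ae (ae_of_all _ h3),
    integral_add (dir_dvc_int hR).integrableOn (dir_dvc_int hRM).integrableOn, h1, add_zero] at h2
  exact h2

/-! ### The result -/

theorem dir_Wp_pos {m : ℕ} (hm : 0 < m) {c : ℂ} (hc : c ∈ Dp m) : 0 < Wp m ‖c‖ :=
  pow_pos (dir_wp_pos hm hc) _

theorem dirF.Wp_inv {m : ℕ} (hm : 0 < m) {φ : ℂ → ℝ} (h : dirF m 2 φ) (r : ℝ) :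
    dirF m 2 (fun c => φ c * (r * wp m ‖c‖ * (Wp m ‖c‖)⁻¹)) := by
  refine h.mul fun c hc => ?_
  have h1 : ContDiffAt ℝ 2 (fun c : ℂ => wp m ‖c‖) c := dir_wp_contDiffAt hm hc
  have h2 : ContDiffAt ℝ 2 (fun c : ℂ => Wp m ‖c‖) c := h1.pow m
  exact (contDiffAt_const.mul h1).mul (h2.inv (dir_Wp_pos hm hc).ne')

theorem dir_cancel {m : ℕ} (hm : 0 < m) {φ : ℂ → ℝ} (h : dirF m 2 φ) (r : ℝ) (c : ℂ) :
    Wp m ‖c‖ * (φ c * (r * wp m ‖c‖ * (Wp m ‖c‖)⁻¹) / wp m ‖c‖) = r * φ c := by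
  by_cases hc : c ∈ Dp m
  · have h1 := dir_wp_pos hm hc
    have h2 := dir_Wp_pos hm hc
    field_simp
  · rw [h.zero hc]
    simp

theorem dir (h1 : Stmt_ProdConv) : Stmt_Dir := by
  intro m ε F F0 lam ν hm hL hW hmono
  have hm0 : 0 < m := by omega
  obtain ⟨a, b, h, v, ha, hb, hab, hh, hv, hkey⟩ := dir_key h1 hm hL hW hmono
  rcases ha.lt_or_eq with ha' | ha'
  · left
    refine ⟨h, by rintro rfl; simp at hh, ?_⟩
    intro φ hφ hc hs hφ0
    have hφF : dirF m 2 φ := ⟨hφ, hc, hs⟩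
    have hk := hkey (fun _ => 1) _ contDiff_const (fun _ => zero_le_one) (hφF.Wp_inv hm0 1)
      (fun c => mul_nonneg (hφ0 c) (mul_nonneg (mul_nonneg zero_le_one (wp_nonneg _ _))
        (inv_nonneg.2 (pow_nonneg (wp_nonneg _ _) _))))
    have h2 : ∫ ζ in Metric.ball (0 : E m) 1, (1 : ℝ) * ⟪ζ, v⟫ = 0 :=
      dir_ball_odd _ fun ζ => by rw [inner_neg_left]; ring
    have h3 : ∫ ζ in Metric.ball (0 : E m) 1, (1 : ℝ) = omr m := by
      rw [setIntegral_const, smul_eq_mul, mul_one]; rfl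
    rw [h2, zero_mul, mul_zero, add_zero, h3] at hk
    have h4 : ∀ c, dvW m (fun c => (φ c * (1 * wp m ‖c‖ * (Wp m ‖c‖)⁻¹) / wp m ‖c‖) • h) c =
        fderiv ℝ φ c h := by
      intro c
      rw [← dir_dvc_smul (hφ.differentiable (by norm_num)) h c, dvW]
      congr 1
      funext d
      rw [Complex.real_smul, ← mul_assoc, ← Complex.ofReal_mul, dir_cancel hm0 hφF, one_mul,
        Complex.real_smul]
    rw [integral_congr_ae (ae_of_all _ h4)] at hk
    by_contra hcon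
    push Not at hcon
    exact absurd hk (not_le.2 (mul_pos ha' (mul_pos (omr_pos m) hcon)))
  · right
    have hb1 : b = 1 := by linarith
    refine dir_rad_of_nonneg fun φ hφF hφ0 => ?_
    have hψ := hφF.Wp_inv hm0 (m : ℝ)
    have hψ0 : ∀ c, 0 ≤ φ c * ((m : ℝ) * wp m ‖c‖ * (Wp m ‖c‖)⁻¹) := fun c =>
      mul_nonneg (hφ0 c) (mul_nonneg (mul_nonneg (by positivity) (wp_nonneg _ _))
        (inv_nonneg.2 (pow_nonneg (wp_nonneg _ _) _)))
    have hk1 := hkey (fun t => (1 + t) ^ 2) _ (by fun_prop) (fun _ => sq_nonneg _) hψ hψ0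
    have hk2 := hkey (fun t => (1 - t) ^ 2) _ (by fun_prop) (fun _ => sq_nonneg _) hψ hψ0
    have hcont : Continuous (fun ζ : E m => (⟪ζ, v⟫ : ℝ)) := continuous_id.inner continuous_const
    have hc1 : ∫ ζ in Metric.ball (0 : E m) 1, (1 + ⟪ζ, v⟫) ^ 2 * ⟪ζ, v⟫ =
        2 * ∫ ζ in Metric.ball (0 : E m) 1, ⟪ζ, v⟫ ^ 2 := by
      have h5 : ∀ ζ : E m, (1 + ⟪ζ, v⟫) ^ 2 * ⟪ζ, v⟫ =
          (⟪ζ, v⟫ + ⟪ζ, v⟫ ^ 3) + 2 * ⟪ζ, v⟫ ^ 2 := fun ζ => by ring
      rw [integral_congr_ae (ae_of_all _ h5), integral_add (dir_ball_int (by fun_prop))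
        (dir_ball_int (by fun_prop)), integral_const_mul,
        dir_ball_odd (fun ζ => ⟪ζ, v⟫ + ⟪ζ, v⟫ ^ 3) fun ζ => by rw [inner_neg_left]; ring,
        zero_add]
    have hc2 : ∫ ζ in Metric.ball (0 : E m) 1, (1 - ⟪ζ, v⟫) ^ 2 * ⟪ζ, v⟫ =
        -(2 * ∫ ζ in Metric.ball (0 : E m) 1, ⟪ζ, v⟫ ^ 2) := by
      have h5 : ∀ ζ : E m, (1 - ⟪ζ, v⟫) ^ 2 * ⟪ζ, v⟫ =
          (⟪ζ, v⟫ + ⟪ζ, v⟫ ^ 3) - 2 * ⟪ζ, v⟫ ^ 2 := fun ζ => by ring
      rw [integral_congr_ae (ae_of_all _ h5), integral_sub (dir_ball_int (by fun_prop))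
        (dir_ball_int (by fun_prop)), integral_const_mul,
        dir_ball_odd (fun ζ => ⟪ζ, v⟫ + ⟪ζ, v⟫ ^ 3) fun ζ => by rw [inner_neg_left]; ring,
        zero_sub]
    have h4 : ∀ c, dvW m (fun c => (φ c * ((m : ℝ) * wp m ‖c‖ * (Wp m ‖c‖)⁻¹) / wp m ‖c‖) •
        gw m c) c = -dvc (fun c => ((φ c / ‖c‖ : ℝ) : ℂ) * c) c := by
      intro c
      rw [← dir_dvc_neg, dvW]
      congr 1
      funext d
      rw [Complex.real_smul, ← mul_assoc, ← Complex.ofReal_mul, dir_cancel hm0 hφF, dir_gw_eq,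
        Complex.real_smul]
      have hm1 : (m : ℂ) ≠ 0 := by exact_mod_cast hm0.ne'
      push_cast
      field_simp
    rw [← ha', zero_mul, zero_add, hb1, one_mul, hc1, integral_congr_ae (ae_of_all _ h4),
      integral_neg] at hk1
    rw [← ha', zero_mul, zero_add, hb1, one_mul, hc2, integral_congr_ae (ae_of_all _ h4),
      integral_neg] at hk2
    have hpos := dir_ball_sq_pos hv
    set Q := ∫ ζ in Metric.ball (0 : E m) 1, ⟪ζ, v⟫ ^ 2
    set D := ∫ c in F0, dvc (fun c => ((φ c / ‖c‖ : ℝ) : ℂ) * c) c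
    nlinarith

end Pool.Agent.Lib.MP_c95dcf_gt
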