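import Pool.Agent.Lib.MP_c95dcf_gt.GStmts

/-!
# MP_c95dcf_gt, G21: perimeter of a half space in the unit ball
-/

set_option autoImplicit false

open MeasureTheory Set Filter Topology
open scoped ENNReal NNReal RealInnerProductSpace

namespace Pool.Agent.Lib.MP_c95dcf_gt

/-- The map `(t, z) ↦ (t, z)` from `ℝ × E m` to `E (m + 1)`. -/
noncomputable def halfPer_psi (m : ℕ) (p : ℝ × E m) : E (m + 1) :=
  WithLp.toLp 2 (Fin.cons p.1 (fun j => p.2 j) : Fin (m + 1) → ℝ)

theorem halfPer_psi_zero (m : ℕ) (p : ℝ × E m) : halfPer_psi m p 0 = p.1 := by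
  simp [halfPer_psi]

theorem halfPer_psi_succ (m : ℕ) (p : ℝ × E m) (j : Fin m) : halfPer_psi m p j.succ = p.2 j := by
  simp [halfPer_psi]

theorem halfPer_psi_inj (m : ℕ) : Function.Injective (halfPer_psi m) := by
  intro p q h
  ext1
  · rw [← halfPer_psi_zero m p, h, halfPer_psi_zero]
  · ext j
    rw [← halfPer_psi_succ m p, h, halfPer_psi_succ]

theorem halfPer_psi_cont (m : ℕ) : Continuous (halfPer_psi m) := by
  unfold halfPer_psi
  refine (PiLp.continuous_toLp 2 _).comp ?_
  refine continuous_pi fun i => ?_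
  refine Fin.cases ?_ (fun j => ?_) i
  · simpa using continuous_fst
  · simp only [Fin.cons_succ]
    fun_prop

theorem halfPer_psi_mp (m : ℕ) : MeasurePreserving (halfPer_psi m) := by
  have h1 := PiLp.volume_preserving_toLp (Fin (m + 1))
  have h2 := (volume_preserving_piFinSuccAbove (fun _ : Fin (m + 1) => ℝ) 0).symm
  have h3 : MeasurePreserving (Prod.map (id : ℝ → ℝ) (@WithLp.ofLp 2 (Fin m → ℝ))) :=
    (MeasurePreserving.id _).prod (PiLp.volume_preserving_ofLp (Fin m))
  have h := h1.comp (h2.comp h3)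
  convert h using 1
  ext p i
  refine Fin.cases ?_ (fun j => ?_) i
  · simp [halfPer_psi, MeasurableEquiv.piFinSuccAbove]
  · simp [halfPer_psi, MeasurableEquiv.piFinSuccAbove]

theorem halfPer_psi_emb (m : ℕ) : MeasurableEmbedding (halfPer_psi m) :=
  (halfPer_psi_cont m).measurableEmbedding (halfPer_psi_inj m)

theorem halfPer_psi_norm (m : ℕ) (z : E m) : ‖halfPer_psi m (0, z)‖ = ‖z‖ := by
  rw [EuclideanSpace.norm_eq, EuclideanSpace.norm_eq, Fin.sum_univ_succ]
  simp [halfPer_psi_zero, halfPer_psi_succ]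

theorem halfPer_psi_add (m : ℕ) (t : ℝ) (z : E m) :
    halfPer_psi m (t, z) = halfPer_psi m (0, z) + t • EuclideanSpace.single 0 (1 : ℝ) := by
  ext i
  refine Fin.cases ?_ (fun j => ?_) i
  · simp [halfPer_psi_zero]
  · simp [halfPer_psi_succ]

/-- The main computation. -/
theorem halfPer_calc (m : ℕ) (h : E (m + 1) → ℝ) (hC : ContDiff ℝ 1 h)
    (hs : HasCompactSupport h) :
    ∫ x in {x : E (m + 1) | 0 < x 0}, -(fderiv ℝ h x (EuclideanSpace.single 0 (1 : ℝ))) =
      ∫ z : E m, h (halfPer_psi m (0, z)) := by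
  set g : E (m + 1) → ℝ := fun x => -(fderiv ℝ h x (EuclideanSpace.single 0 (1 : ℝ))) with hg
  have hgc : Continuous g := by
    have := hC.continuous_fderiv (by norm_num)
    fun_prop
  have hgs : HasCompactSupport g := by
    have h1 : HasCompactSupport (fun x => fderiv ℝ h x (EuclideanSpace.single 0 (1 : ℝ))) :=
      hs.fderiv_apply ℝ _
    exact h1.neg
  have hgi : Integrable g := hgc.integrable_of_hasCompactSupport hgs
  have hset : (halfPer_psi m) ⁻¹' {x : E (m + 1) | 0 < x 0} = Ioi (0 : ℝ) ×ˢ univ := by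
    ext p
    simp [halfPer_psi_zero]
  rw [← (halfPer_psi_mp m).setIntegral_preimage_emb (halfPer_psi_emb m), hset]
  have hint : Integrable (fun p : ℝ × E m => g (halfPer_psi m p)) :=
    ((halfPer_psi_mp m).integrable_comp_emb (halfPer_psi_emb m)).2 hgi
  have e1 : (volume : Measure (ℝ × E m)).restrict (Ioi (0 : ℝ) ×ˢ univ) =
      ((volume : Measure ℝ).restrict (Ioi 0)).prod volume := by
    rw [Measure.volume_eq_prod, ← Measure.prod_restrict, Measure.restrict_univ]
  have hint2 : Integrable (fun p : ℝ × E m => g (halfPer_psi m p))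
      (((volume : Measure ℝ).restrict (Ioi 0)).prod volume) := by
    rw [← e1]
    exact hint.restrict
  rw [e1, integral_prod_symm _ hint2]
  refine integral_congr_ae (Eventually.of_forall fun z => ?_)
  simp only
  have hline : ∀ t, HasDerivAt (fun t : ℝ => h (halfPer_psi m (t, z)))
      (-g (halfPer_psi m (t, z))) t := by
    intro t
    have h1 : HasDerivAt (fun t : ℝ => halfPer_psi m (t, z)) (EuclideanSpace.single 0 (1 : ℝ)) t := by
      have : (fun t : ℝ => halfPer_psi m (t, z)) =
          fun t : ℝ => halfPer_psi m (0, z) + t • EuclideanSpace.single 0 (1 : ℝ) := by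
        funext t
        exact halfPer_psi_add m t z
      rw [this]
      have h2 := ((hasDerivAt_id t).smul_const (EuclideanSpace.single (0 : Fin (m + 1)) (1 : ℝ))).const_add
        (halfPer_psi m (0, z))
      simpa using h2
    have h3 := ((hC.differentiable (by norm_num)) (halfPer_psi m (t, z))).hasFDerivAt.comp_hasDerivAt t h1
    have h4 : -g (halfPer_psi m (t, z)) =
        (fderiv ℝ h (halfPer_psi m (t, z))) (EuclideanSpace.single 0 1) := by
      simp [hg]
    rw [h4]
    exact h3
  have hcd : ContDiff ℝ 1 (fun t : ℝ => h (halfPer_psi m (t, z))) := by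
    have : (fun t : ℝ => h (halfPer_psi m (t, z))) =
        fun t : ℝ => h (halfPer_psi m (0, z) + t • EuclideanSpace.single 0 (1 : ℝ)) := by
      funext t
      rw [halfPer_psi_add m t z]
    rw [this]
    fun_prop
  have hcs : HasCompactSupport (fun t : ℝ => h (halfPer_psi m (t, z))) := by
    refine HasCompactSupport.of_support_subset_isCompact
      (K := (fun x : E (m + 1) => x 0) '' tsupport h) ?_ ?_
    · exact hs.isCompact.image (by fun_prop)
    · intro t ht
      refine ⟨halfPer_psi m (t, z), subset_tsupport h ht, ?_⟩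
      simp [halfPer_psi_zero]
  have hfin := hcs.integral_Ioi_deriv_eq hcd 0
  have hder : deriv (fun t : ℝ => h (halfPer_psi m (t, z))) = fun t => -g (halfPer_psi m (t, z)) := by
    funext t
    exact (hline t).deriv
  rw [hder, integral_neg] at hfin
  linarith

theorem halfPer : Stmt_HalfPer := by
  intro n e hn he
  obtain ⟨m, rfl⟩ : ∃ m, n = m + 1 := ⟨n - 1, by omega⟩
  simp only [Nat.add_sub_cancel]
  -- an isometry sending the first basis vector to `e`
  obtain ⟨b, hb⟩ : ∃ b : OrthonormalBasis (Fin (m + 1)) ℝ (E (m + 1)), b 0 = e := by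
    have hv : Orthonormal ℝ (({0} : Set (Fin (m + 1))).restrict (fun _ => e)) := by
      refine ⟨fun i => he, ?_⟩
      intro i j hij
      exact absurd (Subsingleton.elim i j) hij
    obtain ⟨b, hb⟩ := hv.exists_orthonormalBasis_extension_of_card_eq (by simp)
    exact ⟨b, hb 0 (by simp)⟩
  set L : E (m + 1) ≃ₗᵢ[ℝ] E (m + 1) := b.repr.symm with hL
  have hL0 : L (EuclideanSpace.single 0 (1 : ℝ)) = e := by
    rw [hL, OrthonormalBasis.repr_symm_single, hb]
  have hkey : ∀ r : ℝ, 0 < r → r < 1 → ENNReal.ofReal (r ^ m) * om m ≤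
      Per (Metric.ball (0 : E (m + 1)) 1) {x | 0 < ⟪x, e⟫} := by
    intro r hr0 hr1
    let f : ContDiffBump (0 : E (m + 1)) := ⟨r, (1 + r) / 2, hr0, by linarith⟩
    have hfC : ContDiff ℝ 1 (f : E (m + 1) → ℝ) := f.contDiff
    have hfs : HasCompactSupport (f : E (m + 1) → ℝ) := f.hasCompactSupport
    have hft : tsupport (f : E (m + 1) → ℝ) ⊆ Metric.ball 0 1 := by
      rw [f.tsupport_eq]
      exact Metric.closedBall_subset_ball (by show (1 + r) / 2 < 1; linarith)
    set X : E (m + 1) → E (m + 1) := fun x => -(f x) • e with hX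
    have hXs : tsupport X ⊆ tsupport (f : E (m + 1) → ℝ) := by
      refine closure_minimal ?_ (isClosed_tsupport _)
      intro x hx
      refine subset_tsupport _ ?_
      intro h0
      exact hx (by simp [hX, h0])
    have hTF : TF (Metric.ball (0 : E (m + 1)) 1) X := by
      refine ⟨?_, ?_, hXs.trans hft⟩
      · simp only [hX]
        fun_prop
      · exact hfs.isCompact.of_isClosed_subset (isClosed_tsupport _) hXs
    have hX1 : ∀ x, ‖X x‖ ≤ 1 := by
      intro x
      simp only [hX, norm_smul, he, norm_neg, mul_one, Real.norm_eq_abs]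
      rw [abs_of_nonneg f.nonneg]
      exact f.le_one
    have hdv : ∀ x, dv X x = -(fderiv ℝ (f : E (m + 1) → ℝ) x e) := by
      intro x
      have h1 : HasFDerivAt X ((-(fderiv ℝ (f : E (m + 1) → ℝ) x)).smulRight e) x := by
        have h2 := ((hfC.differentiable (by norm_num)) x).hasFDerivAt.neg.smul_const e
        simpa [hX] using h2
      unfold dv
      rw [h1.fderiv]
      simp only [ContinuousLinearMap.smulRight_apply, ContinuousLinearMap.neg_apply, PiLp.smul_apply,
        smul_eq_mul]
      have h3 : e = ∑ i, e i • EuclideanSpace.single i (1 : ℝ) := by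
        ext j
        simp [Finset.sum_apply, Pi.single_apply]
      conv_rhs => rw [h3]
      rw [map_sum, ← Finset.sum_neg_distrib]
      refine Finset.sum_congr rfl fun i _ => ?_
      rw [map_smul, smul_eq_mul]
      ring
    have hle : ENNReal.ofReal (∫ x in {x : E (m + 1) | 0 < ⟪x, e⟫}, dv X x) ≤
        Per (Metric.ball (0 : E (m + 1)) 1) {x | 0 < ⟪x, e⟫} := by
      unfold Per
      exact le_iSup₂ (f := fun (X : E (m + 1) → E (m + 1))
        (_ : TF (Metric.ball (0 : E (m + 1)) 1) X ∧ ∀ x, ‖X x‖ ≤ 1) =>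
          ENNReal.ofReal (∫ x in {x : E (m + 1) | 0 < ⟪x, e⟫}, dv X x)) X ⟨hTF, hX1⟩
    refine le_trans ?_ hle
    -- rotate
    have hmp : MeasurePreserving L := L.measurePreserving
    have hemb : MeasurableEmbedding L := L.toHomeomorph.measurableEmbedding
    rw [← hmp.setIntegral_preimage_emb hemb]
    have hpre : (L : E (m + 1) → E (m + 1)) ⁻¹' {x | 0 < ⟪x, e⟫} = {x : E (m + 1) | 0 < x 0} := by
      ext x
      simp only [mem_preimage, mem_setOf_eq]
      rw [← hL0, L.inner_map_map, EuclideanSpace.inner_single_right]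
      simp
    rw [hpre]
    set h : E (m + 1) → ℝ := fun x => f (L x) with hh
    have hhC : ContDiff ℝ 1 h := hfC.comp L.contDiff
    have hhs : HasCompactSupport h := hfs.comp_homeomorph L.toHomeomorph
    have hder : ∀ x, dv X (L x) = -(fderiv ℝ h x (EuclideanSpace.single 0 (1 : ℝ))) := by
      intro x
      rw [hdv]
      have h1 : HasFDerivAt h ((fderiv ℝ (f : E (m + 1) → ℝ) (L x)).comp
          (L : E (m + 1) →L[ℝ] E (m + 1))) x :=
        ((hfC.differentiable (by norm_num)) (L x)).hasFDerivAt.comp x L.hasFDerivAt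
      rw [h1.fderiv]
      simp [hL0]
    rw [setIntegral_congr_fun (g := fun x => -(fderiv ℝ h x (EuclideanSpace.single 0 (1 : ℝ))))
      (measurableSet_lt measurable_const (by fun_prop)) (fun x _ => hder x)]
    rw [halfPer_calc m h hhC hhs]
    have hnn : 0 ≤ᵐ[volume] fun z : E m => h (halfPer_psi m (0, z)) :=
      Eventually.of_forall fun z => f.nonneg
    have hcont : Continuous (fun z : E m => h (halfPer_psi m (0, z))) :=
      hhC.continuous.comp ((halfPer_psi_cont m).comp (by fun_prop))
    have hcs : HasCompactSupport (fun z : E m => h (halfPer_psi m (0, z))) := by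
      refine HasCompactSupport.of_support_subset_isCompact (K := Metric.closedBall 0 1)
        (isCompact_closedBall _ _) ?_
      intro z hz
      have h1 : L (halfPer_psi m (0, z)) ∈ Metric.ball (0 : E (m + 1)) 1 :=
        hft (subset_tsupport _ hz)
      rw [mem_ball_zero_iff, L.norm_map, halfPer_psi_norm] at h1
      rw [mem_closedBall_zero_iff]
      exact h1.le
    have hint : Integrable (fun z : E m => h (halfPer_psi m (0, z))) :=
      hcont.integrable_of_hasCompactSupport hcs
    rw [ofReal_integral_eq_lintegral_ofReal hint hnn]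
    have hball : ENNReal.ofReal (r ^ m) * om m = volume (Metric.ball (0 : E m) r) := by
      rw [Measure.addHaar_ball_of_pos _ _ hr0]
      simp [om]
    rw [hball]
    calc volume (Metric.ball (0 : E m) r) = ∫⁻ z in Metric.ball (0 : E m) r, 1 := by simp
      _ ≤ ∫⁻ z in Metric.ball (0 : E m) r, ENNReal.ofReal (h (halfPer_psi m (0, z))) := by
        refine setLIntegral_mono' measurableSet_ball fun z hz => ?_
        have h1 : L (halfPer_psi m (0, z)) ∈ Metric.closedBall (0 : E (m + 1)) r := by
          rw [mem_closedBall_zero_iff, L.norm_map, halfPer_psi_norm]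
          rw [mem_ball_zero_iff] at hz
          exact hz.le
        have h2 : h (halfPer_psi m (0, z)) = 1 := f.one_of_mem_closedBall h1
        rw [h2]
        simp
      _ ≤ ∫⁻ z, ENNReal.ofReal (h (halfPer_psi m (0, z))) := setLIntegral_le_lintegral _ _
  -- let r tend to 1
  have hlim : Tendsto (fun r : ℝ => ENNReal.ofReal (r ^ m) * om m) (𝓝[<] 1) (𝓝 (om m)) := by
    have h1 : Tendsto (fun r : ℝ => ENNReal.ofReal (r ^ m)) (𝓝[<] 1) (𝓝 1) := by
      have h2 : Tendsto (fun r : ℝ => ENNReal.ofReal (r ^ m)) (𝓝 1) (𝓝 (ENNReal.ofReal (1 ^ m))) :=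
        (ENNReal.continuous_ofReal.comp (continuous_pow m)).tendsto 1
      simp only [one_pow, ENNReal.ofReal_one] at h2
      exact h2.mono_left nhdsWithin_le_nhds
    have hfin : om m ≠ ∞ := by
      unfold om
      exact measure_ball_lt_top.ne
    have h3 := ENNReal.Tendsto.mul_const h1 (Or.inr hfin)
    simpa using h3
  refine le_of_tendsto hlim ?_
  have : Ioo (0 : ℝ) 1 ∈ 𝓝[<] (1 : ℝ) := Ioo_mem_nhdsLT one_pos
  filter_upwards [this] with r hr
  exact hkey r hr.1 hr.2

end Pool.Agent.Lib.MP_c95dcf_gt
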