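import Pool.Agent.Lib.MP_c95dcf_gt.Mg.G001

/-!
# MP_c95dcf_gt, B15: the main inequality for monotone sets
-/

set_option autoImplicit false

open MeasureTheory Set Filter Topology
open scoped ENNReal NNReal

namespace Pool.Agent.Lib.MP_c95dcf_gt

/-! ## Choice of the constants -/

theorem main_ev (k : ℕ) {b : ℝ} (hb : 0 < b) (K : ℝ) {ε : ℝ} (hε : 0 < ε) :
    ∀ᶠ R : ℝ in atTop, K * (R ^ k * Real.exp (-(b * R))) ≤ ε := by
  have h1 := (tendsto_rpow_mul_exp_neg_mul_atTop_nhds_zero (k : ℝ) b hb).const_mul K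
  rw [mul_zero] at h1
  filter_upwards [h1.eventually_lt_const hε] with R hR
  rw [Real.rpow_natCast, neg_mul] at hR
  exact hR.le

theorem main_const {vmax C δ : ℝ} (hv : 0 < vmax) (hC : 0 < C) (hδ : 0 < δ) (R₁ : ℝ) :
    ∃ R₀ : ℝ, R₁ ≤ R₀ ∧ 4 ≤ R₀ ∧ ∀ R ≥ R₀,
      (1 + 4 / R) * Real.log (16 * Real.pi * R) ≤ R / 2 ∧
      16 * Real.pi * R * ((1 + R) * Real.exp (-R)) ≤ vmax ∧
      Real.exp (-(δ ^ 2 * R / 16)) ≤ 1 / (2 * R ^ 3) ∧
      C * (2 * Real.pi * ((1 + R) * Real.exp (-(7 / 10 * R)))) ≤ 1 / (2 * R ^ 3) ∧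
      2 * Real.pi * ((1 + R) * Real.exp (-(7 / 10 * R))) ≤ Real.pi * (R / 8) ^ 2 / 2 := by
  have hpi := Real.pi_pos
  have hpi3 := Real.pi_gt_three
  have e1 : ∀ᶠ R : ℝ in atTop, Real.log R ≤ 1 / 8 * R := by
    have := Real.isLittleO_log_id_atTop.bound (c := 1 / 8) (by norm_num)
    filter_upwards [this, eventually_ge_atTop (1 : ℝ)] with R hR hR1
    simp only [id, Real.norm_eq_abs] at hR
    rw [abs_of_nonneg (by linarith : (0 : ℝ) ≤ R)] at hR
    exact (le_abs_self _).trans hR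
  have e2 : ∀ᶠ R : ℝ in atTop, Real.log (16 * Real.pi) ≤ 1 / 8 * R := by
    filter_upwards [eventually_ge_atTop (8 * Real.log (16 * Real.pi))] with R hR
    linarith
  have e3 := main_ev 2 (b := 1) one_pos (32 * Real.pi) hv
  have e4 := main_ev 3 (b := δ ^ 2 / 16) (by positivity) 2 one_pos
  have e5 := main_ev 4 (b := 7 / 10) (by norm_num) (8 * Real.pi * C) one_pos
  have e6 := main_ev 1 (b := 7 / 10) (by norm_num) (4 * Real.pi)
    (show 0 < Real.pi / 8 by positivity)
  obtain ⟨R₀, hR₀⟩ := eventually_atTop.1 (e1.and (e2.and (e3.and (e4.and (e5.and e6)))))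
  refine ⟨max R₀ (max R₁ 4), (le_max_left _ _).trans (le_max_right _ _),
    (le_max_right _ _).trans (le_max_right _ _), fun R hR => ?_⟩
  obtain ⟨h1, h2, h3, h4, h5, h6⟩ := hR₀ R ((le_max_left _ _).trans hR)
  have hR4 : 4 ≤ R := ((le_max_right _ _).trans (le_max_right _ _)).trans hR
  have hR0 : 0 < R := by linarith
  have hR3 : 0 < R ^ 3 := by positivity
  refine ⟨?_, ?_, ?_, ?_, ?_⟩
  · have h7 : Real.log (16 * Real.pi * R) ≤ R / 4 := by
      rw [Real.log_mul (by positivity) (by positivity)]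
      linarith
    have h8 : 1 + 4 / R ≤ 2 := by
      have : 4 / R ≤ 1 := (div_le_one hR0).2 hR4
      linarith
    have h9 : 0 ≤ Real.log (16 * Real.pi * R) := by
      apply Real.log_nonneg
      nlinarith
    calc (1 + 4 / R) * Real.log (16 * Real.pi * R) ≤ 2 * (R / 4) :=
          mul_le_mul h8 h7 h9 (by norm_num)
      _ = R / 2 := by ring
  · rw [one_mul] at h3
    refine le_trans ?_ h3
    have : (1 + R) * Real.exp (-R) ≤ (2 * R) * Real.exp (-R) :=
      mul_le_mul_of_nonneg_right (by linarith) (Real.exp_pos _).le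
    calc 16 * Real.pi * R * ((1 + R) * Real.exp (-R))
        ≤ 16 * Real.pi * R * ((2 * R) * Real.exp (-R)) :=
          mul_le_mul_of_nonneg_left this (by positivity)
      _ = 32 * Real.pi * (R ^ 2 * Real.exp (-R)) := by ring
  · rw [le_div_iff₀ (by positivity)]
    calc Real.exp (-(δ ^ 2 * R / 16)) * (2 * R ^ 3)
        = 2 * (R ^ 3 * Real.exp (-(δ ^ 2 / 16 * R))) := by
          rw [show δ ^ 2 * R / 16 = δ ^ 2 / 16 * R by ring]; ring
      _ ≤ 1 := h4
  · rw [le_div_iff₀ (by positivity)]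
    refine le_trans ?_ h5
    have : (1 + R) * Real.exp (-(7 / 10 * R)) ≤ (2 * R) * Real.exp (-(7 / 10 * R)) :=
      mul_le_mul_of_nonneg_right (by linarith) (Real.exp_pos _).le
    calc C * (2 * Real.pi * ((1 + R) * Real.exp (-(7 / 10 * R)))) * (2 * R ^ 3)
        ≤ C * (2 * Real.pi * ((2 * R) * Real.exp (-(7 / 10 * R)))) * (2 * R ^ 3) := by gcongr
      _ = 8 * Real.pi * C * (R ^ 4 * Real.exp (-(7 / 10 * R))) := by ring
  · rw [pow_one] at h6
    have h10 : (1 + R) * Real.exp (-(7 / 10 * R)) ≤ (2 * R) * Real.exp (-(7 / 10 * R)) :=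
      mul_le_mul_of_nonneg_right (by linarith) (Real.exp_pos _).le
    have h11 : (1 : ℝ) / 4 ≤ (R / 8) ^ 2 := by nlinarith
    calc 2 * Real.pi * ((1 + R) * Real.exp (-(7 / 10 * R)))
        ≤ 2 * Real.pi * ((2 * R) * Real.exp (-(7 / 10 * R))) := by gcongr
      _ = 4 * Real.pi * (R * Real.exp (-(7 / 10 * R))) := by ring
      _ ≤ Real.pi / 8 := h6
      _ ≤ Real.pi * (R / 8) ^ 2 / 2 := by nlinarith

/-! ## Slices -/

theorem main_slice_meas (m : ℕ) {A : Set ℂ} (hA : MeasurableSet A) (θ : ℝ) :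
    MeasurableSet (Sl m A θ) := by
  have hc : Continuous fun r : ℝ => (r : ℂ) * Complex.exp (θ * Complex.I) := by fun_prop
  exact measurableSet_Ioo.inter (hc.measurable hA)

theorem main_slice_inter (m : ℕ) (A : Set ℂ) (θ : ℝ) :
    Sl m A θ ∩ Ioo 0 (m : ℝ) = Sl m A θ :=
  inter_eq_left.2 fun _ hr => hr.1

theorem main_bb_gt : Real.pi / 2 < bb := by
  have := Real.pi_lt_d2
  unfold bb
  norm_num at this ⊢
  linarith

theorem main_bb_lt : bb < Real.pi := by
  have := Real.pi_gt_three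
  unfold bb
  linarith

theorem main_cos_neg : Real.cos bb < 0 :=
  Real.cos_neg_of_pi_div_two_lt_of_lt main_bb_gt (by
    have := main_bb_lt
    have := Real.pi_pos
    linarith)

theorem main_cos_gt : -1 < Real.cos bb := by
  rw [← Real.cos_pi]
  exact Real.cos_lt_cos_of_nonneg_of_le_pi (by
    have := main_bb_gt
    have := Real.pi_pos
    linarith) le_rfl main_bb_lt

/-- Outside `J` the slices of `A` are on the left side. -/
theorem main_slice_left (m : ℕ) (A : Set ℂ) {θ : ℝ} (hθ : θ ∈ Ioo (-Real.pi) Real.pi \ Icc (-bb) bb) :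
    Sl m (A ∩ {c | c.re ≤ -(-Real.cos bb * ‖c‖)}) θ = Sl m A θ := by
  ext r
  constructor
  · rintro ⟨hr, hc⟩
    exact ⟨hr, hc.1⟩
  · rintro ⟨hr, hc⟩
    refine ⟨hr, hc, ?_⟩
    have hcos : Real.cos θ ≤ Real.cos bb := by
      rw [← Real.cos_abs θ]
      apply Real.cos_le_cos_of_nonneg_of_le_pi
      · have := main_bb_gt
        have := Real.pi_pos
        linarith
      · rw [abs_le]
        exact ⟨hθ.1.1.le, hθ.1.2.le⟩
      · by_contra hcon
        push Not at hcon
        exact hθ.2 (abs_le.1 hcon.le)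
    have h1 : ((r : ℂ) * Complex.exp (θ * Complex.I)).re = r * Real.cos θ := by
      rw [Complex.re_ofReal_mul, Complex.exp_ofReal_mul_I_re]
    have h2 : ‖(r : ℂ) * Complex.exp (θ * Complex.I)‖ = r := by
      rw [norm_mul, Complex.norm_exp_ofReal_mul_I, mul_one, Complex.norm_real,
        Real.norm_of_nonneg hr.1.le]
    rw [mem_ofPred_eq, h1, h2]
    have := mul_le_mul_of_nonneg_left hcos hr.1.le
    linarith

/-! ## Weighted area -/

theorem main_wp_nonneg (m : ℕ) (r : ℝ) : 0 ≤ wp m r := le_max_left _ _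

theorem main_Wp_nonneg (m : ℕ) (r : ℝ) : 0 ≤ Wp m r := pow_nonneg (main_wp_nonneg m r) _

theorem main_Wp_le_one (m : ℕ) {r : ℝ} (hr : 0 ≤ r) : Wp m r ≤ 1 := by
  unfold Wp
  refine pow_le_one₀ (main_wp_nonneg m r) ?_
  unfold wp
  refine max_le zero_le_one ?_
  have : 0 ≤ r / m := by positivity
  linarith

theorem main_Wp_pos {m : ℕ} {r : ℝ} (hm : 0 < m) (hr : r < m) : 0 < Wp m r := by
  unfold Wp wp
  have hm0 : (0 : ℝ) < m := by exact_mod_cast hm
  have : r / m < 1 := (div_lt_one hm0).2 hr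
  have h1 : 0 < 1 - r / m := by linarith
  exact pow_pos (lt_of_lt_of_le h1 (le_max_right _ _)) _

theorem main_Wp_cont (m : ℕ) : Continuous fun c : ℂ => Wp m ‖c‖ := by
  unfold Wp wp
  fun_prop

theorem main_Wp_int (m : ℕ) (A : Set ℂ) :
    IntegrableOn (fun c : ℂ => Wp m ‖c‖) (A ∩ Metric.ball (0 : ℂ) m) := by
  have h1 : IntegrableOn (fun c : ℂ => Wp m ‖c‖) (Metric.closedBall (0 : ℂ) m) :=
    (main_Wp_cont m).continuousOn.integrableOn_compact (isCompact_closedBall _ _)
  exact h1.mono_set (inter_subset_right.trans Metric.ball_subset_closedBall)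

theorem main_V0_nonneg (m : ℕ) (A : Set ℂ) : 0 ≤ V0 m A :=
  integral_nonneg fun _ => main_Wp_nonneg m _

theorem main_V0_mono (m : ℕ) {A B : Set ℂ} (hAB : A ⊆ B) : V0 m A ≤ V0 m B := by
  unfold V0
  refine setIntegral_mono_set (main_Wp_int m B) (Eventually.of_forall fun _ => main_Wp_nonneg m _)
    ?_
  exact (inter_subset_inter_left _ hAB).eventuallyLE

theorem main_V0_union (m : ℕ) {A B : Set ℂ} (hB : MeasurableSet B) (hAB : Disjoint A B) :
    V0 m (A ∪ B) = V0 m A + V0 m B := by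
  unfold V0
  rw [union_inter_distrib_right]
  exact setIntegral_union (hAB.mono inter_subset_left inter_subset_left)
    (hB.inter Metric.isOpen_ball.measurableSet) (main_Wp_int m A) (main_Wp_int m B)

/-! ## One-dimensional estimate -/

theorem main_rho (h1 : Stmt_Prof) {m : ℕ} (hm : 2 ≤ m) {R V v : ℝ} (hR4 : 4 ≤ R) (hRm : R < m)
    (hV : 0 < V) (hVR : 2 * Real.pi * vp m R = V) (hv : 0 ≤ v)
    (hY : (1 + 4 / R) * max 0 (Real.log (2 * Real.pi * v / V)) ≤ R / 2) :
    ∃ ρ : ℝ, R - (1 + 4 / R) * max 0 (Real.log (2 * Real.pi * v / V)) ≤ ρ ∧ ρ ≤ m ∧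
      vp m ρ = v := by
  obtain ⟨-, hcont, hanti, -, -, hshift, -, -, -, -⟩ := h1 m hm
  have hR0 : 0 < R := by linarith
  set L := max 0 (Real.log (2 * Real.pi * v / V)) with hL
  set Y := (1 + 4 / R) * L with hYdef
  have hL0 : 0 ≤ L := le_max_left _ _
  have hY0 : 0 ≤ Y := by positivity
  have hvR : vp m R = V / (2 * Real.pi) := by
    rw [← hVR]
    have := Real.pi_pos
    field_simp
  have hmm : vp m m = 0 := by simp [vp]
  -- the value at `R - Y` is at least `v`
  have key : v ≤ vp m (R - Y) := by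
    have h2 := hshift R Y hY0 (by linarith) hR0 hRm.le
    refine le_trans ?_ h2
    have h3 : Real.exp L ≤ Real.exp Y * (1 - Y / R) := by
      have h4 : Real.exp (-(2 * (Y / R))) ≤ 1 - Y / R := by
        have hx0 : 0 ≤ Y / R := by positivity
        have hx1 : Y / R ≤ 1 / 2 := by rw [div_le_iff₀ hR0]; linarith
        set x := Y / R with hx
        have h5 : 1 + 2 * x ≤ Real.exp (2 * x) := by
          have := Real.add_one_le_exp (2 * x)
          linarith
        have h6 : 1 ≤ (1 - x) * (1 + 2 * x) := by nlinarith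
        have h7 : 1 ≤ (1 - x) * Real.exp (2 * x) :=
          h6.trans (mul_le_mul_of_nonneg_left h5 (by linarith))
        rw [Real.exp_neg, inv_le_iff_one_le_mul₀ (Real.exp_pos _)]
        exact h7
      have h5 : Real.exp L ≤ Real.exp Y * Real.exp (-(2 * (Y / R))) := by
        rw [← Real.exp_add]
        apply Real.exp_le_exp.2
        have h6 : Y - 2 * (Y / R) = L + L * (4 / R) * (1 / 2 - 2 / R) := by
          rw [hYdef]
          field_simp
          ring
        have h7 : 0 ≤ L * (4 / R) * (1 / 2 - 2 / R) := by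
          have : 2 / R ≤ 1 / 2 := by rw [div_le_iff₀ hR0]; linarith
          exact mul_nonneg (by positivity) (by linarith)
        linarith
      exact h5.trans (mul_le_mul_of_nonneg_left h4 (Real.exp_pos _).le)
    have h8 : 2 * Real.pi * v / V ≤ Real.exp L := by
      rcases hv.eq_or_lt with hv0 | hv0
      · rw [← hv0]
        simp [(Real.exp_pos _).le]
      · have hpos : 0 < 2 * Real.pi * v / V := by
          have := Real.pi_pos
          positivity
        rw [← Real.exp_log hpos]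
        exact Real.exp_le_exp.2 (le_max_right _ _)
    have h9 : v ≤ Real.exp L * vp m R := by
      rw [hvR]
      have h10 := mul_le_mul_of_nonneg_right h8 (show 0 ≤ V / (2 * Real.pi) by
        have := Real.pi_pos
        positivity)
      refine le_trans (le_of_eq ?_) h10
      have := Real.pi_pos
      field_simp
    refine h9.trans (mul_le_mul_of_nonneg_right h3 ?_)
    rw [hvR]
    have := Real.pi_pos
    positivity
  have hRY : R - Y ≤ m := by linarith
  have hsub : Icc (R - Y) (m : ℝ) ⊆ Icc 0 (m : ℝ) := Icc_subset_Icc_left (by linarith)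
  obtain ⟨ρ, hρ, hρv⟩ := intermediate_value_Icc' hRY (hcont.mono hsub)
    (show v ∈ Icc (vp m m) (vp m (R - Y)) from ⟨by rw [hmm]; exact hv, key⟩)
  exact ⟨ρ, hρ.1, hρ.2, hρv⟩

/-! ## The mass on the left -/

theorem main_V_le (h1 : Stmt_Prof) {m : ℕ} (hm : 2 ≤ m) {R V : ℝ} (hR0 : 0 ≤ R) (hRm : R ≤ m)
    (hVR : 2 * Real.pi * vp m R = V) :
    V ≤ 2 * Real.pi * ((1 + R) * Real.exp (-(7 / 10 * R))) * Wp m (R / 8) ^ 2 := by
  obtain ⟨-, -, -, -, hvW, -, -, -, -, hW8⟩ := h1 m hm
  have h2 := hvW R hR0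
  have h3 := hW8 R hR0 hRm
  have hpi := Real.pi_pos
  calc V = 2 * Real.pi * vp m R := hVR.symm
    _ ≤ 2 * Real.pi * (Wp m R * (1 + R)) := mul_le_mul_of_nonneg_left h2 (by positivity)
    _ ≤ 2 * Real.pi * (Real.exp (-(7 / 10 * R)) * Wp m (R / 8) ^ 2 * (1 + R)) := by gcongr
    _ = _ := by ring

theorem main_left_mass (h1 : Stmt_Prof) (h8 : Stmt_Left) {C : ℝ} (hC : 0 < C)
    (h9 : ∀ (m : ℕ) (A : Set ℂ) (R : ℝ), 2 ≤ m → MeasurableSet A → 0 < R → R ≤ m →
      P0 m A ≤ ENNReal.ofReal (V0 m A) →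
      V0 m A ≤ Wp m (R / 8) * (Real.pi * (R / 8) ^ 2) / 2 →
      V0 m (A ∩ Metric.ball (0 : ℂ) (R / 8)) * Wp m (R / 8) ^ 2 ≤ C * V0 m A ^ 2)
    {m : ℕ} (hm : 2 ≤ m) {A : Set ℂ} (hA : MeasurableSet A) (hmono : Mono m 1 A) {R : ℝ}
    (hR4 : 4 ≤ R) (hRm : R < m) (hVR : 2 * Real.pi * vp m R = V0 m A)
    (hP : P0 m A ≤ ENNReal.ofReal (V0 m A))
    (c3 : Real.exp (-((-Real.cos bb) ^ 2 * R / 16)) ≤ 1 / (2 * R ^ 3))
    (c4 : C * (2 * Real.pi * ((1 + R) * Real.exp (-(7 / 10 * R)))) ≤ 1 / (2 * R ^ 3))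
    (c5 : 2 * Real.pi * ((1 + R) * Real.exp (-(7 / 10 * R))) ≤ Real.pi * (R / 8) ^ 2 / 2) :
    V0 m (A ∩ {c | c.re ≤ -(-Real.cos bb * ‖c‖)}) ≤ V0 m A / R ^ 3 := by
  have hR0 : 0 < R := by linarith
  have hV0 := main_V0_nonneg m A
  have hWpos : 0 < Wp m (R / 8) := main_Wp_pos (by omega) (by linarith)
  have hW1 : Wp m (R / 8) ≤ 1 := main_Wp_le_one m (by positivity)
  have hVle := main_V_le h1 hm hR0.le hRm.le hVR
  have e1 := h8 m A (-Real.cos bb) R hm hA hmono (by have := main_cos_neg; linarith)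
    (by have := main_cos_gt; linarith) hR0 hRm.le
  have e2 := h9 m A R hm hA hR0 hRm.le hP (by
    refine hVle.trans ?_
    calc 2 * Real.pi * ((1 + R) * Real.exp (-(7 / 10 * R))) * Wp m (R / 8) ^ 2
        ≤ (Real.pi * (R / 8) ^ 2 / 2) * Wp m (R / 8) ^ 2 := by gcongr
      _ ≤ (Real.pi * (R / 8) ^ 2 / 2) * Wp m (R / 8) := by
          have hpi := Real.pi_pos
          refine mul_le_mul_of_nonneg_left ?_ (by positivity)
          nlinarith
      _ = _ := by ring)
  have e3 : V0 m (A ∩ Metric.ball (0 : ℂ) (R / 8)) ≤ 1 / (2 * R ^ 3) * V0 m A := by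
    have h10 : V0 m (A ∩ Metric.ball (0 : ℂ) (R / 8)) * Wp m (R / 8) ^ 2 ≤
        (1 / (2 * R ^ 3) * V0 m A) * Wp m (R / 8) ^ 2 := by
      calc V0 m (A ∩ Metric.ball (0 : ℂ) (R / 8)) * Wp m (R / 8) ^ 2
          ≤ C * V0 m A ^ 2 := e2
        _ = (C * V0 m A) * V0 m A := by ring
        _ ≤ (C * V0 m A) *
            (2 * Real.pi * ((1 + R) * Real.exp (-(7 / 10 * R))) * Wp m (R / 8) ^ 2) :=
            mul_le_mul_of_nonneg_left hVle (by positivity)
        _ = (C * (2 * Real.pi * ((1 + R) * Real.exp (-(7 / 10 * R))))) *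
            (V0 m A * Wp m (R / 8) ^ 2) := by ring
        _ ≤ (1 / (2 * R ^ 3)) * (V0 m A * Wp m (R / 8) ^ 2) := by gcongr
        _ = _ := by ring
    exact le_of_mul_le_mul_right h10 (by positivity)
  have hmeas : MeasurableSet ({c : ℂ | c.re ≤ -(-Real.cos bb * ‖c‖)} ∩
      Metric.ball (0 : ℂ) (R / 8)) := by
    refine MeasurableSet.inter ?_ Metric.isOpen_ball.measurableSet
    exact measurableSet_le Complex.continuous_re.measurable (by fun_prop)
  have hsplit : V0 m (A ∩ {c | c.re ≤ -(-Real.cos bb * ‖c‖)}) ≤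
      V0 m (A ∩ {c | c.re ≤ -(-Real.cos bb * ‖c‖) ∧ R / 8 ≤ ‖c‖}) +
      V0 m (A ∩ ({c | c.re ≤ -(-Real.cos bb * ‖c‖)} ∩ Metric.ball (0 : ℂ) (R / 8))) := by
    rw [← main_V0_union m (hA.inter hmeas)]
    · refine main_V0_mono m ?_
      rintro c ⟨hc1, hc2⟩
      by_cases hc3 : R / 8 ≤ ‖c‖
      · exact Or.inl ⟨hc1, hc2, hc3⟩
      · exact Or.inr ⟨hc1, hc2, by simpa using not_le.1 hc3⟩
    · rw [Set.disjoint_left]
      rintro c ⟨-, -, hc3⟩ ⟨-, -, hc4⟩
      rw [Metric.mem_ball, dist_zero_right] at hc4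
      exact absurd hc3 (not_le.2 hc4)
  have hmono2 : V0 m (A ∩ ({c | c.re ≤ -(-Real.cos bb * ‖c‖)} ∩ Metric.ball (0 : ℂ) (R / 8))) ≤
      V0 m (A ∩ Metric.ball (0 : ℂ) (R / 8)) :=
    main_V0_mono m (inter_subset_inter_right _ inter_subset_right)
  have e4 : Real.exp (-((-Real.cos bb) ^ 2 * R / 16)) * V0 m A ≤ 1 / (2 * R ^ 3) * V0 m A :=
    mul_le_mul_of_nonneg_right c3 hV0
  have e5 : V0 m A / R ^ 3 = 1 / (2 * R ^ 3) * V0 m A + 1 / (2 * R ^ 3) * V0 m A := by
    field_simp
    ring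
  rw [e5]
  linarith

theorem main_ineq (h1 : Stmt_Prof) (h2 : Stmt_Iso1) (h3 : Stmt_Polar) (h4 : Stmt_Slices)
    (h5 : Stmt_S3) (h6 : Stmt_Osc) (h7 : Stmt_Core) (h8 : Stmt_Left) (h9 : Stmt_Inner) :
    Stmt_Main := by
  obtain ⟨vmax, m₂, hvmax, hm₂, h2⟩ := h2
  obtain ⟨R₇, hR₇, h7⟩ := h7
  obtain ⟨C, hC, h9⟩ := h9
  obtain ⟨R₀, hR₀7, hR₀4, hconst⟩ := main_const (δ := -Real.cos bb) hvmax hC
    (by have := main_cos_neg; linarith) R₇
  refine ⟨R₀, max 2 m₂, by linarith, le_max_left _ _, fun m hm A R hA hmono hR hRm hVR => ?_⟩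
  have hm2 : 2 ≤ m := (le_max_left _ _).trans hm
  have hmm₂ : m₂ ≤ m := (le_max_right _ _).trans hm
  obtain ⟨c1, c2, c3, c4, c5⟩ := hconst R hR
  have hR4 : 4 ≤ R := hR₀4.trans hR
  have hR0 : 0 < R := by linarith
  have hpi := Real.pi_pos
  have hpi3 := Real.pi_gt_three
  set V := V0 m A with hVdef
  obtain ⟨-, -, hanti, -, hvW, -, htail, -, hWexp, -⟩ := h1 m hm2
  have hvpR : 0 < vp m R := by
    have h10 := hanti (show R ∈ Icc 0 (m : ℝ) from ⟨hR0.le, hRm.le⟩)
      (show (m : ℝ) ∈ Icc 0 (m : ℝ) from ⟨by positivity, le_rfl⟩) hRm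
    have hmm : vp m m = 0 := by simp [vp]
    rw [hmm] at h10
    exact h10
  have hV : 0 < V := by rw [← hVR]; positivity
  -- trivial case
  by_cases hcase : ENNReal.ofReal V ≤ P0 m A
  · refine le_trans (ENNReal.ofReal_le_ofReal ?_) hcase
    have h10 : 3 / (10 * R ^ 2) ≤ 1 / (1 + R) := by
      rw [div_le_div_iff₀ (by positivity) (by positivity)]
      nlinarith
    nlinarith
  push Not at hcase
  set P := (P0 m A).toReal with hPdef
  have hPne : P0 m A ≠ ∞ := hcase.ne_top
  have hPP : P0 m A = ENNReal.ofReal P := (ENNReal.ofReal_toReal hPne).symm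
  have hP0 : 0 ≤ P := ENNReal.toReal_nonneg
  have hPV : P ≤ V := by
    have h10 := hcase.le
    rw [hPP] at h10
    exact (ENNReal.ofReal_le_ofReal_iff hV.le).1 h10
  -- the radius `R'`
  set R' := R + 4 * Real.log R with hR'
  have hlog0 : 0 ≤ Real.log R := Real.log_nonneg (by linarith)
  have hlogR : Real.log R ≤ R := Real.log_le_self hR0.le
  have hR'0 : 0 < R' := by positivity
  have hR'5 : R' ≤ 5 * R := by rw [hR']; linarith
  obtain ⟨hmv, hmvt, hsl⟩ := h4 m R' A hm2 hR'0 hA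
  have hpol := h3 m A hm2 hA
  rw [← hVdef] at hpol
  have hR3 : 0 < R ^ 3 := by positivity
  have hR3' : (1 : ℝ) ≤ R ^ 3 := one_le_pow₀ (by linarith)
  -- the tail
  have htail' : vp m R' ≤ V / R ^ 3 := by
    have h10 := htail R (4 * Real.log R) hR0 (by positivity)
    refine h10.trans ?_
    have h11 : Real.exp (-(4 * Real.log R)) = 1 / R ^ 4 := by
      rw [Real.exp_neg, show 4 * Real.log R = Real.log (R ^ 4) by
        rw [Real.log_pow]; norm_num, Real.exp_log (by positivity), one_div]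
    have h12 : 1 + 4 * Real.log R / R ≤ 5 := by
      have : 4 * Real.log R / R ≤ 4 := by
        rw [div_le_iff₀ hR0]; linarith
      linarith
    have h13 : vp m R = V / (2 * Real.pi) := by
      rw [← hVR]
      field_simp
    rw [h11, h13]
    calc 1 / R ^ 4 * (1 + 4 * Real.log R / R) * (V / (2 * Real.pi))
        ≤ 1 / R ^ 4 * 5 * (V / (2 * Real.pi)) := by gcongr
      _ = (5 / (2 * Real.pi * R)) * (V / R ^ 3) := by field_simp
      _ ≤ 1 * (V / R ^ 3) := by
          refine mul_le_mul_of_nonneg_right ?_ (by positivity)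
          rw [div_le_one (by positivity)]
          nlinarith
      _ = V / R ^ 3 := one_mul _
  -- volume of the interval
  have hIfin : volume (Ioo (-Real.pi) Real.pi) ≠ ∞ := by simp
  have hIvol : (volume.restrict (Ioo (-Real.pi) Real.pi)).real univ = 2 * Real.pi := by
    rw [measureReal_restrict_apply_univ, measureReal_def, Real.volume_Ioo,
      ENNReal.toReal_ofReal (by linarith)]
    ring
  have hbound : ∀ θ, vt m R' A θ ≤ vp m 0 := fun θ =>
    (hsl θ).2.1.trans (hsl θ).2.2.2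
  have hintv : IntegrableOn (vth m A) (Ioo (-Real.pi) Real.pi) := by
    refine Measure.integrableOn_of_bounded (M := vp m 0) hIfin hmv.aestronglyMeasurable
      (Eventually.of_forall fun θ => ?_)
    rw [Real.norm_of_nonneg ((hsl θ).1.trans (hsl θ).2.1)]
    exact (hsl θ).2.2.2
  have hintvt : IntegrableOn (vt m R' A) (Ioo (-Real.pi) Real.pi) := by
    refine Measure.integrableOn_of_bounded (M := vp m 0) hIfin hmvt.aestronglyMeasurable
      (Eventually.of_forall fun θ => ?_)
    rw [Real.norm_of_nonneg (hsl θ).1]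
    exact hbound θ
  -- the essential bound
  have hae : ∀ᵐ θ ∂(volume.restrict (Ioo (-Real.pi) Real.pi)), vth m A θ ≤ 8 * R * V := by
    have h10 := h6 m R' P A hm2 hR'0 hP0 hA hPP.le
    filter_upwards [h10] with θ hθ
    have h11 : ∫ _ in Ioo (-Real.pi) Real.pi, vt m R' A θ ≤
        ∫ θ' in Ioo (-Real.pi) Real.pi, (vt m R' A θ' + R' * P) := by
      refine integral_mono_ae (integrable_const _) (hintvt.add (integrable_const _)) ?_
      exact hθ
    rw [integral_const, hIvol, integral_add hintvt (integrable_const _), integral_const, hIvol,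
      smul_eq_mul, smul_eq_mul] at h11
    have h12 : ∫ θ' in Ioo (-Real.pi) Real.pi, vt m R' A θ' ≤ V := by
      rw [hpol]
      exact integral_mono hintvt hintv fun θ' => (hsl θ').2.1
    have h13 : 2 * Real.pi * (vt m R' A θ - R' * P) ≤ V := by linarith
    have h14 : vt m R' A θ - R' * P ≤ V := by
      by_contra hcon
      push Not at hcon
      nlinarith
    have h15 : R' * P ≤ 5 * R * V := mul_le_mul hR'5 hPV hP0 (by positivity)
    have h16 : V / R ^ 3 ≤ V := div_le_self hV.le hR3'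
    have h17 := (hsl θ).2.2.1
    nlinarith
  -- the modified functions
  set v : ℝ → ℝ := fun θ => if vth m A θ ≤ 8 * R * V then vth m A θ else 0 with hvdef
  set q : ℝ → ℝ := fun θ => if vth m A θ ≤ 8 * R * V then vt m R' A θ else 0 with hqdef
  have hset : MeasurableSet {θ | vth m A θ ≤ 8 * R * V} := measurableSet_le hmv measurable_const
  have hmv' : Measurable v := Measurable.ite hset hmv measurable_const
  have hmq' : Measurable q := Measurable.ite hset hmvt measurable_const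
  have hvae : v =ᵐ[volume.restrict (Ioo (-Real.pi) Real.pi)] vth m A := by
    filter_upwards [hae] with θ hθ
    simp only [hvdef, if_pos hθ]
  have hqae : q =ᵐ[volume.restrict (Ioo (-Real.pi) Real.pi)] vt m R' A := by
    filter_upwards [hae] with θ hθ
    simp only [hqdef, if_pos hθ]
  have hq0 : ∀ θ, 0 ≤ q θ := by
    intro θ
    simp only [hqdef]
    split_ifs
    · exact (hsl θ).1
    · exact le_rfl
  have hqv : ∀ θ, q θ ≤ v θ := by
    intro θ
    simp only [hqdef, hvdef]
    split_ifs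
    · exact (hsl θ).2.1
    · exact le_rfl
  have hvq : ∀ θ, v θ ≤ q θ + V / R ^ 3 := by
    intro θ
    simp only [hqdef, hvdef]
    split_ifs
    · have := (hsl θ).2.2.1
      linarith
    · positivity
  have hv8 : ∀ θ, v θ ≤ 8 * R * V := by
    intro θ
    simp only [hvdef]
    split_ifs with h
    · exact h
    · positivity
  have hv0 : ∀ θ, 0 ≤ v θ := fun θ => (hq0 θ).trans (hqv θ)
  have hvint : ∫ θ in Ioo (-Real.pi) Real.pi, v θ = V := by
    rw [hpol]
    exact integral_congr_ae hvae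
  -- the mass outside `J`
  have hout : ∫ θ in Ioo (-Real.pi) Real.pi \ Icc (-bb) bb, q θ ≤ V / R ^ 3 := by
    have hleft := main_left_mass h1 h8 hC h9 hm2 hA hmono hR4 hRm hVR hcase.le c3 c4 c5
    refine le_trans ?_ hleft
    set A' := A ∩ {c : ℂ | c.re ≤ -(-Real.cos bb * ‖c‖)} with hA'
    have hmA' : MeasurableSet A' := by
      refine hA.inter ?_
      exact measurableSet_le Complex.continuous_re.measurable (by fun_prop)
    obtain ⟨hmvA', -, hslA'⟩ := h4 m R' A' hm2 hR'0 hmA'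
    have hintA' : IntegrableOn (vth m A') (Ioo (-Real.pi) Real.pi) := by
      refine Measure.integrableOn_of_bounded (M := vp m 0) hIfin hmvA'.aestronglyMeasurable
        (Eventually.of_forall fun θ => ?_)
      rw [Real.norm_of_nonneg ((hslA' θ).1.trans (hslA' θ).2.1)]
      exact (hslA' θ).2.2.2
    rw [h3 m A' hm2 hmA']
    have hsub : Ioo (-Real.pi) Real.pi \ Icc (-bb) bb ⊆ Ioo (-Real.pi) Real.pi := sdiff_subset
    have hqI : IntegrableOn q (Ioo (-Real.pi) Real.pi) := by
      refine Measure.integrableOn_of_bounded (M := 8 * R * V) hIfin hmq'.aestronglyMeasurable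
        (Eventually.of_forall fun θ => ?_)
      rw [Real.norm_of_nonneg (hq0 θ)]
      exact (hqv θ).trans (hv8 θ)
    calc ∫ θ in Ioo (-Real.pi) Real.pi \ Icc (-bb) bb, q θ
        ≤ ∫ θ in Ioo (-Real.pi) Real.pi \ Icc (-bb) bb, vth m A' θ := by
          refine setIntegral_mono_on (hqI.mono_set hsub) (hintA'.mono_set hsub)
            (measurableSet_Ioo.diff measurableSet_Icc) fun θ hθ => ?_
          have h10 : vth m A' θ = vth m A θ := by
            unfold vth
            rw [hA', main_slice_left m A hθ]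
          rw [h10]
          refine (hqv θ).trans ?_
          simp only [hvdef]
          split_ifs
          · exact le_rfl
          · exact (hsl θ).1.trans (hsl θ).2.1
      _ ≤ ∫ θ in Ioo (-Real.pi) Real.pi, vth m A' θ :=
          setIntegral_mono_set hintA' (Eventually.of_forall fun θ =>
            (hslA' θ).1.trans (hslA' θ).2.1) hsub.eventuallyLE
  -- the exponents
  have hYle : ∀ θ, (1 + 4 / R) * max 0 (Real.log (2 * Real.pi * v θ / V)) ≤ R / 2 := by
    intro θ
    refine le_trans (mul_le_mul_of_nonneg_left ?_ (by positivity)) c1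
    refine max_le (Real.log_nonneg (by nlinarith)) ?_
    rcases (hv0 θ).eq_or_lt with h | h
    · rw [← h]
      simp only [mul_zero, zero_div, Real.log_zero]
      exact Real.log_nonneg (by nlinarith)
    · apply Real.log_le_log (by positivity)
      rw [div_le_iff₀ hV]
      have := mul_le_mul_of_nonneg_left (hv8 θ) (show 0 ≤ 2 * Real.pi by positivity)
      linarith
  -- the core estimate
  have hcore := h7 R (hR₀7.trans hR) V P v q hV hmv' hmq' hq0 hqv hvq hv8 hvint hout ?_
  · rw [hPP]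
    exact ENNReal.ofReal_le_ofReal hcore
  intro g σ G σ₀ hg hgG hg0 hσ hσ2
  set p : ℝ → ℝ := fun θ => v θ * (1 - 1 / (1 + R - (1 + 4 / R) *
    max 0 (Real.log (2 * Real.pi * v θ / V)))) with hpdef
  have hden : ∀ θ, 1 ≤ 1 + R - (1 + 4 / R) * max 0 (Real.log (2 * Real.pi * v θ / V)) := by
    intro θ
    have := hYle θ
    linarith
  have hfrac : ∀ θ, 0 ≤ 1 / (1 + R - (1 + 4 / R) *
      max 0 (Real.log (2 * Real.pi * v θ / V))) ∧ 1 / (1 + R - (1 + 4 / R) *
      max 0 (Real.log (2 * Real.pi * v θ / V))) ≤ 1 := by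
    intro θ
    have h10 := hden θ
    exact ⟨by positivity, (div_le_one (by linarith)).2 h10⟩
  have hmp : Measurable p := by
    have h10 : Measurable fun θ => Real.log (2 * Real.pi * v θ / V) :=
      Real.measurable_log.comp ((hmv'.const_mul _).div_const _)
    have h11 : Measurable fun θ => 1 / (1 + R - (1 + 4 / R) *
        max 0 (Real.log (2 * Real.pi * v θ / V))) :=
      measurable_const.div (measurable_const.sub ((measurable_const.max h10).const_mul _))
    exact hmv'.mul (measurable_const.sub h11)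
  have hp0 : ∀ θ, 0 ≤ p θ := fun θ => mul_nonneg (hv0 θ) (by have := (hfrac θ).2; linarith)
  have hpb : ∀ θ, p θ ≤ 8 * R * V := by
    intro θ
    refine le_trans ?_ (hv8 θ)
    have h10 := (hfrac θ).1
    have h11 := hv0 θ
    simp only [hpdef]
    nlinarith
  have hp1 : ∀ θ ∈ Ioo (-Real.pi) Real.pi, ENNReal.ofReal (p θ) ≤ p1 m 0 m (Sl m A θ) := by
    intro θ _
    by_cases hθ : vth m A θ ≤ 8 * R * V
    · have hvθ : v θ = vth m A θ := by simp only [hvdef, if_pos hθ]
      obtain ⟨ρ, hρ1, hρ2, hρ3⟩ := main_rho h1 hm2 hR4 hRm hV hVR (hv0 θ) (hYle θ)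
      have hρ0 : 0 < ρ := by
        have := hYle θ
        linarith
      have hslint : ∫ r in Sl m A θ ∩ Ioo 0 (m : ℝ), hp m r = v θ := by
        rw [main_slice_inter, hvθ]
        rfl
      have hsmall : v θ ≤ vmax := by
        refine (hv8 θ).trans (le_trans ?_ c2)
        have h10 := hvW R hR0.le
        have h11 := hWexp R hR0.le
        calc 8 * R * V = 16 * Real.pi * R * vp m R := by rw [← hVR]; ring
          _ ≤ 16 * Real.pi * R * (Wp m R * (1 + R)) :=
              mul_le_mul_of_nonneg_left h10 (by positivity)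
          _ ≤ 16 * Real.pi * R * (Real.exp (-R) * (1 + R)) := by gcongr
          _ = _ := by ring
      have h10 := h2 m hmm₂ (Sl m A θ) ρ (main_slice_meas m hA θ) hρ0 hρ2
        (by rw [hslint]; exact hsmall) (by rw [hslint]; exact hρ3)
      refine le_trans (ENNReal.ofReal_le_ofReal ?_) h10
      rw [hρ3]
      refine mul_le_mul_of_nonneg_left ?_ (hv0 θ)
      have h11 := hden θ
      have h12 : 1 / (1 + ρ) ≤ 1 / (1 + R - (1 + 4 / R) *
          max 0 (Real.log (2 * Real.pi * v θ / V))) :=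
        one_div_le_one_div_of_le (by linarith) (by linarith)
      linarith
    · have hvθ : v θ = 0 := by simp only [hvdef, if_neg hθ]
      have hpθ : p θ = 0 := by
        simp only [hpdef]
        rw [hvθ, zero_mul]
      rw [hpθ, ENNReal.ofReal_zero]
      exact zero_le
  have h10 := h5 m R' G (8 * R * V) σ₀ A p g σ hm2 hR'0 hA hmp hp0 hpb hp1 hg hgG hg0 hσ hσ2
  rw [hPP] at h10
  have h11 := (ENNReal.ofReal_le_ofReal_iff hP0).1 h10
  refine le_trans (le_of_eq ?_) h11
  refine integral_congr_ae ?_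
  filter_upwards [hqae] with θ hθ
  rw [hθ]

end Pool.Agent.Lib.MP_c95dcf_gt
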