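import Pool.Agent.Lib.MP_c95dcf_gt.Mg.G001

/-!
# MP_c95dcf_gt, part B: measurability of slices, elementary bounds for the profile
-/

set_option autoImplicit false

open MeasureTheory Set Filter Topology
open scoped ENNReal NNReal

namespace Pool.Agent.Lib.MP_c95dcf_gt

theorem slm_measurableSet_prod (m : ℕ) {A : Set ℂ} (hA : MeasurableSet A) :
    MeasurableSet {x : ℝ × ℝ | x.2 ∈ Sl m A x.1} := by
  have h1 : Measurable (fun x : ℝ × ℝ => (x.2 : ℂ) * Complex.exp (x.1 * Complex.I)) := by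
    fun_prop
  have h2 : MeasurableSet {x : ℝ × ℝ | x.2 ∈ Ioo 0 (m : ℝ)} :=
    measurable_snd measurableSet_Ioo
  exact h2.inter (h1 hA)

theorem slm_measurableSet (m : ℕ) {A : Set ℂ} (hA : MeasurableSet A) (θ : ℝ) :
    MeasurableSet (Sl m A θ) := by
  have h := slm_measurableSet_prod m hA
  exact measurable_prodMk_left (x := θ) h

theorem slm_measurable_integral (m : ℕ) {A : Set ℂ} (hA : MeasurableSet A) {f : ℝ → ℝ}
    (hf : Measurable f) : Measurable (fun θ => ∫ r in Sl m A θ, f r) := by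
  have h := slm_measurableSet_prod m hA
  have h1 : ∀ θ, ∫ r in Sl m A θ, f r =
      ∫ r, ({x : ℝ × ℝ | x.2 ∈ Sl m A x.1}.indicator (fun x => f x.2)) (θ, r) := by
    intro θ
    rw [← integral_indicator (slm_measurableSet m hA θ)]
    rfl
  simp_rw [h1]
  have h2 : StronglyMeasurable
      ({x : ℝ × ℝ | x.2 ∈ Sl m A x.1}.indicator (fun x : ℝ × ℝ => f x.2)) :=
    ((hf.comp measurable_snd).indicator h).stronglyMeasurable
  exact h2.integral_prod_right'.measurable

theorem slm_wp_nonneg (m : ℕ) (r : ℝ) : 0 ≤ wp m r := le_max_left _ _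

theorem slm_wp_le_one (m : ℕ) {r : ℝ} (hr : 0 ≤ r) : wp m r ≤ 1 := by
  unfold wp
  refine max_le zero_le_one ?_
  have : 0 ≤ r / (m : ℝ) := by positivity
  linarith

theorem slm_Wp_nonneg (m : ℕ) (r : ℝ) : 0 ≤ Wp m r := pow_nonneg (slm_wp_nonneg m r) _

theorem slm_Wp_le_one (m : ℕ) {r : ℝ} (hr : 0 ≤ r) : Wp m r ≤ 1 :=
  pow_le_one₀ (slm_wp_nonneg m r) (slm_wp_le_one m hr)

theorem slm_wp_continuous (m : ℕ) : Continuous (wp m) := by
  unfold wp
  fun_prop

theorem slm_Wp_continuous (m : ℕ) : Continuous (Wp m) := (slm_wp_continuous m).pow _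

theorem slm_hp_continuous (m : ℕ) : Continuous (hp m) := continuous_id.mul (slm_Wp_continuous m)

theorem slm_hp_nonneg (m : ℕ) {r : ℝ} (hr : 0 ≤ r) : 0 ≤ hp m r :=
  mul_nonneg hr (slm_Wp_nonneg m r)

theorem slm_hp_integrable (m : ℕ) {s : Set ℝ} (hs : s ⊆ Ioo 0 (m : ℝ)) :
    IntegrableOn (hp m) s := by
  have h : IntegrableOn (hp m) (Icc 0 (m : ℝ)) :=
    (slm_hp_continuous m).continuousOn.integrableOn_compact isCompact_Icc
  exact h.mono_set (hs.trans Ioo_subset_Icc_self)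

theorem slm_Sl_subset (m : ℕ) (A : Set ℂ) (θ : ℝ) : Sl m A θ ⊆ Ioo 0 (m : ℝ) := fun _ h => h.1

theorem slm_vt_meas (m : ℕ) (R' : ℝ) {A : Set ℂ} (hA : MeasurableSet A) :
    Measurable (vt m R' A) := by
  have hf : Measurable (fun r : ℝ => min 1 (R' / r) * hp m r) := by
    have := (slm_hp_continuous m).measurable
    fun_prop
  exact slm_measurable_integral m hA hf

theorem slm_trunc_bound {m : ℕ} {R' r : ℝ} (hR : 0 < R') (hr : 0 < r) :
    0 ≤ min 1 (R' / r) * hp m r ∧ min 1 (R' / r) * hp m r ≤ hp m r := by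
  have h0 : 0 ≤ hp m r := slm_hp_nonneg m hr.le
  have h1 : 0 ≤ min 1 (R' / r) := le_min zero_le_one (by positivity)
  exact ⟨mul_nonneg h1 h0, mul_le_of_le_one_left h0 (min_le_left _ _)⟩

theorem slm_trunc_integrable (m : ℕ) {R' : ℝ} (hR : 0 < R') {s : Set ℝ} (hs : MeasurableSet s)
    (hs' : s ⊆ Ioo 0 (m : ℝ)) : IntegrableOn (fun r : ℝ => min 1 (R' / r) * hp m r) s := by
  refine (slm_hp_integrable m hs').mono' ?_ ?_
  · have := (slm_hp_continuous m).measurable
    exact (by fun_prop : Measurable (fun r : ℝ => min 1 (R' / r) * hp m r)).aestronglyMeasurable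
  · refine (ae_restrict_mem hs).mono fun r hr => ?_
    have := slm_trunc_bound (m := m) hR (hs' hr).1
    rw [Real.norm_of_nonneg this.1]
    exact this.2

theorem slm_vt_bound (m : ℕ) {R' : ℝ} (hR : 0 < R') {A : Set ℂ} (hA : MeasurableSet A) (θ : ℝ) :
    0 ≤ vt m R' A θ ∧ vt m R' A θ ≤ vp m 0 := by
  have hS := slm_measurableSet m hA θ
  constructor
  · exact setIntegral_nonneg hS fun r hr => (slm_trunc_bound hR hr.1.1).1
  · unfold vt vp
    calc ∫ r in Sl m A θ, min 1 (R' / r) * hp m r ≤ ∫ r in Sl m A θ, hp m r :=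
          setIntegral_mono_on (slm_trunc_integrable m hR hS (slm_Sl_subset m A θ))
            (slm_hp_integrable m (slm_Sl_subset m A θ)) hS
            fun r hr => (slm_trunc_bound hR hr.1.1).2
      _ ≤ ∫ r in Ioo 0 (m : ℝ), hp m r :=
          setIntegral_mono_set (slm_hp_integrable m Subset.rfl)
            ((ae_restrict_mem measurableSet_Ioo).mono fun r hr => slm_hp_nonneg m hr.1.le)
            (slm_Sl_subset m A θ).eventuallyLE

end Pool.Agent.Lib.MP_c95dcf_gt
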