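import Pool.Agent.Lib.MP_c95dcf_gt.GStmts

/-!
# MP_c95dcf_gt, G05: the `L¹` Poincaré inequality on convex sets
-/

set_option autoImplicit false

open MeasureTheory Set Filter Topology
open scoped ENNReal NNReal RealInnerProductSpace Manifold

namespace Pool.Agent.Lib.MP_c95dcf_gt

/-- Change of variables `x ↦ a x + w`. -/
theorem poincare_lintegral_affine {n : ℕ} (g : E n → ℝ≥0∞) {a : ℝ} (ha : 0 < a)
    (w : E n) : ∫⁻ x, g (a • x + w) = ENNReal.ofReal ((a ^ n)⁻¹) * ∫⁻ x, g x := by
  have h1 : ∫⁻ x, g (a • x + w) = ∫⁻ z, g (z + w) ∂(Measure.map (a • ·) volume) := by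
    have hme : MeasurableEmbedding (fun x : E n => a • x) :=
      (Homeomorph.smulOfNeZero a ha.ne').measurableEmbedding
    exact (hme.lintegral_map (μ := (volume : Measure (E n))) (fun z => g (z + w))).symm
  rw [h1, Measure.map_addHaar_smul _ ha.ne', lintegral_smul_measure,
    lintegral_add_right_eq_self g w]
  simp [finrank_euclideanSpace, abs_of_pos ha, smul_eq_mul]

theorem poincare_affine_le {n : ℕ} (g : E n → ℝ≥0∞) {a : ℝ} (ha : 1 / 2 ≤ a)
    (w : E n) : ∫⁻ x, g (a • x + w) ≤ 2 ^ n * ∫⁻ x, g x := by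
  rw [poincare_lintegral_affine g (by linarith : 0 < a) w]
  gcongr
  have h2 : (a ^ n)⁻¹ ≤ 2 ^ n := by
    rw [← inv_pow]
    apply pow_le_pow_left₀ (by positivity)
    have : a⁻¹ ≤ (1 / 2 : ℝ)⁻¹ := inv_anti₀ (by norm_num) ha
    simpa using this
  calc ENNReal.ofReal ((a ^ n)⁻¹) ≤ ENNReal.ofReal (2 ^ n) := ENNReal.ofReal_le_ofReal h2
    _ = 2 ^ n := by
      rw [ENNReal.ofReal_pow (by norm_num)]; simp

/-- The mean value inequality in integral form. -/
theorem poincare_segment {n : ℕ} {v : E n → ℝ} (hv : ContDiff ℝ 1 v) (x y : E n) :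
    ‖v x - v y‖ₑ ≤ ‖x - y‖ₑ *
      ∫⁻ t in Icc (0 : ℝ) 1, ‖fderiv ℝ v ((1 - t) • x + t • y)‖ₑ := by
  have hd : ∀ t : ℝ, HasDerivAt (fun t : ℝ => v ((1 - t) • x + t • y))
      (fderiv ℝ v ((1 - t) • x + t • y) (y - x)) t := by
    intro t
    have h1 : HasDerivAt (fun t : ℝ => (1 - t) • x + t • y) (y - x) t := by
      have h2 : HasDerivAt (fun t : ℝ => (1 - t) • x) ((-1 : ℝ) • x) t := by
        simpa using ((hasDerivAt_const t (1 : ℝ)).sub (hasDerivAt_id t)).smul_const x
      have h3 : HasDerivAt (fun t : ℝ => t • y) ((1 : ℝ) • y) t :=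
        (hasDerivAt_id t).smul_const y
      refine (h2.add h3).congr_deriv ?_
      simp [sub_eq_neg_add]
    exact ((hv.differentiable (by norm_num)) _).hasFDerivAt.comp_hasDerivAt t h1
  have hcd : Continuous (fderiv ℝ v) := hv.continuous_fderiv (by norm_num)
  have hcont : Continuous (fun t : ℝ => fderiv ℝ v ((1 - t) • x + t • y) (y - x)) := by
    have : Continuous (fun t : ℝ => fderiv ℝ v ((1 - t) • x + t • y)) := by fun_prop
    exact this.clm_apply continuous_const
  have hint : ∫ t in (0 : ℝ)..1, fderiv ℝ v ((1 - t) • x + t • y) (y - x) = v y - v x := by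
    rw [intervalIntegral.integral_eq_sub_of_hasDerivAt (fun t _ => hd t)
      (hcont.intervalIntegrable _ _)]
    simp
  rw [← enorm_neg, neg_sub, ← hint, intervalIntegral.integral_of_le zero_le_one,
    ← integral_Icc_eq_integral_Ioc]
  refine (enorm_integral_le_lintegral_enorm _).trans ?_
  rw [← lintegral_const_mul' _ _ enorm_ne_top]
  refine lintegral_mono fun t => ?_
  rw [mul_comm, ← enorm_neg (x - y), neg_sub]
  exact ContinuousLinearMap.le_opENorm _ _

/-- Poincaré inequality for smooth functions on a convex set. -/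
theorem poincare_smooth {n : ℕ} {v : E n → ℝ} (hv : ContDiff ℝ 1 v) {V : Set (E n)}
    (hVm : MeasurableSet V) (hVc : Convex ℝ V) (hVb : Bornology.IsBounded V) :
    ∫⁻ x in V, ∫⁻ y in V, ‖v x - v y‖ₑ ≤
      2 ^ n * ENNReal.ofReal (Metric.diam V) * volume V * ∫⁻ x in V, ‖fderiv ℝ v x‖ₑ := by
  set g : E n → ℝ≥0∞ := fun z => ‖fderiv ℝ v z‖ₑ with hg
  have hcd : Continuous (fderiv ℝ v) := hv.continuous_fderiv (by norm_num)
  have hgc : Continuous g := hcd.enorm
  set G : ℝ≥0∞ := ∫⁻ x in V, g x with hG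
  set gi : E n → ℝ≥0∞ := V.indicator g with hgi
  have hgiG : ∫⁻ x, gi x = G := lintegral_indicator hVm g
  set D : ℝ≥0∞ := ENNReal.ofReal (Metric.diam V) with hD
  -- pointwise bound
  have h1 : ∀ x ∈ V, ∀ y ∈ V, ‖v x - v y‖ₑ ≤
      D * ∫⁻ t in Icc (0 : ℝ) 1, gi ((1 - t) • x + t • y) := by
    intro x hx y hy
    refine (poincare_segment hv x y).trans ?_
    gcongr ?_ * ?_
    · rw [← ofReal_norm, ← dist_eq_norm]
      exact ENNReal.ofReal_le_ofReal (Metric.dist_le_diam_of_mem hVb hx hy)
    · refine setLIntegral_mono' measurableSet_Icc fun t ht => ?_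
      have hmem : (1 - t) • x + t • y ∈ V :=
        hVc hx hy (by linarith [ht.2]) ht.1 (by ring)
      simp [hgi, indicator_of_mem hmem, hg]
  have hgim : Measurable gi := hgc.measurable.indicator hVm
  have hmeas3 : Measurable (fun p : (E n × E n) × ℝ => gi ((1 - p.2) • p.1.1 + p.2 • p.1.2)) := by
    refine hgim.comp ?_
    fun_prop
  have hinner : Measurable (fun p : E n × E n =>
      ∫⁻ t in Icc (0 : ℝ) 1, gi ((1 - t) • p.1 + t • p.2)) :=
    hmeas3.lintegral_prod_right'
  -- bound for fixed t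
  have h2 : ∀ t ∈ Icc (0 : ℝ) 1, ∫⁻ x in V, ∫⁻ y in V, gi ((1 - t) • x + t • y) ≤
      2 ^ n * volume V * G := by
    intro t ht
    rcases le_total (1 / 2) t with h | h
    · calc ∫⁻ x in V, ∫⁻ y in V, gi ((1 - t) • x + t • y)
          ≤ ∫⁻ x in V, 2 ^ n * G := by
            refine lintegral_mono fun x => ?_
            calc ∫⁻ y in V, gi ((1 - t) • x + t • y)
                ≤ ∫⁻ y, gi ((1 - t) • x + t • y) := setLIntegral_le_lintegral _ _
              _ = ∫⁻ y, gi (t • y + (1 - t) • x) := by simp_rw [add_comm]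
              _ ≤ 2 ^ n * ∫⁻ y, gi y := poincare_affine_le gi h _
              _ = 2 ^ n * G := by rw [hgiG]
        _ = 2 ^ n * volume V * G := by
            rw [setLIntegral_const]; ring
    · rw [lintegral_lintegral_swap]
      · calc ∫⁻ y in V, ∫⁻ x in V, gi ((1 - t) • x + t • y)
            ≤ ∫⁻ y in V, 2 ^ n * G := by
              refine lintegral_mono fun y => ?_
              calc ∫⁻ x in V, gi ((1 - t) • x + t • y)
                  ≤ ∫⁻ x, gi ((1 - t) • x + t • y) := setLIntegral_le_lintegral _ _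
                _ ≤ 2 ^ n * ∫⁻ y, gi y := poincare_affine_le gi (by linarith) _
                _ = 2 ^ n * G := by rw [hgiG]
          _ = 2 ^ n * volume V * G := by
              rw [setLIntegral_const]; ring
      · have : Measurable (fun p : E n × E n => gi ((1 - t) • p.1 + t • p.2)) := by
          refine hgim.comp ?_
          fun_prop
        exact this.aemeasurable
  calc ∫⁻ x in V, ∫⁻ y in V, ‖v x - v y‖ₑ
      ≤ ∫⁻ x in V, ∫⁻ y in V, D * ∫⁻ t in Icc (0 : ℝ) 1, gi ((1 - t) • x + t • y) :=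
        setLIntegral_mono' hVm fun x hx => setLIntegral_mono' hVm fun y hy => h1 x hx y hy
    _ = D * ∫⁻ x in V, ∫⁻ y in V, ∫⁻ t in Icc (0 : ℝ) 1, gi ((1 - t) • x + t • y) := by
        rw [← lintegral_const_mul]
        · congr 1
          ext x
          rw [← lintegral_const_mul]
          exact hinner.comp (measurable_const.prodMk measurable_id)
        · exact hinner.lintegral_prod_right'
    _ = D * ∫⁻ x in V, ∫⁻ t in Icc (0 : ℝ) 1, ∫⁻ y in V, gi ((1 - t) • x + t • y) := by
        congr 2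
        ext x
        rw [lintegral_lintegral_swap]
        refine Measurable.aemeasurable ?_
        exact hgim.comp (by fun_prop)
    _ = D * ∫⁻ t in Icc (0 : ℝ) 1, ∫⁻ x in V, ∫⁻ y in V, gi ((1 - t) • x + t • y) := by
        congr 1
        rw [lintegral_lintegral_swap]
        refine Measurable.aemeasurable ?_
        have : Measurable (fun p : (E n × ℝ) × E n => gi ((1 - p.1.2) • p.1.1 + p.1.2 • p.2)) :=
          hgim.comp (by fun_prop)
        exact this.lintegral_prod_right'
    _ ≤ D * ∫⁻ t in Icc (0 : ℝ) 1, 2 ^ n * volume V * G := by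
        exact mul_le_mul_right (setLIntegral_mono' measurableSet_Icc h2) D
    _ = 2 ^ n * D * volume V * G := by
        rw [setLIntegral_const]
        simp
        ring

/-- A smooth unit field which almost realises the norm of a continuous field. -/
theorem poincare_selection {n : ℕ} {G : E n → E n} (hG : Continuous G) {ε : ℝ} (hε : 0 < ε) :
    ∃ g : E n → E n, ContDiff ℝ 1 g ∧ (∀ x, ‖g x‖ ≤ 1) ∧ ∀ x, ‖G x‖ - ε ≤ ⟪g x, G x⟫ := by
  have ht : ∀ x, Convex ℝ {w : E n | ‖w‖ ≤ 1 ∧ ‖G x‖ - ε ≤ ⟪w, G x⟫} := by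
    intro x
    have e1 : {w : E n | ‖w‖ ≤ 1 ∧ ‖G x‖ - ε ≤ ⟪w, G x⟫} =
        Metric.closedBall 0 1 ∩ {w : E n | ‖G x‖ - ε ≤ ⟪w, G x⟫} := by
      ext w; simp
    rw [e1]
    refine (convex_closedBall _ _).inter ?_
    refine convex_halfSpace_ge (f := fun w : E n => ⟪w, G x⟫) ⟨?_, ?_⟩ _
    · intro a b; exact inner_add_left _ _ _
    · intro c a; simp [real_inner_smul_left]
  have hloc : ∀ x : E n, ∃ c : E n, ∀ᶠ y in 𝓝 x,
      c ∈ {w : E n | ‖w‖ ≤ 1 ∧ ‖G y‖ - ε ≤ ⟪w, G y⟫} := by
    intro x
    refine ⟨‖G x‖⁻¹ • G x, ?_⟩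
    have hnorm : ‖‖G x‖⁻¹ • G x‖ ≤ 1 := by
      rw [norm_smul, norm_inv, norm_norm]
      by_cases h0 : ‖G x‖ = 0
      · simp [h0]
      · rw [inv_mul_cancel₀ h0]
    have hcont : Continuous (fun y => ‖G y‖ - ⟪‖G x‖⁻¹ • G x, G y⟫) := by
      exact hG.norm.sub (continuous_const.inner hG)
    have hx : ‖G x‖ - ⟪‖G x‖⁻¹ • G x, G x⟫ < ε := by
      rw [real_inner_smul_left, real_inner_self_eq_norm_sq]
      by_cases h0 : ‖G x‖ = 0
      · simp [h0, hε]
      · have : ‖G x‖⁻¹ * ‖G x‖ ^ 2 = ‖G x‖ := by field_simp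
        rw [this]; simpa using hε
    filter_upwards [hcont.continuousAt.eventually (gt_mem_nhds hx)] with y hy
    exact ⟨hnorm, by linarith⟩
  obtain ⟨g, hg⟩ := exists_contMDiffMap_forall_mem_convex_of_local_const (n := 1)
    (I := 𝓘(ℝ, E n)) ht hloc
  refine ⟨g, ?_, fun x => (hg x).1, fun x => (hg x).2⟩
  have := g.contMDiff
  rw [contMDiff_iff_contDiff] at this
  exact_mod_cast this

/-- Cutoff functions. -/
theorem poincare_cutoff {n : ℕ} {K W : Set (E n)} (hK : IsCompact K) (hW : IsOpen W)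
    (hKW : K ⊆ W) : ∃ χ : E n → ℝ, ContDiff ℝ 1 χ ∧ HasCompactSupport χ ∧ tsupport χ ⊆ W ∧
      (∀ x ∈ K, χ x = 1) ∧ ∀ x, 0 ≤ χ x ∧ χ x ≤ 1 := by
  obtain ⟨L, hL, hKL, hLW⟩ := exists_compact_between hK hW hKW
  obtain ⟨f, h1, h0, hf⟩ := exists_contMDiffMap_one_nhds_of_subset_interior (n := 1)
    (I := 𝓘(ℝ, E n)) hK.isClosed hKL
  have hsupp : tsupport f ⊆ L := by
    refine closure_minimal ?_ hL.isClosed
    intro x hx
    by_contra hxL
    exact hx (h0 x hxL)
  refine ⟨f, ?_, hL.of_isClosed_subset (isClosed_tsupport _) hsupp, hsupp.trans hLW, ?_, ?_⟩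
  · have := f.contMDiff
    rw [contMDiff_iff_contDiff] at this
    exact_mod_cast this
  · intro x hx
    exact h1.self_of_nhdsSet x hx
  · intro x; exact hf x

/-- The total variation of the mollified function on a compact set is at most the total
variation of the function. -/
theorem poincare_dual (h1 : Stmt_Conv) (h2 : Stmt_ConvTest) (h3 : Stmt_IBP) {n : ℕ}
    {ρ : ℕ → E n → ℝ} (hρ : Kern n ρ) {V K : Set (E n)} (hV : IsOpen V) (hK : IsCompact K)
    (hKV : K ⊆ V) {u : E n → ℝ} (hu : IntegrableOn u V) {M : ℝ} (hM : TVle V u M) :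
    ∀ᶠ k in atTop, ∫⁻ x in K, ‖fderiv ℝ (conv (ρ k) (V.indicator u)) x‖ₑ ≤
      ENNReal.ofReal M := by
  obtain ⟨δ, hδ, hδV⟩ := hK.exists_cthickening_subset_open hV hKV
  have hδ2 : 0 < δ / 2 := by positivity
  obtain ⟨χ, hχd, hχc, hχs, hχ1, hχ01⟩ := poincare_cutoff hK (Metric.isOpen_thickening (δ := δ / 2))
    (Metric.self_subset_thickening hδ2 K)
  have hev : ∀ᶠ k : ℕ in atTop, 1 / ((k : ℝ) + 1) < δ / 2 :=
    (tendsto_one_div_add_atTop_nhds_zero_nat (𝕜 := ℝ)).eventually (gt_mem_nhds hδ2)
  have hw : Integrable (V.indicator u) := hu.integrable_indicator hV.measurableSet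
  filter_upwards [hev] with k hk
  set w := V.indicator u with hwdef
  set v := conv (ρ k) w with hvdef
  have hv : ContDiff ℝ 1 v := (h1 n ρ hρ w hw.locallyIntegrable).1 k
  have hfc : Continuous (fderiv ℝ v) := hv.continuous_fderiv (by norm_num)
  set G : E n → E n := fun x => (InnerProductSpace.toDual ℝ (E n)).symm (fderiv ℝ v x) with hGdef
  have hGc : Continuous G := (InnerProductSpace.toDual ℝ (E n)).symm.continuous.comp hfc
  have hGn : ∀ x, ‖G x‖ = ‖fderiv ℝ v x‖ := fun x => LinearIsometryEquiv.norm_map _ _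
  have hGi : ∀ x y, ⟪y, G x⟫ = fderiv ℝ v x y := by
    intro x y
    rw [real_inner_comm]
    exact InnerProductSpace.toDual_symm_apply
  have hfcK : IntegrableOn (fun x => ‖fderiv ℝ v x‖) K := hfc.norm.continuousOn.integrableOn_compact hK
  have hχi : Integrable χ := hχd.continuous.integrable_of_hasCompactSupport hχc
  -- the bound with `ε`
  have key : ∀ ε : ℝ, 0 < ε → ∫ x in K, ‖fderiv ℝ v x‖ ≤ M + ε * ∫ x, χ x := by
    intro ε hε
    obtain ⟨g, hg, hg1, hgG⟩ := poincare_selection hGc hε
    set X : E n → E n := fun x => χ x • g x with hX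
    have hXd : ContDiff ℝ 1 X := hχd.smul hg
    have hXs : tsupport X ⊆ tsupport χ := closure_mono (Function.support_smul_subset_left χ g)
    have hXc : HasCompactSupport X := hχc.of_isClosed_subset (isClosed_tsupport _) hXs
    have hXn : ∀ x, ‖X x‖ ≤ 1 := by
      intro x
      rw [hX, norm_smul, Real.norm_eq_abs, abs_of_nonneg (hχ01 x).1]
      exact mul_le_one₀ (hχ01 x).2 (norm_nonneg _) (hg1 x)
    have hTF : TF (Metric.thickening (δ / 2) K) X := ⟨hXd, hXc, hXs.trans hχs⟩
    obtain ⟨X', hX', hXb, -, hXe⟩ := h2 n ρ hρ w hw.locallyIntegrable k V _ X hV hTF (by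
      intro x hx y hy
      refine hδV (Metric.thickening_subset_cthickening _ _ ?_)
      rw [Metric.mem_thickening_iff] at hx ⊢
      obtain ⟨z, hz, hxz⟩ := hx
      refine ⟨z, hz, ?_⟩
      calc dist (x + y) z ≤ dist (x + y) x + dist x z := dist_triangle _ _ _
        _ < δ / 2 + δ / 2 := by
          refine add_lt_add ?_ hxz
          simpa [dist_eq_norm] using lt_of_le_of_lt hy hk
        _ = δ := by ring)
    have hXd0 : TF univ X := ⟨hXd, hXc, subset_univ _⟩
    have hibp := h3 n univ v X isOpen_univ hv.contDiffOn hXd0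
    simp only [Measure.restrict_univ] at hibp
    -- upper bound
    have hup : ∫ x, fderiv ℝ v x (X x) ≤ M := by
      have hneg : TF V (fun x => - X' x) := by
        refine ⟨hX'.diff.neg, hX'.comp.neg, ?_⟩
        have : tsupport (fun x => - X' x) = tsupport X' := by
          rw [tsupport, tsupport, show (fun x => - X' x) = - X' from rfl, Function.support_neg]
        rw [this]; exact hX'.supp
      have hb := hM (fun x => - X' x) hneg (fun x => by
        rw [norm_neg]; exact hXb 1 hXn x)
      have hdv : ∀ x, dv (fun x => - X' x) x = - dv X' x := by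
        intro x
        simp only [dv]
        rw [show (fun x => - X' x) = - X' from rfl]
        simp [fderiv_neg]
      have h5 : ∫ x, w x * dv X' x = ∫ x in V, u x * dv X' x := by
        rw [← integral_indicator hV.measurableSet]
        congr 1
        ext x
        by_cases hx : x ∈ V
        · simp [hwdef, hx]
        · simp [hwdef, hx]
      have h6 : ∫ x in V, u x * dv (fun x => - X' x) x = - ∫ x in V, u x * dv X' x := by
        rw [← integral_neg]
        congr 1
        ext x
        rw [hdv]; ring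
      linarith
    -- lower bound
    have hint1 : Integrable (fun x => fderiv ℝ v x (X x)) := by
      refine (hfc.clm_apply hXd.continuous).integrable_of_hasCompactSupport ?_
      refine hXc.mono ?_
      intro x hx hx'
      apply hx
      simp only at hx' ⊢
      rw [hx']; simp
    have hlow : ∫ x in K, ‖fderiv ℝ v x‖ ≤ (∫ x, fderiv ℝ v x (X x)) + ε * ∫ x, χ x := by
      rw [← integral_const_mul, ← integral_add hint1 (hχi.const_mul ε),
        ← integral_indicator hK.measurableSet]
      refine integral_mono ((integrable_indicator_iff hK.measurableSet).2 hfcK)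
        (hint1.add (hχi.const_mul ε)) ?_
      intro x
      have h7 : fderiv ℝ v x (X x) = χ x * ⟪g x, G x⟫ := by
        rw [hGi, hX]; simp
      have h8 := hgG x
      have h9 := hχ01 x
      by_cases hx : x ∈ K
      · rw [indicator_of_mem hx]
        have h10 := hχ1 x hx
        simp only
        rw [h7, h10, ← hGn]
        linarith
      · rw [indicator_of_notMem hx]
        simp only
        rw [h7, mul_comm ε, ← mul_add]
        have : 0 ≤ ⟪g x, G x⟫ + ε := by linarith [norm_nonneg (G x)]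
        exact mul_nonneg h9.1 this
    linarith
  have hle : ∫ x in K, ‖fderiv ℝ v x‖ ≤ M := by
    have hχnn : 0 ≤ ∫ x, χ x := integral_nonneg fun x => (hχ01 x).1
    refine le_of_forall_pos_le_add fun η hη => ?_
    have h10 := key (η / ((∫ x, χ x) + 1)) (by positivity)
    have h11 : η / ((∫ x, χ x) + 1) * ∫ x, χ x ≤ η := by
      rw [div_mul_eq_mul_div, div_le_iff₀ (by positivity)]
      nlinarith
    linarith
  rw [← ofReal_integral_norm_eq_lintegral_enorm]
  · exact ENNReal.ofReal_le_ofReal hle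
  · exact hfc.continuousOn.integrableOn_compact hK

/-- The Poincaré inequality on a compact convex subset of `V`. -/
theorem poincare_compact (h1 : Stmt_Conv) (h2 : Stmt_ConvTest) (h3 : Stmt_IBP) {n : ℕ}
    {ρ : ℕ → E n → ℝ} (hρ : Kern n ρ) {V K : Set (E n)} (hV : IsOpen V) (hK : IsCompact K)
    (hKc : Convex ℝ K) (hVb : Bornology.IsBounded V)
    (hKV : K ⊆ V) {u : E n → ℝ} (hu : IntegrableOn u V) {M : ℝ} (hM : TVle V u M) :
    ∫⁻ x in K, ∫⁻ y in K, ‖V.indicator u x - V.indicator u y‖ₑ ≤
      2 ^ n * ENNReal.ofReal (Metric.diam V) * volume V * ENNReal.ofReal M := by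
  set w := V.indicator u with hwdef
  have hw : Integrable w := hu.integrable_indicator hV.measurableSet
  obtain ⟨hcd, htend⟩ := h1 n ρ hρ w hw.locallyIntegrable
  have hKfin : volume K ≠ ∞ := hK.measure_ne_top
  -- the error terms
  have ha : Tendsto (fun k => ∫⁻ x in K, ‖conv (ρ k) w x - w x‖ₑ) atTop (𝓝 0) := by
    have e : ∀ k, ∫⁻ x in K, ‖conv (ρ k) w x - w x‖ₑ =
        ENNReal.ofReal (∫ x in K, |conv (ρ k) w x - w x|) := by
      intro k
      have := ofReal_integral_norm_eq_lintegral_enorm (μ := volume.restrict K)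
        (f := fun x => conv (ρ k) w x - w x)
        (((hcd k).continuous.continuousOn.integrableOn_compact hK).sub hw.integrableOn)
      rw [← this]
      rfl
    simp_rw [e]
    have := ENNReal.tendsto_ofReal (htend K hK)
    simpa using this
  have hlim : Tendsto (fun k => volume K * (∫⁻ x in K, ‖conv (ρ k) w x - w x‖ₑ) +
      (2 ^ n * ENNReal.ofReal (Metric.diam V) * volume V * ENNReal.ofReal M +
        volume K * (∫⁻ x in K, ‖conv (ρ k) w x - w x‖ₑ))) atTop
      (𝓝 (2 ^ n * ENNReal.ofReal (Metric.diam V) * volume V * ENNReal.ofReal M)) := by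
    have h5 : Tendsto (fun k => volume K * (∫⁻ x in K, ‖conv (ρ k) w x - w x‖ₑ)) atTop (𝓝 0) := by
      have := ENNReal.Tendsto.const_mul ha (Or.inr hKfin)
      simpa using this
    have h6 := h5.add ((tendsto_const_nhds (x := 2 ^ n * ENNReal.ofReal (Metric.diam V) *
      volume V * ENNReal.ofReal M)).add h5)
    simpa using h6
  refine ge_of_tendsto hlim ?_
  filter_upwards [poincare_dual h1 h2 h3 hρ hV hK hKV hu hM] with k hk
  set v := conv (ρ k) w with hvdef
  have hv : ContDiff ℝ 1 v := hcd k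
  have hvm : Measurable v := hv.continuous.measurable
  have hwm : AEMeasurable w (volume.restrict K) := hw.aestronglyMeasurable.aemeasurable.restrict
  have hm1 : AEMeasurable (fun x => ‖v x - w x‖ₑ) (volume.restrict K) :=
    (hvm.aemeasurable.sub hwm).enorm
  have hps := poincare_smooth hv hK.measurableSet hKc (hVb.subset hKV)
  have hvv : Measurable (fun p : E n × E n => ‖v p.1 - v p.2‖ₑ) :=
    ((hvm.comp measurable_fst).sub (hvm.comp measurable_snd)).enorm
  calc ∫⁻ x in K, ∫⁻ y in K, ‖w x - w y‖ₑ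
      ≤ ∫⁻ x in K, ∫⁻ y in K, (‖v x - w x‖ₑ + (‖v x - v y‖ₑ + ‖v y - w y‖ₑ)) := by
        refine lintegral_mono fun x => lintegral_mono fun y => ?_
        have e : w x - w y = -(v x - w x) + ((v x - v y) + (v y - w y)) := by ring
        calc ‖w x - w y‖ₑ = ‖-(v x - w x) + ((v x - v y) + (v y - w y))‖ₑ := by rw [e]
          _ ≤ ‖-(v x - w x)‖ₑ + ‖(v x - v y) + (v y - w y)‖ₑ := enorm_add_le _ _
          _ ≤ ‖v x - w x‖ₑ + (‖v x - v y‖ₑ + ‖v y - w y‖ₑ) := by
            rw [enorm_neg]
            gcongr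
            exact enorm_add_le _ _
    _ = ∫⁻ x in K, (volume K * ‖v x - w x‖ₑ + ((∫⁻ y in K, ‖v x - v y‖ₑ) +
          ∫⁻ y in K, ‖v y - w y‖ₑ)) := by
        refine lintegral_congr fun x => ?_
        rw [lintegral_add_left measurable_const, setLIntegral_const, lintegral_add_right' _ hm1,
          mul_comm]
    _ = volume K * (∫⁻ x in K, ‖v x - w x‖ₑ) + ((∫⁻ x in K, ∫⁻ y in K, ‖v x - v y‖ₑ) +
          volume K * ∫⁻ y in K, ‖v y - w y‖ₑ) := by
        rw [lintegral_add_left' (hm1.const_mul _), lintegral_const_mul'' _ hm1,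
          lintegral_add_right _ measurable_const, setLIntegral_const, mul_comm (∫⁻ y in K, _)]
    _ ≤ _ := by
        gcongr
        refine hps.trans ?_
        gcongr
        exact Metric.diam_mono hKV hVb

/-- A compact convex exhaustion. -/
def poincare_inner {n : ℕ} (V : Set (E n)) (j : ℕ) : Set (E n) :=
  {x | Metric.ball x (1 / (j + 1 : ℝ)) ⊆ V}

theorem poincare_inner_sub {n : ℕ} (V : Set (E n)) (j : ℕ) : poincare_inner V j ⊆ V :=
  fun _ hx => hx (Metric.mem_ball_self (by positivity))

theorem poincare_inner_mono {n : ℕ} (V : Set (E n)) : Monotone (poincare_inner V) := by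
  intro i j hij x hx
  refine (Metric.ball_subset_ball ?_).trans hx
  exact one_div_le_one_div_of_le (by positivity) (by exact_mod_cast Nat.succ_le_succ hij)

theorem poincare_inner_iUnion {n : ℕ} {V : Set (E n)} (hV : IsOpen V) :
    ⋃ j, poincare_inner V j = V := by
  refine Subset.antisymm (iUnion_subset fun j => poincare_inner_sub V j) ?_
  intro x hx
  obtain ⟨ε, hε, hb⟩ := Metric.isOpen_iff.1 hV x hx
  obtain ⟨j, hj⟩ := exists_nat_one_div_lt hε
  exact mem_iUnion.2 ⟨j, (Metric.ball_subset_ball hj.le).trans hb⟩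

theorem poincare_inner_convex {n : ℕ} {V : Set (E n)} (hV : Convex ℝ V) (j : ℕ) :
    Convex ℝ (poincare_inner V j) := by
  intro x hx y hy a b ha hb hab z hz
  have hx' : x + (z - (a • x + b • y)) ∈ V := by
    apply hx
    rw [Metric.mem_ball, dist_eq_norm] at hz ⊢
    simpa using hz
  have hy' : y + (z - (a • x + b • y)) ∈ V := by
    apply hy
    rw [Metric.mem_ball, dist_eq_norm] at hz ⊢
    simpa using hz
  have := hV hx' hy' ha hb hab
  convert this using 1
  rw [smul_add, smul_add, add_add_add_comm, ← add_smul, hab, one_smul]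
  abel

theorem poincare_inner_closed {n : ℕ} (V : Set (E n)) (j : ℕ) :
    IsClosed (poincare_inner V j) := by
  rw [← isOpen_compl_iff, Metric.isOpen_iff]
  intro x hx
  simp only [poincare_inner, mem_compl_iff, mem_ofPred_eq, not_subset] at hx
  obtain ⟨z, hz, hzV⟩ := hx
  rw [Metric.mem_ball] at hz
  refine ⟨1 / (j + 1 : ℝ) - dist z x, by linarith, ?_⟩
  intro y hy
  simp only [poincare_inner, mem_compl_iff, mem_ofPred_eq, not_subset]
  refine ⟨z, ?_, hzV⟩
  rw [Metric.mem_ball] at hy ⊢
  have := dist_triangle z x y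
  rw [dist_comm x y] at this
  linarith

theorem poincare (hK : Stmt_Kern) (h1 : Stmt_Conv) (h2 : Stmt_ConvTest) (h3 : Stmt_IBP) :
    Stmt_Poincare := by
  intro n
  refine ⟨2 ^ n, by positivity, ?_⟩
  intro V u M hV hVc hVb hu hM
  obtain ⟨ρ, hρ⟩ := hK n
  have hVfin : volume V ≠ ∞ := hVb.measure_lt_top.ne
  have : IsFiniteMeasure (volume.restrict V) := ⟨by
    rw [Measure.restrict_apply_univ]; exact hVb.measure_lt_top⟩
  have hM0 : 0 ≤ M := by
    have := hM 0 ⟨contDiff_const, HasCompactSupport.zero, by simp [tsupport]⟩ (by simp)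
    simpa [dv] using this
  set w := V.indicator u with hwdef
  have hw : Integrable w := hu.integrable_indicator hV.measurableSet
  have hcongr : ∫ x in V, ∫ y in V, |u x - u y| = ∫ x in V, ∫ y in V, |w x - w y| := by
    refine setIntegral_congr_fun hV.measurableSet fun x hx => ?_
    refine setIntegral_congr_fun hV.measurableSet fun y hy => ?_
    simp [hwdef, hx, hy]
  have hint : Integrable (fun z : E n × E n => w z.1 - w z.2)
      ((volume.restrict V).prod (volume.restrict V)) :=
    (hw.integrableOn.comp_fst _).sub (hw.integrableOn.comp_snd _)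
  have hprod : ∫ x in V, ∫ y in V, |w x - w y| =
      (∫⁻ z, ‖w z.1 - w z.2‖ₑ ∂((volume.restrict V).prod (volume.restrict V))).toReal := by
    rw [← integral_norm_eq_lintegral_enorm hint.aestronglyMeasurable,
      integral_prod _ hint.norm]
    rfl
  have hwm : AEMeasurable w volume := hw.aestronglyMeasurable.aemeasurable
  have hFm : AEMeasurable (fun z : E n × E n => ‖w z.1 - w z.2‖ₑ)
      (volume.prod volume) := (hwm.comp_fst.sub hwm.comp_snd).enorm
  have hbound : ∫⁻ z, ‖w z.1 - w z.2‖ₑ ∂((volume.restrict V).prod (volume.restrict V)) ≤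
      2 ^ n * ENNReal.ofReal (Metric.diam V) * volume V * ENNReal.ofReal M := by
    have hun : V ×ˢ V = ⋃ j, poincare_inner V j ×ˢ poincare_inner V j := by
      conv_lhs => rw [← poincare_inner_iUnion hV]
      exact (iUnion_prod_of_monotone (poincare_inner_mono V) (poincare_inner_mono V)).symm
    rw [Measure.prod_restrict, hun, setLIntegral_iUnion_of_directed]
    · refine iSup_le fun j => ?_
      rw [← Measure.prod_restrict, lintegral_prod _ (hFm.mono_measure
        (by rw [Measure.prod_restrict]; exact Measure.restrict_le_self))]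
      refine poincare_compact h1 h2 h3 hρ hV ?_ (poincare_inner_convex hVc j) hVb
        (poincare_inner_sub V j) hu hM
      exact Metric.isCompact_of_isClosed_isBounded (poincare_inner_closed V j)
        (hVb.subset (poincare_inner_sub V j))
    · refine Monotone.directed_le ?_
      intro i j hij
      exact prod_mono (poincare_inner_mono V hij) (poincare_inner_mono V hij)
  rw [hcongr, hprod]
  refine (ENNReal.toReal_mono ?_ hbound).trans (le_of_eq ?_)
  · exact ENNReal.mul_ne_top (ENNReal.mul_ne_top (ENNReal.mul_ne_top (by simp)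
      ENNReal.ofReal_ne_top) hVfin) ENNReal.ofReal_ne_top
  · rw [ENNReal.toReal_mul, ENNReal.toReal_mul, ENNReal.toReal_mul, ENNReal.toReal_pow,
      ENNReal.toReal_ofReal Metric.diam_nonneg, ENNReal.toReal_ofReal hM0]
    simp

end Pool.Agent.Lib.MP_c95dcf_gt
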