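import Mathlib
import Pool.Agent.Lib.MP_c95dcf_gt.GStmts

/-!
# MP_c95dcf_gt, G08: the relative isoperimetric inequality in a convex body
-/

set_option autoImplicit false

open MeasureTheory Set Filter Topology
open scoped ENNReal NNReal RealInnerProductSpace

namespace Pool.Agent.Lib.MP_c95dcf_gt

theorem relIso_dv_eq {n : ℕ} (X : E n → E n) : dv X = (fun L : E n →L[ℝ] E n =>
    ∑ i, (EuclideanSpace.proj i : E n →L[ℝ] ℝ) (L (EuclideanSpace.single i (1 : ℝ)))) ∘
      (fderiv ℝ X) := rfl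

theorem relIso_dv_continuous {n : ℕ} {X : E n → E n} (hX : ContDiff ℝ 1 X) :
    Continuous (dv X) := by
  rw [relIso_dv_eq]
  have h1 : Continuous (fderiv ℝ X) := hX.continuous_fderiv (by norm_num)
  refine Continuous.comp ?_ h1
  refine continuous_finsetSum _ fun i _ => ?_
  exact (EuclideanSpace.proj i : E n →L[ℝ] ℝ).continuous.comp
    (ContinuousLinearMap.apply ℝ (E n) (EuclideanSpace.single i (1 : ℝ))).continuous

theorem relIso_dv_compact {n : ℕ} {X : E n → E n} (hX : HasCompactSupport X) :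
    HasCompactSupport (dv X) := by
  rw [relIso_dv_eq]
  exact (hX.fderiv ℝ).comp_left (by simp)

theorem relIso_dv_integrable {n : ℕ} {U : Set (E n)} {X : E n → E n} (hX : TF U X) :
    Integrable (dv X) :=
  (relIso_dv_continuous hX.diff).integrable_of_hasCompactSupport (relIso_dv_compact hX.comp)

theorem relIso_dv_add {n : ℕ} {X Y : E n → E n} (hX : ContDiff ℝ 1 X) (hY : ContDiff ℝ 1 Y)
    (x : E n) : dv (fun y => X y + Y y) x = dv X x + dv Y x := by
  unfold dv
  rw [← Finset.sum_add_distrib]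
  refine Finset.sum_congr rfl fun i _ => ?_
  have h1 : DifferentiableAt ℝ X x := (hX.differentiable (by norm_num)) x
  have h2 : DifferentiableAt ℝ Y x := (hY.differentiable (by norm_num)) x
  rw [fderiv_fun_add h1 h2]
  rfl

theorem relIso_TF_zero {n : ℕ} (U : Set (E n)) : TF U (fun _ : E n => (0 : E n)) where
  diff := contDiff_const
  comp := HasCompactSupport.zero
  supp := by
    have : tsupport (fun _ : E n => (0 : E n)) = ∅ := by
      rw [tsupport_eq_empty_iff]
      rfl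
    rw [this]
    exact empty_subset _

theorem relIso_TF_mono {n : ℕ} {U V : Set (E n)} (h : V ⊆ U) {X : E n → E n} (hX : TF V X) :
    TF U X := ⟨hX.diff, hX.comp, hX.supp.trans h⟩

theorem relIso_TF_add {n : ℕ} {V W : Set (E n)} {X Y : E n → E n} (hX : TF V X) (hY : TF W Y) :
    TF (V ∪ W) (fun y => X y + Y y) where
  diff := hX.diff.add hY.diff
  comp := hX.comp.add hY.comp
  supp := (tsupport_add X Y).trans (union_subset_union hX.supp hY.supp)

theorem relIso_le_Per {n : ℕ} {U A : Set (E n)} {X : E n → E n} (hX : TF U X)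
    (h1 : ∀ x, ‖X x‖ ≤ 1) : ENNReal.ofReal (∫ x in A, dv X x) ≤ Per U A :=
  le_iSup₂_of_le X ⟨hX, h1⟩ le_rfl

theorem relIso_per_add_le {n : ℕ} (V W A : Set (E n)) (hd : Disjoint V W) :
    Per V A + Per W A ≤ Per (V ∪ W) A := by
  have h0 : ∀ U : Set (E n), ∃ X : E n → E n, TF U X ∧ ∀ x, ‖X x‖ ≤ 1 := fun U =>
    ⟨_, relIso_TF_zero U, fun x => by simp⟩
  refine ENNReal.biSup_add_biSup_le' (h0 V) (h0 W) ?_
  rintro X ⟨hX, hX1⟩ Y ⟨hY, hY1⟩
  by_cases ha : (∫ x in A, dv X x) ≤ 0
  · rw [ENNReal.ofReal_of_nonpos ha, zero_add]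
    exact relIso_le_Per (relIso_TF_mono subset_union_right hY) hY1
  by_cases hb : (∫ x in A, dv Y x) ≤ 0
  · rw [ENNReal.ofReal_of_nonpos hb, add_zero]
    exact relIso_le_Per (relIso_TF_mono subset_union_left hX) hX1
  push Not at ha hb
  rw [← ENNReal.ofReal_add ha.le hb.le, ← integral_add (relIso_dv_integrable hX).integrableOn
    (relIso_dv_integrable hY).integrableOn]
  have e : ∀ x, dv X x + dv Y x = dv (fun y => X y + Y y) x := fun x =>
    (relIso_dv_add hX.diff hY.diff x).symm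
  simp only [e]
  refine relIso_le_Per (relIso_TF_add hX hY) fun x => ?_
  by_cases hx : X x = 0
  · simpa [hx] using hY1 x
  · have hxV : x ∈ V := hX.supp (subset_tsupport X hx)
    have hy : Y x = 0 := by
      by_contra hy
      exact (Set.disjoint_left.1 hd) hxV (hY.supp (subset_tsupport Y hy))
    simpa [hy] using hX1 x

theorem relIso_per_sum_le {n : ℕ} {ι : Type*} (s : Finset ι) (V : ι → Set (E n))
    (A : Set (E n)) (hd : (s : Set ι).PairwiseDisjoint V) :
    ∑ i ∈ s, Per (V i) A ≤ Per (⋃ i ∈ s, V i) A := by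
  classical
  induction s using Finset.induction_on with
  | empty => simp
  | insert i s hi ih =>
    rw [Finset.sum_insert hi, Finset.set_biUnion_insert]
    have h1 : ∑ i ∈ s, Per (V i) A ≤ Per (⋃ i ∈ s, V i) A :=
      ih (hd.subset (by simp))
    refine (add_le_add_right h1 _).trans (relIso_per_add_le _ _ _ ?_)
    rw [Set.disjoint_iUnion₂_right]
    intro j hj
    refine hd (by simp) (by simp [hj]) ?_
    rintro rfl
    exact hi hj

/-- The estimate at one point. -/
theorem relIso_point {n : ℕ} {C cb r : ℝ} (hC : 0 < C) (hcb : 0 < cb) (hr : 0 < r) (hn : 2 ≤ n)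
    {a b v d p : ℝ} (hab : a + b = v) (hav : a ≤ v / 2) (hv : 0 < v) (hd : d ≤ 2 * r)
    (hp : 0 ≤ p) (ha : cb * (r / 2) ^ n / 2 ≤ a) (h : a * b ≤ C * d * v * p) :
    r ^ (n - 1) ≤ (2 ^ (n + 3) * C / cb) * p := by
  have hb : v / 2 ≤ b := by linarith
  have ha0 : 0 ≤ a := le_trans (by positivity) ha
  have h1 : a * (v / 2) ≤ C * (2 * r) * v * p := by
    calc a * (v / 2) ≤ a * b := by gcongr
      _ ≤ C * d * v * p := h
      _ ≤ C * (2 * r) * v * p := by gcongr
  have h2 : a ≤ 4 * C * r * p := by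
    have : v * (a) ≤ v * (4 * C * r * p) := by nlinarith
    exact le_of_mul_le_mul_left this hv
  have h3 : cb * (r / 2) ^ n / 2 ≤ 4 * C * r * p := ha.trans h2
  have hn1 : n = (n - 1) + 1 := by omega
  have h4 : (r / 2) ^ n = r ^ (n - 1) * r / 2 ^ n := by
    rw [div_pow]
    congr 1
    conv_lhs => rw [hn1, pow_succ]
  rw [h4] at h3
  have h5 : r * (cb * r ^ (n - 1)) ≤ r * (2 ^ (n + 3) * C * p) := by
    have h6 : cb * (r ^ (n - 1) * r / 2 ^ n) / 2 * (2 ^ (n + 1)) ≤ 4 * C * r * p * 2 ^ (n + 1) := by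
      gcongr
    have h7 : cb * (r ^ (n - 1) * r / 2 ^ n) / 2 * (2 ^ (n + 1)) = r * (cb * r ^ (n - 1)) := by
      rw [pow_succ]
      field_simp
    have h8 : 4 * C * r * p * 2 ^ (n + 1) = r * (2 ^ (n + 3) * C * p) := by
      rw [show n + 3 = (n + 1) + 2 by ring, pow_add _ (n + 1) 2]
      ring
    rw [h7, h8] at h6
    exact h6
  have h9 := le_of_mul_le_mul_left h5 hr
  rw [div_mul_eq_mul_div, le_div_iff₀ hcb]
  linarith

/-- At almost every point there is a scale at which both sets have a definite proportion. -/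
theorem relIso_scale {n : ℕ} {U : Set (E n)} {D : ℝ} (hD : 0 < D)
    (hUD : ∀ x ∈ U, U ⊆ Metric.ball x (2 * D)) (hUfin : volume U ≠ ∞)
    {S₁ S₂ : Set (E n)} (hS₂ : MeasurableSet S₂) (hun : S₁ ∪ S₂ = U)
    (hdis : Disjoint S₁ S₂) (hle : volume S₁ ≤ volume S₂)
    (x : E n) (hx : x ∈ S₁)
    (hT : Tendsto (fun r => volume (S₁ ∩ Metric.closedBall x r) /
      volume (Metric.closedBall x r)) (𝓝[>] 0) (𝓝 1)) :
    ∃ r : ℝ, 0 < r ∧ r ≤ 2 * D ∧
      volume (U ∩ Metric.ball x (r / 2)) / 2 ≤ volume (S₁ ∩ Metric.ball x (r / 2)) ∧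
      volume (S₁ ∩ Metric.ball x r) ≤ volume (U ∩ Metric.ball x r) / 2 := by
  have hS₁U : S₁ ⊆ U := hun ▸ subset_union_left
  have hvol : volume U = volume S₁ + volume S₂ := by
    rw [← hun, measure_union hdis hS₂]
  have hS₁fin : volume S₁ ≠ ∞ := ne_top_of_le_ne_top hUfin (measure_mono hS₁U)
  let ρ : ℕ → ℝ := fun k => 2 * D / 2 ^ k
  have hρ0 : ∀ k, 0 < ρ k := fun k => by positivity
  have hρt : Tendsto ρ atTop (𝓝[>] 0) := by
    refine tendsto_nhdsWithin_iff.2 ⟨?_, Eventually.of_forall fun k => hρ0 k⟩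
    have h1 : Tendsto (fun k : ℕ => (2 * D) * (1 / 2 : ℝ) ^ k) atTop (𝓝 ((2 * D) * 0)) :=
      (tendsto_pow_atTop_nhds_zero_of_lt_one (by norm_num) (by norm_num)).const_mul _
    rw [mul_zero] at h1
    refine h1.congr fun k => ?_
    simp only [ρ, one_div, inv_pow]
    rfl
  have hex : ∃ k, volume (U ∩ Metric.ball x (ρ k)) / 2 < volume (S₁ ∩ Metric.ball x (ρ k)) := by
    have h1 : ∀ᶠ k in atTop, (1 / 2 : ℝ≥0∞) < volume (S₁ ∩ Metric.closedBall x (ρ k)) /
      volume (Metric.closedBall x (ρ k)) :=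
      (hT.comp hρt).eventually (lt_mem_nhds (by
        rw [one_div]; exact ENNReal.inv_lt_one.2 (by norm_num)))
    obtain ⟨k, hk⟩ := h1.exists
    refine ⟨k, ?_⟩
    have hcb0 : volume (Metric.closedBall x (ρ k)) ≠ 0 :=
      (Metric.measure_closedBall_pos volume x (hρ0 k)).ne'
    have hcbt : volume (Metric.closedBall x (ρ k)) ≠ ∞ := measure_closedBall_lt_top.ne
    rw [ENNReal.lt_div_iff_mul_lt (Or.inl hcb0) (Or.inl hcbt)] at hk
    calc volume (U ∩ Metric.ball x (ρ k)) / 2
        ≤ volume (Metric.closedBall x (ρ k)) / 2 := by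
          gcongr
          exact inter_subset_right.trans Metric.ball_subset_closedBall
      _ = 1 / 2 * volume (Metric.closedBall x (ρ k)) := by
          rw [one_div, mul_comm, div_eq_mul_inv]
      _ < volume (S₁ ∩ Metric.closedBall x (ρ k)) := hk
      _ ≤ volume ((S₁ ∩ Metric.ball x (ρ k)) ∪ Metric.sphere x (ρ k)) := by
          refine measure_mono ?_
          rintro y ⟨hy1, hy2⟩
          rcases (Metric.mem_closedBall.1 hy2).lt_or_eq with h | h
          · exact Or.inl ⟨hy1, h⟩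
          · exact Or.inr h
      _ ≤ volume (S₁ ∩ Metric.ball x (ρ k)) + volume (Metric.sphere x (ρ k)) :=
          measure_union_le _ _
      _ = volume (S₁ ∩ Metric.ball x (ρ k)) := by
          rw [Measure.addHaar_sphere_of_ne_zero _ _ (hρ0 k).ne', add_zero]
  classical
  have hk0 : Nat.find hex ≠ 0 := by
    intro h
    have h1 := Nat.find_spec hex
    rw [h] at h1
    have h2 : ρ 0 = 2 * D := by simp [ρ]
    rw [h2, inter_eq_left.2 (hUD x (hS₁U hx)), inter_eq_left.2 (hS₁U.trans (hUD x (hS₁U hx))),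
      hvol] at h1
    have h3 : volume S₁ ≤ (volume S₁ + volume S₂) / 2 := by
      rw [ENNReal.le_div_iff_mul_le (Or.inl (by norm_num)) (Or.inl (by norm_num)), mul_two]
      gcongr
    exact absurd h1 (not_lt.2 h3)
  obtain ⟨k, hk⟩ := Nat.exists_eq_succ_of_ne_zero hk0
  refine ⟨ρ k, hρ0 k, ?_, ?_, ?_⟩
  · simp only [ρ]
    exact div_le_self (by positivity) (one_le_pow₀ (by norm_num))
  · have h1 := (Nat.find_spec hex).le
    rw [hk] at h1
    have h2 : ρ (Nat.succ k) = ρ k / 2 := by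
      simp only [ρ, pow_succ]
      field_simp
    rwa [h2] at h1
  · have h1 := Nat.find_min hex (m := k) (by omega)
    exact not_lt.1 h1

/-- The covering argument. -/
theorem relIso_core {n : ℕ} (hn : 2 ≤ n) {U : Set (E n)} (hU : IsOpen U) (hc : Convex ℝ U)
    (hb : Bornology.IsBounded U) {D C cb : ℝ} (hD : 0 < D)
    (hUD : ∀ x ∈ U, U ⊆ Metric.ball x (2 * D)) (hC : 0 < C) (hcb : 0 < cb)
    (hball : ∀ x ∈ U, ∀ r : ℝ, 0 < r → r ≤ D →
      ENNReal.ofReal (cb * r ^ n) ≤ volume (U ∩ Metric.ball x r))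
    (A S₁ S₂ : Set (E n)) (hS₁ : MeasurableSet S₁) (hS₂ : MeasurableSet S₂) (hun : S₁ ∪ S₂ = U)
    (hdis : Disjoint S₁ S₂) (hle : volume S₁ ≤ volume S₂) (hpos : volume S₁ ≠ 0)
    (hP : ∀ V, IsOpen V → Convex ℝ V → V ⊆ U →
      (volume (S₁ ∩ V)).toReal * (volume (S₂ ∩ V)).toReal ≤
        C * Metric.diam V * (volume V).toReal * (Per V A).toReal)
    (hfin : Per U A ≠ ∞) (hmono : ∀ V ⊆ U, Per V A ≤ Per U A) :
    (volume S₁).toReal ≤ (5 ^ n * (2 * (2 * (volume S₁).toReal / cb) ^ ((n : ℝ)⁻¹)) *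
      (2 ^ (n + 3) * C / cb)) * (volume (Metric.ball (0 : E n) 1)).toReal *
        (Per U A).toReal := by
  have hUfin : volume U ≠ ∞ := hb.measure_lt_top.ne
  have hS₁U : S₁ ⊆ U := hun ▸ subset_union_left
  have hS₁fin : volume S₁ ≠ ∞ := ne_top_of_le_ne_top hUfin (measure_mono hS₁U)
  set s : ℝ := (volume S₁).toReal with hs
  have hs0 : 0 < s := ENNReal.toReal_pos hpos hS₁fin
  set ρ : ℝ := 2 * (2 * s / cb) ^ ((n : ℝ)⁻¹) with hρ
  set K : ℝ := 2 ^ (n + 3) * C / cb with hK
  have hK0 : 0 < K := by positivity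
  have hρ0 : 0 < ρ := by positivity
  have hn0 : (n : ℝ) ≠ 0 := by
    have : (0 : ℕ) < n := by omega
    exact_mod_cast this.ne'
  -- the good points
  let T : Set (E n) := {x | x ∈ S₁ ∧ ∃ r : ℝ, 0 < r ∧ r ≤ 2 * D ∧
      volume (U ∩ Metric.ball x (r / 2)) / 2 ≤ volume (S₁ ∩ Metric.ball x (r / 2)) ∧
      volume (S₁ ∩ Metric.ball x r) ≤ volume (U ∩ Metric.ball x r) / 2}
  have hT : ∀ᵐ x ∂(volume.restrict S₁), x ∈ T := by
    filter_upwards [Besicovitch.ae_tendsto_measure_inter_div (volume : Measure (E n)) S₁,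
      ae_restrict_mem hS₁] with x hx1 hx2
    exact ⟨hx2, relIso_scale hD hUD hUfin hS₂ hun hdis hle x hx2 hx1⟩
  have hr : ∀ x : E n, ∃ r : ℝ, x ∈ T → 0 < r ∧ r ≤ 2 * D ∧
      volume (U ∩ Metric.ball x (r / 2)) / 2 ≤ volume (S₁ ∩ Metric.ball x (r / 2)) ∧
      volume (S₁ ∩ Metric.ball x r) ≤ volume (U ∩ Metric.ball x r) / 2 := by
    intro x
    by_cases hx : x ∈ T
    · obtain ⟨r, h⟩ := hx.2
      exact ⟨r, fun _ => h⟩
    · exact ⟨0, fun h => absurd h hx⟩
  choose r hr using hr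
  -- estimates at the good points
  have hlow : ∀ x ∈ T, cb * (r x / 2) ^ n / 2 ≤ (volume (S₁ ∩ Metric.ball x (r x))).toReal := by
    intro x hx
    obtain ⟨h1, h2, h3, h4⟩ := hr x hx
    have h5 := hball x (hS₁U hx.1) (r x / 2) (by positivity) (by linarith)
    have h6 : ENNReal.ofReal (cb * (r x / 2) ^ n / 2) ≤ volume (S₁ ∩ Metric.ball x (r x)) := by
      calc ENNReal.ofReal (cb * (r x / 2) ^ n / 2)
          = ENNReal.ofReal (cb * (r x / 2) ^ n) / 2 := by
            rw [ENNReal.ofReal_div_of_pos (by norm_num), ENNReal.ofReal_ofNat]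
        _ ≤ volume (U ∩ Metric.ball x (r x / 2)) / 2 := by gcongr
        _ ≤ volume (S₁ ∩ Metric.ball x (r x / 2)) := h3
        _ ≤ volume (S₁ ∩ Metric.ball x (r x)) := by
            gcongr
            linarith
    have h7 : volume (S₁ ∩ Metric.ball x (r x)) ≠ ∞ :=
      ne_top_of_le_ne_top hS₁fin (measure_mono inter_subset_left)
    exact (ENNReal.ofReal_le_iff_le_toReal h7).1 h6
  have hrρ : ∀ x ∈ T, r x ≤ ρ := by
    intro x hx
    have h1 := hlow x hx
    have h2 : (volume (S₁ ∩ Metric.ball x (r x))).toReal ≤ s :=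
      ENNReal.toReal_mono hS₁fin (measure_mono inter_subset_left)
    have hrx := (hr x hx).1
    have h3 : (r x / 2) ^ n ≤ 2 * s / cb := by
      rw [le_div_iff₀ hcb]
      linarith
    have h4 : r x / 2 ≤ (2 * s / cb) ^ ((n : ℝ)⁻¹) := by
      have h5 : ((r x / 2) ^ n) ^ ((n : ℝ)⁻¹) ≤ (2 * s / cb) ^ ((n : ℝ)⁻¹) :=
        Real.rpow_le_rpow (by positivity) h3 (by positivity)
      rwa [Real.pow_rpow_inv_natCast (by positivity) (by omega)] at h5
    rw [hρ]
    linarith
  have hper : ∀ x ∈ T, (r x) ^ (n - 1) ≤ K * (Per (U ∩ Metric.ball x (r x)) A).toReal := by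
    intro x hx
    obtain ⟨h1, h2, h3, h4⟩ := hr x hx
    have hxU : x ∈ U := hS₁U hx.1
    set V := U ∩ Metric.ball x (r x) with hV
    have hVo : IsOpen V := hU.inter Metric.isOpen_ball
    have hVc : Convex ℝ V := hc.inter (convex_ball x (r x))
    have hVU : V ⊆ U := inter_subset_left
    have hVfin : volume V ≠ ∞ := ne_top_of_le_ne_top hUfin (measure_mono hVU)
    have hVpos : 0 < volume V := hVo.measure_pos volume ⟨x, hxU, Metric.mem_ball_self h1⟩
    have e1 : S₁ ∩ Metric.ball x (r x) = S₁ ∩ V := by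
      rw [hV, ← inter_assoc, inter_eq_left.2 hS₁U]
    have hfin1 : volume (S₁ ∩ V) ≠ ∞ := ne_top_of_le_ne_top hVfin (measure_mono inter_subset_right)
    have hfin2 : volume (S₂ ∩ V) ≠ ∞ := ne_top_of_le_ne_top hVfin (measure_mono inter_subset_right)
    have hsum : volume (S₁ ∩ V) + volume (S₂ ∩ V) = volume V := by
      rw [← measure_union (hdis.mono inter_subset_left inter_subset_left)
        (hS₂.inter hVo.measurableSet), ← union_inter_distrib_right, hun, inter_eq_right.2 hVU]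
    refine relIso_point (a := (volume (S₁ ∩ V)).toReal) (b := (volume (S₂ ∩ V)).toReal)
      (v := (volume V).toReal) (d := Metric.diam V) hC hcb h1 hn ?_ ?_ ?_ ?_
      ENNReal.toReal_nonneg ?_ (hP V hVo hVc hVU)
    · rw [← ENNReal.toReal_add hfin1 hfin2, hsum]
    · rw [e1] at h4
      have := ENNReal.toReal_mono (ENNReal.div_ne_top hVfin (by norm_num)) h4
      rwa [ENNReal.toReal_div, ENNReal.toReal_ofNat] at this
    · exact ENNReal.toReal_pos hVpos.ne' hVfin
    · exact (Metric.diam_mono inter_subset_right Metric.isBounded_ball).trans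
        (Metric.diam_ball h1.le)
    · have := hlow x hx
      rwa [e1] at this
  -- Vitali covering
  obtain ⟨u, huT, hud, hucov⟩ := Vitali.exists_disjoint_subfamily_covering_enlargement_closedBall
    T (fun x => x) r (2 * D) (fun x hx => (hr x hx).2.1) 5 (by norm_num)
  have hucount : u.Countable := by
    refine hud.countable_of_nonempty_interior fun x hx => ?_
    refine ⟨x, ?_⟩
    rw [mem_interior_iff_mem_nhds]
    exact Metric.closedBall_mem_nhds x (hr x (huT hx)).1
  have hsub : T ⊆ ⋃ b ∈ u, Metric.closedBall b (5 * r b) := by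
    intro x hx
    obtain ⟨b, hb1, hb2⟩ := hucov x hx
    exact mem_iUnion₂.2 ⟨b, hb1, hb2 (Metric.mem_closedBall_self (hr x hx).1.le)⟩
  have hvolT : volume S₁ ≤ volume T := by
    have h1 : volume (S₁ \ T) = 0 := by
      have h2 := ae_iff.1 hT
      rw [Measure.restrict_apply₀'  hS₁.nullMeasurableSet] at h2
      refine measure_mono_null ?_ h2
      rintro y ⟨hy1, hy2⟩
      exact ⟨hy2, hy1⟩
    calc volume S₁ ≤ volume ((S₁ \ T) ∪ T) := measure_mono (fun y hy => by
          by_cases h : y ∈ T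
          · exact Or.inr h
          · exact Or.inl ⟨hy, h⟩)
      _ ≤ volume (S₁ \ T) + volume T := measure_union_le _ _
      _ = volume T := by rw [h1, zero_add]
  have hterm : ∀ b ∈ u, volume (Metric.closedBall b (5 * r b)) ≤
      ENNReal.ofReal (5 ^ n * ρ * K) * volume (Metric.ball (0 : E n) 1) *
        Per (U ∩ Metric.ball b (r b)) A := by
    intro b hbu
    have hbT := huT hbu
    have hrb := (hr b hbT).1
    have hpb := hper b hbT
    have hPfin : Per (U ∩ Metric.ball b (r b)) A ≠ ∞ :=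
      ne_top_of_le_ne_top hfin (hmono _ inter_subset_left)
    have h1 : (5 * r b) ^ n ≤ 5 ^ n * ρ * K * (Per (U ∩ Metric.ball b (r b)) A).toReal := by
      have hn1 : n = (n - 1) + 1 := by omega
      have h2 : (r b) ^ n = r b * (r b) ^ (n - 1) := by
        conv_lhs => rw [hn1, pow_succ]
        ring
      rw [mul_pow, h2]
      calc 5 ^ n * (r b * r b ^ (n - 1)) ≤
          5 ^ n * (ρ * (K * (Per (U ∩ Metric.ball b (r b)) A).toReal)) := by
            gcongr
            exact hrρ b hbT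
        _ = _ := by ring
    rw [Measure.addHaar_closedBall _ _ (by positivity), finrank_euclideanSpace_fin]
    calc ENNReal.ofReal ((5 * r b) ^ n) * volume (Metric.ball (0 : E n) 1)
        ≤ ENNReal.ofReal (5 ^ n * ρ * K * (Per (U ∩ Metric.ball b (r b)) A).toReal) *
          volume (Metric.ball (0 : E n) 1) := by
          gcongr
      _ = ENNReal.ofReal (5 ^ n * ρ * K) * Per (U ∩ Metric.ball b (r b)) A *
          volume (Metric.ball (0 : E n) 1) := by
          rw [ENNReal.ofReal_mul (by positivity), ENNReal.ofReal_toReal hPfin]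
      _ = _ := by ring
  have hpersum : ∑' b : u, Per (U ∩ Metric.ball (b : E n) (r b)) A ≤ Per U A := by
    rw [ENNReal.tsum_eq_iSup_sum]
    refine iSup_le fun F => ?_
    refine (relIso_per_sum_le F (fun b : u => U ∩ Metric.ball (b : E n) (r b)) A ?_).trans
      (hmono _ (iUnion₂_subset fun _ _ => inter_subset_left))
    intro b hb c hc' hbc
    have h1 := hud b.2 c.2 (fun h => hbc (Subtype.ext h))
    exact h1.mono (inter_subset_right.trans Metric.ball_subset_closedBall)
      (inter_subset_right.trans Metric.ball_subset_closedBall)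
  have hmain : volume S₁ ≤ ENNReal.ofReal (5 ^ n * ρ * K) * volume (Metric.ball (0 : E n) 1) *
      Per U A := by
    calc volume S₁ ≤ volume T := hvolT
      _ ≤ volume (⋃ b ∈ u, Metric.closedBall b (5 * r b)) := measure_mono hsub
      _ ≤ ∑' b : u, volume (Metric.closedBall (b : E n) (5 * r b)) :=
          measure_biUnion_le _ hucount _
      _ ≤ ∑' b : u, ENNReal.ofReal (5 ^ n * ρ * K) * volume (Metric.ball (0 : E n) 1) *
            Per (U ∩ Metric.ball (b : E n) (r b)) A :=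
          ENNReal.tsum_le_tsum fun b => hterm b b.2
      _ = ENNReal.ofReal (5 ^ n * ρ * K) * volume (Metric.ball (0 : E n) 1) *
            ∑' b : u, Per (U ∩ Metric.ball (b : E n) (r b)) A := ENNReal.tsum_mul_left
      _ ≤ _ := by gcongr
  have hωfin : volume (Metric.ball (0 : E n) 1) ≠ ∞ := measure_ball_lt_top.ne
  have h1 := ENNReal.toReal_mono (ENNReal.mul_ne_top (ENNReal.mul_ne_top ENNReal.ofReal_ne_top
    hωfin) hfin) hmain
  rwa [ENNReal.toReal_mul, ENNReal.toReal_mul, ENNReal.toReal_ofReal (by positivity)] at h1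

/-- From the covering argument to the inequality. -/
theorem relIso_finish {n : ℕ} (hn : 2 ≤ n) {s p C cb ω : ℝ} (hs : 0 < s)
    (hC : 0 < C) (hcb : 0 < cb) (hω : 0 < ω)
    (h : s ≤ (5 ^ n * (2 * (2 * s / cb) ^ ((n : ℝ)⁻¹)) * (2 ^ (n + 3) * C / cb)) * ω * p) :
    (5 ^ n * (2 * (2 / cb) ^ ((n : ℝ)⁻¹)) * (2 ^ (n + 3) * C / cb) * ω)⁻¹ *
      s ^ (((n : ℝ) - 1) / n) ≤ p := by
  have hn0 : (0 : ℝ) < n := by
    have : (0 : ℕ) < n := by omega
    exact_mod_cast this
  set K : ℝ := 5 ^ n * (2 * (2 / cb) ^ ((n : ℝ)⁻¹)) * (2 ^ (n + 3) * C / cb) * ω with hK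
  have hK0 : 0 < K := by positivity
  have h1 : (2 * s / cb) ^ ((n : ℝ)⁻¹) = (2 / cb) ^ ((n : ℝ)⁻¹) * s ^ ((n : ℝ)⁻¹) := by
    rw [← Real.mul_rpow (by positivity) hs.le]
    congr 1
    ring
  rw [h1] at h
  have h2 : s ≤ K * p * s ^ ((n : ℝ)⁻¹) := by
    calc s ≤ _ := h
      _ = K * p * s ^ ((n : ℝ)⁻¹) := by rw [hK]; ring
  have h3 : s ^ (((n : ℝ) - 1) / n) * s ^ ((n : ℝ)⁻¹) = s := by
    rw [← Real.rpow_add hs]
    have : ((n : ℝ) - 1) / n + (n : ℝ)⁻¹ = 1 := by
      field_simp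
      ring
    rw [this, Real.rpow_one]
  have h4 : 0 < s ^ ((n : ℝ)⁻¹) := Real.rpow_pos_of_pos hs _
  have h5 : s ^ (((n : ℝ) - 1) / n) ≤ K * p := by
    refine le_of_mul_le_mul_right ?_ h4
    rw [h3]
    exact h2
  rw [inv_mul_le_iff₀ hK0]
  exact h5

/-- G08: the relative isoperimetric inequality in a convex body. -/
theorem relIso (h0 : Stmt_PerMono) (h1 : Stmt_PoincareSet) (h2 : Stmt_BallLower) :
    Stmt_RelIso := by
  intro n U hn hU hc hb hne
  obtain ⟨C, hC, hP⟩ := h1 n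
  obtain ⟨cb, hcb, hball⟩ := h2 n U (by omega) hU hc hb hne
  have hC' : (0 : ℝ) < C := by exact_mod_cast hC
  obtain ⟨x₀, hx₀⟩ := hne
  have hD : 0 < Metric.diam U := by
    obtain ⟨ε, hε, hεU⟩ := Metric.isOpen_iff.1 hU x₀ hx₀
    have : 0 < n := by omega
    let e : E n := EuclideanSpace.single ⟨0, this⟩ (ε / 2)
    have he : ‖e‖ = ε / 2 := by
      simp only [e, PiLp.norm_single, Real.norm_eq_abs]
      exact abs_of_pos (by positivity)
    have h3 : x₀ + e ∈ U := hεU (by
      rw [Metric.mem_ball, dist_eq_norm, add_sub_cancel_left, he]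
      linarith)
    have h4 := Metric.dist_le_diam_of_mem hb h3 hx₀
    rw [dist_eq_norm, add_sub_cancel_left, he] at h4
    linarith
  have hUD : ∀ x ∈ U, U ⊆ Metric.ball x (2 * Metric.diam U) := by
    intro x hx y hy
    have := Metric.dist_le_diam_of_mem hb hy hx
    rw [Metric.mem_ball]
    linarith
  have hω : 0 < (volume (Metric.ball (0 : E n) 1)).toReal :=
    ENNReal.toReal_pos (Metric.measure_ball_pos volume _ one_pos).ne' measure_ball_lt_top.ne
  have hn0 : (0 : ℝ) < n := by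
    have : (0 : ℕ) < n := by omega
    exact_mod_cast this
  refine ⟨(5 ^ n * (2 * (2 / cb) ^ ((n : ℝ)⁻¹)) * (2 ^ (n + 3) * (C : ℝ) / cb) *
    (volume (Metric.ball (0 : E n) 1)).toReal)⁻¹, by positivity, ?_⟩
  intro A hA
  by_cases hfin : Per U A = ∞
  · rw [hfin]
    exact le_top
  have hexp : 0 < ((n : ℝ) - 1) / n := by
    have : (2 : ℝ) ≤ n := by exact_mod_cast hn
    apply div_pos (by linarith) hn0
  have hP' : ∀ V, IsOpen V → Convex ℝ V → V ⊆ U →
      (volume (A ∩ V)).toReal * (volume (V \ A)).toReal ≤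
        C * Metric.diam V * (volume V).toReal * (Per V A).toReal := by
    intro V hV hVc hVU
    have hVb : Bornology.IsBounded V := hb.subset hVU
    have hVfin : volume V ≠ ∞ := hVb.measure_lt_top.ne
    have hPfin : Per V A ≠ ∞ := ne_top_of_le_ne_top hfin (h0 n U V A hVU)
    have h3 := ENNReal.toReal_mono (ENNReal.mul_ne_top (ENNReal.mul_ne_top (ENNReal.mul_ne_top
      ENNReal.coe_ne_top ENNReal.ofReal_ne_top) hVfin) hPfin) (hP V A hV hVc hVb hA)
    rw [ENNReal.toReal_mul, ENNReal.toReal_mul, ENNReal.toReal_mul, ENNReal.toReal_mul,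
      ENNReal.toReal_ofReal Metric.diam_nonneg, ENNReal.coe_toReal] at h3
    exact h3
  -- the inequality for a pair of complementary sets
  have key : ∀ S₁ S₂ : Set (E n), MeasurableSet S₁ → MeasurableSet S₂ → S₁ ∪ S₂ = U →
      Disjoint S₁ S₂ → volume S₁ ≤ volume S₂ →
      (∀ V, IsOpen V → Convex ℝ V → V ⊆ U →
        (volume (S₁ ∩ V)).toReal * (volume (S₂ ∩ V)).toReal ≤
        C * Metric.diam V * (volume V).toReal * (Per V A).toReal) →
      ENNReal.ofReal (5 ^ n * (2 * (2 / cb) ^ ((n : ℝ)⁻¹)) * (2 ^ (n + 3) * (C : ℝ) / cb) *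
        (volume (Metric.ball (0 : E n) 1)).toReal)⁻¹ * (volume S₁) ^ (((n : ℝ) - 1) / n) ≤
          Per U A := by
    intro S₁ S₂ hS₁ hS₂ hun hdis hle hPP
    by_cases hpos : volume S₁ = 0
    · rw [hpos, ENNReal.zero_rpow_of_pos hexp, mul_zero]
      exact zero_le
    have hS₁fin : volume S₁ ≠ ∞ := ne_top_of_le_ne_top hb.measure_lt_top.ne
      (measure_mono (hun ▸ subset_union_left))
    have h3 := relIso_core hn hU hc hb hD hUD hC' hcb hball A S₁ S₂ hS₁ hS₂ hun hdis hle hpos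
      hPP hfin (fun V hV => h0 n U V A hV)
    have hs0 : 0 < (volume S₁).toReal := ENNReal.toReal_pos hpos hS₁fin
    have h4 := relIso_finish hn hs0 hC' hcb hω h3
    have h5 : (volume S₁) ^ (((n : ℝ) - 1) / n) =
        ENNReal.ofReal ((volume S₁).toReal ^ (((n : ℝ) - 1) / n)) := by
      rw [← ENNReal.ofReal_rpow_of_pos hs0, ENNReal.ofReal_toReal hS₁fin]
    rw [h5, ← ENNReal.ofReal_mul (by positivity)]
    exact (ENNReal.ofReal_le_iff_le_toReal hfin).2 h4
  rcases le_total (volume (A ∩ U)) (volume (U \ A)) with hle | hle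
  · rw [min_eq_left hle]
    refine key (A ∩ U) (U \ A) (hA.inter hU.measurableSet) (hU.measurableSet.diff hA) ?_ ?_ hle ?_
    · rw [inter_comm]
      exact inter_union_sdiff U A
    · exact Set.disjoint_left.2 fun y hy1 hy2 => hy2.2 hy1.1
    · intro V hV hVc hVU
      have e1 : A ∩ U ∩ V = A ∩ V := by
        rw [inter_assoc, inter_eq_right.2 hVU]
      have e2 : (U \ A) ∩ V = V \ A := by
        ext y
        constructor
        · rintro ⟨⟨_, h4⟩, h5⟩
          exact ⟨h5, h4⟩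
        · rintro ⟨h4, h5⟩
          exact ⟨⟨hVU h4, h5⟩, h4⟩
      rw [e1, e2]
      exact hP' V hV hVc hVU
  · rw [min_eq_right hle]
    refine key (U \ A) (A ∩ U) (hU.measurableSet.diff hA) (hA.inter hU.measurableSet) ?_ ?_ hle ?_
    · rw [inter_comm, union_comm]
      exact inter_union_sdiff U A
    · exact Set.disjoint_left.2 fun y hy1 hy2 => hy1.2 hy2.1
    · intro V hV hVc hVU
      have e1 : A ∩ U ∩ V = A ∩ V := by
        rw [inter_assoc, inter_eq_right.2 hVU]
      have e2 : (U \ A) ∩ V = V \ A := by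
        ext y
        constructor
        · rintro ⟨⟨_, h4⟩, h5⟩
          exact ⟨h5, h4⟩
        · rintro ⟨h4, h5⟩
          exact ⟨⟨hVU h4, h5⟩, h4⟩
      rw [e1, e2, mul_comm]
      exact hP' V hV hVc hVU

end Pool.Agent.Lib.MP_c95dcf_gt
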