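import Pool.Agent.Lib.MP_c95dcf_gt.GStmts

/-!
# MP_c95dcf_gt, task G16: Riesz representation of functionals on test fields
-/

set_option autoImplicit false

open MeasureTheory Set Filter Topology
open scoped ENNReal NNReal RealInnerProductSpace

namespace Pool.Agent.Lib.MP_c95dcf_gt

theorem riesz_tf_zero {n : ℕ} (U : Set (E n)) : TF U (0 : E n → E n) := by
  refine ⟨contDiff_const, HasCompactSupport.zero, ?_⟩
  simp [tsupport]

theorem riesz_tf_add {n : ℕ} {U : Set (E n)} {X Y : E n → E n} (hX : TF U X) (hY : TF U Y) :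
    TF U (X + Y) := by
  refine ⟨hX.diff.add hY.diff, hX.comp.add hY.comp, ?_⟩
  have h1 : tsupport (X + Y) ⊆ tsupport X ∪ tsupport Y := by
    unfold tsupport
    rw [← closure_union]
    exact closure_mono (Function.support_add X Y)
  exact h1.trans (union_subset hX.supp hY.supp)

theorem riesz_tf_smul {n : ℕ} {U : Set (E n)} {X : E n → E n} (c : ℝ) (hX : TF U X) :
    TF U (c • X) := by
  refine ⟨hX.diff.const_smul c, ?_, ?_⟩
  · exact hX.comp.mono (Function.support_const_smul_subset c X)
  · exact (closure_mono (Function.support_const_smul_subset c X)).trans hX.supp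

/-- The space of test fields. -/
def rieszV {n : ℕ} (U : Set (E n)) : Submodule ℝ (E n → E n) where
  carrier := {X | TF U X}
  add_mem' := fun hX hY => riesz_tf_add hX hY
  zero_mem' := riesz_tf_zero U
  smul_mem' := fun c _ hX => riesz_tf_smul c hX

theorem riesz_memLp {n : ℕ} {U : Set (E n)} {X : E n → E n} (μ : Measure (E n))
    [IsFiniteMeasure μ] (hX : TF U X) (p : ℝ≥0∞) : MemLp X p μ :=
  hX.diff.continuous.memLp_of_hasCompactSupport hX.comp

/-- The map from test fields to square integrable fields. -/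
noncomputable def rieszJ {n : ℕ} (U : Set (E n)) (μ : Measure (E n)) [IsFiniteMeasure μ] :
    rieszV U →ₗ[ℝ] Lp (E n) 2 μ where
  toFun := fun X => (riesz_memLp μ X.2 2).toLp X.1
  map_add' := fun X Y => (MemLp.toLp_add (riesz_memLp μ X.2 2) (riesz_memLp μ Y.2 2))
  map_smul' := fun c X => (MemLp.toLp_const_smul c (riesz_memLp μ X.2 2))

theorem riesz_integrable {n : ℕ} {μ : Measure (E n)} [IsFiniteMeasure μ] {f : E n → E n}
    (hf : MemLp f 2 μ) : Integrable f μ :=
  hf.integrable (by norm_num)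

theorem riesz_int_le {n : ℕ} {μ : Measure (E n)} [IsFiniteMeasure μ] (f : Lp (E n) 2 μ) :
    ∫ x, ‖f x‖ ∂μ ≤ (μ.real univ) ^ (1 / 2 : ℝ) * ‖f‖ := by
  have h1 : eLpNorm f 1 μ ≤ eLpNorm f 2 μ * μ univ ^ (1 / (1 : ℝ≥0∞).toReal - 1 / (2 : ℝ≥0∞).toReal) :=
    eLpNorm_le_eLpNorm_mul_rpow_measure_univ (by norm_num) (Lp.aestronglyMeasurable f)
  have h2 : ∫ x, ‖f x‖ ∂μ = (eLpNorm f 1 μ).toReal := by
    rw [eLpNorm_one_eq_lintegral_enorm, integral_norm_eq_lintegral_enorm
      (Lp.aestronglyMeasurable f)]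
  rw [h2, Lp.norm_def]
  have h3 : (1 / (1 : ℝ≥0∞).toReal - 1 / (2 : ℝ≥0∞).toReal) = (1 / 2 : ℝ) := by
    norm_num
  rw [h3] at h1
  have h4 : μ univ ^ (1 / 2 : ℝ) ≠ ∞ := by
    apply ENNReal.rpow_ne_top_of_nonneg (by norm_num) (measure_ne_top μ univ)
  have h5 : eLpNorm f 2 μ * μ univ ^ (1 / 2 : ℝ) ≠ ∞ :=
    ENNReal.mul_ne_top (Lp.eLpNorm_ne_top f) h4
  refine (ENNReal.toReal_mono h5 h1).trans (le_of_eq ?_)
  rw [ENNReal.toReal_mul, mul_comm, ← ENNReal.toReal_rpow]
  rfl

theorem riesz_dense {n : ℕ} {U : Set (E n)} (hU : IsOpen U) (μ : Measure (E n))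
    [IsFiniteMeasure μ] (hμ : μ Uᶜ = 0) :
    (LinearMap.range (rieszJ U μ)).topologicalClosure = ⊤ := by
  rw [Submodule.topologicalClosure_eq_top_iff, Submodule.eq_bot_iff]
  intro y hy
  rw [Submodule.mem_orthogonal] at hy
  have hyi : Integrable (fun x => (y : E n → E n) x) μ := riesz_integrable (Lp.memLp y)
  have hkey : ∀ᵐ x ∂μ, x ∈ U → (y : E n → E n) x = 0 := by
    apply IsOpen.ae_eq_zero_of_integral_contDiff_smul_eq_zero hU
    · exact hyi.locallyIntegrable.locallyIntegrableOn _
    · intro g hg1 hg2 hg3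
      have hgi : Integrable (fun x => g x • (y : E n → E n) x) μ :=
        hyi.locallyIntegrable.integrable_smul_left_of_hasCompactSupport hg1.continuous hg2
      apply _root_.integral_eq_zero_of_forall_integral_inner_eq_zero ℝ _ hgi
      intro c
      have hTF : TF U (fun x => g x • c) := by
        refine ⟨(hg1.of_le (by exact_mod_cast le_top)).smul contDiff_const, ?_, ?_⟩
        · exact hg2.smul_right
        · exact (tsupport_smul_subset_left g _).trans hg3
      have h1 := hy (rieszJ U μ ⟨_, hTF⟩) (LinearMap.mem_range_self _ _)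
      rw [MeasureTheory.L2.inner_def] at h1
      rw [← h1]
      apply integral_congr_ae
      have h2 : (rieszJ U μ ⟨_, hTF⟩ : E n → E n) =ᵐ[μ] fun x => g x • c :=
        MemLp.coeFn_toLp (riesz_memLp μ hTF 2)
      filter_upwards [h2] with x hx
      rw [hx, inner_smul_right, inner_smul_left]
      simp
  rw [Lp.eq_zero_iff_ae_eq_zero]
  have h3 : ∀ᵐ x ∂μ, x ∈ U := by
    rw [ae_iff]
    exact hμ
  filter_upwards [hkey, h3] with x hx hx2
  exact hx hx2

theorem rieszL2 : Stmt_RieszL2 := by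
  intro n U T M μ hn hU hT hvar hbound
  have := hvar.fin
  have hneg : ∀ X, TF U X → T (-X) = - T X := by
    intro X hX
    have := hT.smul (-1) X hX
    rw [neg_one_smul, neg_one_mul] at this
    exact this
  have hsub : ∀ X Y, TF U X → TF U Y → T (X - Y) = T X - T Y := by
    intro X Y hX hY
    have h1 : TF U (-Y) := by
      have := riesz_tf_smul (-1) hY
      rwa [neg_one_smul] at this
    rw [sub_eq_add_neg, hT.add X (-Y) hX h1, hneg Y hY, sub_eq_add_neg]
  have habs : ∀ X, TF U X → |T X| ≤ ∫ x, ‖X x‖ ∂μ := by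
    intro X hX
    rw [abs_le']
    refine ⟨hbound X hX, ?_⟩
    have h1 : TF U (-X) := by
      have := riesz_tf_smul (-1) hX
      rwa [neg_one_smul] at this
    have h2 := hbound (-X) h1
    rw [hneg X hX] at h2
    simpa using h2
  -- the functional on the space of test fields
  let T' : rieszV U →ₗ[ℝ] ℝ :=
    { toFun := fun X => T X.1
      map_add' := fun X Y => hT.add X.1 Y.1 X.2 Y.2
      map_smul' := fun c X => hT.smul c X.1 X.2 }
  set j := rieszJ U μ with hj
  have hnormj : ∀ X : rieszV U, ∫ x, ‖(j X : E n → E n) x‖ ∂μ = ∫ x, ‖X.1 x‖ ∂μ := by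
    intro X
    apply integral_congr_ae
    filter_upwards [MemLp.coeFn_toLp (riesz_memLp μ X.2 2)] with x hx
    have : (j X : E n → E n) x = X.1 x := hx
    rw [this]
  have hT'bound : ∀ X : rieszV U, |T' X| ≤ (μ.real univ) ^ (1 / 2 : ℝ) * ‖j X‖ := by
    intro X
    refine (habs X.1 X.2).trans ?_
    rw [← hnormj X]
    exact riesz_int_le (j X)
  obtain ⟨s, hs⟩ := j.rangeRestrict.exists_rightInverse_of_surjective j.range_rangeRestrict
  have hs' : ∀ y : LinearMap.range j, j (s y) = y := by
    intro y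
    have := LinearMap.congr_fun hs y
    simp only [LinearMap.comp_apply, LinearMap.id_apply] at this
    have h2 := congrArg Subtype.val this
    simpa using h2
  let f : (LinearMap.range j) →L[ℝ] ℝ :=
    LinearMap.mkContinuous (T'.comp s) ((μ.real univ) ^ (1 / 2 : ℝ)) (by
      intro y
      have h1 := hT'bound (s y)
      rw [hs' y] at h1
      simpa using h1)
  obtain ⟨g, hg, -⟩ := exists_extension_norm_eq (LinearMap.range j) f
  have hgj : ∀ X : rieszV U, g (j X) = T X.1 := by
    intro X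
    have h1 : g (j X) = f ⟨j X, LinearMap.mem_range_self j X⟩ := hg ⟨j X, _⟩
    rw [h1]
    have h2 : f ⟨j X, LinearMap.mem_range_self j X⟩ = T' (s ⟨j X, LinearMap.mem_range_self j X⟩) :=
      rfl
    rw [h2]
    have h3 : j (s ⟨j X, LinearMap.mem_range_self j X⟩ - X) = 0 := by
      rw [map_sub, hs', sub_self]
    have h4 := hT'bound (s ⟨j X, LinearMap.mem_range_self j X⟩ - X)
    rw [h3, norm_zero, mul_zero, map_sub] at h4
    have h5 : T' (s ⟨j X, LinearMap.mem_range_self j X⟩) - T' X = 0 :=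
      abs_eq_zero.mp (le_antisymm h4 (abs_nonneg _))
    exact sub_eq_zero.mp h5
  set ν0 : Lp (E n) 2 μ := (InnerProductSpace.toDual ℝ (Lp (E n) 2 μ)).symm g with hν0
  have hgν : ∀ y, g y = ⟪ν0, y⟫ := by
    intro y
    rw [hν0, InnerProductSpace.toDual_symm_apply]
  -- the bound on all of L2
  have hgle : ∀ y : Lp (E n) 2 μ, g y ≤ ∫ x, ‖(y : E n → E n) x‖ ∂μ := by
    intro y
    have hcl : y ∈ (LinearMap.range j).topologicalClosure := by
      rw [hj, riesz_dense hU μ hvar.null]
      trivial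
    apply le_of_forall_pos_le_add
    intro ε hε
    set C : ℝ := (μ.real univ) ^ (1 / 2 : ℝ) + ‖g‖ + 1 with hC
    have hC0 : 0 < C := by positivity
    have hcl2 : y ∈ closure (LinearMap.range j : Set (Lp (E n) 2 μ)) := by
      rwa [← Submodule.topologicalClosure_coe]
    rw [Metric.mem_closure_iff] at hcl2
    obtain ⟨z, hz, hyz⟩ := hcl2 (ε / C) (div_pos hε hC0)
    obtain ⟨X, rfl⟩ := hz
    rw [dist_eq_norm] at hyz
    have h1 : g y = g (j X) + g (y - j X) := by rw [← map_add]; congr 1; abel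
    have h2 : g (j X) ≤ ∫ x, ‖(j X : E n → E n) x‖ ∂μ := by
      rw [hgj, hnormj]
      exact hbound X.1 X.2
    have h3 : ∫ x, ‖(j X : E n → E n) x‖ ∂μ ≤
        ∫ x, ‖(y : E n → E n) x‖ ∂μ + ∫ x, ‖((y - j X : Lp (E n) 2 μ) : E n → E n) x‖ ∂μ := by
      rw [← integral_add]
      · apply integral_mono_ae
        · exact (riesz_integrable (Lp.memLp (j X))).norm
        · exact (riesz_integrable (Lp.memLp y)).norm.add
            (riesz_integrable (Lp.memLp (y - j X))).norm
        · filter_upwards [Lp.coeFn_sub y (j X)] with x hx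
          rw [hx, Pi.sub_apply]
          have := norm_sub_le ((y : E n → E n) x) ((y : E n → E n) x - (j X : E n → E n) x)
          rwa [sub_sub_cancel] at this
      · exact (riesz_integrable (Lp.memLp y)).norm
      · exact (riesz_integrable (Lp.memLp (y - j X))).norm
    have h4 := riesz_int_le (y - j X)
    have h5 : g (y - j X) ≤ ‖g‖ * ‖y - j X‖ := (le_abs_self _).trans (g.le_opNorm _)
    have h6 : C * ‖y - j X‖ ≤ ε := by
      have := mul_le_mul_of_nonneg_left hyz.le hC0.le
      rwa [mul_div_cancel₀ _ hC0.ne'] at this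
    have h7 : 0 ≤ ‖y - j X‖ := norm_nonneg _
    nlinarith
  -- the density has norm at most one
  have hle1 : ∀ᵐ x ∂μ, ‖(ν0 : E n → E n) x‖ ≤ 1 := by
    have hsm := (Lp.stronglyMeasurable ν0)
    set S : Set (E n) := {x | 1 < ‖(ν0 : E n → E n) x‖} with hS
    have hSm : MeasurableSet S := measurableSet_lt measurable_const hsm.measurable.norm
    have hmem : MemLp (S.indicator (ν0 : E n → E n)) 2 μ := (Lp.memLp ν0).indicator hSm
    have h1 := hgle (hmem.toLp _)
    rw [hgν, MeasureTheory.L2.inner_def] at h1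
    have h2 : ∫ x, ⟪(ν0 : E n → E n) x, (hmem.toLp _ : E n → E n) x⟫ ∂μ =
        ∫ x, S.indicator (fun x => ‖(ν0 : E n → E n) x‖ ^ 2) x ∂μ := by
      apply integral_congr_ae
      filter_upwards [hmem.coeFn_toLp] with x hx
      rw [hx]
      by_cases hxS : x ∈ S
      · rw [indicator_of_mem hxS, indicator_of_mem hxS, real_inner_self_eq_norm_sq]
      · rw [indicator_of_notMem hxS, indicator_of_notMem hxS, inner_zero_right]
    have h3 : ∫ x, ‖(hmem.toLp _ : E n → E n) x‖ ∂μ =
        ∫ x, S.indicator (fun x => ‖(ν0 : E n → E n) x‖) x ∂μ := by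
      apply integral_congr_ae
      filter_upwards [hmem.coeFn_toLp] with x hx
      rw [hx]
      by_cases hxS : x ∈ S
      · rw [indicator_of_mem hxS, indicator_of_mem hxS]
      · rw [indicator_of_notMem hxS, indicator_of_notMem hxS, norm_zero]
    rw [h2, h3] at h1
    have hi1 : Integrable (fun x => ‖(ν0 : E n → E n) x‖) μ := (riesz_integrable (Lp.memLp ν0)).norm
    have hi2 : Integrable (fun x => ‖(ν0 : E n → E n) x‖ ^ 2) μ := by
      have := (memLp_two_iff_integrable_sq_norm (Lp.aestronglyMeasurable ν0)).mp (Lp.memLp ν0)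
      exact this
    have h4 : ∫ x, S.indicator (fun x => ‖(ν0 : E n → E n) x‖ ^ 2 - ‖(ν0 : E n → E n) x‖) x ∂μ ≤
        0 := by
      have : (fun x => S.indicator (fun x => ‖(ν0 : E n → E n) x‖ ^ 2 - ‖(ν0 : E n → E n) x‖) x) =
          fun x => S.indicator (fun x => ‖(ν0 : E n → E n) x‖ ^ 2) x -
            S.indicator (fun x => ‖(ν0 : E n → E n) x‖) x := by
        funext x
        by_cases hxS : x ∈ S
        · simp [hxS]
        · simp [hxS]
      rw [this, integral_sub (hi2.indicator hSm) (hi1.indicator hSm)]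
      linarith
    have hnn : ∀ x, 0 ≤ S.indicator (fun x => ‖(ν0 : E n → E n) x‖ ^ 2 - ‖(ν0 : E n → E n) x‖) x := by
      intro x
      by_cases hxS : x ∈ S
      · rw [indicator_of_mem hxS]
        have : 1 < ‖(ν0 : E n → E n) x‖ := hxS
        nlinarith
      · rw [indicator_of_notMem hxS]
    have h5 : ∫ x, S.indicator (fun x => ‖(ν0 : E n → E n) x‖ ^ 2 - ‖(ν0 : E n → E n) x‖) x ∂μ = 0 :=
      le_antisymm h4 (integral_nonneg hnn)
    rw [integral_eq_zero_iff_of_nonneg hnn ((hi2.sub hi1).indicator hSm)] at h5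
    filter_upwards [h5] with x hx
    by_contra hcon
    have hxS : x ∈ S := not_le.mp hcon
    rw [indicator_of_mem hxS] at hx
    simp only [Pi.zero_apply] at hx
    have : 1 < ‖(ν0 : E n → E n) x‖ := hxS
    nlinarith
  have hrepr : ∀ X, TF U X → T X = ∫ x, ⟪X x, (ν0 : E n → E n) x⟫ ∂μ := by
    intro X hX
    have h1 := hgj ⟨X, hX⟩
    rw [hgν, MeasureTheory.L2.inner_def] at h1
    change _ = T X at h1
    rw [← h1]
    apply integral_congr_ae
    filter_upwards [MemLp.coeFn_toLp (riesz_memLp μ hX 2)] with x hx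
    have : (j ⟨X, hX⟩ : E n → E n) x = X x := hx
    rw [this, real_inner_comm]
  -- the density has norm at least one
  have hge1 : ∀ᵐ x ∂μ, ‖(ν0 : E n → E n) x‖ = 1 := by
    have hi1 : Integrable (fun x => ‖(ν0 : E n → E n) x‖) μ := (riesz_integrable (Lp.memLp ν0)).norm
    have h1 : μ U ≤ ENNReal.ofReal (∫ x, ‖(ν0 : E n → E n) x‖ ∂μ) := by
      rw [hvar.open_eq U hU subset_rfl]
      refine iSup₂_le fun X hX => ENNReal.ofReal_le_ofReal ?_
      rw [hrepr X hX.1]
      have hpt : ∀ x, ‖⟪X x, (ν0 : E n → E n) x⟫‖ ≤ ‖(ν0 : E n → E n) x‖ := by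
        intro x
        refine (norm_inner_le_norm (𝕜 := ℝ) _ _).trans ?_
        have := mul_le_mul_of_nonneg_right (hX.2 x) (norm_nonneg ((ν0 : E n → E n) x))
        simpa using this
      apply integral_mono_ae
      · refine hi1.mono' ?_ (Eventually.of_forall hpt)
        exact hX.1.diff.continuous.aestronglyMeasurable.inner (Lp.aestronglyMeasurable ν0)
      · exact hi1
      · filter_upwards with x
        exact (le_abs_self _).trans (hpt x)
    have h2 : μ univ = μ U := by
      have : μ univ ≤ μ U + μ Uᶜ := by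
        rw [← union_compl_self U]
        exact measure_union_le _ _
      rw [hvar.null, add_zero] at this
      exact le_antisymm this (measure_mono (subset_univ _))
    have h3 : μ.real univ ≤ ∫ x, ‖(ν0 : E n → E n) x‖ ∂μ := by
      rw [measureReal_def, h2]
      exact ENNReal.toReal_le_of_le_ofReal (integral_nonneg fun x => norm_nonneg _) h1
    have h4 : ∫ x, (1 - ‖(ν0 : E n → E n) x‖) ∂μ ≤ 0 := by
      rw [integral_sub (integrable_const 1) hi1, integral_const, smul_eq_mul, mul_one]
      linarith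
    have h5 : 0 ≤ᵐ[μ] fun x => (1 - ‖(ν0 : E n → E n) x‖) := by
      filter_upwards [hle1] with x hx
      simpa using hx
    have h6 : ∫ x, (1 - ‖(ν0 : E n → E n) x‖) ∂μ = 0 :=
      le_antisymm h4 (integral_nonneg_of_ae h5)
    rw [integral_eq_zero_iff_of_nonneg_ae h5 ((integrable_const 1).sub hi1)] at h6
    filter_upwards [h6] with x hx
    simp only [Pi.zero_apply] at hx
    linarith
  -- modification on a null set
  obtain ⟨e1, he1⟩ : ∃ e : E n, ‖e‖ = 1 := by
    refine ⟨EuclideanSpace.single ⟨0, hn⟩ (1 : ℝ), ?_⟩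
    simp
  have hsm := (Lp.stronglyMeasurable ν0).measurable
  have hmS : MeasurableSet {x | ‖(ν0 : E n → E n) x‖ = 1} :=
    measurableSet_eq_fun hsm.norm measurable_const
  classical
  refine ⟨fun x => if ‖(ν0 : E n → E n) x‖ = 1 then (ν0 : E n → E n) x else e1, ?_⟩
  refine ⟨hvar.fin, hvar.null, ?_, ?_, ?_, hvar.open_eq⟩
  · exact Measurable.ite hmS hsm measurable_const
  · intro x
    by_cases h : ‖(ν0 : E n → E n) x‖ = 1
    · simp only [h, if_true]
    · simp only [h, if_false]
      exact he1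
  · intro X hX
    rw [hrepr X hX]
    apply integral_congr_ae
    filter_upwards [hge1] with x hx
    simp only [hx, if_true]

theorem riesz (h1 : Stmt_VarMeasure) (h2 : Stmt_VarBound) (h3 : Stmt_RieszL2) : Stmt_Riesz := by
  intro n U T M hn hU hT
  obtain ⟨μ, hμ⟩ := h1 n U T M hU hT
  obtain ⟨ν, hν⟩ := h3 n U T M μ hn hU hT hμ (h2 n U T M μ hU hT hμ)
  exact ⟨μ, ν, hν⟩

theorem riesz_dv_continuous {n : ℕ} {U : Set (E n)} {X : E n → E n} (hX : TF U X) :
    Continuous (dv X) := by
  unfold dv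
  have h1 : Continuous (fderiv ℝ X) := hX.diff.continuous_fderiv (by norm_num)
  refine continuous_finsetSum _ fun i _ => ?_
  have h2 : Continuous fun x => (fderiv ℝ X x) (EuclideanSpace.single i (1 : ℝ)) :=
    h1.clm_apply continuous_const
  exact (EuclideanSpace.proj (𝕜 := ℝ) i).continuous.comp h2

theorem riesz_dv_comp {n : ℕ} {U : Set (E n)} {X : E n → E n} (hX : TF U X) :
    HasCompactSupport (dv X) := by
  have h1 : HasCompactSupport (fderiv ℝ X) := hX.comp.fderiv ℝ
  refine h1.mono' ?_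
  intro x hx
  apply subset_tsupport
  rw [Function.mem_support] at hx ⊢
  intro h
  apply hx
  unfold dv
  simp [h]

theorem riesz_dv_integrable {n : ℕ} {U : Set (E n)} {X : E n → E n} (hX : TF U X) :
    Integrable (dv X) :=
  (riesz_dv_continuous hX).integrable_of_hasCompactSupport (riesz_dv_comp hX)

theorem riesz_dv_add {n : ℕ} {U : Set (E n)} {X Y : E n → E n} (hX : TF U X) (hY : TF U Y)
    (x : E n) : dv (X + Y) x = dv X x + dv Y x := by
  unfold dv
  have h1 : DifferentiableAt ℝ X x := hX.diff.differentiable (by norm_num) x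
  have h2 : DifferentiableAt ℝ Y x := hY.diff.differentiable (by norm_num) x
  rw [fderiv_add h1 h2, ← Finset.sum_add_distrib]
  rfl

theorem riesz_dv_smul {n : ℕ} {U : Set (E n)} {X : E n → E n} (c : ℝ) (hX : TF U X)
    (x : E n) : dv (c • X) x = c * dv X x := by
  unfold dv
  have h1 : DifferentiableAt ℝ X x := hX.diff.differentiable (by norm_num) x
  rw [fderiv_const_smul h1, Finset.mul_sum]
  rfl

theorem prep (h : Stmt_Riesz) : Stmt_PRep := by
  intro n U A hn hU hA hfin
  apply h n U (fun X => ∫ x in A, dv X x) (Per U A).toReal hn hU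
  refine ⟨?_, ?_, ?_⟩
  · intro X Y hX hY
    rw [← integral_add (riesz_dv_integrable hX).integrableOn (riesz_dv_integrable hY).integrableOn]
    exact integral_congr_ae (Eventually.of_forall fun x => riesz_dv_add hX hY x)
  · intro c X hX
    rw [← integral_const_mul]
    exact integral_congr_ae (Eventually.of_forall fun x => riesz_dv_smul c hX x)
  · intro X hX hX1
    have h1 : ENNReal.ofReal (∫ x in A, dv X x) ≤ Per U A :=
      le_iSup₂_of_le (f := fun (X : E n → E n) (_ : TF U X ∧ ∀ x, ‖X x‖ ≤ 1) =>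
        ENNReal.ofReal (∫ x in A, dv X x)) X ⟨hX, hX1⟩ le_rfl
    exact ENNReal.ofReal_le_iff_le_toReal hfin |>.mp h1

end Pool.Agent.Lib.MP_c95dcf_gt
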