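import Pool.Agent.Lib.MP_c95dcf_gt.Mg.G001

/-!
# MP_c95dcf_gt, part B: the transport inequality
-/

set_option autoImplicit false

open MeasureTheory Set Filter Topology
open scoped ENNReal NNReal

namespace Pool.Agent.Lib.MP_c95dcf_gt

namespace TransportAux

lemma aa_pos : 0 < aa := by unfold aa; norm_num

lemma bb_pos : 0 < bb := by unfold bb; norm_num

lemma aabb_lt : aa * bb < Real.pi / 2 := by
  have := Real.pi_gt_d2
  unfold aa bb
  linarith

lemma aabb_pos : 0 < aa * bb := mul_pos aa_pos bb_pos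

lemma mul_mem {x : ℝ} (hx : x ∈ Icc (-bb) bb) : |aa * x| ≤ aa * bb := by
  rw [abs_mul, abs_of_pos aa_pos]
  exact mul_le_mul_of_nonneg_left (abs_le.2 hx) aa_pos.le

lemma cos_ge {x : ℝ} (hx : x ∈ Icc (-bb) bb) : Real.cos (aa * bb) ≤ Real.cos (aa * x) := by
  rw [← Real.cos_abs (aa * x)]
  apply Real.cos_le_cos_of_nonneg_of_le_pi (abs_nonneg _) _ (mul_mem hx)
  have := aabb_lt
  linarith [Real.pi_pos]

lemma cosb_pos : 0 < Real.cos (aa * bb) :=
  Real.cos_pos_of_mem_Ioo ⟨by linarith [aabb_pos, Real.pi_pos], aabb_lt⟩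

lemma cos_pos {x : ℝ} (hx : x ∈ Icc (-bb) bb) : 0 < Real.cos (aa * x) :=
  cosb_pos.trans_le (cos_ge hx)

/-- `∫ cos² (a θ)` -/
noncomputable def I0 : ℝ := ∫ x in (-bb)..bb, Real.cos (aa * x) ^ 2

lemma I0_eq : I0 = bb + Real.sin (2 * (aa * bb)) / (2 * aa) := by
  have ha := aa_pos.ne'
  have h1 : ∀ x ∈ uIcc (-bb) bb, HasDerivAt (fun x => x / 2 + Real.sin (2 * (aa * x)) / (4 * aa))
      (Real.cos (aa * x) ^ 2) x := by
    intro x _
    have h2 : HasDerivAt (fun x : ℝ => 2 * (aa * x)) (2 * aa) x := by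
      simpa [mul_assoc] using ((hasDerivAt_id x).const_mul aa).const_mul 2
    have h3 := (h2.sin).div_const (4 * aa)
    have h4 := ((hasDerivAt_id x).div_const 2).add h3
    refine h4.congr_deriv ?_
    rw [Real.cos_sq]
    field_simp
    ring
  unfold I0
  rw [intervalIntegral.integral_eq_sub_of_hasDerivAt h1]
  · have e : Real.sin (2 * (aa * -bb)) = -Real.sin (2 * (aa * bb)) := by
      rw [← Real.sin_neg]; congr 1; ring
    simp only [e]
    field_simp
    ring
  · apply Continuous.intervalIntegrable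
    fun_prop

lemma bb_lt_I0 : bb < I0 := by
  rw [I0_eq]
  have h1 : 0 < Real.sin (2 * (aa * bb)) := by
    apply Real.sin_pos_of_pos_of_lt_pi
    · linarith [aabb_pos]
    · linarith [aabb_lt]
  have h2 := div_pos h1 (mul_pos two_pos aa_pos)
  linarith

lemma I0_pos : 0 < I0 := bb_pos.trans bb_lt_I0

/-- clamp -/
noncomputable def cl (x : ℝ) : ℝ := max (-bb) (min bb x)

lemma cl_mem (x : ℝ) : cl x ∈ Icc (-bb) bb := by
  unfold cl
  have := bb_pos
  exact ⟨le_max_left _ _, max_le (by linarith) (min_le_left _ _)⟩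

lemma cl_of_mem {x : ℝ} (hx : x ∈ Icc (-bb) bb) : cl x = x := by
  unfold cl
  rw [min_eq_right hx.2, max_eq_right hx.1]

lemma continuous_cl : Continuous cl := by
  unfold cl; fun_prop

/-- the target density -/
noncomputable def gm (x : ℝ) : ℝ := Real.cos (aa * cl x) ^ 2 / I0

lemma continuous_gm : Continuous gm := by
  unfold gm
  have := continuous_cl
  fun_prop

/-- lower bound of the target density -/
noncomputable def g0 : ℝ := Real.cos (aa * bb) ^ 2 / I0

lemma g0_pos : 0 < g0 := div_pos (pow_pos cosb_pos 2) I0_pos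

lemma g0_le (x : ℝ) : g0 ≤ gm x := by
  unfold g0 gm
  have h := cos_ge (cl_mem x)
  have h0 := cosb_pos
  have hI := I0_pos
  gcongr

lemma gm_pos (x : ℝ) : 0 < gm x := g0_pos.trans_le (g0_le x)

lemma gm_le (x : ℝ) : gm x ≤ 1 / I0 := by
  unfold gm
  have hI := I0_pos
  have h : Real.cos (aa * cl x) ^ 2 ≤ 1 := by
    rw [sq_le_one_iff_abs_le_one]
    exact Real.abs_cos_le_one _
  gcongr

/-- the distribution function of the target -/
noncomputable def Gm (x : ℝ) : ℝ := ∫ t in (-bb)..x, gm t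

lemma hasDerivAt_Gm (x : ℝ) : HasDerivAt Gm (gm x) x :=
  intervalIntegral.integral_hasDerivAt_right (continuous_gm.intervalIntegrable _ _)
    (continuous_gm.stronglyMeasurableAtFilter _ _) continuous_gm.continuousAt

lemma continuous_Gm : Continuous Gm :=
  continuous_iff_continuousAt.2 fun x => (hasDerivAt_Gm x).continuousAt

lemma Gm_growth {x y : ℝ} (hxy : x ≤ y) : g0 * (y - x) ≤ Gm y - Gm x := by
  have h1 : Gm y - Gm x = ∫ t in x..y, gm t := by
    unfold Gm
    rw [intervalIntegral.integral_interval_sub_left] <;>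
      exact continuous_gm.intervalIntegrable _ _
  have h2 : g0 * (y - x) = ∫ _ in x..y, g0 := by
    rw [intervalIntegral.integral_const, smul_eq_mul, mul_comm]
  rw [h1, h2]
  exact intervalIntegral.integral_mono_on hxy (by simp) (continuous_gm.intervalIntegrable _ _)
    fun t _ => g0_le t

lemma strictMono_Gm : StrictMono Gm := by
  intro x y hxy
  have h1 := Gm_growth hxy.le
  have h2 := mul_pos g0_pos (sub_pos.2 hxy)
  linarith

lemma Gm_left : Gm (-bb) = 0 := by
  unfold Gm; simp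

lemma Gm_right : Gm bb = 1 := by
  unfold Gm
  have h1 : ∫ t in (-bb)..bb, gm t = ∫ t in (-bb)..bb, Real.cos (aa * t) ^ 2 / I0 := by
    apply intervalIntegral.integral_congr
    intro t ht
    rw [uIcc_of_le (by linarith [bb_pos])] at ht
    simp only [gm, cl_of_mem ht]
  rw [h1, intervalIntegral.integral_div]
  exact div_self I0_pos.ne'

lemma surjective_Gm : Function.Surjective Gm := by
  apply continuous_Gm.surjective
  · have h : Tendsto (fun y : ℝ => g0 * (y - 0) + Gm 0) atTop atTop := by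
      apply tendsto_atTop_add_const_right
      apply Tendsto.const_mul_atTop g0_pos
      exact tendsto_atTop_add_const_right _ _ tendsto_id
    refine tendsto_atTop_mono' _ ?_ h
    filter_upwards [eventually_ge_atTop (0 : ℝ)] with y hy
    have := Gm_growth hy
    linarith
  · have h : Tendsto (fun y : ℝ => -(g0 * (0 - y)) + Gm 0) atBot atBot := by
      apply tendsto_atBot_add_const_right
      have h1 : Tendsto (fun y : ℝ => g0 * y) atBot atBot :=
        Tendsto.const_mul_atBot g0_pos tendsto_id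
      refine h1.congr fun y => by ring
    refine tendsto_atBot_mono' _ ?_ h
    filter_upwards [eventually_le_atBot (0 : ℝ)] with y hy
    have := Gm_growth hy
    linarith

/-- the inverse -/
noncomputable def Gi : ℝ → ℝ := (strictMono_Gm.orderIsoOfSurjective Gm surjective_Gm).symm

lemma Gm_Gi (y : ℝ) : Gm (Gi y) = y :=
  StrictMono.orderIsoOfSurjective_self_symm_apply Gm strictMono_Gm surjective_Gm y

lemma Gi_Gm (x : ℝ) : Gi (Gm x) = x :=
  StrictMono.orderIsoOfSurjective_symm_apply_self Gm strictMono_Gm surjective_Gm x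

lemma continuous_Gi : Continuous Gi :=
  (strictMono_Gm.orderIsoOfSurjective Gm surjective_Gm).symm.continuous

lemma monotone_Gi : Monotone Gi :=
  (strictMono_Gm.orderIsoOfSurjective Gm surjective_Gm).symm.monotone

lemma hasDerivAt_Gi (y : ℝ) : HasDerivAt Gi (gm (Gi y))⁻¹ y :=
  HasDerivAt.of_local_left_inverse continuous_Gi.continuousAt (hasDerivAt_Gm _) (gm_pos _).ne'
    (Eventually.of_forall Gm_Gi)

lemma Gi_lip {x y : ℝ} (hxy : x ≤ y) : Gi y - Gi x ≤ (y - x) / g0 := by
  have h1 := Gm_growth (monotone_Gi hxy)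
  rw [Gm_Gi, Gm_Gi] at h1
  rw [le_div_iff₀ g0_pos, mul_comm]
  exact h1

/-! ### elementary inequality -/

lemma tan_sub_mono {x y : ℝ} (hx : -(Real.pi / 2) < x) (hxy : x ≤ y) (hy : y < Real.pi / 2) :
    y - x ≤ Real.tan y - Real.tan x := by
  have h1 : MonotoneOn (fun t => Real.tan t - t) (Ioo (-(Real.pi / 2)) (Real.pi / 2)) := by
    apply monotoneOn_of_deriv_nonneg (convex_Ioo _ _)
    · exact Real.continuousOn_tan_Ioo.sub continuousOn_id
    · intro t ht
      rw [interior_Ioo] at ht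
      have hc := (Real.cos_pos_of_mem_Ioo ht).ne'
      exact ((Real.hasDerivAt_tan hc).sub (hasDerivAt_id t)).differentiableAt.differentiableWithinAt
    · intro t ht
      rw [interior_Ioo] at ht
      have hc := (Real.cos_pos_of_mem_Ioo ht)
      have h2 := ((Real.hasDerivAt_tan hc.ne').sub (hasDerivAt_id t)).deriv
      have h3 : deriv (fun t => Real.tan t - t) t = 1 / Real.cos t ^ 2 - 1 := h2
      rw [h3, sub_nonneg, le_div_iff₀ (pow_pos hc 2), one_mul, sq_le_one_iff_abs_le_one]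
      exact Real.abs_cos_le_one _
  have := h1 ⟨hx, hxy.trans_lt hy⟩ ⟨hx.trans_le hxy, hy⟩ hxy
  simp only at this
  linarith

lemma log_cos_le {x y : ℝ} (hx : x ∈ Ioo (-(Real.pi / 2)) (Real.pi / 2))
    (hy : y ∈ Ioo (-(Real.pi / 2)) (Real.pi / 2)) :
    2 * Real.log (Real.cos y) ≤ 2 * Real.log (Real.cos x) - 2 * Real.tan x * (y - x) - (y - x) ^ 2 := by
  set F : ℝ → ℝ := fun t => 2 * Real.log (Real.cos t) + 2 * Real.tan x * (t - x) + (t - x) ^ 2 with hF
  have hder : ∀ t ∈ Ioo (-(Real.pi / 2)) (Real.pi / 2),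
      HasDerivAt F (-2 * Real.tan t + 2 * Real.tan x + 2 * (t - x)) t := by
    intro t ht
    have hc := (Real.cos_pos_of_mem_Ioo ht).ne'
    have h1 := ((Real.hasDerivAt_cos t).log hc).const_mul 2
    have h2 := ((hasDerivAt_id t).sub_const x).const_mul (2 * Real.tan x)
    have h3 := ((hasDerivAt_id t).sub_const x).pow 2
    have h4 := (h1.add h2).add h3
    refine h4.congr_deriv ?_
    rw [Real.tan_eq_sin_div_cos t]
    simp only [id]
    push_cast
    ring
  have hFx : F x = 2 * Real.log (Real.cos x) := by simp [hF]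
  have key : F y ≤ F x := by
    rcases le_total x y with hxy | hxy
    · have h1 : AntitoneOn F (Icc x y) := by
        apply antitoneOn_of_deriv_nonpos (convex_Icc _ _)
        · intro t ht
          exact (hder t ⟨hx.1.trans_le ht.1, ht.2.trans_lt hy.2⟩).continuousAt.continuousWithinAt
        · intro t ht
          rw [interior_Icc] at ht
          exact (hder t ⟨hx.1.trans ht.1, ht.2.trans hy.2⟩).differentiableAt.differentiableWithinAt
        · intro t ht
          rw [interior_Icc] at ht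
          rw [(hder t ⟨hx.1.trans ht.1, ht.2.trans hy.2⟩).deriv]
          have := tan_sub_mono hx.1 ht.1.le (ht.2.trans hy.2)
          linarith
      exact h1 (left_mem_Icc.2 hxy) (right_mem_Icc.2 hxy) hxy
    · have h1 : MonotoneOn F (Icc y x) := by
        apply monotoneOn_of_deriv_nonneg (convex_Icc _ _)
        · intro t ht
          exact (hder t ⟨hy.1.trans_le ht.1, ht.2.trans_lt hx.2⟩).continuousAt.continuousWithinAt
        · intro t ht
          rw [interior_Icc] at ht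
          exact (hder t ⟨hy.1.trans ht.1, ht.2.trans hx.2⟩).differentiableAt.differentiableWithinAt
        · intro t ht
          rw [interior_Icc] at ht
          rw [(hder t ⟨hy.1.trans ht.1, ht.2.trans hx.2⟩).deriv]
          have := tan_sub_mono (hy.1.trans ht.1) ht.2.le hx.2
          linarith
      exact h1 (left_mem_Icc.2 hxy) (right_mem_Icc.2 hxy) hxy
  rw [hFx] at key
  simp only [hF] at key
  linarith

/-! ### the transport map -/

section tr

variable {q : ℝ → ℝ} {Q V : ℝ}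

/-- normalised density, cut off outside `J` -/
noncomputable def uu (q : ℝ → ℝ) (V : ℝ) : ℝ → ℝ := (Icc (-bb) bb).indicator fun θ => q θ / V

lemma uu_nonneg (h0 : ∀ θ, 0 ≤ q θ) (hV : 0 < V) (θ : ℝ) : 0 ≤ uu q V θ :=
  indicator_nonneg (fun θ _ => div_nonneg (h0 θ) hV.le) θ

lemma uu_le (h0 : ∀ θ, 0 ≤ q θ) (hQ : ∀ θ, q θ ≤ Q) (hV : 0 < V) (θ : ℝ) :
    uu q V θ ≤ Q / V := by
  unfold uu
  have hQ0 : 0 ≤ Q := (h0 0).trans (hQ 0)
  by_cases h : θ ∈ Icc (-bb) bb
  · rw [indicator_of_mem h]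
    have := hQ θ
    gcongr
  · rw [indicator_of_notMem h]
    positivity

lemma measurable_uu (hq : Measurable q) : Measurable (uu q V) :=
  (hq.div_const V).indicator measurableSet_Icc

lemma locInt_uu (hq : Measurable q) (h0 : ∀ θ, 0 ≤ q θ) (hQ : ∀ θ, q θ ≤ Q) (hV : 0 < V) :
    LocallyIntegrable (uu q V) volume := by
  have h1 : LocallyIntegrable (fun _ : ℝ => Q / V) volume := locallyIntegrable_const _
  refine h1.mono (measurable_uu hq).aestronglyMeasurable (Eventually.of_forall fun θ => ?_)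
  rw [Real.norm_of_nonneg (uu_nonneg h0 hV θ)]
  exact (uu_le h0 hQ hV θ).trans (le_abs_self _)

/-- the distribution function -/
noncomputable def UU (q : ℝ → ℝ) (V : ℝ) (θ : ℝ) : ℝ := ∫ t in (-bb)..θ, uu q V t

lemma UU_sub (hq : Measurable q) (h0 : ∀ θ, 0 ≤ q θ) (hQ : ∀ θ, q θ ≤ Q) (hV : 0 < V) {x y : ℝ}
    (hxy : x ≤ y) : 0 ≤ UU q V y - UU q V x ∧ UU q V y - UU q V x ≤ Q / V * (y - x) := by
  have hint : ∀ a b, IntervalIntegrable (uu q V) volume a b :=
    fun a b => intervalIntegrable_iff.mpr <|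
      ((locInt_uu hq h0 hQ hV).integrableOn_isCompact isCompact_uIcc).mono_set uIoc_subset_uIcc
  have h1 : UU q V y - UU q V x = ∫ t in x..y, uu q V t := by
    unfold UU
    rw [intervalIntegral.integral_interval_sub_left (hint _ _) (hint _ _)]
  rw [h1]
  constructor
  · exact intervalIntegral.integral_nonneg hxy fun t _ => uu_nonneg h0 hV t
  · have h2 : Q / V * (y - x) = ∫ _ in x..y, Q / V := by
      rw [intervalIntegral.integral_const, smul_eq_mul, mul_comm]
    rw [h2]
    exact intervalIntegral.integral_mono_on hxy (hint _ _) (by simp) fun t _ => uu_le h0 hQ hV t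

lemma UU_left : UU q V (-bb) = 0 := by unfold UU; simp

lemma UU_right (hV : 0 < V) (hVq : V = ∫ θ in Icc (-bb) bb, q θ) : UU q V bb = 1 := by
  unfold UU uu
  rw [intervalIntegral.integral_of_le (by linarith [bb_pos]), ← integral_Icc_eq_integral_Ioc,
    setIntegral_indicator measurableSet_Icc, inter_self, integral_div, ← hVq]
  exact div_self hV.ne'

/-- the transport map -/
noncomputable def TT (q : ℝ → ℝ) (V : ℝ) (θ : ℝ) : ℝ := Gi (UU q V θ)

lemma TT_left : TT q V (-bb) = -bb := by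
  unfold TT
  rw [UU_left, ← Gm_left, Gi_Gm]

lemma TT_right (hV : 0 < V) (hVq : V = ∫ θ in Icc (-bb) bb, q θ) : TT q V bb = bb := by
  unfold TT
  rw [UU_right hV hVq, ← Gm_right, Gi_Gm]

lemma TT_sub (hq : Measurable q) (h0 : ∀ θ, 0 ≤ q θ) (hQ : ∀ θ, q θ ≤ Q) (hV : 0 < V) {x y : ℝ}
    (hxy : x ≤ y) : 0 ≤ TT q V y - TT q V x ∧ TT q V y - TT q V x ≤ Q / V / g0 * (y - x) := by
  obtain ⟨h1, h2⟩ := UU_sub hq h0 hQ hV hxy
  have h3 : UU q V x ≤ UU q V y := by linarith
  constructor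
  · have := monotone_Gi h3
    unfold TT
    linarith
  · have h4 := Gi_lip h3
    unfold TT
    refine h4.trans ?_
    rw [div_mul_eq_mul_div]
    exact div_le_div_of_nonneg_right h2 g0_pos.le

lemma TT_mem (hq : Measurable q) (h0 : ∀ θ, 0 ≤ q θ) (hQ : ∀ θ, q θ ≤ Q) (hV : 0 < V)
    (hVq : V = ∫ θ in Icc (-bb) bb, q θ) {θ : ℝ} (hθ : θ ∈ Icc (-bb) bb) :
    TT q V θ ∈ Icc (-bb) bb := by
  have h1 := (TT_sub hq h0 hQ hV hθ.1).1
  have h2 := (TT_sub hq h0 hQ hV hθ.2).1
  rw [TT_left] at h1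
  rw [TT_right hV hVq] at h2
  exact ⟨by linarith, by linarith⟩

lemma TT_lip (hq : Measurable q) (h0 : ∀ θ, 0 ≤ q θ) (hQ : ∀ θ, q θ ≤ Q) (hV : 0 < V) :
    LipschitzWith (Real.toNNReal (Q / V / g0)) (TT q V) := by
  apply LipschitzWith.of_dist_le_mul
  intro x y
  have hQ0 : 0 ≤ Q := (h0 0).trans (hQ 0)
  have hc : 0 ≤ Q / V / g0 := by
    have := g0_pos
    positivity
  rw [Real.coe_toNNReal _ hc, Real.dist_eq, Real.dist_eq]
  rcases le_total x y with h | h
  · obtain ⟨h1, h2⟩ := TT_sub hq h0 hQ hV h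
    rw [abs_sub_comm, abs_of_nonneg h1, abs_sub_comm, abs_of_nonneg (by linarith)]
    exact h2
  · obtain ⟨h1, h2⟩ := TT_sub hq h0 hQ hV h
    rw [abs_of_nonneg h1, abs_of_nonneg (by linarith)]
    exact h2

lemma TT_deriv (hq : Measurable q) (h0 : ∀ θ, 0 ≤ q θ) (hQ : ∀ θ, q θ ≤ Q) (hV : 0 < V) :
    ∀ᵐ x, HasDerivAt (TT q V) (uu q V x / gm (TT q V x)) x := by
  filter_upwards [LocallyIntegrable.ae_hasDerivAt_integral (locInt_uu hq h0 hQ hV)] with x hx
  have h1 := (hasDerivAt_Gi (UU q V x)).comp x (hx (-bb))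
  refine h1.congr_deriv ?_
  rw [inv_mul_eq_div]
  rfl

lemma TT_ftc (hq : Measurable q) (h0 : ∀ θ, 0 ≤ q θ) (hQ : ∀ θ, q θ ≤ Q) (hV : 0 < V) (θ : ℝ) :
    ∫ x in (-bb)..θ, uu q V x / gm (TT q V x) = TT q V θ + bb := by
  have h1 : AbsolutelyContinuousOnInterval (TT q V) (-bb) θ :=
    (TT_lip hq h0 hQ hV).lipschitzOnWith.absolutelyContinuousOnInterval
  have h2 := h1.integral_deriv_eq_sub
  rw [TT_left] at h2
  rw [← sub_neg_eq_add, ← h2]
  apply intervalIntegral.integral_congr_ae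
  filter_upwards [TT_deriv hq h0 hQ hV] with x hx _
  exact hx.deriv.symm

/-- the derivative of `s` -/
noncomputable def gg (q : ℝ → ℝ) (V : ℝ) : ℝ → ℝ := (Icc (-bb) bb).indicator fun θ =>
  -(2 * aa ^ 2 / Real.cos (aa * θ) ^ 2) + 1 - uu q V θ / gm (TT q V θ)

/-- the field -/
noncomputable def ss (q : ℝ → ℝ) (V : ℝ) (θ : ℝ) : ℝ := -(2 * aa * Real.tan (aa * θ)) + θ - TT q V θ

lemma measurable_quot (hq : Measurable q) (h0 : ∀ θ, 0 ≤ q θ) (hQ : ∀ θ, q θ ≤ Q) (hV : 0 < V) :
    Measurable fun θ => uu q V θ / gm (TT q V θ) :=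
  (measurable_uu hq).div (continuous_gm.measurable.comp (TT_lip hq h0 hQ hV).continuous.measurable)

lemma measurable_gg (hq : Measurable q) (h0 : ∀ θ, 0 ≤ q θ) (hQ : ∀ θ, q θ ≤ Q) (hV : 0 < V) :
    Measurable (gg q V) := by
  apply Measurable.indicator _ measurableSet_Icc
  apply Measurable.sub _ (measurable_quot hq h0 hQ hV)
  apply Measurable.add_const
  apply Measurable.neg
  apply Measurable.const_div
  have : Continuous fun θ : ℝ => Real.cos (aa * θ) ^ 2 := by fun_prop
  exact this.measurable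

lemma quot_bound (h0 : ∀ θ, 0 ≤ q θ) (hQ : ∀ θ, q θ ≤ Q) (hV : 0 < V) (θ : ℝ) :
    0 ≤ uu q V θ / gm (TT q V θ) ∧ uu q V θ / gm (TT q V θ) ≤ Q / V / g0 := by
  have h1 := uu_nonneg h0 hV θ
  have h2 := uu_le h0 hQ hV θ
  have h3 := g0_pos
  have h4 := g0_le (TT q V θ)
  constructor
  · exact div_nonneg h1 (h3.trans_le h4).le
  · exact div_le_div₀ (h1.trans h2) h2 h3 h4

lemma gg_bound (h0 : ∀ θ, 0 ≤ q θ) (hQ : ∀ θ, q θ ≤ Q) (hV : 0 < V) (θ : ℝ) :
    |gg q V θ| ≤ 2 * aa ^ 2 / Real.cos (aa * bb) ^ 2 + 1 + Q / V / g0 := by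
  obtain ⟨h1, h2⟩ := quot_bound h0 hQ hV θ
  have hc := cosb_pos
  have hQ0 : 0 ≤ Q / V / g0 := h1.trans h2
  have h5 : 0 ≤ 2 * aa ^ 2 / Real.cos (aa * bb) ^ 2 := by positivity
  unfold gg
  by_cases hθ : θ ∈ Icc (-bb) bb
  · rw [indicator_of_mem hθ]
    have h3 := cos_ge hθ
    have h4 : 2 * aa ^ 2 / Real.cos (aa * θ) ^ 2 ≤ 2 * aa ^ 2 / Real.cos (aa * bb) ^ 2 := by
      gcongr
    have h6 : 0 ≤ 2 * aa ^ 2 / Real.cos (aa * θ) ^ 2 := by positivity
    rw [abs_le]
    constructor <;> linarith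
  · rw [indicator_of_notMem hθ, abs_zero]
    linarith

lemma tan_ftc {θ : ℝ} (hθ : θ ∈ Icc (-bb) bb) :
    ∫ x in (-bb)..θ, (2 * aa ^ 2 / Real.cos (aa * x) ^ 2) =
      2 * aa * Real.tan (aa * θ) + 2 * aa * Real.tan (aa * bb) := by
  have hsub : uIcc (-bb) θ ⊆ Icc (-bb) bb := by
    rw [uIcc_of_le hθ.1]
    exact Icc_subset_Icc le_rfl hθ.2
  have h1 : ∀ x ∈ uIcc (-bb) θ, HasDerivAt (fun x => 2 * aa * Real.tan (aa * x))
      (2 * aa ^ 2 / Real.cos (aa * x) ^ 2) x := by
    intro x hx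
    have hc := (cos_pos (hsub hx)).ne'
    have h2 : HasDerivAt (fun x : ℝ => aa * x) aa x := by
      simpa using (hasDerivAt_id x).const_mul aa
    have h3 := ((Real.hasDerivAt_tan hc).comp x h2).const_mul (2 * aa)
    refine h3.congr_deriv ?_
    ring
  rw [intervalIntegral.integral_eq_sub_of_hasDerivAt h1]
  · have e : Real.tan (aa * -bb) = -Real.tan (aa * bb) := by
      rw [← Real.tan_neg]; congr 1; ring
    rw [e]; ring
  · apply ContinuousOn.intervalIntegrable
    apply ContinuousOn.div continuousOn_const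
    · fun_prop
    · intro x hx
      exact pow_ne_zero _ (cos_pos (hsub hx)).ne'

lemma ss_ftc (hq : Measurable q) (h0 : ∀ θ, 0 ≤ q θ) (hQ : ∀ θ, q θ ≤ Q) (hV : 0 < V) {θ : ℝ}
    (hθ : θ ∈ Icc (-bb) bb) : ss q V θ = ss q V (-bb) + ∫ τ in Ioc (-bb) θ, gg q V τ := by
  have hsub : uIcc (-bb) θ ⊆ Icc (-bb) bb := by
    rw [uIcc_of_le hθ.1]
    exact Icc_subset_Icc le_rfl hθ.2
  rw [← intervalIntegral.integral_of_le hθ.1]
  have h1 : ∫ τ in (-bb)..θ, gg q V τ = ∫ τ in (-bb)..θ,
      ((-(2 * aa ^ 2 / Real.cos (aa * τ) ^ 2) + 1) - uu q V τ / gm (TT q V τ)) := by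
    apply intervalIntegral.integral_congr
    intro t ht
    simp only [gg]
    rw [indicator_of_mem (hsub ht)]
  have hi1 : IntervalIntegrable (fun x => 2 * aa ^ 2 / Real.cos (aa * x) ^ 2) volume (-bb) θ := by
    apply ContinuousOn.intervalIntegrable
    apply ContinuousOn.div continuousOn_const
    · fun_prop
    · intro x hx
      exact pow_ne_zero _ (cos_pos (hsub hx)).ne'
  have hi2 : IntervalIntegrable (fun x => uu q V x / gm (TT q V x)) volume (-bb) θ := by
    have h2 : IntervalIntegrable (fun _ : ℝ => Q / V / g0) volume (-bb) θ := by simp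
    refine h2.mono_fun (measurable_quot hq h0 hQ hV).aestronglyMeasurable
      (Eventually.of_forall fun x => ?_)
    obtain ⟨h3, h4⟩ := quot_bound h0 hQ hV x
    simp only [Real.norm_eq_abs]
    rw [abs_of_nonneg h3, abs_of_nonneg (h3.trans h4)]
    exact h4
  have hi4 : IntervalIntegrable (fun x => -(2 * aa ^ 2 / Real.cos (aa * x) ^ 2)) volume (-bb) θ :=
    hi1.neg
  have hi3 : IntervalIntegrable (fun x => -(2 * aa ^ 2 / Real.cos (aa * x) ^ 2) + 1) volume
    (-bb) θ := hi4.add (by simp)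
  rw [h1, intervalIntegral.integral_sub hi3 hi2,
    intervalIntegral.integral_add hi4 (by simp), intervalIntegral.integral_neg, tan_ftc hθ,
    TT_ftc hq h0 hQ hV, intervalIntegral.integral_const]
  unfold ss
  have e : Real.tan (aa * -bb) = -Real.tan (aa * bb) := by
    rw [← Real.tan_neg]; congr 1; ring
  rw [TT_left, e, smul_eq_mul]
  ring

end tr

end TransportAux

open TransportAux

theorem transport : Stmt_Transport := by
  intro q Q hq h0 hQ hpos
  set V : ℝ := ∫ θ in Icc (-bb) bb, q θ with hVdef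
  have e : Real.tan (aa * -bb) = -Real.tan (aa * bb) := by
    rw [← Real.tan_neg]; congr 1; ring
  refine ⟨ss q V, gg q V, _, measurable_gg hq h0 hQ hpos, gg_bound h0 hQ hpos, ?_, ?_,
    fun θ hθ => ss_ftc hq h0 hQ hpos hθ, ?_, ?_⟩
  · unfold ss
    rw [TT_left, e]; ring
  · unfold ss
    rw [TT_right hpos hVdef]; ring
  · intro θ hθ
    have h1 := TT_mem hq h0 hQ hpos hVdef hθ
    have h2 : |Real.tan (aa * θ)| ≤ Real.tan (aa * bb) := by
      have hb := aabb_lt
      have hab := aabb_pos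
      have h3 := abs_le.1 (mul_mem hθ)
      rw [abs_le]
      constructor
      · rw [← Real.tan_neg]
        exact Real.strictMonoOn_tan.monotoneOn ⟨by linarith, by linarith⟩
          ⟨by linarith, by linarith⟩ h3.1
      · exact Real.strictMonoOn_tan.monotoneOn ⟨by linarith, by linarith⟩
          ⟨by linarith, by linarith⟩ h3.2
    have h3 := abs_le.1 h2
    have ha := aa_pos
    unfold ss
    rw [abs_le]
    constructor <;> nlinarith [hθ.1, hθ.2, h1.1, h1.2]
  · rw [ae_restrict_iff' measurableSet_Icc]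
    refine Eventually.of_forall fun θ hθ => ?_
    rcases (h0 θ).eq_or_lt with h | h
    · rw [← h, zero_mul, zero_mul]
    apply mul_le_mul_of_nonneg_left _ h.le
    have hu : uu q V θ = q θ / V := indicator_of_mem hθ _
    have hupos : 0 < uu q V θ := by rw [hu]; exact div_pos h hpos
    have hT := TT_mem hq h0 hQ hpos hVdef hθ
    set t := TT q V θ with ht
    have hgt := gm_pos t
    set T' := uu q V θ / gm t with hT'
    have hT'pos : 0 < T' := div_pos hupos hgt
    have hcθ := cos_pos hθ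
    have hct := cos_pos hT
    have l1 : Real.log (q θ / V) = Real.log (gm t) + Real.log T' := by
      rw [← Real.log_mul hgt.ne' hT'pos.ne', hT', mul_div_cancel₀ _ hgt.ne', hu]
    have l2 : Real.log (gm t) = 2 * Real.log (Real.cos (aa * t)) - Real.log I0 := by
      unfold gm
      rw [cl_of_mem hT, Real.log_div (pow_pos hct 2).ne' I0_pos.ne', Real.log_pow]
      push_cast; ring
    have hin : ∀ {x : ℝ}, x ∈ Icc (-bb) bb → aa * x ∈ Ioo (-(Real.pi / 2)) (Real.pi / 2) := by
      intro x hx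
      have h3 := abs_le.1 (mul_mem hx)
      have hb := aabb_lt
      exact ⟨by linarith, by linarith⟩
    have l3 := log_cos_le (hin hθ) (hin hT)
    have l4 := Real.log_le_sub_one_of_pos hT'pos
    have l5 : Real.log (Real.cos (aa * θ)) ≤ 0 :=
      Real.log_nonpos hcθ.le (Real.cos_le_one _)
    have l6 : Real.log bb ≤ Real.log I0 := Real.log_le_log bb_pos bb_lt_I0.le
    have hg : gg q V θ = -(2 * aa ^ 2 / Real.cos (aa * θ) ^ 2) + 1 - T' := indicator_of_mem hθ _
    have hs : ss q V θ = -(2 * aa * Real.tan (aa * θ)) + θ - t := rfl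
    have htan : 1 / Real.cos (aa * θ) ^ 2 = 1 + Real.tan (aa * θ) ^ 2 := by
      rw [Real.tan_eq_sin_div_cos, div_pow]
      field_simp
      have := Real.sin_sq_add_cos_sq (aa * θ)
      linarith
    have htan' : 2 * aa ^ 2 / Real.cos (aa * θ) ^ 2 = 2 * aa ^ 2 * (1 + Real.tan (aa * θ) ^ 2) := by
      rw [← htan]; ring
    rw [hg, hs, htan', l1, l2]
    have ha : (1 : ℝ) / 2 ≤ aa ^ 2 := by unfold aa; norm_num
    have h7 : 0 ≤ (aa ^ 2 - 1 / 2) * (θ - t) ^ 2 := mul_nonneg (by linarith) (sq_nonneg _)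
    nlinarith [l3, l4, l5, l6, h7]

end Pool.Agent.Lib.MP_c95dcf_gt
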