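import Pool.Agent.Lib.MP_c95dcf_gt.All

/-!
# MP_c95dcf_gt: robust form of the result
-/

set_option autoImplicit false

open MeasureTheory Set Filter Topology
open scoped ENNReal NNReal RealInnerProductSpace

namespace Pool.Agent.Lib.MP_c95dcf_gt

theorem partB_large (h1 : Stmt_Prof) (h2 : Stmt_ProfLim) (h3 : Stmt_Main) (h4 : Stmt_CrudeMid)
    (h5 : Stmt_CrudeLow) (h6 : Stmt_CrudeRad) (h7 : Stmt_Ring) (h8 : Stmt_Rot) :
    ∀ᶠ m : ℕ in atTop, ∃ κ t : ℝ, BHyp m κ t := by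
  obtain ⟨RM, mM, hRM, hmM, hM⟩ := h3
  obtain ⟨c1, m1, hc1, hm1, hMid⟩ := h4
  obtain ⟨RL, mL, hRL, hmL, hLow⟩ := h5
  obtain ⟨c2, m2, hc2, hm2, hRad⟩ := h6
  have hpi := Real.pi_pos
  -- choice of R
  have hlimR : Tendsto (fun R : ℝ => (1 + R) * Real.exp (-R)) atTop (𝓝 0) := by
    have e1 := Real.tendsto_pow_mul_exp_neg_atTop_nhds_zero 0
    have e2 := Real.tendsto_pow_mul_exp_neg_atTop_nhds_zero 1
    have e3 := e1.add e2
    rw [add_zero] at e3
    refine e3.congr (fun x => ?_)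
    ring
  have hlimR2 : Tendsto (fun R : ℝ => 2 * Real.pi * ((1 + R) * Real.exp (-R))) atTop (𝓝 0) := by
    have := hlimR.const_mul (2 * Real.pi)
    rwa [mul_zero] at this
  have hlimR3 : Tendsto (fun R : ℝ => 16 * ((1 + R) * Real.exp (-R))) atTop (𝓝 0) := by
    have := hlimR.const_mul 16
    rwa [mul_zero] at this
  obtain ⟨R, hRa, hRb, hR4, hRc, hRd⟩ : ∃ R : ℝ, RM + 1 ≤ R ∧ RL ≤ R ∧ 4 ≤ R ∧
      2 * Real.pi * ((1 + R) * Real.exp (-R)) < min c1 c2 ∧
      16 * ((1 + R) * Real.exp (-R)) < Real.exp (-1) := by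
    have ev1 := hlimR2.eventually_lt_const (lt_min hc1 hc2)
    have ev2 := hlimR3.eventually_lt_const (Real.exp_pos (-1))
    obtain ⟨R, hR⟩ := ((eventually_ge_atTop (RM + 1)).and ((eventually_ge_atTop RL).and
      ((eventually_ge_atTop (4 : ℝ)).and (ev1.and ev2)))).exists
    exact ⟨R, hR.1, hR.2.1, hR.2.2.1, hR.2.2.2.1, hR.2.2.2.2⟩
  have hR0 : 0 < R := by linarith
  obtain ⟨κ, hκ⟩ : ∃ κ : ℝ, κ = 1 - 1 / (1 + R) + 1 / (10 * R ^ 2) := ⟨_, rfl⟩
  have hκ1 : κ < 1 := by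
    have : 1 / (10 * R ^ 2) < 1 / (1 + R) := by
      apply one_div_lt_one_div_of_lt (by linarith)
      nlinarith
    rw [hκ]
    linarith
  have hκ0 : 0 < κ := by
    have e1 : 1 / (1 + R) < 1 := by
      rw [div_lt_one (by linarith)]
      linarith
    have e2 : 0 < 1 / (10 * R ^ 2) := by positivity
    rw [hκ]
    linarith
  -- choice of m
  have hlt : R * Real.exp (-R) < κ * ((1 + R) * Real.exp (-R)) := by
    have e1 : κ * (1 + R) = R + (1 + R) / (10 * R ^ 2) := by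
      rw [hκ]
      field_simp
      ring
    have e2 : 0 < (1 + R) / (10 * R ^ 2) := by positivity
    have e3 := Real.exp_pos (-R)
    rw [← mul_assoc, e1]
    nlinarith [mul_pos e2 e3]
  have hm_ev1 : ∀ᶠ m : ℕ in atTop, R * Wp m R < κ * vp m R :=
    ((h2.1 R).const_mul R).eventually_lt ((h2.2 R hR0.le).const_mul κ) hlt
  have hm_ev2 : ∀ᶠ m : ℕ in atTop, Real.exp (-1) < vp m 1 := by
    refine (h2.2 1 zero_le_one).eventually_const_lt ?_
    have := Real.exp_pos (-1)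
    linarith
  have hm_ev3 : ∀ᶠ m : ℕ in atTop, R < m :=
    (tendsto_natCast_atTop_atTop (R := ℝ)).eventually_gt_atTop R
  filter_upwards [hm_ev1, hm_ev2, hm_ev3, eventually_ge_atTop mM, eventually_ge_atTop m1,
    eventually_ge_atTop mL, eventually_ge_atTop m2] with m hma hmb hmc hmd hme hmf hmg
  have hm : 2 ≤ m := hmM.trans hmd
  obtain ⟨t, ht⟩ : ∃ t : ℝ, t = 2 * Real.pi * vp m R := ⟨_, rfl⟩
  obtain ⟨-, hcont, hanti, hnn, hup, hsh, -, -, hW2, -⟩ := h1 m hm
  have hv0 : 0 < vp m R := by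
    have e1 := hanti (⟨hR0.le, hmc.le⟩ : R ∈ Icc (0 : ℝ) m)
      (⟨by positivity, le_rfl⟩ : (m : ℝ) ∈ Icc (0 : ℝ) m) hmc
    exact lt_of_le_of_lt (hnn m (by positivity)) e1
  have hvle : vp m R ≤ (1 + R) * Real.exp (-R) := by
    refine (hup R hR0.le).trans ?_
    rw [mul_comm]
    exact mul_le_mul_of_nonneg_left (hW2 R hR0.le) (by linarith)
  have ht0 : 0 < t := by
    rw [ht]
    positivity
  have htle : t < min c1 c2 := by
    rw [ht]
    refine lt_of_le_of_lt ?_ hRc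
    exact mul_le_mul_of_nonneg_left hvle (by positivity)
  have hκt : κ * t < t := by nlinarith
  have hκt1 : κ * t < c1 := hκt.trans (htle.trans_le (min_le_left _ _))
  have hκt2 : κ * t < c2 := hκt.trans (htle.trans_le (min_le_right _ _))
  have hZ : t ≤ V0 m univ / 16 := by
    have h1m : (1 : ℝ) < m := by
      have : (2 : ℝ) ≤ m := by exact_mod_cast hm
      linarith
    have e1 := (h7 m 1 hm one_pos h1m).1
    have e2 : V0 m ({c : ℂ | (1 : ℝ) < ‖c‖} ∩ Metric.ball (0 : ℂ) m) ≤ V0 m univ :=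
      bfinal_V0_mono (subset_univ _)
    rw [e1] at e2
    rw [ht]
    have e3 : 16 * vp m R ≤ vp m 1 := by linarith
    nlinarith [mul_le_mul_of_nonneg_left e3 (by positivity : (0 : ℝ) ≤ 2 * Real.pi)]
  refine ⟨κ, t, hm, hκ0, hκ1, ht0, hZ, ?_, ?_, ?_⟩
  · have e1 := h7 m R hm hR0 hmc
    refine ⟨{c : ℂ | R < ‖c‖} ∩ Metric.ball (0 : ℂ) m, ?_, inter_subset_right, ?_, ?_⟩
    · exact (isOpen_lt continuous_const continuous_norm).measurableSet.inter measurableSet_ball
    · rw [e1.1, ht]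
    · refine lt_of_le_of_lt e1.2 ?_
      rw [ENNReal.ofReal_lt_ofReal_iff (mul_pos hκ0 ht0), ht]
      unfold hp
      calc 2 * Real.pi * (R * Wp m R) < 2 * Real.pi * (κ * vp m R) :=
            mul_lt_mul_of_pos_left hma (by positivity)
        _ = κ * (2 * Real.pi * vp m R) := by ring
  · intro A hA hA1 hA2
    refine lt_of_lt_of_le ?_ (hMid m hme A hA hA1 hA2)
    rw [ENNReal.ofReal_lt_ofReal_iff hc1]
    exact hκt1
  · intro A hA hA1 hA2 hA3
    rcases hA3 with ⟨h, hh0, hmono⟩ | hrad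
    · obtain ⟨B, hB, hBm, hBV, hBP⟩ := h8 m h A hh0 hA hmono
      rw [← hBV, ← hBP]
      rw [← hBV] at hA1 hA2
      refine bfinal_mono_case h1 hm hmc hR4 hκ hκ1 ht hκt1 ht0 hκ0 (Z := V0 m univ)
        ?_ ?_ ?_ hA1 hA2
      · intro r hr1 hr2 hr3
        exact hM m hmd B r hB hBm (by linarith) hr2 hr3
      · exact hMid m hme B hB
      · exact hLow m hmf B R hB hRb hmc
    · refine lt_of_lt_of_le ?_ (hRad m hmg A hA hrad hA1 ?_)
      · rw [ENNReal.ofReal_lt_ofReal_iff hc2]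
        refine lt_of_le_of_lt ?_ hκt2
        exact mul_le_mul_of_nonneg_left (min_le_right _ _) hκ0.le
      · linarith


theorem all_B_large (hK : Stmt_Kern) (hI : Stmt_IBP) :
    ∀ᶠ m : ℕ in atTop, ∃ κ t : ℝ, BHyp m κ t :=
  partB_large prof profLim
    (main_ineq prof all_iso1 polar slices (s3 p1sep) (osc (s3 p1sep)) (core transport)
      (left monoShift prof) (inner_mass (isoDisc (all_relIsoBall hK hI)) prof))
    (crudeMid prof profLim (iso1c prof profLim cross p1add) polar slices (s3 p1sep)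
      (osc (s3 p1sep)))
    (crudeLow prof profLim (iso1c prof profLim cross p1add) polar slices (s3 p1sep)
      (osc (s3 p1sep)) all_iso1)
    (crudeRad prof profLim polar slices (osc (s3 p1sep))) (ring_set prof) rot

end Pool.Agent.Lib.MP_c95dcf_gt
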