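import Pool.Agent.Lib.MP_c95dcf_gt.RobustB

/-!
# MP_c95dcf_gt: robust form of the result, the minimisers
-/

set_option autoImplicit false

open MeasureTheory Set Filter Topology
open scoped ENNReal NNReal RealInnerProductSpace

namespace Pool.Agent.Lib.MP_c95dcf_gt

/-- All properties of the minimiser. -/
structure Robust (m : ℕ) (ε lam : ℝ) (F : Set (E (2 + m))) : Prop where
  lam_pos : 0 < lam
  lam_lt : lam < 1 / 4
  sub : F ⊆ Kb m ε
  closed : IsClosed F
  reg : closure (interior F) = F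
  vol : volume F = ENNReal.ofReal lam * volume (Kb m ε)
  per_eq : Per (Ub m ε) F = c0 (2 + m - 1) *
    (Measure.hausdorffMeasure (((2 + m : ℕ) : ℝ) - 1) : Measure (E (2 + m)))
      (frontier F ∩ Ub m ε)
  per_pos : Per (Ub m ε) F ≠ 0
  per_fin : Per (Ub m ε) F ≠ ∞
  min_per : ∀ G : Set (E (2 + m)), G ⊆ Kb m ε → MeasurableSet G →
    volume G = ENNReal.ofReal lam * volume (Kb m ε) → Per (Ub m ε) F ≤ Per (Ub m ε) G
  min_haus : ∀ G : Set (E (2 + m)), G ⊆ Kb m ε → MeasurableSet G →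
    volume G = ENNReal.ofReal lam * volume (Kb m ε) →
    (Measure.hausdorffMeasure (((2 + m : ℕ) : ℝ) - 1) : Measure (E (2 + m)))
      (frontier F ∩ Ub m ε) ≤
    (Measure.hausdorffMeasure (((2 + m : ℕ) : ℝ) - 1) : Measure (E (2 + m)))
      (frontier G ∩ Ub m ε)
  not_graph : ∀ e : E (2 + m), e ≠ 0 → ∃ x ∈ frontier F ∩ Ub m ε,
    ∃ y ∈ frontier F ∩ Ub m ε, x ≠ y ∧ ∃ c : ℝ, y = x + c • e

theorem exist1 (h1 : Stmt_A) (h2 : Stmt_E2) (h3 : Stmt_Body) (h4 : Stmt_PeScale)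
    (h5 : Stmt_MinVol) (h6 : Stmt_PerCongr) (h7 : Stmt_Lift) (h8 : Stmt_PeIso) (hT : Stmt_T)
    (m : ℕ) (κ t : ℝ) (hyp : BHyp m κ t) :
    ∃ ε₀ : ℝ, 0 < ε₀ ∧ ∀ ε : ℝ, 0 < ε → ε < ε₀ → ∃ (lam : ℝ) (F : Set (E (2 + m))),
      Robust m ε lam F := by
  obtain ⟨ε₁, hε₁, hε₁', hmv⟩ := h5 m κ t hyp
  obtain ⟨ε₂, hε₂, hε₂', hno⟩ := hT m κ t hyp
  obtain ⟨ciso, hciso, hiso⟩ := h8 m hyp.hm
  refine ⟨min ε₁ ε₂, lt_min hε₁ hε₂, fun ε hε hlt' => ?_⟩
  have hlt : ε < ε₁ := lt_of_lt_of_le hlt' (min_le_left _ _)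
  have hlt2 : ε < ε₂ := lt_of_lt_of_le hlt' (min_le_right _ _)
  have hm : 2 ≤ m := hyp.hm
  have hm1 : 1 ≤ m := by omega
  obtain ⟨hcv, hcp, hint, hcl, hne, hop, hcvU, hbd, hsym, hLsU, hLsK⟩ := h3 m ε hm1 hε
  obtain ⟨-, -, -, -, -, hop1, -, hbd1, -, -, -⟩ := h3 m 1 hm1 one_pos
  have hs : 0 < ε ^ m := by positivity
  have hs' : ENNReal.ofReal (ε ^ m) ≠ 0 := by simpa using hs
  obtain ⟨F, hFc, hFK, hFr, hFmin, hFH⟩ := h1 (2 + m) (Kb m ε)
    (fun v => ε ^ m * fT m κ t (v / ε ^ m)) 1 (by omega) hcv hcp (by rw [hint]; exact hne)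
    (exist0_scaled_lip hyp.κ_pos.le hyp.κ_lt.le hs)
  rw [hint] at hFmin hFH
  let φ := (LsE m ε hε.ne').toHomeomorph
  have hφ : ∀ p, φ p = Ls ε p := fun p => rfl
  have hφ' : (φ : E (2 + m) → E (2 + m)) = Ls ε := rfl
  have hU : φ ⁻¹' (Ub m ε) = Ub m 1 := by
    rw [← hLsU, ← hφ', φ.injective.preimage_image]
  set A : Set (E (2 + m)) := φ ⁻¹' F with hAdef
  have hAc : IsClosed A := hFc.preimage φ.continuous
  have hAr : closure (interior A) = A := by
    rw [hAdef, ← φ.preimage_interior, ← φ.preimage_closure, hFr]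
  have hAf : frontier A = φ ⁻¹' (frontier F) := by
    rw [hAdef, φ.preimage_frontier]
  have himg : Ls ε '' (A ∩ Ub m 1) = F ∩ Ub m ε := by
    rw [hAdef, ← hU, ← preimage_inter, ← hφ', image_preimage_eq _ φ.surjective]
  have hAm : MeasurableSet (A ∩ Ub m 1) := hAc.measurableSet.inter hop1.measurableSet
  obtain ⟨-, hvA, hPA⟩ := h4 m ε _ hm1 hε hAm
  rw [himg] at hvA hPA
  -- toReal versions of the scaling
  have hscale : ∀ x : ℝ≥0∞, (ENNReal.ofReal (ε ^ m) * x).toReal = ε ^ m * x.toReal := by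
    intro x; rw [ENNReal.toReal_mul, ENNReal.toReal_ofReal hs.le]
  have hfin : Pe m ε (A ∩ Ub m 1) ≠ ∞ := by
    intro h
    apply hFmin.fin
    rw [hPA, h, ENNReal.mul_top hs']
  have hmin : IsMinE m ε (fT m κ t) (A ∩ Ub m 1) := by
    refine ⟨hAm, inter_subset_right, hfin, fun B hB hBU hBf => ?_⟩
    obtain ⟨hBm, hvB, hPB⟩ := h4 m ε B hm1 hε hB
    have hsub : Ls ε '' B ⊆ Ub m ε := by rw [← hLsU]; exact image_mono hBU
    have := hFmin.le (Ls ε '' B) hBm hsub (by
      rw [hPB]; exact ENNReal.mul_ne_top ENNReal.ofReal_ne_top hBf)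
    rw [hPB, hvB, hPA, hvA] at this
    simp only [hscale] at this
    rw [mul_div_cancel_left₀ _ hs.ne', mul_div_cancel_left₀ _ hs.ne', ← mul_add, ← mul_add] at this
    exact le_of_mul_le_mul_left this hs
  obtain ⟨hv0, hv1, -⟩ := hmv ε hε hlt _ hmin
  -- volumes
  have hUfin : volume (Ub m 1) ≠ ∞ := hbd1.measure_lt_top.ne
  have hvUb : (volume (Ub m 1)).toReal = vU m := by
    have := (h7 m univ hm MeasurableSet.univ).2.1
    have hl : lift m univ = Ub m 1 := by ext p; simp [lift]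
    rw [hl] at this; rw [this]; rfl
  have hfr : volume (frontier (Kb m ε)) = 0 := hcv.addHaar_frontier volume
  have hKU : ∀ G : Set (E (2 + m)), G ⊆ Kb m ε → volume (G ∩ Ub m ε) = volume G := by
    intro G hG
    apply le_antisymm (measure_mono inter_subset_left)
    calc volume G ≤ volume ((G ∩ Ub m ε) ∪ frontier (Kb m ε)) := by
          apply measure_mono
          intro x hx
          by_cases hxU : x ∈ Ub m ε
          · exact Or.inl ⟨hx, hxU⟩
          · right
            rw [hcp.isClosed.frontier_eq, hint]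
            exact ⟨hG hx, hxU⟩
      _ ≤ volume (G ∩ Ub m ε) + volume (frontier (Kb m ε)) := measure_union_le _ _
      _ = volume (G ∩ Ub m ε) := by rw [hfr, add_zero]
  have hvK : volume (Kb m ε) = ENNReal.ofReal (ε ^ m) * volume (Ub m 1) := by
    have := (h4 m ε (Ub m 1) hm1 hε hop1.measurableSet).2.1
    rw [← this, hLsU, ← hKU (Kb m ε) subset_rfl]
    congr 1
    rw [← hcl]
    exact (inter_eq_self_of_subset_right subset_closure)
  have hvF : volume F = ENNReal.ofReal (ε ^ m) * volume (A ∩ Ub m 1) := by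
    rw [← hvA, hKU F hFK]
  have hKfin : volume (Kb m ε) ≠ ∞ := hcp.measure_lt_top.ne
  have hFfin : volume F ≠ ∞ := ne_top_of_le_ne_top hKfin (measure_mono hFK)
  have hFr' : (volume F).toReal = ε ^ m * (volume (A ∩ Ub m 1)).toReal := by rw [hvF, hscale]
  have hKr : (volume (Kb m ε)).toReal = ε ^ m * vU m := by rw [hvK, hscale, hvUb]
  have hvUpos : 0 < vU m := by linarith
  have hKpos : 0 < (volume (Kb m ε)).toReal := by rw [hKr]; positivity
  have hFpos : 0 < (volume F).toReal := by rw [hFr']; positivity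
  set t' : ℝ := (volume F).toReal / (volume (Kb m ε)).toReal with ht'
  have ht0 : 0 < t' := by positivity
  have ht1 : t' < 1 / 4 := by
    rw [ht', div_lt_iff₀ hKpos, hFr', hKr]
    have := mul_lt_mul_of_pos_left hv1 hs
    linarith
  have hvol : volume F = ENNReal.ofReal t' * volume (Kb m ε) := by
    rw [← ENNReal.ofReal_toReal hKfin, ← ENNReal.ofReal_toReal hFfin, ← ENNReal.ofReal_mul ht0.le,
      ht', div_mul_cancel₀ _ hKpos.ne']
  -- Per is local
  have hloc : ∀ G : Set (E (2 + m)), Per (Ub m ε) G = Per (Ub m ε) (G ∩ Ub m ε) := by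
    intro G
    apply h6 (2 + m) (Ub m ε) G (G ∩ Ub m ε) hop
    have : symmDiff G (G ∩ Ub m ε) ∩ Ub m ε = ∅ := by
      ext x
      simp only [mem_inter_iff, Set.mem_symmDiff, mem_empty_iff_false, iff_false]
      tauto
    rw [this, measure_empty]
  have hE2F := h2 (2 + m) (Ub m ε) F (by omega) hop hFc.measurableSet
  have hper_eq : Per (Ub m ε) F = c0 (2 + m - 1) *
      (Measure.hausdorffMeasure (((2 + m : ℕ) : ℝ) - 1) : Measure (E (2 + m)))
        (frontier F ∩ Ub m ε) := le_antisymm hE2F hFH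
  have hfinF : Per (Ub m ε) F ≠ ∞ := by rw [hloc]; exact hFmin.fin
  have hminPer : ∀ G : Set (E (2 + m)), G ⊆ Kb m ε → MeasurableSet G →
      volume G = ENNReal.ofReal t' * volume (Kb m ε) → Per (Ub m ε) F ≤ Per (Ub m ε) G := by
    intro G hGK hGm hGv
    by_contra hcon
    push Not at hcon
    have hPlt : Per (Ub m ε) (G ∩ Ub m ε) < Per (Ub m ε) (F ∩ Ub m ε) := by
      rw [← hloc, ← hloc]; exact hcon
    have hle := hFmin.le (G ∩ Ub m ε) (hGm.inter hop.measurableSet)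
      inter_subset_right (ne_top_of_lt hPlt)
    rw [hKU G hGK, hKU F hFK, hGv, ← hvol] at hle
    have hle' : (Per (Ub m ε) (F ∩ Ub m ε)).toReal ≤ (Per (Ub m ε) (G ∩ Ub m ε)).toReal := by
      linarith
    have := (ENNReal.toReal_le_toReal hFmin.fin (ne_top_of_lt hPlt)).1 hle'
    exact absurd hPlt (not_lt.2 this)
  -- positivity
  have hposF : Per (Ub m ε) F ≠ 0 := by
    have hA0 : volume ((A ∩ Ub m 1) ∩ Ub m 1) ≠ 0 := by
      rw [inter_assoc, inter_self]
      intro h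
      rw [h] at hv0
      simp at hv0
    have hA1 : volume (Ub m 1 \ (A ∩ Ub m 1)) ≠ 0 := by
      intro h
      have hle : volume (Ub m 1) ≤ volume (A ∩ Ub m 1) := by
        calc volume (Ub m 1) ≤ volume ((Ub m 1 \ (A ∩ Ub m 1)) ∪ (A ∩ Ub m 1)) := by
              apply measure_mono
              intro x hx
              by_cases hxA : x ∈ A ∩ Ub m 1
              · exact Or.inr hxA
              · exact Or.inl ⟨hx, hxA⟩
          _ ≤ _ := measure_union_le _ _
          _ = volume (A ∩ Ub m 1) := by rw [h, zero_add]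
      have h' : (volume (Ub m 1)).toReal ≤ (volume (A ∩ Ub m 1)).toReal :=
        ENNReal.toReal_mono (ne_top_of_le_ne_top hUfin (measure_mono inter_subset_right)) hle
      rw [hvUb] at h'
      linarith
    have hPe : Pe m ε (A ∩ Ub m 1) ≠ 0 := by
      have hle := hiso ε hε (hlt.le.trans hε₁') (A ∩ Ub m 1) hAm
      intro h
      rw [h] at hle
      have h9 := le_antisymm hle bot_le
      rw [mul_eq_zero] at h9
      rcases h9 with h9 | h9
      · rw [ENNReal.ofReal_eq_zero] at h9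
        linarith
      · rw [ENNReal.rpow_eq_zero_iff] at h9
        rcases h9 with ⟨h9, -⟩ | ⟨-, h9⟩
        · rcases min_choice (volume ((A ∩ Ub m 1) ∩ Ub m 1)) (volume (Ub m 1 \ (A ∩ Ub m 1)))
            with h10 | h10
          · rw [h10] at h9; exact hA0 h9
          · rw [h10] at h9; exact hA1 h9
        · have : (0 : ℝ) < ((m : ℝ) + 1) / (m + 2) := by positivity
          linarith
    rw [hloc, hPA]
    exact mul_ne_zero hs' hPe
  refine ⟨t', F, ht0, ht1, hFK, hFc, hFr, hvol, hper_eq, hposF, hfinF, hminPer, ?_, ?_⟩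
  · intro G hGK hGm hGv
    have h10 := (hminPer G hGK hGm hGv).trans (h2 (2 + m) (Ub m ε) G (by omega) hop hGm)
    rw [hper_eq] at h10
    rwa [ENNReal.mul_le_mul_iff_right (exist0_c0_pos _) (exist0_c0_ne_top _)] at h10
  · intro v hv
    by_contra hg
    push Not at hg
    refine hno ε hε hlt2 A (Ls ε⁻¹ v) ?_
    have hinj : Function.Injective (Ls ε : E (2 + m) → E (2 + m)) := φ.injective
    have hLsv : Ls ε (Ls ε⁻¹ v) = v := by rw [Ls_Ls, mul_inv_cancel₀ hε.ne', Ls_one]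
    refine ⟨⟨hAc, hAr, ?_, ?_⟩, hmin⟩
    · intro h
      apply hv
      rw [← hLsv, h]
      exact (LsE m ε hε.ne').map_zero
    · intro x hx y hy c hyx
      apply hinj
      have hx' : Ls ε x ∈ frontier F ∩ Ub m ε := by
        have h8 := hx.1
        rw [hAf] at h8
        refine ⟨h8, ?_⟩
        rw [← hLsU]; exact mem_image_of_mem _ hx.2
      have hy' : Ls ε y ∈ frontier F ∩ Ub m ε := by
        have h8 := hy.1
        rw [hAf] at h8
        refine ⟨h8, ?_⟩
        rw [← hLsU]; exact mem_image_of_mem _ hy.2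
      have h9 : Ls ε y = Ls ε x + c • v := by
        have h9' : Ls ε y = (LsE m ε hε.ne') (x + c • Ls ε⁻¹ v) := by rw [← hyx]; rfl
        rw [h9', map_add, map_smul, LsE_apply, LsE_apply, hLsv]
      by_contra hxy
      exact hg _ hx' _ hy' hxy c h9

/-- The robust form of the result. -/
theorem robust : ∃ m₀ : ℕ, 2 ≤ m₀ ∧ ∀ m : ℕ, m₀ ≤ m → ∃ ε₀ : ℝ, 0 < ε₀ ∧
    ∀ ε : ℝ, 0 < ε → ε < ε₀ → ∃ (lam : ℝ) (F : Set (E (2 + m))), Robust m ε lam F := by
  obtain ⟨m₁, hm₁⟩ := (all_B_large kern ibp).exists_forall_of_atTop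
  refine ⟨max 2 m₁, le_max_left _ _, fun m hm => ?_⟩
  obtain ⟨κ, t, hyp⟩ := hm₁ m (le_trans (le_max_right _ _) hm)
  exact exist1 (all_A kern ibp) all_E2 body fin_peScale fin_minVol perCongr fin_lift fin_peIso
    fin_T m κ t hyp

end Pool.Agent.Lib.MP_c95dcf_gt
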