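import Pool.Agent.Lib.MP_c95dcf_gt.GStmts

/-!
# MP_c95dcf_gt, part G: task G15, `T X ≤ ∫ ‖X‖ dμ`
-/

set_option autoImplicit false

open MeasureTheory Set Filter Topology
open scoped ENNReal NNReal RealInnerProductSpace

namespace Pool.Agent.Lib.MP_c95dcf_gt

/-- The square of the positive part is `C¹`. -/
theorem varBound_posSq : ContDiff ℝ 1 (fun s : ℝ => (max s 0) ^ 2) := by
  have hd : ∀ s : ℝ, HasDerivAt (fun s : ℝ => (max s 0) ^ 2) (2 * max s 0) s := by
    intro s
    rcases lt_trichotomy s 0 with hs | hs | hs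
    · have h1 : (fun s : ℝ => (max s 0) ^ 2) =ᶠ[𝓝 s] fun _ => 0 := by
        filter_upwards [Iio_mem_nhds hs] with y hy
        rw [max_eq_right (le_of_lt hy)]; simp
      rw [max_eq_right hs.le, mul_zero]
      exact (hasDerivAt_const s (0 : ℝ)).congr_of_eventuallyEq h1
    · subst hs
      rw [max_self, mul_zero]
      rw [hasDerivAt_iff_isLittleO]
      simp only [max_self, sub_zero, smul_zero]
      rw [Asymptotics.isLittleO_iff]
      intro c hc
      filter_upwards [Metric.ball_mem_nhds (0 : ℝ) hc] with y hy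
      rw [Metric.mem_ball, dist_zero_right, Real.norm_eq_abs] at hy
      rw [Real.norm_eq_abs, Real.norm_eq_abs]
      have h2 : max y 0 ≤ |y| := max_le (le_abs_self y) (abs_nonneg y)
      have h3 : 0 ≤ max y 0 := le_max_right _ _
      have h4 : (0 : ℝ) ^ 2 = 0 := by norm_num
      rw [h4, sub_zero, abs_of_nonneg (by positivity)]
      nlinarith [abs_nonneg y]
    · have h1 : (fun s : ℝ => (max s 0) ^ 2) =ᶠ[𝓝 s] fun y => y ^ 2 := by
        filter_upwards [Ioi_mem_nhds hs] with y hy
        rw [max_eq_left (le_of_lt hy)]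
      rw [max_eq_left hs.le]
      have h2 : HasDerivAt (fun y : ℝ => y ^ 2) (2 * s) s := by
        simpa using hasDerivAt_pow 2 s
      exact h2.congr_of_eventuallyEq h1
  rw [contDiff_one_iff_deriv]
  refine ⟨fun s => (hd s).differentiableAt, ?_⟩
  have h : deriv (fun s : ℝ => (max s 0) ^ 2) = fun s => 2 * max s 0 := by
    ext s; exact (hd s).deriv
  rw [h]
  fun_prop

/-- A `C¹` approximation of the positive part, vanishing on the negative half line. -/
noncomputable def varBoundP (ε s : ℝ) : ℝ := √(ε ^ 2 + (max s 0) ^ 2) - ε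

theorem varBoundP_cd {ε : ℝ} (hε : 0 < ε) : ContDiff ℝ 1 (varBoundP ε) := by
  unfold varBoundP
  refine ContDiff.sub ?_ contDiff_const
  rw [contDiff_iff_contDiffAt]
  intro s
  refine ContDiffAt.sqrt ?_ ?_
  · exact (contDiff_const.add varBound_posSq).contDiffAt
  · positivity

theorem varBoundP_zero {ε s : ℝ} (hε : 0 < ε) (hs : s ≤ 0) : varBoundP ε s = 0 := by
  unfold varBoundP
  rw [max_eq_right hs]
  have : ε ^ 2 + (0 : ℝ) ^ 2 = ε ^ 2 := by ring
  rw [this, Real.sqrt_sq hε.le, sub_self]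

theorem varBoundP_mono {ε s t : ℝ} (hst : s ≤ t) : varBoundP ε s ≤ varBoundP ε t := by
  unfold varBoundP
  have h0 : 0 ≤ max s 0 := le_max_right _ _
  have h1 : max s 0 ≤ max t 0 := max_le_max hst le_rfl
  have : √(ε ^ 2 + (max s 0) ^ 2) ≤ √(ε ^ 2 + (max t 0) ^ 2) := by
    apply Real.sqrt_le_sqrt
    have := pow_le_pow_left₀ h0 h1 2
    linarith
  linarith

theorem varBoundP_lip {ε s t : ℝ} (hst : s ≤ t) :
    varBoundP ε t ≤ varBoundP ε s + (t - s) := by
  unfold varBoundP
  have h0 : 0 ≤ max s 0 := le_max_right _ _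
  have h1 : max s 0 ≤ max t 0 := max_le_max hst le_rfl
  have h2 : max t 0 - max s 0 ≤ t - s := by
    rcases le_total t 0 with ht | ht
    · rw [max_eq_right ht, max_eq_right (hst.trans ht)]; linarith
    · rw [max_eq_left ht]
      have := le_max_left s 0
      linarith
  have h3 : max s 0 ≤ √(ε ^ 2 + (max s 0) ^ 2) := by
    apply Real.le_sqrt_of_sq_le
    nlinarith [sq_nonneg ε]
  have h4 : √(ε ^ 2 + (max t 0) ^ 2) ≤ √(ε ^ 2 + (max s 0) ^ 2) + (max t 0 - max s 0) := by
    rw [Real.sqrt_le_left (by linarith [Real.sqrt_nonneg (ε ^ 2 + (max s 0) ^ 2)])]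
    have h5 : √(ε ^ 2 + (max s 0) ^ 2) ^ 2 = ε ^ 2 + (max s 0) ^ 2 :=
      Real.sq_sqrt (by positivity)
    nlinarith [mul_nonneg (sub_nonneg.2 h1) (sub_nonneg.2 h3)]
  linarith

theorem varBoundP_nonneg {ε s : ℝ} (hε : 0 < ε) : 0 ≤ varBoundP ε s := by
  rcases le_total s 0 with hs | hs
  · rw [varBoundP_zero hε hs]
  · rw [← varBoundP_zero hε le_rfl]
    exact varBoundP_mono hs

theorem varBoundP_lower {ε s : ℝ} : s - ε ≤ varBoundP ε s := by
  unfold varBoundP
  have h3 : max s 0 ≤ √(ε ^ 2 + (max s 0) ^ 2) := by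
    apply Real.le_sqrt_of_sq_le
    nlinarith [sq_nonneg ε]
  have := le_max_left s 0
  linarith

/-- The truncated vector. -/
noncomputable def varBoundF (n : ℕ) (ε a : ℝ) (v : E n) : E n :=
  (varBoundP ε (‖v‖ - a) * ‖v‖⁻¹) • v

theorem varBoundF_cd (n : ℕ) {ε a : ℝ} (hε : 0 < ε) (ha : 0 < a) :
    ContDiff ℝ 1 (varBoundF n ε a) := by
  rw [contDiff_iff_contDiffAt]
  intro v
  by_cases hv : v = 0
  · subst hv
    have h1 : varBoundF n ε a =ᶠ[𝓝 0] fun _ => 0 := by
      filter_upwards [Metric.ball_mem_nhds (0 : E n) ha] with y hy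
      rw [Metric.mem_ball, dist_zero_right] at hy
      unfold varBoundF
      rw [varBoundP_zero hε (by linarith), zero_mul, zero_smul]
    exact contDiffAt_const.congr_of_eventuallyEq h1
  · unfold varBoundF
    have hn : ContDiffAt ℝ 1 (fun v : E n => ‖v‖) v := contDiffAt_norm ℝ hv
    have h2 : ContDiffAt ℝ 1 (fun v : E n => varBoundP ε (‖v‖ - a)) v :=
      (varBoundP_cd hε).contDiffAt.comp v (hn.sub contDiffAt_const)
    have h3 : ContDiffAt ℝ 1 (fun v : E n => ‖v‖⁻¹) v := hn.inv (norm_ne_zero_iff.2 hv)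
    exact (h2.mul h3).smul contDiffAt_id

theorem varBoundF_zero (n : ℕ) {ε a : ℝ} (hε : 0 < ε) {v : E n} (hv : ‖v‖ ≤ a) :
    varBoundF n ε a v = 0 := by
  unfold varBoundF
  rw [varBoundP_zero hε (by linarith), zero_mul, zero_smul]

theorem varBoundF_sub (n : ℕ) {ε a b : ℝ} (hε : 0 < ε) (hab : a ≤ b) (v : E n) :
    ‖varBoundF n ε a v - varBoundF n ε b v‖ ≤ b - a := by
  unfold varBoundF
  rw [← sub_smul, ← sub_mul, norm_smul, norm_mul, norm_inv, norm_norm]
  by_cases hv : v = 0
  · subst hv; simp [hab]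
  · have hv' : ‖v‖ ≠ 0 := norm_ne_zero_iff.2 hv
    rw [mul_assoc, inv_mul_cancel₀ hv', mul_one, Real.norm_eq_abs]
    have h1 : varBoundP ε (‖v‖ - b) ≤ varBoundP ε (‖v‖ - a) := varBoundP_mono (by linarith)
    have h2 : varBoundP ε (‖v‖ - a) ≤ varBoundP ε (‖v‖ - b) + ((‖v‖ - a) - (‖v‖ - b)) :=
      varBoundP_lip (by linarith)
    rw [abs_of_nonneg (by linarith)]
    linarith

theorem varBoundF_id (n : ℕ) {ε a : ℝ} (hε : 0 < ε) (ha : 0 ≤ a) (v : E n) :
    ‖v - varBoundF n ε a v‖ ≤ a + ε := by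
  unfold varBoundF
  by_cases hv : v = 0
  · subst hv; simp; linarith
  · have hv' : ‖v‖ ≠ 0 := norm_ne_zero_iff.2 hv
    have h0 : v - (varBoundP ε (‖v‖ - a) * ‖v‖⁻¹) • v =
        (1 - varBoundP ε (‖v‖ - a) * ‖v‖⁻¹) • v := by
      rw [sub_smul, one_smul]
    rw [h0, norm_smul]
    have h1 : ‖1 - varBoundP ε (‖v‖ - a) * ‖v‖⁻¹‖ * ‖v‖ =
        |‖v‖ - varBoundP ε (‖v‖ - a)| := by
      conv_lhs => rw [← norm_norm v, ← norm_mul, norm_norm, sub_mul, mul_assoc,
        inv_mul_cancel₀ hv', one_mul, mul_one, Real.norm_eq_abs]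
    rw [h1]
    have h2 : (‖v‖ - a) - ε ≤ varBoundP ε (‖v‖ - a) := varBoundP_lower
    have h3 : varBoundP ε (‖v‖ - a) ≤ ‖v‖ := by
      have h4 : varBoundP ε (‖v‖ - a) ≤ varBoundP ε (-a) + ((‖v‖ - a) - (-a)) :=
        varBoundP_lip (by linarith [norm_nonneg v])
      rw [varBoundP_zero hε (by linarith : -a ≤ 0)] at h4
      linarith
    rw [abs_of_nonneg (by linarith)]
    linarith

/-- Bound of `T` on fields supported in an open set. -/
theorem varBound_open {n : ℕ} {U : Set (E n)} {T : (E n → E n) → ℝ} {M : ℝ}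
    {μ : Measure (E n)} (hT : IsFun U T M) (hμ : IsVar U T μ) {W : Set (E n)}
    (hW : IsOpen W) (hWU : W ⊆ U) {Z : E n → E n} (hZ : TF W Z) {c : ℝ} (hc : 0 < c)
    (hb : ∀ x, ‖Z x‖ ≤ c) : T Z ≤ c * μ.real W := by
  have := hμ.fin
  have hZU : TF U Z := ⟨hZ.diff, hZ.comp, hZ.supp.trans hWU⟩
  have hsc : TF W (c⁻¹ • Z) := by
    refine ⟨hZ.diff.const_smul c⁻¹, ?_, ?_⟩
    · exact hZ.comp.smul_left (f := fun _ => c⁻¹)
    · exact (tsupport_smul_subset_right (fun _ : E n => c⁻¹) Z).trans hZ.supp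
  have hn : ∀ x, ‖(c⁻¹ • Z) x‖ ≤ 1 := by
    intro x
    rw [Pi.smul_apply, norm_smul, norm_inv, Real.norm_eq_abs, abs_of_pos hc]
    rw [inv_mul_le_iff₀ hc, mul_one]
    exact hb x
  have h1 : ENNReal.ofReal (T (c⁻¹ • Z)) ≤ μ W := by
    rw [hμ.open_eq W hW hWU]
    exact le_iSup₂ (f := fun (X : E n → E n) (_ : TF W X ∧ ∀ x, ‖X x‖ ≤ 1) =>
      ENNReal.ofReal (T X)) (c⁻¹ • Z) ⟨hsc, hn⟩
  have h2 : T (c⁻¹ • Z) ≤ μ.real W := by
    rw [Measure.real, ← ENNReal.ofReal_le_iff_le_toReal (measure_ne_top μ W)]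
    exact h1
  rw [hT.smul c⁻¹ Z hZU, inv_mul_le_iff₀ hc] at h2
  exact h2

theorem varBound_count (δ t : ℝ) (hδ : 0 < δ) (ht : 0 ≤ t) (m : ℕ) :
    ∑ j ∈ Finset.range m, (if (j : ℝ) * δ < t then δ else 0) ≤ t + δ := by
  have key : ∀ m : ℕ, ∑ j ∈ Finset.range m, (if (j : ℝ) * δ < t then δ else 0) ≤ m * δ ∧
      ∑ j ∈ Finset.range m, (if (j : ℝ) * δ < t then δ else 0) ≤ t + δ := by
    intro m
    induction m with
    | zero => simp; linarith
    | succ m ih =>
      rw [Finset.sum_range_succ]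
      push_cast
      split_ifs with h
      · constructor <;> linarith [ih.1, ih.2]
      · constructor <;> linarith [ih.1, ih.2]
  exact (key m).2

theorem varBound : Stmt_VarBound := by
  intro n U T M μ hU hT hμ X hX
  have := hμ.fin
  have hXc : Continuous X := hX.diff.continuous
  obtain ⟨B, hB⟩ : ∃ B : ℝ, ∀ x, ‖X x‖ ≤ B := by
    obtain ⟨B, hB⟩ := hX.comp.exists_bound_of_continuous hXc
    exact ⟨B, hB⟩
  have hXint : Integrable (fun x => ‖X x‖) μ := by
    refine Integrable.mono' (integrable_const B) hXc.norm.aestronglyMeasurable ?_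
    refine ae_of_all _ fun x => ?_
    rw [norm_norm]; exact hB x
  -- main estimate
  have main : ∀ δ : ℝ, 0 < δ → T X ≤ (∫ x, ‖X x‖ ∂μ) + δ * (3 * μ.real univ) := by
    intro δ hδ
    set Y : ℕ → E n → E n := fun k x => varBoundF n δ ((k + 1 : ℝ) * δ) (X x) with hY
    have hYTF : ∀ k, TF U (Y k) := by
      intro k
      have ha : 0 < (k + 1 : ℝ) * δ := by positivity
      refine ⟨(varBoundF_cd n hδ ha).comp hX.diff, ?_, ?_⟩
      · exact hX.comp.comp_left (varBoundF_zero n hδ (by rw [norm_zero]; exact ha.le))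
      · refine (closure_mono ?_).trans hX.supp
        intro x hx
        rw [Function.mem_support] at hx ⊢
        intro h0
        apply hx
        simp only [hY, h0]
        exact varBoundF_zero n hδ (by rw [norm_zero]; exact ha.le)
    have hTsub : ∀ Z₁ Z₂ : E n → E n, TF U Z₁ → TF U Z₂ → TF U (Z₁ - Z₂) := by
      intro Z₁ Z₂ h₁ h₂
      refine ⟨h₁.diff.sub h₂.diff, h₁.comp.sub h₂.comp, ?_⟩
      exact (tsupport_sub Z₁ Z₂).trans (union_subset h₁.supp h₂.supp)
    have hTadd : ∀ Z₁ Z₂ : E n → E n, TF U Z₁ → TF U Z₂ → T Z₁ = T (Z₁ - Z₂) + T Z₂ := by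
      intro Z₁ Z₂ h₁ h₂
      rw [← hT.add _ _ (hTsub _ _ h₁ h₂) h₂, sub_add_cancel]
    -- first term
    have hfirst : T (X - Y 0) ≤ (2 * δ) * μ.real U := by
      refine varBound_open hT hμ hU le_rfl (hTsub _ _ hX (hYTF 0)) (by positivity) ?_
      intro x
      have := varBoundF_id n hδ (a := ((0 : ℕ) + 1 : ℝ) * δ) (by positivity) (X x)
      rw [Pi.sub_apply]
      simp only [hY]
      refine this.trans ?_
      push_cast
      linarith
    -- the layers
    have hlayer : ∀ k : ℕ, T (Y k - Y (k + 1)) ≤ δ * μ.real {x | (k : ℝ) * δ < ‖X x‖} := by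
      intro k
      have hWo : IsOpen {x | (k : ℝ) * δ < ‖X x‖} := isOpen_lt continuous_const hXc.norm
      refine varBound_open hT hμ hWo ?_ ⟨(hTsub _ _ (hYTF k) (hYTF (k + 1))).diff,
        (hTsub _ _ (hYTF k) (hYTF (k + 1))).comp, ?_⟩ hδ ?_
      · intro x hx
        apply hX.supp
        apply subset_tsupport
        rw [Function.mem_support]
        intro h0
        rw [mem_ofPred_eq, h0, norm_zero] at hx
        have : (0 : ℝ) ≤ k * δ := by positivity
        linarith
      · have hcl : IsClosed {x | (k + 1 : ℝ) * δ ≤ ‖X x‖} := isClosed_le continuous_const hXc.norm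
        have h1 : tsupport (Y k - Y (k + 1)) ⊆ {x | (k + 1 : ℝ) * δ ≤ ‖X x‖} := by
          refine closure_minimal ?_ hcl
          intro x hx
          rw [Function.mem_support] at hx
          by_contra hlt
          rw [mem_ofPred_eq, not_le] at hlt
          apply hx
          rw [Pi.sub_apply]
          simp only [hY]
          rw [varBoundF_zero n hδ hlt.le, varBoundF_zero n hδ, sub_zero]
          push_cast
          nlinarith
        refine h1.trans ?_
        intro x hx
        rw [mem_ofPred_eq] at hx ⊢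
        nlinarith
      · intro x
        have := varBoundF_sub n hδ (a := (k + 1 : ℝ) * δ) (b := ((k + 1 : ℕ) + 1 : ℝ) * δ)
          (by push_cast; nlinarith) (X x)
        rw [Pi.sub_apply]
        simp only [hY]
        refine this.trans ?_
        push_cast
        linarith
    -- telescoping
    have htel : ∀ m : ℕ, T (Y 0) ≤
        (∑ j ∈ Finset.range m, δ * μ.real {x | (j : ℝ) * δ < ‖X x‖}) + T (Y m) := by
      intro m
      induction m with
      | zero => simp
      | succ m ih =>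
        rw [Finset.sum_range_succ]
        have h1 := hTadd (Y m) (Y (m + 1)) (hYTF m) (hYTF (m + 1))
        have h2 := hlayer m
        linarith
    obtain ⟨m, hm⟩ := exists_nat_ge (B / δ)
    have hYm : Y m = 0 := by
      funext x
      simp only [hY, Pi.zero_apply]
      refine varBoundF_zero n hδ ?_
      rw [div_le_iff₀ hδ] at hm
      have := hB x
      nlinarith
    have hT0 : T (0 : E n → E n) = 0 := by
      have := hT.smul 0 X hX
      rwa [zero_smul, zero_mul] at this
    have h1 := htel m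
    rw [hYm, hT0, add_zero] at h1
    have hsum : ∑ j ∈ Finset.range m, δ * μ.real {x | (j : ℝ) * δ < ‖X x‖} ≤
        ∫ x, (‖X x‖ + δ) ∂μ := by
      have hms : ∀ j : ℕ, MeasurableSet {x | (j : ℝ) * δ < ‖X x‖} := fun j =>
        (isOpen_lt continuous_const hXc.norm).measurableSet
      have e1 : ∀ j : ℕ, δ * μ.real {x | (j : ℝ) * δ < ‖X x‖} =
          ∫ x, (if (j : ℝ) * δ < ‖X x‖ then δ else 0) ∂μ := by
        intro j
        have : (fun x => if (j : ℝ) * δ < ‖X x‖ then δ else 0) =
            {x | (j : ℝ) * δ < ‖X x‖}.indicator (fun _ => δ) := by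
          funext x
          simp [indicator_apply]
        rw [this, integral_indicator (hms j), setIntegral_const, smul_eq_mul, mul_comm]
      have hin : ∀ j : ℕ, Integrable (fun x => if (j : ℝ) * δ < ‖X x‖ then δ else 0) μ := by
        intro j
        have : (fun x => if (j : ℝ) * δ < ‖X x‖ then δ else 0) =
            {x | (j : ℝ) * δ < ‖X x‖}.indicator (fun _ => δ) := by
          funext x
          simp [indicator_apply]
        rw [this]
        exact (integrable_const δ).indicator (hms j)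
      simp_rw [e1]
      rw [← integral_finsetSum _ (fun j _ => hin j)]
      refine integral_mono (integrable_finsetSum _ (fun j _ => hin j))
        (hXint.add (integrable_const δ)) ?_
      intro x
      exact varBound_count δ ‖X x‖ hδ (norm_nonneg _) m
    rw [integral_add hXint (integrable_const δ), integral_const, smul_eq_mul] at hsum
    have h2 := hTadd X (Y 0) hX (hYTF 0)
    have h3 : μ.real U ≤ μ.real univ := measureReal_mono (subset_univ U)
    nlinarith
  -- let δ → 0
  refine le_of_forall_pos_le_add ?_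
  intro η hη
  set C := 3 * μ.real univ with hC
  have hC0 : 0 ≤ C := by positivity
  have h := main (η / (C + 1)) (by positivity)
  have h2 : η / (C + 1) * C ≤ η := by
    rw [div_mul_eq_mul_div, div_le_iff₀ (by positivity)]
    nlinarith
  linarith

end Pool.Agent.Lib.MP_c95dcf_gt
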